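import Pool.Agent.Lib.MP_7b7e48_nt.GT.Defs
import Pool.Agent.Lib.MP_7b7e48_nt.RG.Defs

/-!
# A prime plus an almost prime of prescribed parity for a small multiple of every integer: definitions

Paper proof: `/team-store/PB_PROOF.md`. `lam` is the (real valued) Liouville function, `Rough z n` says that
all prime factors of `n` are `> z`, `V z = ∏_{p ≤ z} (1 - 1/p)` (namespace `GT`). From `RG`: `PB N` is the
Polya-Vinogradov bound, `RC N c` (real character), `LV N c L` (`L = L(1, c)`), `rr c = 1 * c`, `SS c` its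
summatory function, `sig c z T` the sum of `1/q` over the primes `z < q ≤ T` with `c q = 1`.
-/

set_option autoImplicit false

open Finset
open Pool.Agent.Lib.GT (Rough pr V)
open Pool.Agent.Lib.MP_45349e_nt.LS (lam)
open Pool.Agent.Lib.RG (RC LV rr SS PB sig)

namespace Pool.Agent.Lib.PQ

/-- `N ^ x`, rounded down -/
noncomputable def pw (N : ℕ) (x : ℝ) : ℕ := ⌊(N : ℝ) ^ x⌋₊

/-- the hypothesis which is refuted: every representation `k N = p + b` with a prime `p ∈ (N, B]`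
and a `z`-rough `b ∈ (N, B]` has `lam b = t` -/
def HH (N B z : ℕ) (t : ℝ) : Prop := ∀ p b : ℕ, p.Prime → N < p → p ≤ B → N < b → b ≤ B →
  Rough z b → N ∣ p + b → lam b = t

open Classical in
/-- the `z`-rough numbers in `(A, B]` coprime to `N` -/
noncomputable def RS (N z A B : ℕ) : Finset ℕ :=
  (Finset.Ioc A B).filter fun n => Rough z n ∧ n.Coprime N

/-- logarithmic mass -/
noncomputable def ms (R : Finset ℕ) : ℝ := ∑ n ∈ R, 1 / (n : ℝ)

/-- logarithmic weights of total mass `1` -/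
noncomputable def wt (R : Finset ℕ) (n : ℕ) : ℝ := 1 / (n * ms R)

/-- `w` is a probability weight on `R`, and `R` consists of integers coprime to `N` -/
structure Wt (N : ℕ) (R : Finset ℕ) (w : ℕ → ℝ) : Prop where
  nonneg : ∀ n ∈ R, 0 ≤ w n
  one : ∑ n ∈ R, w n = 1
  cop : ∀ n ∈ R, n.Coprime N

/-- Bessel's inequality with constant `1 + e` for sets of at most `m` characters -/
def Bes (N : ℕ) (R : Finset ℕ) (w : ℕ → ℝ) (e : ℝ) (m : ℕ) : Prop :=
  ∀ X : Finset (DirichletCharacter ℂ N), X.card ≤ m → ∀ a : DirichletCharacter ℂ N → ℂ,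
    ∑ n ∈ R, w n * ‖∑ χ ∈ X, a χ * χ (n : ZMod N)‖ ^ 2 ≤ (1 + e) * ∑ χ ∈ X, ‖a χ‖ ^ 2

/-- average of a character -/
noncomputable def sv {N : ℕ} (R : Finset ℕ) (w : ℕ → ℝ) (χ : DirichletCharacter ℂ N) : ℂ :=
  ∑ n ∈ R, (w n : ℂ) * χ (n : ZMod N)

/-- average of `lam` times a character -/
noncomputable def lv {N : ℕ} (R : Finset ℕ) (w : ℕ → ℝ) (χ : DirichletCharacter ℂ N) : ℂ :=
  ∑ n ∈ R, (w n : ℂ) * ((lam n : ℂ) * χ (n : ZMod N))

/-- average of `χ⁻¹ (-q)` over `Q` -/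
noncomputable def rho {N : ℕ} (Q : Finset ℕ) (χ : DirichletCharacter ℂ N) : ℂ :=
  (∑ q ∈ Q, χ⁻¹ (-(q : ZMod N))) / Q.card

/-- average of `χ (m j)` over `J` -/
noncomputable def av {N : ℕ} {ι : Type} (J : Finset ι) (m : ι → ℕ) (χ : DirichletCharacter ℂ N) : ℂ :=
  (∑ j ∈ J, χ (m j : ZMod N)) / J.card

open Classical in
/-- normalised number of the `(q, j)` with `q = - m j * x` modulo `N` -/
noncomputable def Pf {ι : Type} (N : ℕ) (Q : Finset ℕ) (J : Finset ι) (m : ι → ℕ) (x : ZMod N) : ℝ :=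
  (N.totient : ℝ) / (Q.card * J.card) *
    (((Q ×ˢ J).filter fun y => (y.1 : ZMod N) + (m y.2 : ZMod N) * x = 0).card : ℝ)

/-! ### the parameters (`k` is the integer `1 / κ` of the paper proof) -/

/-- the moment `u` -/
def uu (k : ℕ) : ℕ := 400 * k

/-- the exponent `τ` -/
noncomputable def tau (k : ℕ) : ℝ := 1 / (16000 * (k : ℝ) ^ 2)

/-- the exponent in Siegel's theorem and in the divisor bound -/
noncomputable def eps (k : ℕ) : ℝ := tau k / 100

/-- the bound `N ^ (1 + 8 / k)` -/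
noncomputable def B1 (k N : ℕ) : ℕ := pw N (1 + 8 / k)

/-- the upper end of the range of the averaging variables -/
noncomputable def B0 (k N : ℕ) : ℕ := pw N (1 / 2 + 1 / k)

/-- the lower end of the range of the averaging variables -/
noncomputable def A0 (k N : ℕ) : ℕ := pw N (1 / 2 + 1 / (2 * k))

/-- the rough numbers between `N ^ (1/2 + 1/(2k))` and `N ^ (1/2 + 1/k)` -/
noncomputable def R0 (k : ℕ) (c : ℝ) (N : ℕ) : Finset ℕ := RS N (pw N c) (A0 k N) (B0 k N)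

/-- the logarithmic weights on `R0` -/
noncomputable def w0 (k : ℕ) (c : ℝ) (N : ℕ) : ℕ → ℝ := wt (R0 k c N)

open Classical in
/-- the primes in `(M/2, M]` which do not divide `N`, `M = N ^ (1/(u+1))` -/
noncomputable def PP (k N : ℕ) : Finset ℕ :=
  (Finset.Ioc (pw N (1 / (uu k + 1)) / 2) (pw N (1 / (uu k + 1)))).filter fun l => l.Prime ∧ ¬ l ∣ N

/-- the primes in `(N, B1]` -/
noncomputable def QQ (k N : ℕ) : Finset ℕ := (Finset.Ioc N (B1 k N)).filter Nat.Prime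

open Classical in
/-- the characters with a large average over `PP` -/
noncomputable def XX (k N : ℕ) [NeZero N] : Finset (DirichletCharacter ℂ N) :=
  Finset.univ.filter fun χ => (N : ℝ) ^ (-tau k) ≤ ‖av (PP k N) (fun l => l) χ‖

open Classical in
/-- the logarithmic mass of the `n` in `RS N z A B` with `lam n * c n = - b` -/
noncomputable def Bd (N z : ℕ) (c : ℕ → ℝ) (b : ℝ) (A B : ℕ) : ℝ :=
  ∑ n ∈ (RS N z A B).filter (fun n => lam n * c n = -b), 1 / (n : ℝ)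

/-- the assumptions on the real character and its value at `1` -/
structure Sit (k N : ℕ) (c : ℕ → ℝ) (L : ℝ) : Prop where
  rc : RC N c
  lv : LV N c L
  sieg : (N : ℝ) ^ (-eps k) ≤ L

/-- the sieve weight of a finite set of moduli -/
noncomputable def WD (D : Finset ℕ) (m : ℕ) : ℝ := ∑ d ∈ D with d ∣ m, (ArithmeticFunction.moebius d : ℝ)

/-- the admissible sets of moduli: small, and an upper bound sieve -/
structure DD (k : ℕ) (c : ℝ) (N : ℕ) (D : Finset ℕ) : Prop where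
  size : ∀ d ∈ D, 1 ≤ d ∧ (d : ℝ) ≤ (N : ℝ) ^ ((1 : ℝ) / (20 * k))
  upper : ∀ m : ℕ, 1 ≤ m → (if Rough (pw N c) m then (1 : ℝ) else 0) ≤ WD D m

/-- the range of the variable `m`: all integers in `(A0, B0]` coprime to `N` -/
noncomputable def MM (k N : ℕ) : Finset ℕ := (Finset.Ioc (A0 k N) (B0 k N)).filter fun m => m.Coprime N

/-- total sieve mass -/
noncomputable def ZW (k N : ℕ) (D : Finset ℕ) : ℝ := ∑ m ∈ MM k N, WD D m / m

/-- the weight system `a` on the set `U` of integers between `U0` and `4 * U0` -/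
structure US (k N : ℕ) (U : Finset ℕ) (a : ℕ → ℝ) (U0 : ℕ) : Prop where
  mem : ∀ u ∈ U, U0 < u ∧ u ≤ 4 * U0 ∧ u.Coprime N
  bnd : ∀ u ∈ U, 0 ≤ a u ∧ a u ≤ (N : ℝ) ^ eps k
  big : (U0 : ℝ) * (N : ℝ) ^ (-(tau k / 4)) ≤ ∑ u ∈ U, a u
  low : N ≤ U0 * A0 k N
  upp : 4 * U0 * B0 k N * pw N (1 / (uu k + 1)) ≤ B1 k N

/-- weighted number of the solutions of `q + u l m = 0` modulo `N` -/
noncomputable def SC (k N : ℕ) (D Q U : Finset ℕ) (a : ℕ → ℝ) : ℝ :=
  ∑ q ∈ Q, ∑ u ∈ U, ∑ l ∈ PP k N, ∑ m ∈ MM k N, if N ∣ q + u * l * m then a u * (WD D m / m) else 0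

/-- the expected value, without the number of the `q` -/
noncomputable def EX (k N : ℕ) (D U : Finset ℕ) (a : ℕ → ℝ) : ℝ :=
  (∑ u ∈ U, a u) * (PP k N).card * ZW k N D / N.totient

/-- the sign hypothesis: every weight system on rough numbers with constant sign `s` of `lam * c` has `s = b` -/
def SH (k : ℕ) (c : ℝ) (N : ℕ) (c₀ : ℕ → ℝ) (b : ℝ) : Prop :=
  ∀ (U : Finset ℕ) (a : ℕ → ℝ) (U0 : ℕ) (s : ℝ), US k N U a U0 →
    (∀ u ∈ U, 0 < a u → Rough (pw N c) u ∧ lam u * c₀ u = s) → s = b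

open Classical in
/-- the rough numbers in the dyadic block `j` with sign `s` -/
noncomputable def RJ (N z : ℕ) (c₀ : ℕ → ℝ) (j : ℕ) (s : ℝ) : Finset ℕ :=
  (Finset.Ioc (2 ^ j) (2 ^ (j + 1))).filter fun w => Rough z w ∧ w.Coprime N ∧ lam w * c₀ w = s

/-- in every dyadic block up to `N ^ (1/2 + 1/k)` one sign is rare -/
def OneSign (k : ℕ) (c : ℝ) (N : ℕ) (c₀ : ℕ → ℝ) : Prop :=
  ∀ j : ℕ, (2 : ℝ) ^ (j + 1) ≤ (N : ℝ) ^ ((1 : ℝ) / 2 + 1 / k) →
    ∃ s : ℝ, (s = 1 ∨ s = -1) ∧ ((RJ N (pw N c) c₀ j (-s)).card : ℝ) ≤ 2 ^ j * (N : ℝ) ^ (-(tau k / 8))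

/-- the sign of the block `j` is `s j`, and the signs are multiplicative -/
structure SG (k : ℕ) (c : ℝ) (N : ℕ) (c₀ : ℕ → ℝ) (s : ℕ → ℝ) : Prop where
  pm : ∀ j : ℕ, s j = 1 ∨ s j = -1
  rare : ∀ j : ℕ, (2 : ℝ) ^ (j + 1) ≤ (N : ℝ) ^ ((1 : ℝ) / 2 + 1 / k) →
    ((RJ N (pw N c) c₀ j (-(s j))).card : ℝ) ≤ 2 ^ j * (N : ℝ) ^ (-(tau k / 8))
  mul : ∀ i j : ℕ, pw N c ≤ 2 ^ i → pw N c ≤ 2 ^ j →
    (2 : ℝ) ^ (i + j + 2) ≤ (N : ℝ) ^ ((1 : ℝ) / 2 + 1 / k) →
    s (i + j) = s i * s j ∧ s (i + j + 1) = s i * s j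

end Pool.Agent.Lib.PQ
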