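import Pool.Agent.Lib.MP_7b7e48_nt.PQ.Defs

/-!
# B2m (20 minutes): Parseval

PROOF. Expand; `∑_{x unit} χ x * conj (ψ x) = ∑_x (χ * ψ⁻¹) x = φ(N)` if `χ = ψ`, `0` otherwise
(`MulChar.sum_eq_zero_of_ne_one`, `MulChar.sum_one_eq_card_units`; the sum over the units equals the sum over
all `x` because characters vanish off the units). `B2m_norm` is the case `c = d`.
-/

set_option autoImplicit false

open Finset
open Pool.Agent.Lib.GT (Rough pr V)
open Pool.Agent.Lib.MP_45349e_nt.LS (lam)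
open Pool.Agent.Lib.RG (RC LV rr SS PB sig)

namespace Pool.Agent.Lib.PQ

private theorem b2_sum {N : ℕ} [NeZero N] [DecidableEq (DirichletCharacter ℂ N)] (χ ψ : DirichletCharacter ℂ N) :
    ∑ x : (ZMod N)ˣ, χ (x : ZMod N) * (starRingEnd ℂ) (ψ (x : ZMod N)) = if χ = ψ then (N.totient : ℂ) else 0 := by
  have e : ∀ x : (ZMod N)ˣ, χ (x : ZMod N) * (starRingEnd ℂ) (ψ (x : ZMod N)) = (χ * ψ⁻¹) (x : ZMod N) := by
    intro x
    rw [MulChar.mul_apply, ← MulChar.star_apply']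
    rfl
  rw [sum_congr rfl fun x _ => e x]
  split_ifs with h
  · subst h
    rw [mul_inv_cancel]
    rw [sum_congr rfl fun x _ => MulChar.one_apply_coe x]
    simp [ZMod.card_units_eq_totient]
  · have hne : χ * ψ⁻¹ ≠ 1 := fun h1 => h (mul_inv_eq_one.mp h1)
    obtain ⟨u, hu⟩ := (MulChar.ne_one_iff).mp hne
    have h2 : ∑ x : (ZMod N)ˣ, (χ * ψ⁻¹) (x : ZMod N) = (χ * ψ⁻¹) (u : ZMod N) * ∑ x : (ZMod N)ˣ, (χ * ψ⁻¹) (x : ZMod N) := by
      rw [mul_sum, ← Equiv.sum_comp (Equiv.mulLeft u)]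
      refine sum_congr rfl fun x _ => ?_
      rw [← map_mul]
      simp
    have h3 : (1 - (χ * ψ⁻¹) (u : ZMod N)) * ∑ x : (ZMod N)ˣ, (χ * ψ⁻¹) (x : ZMod N) = 0 := by
      rw [sub_mul, one_mul, ← h2, sub_self]
    rcases mul_eq_zero.mp h3 with h4 | h4
    · exact absurd (sub_eq_zero.mp h4).symm hu
    · exact h4

theorem B2m (N : ℕ) [NeZero N] (c d : DirichletCharacter ℂ N → ℂ) :
    ∑ x : (ZMod N)ˣ, (∑ χ : DirichletCharacter ℂ N, c χ * χ (x : ZMod N)) *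
      (starRingEnd ℂ) (∑ χ : DirichletCharacter ℂ N, d χ * χ (x : ZMod N)) =
      N.totient * ∑ χ : DirichletCharacter ℂ N, c χ * (starRingEnd ℂ) (d χ) := by
  classical
  have e : ∀ x : (ZMod N)ˣ, (∑ χ : DirichletCharacter ℂ N, c χ * χ (x : ZMod N)) *
      (starRingEnd ℂ) (∑ χ : DirichletCharacter ℂ N, d χ * χ (x : ZMod N)) =
      ∑ χ : DirichletCharacter ℂ N, ∑ ψ : DirichletCharacter ℂ N, c χ * (starRingEnd ℂ) (d ψ) *
        (χ (x : ZMod N) * (starRingEnd ℂ) (ψ (x : ZMod N))) := by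
    intro x
    rw [map_sum, sum_mul_sum]
    refine sum_congr rfl fun χ _ => sum_congr rfl fun ψ _ => ?_
    rw [map_mul]
    ring
  rw [sum_congr rfl fun x _ => e x, sum_comm, mul_sum]
  refine sum_congr rfl fun χ _ => ?_
  rw [sum_comm]
  have e2 : ∀ ψ : DirichletCharacter ℂ N, ∑ x : (ZMod N)ˣ, c χ * (starRingEnd ℂ) (d ψ) *
        (χ (x : ZMod N) * (starRingEnd ℂ) (ψ (x : ZMod N))) =
      c χ * (starRingEnd ℂ) (d ψ) * (if χ = ψ then (N.totient : ℂ) else 0) := by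
    intro ψ
    rw [← mul_sum, b2_sum]
  rw [sum_congr rfl fun ψ _ => e2 ψ]
  simp only [mul_ite, mul_zero, sum_ite_eq, mem_univ, if_true]
  ring

theorem B2m_norm (N : ℕ) [NeZero N] (Y : Finset (DirichletCharacter ℂ N)) (c : DirichletCharacter ℂ N → ℂ) :
    ∑ x : (ZMod N)ˣ, ‖∑ χ ∈ Y, c χ * χ (x : ZMod N)‖ ^ 2 = N.totient * ∑ χ ∈ Y, ‖c χ‖ ^ 2 := by
  classical
  have h := B2m N (fun χ => if χ ∈ Y then c χ else 0) (fun χ => if χ ∈ Y then c χ else 0)
  have e1 : ∀ x : (ZMod N)ˣ, (∑ χ : DirichletCharacter ℂ N, (if χ ∈ Y then c χ else 0) * χ (x : ZMod N)) =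
      ∑ χ ∈ Y, c χ * χ (x : ZMod N) := by
    intro x
    rw [← sum_filter_add_sum_filter_not univ (fun χ => χ ∈ Y)]
    rw [sum_eq_zero (s := univ.filter (fun χ => ¬ χ ∈ Y)) (fun χ hχ => by
      rw [if_neg (mem_filter.mp hχ).2, zero_mul]), add_zero]
    have : (univ.filter (fun χ => χ ∈ Y)) = Y := by
      ext χ; simp
    rw [this]
    exact sum_congr rfl fun χ hχ => by rw [if_pos hχ]
  have e2 : ∑ χ : DirichletCharacter ℂ N, (if χ ∈ Y then c χ else 0) *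
      (starRingEnd ℂ) (if χ ∈ Y then c χ else 0) = ∑ χ ∈ Y, c χ * (starRingEnd ℂ) (c χ) := by
    rw [← sum_filter_add_sum_filter_not univ (fun χ => χ ∈ Y)]
    rw [sum_eq_zero (s := univ.filter (fun χ => ¬ χ ∈ Y)) (fun χ hχ => by
      rw [if_neg (mem_filter.mp hχ).2, zero_mul]), add_zero]
    have : (univ.filter (fun χ => χ ∈ Y)) = Y := by
      ext χ; simp
    rw [this]
    exact sum_congr rfl fun χ hχ => by rw [if_pos hχ]
  simp only [e1] at h
  rw [e2] at h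
  simp only [Complex.mul_conj'] at h
  exact_mod_cast h

end Pool.Agent.Lib.PQ
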