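import Pool.Agent.Lib.MP_7b7e48_nt.PQ.B2m

/-!
# B5m (50 minutes): mean square over products of two rough numbers

PROOF. Put `F x = ∑_Y c χ * χ x`. The left side is `∑_{x unit} ‖F x‖² * S x`,
`S x = ∑ over (n, n') ∈ R × R with n n' = x mod N of 1/(n n')`. Group by `r = n n'`: `A² < r ≤ B²`, `r` is `z`-rough, so
it has at most `J` prime factors with multiplicity (`z ^ Ω(r) < r ≤ B² < z ^ (J+1)` if `r > 1`; use
`Nat.primeFactorsList`), hence at most `2 ^ J` divisors (`card_divisors_le`: number of divisors `≤ 2 ^ Ω`, by induction or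
`Nat.divisors` of a product), so at most `2 ^ J` pairs. Moreover `r > A² ≥ N`, so `r = x₀ + N j` with `0 ≤ x₀ < N`,
`1 ≤ j ≤ B² / N`, and `∑ 1/r ≤ (1/N) ∑_{j ≤ B²} 1/j ≤ (1 + 2 log B) / N`. So `S x ≤ 2 ^ J (1 + 2 log B) / N`, and
`∑_{x unit} ‖F x‖² = φ(N) ∑_Y ‖c‖² ≤ N ∑_Y ‖c‖²` (`B2m_norm`).
-/

set_option autoImplicit false

open Finset
open Pool.Agent.Lib.GT (Rough pr V)
open Pool.Agent.Lib.MP_45349e_nt.LS (lam)
open Pool.Agent.Lib.RG (RC LV rr SS PB sig)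

namespace Pool.Agent.Lib.PQ

/-- a rough number below `z ^ (J + 1)` has at most `2 ^ J` divisors -/
private theorem b5_div {z J r : ℕ} (hz : 2 ≤ z) (hr : 0 < r) (hro : Rough z r)
    (hrB : r < z ^ (J + 1)) : r.divisors.card ≤ 2 ^ J := by
  rw [Nat.card_divisors hr.ne']
  have h1 : z ^ (∑ p ∈ r.primeFactors, r.factorization p) ≤ r := by
    conv_rhs => rw [← Nat.prod_factorization_pow_eq_self hr.ne']
    rw [← Finset.prod_pow_eq_pow_sum, Finsupp.prod, Nat.support_factorization]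
    refine Finset.prod_le_prod' fun p hp => ?_
    exact Nat.pow_le_pow_left
      (hro p (Nat.prime_of_mem_primeFactors hp) (Nat.dvd_of_mem_primeFactors hp)).le _
  have h2 : ∑ p ∈ r.primeFactors, r.factorization p ≤ J := by
    by_contra hc
    have h3 : z ^ (J + 1) ≤ z ^ (∑ p ∈ r.primeFactors, r.factorization p) :=
      Nat.pow_le_pow_right (by omega) (by omega)
    omega
  calc ∏ p ∈ r.primeFactors, (r.factorization p + 1)
      ≤ ∏ p ∈ r.primeFactors, 2 ^ (r.factorization p) :=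
        Finset.prod_le_prod' fun p _ => Nat.succ_le_of_lt (Nat.lt_two_pow_self)
    _ = 2 ^ (∑ p ∈ r.primeFactors, r.factorization p) := Finset.prod_pow_eq_pow_sum _ _ _
    _ ≤ 2 ^ J := Nat.pow_le_pow_right (by norm_num) h2

private theorem b5_harm {B : ℕ} (hB : 1 ≤ B) :
    ∑ j ∈ Finset.Icc 1 (B ^ 2), 1 / (j : ℝ) ≤ 1 + 2 * Real.log B := by
  have h1 := harmonic_le_one_add_log (B ^ 2)
  rw [harmonic_eq_sum_Icc] at h1
  push_cast at h1
  rw [Real.log_pow] at h1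
  push_cast at h1
  refine le_trans (le_of_eq ?_) h1
  refine Finset.sum_congr rfl fun j _ => ?_
  rw [one_div]

theorem B5m (N : ℕ) [NeZero N] (z A B J : ℕ) (hz : 2 ≤ z) (hA : N ≤ A ^ 2) (hAB : A ≤ B)
    (hJ : B ^ 2 < z ^ (J + 1)) (Y : Finset (DirichletCharacter ℂ N)) (c : DirichletCharacter ℂ N → ℂ) :
    ∑ n ∈ RS N z A B, ∑ n' ∈ RS N z A B, 1 / ((n : ℝ) * n') *
      ‖∑ χ ∈ Y, c χ * (χ (n : ZMod N) * χ (n' : ZMod N))‖ ^ 2 ≤
      2 ^ J * (1 + 2 * Real.log B) * ∑ χ ∈ Y, ‖c χ‖ ^ 2 := by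
  classical
  set F : ZMod N → ℂ := fun x => ∑ χ ∈ Y, c χ * χ x with hF
  have hN : 0 < N := Nat.pos_of_ne_zero (NeZero.ne N)
  have hA1 : 1 ≤ A := by
    rcases Nat.eq_zero_or_pos A with h | h
    · rw [h] at hA
      simp at hA
      omega
    · exact h
  have hB1 : 1 ≤ B := hA1.trans hAB
  have hlog : 0 ≤ Real.log B := Real.log_nonneg (by exact_mod_cast hB1)
  set S := RS N z A B with hS
  have hSmem : ∀ n ∈ S, A < n ∧ n ≤ B ∧ Rough z n := by
    intro n hn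
    rw [hS, RS, mem_filter, mem_Ioc] at hn
    exact ⟨hn.1.1, hn.1.2, hn.2.1⟩
  set g : ℕ → ℝ := fun r => 1 / (r : ℝ) * ‖F (r : ZMod N)‖ ^ 2 with hg
  have hg0 : ∀ r, 0 ≤ g r := fun r => by rw [hg]; positivity
  have e1 : ∑ n ∈ S, ∑ n' ∈ S, 1 / ((n : ℝ) * n') *
      ‖∑ χ ∈ Y, c χ * (χ (n : ZMod N) * χ (n' : ZMod N))‖ ^ 2 =
      ∑ y ∈ S ×ˢ S, g (y.1 * y.2) := by
    rw [sum_product]
    refine sum_congr rfl fun n _ => sum_congr rfl fun n' _ => ?_
    rw [hg, hF]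
    simp only [Nat.cast_mul, map_mul]
  rw [e1]
  set T : Finset ℕ := (Finset.Ioc (A ^ 2) (B ^ 2)).filter (fun r => Rough z r) with hT
  have hmaps : ∀ y ∈ S ×ˢ S, y.1 * y.2 ∈ T := by
    intro y hy
    obtain ⟨h1, h2⟩ := mem_product.1 hy
    obtain ⟨a1, b1, c1⟩ := hSmem _ h1
    obtain ⟨a2, b2, c2⟩ := hSmem _ h2
    rw [hT, mem_filter, mem_Ioc]
    refine ⟨⟨?_, ?_⟩, ?_⟩
    · rw [sq]
      exact Nat.mul_lt_mul'' a1 a2
    · rw [sq]
      exact Nat.mul_le_mul b1 b2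
    · intro p hp hpd
      rcases (hp.dvd_mul).1 hpd with h | h
      · exact c1 p hp h
      · exact c2 p hp h
  rw [← sum_fiberwise_of_maps_to hmaps]
  have e2 : ∀ r ∈ T, ∑ y ∈ S ×ˢ S with y.1 * y.2 = r, g (y.1 * y.2) ≤ 2 ^ J * g r := by
    intro r hr
    rw [hT, mem_filter, mem_Ioc] at hr
    have hr0 : 0 < r := by omega
    have h1 : ∑ y ∈ S ×ˢ S with y.1 * y.2 = r, g (y.1 * y.2) =
        (((S ×ˢ S).filter fun y => y.1 * y.2 = r).card : ℝ) * g r := by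
      rw [← nsmul_eq_mul, ← sum_const]
      refine sum_congr rfl fun y hy => ?_
      rw [(mem_filter.1 hy).2]
    rw [h1]
    refine mul_le_mul_of_nonneg_right ?_ (hg0 r)
    have h2 : ((S ×ˢ S).filter fun y => y.1 * y.2 = r).card ≤ r.divisors.card := by
      refine card_le_card_of_injOn (fun y => y.1) ?_ ?_
      · intro y hy
        have h3 := (mem_filter.1 (mem_coe.1 hy)).2
        exact mem_coe.2 (Nat.mem_divisors.2 ⟨⟨y.2, h3.symm⟩, hr0.ne'⟩)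
      · intro y hy y' hy' hyy
        have h3 := (mem_filter.1 (mem_coe.1 hy)).2
        have h4 := (mem_filter.1 (mem_coe.1 hy')).2
        have hyy' : y.1 = y'.1 := hyy
        have h5 : 0 < y.1 := Nat.pos_of_ne_zero fun h0 => by
          rw [h0, zero_mul] at h3
          omega
        have h6 : y.1 * y.2 = y.1 * y'.2 := by rw [h3, hyy', h4]
        exact Prod.ext hyy' (Nat.eq_of_mul_eq_mul_left h5 h6)
    have h3 := h2.trans (b5_div hz hr0 hr.2 (lt_of_le_of_lt hr.1.2 hJ))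
    exact_mod_cast h3
  refine (sum_le_sum e2).trans ?_
  rw [← mul_sum, mul_assoc]
  refine mul_le_mul_of_nonneg_left ?_ (by positivity)
  -- the residue classes
  set H : ZMod N × ℕ → ℝ := fun y => 1 / ((N : ℝ) * y.2) * ‖F y.1‖ ^ 2 with hH
  have hH0 : ∀ y, 0 ≤ H y := fun y => by rw [hH]; positivity
  have hTr : ∀ r ∈ T, N < r ∧ r ≤ B ^ 2 := by
    intro r hr
    rw [hT, mem_filter, mem_Ioc] at hr
    omega
  have e3 : ∑ r ∈ T, g r ≤ ∑ r ∈ T, H ((r : ZMod N), r / N) := by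
    refine sum_le_sum fun r hr => ?_
    have h1 := (hTr r hr).1
    have h2 : 1 ≤ r / N := (Nat.one_le_div_iff hN).2 h1.le
    have h3 : (N : ℝ) * ((r / N : ℕ) : ℝ) ≤ r := by
      exact_mod_cast Nat.mul_div_le r N
    have h4 : (0 : ℝ) < (N : ℝ) * ((r / N : ℕ) : ℝ) := by
      have : (0 : ℝ) < ((r / N : ℕ) : ℝ) := by exact_mod_cast h2
      positivity
    rw [hg, hH]
    exact mul_le_mul_of_nonneg_right (one_div_le_one_div_of_le h4 h3) (by positivity)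
  have hinj : Set.InjOn (fun r : ℕ => (((r : ZMod N), r / N) : ZMod N × ℕ)) (T : Set ℕ) := by
    intro r _ r' _ hrr
    have h1 : (r : ZMod N) = (r' : ZMod N) := congrArg Prod.fst hrr
    have h2 : r / N = r' / N := congrArg Prod.snd hrr
    rw [ZMod.natCast_eq_natCast_iff'] at h1
    rw [← Nat.div_add_mod r N, ← Nat.div_add_mod r' N, h1, h2]
  have e4 : ∑ r ∈ T, H ((r : ZMod N), r / N) =
      ∑ y ∈ T.image (fun r : ℕ => (((r : ZMod N), r / N) : ZMod N × ℕ)), H y := by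
    rw [sum_image hinj]
  have e5 : ∑ y ∈ T.image (fun r : ℕ => (((r : ZMod N), r / N) : ZMod N × ℕ)), H y ≤
      ∑ y ∈ (Finset.univ : Finset (ZMod N)) ×ˢ Finset.Icc 1 (B ^ 2), H y := by
    refine sum_le_sum_of_subset_of_nonneg ?_ (fun y _ _ => hH0 y)
    intro y hy
    obtain ⟨r, hr, rfl⟩ := mem_image.1 hy
    have h1 := hTr r hr
    have h2 : 1 ≤ r / N := (Nat.one_le_div_iff hN).2 h1.1.le
    have h3 : r / N ≤ r := Nat.div_le_self r N
    exact mem_product.2 ⟨mem_univ _, mem_Icc.2 ⟨h2, by omega⟩⟩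
  have e6 : ∑ y ∈ (Finset.univ : Finset (ZMod N)) ×ˢ Finset.Icc 1 (B ^ 2), H y =
      (∑ x : ZMod N, ‖F x‖ ^ 2) * (1 / N * ∑ j ∈ Finset.Icc 1 (B ^ 2), 1 / (j : ℝ)) := by
    rw [sum_product, sum_mul]
    refine sum_congr rfl fun x _ => ?_
    rw [mul_sum, mul_sum]
    refine sum_congr rfl fun j _ => ?_
    rw [hH]
    simp only
    rw [one_div_mul_one_div]
    ring
  have e7 : ∑ x : ZMod N, ‖F x‖ ^ 2 = ∑ x : (ZMod N)ˣ, ‖F (x : ZMod N)‖ ^ 2 := by
    have h1 : ∑ x ∈ Finset.image (fun u : (ZMod N)ˣ => (u : ZMod N)) Finset.univ, ‖F x‖ ^ 2 =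
        ∑ x : ZMod N, ‖F x‖ ^ 2 := by
      refine sum_subset (subset_univ _) fun x _ hx => ?_
      have h2 : ¬ IsUnit x := by
        rintro ⟨u, rfl⟩
        exact hx (mem_image.2 ⟨u, mem_univ u, rfl⟩)
      have h3 : F x = 0 := by
        rw [hF]
        refine sum_eq_zero fun χ _ => ?_
        rw [χ.map_nonunit h2, mul_zero]
      rw [h3, norm_zero]
      norm_num
    rw [← h1, sum_image]
    intro u _ v _ huv
    exact Units.ext huv
  have e8 : ∑ x : (ZMod N)ˣ, ‖F (x : ZMod N)‖ ^ 2 ≤ N * ∑ χ ∈ Y, ‖c χ‖ ^ 2 := by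
    rw [hF, B2m_norm N Y c]
    refine mul_le_mul_of_nonneg_right ?_ (sum_nonneg fun χ _ => by positivity)
    exact_mod_cast Nat.totient_le N
  have e9 := b5_harm hB1
  have hN' : (0 : ℝ) < N := by exact_mod_cast hN
  have h0 : 0 ≤ ∑ χ ∈ Y, ‖c χ‖ ^ 2 := sum_nonneg fun χ _ => by positivity
  calc ∑ r ∈ T, g r ≤ (∑ x : ZMod N, ‖F x‖ ^ 2) *
        (1 / N * ∑ j ∈ Finset.Icc 1 (B ^ 2), 1 / (j : ℝ)) := by
          rw [← e6]
          exact e3.trans (e4.le.trans e5)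
    _ ≤ (N * ∑ χ ∈ Y, ‖c χ‖ ^ 2) * (1 / N * (1 + 2 * Real.log B)) := by
        rw [e7]
        gcongr
    _ = (1 + 2 * Real.log B) * ∑ χ ∈ Y, ‖c χ‖ ^ 2 := by
        field_simp

end Pool.Agent.Lib.PQ
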