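import Pool.Agent.Lib.MP_7b7e48_nt.PQ.Defs

/-!
# B1m (25 minutes): Fourier expansion of the counting function

PROOF. `∑_χ χ⁻¹ (-q) * χ (m j) * χ x = ∑_χ χ⁻¹ (-q) * χ (m j * x) = φ(N)` if `-q = m j * x` and `0` otherwise
(`DirichletCharacter.sum_char_inv_mul_char_eq`; `-q` is a unit because `q` is coprime to `N`;
`χ⁻¹ a = χ a⁻¹` for a unit `a`, `MulChar.inv_apply`). Sum over `(q, j)` and exchange. `rho_one`, `av_one`,
`rho_le`, `av_le`, `av_inv`, `rho_inv` are direct (`χ⁻¹ a = conj (χ a)`).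
-/

set_option autoImplicit false

open Finset
open Pool.Agent.Lib.GT (Rough pr V)
open Pool.Agent.Lib.MP_45349e_nt.LS (lam)
open Pool.Agent.Lib.RG (RC LV rr SS PB sig)

namespace Pool.Agent.Lib.PQ

private theorem b1_inv_unit {N : ℕ} (χ : DirichletCharacter ℂ N) {a : ZMod N} (ha : IsUnit a) : χ⁻¹ a = χ a⁻¹ := by
  rw [MulChar.inv_apply_eq_inv']
  symm
  apply eq_inv_of_mul_eq_one_left
  rw [← map_mul, ZMod.inv_mul_of_unit a ha, map_one]

private theorem b1_unit {N q : ℕ} (h : q.Coprime N) : IsUnit (-(q : ZMod N)) :=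
  ((ZMod.isUnit_iff_coprime q N).mpr h).neg

theorem B1m {ι : Type} (N : ℕ) [NeZero N] (Q : Finset ℕ) (hQ : ∀ q ∈ Q, q.Coprime N)
    (J : Finset ι) (m : ι → ℕ) (x : ZMod N) (hx : IsUnit x) :
    ((Pf N Q J m x : ℝ) : ℂ) = ∑ χ : DirichletCharacter ℂ N, rho Q χ * av J m χ * χ x := by
  classical
  have e : ∀ χ : DirichletCharacter ℂ N, rho Q χ * av J m χ * χ x =
      1 / ((Q.card : ℂ) * J.card) *
        ∑ q ∈ Q, ∑ j ∈ J, χ (-(q : ZMod N))⁻¹ * χ ((m j : ZMod N) * x) := by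
    intro χ
    unfold rho av
    have e1 : ∀ q ∈ Q, ∑ j ∈ J, χ (-(q : ZMod N))⁻¹ * χ ((m j : ZMod N) * x) =
        χ⁻¹ (-(q : ZMod N)) * ((∑ j ∈ J, χ (m j : ZMod N)) * χ x) := by
      intro q hq
      rw [b1_inv_unit χ (b1_unit (hQ q hq)), sum_mul, mul_sum]
      refine sum_congr rfl fun j _ => ?_
      rw [map_mul]
    rw [sum_congr rfl e1, ← sum_mul]
    ring
  rw [sum_congr rfl fun χ _ => e χ, ← mul_sum, sum_comm]
  have e2 : ∀ q ∈ Q, ∑ χ : DirichletCharacter ℂ N, ∑ j ∈ J, χ (-(q : ZMod N))⁻¹ * χ ((m j : ZMod N) * x) =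
      ∑ j ∈ J, if (q : ZMod N) + (m j : ZMod N) * x = 0 then (N.totient : ℂ) else 0 := by
    intro q hq
    rw [sum_comm]
    refine sum_congr rfl fun j _ => ?_
    rw [DirichletCharacter.sum_char_inv_mul_char_eq ℂ (b1_unit (hQ q hq))]
    have : (-(q : ZMod N) = (m j : ZMod N) * x) ↔ ((q : ZMod N) + (m j : ZMod N) * x = 0) := by
      rw [neg_eq_iff_add_eq_zero]
    simp only [this]
  rw [sum_congr rfl e2]
  unfold Pf
  rw [card_filter, sum_product]
  push_cast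
  have e3 : ∀ q j, (if (q : ZMod N) + (m j : ZMod N) * x = 0 then (N.totient : ℂ) else 0) =
      (N.totient : ℂ) * (if (q : ZMod N) + (m j : ZMod N) * x = 0 then (1 : ℂ) else 0) := by
    intro q j
    split_ifs <;> simp
  have e4 : ∀ (q : ZMod N) (j : ι), (((if q + (m j : ZMod N) * x = 0 then (1 : ℝ) else 0 : ℝ)) : ℂ) =
      (if q + (m j : ZMod N) * x = 0 then (1 : ℂ) else 0) := by
    intro q j
    split_ifs <;> simp
  simp only [e3, e4, ← mul_sum]
  ring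

theorem rho_one {N : ℕ} [NeZero N] (Q : Finset ℕ) (hQ : ∀ q ∈ Q, q.Coprime N) (h0 : Q.Nonempty) :
    rho Q (1 : DirichletCharacter ℂ N) = 1 := by
  unfold rho
  have h : ∀ q ∈ Q, (1 : DirichletCharacter ℂ N)⁻¹ (-(q : ZMod N)) = 1 := by
    intro q hq
    rw [inv_one, MulChar.one_apply (b1_unit (hQ q hq))]
  rw [sum_congr rfl h, sum_const, nsmul_eq_mul, mul_one, div_self]
  exact_mod_cast (card_pos.mpr h0).ne'

theorem av_one {N : ℕ} [NeZero N] {ι : Type} (J : Finset ι) (m : ι → ℕ) (hm : ∀ j ∈ J, (m j).Coprime N)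
    (h0 : J.Nonempty) : av J m (1 : DirichletCharacter ℂ N) = 1 := by
  unfold av
  have h : ∀ j ∈ J, (1 : DirichletCharacter ℂ N) (m j : ZMod N) = 1 := by
    intro j hj
    rw [MulChar.one_apply ((ZMod.isUnit_iff_coprime (m j) N).mpr (hm j hj))]
  rw [sum_congr rfl h, sum_const, nsmul_eq_mul, mul_one, div_self]
  exact_mod_cast (card_pos.mpr h0).ne'

private theorem b1_div_le {ι : Type*} (s : Finset ι) (f : ι → ℂ) (h : ∀ i ∈ s, ‖f i‖ ≤ 1) :
    ‖(∑ i ∈ s, f i) / (s.card : ℂ)‖ ≤ 1 := by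
  rw [norm_div, Complex.norm_natCast]
  refine div_le_one_of_le₀ ?_ (Nat.cast_nonneg _)
  calc ‖∑ i ∈ s, f i‖ ≤ ∑ i ∈ s, ‖f i‖ := norm_sum_le _ _
    _ ≤ ∑ _i ∈ s, (1 : ℝ) := sum_le_sum h
    _ = s.card := by simp

theorem rho_le {N : ℕ} [NeZero N] (Q : Finset ℕ) (χ : DirichletCharacter ℂ N) : ‖rho Q χ‖ ≤ 1 := by
  unfold rho
  exact b1_div_le Q _ fun q _ => DirichletCharacter.norm_le_one _ _

theorem av_le {N : ℕ} [NeZero N] {ι : Type} (J : Finset ι) (m : ι → ℕ) (χ : DirichletCharacter ℂ N) :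
    ‖av J m χ‖ ≤ 1 := by
  unfold av
  exact b1_div_le J _ fun q _ => DirichletCharacter.norm_le_one _ _

private theorem b1_star {N : ℕ} (χ : DirichletCharacter ℂ N) (a : ZMod N) :
    χ⁻¹ a = (starRingEnd ℂ) (χ a) := by
  rw [← MulChar.star_apply']
  rfl

theorem rho_inv {N : ℕ} [NeZero N] (Q : Finset ℕ) (χ : DirichletCharacter ℂ N) :
    rho Q χ⁻¹ = (starRingEnd ℂ) (rho Q χ) := by
  unfold rho
  rw [map_div₀, map_sum, Complex.conj_natCast]
  congr 1
  exact sum_congr rfl fun q _ => b1_star χ⁻¹ _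

theorem av_inv {N : ℕ} [NeZero N] {ι : Type} (J : Finset ι) (m : ι → ℕ) (χ : DirichletCharacter ℂ N) :
    av J m χ⁻¹ = (starRingEnd ℂ) (av J m χ) := by
  unfold av
  rw [map_div₀, map_sum, Complex.conj_natCast]
  congr 1
  exact sum_congr rfl fun q _ => b1_star χ _

/-- the products of two multipliers -/
theorem av_prod {N : ℕ} [NeZero N] {ι : Type} (J : Finset ι) (m : ι → ℕ) (χ : DirichletCharacter ℂ N) :
    av (J ×ˢ J) (fun y : ι × ι => m y.1 * m y.2) χ = av J m χ ^ 2 := by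
  unfold av
  rw [sum_product, card_product]
  have e : ∀ i ∈ J, ∑ j ∈ J, χ ((m i * m j : ℕ) : ZMod N) = χ (m i : ZMod N) * ∑ j ∈ J, χ (m j : ZMod N) := by
    intro i _
    rw [mul_sum]
    refine sum_congr rfl fun j _ => ?_
    push_cast
    rw [map_mul]
  simp only
  rw [sum_congr rfl e, ← sum_mul]
  push_cast
  ring

end Pool.Agent.Lib.PQ
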