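import Pool.Agent.Lib.MP_7b7e48_nt.PQ.Defs

/-!
# B4m (45 minutes): the high moment of the averages over primes

PROOF. `‖∑_l χ l‖ ^ (2u) = ∑ over f, f' : Fin u → Q of χ (∏ f) * conj (χ (∏ f'))` (`Finset.sum_pow'` /
`Finset.prod_univ_sum` with `Fintype.piFinset`). Sum over `χ`: `φ(N)` times the number of pairs with
`∏ f = ∏ f'` modulo `N`; both products are `≤ M ^ u < N`, so they are equal as integers, so by unique factorisation
the multisets of values of `f` and `f'` are equal, and `f' = f ∘ σ` for a permutation `σ` of `Fin u`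
(`Multiset.map` equality, e.g. `List.Perm`, or `Tuple` / `Equiv.Perm` lemmas): at most `u!` functions `f'` for each of the
`#Q ^ u` functions `f`. Divide by `#Q ^ (2u)`.
-/

set_option autoImplicit false

open Finset
open Pool.Agent.Lib.GT (Rough pr V)
open Pool.Agent.Lib.MP_45349e_nt.LS (lam)
open Pool.Agent.Lib.RG (RC LV rr SS PB sig)

namespace Pool.Agent.Lib.PQ

/-- `u`-tuples with the same product are permutations of each other -/
private theorem B4m_perm {u : ℕ} (f g : Fin u → ℕ) (hf : ∀ i, (f i).Prime) (hg : ∀ i, (g i).Prime)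
    (h : ∏ i, f i = ∏ i, g i) : (List.ofFn g).Perm (List.ofFn f) := by
  have h1 : (List.ofFn g).prod = ∏ i, f i := by rw [List.prod_ofFn, h]
  have h2 : (List.ofFn f).prod = ∏ i, f i := by rw [List.prod_ofFn]
  have h3 := Nat.primeFactorsList_unique h1 (by
    intro p hp
    rw [List.mem_ofFn] at hp
    obtain ⟨i, rfl⟩ := hp
    exact hg i)
  have h4 := Nat.primeFactorsList_unique h2 (by
    intro p hp
    rw [List.mem_ofFn] at hp
    obtain ⟨i, rfl⟩ := hp
    exact hf i)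
  exact h3.trans h4.symm

open Classical in
private theorem B4m_count {u : ℕ} (Q : Finset ℕ) (hQ : ∀ l ∈ Q, l.Prime) (f : Fin u → ℕ)
    (hf : ∀ i, f i ∈ Q) :
    ((Fintype.piFinset (fun _ : Fin u => Q)).filter (fun g => ∏ i, f i = ∏ i, g i)).card ≤ u.factorial := by
  have h1 : ((Fintype.piFinset (fun _ : Fin u => Q)).filter (fun g => ∏ i, f i = ∏ i, g i)).card ≤
      ((List.ofFn f).permutations.toFinset).card := by
    refine card_le_card_of_injOn (fun g => List.ofFn g) ?_ ?_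
    · intro g hg
      rw [mem_coe, mem_filter, Fintype.mem_piFinset] at hg
      rw [mem_coe, List.mem_toFinset, List.mem_permutations]
      exact B4m_perm f g (fun i => hQ _ (hf i)) (fun i => hQ _ (hg.1 i)) hg.2
    · intro g _ g' _ h
      exact List.ofFn_injective h
  refine h1.trans ((List.toFinset_card_le _).trans ?_)
  rw [List.length_permutations, List.length_ofFn]

private theorem B4m_conj {N : ℕ} [NeZero N] (χ : DirichletCharacter ℂ N) (a : ZMod N) (ha : IsUnit a) :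
    (starRingEnd ℂ) (χ a) = χ a⁻¹ := by
  obtain ⟨v, rfl⟩ := ha
  have h1 : ‖χ (v : ZMod N)‖ = 1 := DirichletCharacter.unit_norm_eq_one χ v
  rw [← Complex.inv_eq_conj h1, ZMod.inv_coe_unit, ← MulChar.inv_apply_eq_inv', MulChar.inv_apply,
    Ring.inverse_unit]

open Classical in
private theorem B4m_moment (N : ℕ) [NeZero N] (Q : Finset ℕ) (B u : ℕ)
    (hQ : ∀ l ∈ Q, l.Prime ∧ l ≤ B ∧ ¬ l ∣ N) (hB : B ^ u < N) :
    ∑ χ : DirichletCharacter ℂ N, (‖(∑ l ∈ Q, χ (l : ZMod N)) ^ u‖ ^ 2 : ℝ) ≤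
      N.totient * ((Q.card : ℝ) ^ u * u.factorial) := by
  set P := Fintype.piFinset (fun _ : Fin u => Q) with hP
  have hPc : P.card = Q.card ^ u := by
    rw [hP, Fintype.card_piFinset, prod_const, card_univ, Fintype.card_fin]
  have hmem : ∀ f ∈ P, ∀ i, f i ∈ Q := fun f hf i => Fintype.mem_piFinset.1 hf i
  have hunit : ∀ f ∈ P, IsUnit (((∏ i, f i : ℕ) : ZMod N)) := by
    intro f hf
    rw [ZMod.isUnit_iff_coprime]
    refine Nat.Coprime.prod_left fun i _ => ?_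
    obtain ⟨h1, -, h3⟩ := hQ (f i) (hmem f hf i)
    exact (Nat.Prime.coprime_iff_not_dvd h1).2 h3
  have hlt : ∀ f ∈ P, ∏ i, f i < N := by
    intro f hf
    refine lt_of_le_of_lt ?_ hB
    have h := prod_le_pow_card (univ : Finset (Fin u)) f B fun i _ => (hQ _ (hmem f hf i)).2.1
    rwa [card_univ, Fintype.card_fin] at h
  have hinj : ∀ f ∈ P, ∀ g ∈ P, (((∏ i, f i : ℕ) : ZMod N)) = ((∏ i, g i : ℕ) : ZMod N) →
      ∏ i, f i = ∏ i, g i := by
    intro f hf g hg h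
    rwa [ZMod.natCast_eq_natCast_iff', Nat.mod_eq_of_lt (hlt f hf), Nat.mod_eq_of_lt (hlt g hg)] at h
  have hpow : ∀ χ : DirichletCharacter ℂ N, (∑ l ∈ Q, χ (l : ZMod N)) ^ u =
      ∑ f ∈ P, χ (((∏ i, f i : ℕ) : ZMod N)) := by
    intro χ
    have h1 := prod_univ_sum (fun _ : Fin u => Q) (fun _ l => χ (l : ZMod N))
    rw [prod_const, card_univ, Fintype.card_fin] at h1
    rw [h1]
    refine sum_congr rfl fun f _ => ?_
    rw [Nat.cast_prod, map_prod]
  have key : ((∑ χ : DirichletCharacter ℂ N, (‖(∑ l ∈ Q, χ (l : ZMod N)) ^ u‖ ^ 2 : ℝ) : ℝ) : ℂ) =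
      (((N.totient : ℝ) * ∑ f ∈ P, ((P.filter (fun g => ∏ i, f i = ∏ i, g i)).card : ℝ) : ℝ) : ℂ) := by
    push_cast
    have h2 : ∀ χ : DirichletCharacter ℂ N,
        ((‖(∑ l ∈ Q, χ (l : ZMod N)) ^ u‖ : ℂ) ^ 2) =
        ∑ f ∈ P, ∑ g ∈ P, χ ((((∏ i, f i : ℕ) : ZMod N))⁻¹) * χ (((∏ i, g i : ℕ) : ZMod N)) := by
      intro χ
      rw [hpow χ, ← Complex.conj_mul', map_sum, sum_mul_sum]
      refine sum_congr rfl fun f hf => sum_congr rfl fun g _ => ?_
      rw [B4m_conj χ _ (hunit f hf)]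
    have h3 : ∑ χ : DirichletCharacter ℂ N, ((‖(∑ l ∈ Q, χ (l : ZMod N)) ^ u‖ : ℂ) ^ 2) =
        ∑ f ∈ P, ∑ g ∈ P, ∑ χ : DirichletCharacter ℂ N,
          χ ((((∏ i, f i : ℕ) : ZMod N))⁻¹) * χ (((∏ i, g i : ℕ) : ZMod N)) := by
      rw [sum_congr rfl fun χ _ => h2 χ, sum_comm]
      refine sum_congr rfl fun f _ => ?_
      rw [sum_comm]
    have h4 : ∀ f ∈ P, ∑ g ∈ P, ∑ χ : DirichletCharacter ℂ N,
          χ ((((∏ i, f i : ℕ) : ZMod N))⁻¹) * χ (((∏ i, g i : ℕ) : ZMod N)) =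
          (N.totient : ℂ) * ((P.filter (fun g => ∏ i, f i = ∏ i, g i)).card : ℂ) := by
      intro f hf
      have h5 : ∀ g ∈ P, ∑ χ : DirichletCharacter ℂ N,
          χ ((((∏ i, f i : ℕ) : ZMod N))⁻¹) * χ (((∏ i, g i : ℕ) : ZMod N)) =
          if ∏ i, f i = ∏ i, g i then (N.totient : ℂ) else 0 := by
        intro g hg
        rw [DirichletCharacter.sum_char_inv_mul_char_eq ℂ (hunit f hf)]
        by_cases h : ∏ i, f i = ∏ i, g i
        · rw [if_pos h, if_pos (by rw [h])]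
        · rw [if_neg h, if_neg (fun h' => h (hinj f hf g hg h'))]
      rw [sum_congr rfl h5, ← sum_filter, sum_const, nsmul_eq_mul, mul_comm]
    rw [h3, sum_congr rfl h4, ← mul_sum]
  have key2 := Complex.ofReal_injective key
  rw [key2]
  refine mul_le_mul_of_nonneg_left ?_ (Nat.cast_nonneg _)
  calc ∑ f ∈ P, ((P.filter (fun g => ∏ i, f i = ∏ i, g i)).card : ℝ) ≤ ∑ f ∈ P, (u.factorial : ℝ) := by
        refine sum_le_sum fun f hf => ?_
        exact_mod_cast B4m_count Q (fun l hl => (hQ l hl).1) f (hmem f hf)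
    _ = (Q.card : ℝ) ^ u * u.factorial := by
        rw [sum_const, nsmul_eq_mul, hPc]
        push_cast
        ring

theorem B4m (N : ℕ) [NeZero N] (Q : Finset ℕ) (M u : ℕ)
    (hQ : ∀ l ∈ Q, l.Prime ∧ l ≤ M ∧ ¬ l ∣ N) (h0 : Q.Nonempty) (hM : M ^ u < N) :
    ∑ χ : DirichletCharacter ℂ N, ‖av Q (fun l => l) χ‖ ^ (2 * u) ≤
      N.totient * (u.factorial : ℝ) / (Q.card : ℝ) ^ u := by
  classical
  have hq : (0 : ℝ) < Q.card := by exact_mod_cast h0.card_pos
  have h1 := B4m_moment N Q M u hQ hM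
  have h2 : ∀ χ : DirichletCharacter ℂ N, ‖av Q (fun l => l) χ‖ ^ (2 * u) =
      ‖(∑ l ∈ Q, χ (l : ZMod N)) ^ u‖ ^ 2 * (1 / (Q.card : ℝ) ^ (2 * u)) := by
    intro χ
    unfold av
    rw [norm_div, Complex.norm_natCast, div_pow, norm_pow, ← pow_mul, mul_comm u 2]
    ring
  rw [Finset.sum_congr rfl fun χ _ => h2 χ, ← Finset.sum_mul]
  calc (∑ χ : DirichletCharacter ℂ N, (‖(∑ l ∈ Q, χ (l : ZMod N)) ^ u‖ ^ 2 : ℝ)) * (1 / (Q.card : ℝ) ^ (2 * u)) ≤
      (N.totient * ((Q.card : ℝ) ^ u * u.factorial)) * (1 / (Q.card : ℝ) ^ (2 * u)) :=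
        mul_le_mul_of_nonneg_right h1 (by positivity)
    _ = N.totient * (u.factorial : ℝ) / (Q.card : ℝ) ^ u := by
        rw [two_mul, pow_add]
        field_simp

end Pool.Agent.Lib.PQ
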