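import Pool.Agent.Lib.MP_7b7e48_nt.GT.FundLemma
import Pool.Agent.Lib.MP_7b7e48_nt.PQ.Defs

/-!
# C1m (45 minutes): logarithmic sums over rough numbers

PROOF. `C1m_count` is `GT.fund_lemma` with `P = pr z`, `Ω r = {0}` (card `1`), start `A + 1`, length `L`.
For `C1m`: put `F y = #{A < n ≤ y : Rough z n}`, `E = K (1/2)^b V`, `D = z^(K b)`, so `|F y - V (y - A)| ≤ E (y - A) + D`
for `y ≥ A`. Partial summation: for any `a`, `∑_{A < n ≤ B} a n / n = ∑_{y = A+1}^{B} S y * (1/y - 1/(y+1)) + S B / (B+1)`,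
`S y = ∑_{A < n ≤ y} a n` (induction on `B`). Applied to `a = 1_rough - V`: `|∑_{rough} 1/n - V ∑_{A<n≤B} 1/n| ≤` the same
expression with `S y` replaced by `E (y - A) + D`, which is `E ∑_{A<n≤B} 1/n + D/(A+1)`. Finally
`log (B/A) - 1/A ≤ ∑_{A<n≤B} 1/n ≤ log (B/A)` and `V ≤ 1 ≤ D`.
-/

set_option autoImplicit false

open Finset
open Pool.Agent.Lib.GT (Rough pr V)
open Pool.Agent.Lib.MP_45349e_nt.LS (lam)
open Pool.Agent.Lib.RG (RC LV rr SS PB sig)

namespace Pool.Agent.Lib.PQ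

theorem C1m_count : ∃ K : ℕ, 1 ≤ K ∧ ∀ b : ℕ, 1 ≤ b → ∀ z : ℕ, 2 ≤ z → ∀ A L : ℕ,
    |((((Finset.Ioc A (A + L)).filter (fun n => Rough z n)).card : ℕ) : ℝ) - V z * L| ≤
      K * (1 / 2) ^ b * (V z * L) + (z : ℝ) ^ (K * b) := by
  obtain ⟨K, hK, h⟩ := Pool.Agent.Lib.GT.fund_lemma
  refine ⟨K, hK, ?_⟩
  intro b hb z hz A L
  have h1 := h b hb z hz (pr z) (fun r hr => by
    unfold Pool.Agent.Lib.GT.pr at hr
    rw [Finset.mem_filter, Finset.mem_range] at hr
    exact ⟨hr.2, by omega⟩) (fun _ => {0}) (fun r hr => by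
    unfold Pool.Agent.Lib.GT.pr at hr
    rw [Finset.mem_filter, Finset.mem_range] at hr
    have := hr.2.two_le
    refine ⟨by rw [Finset.card_singleton]; omega, by rw [Finset.card_singleton]; omega, ?_⟩
    intro x hx
    rw [Finset.mem_singleton] at hx
    omega) (A + 1) L
  have hcard : ((Finset.Ioc A (A + L)).filter (fun n => Rough z n)).card =
      ((Finset.range L).filter (fun k => ∀ r ∈ pr z, (A + 1 + k) % r ∉ ({0} : Finset ℕ))).card := by
    symm
    refine Finset.card_bij (fun k _ => A + 1 + k) ?_ ?_ ?_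
    · intro k hk
      rw [Finset.mem_filter, Finset.mem_range] at hk
      rw [Finset.mem_filter, Finset.mem_Ioc, Pool.Agent.Lib.GT.rough_iff]
      refine ⟨⟨by omega, by omega⟩, ?_⟩
      intro p hp hd
      exact hk.2 p hp (by rw [Finset.mem_singleton]; exact Nat.mod_eq_zero_of_dvd hd)
    · intro k _ k' _ he
      have he' : A + 1 + k = A + 1 + k' := he
      omega
    · intro n hn
      rw [Finset.mem_filter, Finset.mem_Ioc, Pool.Agent.Lib.GT.rough_iff] at hn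
      refine ⟨n - (A + 1), ?_, by omega⟩
      rw [Finset.mem_filter, Finset.mem_range]
      refine ⟨by omega, ?_⟩
      intro r hr
      rw [Finset.mem_singleton]
      intro hm
      have e1 : A + 1 + (n - (A + 1)) = n := by omega
      rw [e1] at hm
      exact hn.2 r hr (Nat.dvd_of_mod_eq_zero hm)
  have hprod : ∏ r ∈ pr z, (1 - ((({0} : Finset ℕ).card : ℕ) : ℝ) / r) = V z := by
    unfold Pool.Agent.Lib.GT.V
    refine Finset.prod_congr rfl fun r _ => ?_
    rw [Finset.card_singleton, Nat.cast_one]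
  rw [hcard]
  rw [hprod] at h1
  rw [mul_comm (V z) (L : ℝ)]
  exact h1

private theorem C1m_ps (a : ℕ → ℝ) (A : ℕ) : ∀ k : ℕ,
    ∑ n ∈ Finset.Ioc A (A + k), a n / (n : ℝ) =
      ∑ y ∈ Finset.Ioc A (A + k), (∑ n ∈ Finset.Ioc A y, a n) * (1 / (y : ℝ) - 1 / ((y : ℝ) + 1)) +
        (∑ n ∈ Finset.Ioc A (A + k), a n) / (((A + k : ℕ) : ℝ) + 1) := by
  intro k
  induction k with
  | zero => simp
  | succ k ih =>
    have e1 : A + (k + 1) = A + k + 1 := by ring
    rw [e1, Finset.sum_Ioc_succ_top (by omega), ih, Finset.sum_Ioc_succ_top (by omega),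
      Finset.sum_Ioc_succ_top (by omega)]
    have h1 : (0 : ℝ) < ((A + k : ℕ) : ℝ) + 1 := by positivity
    have h2 : (0 : ℝ) < ((A + k + 1 : ℕ) : ℝ) + 1 := by positivity
    have h3 : ((A + k + 1 : ℕ) : ℝ) = ((A + k : ℕ) : ℝ) + 1 := by push_cast; ring
    rw [h3] at h2 ⊢
    field_simp
    ring

private theorem C1m_up (A : ℕ) (hA : 1 ≤ A) : ∀ k : ℕ,
    ∑ n ∈ Finset.Ioc A (A + k), 1 / (n : ℝ) ≤ Real.log (((A + k : ℕ) : ℝ) / A) := by
  intro k
  have hA0 : (0 : ℝ) < A := by exact_mod_cast hA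
  induction k with
  | zero => simp
  | succ k ih =>
    have e1 : A + (k + 1) = A + k + 1 := by ring
    rw [e1, Finset.sum_Ioc_succ_top (by omega)]
    have h1 : (0 : ℝ) < ((A + k : ℕ) : ℝ) := by exact_mod_cast (by omega : 0 < A + k)
    have h3 : ((A + k + 1 : ℕ) : ℝ) = ((A + k : ℕ) : ℝ) + 1 := by push_cast; ring
    have h4 : Real.log (((A + k : ℕ) : ℝ) / (((A + k : ℕ) : ℝ) + 1)) ≤ ((A + k : ℕ) : ℝ) / (((A + k : ℕ) : ℝ) + 1) - 1 :=
      Real.log_le_sub_one_of_pos (by positivity)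
    have h5 : ((A + k : ℕ) : ℝ) / (((A + k : ℕ) : ℝ) + 1) - 1 = -(1 / (((A + k : ℕ) : ℝ) + 1)) := by
      field_simp
      ring
    rw [Real.log_div h1.ne' (by positivity)] at h4
    rw [h3, Real.log_div (by positivity) hA0.ne']
    rw [Real.log_div h1.ne' hA0.ne'] at ih
    linarith

private theorem C1m_low (A : ℕ) : ∀ k : ℕ,
    Real.log (((A + k : ℕ) : ℝ) + 1) - Real.log ((A : ℝ) + 1) ≤ ∑ n ∈ Finset.Ioc A (A + k), 1 / (n : ℝ) := by
  intro k
  induction k with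
  | zero => simp
  | succ k ih =>
    have e1 : A + (k + 1) = A + k + 1 := by ring
    rw [e1, Finset.sum_Ioc_succ_top (by omega)]
    have h1 : (0 : ℝ) < ((A + k : ℕ) : ℝ) + 1 := by positivity
    have h3 : ((A + k + 1 : ℕ) : ℝ) = ((A + k : ℕ) : ℝ) + 1 := by push_cast; ring
    rw [h3]
    have h4 : Real.log ((((A + k : ℕ) : ℝ) + 1 + 1) / (((A + k : ℕ) : ℝ) + 1)) ≤
        (((A + k : ℕ) : ℝ) + 1 + 1) / (((A + k : ℕ) : ℝ) + 1) - 1 :=
      Real.log_le_sub_one_of_pos (by positivity)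
    have h5 : (((A + k : ℕ) : ℝ) + 1 + 1) / (((A + k : ℕ) : ℝ) + 1) - 1 = 1 / (((A + k : ℕ) : ℝ) + 1) := by
      field_simp
      ring
    rw [Real.log_div (by positivity) h1.ne'] at h4
    linarith

theorem C1m : ∃ K : ℕ, 1 ≤ K ∧ ∀ b : ℕ, 1 ≤ b → ∀ z : ℕ, 2 ≤ z → ∀ A B : ℕ, 1 ≤ A → A ≤ B →
    |∑ n ∈ (Finset.Ioc A B).filter (fun n => Rough z n), 1 / (n : ℝ) - V z * Real.log (B / A)| ≤
      K * (1 / 2) ^ b * (V z * Real.log (B / A)) + 3 * (z : ℝ) ^ (K * b) / A := by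
  obtain ⟨K, hK, h⟩ := C1m_count
  refine ⟨K, hK, ?_⟩
  intro b hb z hz A B hA hAB
  obtain ⟨k, rfl⟩ := Nat.exists_eq_add_of_le hAB
  have hA0 : (0 : ℝ) < A := by exact_mod_cast hA
  have hV0 := Pool.Agent.Lib.GT.V_pos z
  have hV1 : V z ≤ 1 := by
    unfold Pool.Agent.Lib.GT.V
    refine Finset.prod_le_one ?_ ?_
    · intro p hp
      have h2 : (1 : ℝ) ≤ p := by exact_mod_cast (Finset.mem_filter.mp hp).2.one_le
      rw [sub_nonneg, div_le_one (by linarith)]
      exact h2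
    · intro p hp
      have h2 : (0 : ℝ) ≤ 1 / (p : ℝ) := by positivity
      linarith
  set E : ℝ := K * (1 / 2) ^ b * V z with hE
  set Dd : ℝ := (z : ℝ) ^ (K * b) with hDd
  have hE0 : 0 ≤ E := by rw [hE]; positivity
  have hD1 : 1 ≤ Dd := by
    rw [hDd]
    exact one_le_pow₀ (by exact_mod_cast (by omega : 1 ≤ z))
  set a : ℕ → ℝ := fun n => (if Rough z n then (1 : ℝ) else 0) - V z with ha
  have hS : ∀ j : ℕ, |∑ n ∈ Finset.Ioc A (A + j), a n| ≤ E * j + Dd := by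
    intro j
    have h1 := h b hb z hz A j
    have h2 : ∑ n ∈ Finset.Ioc A (A + j), a n =
        ((((Finset.Ioc A (A + j)).filter (fun n => Rough z n)).card : ℕ) : ℝ) - V z * j := by
      rw [ha, Finset.sum_sub_distrib, Finset.sum_const, Nat.card_Ioc, Nat.add_sub_cancel_left, nsmul_eq_mul,
        Finset.card_filter]
      push_cast
      ring
    rw [h2]
    refine h1.trans (le_of_eq ?_)
    rw [hE, hDd]
    ring
  -- bound for the partial summation
  have hmain : |∑ n ∈ Finset.Ioc A (A + k), a n / (n : ℝ)| ≤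
      E * ∑ n ∈ Finset.Ioc A (A + k), 1 / (n : ℝ) + Dd / ((A : ℝ) + 1) := by
    rw [C1m_ps a A k]
    have hone := C1m_ps (fun _ => E) A k
    have htel : ∀ k : ℕ, ∑ y ∈ Finset.Ioc A (A + k), Dd * (1 / (y : ℝ) - 1 / ((y : ℝ) + 1)) +
        Dd / (((A + k : ℕ) : ℝ) + 1) = Dd / ((A : ℝ) + 1) := by
      intro k
      induction k with
      | zero => simp
      | succ k ih =>
        have e1 : A + (k + 1) = A + k + 1 := by ring
        rw [e1, Finset.sum_Ioc_succ_top (by omega)]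
        have h3 : ((A + k + 1 : ℕ) : ℝ) = ((A + k : ℕ) : ℝ) + 1 := by push_cast; ring
        rw [← ih, h3]
        ring
    have e1 : E * ∑ n ∈ Finset.Ioc A (A + k), 1 / (n : ℝ) = ∑ n ∈ Finset.Ioc A (A + k), E / (n : ℝ) := by
      rw [Finset.mul_sum]
      refine Finset.sum_congr rfl fun n _ => ?_
      ring
    rw [e1, hone, ← htel k]
    have hb1 : ∀ y ∈ Finset.Ioc A (A + k), |∑ n ∈ Finset.Ioc A y, a n| ≤ ∑ n ∈ Finset.Ioc A y, E + Dd := by
      intro y hy
      rw [Finset.mem_Ioc] at hy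
      obtain ⟨j, rfl⟩ := Nat.exists_eq_add_of_le hy.1.le
      refine (hS j).trans (le_of_eq ?_)
      rw [Finset.sum_const, Nat.card_Ioc, Nat.add_sub_cancel_left, nsmul_eq_mul]
      ring
    have hb2 : |∑ n ∈ Finset.Ioc A (A + k), a n| ≤ ∑ n ∈ Finset.Ioc A (A + k), E + Dd := by
      refine (hS k).trans (le_of_eq ?_)
      rw [Finset.sum_const, Nat.card_Ioc, Nat.add_sub_cancel_left, nsmul_eq_mul]
      ring
    have hw : ∀ y ∈ Finset.Ioc A (A + k), 0 ≤ 1 / (y : ℝ) - 1 / ((y : ℝ) + 1) := by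
      intro y hy
      rw [Finset.mem_Ioc] at hy
      have hy0 : (0 : ℝ) < y := by exact_mod_cast (by omega : 0 < y)
      rw [sub_nonneg]
      exact one_div_le_one_div_of_le hy0 (by linarith)
    have hw2 : (0 : ℝ) < ((A + k : ℕ) : ℝ) + 1 := by positivity
    calc _ ≤ |∑ y ∈ Finset.Ioc A (A + k), (∑ n ∈ Finset.Ioc A y, a n) * (1 / (y : ℝ) - 1 / ((y : ℝ) + 1))| +
        |(∑ n ∈ Finset.Ioc A (A + k), a n) / (((A + k : ℕ) : ℝ) + 1)| := abs_add_le _ _
      _ ≤ ∑ y ∈ Finset.Ioc A (A + k), (∑ n ∈ Finset.Ioc A y, E + Dd) * (1 / (y : ℝ) - 1 / ((y : ℝ) + 1)) +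
        (∑ n ∈ Finset.Ioc A (A + k), E + Dd) / (((A + k : ℕ) : ℝ) + 1) := by
          refine add_le_add ?_ ?_
          · refine (Finset.abs_sum_le_sum_abs _ _).trans (Finset.sum_le_sum fun y hy => ?_)
            rw [abs_mul, abs_of_nonneg (hw y hy)]
            exact mul_le_mul_of_nonneg_right (hb1 y hy) (hw y hy)
          · rw [abs_div, abs_of_pos hw2]
            exact div_le_div_of_nonneg_right hb2 hw2.le
      _ = _ := by
          simp only [add_mul, Finset.sum_add_distrib, add_div]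
          ring
  have hsplit : ∑ n ∈ Finset.Ioc A (A + k), a n / (n : ℝ) =
      ∑ n ∈ (Finset.Ioc A (A + k)).filter (fun n => Rough z n), 1 / (n : ℝ) -
        V z * ∑ n ∈ Finset.Ioc A (A + k), 1 / (n : ℝ) := by
    rw [Finset.sum_filter, Finset.mul_sum, ← Finset.sum_sub_distrib]
    refine Finset.sum_congr rfl fun n _ => ?_
    rw [ha]
    dsimp only
    split_ifs <;> ring
  rw [hsplit] at hmain
  have hup := C1m_up A hA k
  have hlow := C1m_low A k
  set hh : ℝ := ∑ n ∈ Finset.Ioc A (A + k), 1 / (n : ℝ) with hhh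
  set lg : ℝ := Real.log (((A + k : ℕ) : ℝ) / A) with hlg
  have hAk : (0 : ℝ) < ((A + k : ℕ) : ℝ) := by exact_mod_cast (by omega : 0 < A + k)
  have hlow2 : lg - 1 / A ≤ hh := by
    have h1 : lg = Real.log ((A + k : ℕ) : ℝ) - Real.log A := by
      rw [hlg, Real.log_div hAk.ne' hA0.ne']
    have h2 : Real.log ((A + k : ℕ) : ℝ) ≤ Real.log (((A + k : ℕ) : ℝ) + 1) :=
      Real.log_le_log hAk (by linarith)
    have h3 : Real.log (((A : ℝ) + 1) / A) ≤ ((A : ℝ) + 1) / A - 1 := Real.log_le_sub_one_of_pos (by positivity)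
    rw [Real.log_div (by positivity) hA0.ne'] at h3
    have h4 : ((A : ℝ) + 1) / A - 1 = 1 / A := by field_simp; ring
    linarith
  have hlg0 : 0 ≤ lg := by
    rw [hlg]
    refine Real.log_nonneg ?_
    rw [le_div_iff₀ hA0, one_mul]
    exact_mod_cast (by omega : A ≤ A + k)
  have hVh : |V z * hh - V z * lg| ≤ 1 / A := by
    rw [← mul_sub, abs_mul, abs_of_pos hV0]
    have h1 : |hh - lg| ≤ 1 / A := by
      rw [abs_le]
      constructor
      · linarith
      · have : (0 : ℝ) ≤ 1 / A := by positivity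
        linarith
    calc V z * |hh - lg| ≤ 1 * (1 / A) := by
          refine mul_le_mul hV1 h1 (abs_nonneg _) zero_le_one
      _ = 1 / A := one_mul _
  have hDA : Dd / ((A : ℝ) + 1) ≤ Dd / A := div_le_div_of_nonneg_left (by linarith) hA0 (by linarith)
  have h1A : 1 / (A : ℝ) ≤ Dd / A := div_le_div_of_nonneg_right hD1 hA0.le
  have hEh : E * hh ≤ E * lg := mul_le_mul_of_nonneg_left hup hE0
  have hfin : K * (1 / 2) ^ b * (V z * lg) = E * lg := by rw [hE]; ring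
  have h3D : 3 * Dd / (A : ℝ) = 3 * (Dd / A) := by ring
  rw [hfin, h3D]
  have hDA0 : 0 ≤ Dd / (A : ℝ) := by positivity
  rw [abs_le] at hmain hVh ⊢
  constructor <;> linarith [hmain.1, hmain.2, hVh.1, hVh.2]

end Pool.Agent.Lib.PQ
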