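import Pool.Agent.Lib.MP_7b7e48_nt.PQ.C1m
import Pool.Agent.Lib.MP_7b7e48_nt.RG.A7

/-!
# C3m (45 minutes): lower bound for the logarithmic mass of `R0`

PROOF. `C1m` with constant `K₁`, `K = 2 K₁ + 1`. Let `z = pw N c`, `A = A0 k N`, `B = B0 k N`, `v = V z * log N / (2k)`.
`log (B/A) ≥ log N / (2k) - 1/A`-ish (floors). `R0` is the set of rough `n ∈ (A, B]` without those divisible by a prime `p ∣ N`, `p > z`; there
are at most `2/c` such `p` for large `N` (their product is `≤ N`, each is `≥ N^c / 2`), each contributes `≤ (1/p) (1 + log B) ≤ (1 + log N)/z`.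
`V z ≥ c'/log z ≥ c'/log N` (`RG.prod_lower` with `P = pr z`). With `z ^ (K₁ b) ≤ N ^ (1/(20k))` (`c * K₁ * b ≤ 1/(20k)`), `A ≥ √N`, the errors
`3 z^(K₁ b)/A`, `(2/c)(1 + log N)/z` are `≤ v/16` each for large `N`, and `K₁ (1/2)^b ≤ 1/8`. So `ms R0 ≥ (3/4) v`.
-/

set_option autoImplicit false

open Finset
open Pool.Agent.Lib.GT (Rough pr V)
open Pool.Agent.Lib.MP_45349e_nt.LS (lam)
open Pool.Agent.Lib.RG (RC LV rr SS PB sig)

namespace Pool.Agent.Lib.PQ

private theorem C3m_ev (s C δ : ℝ) (hs : 0 < s) (hδ : 0 < δ) : ∃ N0 : ℕ, ∀ N : ℕ, N0 ≤ N → C * (N : ℝ) ^ (-s) ≤ δ := by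
  have h1 : Filter.Tendsto (fun N : ℕ => C * (N : ℝ) ^ (-s)) Filter.atTop (nhds (C * 0)) :=
    ((tendsto_rpow_neg_atTop hs).comp tendsto_natCast_atTop_atTop).const_mul C
  rw [mul_zero] at h1
  obtain ⟨N0, h2⟩ := Filter.eventually_atTop.mp (h1.eventually (gt_mem_nhds hδ))
  exact ⟨N0, fun N hN => (h2 N hN).le⟩

private theorem C3m_log (T : ℝ) : ∃ N0 : ℕ, ∀ N : ℕ, N0 ≤ N → T ≤ Real.log N := by
  have h1 : Filter.Tendsto (fun N : ℕ => Real.log (N : ℝ)) Filter.atTop Filter.atTop :=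
    Real.tendsto_log_atTop.comp tendsto_natCast_atTop_atTop
  obtain ⟨N0, h2⟩ := Filter.eventually_atTop.mp (h1.eventually (Filter.eventually_ge_atTop T))
  exact ⟨N0, fun N hN => h2 N hN⟩

private theorem C3m_card {N z : ℕ} {c : ℝ} (hN : 2 ≤ N) (hzc : (N : ℝ) ^ c ≤ (z : ℝ) + 1) :
    c * ((N.primeFactors.filter (fun p => z < p)).card : ℝ) ≤ 1 := by
  set S := N.primeFactors.filter (fun p => z < p) with hS
  have hN1 : (1 : ℝ) < N := by exact_mod_cast (by omega : 1 < N)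
  have h1 : ∏ p ∈ S, p ≤ N := by
    refine Nat.le_of_dvd (by omega) ?_
    refine dvd_trans ?_ (Nat.prod_primeFactors_dvd N)
    exact Finset.prod_dvd_prod_of_subset _ _ _ (Finset.filter_subset _ _)
  have h2 : ((N : ℝ) ^ c) ^ S.card ≤ ∏ p ∈ S, (p : ℝ) := by
    rw [← Finset.prod_const]
    refine Finset.prod_le_prod (fun _ _ => by positivity) fun p hp => ?_
    rw [hS, Finset.mem_filter] at hp
    refine hzc.trans ?_
    exact_mod_cast hp.2
  have h3 : (N : ℝ) ^ (c * (S.card : ℝ)) ≤ (N : ℝ) ^ (1 : ℝ) := by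
    rw [Real.rpow_mul (by linarith), Real.rpow_natCast, Real.rpow_one]
    refine h2.trans ?_
    have h4 : ((∏ p ∈ S, p : ℕ) : ℝ) ≤ N := Nat.cast_le.mpr h1
    rw [Nat.cast_prod] at h4
    exact h4
  exact (Real.rpow_le_rpow_left_iff hN1).mp h3

private theorem C3m_bi (S : Finset ℕ) (t : ℕ → Finset ℕ) (f : ℕ → ℝ) (hf : ∀ n, 0 ≤ f n) :
    ∑ n ∈ S.biUnion t, f n ≤ ∑ p ∈ S, ∑ n ∈ t p, f n := by
  classical
  induction S using Finset.induction_on with
  | empty => simp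
  | insert a S ha ih =>
    rw [Finset.biUnion_insert, Finset.sum_insert ha]
    have h1 := Finset.sum_union_inter (s₁ := t a) (s₂ := S.biUnion t) (f := f)
    have h2 : 0 ≤ ∑ n ∈ t a ∩ S.biUnion t, f n := Finset.sum_nonneg fun n _ => hf n
    linarith

private theorem C3m_div {p A B : ℕ} (hp : 0 < p) :
    ∑ n ∈ (Finset.Ioc A B).filter (fun n => p ∣ n), 1 / (n : ℝ) ≤ 1 / (p : ℝ) * (1 + Real.log B) := by
  have h1 : ∑ n ∈ (Finset.Ioc A B).filter (fun n => p ∣ n), 1 / (n : ℝ) ≤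
      ∑ m ∈ Finset.Icc 1 B, 1 / ((p * m : ℕ) : ℝ) := by
    rw [← Finset.sum_image (s := Finset.Icc 1 B) (g := fun m => p * m) (f := fun n : ℕ => 1 / (n : ℝ))]
    · refine Finset.sum_le_sum_of_subset_of_nonneg ?_ (fun _ _ _ => by positivity)
      intro n hn
      rw [Finset.mem_filter, Finset.mem_Ioc] at hn
      obtain ⟨m, hm⟩ := hn.2
      rw [Finset.mem_image]
      refine ⟨m, ?_, hm.symm⟩
      rw [Finset.mem_Icc]
      have hm0 : 0 < m := by
        rcases Nat.eq_zero_or_pos m with h | h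
        · subst h
          omega
        · exact h
      refine ⟨hm0, ?_⟩
      have : m ≤ p * m := Nat.le_mul_of_pos_left m hp
      omega
    · intro x _ y _ hxy
      exact Nat.eq_of_mul_eq_mul_left hp hxy
  have h2 : ∑ m ∈ Finset.Icc 1 B, 1 / ((p * m : ℕ) : ℝ) = 1 / (p : ℝ) * ((harmonic B : ℚ) : ℝ) := by
    rw [harmonic_eq_sum_Icc]
    push_cast
    rw [Finset.mul_sum]
    refine Finset.sum_congr rfl fun m _ => ?_
    rw [one_div_mul_eq_div, one_div, mul_inv]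
    rw [div_eq_mul_inv, mul_comm]
  rw [h2] at h1
  refine h1.trans ?_
  exact mul_le_mul_of_nonneg_left (harmonic_le_one_add_log B) (by positivity)

private theorem C3m_bad {N z A B : ℕ} {c : ℝ} (hc : 0 < c) (hN : 2 ≤ N) (hz : 1 ≤ z) (hzc : (N : ℝ) ^ c ≤ (z : ℝ) + 1)
    (hB : B ≤ N) (hB1 : 1 ≤ B) :
    ∑ n ∈ (Finset.Ioc A B).filter (fun n => Rough z n ∧ ¬ n.Coprime N), 1 / (n : ℝ) ≤
      1 / c * (1 / (z : ℝ) * (1 + Real.log N)) := by
  set S := N.primeFactors.filter (fun p => z < p) with hS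
  have hz0 : (0 : ℝ) < z := by exact_mod_cast hz
  have hsub : (Finset.Ioc A B).filter (fun n => Rough z n ∧ ¬ n.Coprime N) ⊆
      S.biUnion fun p => (Finset.Ioc A B).filter (fun n => p ∣ n) := by
    intro n hn
    rw [Finset.mem_filter] at hn
    obtain ⟨hn1, hn2, hn3⟩ := hn
    obtain ⟨p, hp, hpn, hpN⟩ := Nat.Prime.not_coprime_iff_dvd.mp hn3
    rw [Finset.mem_biUnion]
    refine ⟨p, ?_, ?_⟩
    · rw [hS, Finset.mem_filter, Nat.mem_primeFactors]
      exact ⟨⟨hp, hpN, by omega⟩, hn2 p hp hpn⟩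
    · rw [Finset.mem_filter]
      exact ⟨hn1, hpn⟩
  have hlogB : Real.log B ≤ Real.log N := Real.log_le_log (by exact_mod_cast hB1) (by exact_mod_cast hB)
  have hlogB0 : 0 ≤ Real.log B := Real.log_natCast_nonneg B
  calc _ ≤ ∑ n ∈ S.biUnion fun p => (Finset.Ioc A B).filter (fun n => p ∣ n), 1 / (n : ℝ) :=
        Finset.sum_le_sum_of_subset_of_nonneg hsub (fun _ _ _ => by positivity)
    _ ≤ ∑ p ∈ S, ∑ n ∈ (Finset.Ioc A B).filter (fun n => p ∣ n), 1 / (n : ℝ) := by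
        exact C3m_bi S _ _ (fun _ => by positivity)
    _ ≤ ∑ p ∈ S, 1 / (z : ℝ) * (1 + Real.log N) := by
        refine Finset.sum_le_sum fun p hp => ?_
        rw [hS, Finset.mem_filter] at hp
        refine (C3m_div (by omega)).trans ?_
        have h1 : 1 / (p : ℝ) ≤ 1 / (z : ℝ) := one_div_le_one_div_of_le hz0 (by exact_mod_cast hp.2.le)
        exact mul_le_mul h1 (by linarith) (by linarith) (by positivity)
    _ = (S.card : ℝ) * (1 / (z : ℝ) * (1 + Real.log N)) := by rw [Finset.sum_const, nsmul_eq_mul]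
    _ ≤ 1 / c * (1 / (z : ℝ) * (1 + Real.log N)) := by
        refine mul_le_mul_of_nonneg_right ?_ (by have := hlogB; positivity)
        rw [le_div_iff₀ hc, mul_comm]
        exact C3m_card hN hzc

theorem C3m : ∃ K : ℕ, 1 ≤ K ∧ ∀ k b : ℕ, 160 ≤ k → 1 ≤ b → ∀ c : ℝ, 0 < c → c * (20 * k * K * b) ≤ 1 →
    (K : ℝ) * (1 / 2) ^ b ≤ 1 / 4 → ∃ N0 : ℕ, ∀ N : ℕ, N0 ≤ N →
    3 / 4 * (V (pw N c) * (Real.log N / (2 * k))) ≤ ms (R0 k c N) := by
  obtain ⟨K1, hK1, h1⟩ := C1m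
  obtain ⟨c', hc', hV⟩ := Pool.Agent.Lib.RG.prod_lower
  refine ⟨2 * K1 + 1, by omega, ?_⟩
  intro k b hk hb c hc hck hKb
  have hk0 : (0 : ℝ) < k := by exact_mod_cast (by omega : 0 < k)
  have hk160 : (160 : ℝ) ≤ k := by exact_mod_cast hk
  have hb1 : (1 : ℝ) ≤ b := by exact_mod_cast hb
  have hK1' : (1 : ℝ) ≤ K1 := by exact_mod_cast hK1
  -- the exponents
  have hexp : c * (K1 * b) ≤ 1 / 4 := by
    have h2 : c * (20 * k * (((2 * K1 + 1 : ℕ) : ℝ)) * b) = (c * (K1 * b)) * (40 * k) + c * (20 * k * b) := by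
      push_cast
      ring
    rw [h2] at hck
    have h3 : 0 ≤ c * (20 * k * b) := by positivity
    have h4 : 0 ≤ c * (K1 * b) := by positivity
    nlinarith
  have hc1 : c ≤ 1 := by
    have h2 : c * 1 ≤ c * (K1 * b) := mul_le_mul_of_nonneg_left (by nlinarith) hc.le
    linarith
  have hK8 : (K1 : ℝ) * (1 / 2) ^ b ≤ 1 / 8 := by
    have h2 : (((2 * K1 + 1 : ℕ) : ℝ)) * (1 / 2) ^ b = 2 * (K1 * (1 / 2) ^ b) + (1 / 2) ^ b := by
      push_cast
      ring
    rw [h2] at hKb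
    have h3 : (0 : ℝ) ≤ (1 / 2) ^ b := by positivity
    linarith
  set δ : ℝ := 1 / 32 * (c' / (2 * k)) with hδ
  have hδ0 : 0 < δ := by rw [hδ]; positivity
  obtain ⟨n1, g1⟩ := C3m_ev (1 / 4) 6 δ (by norm_num) hδ0
  obtain ⟨n2, g2⟩ := C3m_ev (c / 2) (2 / c * (1 + 2 / c)) δ (by positivity) hδ0
  obtain ⟨n3, g3⟩ := C3m_log (32 * k * Real.log 2)
  obtain ⟨n4, g4⟩ := C3m_ev (c / 2) 4 1 (by positivity) one_pos
  refine ⟨max (max n1 n2) (max (max n3 n4) 16), ?_⟩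
  intro N hN
  have hNn1 : n1 ≤ N := le_trans (by simp) hN
  have hNn2 : n2 ≤ N := le_trans (by simp) hN
  have hNn3 : n3 ≤ N := le_trans (by simp) hN
  have hNn4 : n4 ≤ N := le_trans (by simp) hN
  have hN16 : 16 ≤ N := le_trans (by simp) hN
  have e1 := g1 N hNn1
  have e2 := g2 N hNn2
  have e3 := g3 N hNn3
  have e4 := g4 N hNn4
  have hNr : (16 : ℝ) ≤ N := by exact_mod_cast hN16
  have hN0 : (0 : ℝ) < N := by linarith
  have hN1 : (1 : ℝ) ≤ N := by linarith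
  have hlog0 : 0 < Real.log N := Real.log_pos (by linarith)
  -- powers
  have hNc : 4 ≤ (N : ℝ) ^ c := by
    have h2 : (N : ℝ) ^ (-(c / 2)) * (N : ℝ) ^ (c / 2) = 1 := by
      rw [← Real.rpow_add hN0]
      simp
    have h3 : 0 < (N : ℝ) ^ (c / 2) := by positivity
    have h4 : 4 ≤ (N : ℝ) ^ (c / 2) := by
      have : 4 * ((N : ℝ) ^ (-(c / 2)) * (N : ℝ) ^ (c / 2)) ≤ 1 * (N : ℝ) ^ (c / 2) := by
        rw [← mul_assoc]
        exact mul_le_mul_of_nonneg_right e4 h3.le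
      rw [h2] at this
      linarith
    refine h4.trans (Real.rpow_le_rpow_of_exponent_le hN1 (by linarith))
  set z : ℕ := pw N c with hz
  have hz_le : (z : ℝ) ≤ (N : ℝ) ^ c := Nat.floor_le (by positivity)
  have hz_lt : (N : ℝ) ^ c < (z : ℝ) + 1 := Nat.lt_floor_add_one _
  have hz2 : 2 ≤ z := by
    have : (3 : ℝ) < (z : ℝ) + 1 := by linarith
    have h2 : (2 : ℝ) < z := by linarith
    exact_mod_cast h2.le
  have hz_half : (N : ℝ) ^ c / 2 ≤ z := by linarith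
  have hz0 : (0 : ℝ) < z := by exact_mod_cast (by omega : 0 < z)
  have hzN : (z : ℝ) ≤ N := by
    refine hz_le.trans ?_
    calc (N : ℝ) ^ c ≤ (N : ℝ) ^ (1 : ℝ) := Real.rpow_le_rpow_of_exponent_le hN1 hc1
      _ = N := Real.rpow_one _
  set A : ℕ := A0 k N with hA
  set B : ℕ := B0 k N with hB
  have hA_le : (A : ℝ) ≤ (N : ℝ) ^ ((1 : ℝ) / 2 + 1 / (2 * k)) := Nat.floor_le (by positivity)
  have hA_lt : (N : ℝ) ^ ((1 : ℝ) / 2 + 1 / (2 * k)) < (A : ℝ) + 1 := Nat.lt_floor_add_one _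
  have hB_le : (B : ℝ) ≤ (N : ℝ) ^ ((1 : ℝ) / 2 + 1 / k) := Nat.floor_le (by positivity)
  have hB_lt : (N : ℝ) ^ ((1 : ℝ) / 2 + 1 / k) < (B : ℝ) + 1 := Nat.lt_floor_add_one _
  have h1k : (0 : ℝ) < 1 / (2 * k) := by positivity
  have h2k : (1 : ℝ) / k = 1 / (2 * k) + 1 / (2 * k) := by
    rw [mul_comm (2 : ℝ), ← div_div]
    ring
  have hhalf : (4 : ℝ) ≤ (N : ℝ) ^ ((1 : ℝ) / 2) := by
    rw [← Real.sqrt_eq_rpow]
    refine Real.le_sqrt_of_sq_le ?_
    linarith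
  have hA_half : (N : ℝ) ^ ((1 : ℝ) / 2) / 2 ≤ A := by
    have h2 : (N : ℝ) ^ ((1 : ℝ) / 2) ≤ (N : ℝ) ^ ((1 : ℝ) / 2 + 1 / (2 * k)) :=
      Real.rpow_le_rpow_of_exponent_le hN1 (by linarith)
    linarith
  have hA0 : (0 : ℝ) < A := by linarith
  have hA1 : 1 ≤ A := by exact_mod_cast (by linarith : (1 : ℝ) ≤ A)
  have hB_half : (N : ℝ) ^ ((1 : ℝ) / 2 + 1 / k) / 2 ≤ B := by
    have h2 : (N : ℝ) ^ ((1 : ℝ) / 2) ≤ (N : ℝ) ^ ((1 : ℝ) / 2 + 1 / k) :=
      Real.rpow_le_rpow_of_exponent_le hN1 (by rw [h2k]; linarith)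
    linarith
  have hAB : A ≤ B := by
    refine Nat.floor_le_floor ?_
    exact Real.rpow_le_rpow_of_exponent_le hN1 (by rw [h2k]; linarith)
  have hB0 : (0 : ℝ) < B := lt_of_lt_of_le hA0 (by exact_mod_cast hAB)
  have hB1 : 1 ≤ B := hA1.trans hAB
  have hBN : B ≤ N := by
    have h2 : (B : ℝ) ≤ N := by
      refine hB_le.trans ?_
      calc (N : ℝ) ^ ((1 : ℝ) / 2 + 1 / k) ≤ (N : ℝ) ^ (1 : ℝ) := by
            refine Real.rpow_le_rpow_of_exponent_le hN1 ?_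
            have : (1 : ℝ) / k ≤ 1 / 160 := one_div_le_one_div_of_le (by norm_num) hk160
            linarith
        _ = N := Real.rpow_one _
    exact_mod_cast h2
  -- the logarithm of `B / A`
  have hL : 15 / 16 * (Real.log N / (2 * k)) ≤ Real.log (B / A) := by
    have h2 : Real.log ((N : ℝ) ^ ((1 : ℝ) / 2 + 1 / k) / 2) ≤ Real.log B := Real.log_le_log (by positivity) hB_half
    have h3 : Real.log A ≤ Real.log ((N : ℝ) ^ ((1 : ℝ) / 2 + 1 / (2 * k))) := Real.log_le_log hA0 hA_le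
    rw [Real.log_div (by positivity) (by norm_num), Real.log_rpow hN0] at h2
    rw [Real.log_rpow hN0] at h3
    rw [Real.log_div hB0.ne' hA0.ne']
    have h4 : Real.log 2 ≤ 1 / 16 * (Real.log N / (2 * k)) := by
      rw [show 1 / 16 * (Real.log N / (2 * k)) = Real.log N / (32 * k) by ring, le_div_iff₀ (by positivity)]
      linarith
    have h5 : ((1 : ℝ) / 2 + 1 / k) * Real.log N - ((1 : ℝ) / 2 + 1 / (2 * k)) * Real.log N = Real.log N / (2 * k) := by
      field_simp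
      ring
    linarith
  have hlg0 : 0 ≤ Real.log N / (2 * k) := by positivity
  -- lower bound for `V`
  have hVl : c' / Real.log N ≤ V z := by
    have h2 := hV z hz2 (pr z) (fun r hr => by
      unfold Pool.Agent.Lib.GT.pr at hr
      rw [Finset.mem_filter, Finset.mem_range] at hr
      exact ⟨hr.2, by omega⟩)
    have h3 : Real.log z ≤ Real.log N := Real.log_le_log hz0 hzN
    have h4 : 0 < Real.log z := Real.log_pos (by exact_mod_cast hz2)
    have h5 : c' / Real.log N ≤ c' / Real.log z := div_le_div_of_nonneg_left hc'.le h4 h3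
    exact h5.trans h2
  have hVpos := Pool.Agent.Lib.GT.V_pos z
  have hv : δ * 32 ≤ V z * (Real.log N / (2 * k)) := by
    have h2 : c' / Real.log N * (Real.log N / (2 * k)) ≤ V z * (Real.log N / (2 * k)) :=
      mul_le_mul_of_nonneg_right hVl hlg0
    have h3 : c' / Real.log N * (Real.log N / (2 * k)) = c' / (2 * k) := by
      field_simp
    rw [h3] at h2
    rw [hδ]
    linarith
  -- the error terms
  have herr1 : 3 * (z : ℝ) ^ (K1 * b) / A ≤ δ := by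
    have h2 : (z : ℝ) ^ (K1 * b) ≤ (N : ℝ) ^ ((1 : ℝ) / 4) := by
      calc (z : ℝ) ^ (K1 * b) ≤ ((N : ℝ) ^ c) ^ (K1 * b) := pow_le_pow_left₀ hz0.le hz_le _
        _ = (N : ℝ) ^ (c * (K1 * b)) := by
            rw [← Real.rpow_natCast, ← Real.rpow_mul hN0.le]
            push_cast
            rfl
        _ ≤ (N : ℝ) ^ ((1 : ℝ) / 4) := Real.rpow_le_rpow_of_exponent_le hN1 hexp
    have h3 : 3 * (z : ℝ) ^ (K1 * b) / A ≤ 3 * (N : ℝ) ^ ((1 : ℝ) / 4) / ((N : ℝ) ^ ((1 : ℝ) / 2) / 2) :=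
      div_le_div₀ (by positivity) (by linarith) (by positivity) hA_half
    have h4 : 3 * (N : ℝ) ^ ((1 : ℝ) / 4) / ((N : ℝ) ^ ((1 : ℝ) / 2) / 2) = 6 * (N : ℝ) ^ (-((1 : ℝ) / 4)) := by
      have h5 : (N : ℝ) ^ (-((1 : ℝ) / 4)) = (N : ℝ) ^ ((1 : ℝ) / 4) / (N : ℝ) ^ ((1 : ℝ) / 2) := by
        rw [← Real.rpow_sub hN0]
        norm_num
      rw [h5]
      field_simp
      norm_num
    rw [h4] at h3
    exact h3.trans e1
  have herr2 : 1 / c * (1 / (z : ℝ) * (1 + Real.log N)) ≤ δ := by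
    have h2 : Real.log N ≤ (N : ℝ) ^ (c / 2) / (c / 2) := Real.log_le_rpow_div hN0.le (by positivity)
    have h3 : (1 : ℝ) ≤ (N : ℝ) ^ (c / 2) := Real.one_le_rpow hN1 (by positivity)
    have h4 : 1 + Real.log N ≤ (1 + 2 / c) * (N : ℝ) ^ (c / 2) := by
      have : (N : ℝ) ^ (c / 2) / (c / 2) = 2 / c * (N : ℝ) ^ (c / 2) := by field_simp
      rw [this] at h2
      linarith
    have h5 : 1 / (z : ℝ) ≤ 2 / (N : ℝ) ^ c := by
      rw [div_le_div_iff₀ hz0 (by positivity)]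
      linarith
    calc 1 / c * (1 / (z : ℝ) * (1 + Real.log N)) ≤ 1 / c * (2 / (N : ℝ) ^ c * ((1 + 2 / c) * (N : ℝ) ^ (c / 2))) := by
          refine mul_le_mul_of_nonneg_left ?_ (by positivity)
          exact mul_le_mul h5 h4 (by positivity) (by positivity)
      _ = 2 / c * (1 + 2 / c) * (N : ℝ) ^ (-(c / 2)) := by
          have h6 : (N : ℝ) ^ (-(c / 2)) = (N : ℝ) ^ (c / 2) / (N : ℝ) ^ c := by
            rw [← Real.rpow_sub hN0]
            congr 1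
            ring
          rw [h6]
          ring
      _ ≤ δ := e2
  have hbad := C3m_bad (A := A) hc (by omega : 2 ≤ N) (by omega : 1 ≤ z) hz_lt.le hBN hB1
  have hrough := h1 b hb z hz2 A B hA1 hAB
  have hsplit : ∑ n ∈ (Finset.Ioc A B).filter (fun n => Rough z n), 1 / (n : ℝ) ≤ ms (R0 k c N) +
      ∑ n ∈ (Finset.Ioc A B).filter (fun n => Rough z n ∧ ¬ n.Coprime N), 1 / (n : ℝ) := by
    unfold ms R0 RS
    rw [← hz, ← hA, ← hB]
    rw [Finset.sum_filter, Finset.sum_filter, Finset.sum_filter, ← Finset.sum_add_distrib]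
    refine Finset.sum_le_sum fun n _ => ?_
    have hn0 : (0 : ℝ) ≤ 1 / (n : ℝ) := by positivity
    by_cases q1 : Rough z n
    · by_cases q2 : n.Coprime N
      · rw [if_pos q1, if_pos ⟨q1, q2⟩, if_neg (fun h => h.2 q2), add_zero]
      · rw [if_pos q1, if_neg (fun h => q2 h.2), if_pos ⟨q1, q2⟩, zero_add]
    · rw [if_neg q1, if_neg (fun h => q1 h.1), if_neg (fun h => q1 h.1), add_zero]
  have hVL : V z * (15 / 16 * (Real.log N / (2 * k))) ≤ V z * Real.log (B / A) := mul_le_mul_of_nonneg_left hL hVpos.le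
  have hVL0 : 0 ≤ V z * Real.log (B / A) := by
    have : 0 ≤ V z * (15 / 16 * (Real.log N / (2 * k))) := by positivity
    linarith
  have h8 : (K1 : ℝ) * (1 / 2) ^ b * (V z * Real.log (B / A)) ≤ 1 / 8 * (V z * Real.log (B / A)) :=
    mul_le_mul_of_nonneg_right hK8 hVL0
  rw [abs_le] at hrough
  have h9 := hrough.1
  nlinarith

end Pool.Agent.Lib.PQ
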