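import Pool.Agent.Lib.MP_7b7e48_nt.GT.FundLemma
import Pool.Agent.Lib.MP_7b7e48_nt.PQ.Defs

/-!
# C2m (35 minutes): upper bound sieve weights with logarithmic error

PROOF. `GT.brun_weights`. Put `a n = ∑_{d ∈ D, d ∣ n} μ(d) - 1_rough(n) ≥ 0`, `G y = ∑_{1 ≤ n ≤ y} a n ≤ E y + D'` with
`E = K (1/2)^b V z`, `D' = z^(K b)`. Partial summation: `∑_{A<n≤B} a n / n = ∑_{y=A+1}^{B} (G y - G A)(1/y - 1/(y+1)) +
(G B - G A)/(B+1)` (induction on `B`), drop `G A ≥ 0`: `≤ E (∑_{A<y≤B} 1/(y+1) + 1) + D'/(A+1)`, and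
`∑_{A<y≤B} 1/(y+1) ≤ log (B/A)`.
-/

set_option autoImplicit false

open Finset
open Pool.Agent.Lib.GT (Rough pr V)
open Pool.Agent.Lib.MP_45349e_nt.LS (lam)
open Pool.Agent.Lib.RG (RC LV rr SS PB sig)

namespace Pool.Agent.Lib.PQ

private theorem C2m_abel (a : ℕ → ℝ) (E D' : ℝ) (hE : 0 ≤ E) (hD : 0 ≤ D')
    (h0 : ∀ n, 1 ≤ n → 0 ≤ a n)
    (hG : ∀ M : ℕ, ∑ n ∈ Finset.Icc 1 M, a n ≤ E * M + D') (A B : ℕ) (hA : 1 ≤ A) (hAB : A ≤ B) :
    ∑ n ∈ Finset.Ioc A B, a n / n ≤ E * (Real.log (B / A) + 1) + D' / A := by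
  have hAR : (1 : ℝ) ≤ A := by exact_mod_cast hA
  have hind : ∀ B : ℕ, A ≤ B → ∑ n ∈ Finset.Ioc A B, a n / n ≤
      (∑ n ∈ Finset.Icc 1 B, a n) / ((B : ℝ) + 1) + E * Real.log (((B : ℝ) + 1) / ((A : ℝ) + 1)) +
        D' * (1 / ((A : ℝ) + 1) - 1 / ((B : ℝ) + 1)) := by
    intro B hB
    induction B, hB using Nat.le_induction with
    | base =>
      have h1 : 0 ≤ ∑ n ∈ Finset.Icc 1 A, a n :=
        Finset.sum_nonneg fun n hn => h0 n (Finset.mem_Icc.mp hn).1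
      rw [Finset.Ioc_self, Finset.sum_empty, div_self (by positivity), Real.log_one]
      have h2 : 0 ≤ (∑ n ∈ Finset.Icc 1 A, a n) / ((A : ℝ) + 1) := by positivity
      linarith
    | succ B hB ih =>
      have hBR : (1 : ℝ) ≤ B := by exact_mod_cast hA.trans hB
      rw [← Finset.insert_Ioc_right_eq_Ioc_add_one hB, Finset.sum_insert (by simp)]
      have hg : ∑ n ∈ Finset.Icc 1 (B + 1), a n = ∑ n ∈ Finset.Icc 1 B, a n + a (B + 1) :=
        Finset.sum_Icc_succ_top (by omega) _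
      have hg2 := hG (B + 1)
      set G := ∑ n ∈ Finset.Icc 1 B, a n with hGd
      rw [hg] at hg2 ⊢
      push_cast at hg2 ⊢
      have hlog : 1 / ((B : ℝ) + 2) ≤
          Real.log (((B : ℝ) + 1 + 1) / ((A : ℝ) + 1)) - Real.log (((B : ℝ) + 1) / ((A : ℝ) + 1)) := by
        rw [← Real.log_div (by positivity) (by positivity)]
        have h3 : ((B : ℝ) + 1 + 1) / ((A : ℝ) + 1) / (((B : ℝ) + 1) / ((A : ℝ) + 1)) =
            ((B : ℝ) + 2) / ((B : ℝ) + 1) := by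
          field_simp
          ring
        rw [h3]
        have h4 := Real.one_sub_inv_le_log_of_pos (show (0 : ℝ) < ((B : ℝ) + 2) / ((B : ℝ) + 1) by positivity)
        have h5 : 1 - (((B : ℝ) + 2) / ((B : ℝ) + 1))⁻¹ = 1 / ((B : ℝ) + 2) := by
          rw [inv_div]
          field_simp
          ring
        linarith
      have hElog := mul_le_mul_of_nonneg_left hlog hE
      have h6 : (G + a (B + 1)) * (1 / (((B : ℝ) + 1) * ((B : ℝ) + 2))) ≤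
          (E * ((B : ℝ) + 1) + D') * (1 / (((B : ℝ) + 1) * ((B : ℝ) + 2))) :=
        mul_le_mul_of_nonneg_right hg2 (by positivity)
      have h7 : (E * ((B : ℝ) + 1) + D') * (1 / (((B : ℝ) + 1) * ((B : ℝ) + 2))) =
          E * (1 / ((B : ℝ) + 2)) + D' * (1 / ((B : ℝ) + 1) - 1 / ((B : ℝ) + 1 + 1)) := by
        have : (B : ℝ) + 1 + 1 = B + 2 := by ring
        rw [this]
        field_simp
        ring
      have h8 : (G + a (B + 1)) * (1 / (((B : ℝ) + 1) * ((B : ℝ) + 2))) =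
          G / ((B : ℝ) + 1) + a (B + 1) / ((B : ℝ) + 1) - (G + a (B + 1)) / ((B : ℝ) + 1 + 1) := by
        have : (B : ℝ) + 1 + 1 = B + 2 := by ring
        rw [this]
        field_simp
        ring
      rw [h7, h8] at h6
      have h9 : E * (Real.log (((B : ℝ) + 1 + 1) / ((A : ℝ) + 1)) -
          Real.log (((B : ℝ) + 1) / ((A : ℝ) + 1))) =
          E * Real.log (((B : ℝ) + 1 + 1) / ((A : ℝ) + 1)) -
          E * Real.log (((B : ℝ) + 1) / ((A : ℝ) + 1)) := by ring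
      rw [h9] at hElog
      have h10 : D' * (1 / ((A : ℝ) + 1) - 1 / ((B : ℝ) + 1 + 1)) =
          D' * (1 / ((A : ℝ) + 1) - 1 / ((B : ℝ) + 1)) +
          D' * (1 / ((B : ℝ) + 1) - 1 / ((B : ℝ) + 1 + 1)) := by ring
      rw [h10]
      linarith
  have h1 := hind B hAB
  have hBA : (A : ℝ) ≤ B := by exact_mod_cast hAB
  have hB0 : (1 : ℝ) ≤ B := hAR.trans hBA
  have h2 := hG B
  have h3 : (∑ n ∈ Finset.Icc 1 B, a n) / ((B : ℝ) + 1) ≤ E + D' / ((B : ℝ) + 1) := by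
    rw [div_le_iff₀ (by positivity), add_mul, div_mul_cancel₀ _ (by positivity)]
    nlinarith
  have h4 : Real.log (((B : ℝ) + 1) / ((A : ℝ) + 1)) ≤ Real.log (B / A) := by
    refine Real.log_le_log (by positivity) ?_
    rw [div_le_div_iff₀ (by positivity) (by positivity)]
    nlinarith
  have h5 := mul_le_mul_of_nonneg_left h4 hE
  have h6 : D' * (1 / ((A : ℝ) + 1) - 1 / ((B : ℝ) + 1)) =
      D' / ((A : ℝ) + 1) - D' / ((B : ℝ) + 1) := by ring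
  have h7 : D' / ((A : ℝ) + 1) ≤ D' / A :=
    div_le_div_of_nonneg_left hD (by linarith) (by linarith)
  rw [h6] at h1
  linarith

open Classical in
theorem C2m : ∃ K : ℕ, 1 ≤ K ∧ ∀ b : ℕ, 1 ≤ b → ∀ z : ℕ, 2 ≤ z → ∃ D : Finset ℕ,
    (∀ d ∈ D, 1 ≤ d ∧ (d : ℝ) ≤ (z : ℝ) ^ (K * b)) ∧
    (∀ n : ℕ, 1 ≤ n → (if Rough z n then (1 : ℝ) else 0) ≤
      ∑ d ∈ D with d ∣ n, (ArithmeticFunction.moebius d : ℝ)) ∧
    ∀ A B : ℕ, 1 ≤ A → A ≤ B → ∑ n ∈ Finset.Ioc A B,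
      (∑ d ∈ D with d ∣ n, (ArithmeticFunction.moebius d : ℝ) - (if Rough z n then (1 : ℝ) else 0)) / n ≤
      K * (1 / 2) ^ b * (V z * (Real.log (B / A) + 1)) + (z : ℝ) ^ (K * b) / A := by
  obtain ⟨K, hK, h⟩ := GT.brun_weights
  refine ⟨K, hK, fun b hb z hz => ?_⟩
  obtain ⟨D, h1, h2, h3⟩ := h b hb z hz
  refine ⟨D, h1, h2, fun A B hA hAB => ?_⟩
  have hV := GT.V_pos z
  have hE : 0 ≤ (K : ℝ) * (1 / 2) ^ b * V z := by positivity
  have hD : (0 : ℝ) ≤ (z : ℝ) ^ (K * b) := by positivity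
  have h4 := C2m_abel (fun n => ∑ d ∈ D with d ∣ n, (ArithmeticFunction.moebius d : ℝ) -
      (if Rough z n then (1 : ℝ) else 0)) _ _ hE hD (fun n hn => sub_nonneg.mpr (h2 n hn))
    (fun M => (h3 M).trans (le_of_eq (by ring))) A B hA hAB
  refine h4.trans (le_of_eq ?_)
  ring

end Pool.Agent.Lib.PQ
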