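import Pool.Agent.Lib.MP_7b7e48_nt.PQ.Defs
import Pool.Agent.Lib.MP_7b7e48_nt.RG.PV

/-!
# C4p (30 minutes): logarithmic character sums over the multiples of `d`

PROOF. The `n ∈ (A, B]` with `d ∣ n` are `n = d m`, `A/d < m ≤ B/d` (`a = A / d`, `b = B / d` natural division:
`a < m ≤ b`), and the sum is `ψ d / d * ∑_{a < m ≤ b} ψ m / m`. The partial sums `∑_{a < m ≤ y} ψ m` have norm
`≤ 2 PB N` (`RG.PVall` twice), so by partial summation `‖∑_{a < m ≤ b} ψ m / m‖ ≤ 2 PB N / (a + 1)`, and `(a + 1) d > A`.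
-/

set_option autoImplicit false

open Finset
open Pool.Agent.Lib.GT (Rough pr V)
open Pool.Agent.Lib.MP_45349e_nt.LS (lam)
open Pool.Agent.Lib.RG (RC LV rr SS PB sig)

namespace Pool.Agent.Lib.PQ

private theorem C4p_pb (N : ℕ) : 0 ≤ PB N := by
  unfold PB
  have : 0 ≤ Real.log N := Real.log_natCast_nonneg N
  positivity

private theorem C4p_S (N : ℕ) [NeZero N] (hN : 2 ≤ N) (ψ : DirichletCharacter ℂ N) (hψ : ψ ≠ 1)
    {a b : ℕ} (hab : a ≤ b) : ‖∑ m ∈ Finset.Ioc a b, ψ (m : ZMod N)‖ ≤ 2 * PB N := by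
  have h1 : ∑ m ∈ Finset.Icc 1 b, ψ (m : ZMod N) =
      ∑ m ∈ Finset.Icc 1 a, ψ (m : ZMod N) + ∑ m ∈ Finset.Ioc a b, ψ (m : ZMod N) := by
    have e : ∀ y : ℕ, Finset.Icc 1 y = Finset.Ioc 0 y := fun y => by
      ext x
      simp only [Finset.mem_Icc, Finset.mem_Ioc]
      omega
    rw [e, e]
    exact (Finset.sum_Ioc_consecutive _ (Nat.zero_le a) hab).symm
  have h2 := Pool.Agent.Lib.RG.PVall N hN ψ hψ a
  have h3 := Pool.Agent.Lib.RG.PVall N hN ψ hψ b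
  have h4 : ∑ m ∈ Finset.Ioc a b, ψ (m : ZMod N) =
      ∑ m ∈ Finset.Icc 1 b, ψ (m : ZMod N) - ∑ m ∈ Finset.Icc 1 a, ψ (m : ZMod N) := by
    rw [h1]; ring
  rw [h4]
  refine (norm_sub_le _ _).trans ?_
  linarith

private theorem C4p_abel (f : ℕ → ℂ) {a b : ℕ} (hab : a ≤ b) :
    ∑ m ∈ Finset.Ioc a b, f m / (m : ℂ) = (∑ m ∈ Finset.Ioc a b, f m) / ((b : ℂ) + 1) +
      ∑ y ∈ Finset.Ioc a b, (∑ m ∈ Finset.Ioc a y, f m) * (1 / (y : ℂ) - 1 / ((y : ℂ) + 1)) := by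
  induction b, hab using Nat.le_induction with
  | base => simp
  | succ b hab ih =>
    rw [Finset.sum_Ioc_succ_top hab, Finset.sum_Ioc_succ_top hab (fun y => (∑ m ∈ Finset.Ioc a y, f m) *
      (1 / (y : ℂ) - 1 / ((y : ℂ) + 1))), Finset.sum_Ioc_succ_top hab f, ih]
    have h1 : ((b : ℂ) + 1) ≠ 0 := by exact_mod_cast Nat.succ_ne_zero b
    have h2 : ((b : ℂ) + 1 + 1) ≠ 0 := by
      have : ((b + 1 + 1 : ℕ) : ℂ) ≠ 0 := by exact_mod_cast Nat.succ_ne_zero (b + 1)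
      push_cast at this
      exact this
    push_cast
    field_simp
    ring

private theorem C4p_main (N : ℕ) [NeZero N] (hN : 2 ≤ N) (ψ : DirichletCharacter ℂ N) (hψ : ψ ≠ 1)
    {a b : ℕ} (hab : a ≤ b) :
    ‖∑ m ∈ Finset.Ioc a b, ψ (m : ZMod N) / (m : ℂ)‖ ≤ 2 * PB N / ((a : ℝ) + 1) := by
  rw [C4p_abel (fun m => ψ (m : ZMod N)) hab]
  refine (norm_add_le _ _).trans ?_
  have hb1 : (0 : ℝ) < (b : ℝ) + 1 := by positivity
  have t1 : ‖(∑ m ∈ Finset.Ioc a b, ψ (m : ZMod N)) / ((b : ℂ) + 1)‖ ≤ 2 * PB N / ((b : ℝ) + 1) := by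
    rw [norm_div]
    have e : ‖((b : ℂ) + 1)‖ = (b : ℝ) + 1 := by
      have : ((b : ℂ) + 1) = (((b : ℝ) + 1 : ℝ) : ℂ) := by push_cast; rfl
      rw [this, Complex.norm_real, Real.norm_eq_abs, abs_of_pos hb1]
    rw [e]
    exact div_le_div_of_nonneg_right (C4p_S N hN ψ hψ hab) hb1.le
  have t2 : ‖∑ y ∈ Finset.Ioc a b, (∑ m ∈ Finset.Ioc a y, ψ (m : ZMod N)) *
      (1 / (y : ℂ) - 1 / ((y : ℂ) + 1))‖ ≤ 2 * PB N * (1 / ((a : ℝ) + 1) - 1 / ((b : ℝ) + 1)) := by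
    refine (norm_sum_le _ _).trans ?_
    have h1 : ∀ y ∈ Finset.Ioc a b, ‖(∑ m ∈ Finset.Ioc a y, ψ (m : ZMod N)) *
        (1 / (y : ℂ) - 1 / ((y : ℂ) + 1))‖ ≤ 2 * PB N * (1 / (y : ℝ) - 1 / ((y : ℝ) + 1)) := by
      intro y hy
      rw [Finset.mem_Ioc] at hy
      have hy0 : (0 : ℝ) < y := by exact_mod_cast (by omega : 0 < y)
      rw [norm_mul]
      have e : ‖(1 / (y : ℂ) - 1 / ((y : ℂ) + 1))‖ = 1 / (y : ℝ) - 1 / ((y : ℝ) + 1) := by
        have : (1 / (y : ℂ) - 1 / ((y : ℂ) + 1)) = ((1 / (y : ℝ) - 1 / ((y : ℝ) + 1) : ℝ) : ℂ) := by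
          push_cast; rfl
        rw [this, Complex.norm_real, Real.norm_eq_abs, abs_of_nonneg]
        have : 1 / ((y : ℝ) + 1) ≤ 1 / (y : ℝ) := one_div_le_one_div_of_le hy0 (by linarith)
        linarith
      rw [e]
      refine mul_le_mul_of_nonneg_right (C4p_S N hN ψ hψ hy.1.le) ?_
      have : 1 / ((y : ℝ) + 1) ≤ 1 / (y : ℝ) := one_div_le_one_div_of_le hy0 (by linarith)
      linarith
    refine (sum_le_sum h1).trans ?_
    rw [← mul_sum]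
    refine mul_le_mul_of_nonneg_left (le_of_eq ?_) (by linarith [C4p_pb N])
    clear h1 t1
    induction b, hab using Nat.le_induction with
    | base => simp
    | succ b hab ih =>
      rw [Finset.sum_Ioc_succ_top hab, ih (by positivity)]
      push_cast
      ring
  have e : 2 * PB N / ((a : ℝ) + 1) = 2 * PB N / ((b : ℝ) + 1) +
      2 * PB N * (1 / ((a : ℝ) + 1) - 1 / ((b : ℝ) + 1)) := by ring
  rw [e]
  exact add_le_add t1 t2

theorem C4p (N : ℕ) [NeZero N] (hN : 2 ≤ N) (ψ : DirichletCharacter ℂ N) (hψ : ψ ≠ 1) (A B d : ℕ)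
    (hA : 1 ≤ A) (hd : 1 ≤ d) :
    ‖∑ n ∈ (Finset.Ioc A B).filter (fun n => d ∣ n), ψ (n : ZMod N) / (n : ℂ)‖ ≤ 2 * PB N / A := by
  have hA0 : (0 : ℝ) < A := by exact_mod_cast hA
  have hd0 : (0 : ℝ) < d := by exact_mod_cast hd
  have hPB := C4p_pb N
  have himg : (Finset.Ioc A B).filter (fun n => d ∣ n) =
      (Finset.Ioc (A / d) (B / d)).image (fun m => d * m) := by
    ext n
    simp only [Finset.mem_filter, Finset.mem_Ioc, Finset.mem_image]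
    constructor
    · rintro ⟨⟨h1, h2⟩, m, rfl⟩
      refine ⟨m, ⟨?_, ?_⟩, rfl⟩
      · rw [Nat.div_lt_iff_lt_mul hd, mul_comm]
        exact h1
      · rw [Nat.le_div_iff_mul_le hd, mul_comm]
        exact h2
    · rintro ⟨m, ⟨h1, h2⟩, rfl⟩
      rw [Nat.div_lt_iff_lt_mul hd, mul_comm] at h1
      rw [Nat.le_div_iff_mul_le hd, mul_comm] at h2
      exact ⟨⟨h1, h2⟩, dvd_mul_right d m⟩
  rw [himg, Finset.sum_image (fun x _ y _ h => Nat.eq_of_mul_eq_mul_left hd h)]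
  have hsum : ∑ m ∈ Finset.Ioc (A / d) (B / d), ψ ((d * m : ℕ) : ZMod N) / ((d * m : ℕ) : ℂ) =
      ψ (d : ZMod N) / (d : ℂ) * ∑ m ∈ Finset.Ioc (A / d) (B / d), ψ (m : ZMod N) / (m : ℂ) := by
    rw [Finset.mul_sum]
    refine Finset.sum_congr rfl fun m _ => ?_
    push_cast
    rw [map_mul, mul_div_mul_comm]
  rw [hsum, norm_mul, norm_div, Complex.norm_natCast]
  rcases le_or_gt (A / d) (B / d) with hab | hab
  · have h1 := C4p_main N hN ψ hψ hab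
    have h2 : ‖ψ (d : ZMod N)‖ / d ≤ 1 / d :=
      div_le_div_of_nonneg_right (DirichletCharacter.norm_le_one ψ _) hd0.le
    have h3 : (A : ℝ) < d * (((A / d : ℕ) : ℝ) + 1) := by
      have : A < d * (A / d + 1) := Nat.lt_mul_div_succ A hd
      exact_mod_cast this
    have h4 : (0 : ℝ) < ((A / d : ℕ) : ℝ) + 1 := by positivity
    calc ‖ψ (d : ZMod N)‖ / d * ‖∑ m ∈ Finset.Ioc (A / d) (B / d), ψ (m : ZMod N) / (m : ℂ)‖
        ≤ 1 / d * (2 * PB N / (((A / d : ℕ) : ℝ) + 1)) :=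
          mul_le_mul h2 h1 (norm_nonneg _) (by positivity)
      _ = 2 * PB N / (d * (((A / d : ℕ) : ℝ) + 1)) := by
          rw [one_div_mul_eq_div, div_div, mul_comm (((A / d : ℕ) : ℝ) + 1) (d : ℝ)]
      _ ≤ 2 * PB N / A := div_le_div_of_nonneg_left (by linarith) hA0 h3.le
  · rw [Finset.Ioc_eq_empty (by omega), Finset.sum_empty, norm_zero, mul_zero]
    positivity

end Pool.Agent.Lib.PQ
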