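import Pool.Agent.Lib.MP_7b7e48_nt.PQ.C2m
import Pool.Agent.Lib.MP_7b7e48_nt.PQ.C4p
import Pool.Agent.Lib.MP_7b7e48_nt.RG.CHA

/-!
# C4a (50 minutes): Bessel's inequality on the rough numbers, explicit error

PROOF. `K`, `D` from `C2m`, `W n = ∑_{d ∈ D, d ∣ n} μ(d) ≥ 1_rough(n)`, `T n = ‖∑_X a χ * χ n‖²` (it vanishes if `n` is not
coprime to `N`). `∑_{RS} T n / n ≤ ∑_{A<n≤B} W n * T n / n = ∑_{χ, χ' ∈ X} a χ * conj (a χ') * S(χ * χ'⁻¹)`,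
`S ψ = ∑_{A<n≤B} W n * ψ n / n`. DIAGONAL: `S 1 = ∑_{(n,N)=1} W n / n = ms (RS N z A B) + ∑_{(n,N)=1} (W n - 1_rough) / n`,
and the last sum is at most the sum over all `n` (its terms are `≥ 0`), bounded by `C2m`. OFF DIAGONAL: `ψ ≠ 1`:
`S ψ = ∑_{d ∈ D} μ(d) ∑_{d ∣ n} ψ n / n`, so `‖S ψ‖ ≤ #D * 2 PB N / A` (`C4p`), `#D ≤ z^(K b)`; and
`∑_{χ ≠ χ'} ‖a χ‖ ‖a χ'‖ ≤ #X * ∑ ‖a χ‖²`.
-/

set_option autoImplicit false

open Finset
open Pool.Agent.Lib.GT (Rough pr V)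
open Pool.Agent.Lib.MP_45349e_nt.LS (lam)
open Pool.Agent.Lib.RG (RC LV rr SS PB sig)

namespace Pool.Agent.Lib.PQ

/-- the square expanded: general real weights `g` -/
theorem c4aExp (N : ℕ) [NeZero N] (X : Finset (DirichletCharacter ℂ N))
    (a : DirichletCharacter ℂ N → ℂ) (s : Finset ℕ) (g : ℕ → ℝ) (P : ℝ) (hP0 : 0 ≤ P)
    (hoff : ∀ χ ∈ X, ∀ ψ ∈ X, χ ≠ ψ → ‖∑ n ∈ s, (g n : ℂ) * (χ * ψ⁻¹) (n : ZMod N)‖ ≤ P) :
    ∑ n ∈ s, g n * ‖∑ χ ∈ X, a χ * χ (n : ZMod N)‖ ^ 2 ≤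
      (∑ n ∈ s with Nat.Coprime n N, g n + X.card * P) * ∑ χ ∈ X, ‖a χ‖ ^ 2 := by
  classical
  set A : ℝ := ∑ n ∈ s with Nat.Coprime n N, g n with hA
  have h1 : ((∑ n ∈ s, g n * ‖∑ χ ∈ X, a χ * χ (n : ZMod N)‖ ^ 2 : ℝ) : ℂ) =
      ∑ χ ∈ X, ∑ ψ ∈ X, (a χ * (starRingEnd ℂ) (a ψ)) * ∑ n ∈ s,
        (g n : ℂ) * (χ (n : ZMod N) * (starRingEnd ℂ) (ψ (n : ZMod N))) := by
    rw [Complex.ofReal_sum]
    have h2 : ∀ n ∈ s, ((g n * ‖∑ χ ∈ X, a χ * χ (n : ZMod N)‖ ^ 2 : ℝ) : ℂ) =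
        ∑ χ ∈ X, ∑ ψ ∈ X, (a χ * (starRingEnd ℂ) (a ψ)) *
          ((g n : ℂ) * (χ (n : ZMod N) * (starRingEnd ℂ) (ψ (n : ZMod N)))) := by
      intro n _
      have h3 : ((‖∑ χ ∈ X, a χ * χ (n : ZMod N)‖ ^ 2 : ℝ) : ℂ) = ∑ χ ∈ X, ∑ ψ ∈ X,
          (a χ * (starRingEnd ℂ) (a ψ)) * (χ (n : ZMod N) * (starRingEnd ℂ) (ψ (n : ZMod N))) :=
        RG.chExpand X a (fun χ => χ (n : ZMod N))
      rw [Complex.ofReal_mul, h3, mul_sum]
      refine sum_congr rfl fun χ _ => ?_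
      rw [mul_sum]
      refine sum_congr rfl fun ψ _ => ?_
      ring
    rw [sum_congr rfl h2, sum_comm]
    refine sum_congr rfl fun χ _ => ?_
    rw [sum_comm]
    refine sum_congr rfl fun ψ _ => ?_
    rw [mul_sum]
  have hdiag : ∀ χ : DirichletCharacter ℂ N, ∑ n ∈ s,
      (g n : ℂ) * (χ (n : ZMod N) * (starRingEnd ℂ) (χ (n : ZMod N))) = (A : ℂ) := by
    intro χ
    have h2 : ∀ n ∈ s, (g n : ℂ) * (χ (n : ZMod N) * (starRingEnd ℂ) (χ (n : ZMod N))) =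
        if Nat.Coprime n N then (g n : ℂ) else 0 := by
      intro n _
      rw [← RG.chNormsq]
      split_ifs with h
      · rw [RG.chNorm χ ((ZMod.isUnit_iff_coprime n N).mpr h)]
        norm_num
      · rw [MulChar.map_nonunit χ (fun h3 => h ((ZMod.isUnit_iff_coprime n N).mp h3))]
        norm_num
    rw [sum_congr rfl h2, ← sum_filter, hA]
    push_cast
    rfl
  have hoff' : ∀ χ ∈ X, ∀ ψ ∈ X, χ ≠ ψ → ‖∑ n ∈ s,
      (g n : ℂ) * (χ (n : ZMod N) * (starRingEnd ℂ) (ψ (n : ZMod N)))‖ ≤ P := by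
    intro χ hχ ψ hψ hne
    have h3 : ∀ n ∈ s, (g n : ℂ) * (χ (n : ZMod N) * (starRingEnd ℂ) (ψ (n : ZMod N))) =
        (g n : ℂ) * (χ * ψ⁻¹) (n : ZMod N) := by
      intro n _
      rw [RG.chStar, MulChar.mul_apply]
    rw [sum_congr rfl h3]
    exact hoff χ hχ ψ hψ hne
  have h4 : ‖((∑ n ∈ s, g n * ‖∑ χ ∈ X, a χ * χ (n : ZMod N)‖ ^ 2 : ℝ) : ℂ) -
      ((A * ∑ χ ∈ X, ‖a χ‖ ^ 2 : ℝ) : ℂ)‖ ≤ X.card * P * ∑ χ ∈ X, ‖a χ‖ ^ 2 := by
    have h5 : ((A * ∑ χ ∈ X, ‖a χ‖ ^ 2 : ℝ) : ℂ) = ∑ χ ∈ X, ∑ ψ ∈ X,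
        if χ = ψ then (a χ * (starRingEnd ℂ) (a ψ)) * (A : ℂ) else 0 := by
      push_cast
      rw [mul_sum]
      refine sum_congr rfl fun χ hχ => ?_
      rw [Finset.sum_ite_eq X χ, if_pos hχ]
      have := RG.chNormsq (a χ)
      push_cast at this
      rw [this]
      ring
    rw [h1, h5, ← sum_sub_distrib]
    refine (norm_sum_le _ _).trans ?_
    have h6 : ∀ χ ∈ X, ‖(∑ ψ ∈ X, (a χ * (starRingEnd ℂ) (a ψ)) * ∑ n ∈ s,
        (g n : ℂ) * (χ (n : ZMod N) * (starRingEnd ℂ) (ψ (n : ZMod N)))) -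
        ∑ ψ ∈ X, (if χ = ψ then (a χ * (starRingEnd ℂ) (a ψ)) * (A : ℂ) else 0)‖ ≤
        ∑ ψ ∈ X, ‖a χ‖ * ‖a ψ‖ * P := by
      intro χ hχ
      rw [← sum_sub_distrib]
      refine (norm_sum_le _ _).trans (sum_le_sum fun ψ hψ => ?_)
      by_cases h7 : χ = ψ
      · subst h7
        rw [if_pos rfl, hdiag, sub_self, norm_zero]
        positivity
      · rw [if_neg h7, sub_zero, norm_mul, norm_mul, RCLike.norm_conj]
        gcongr
        exact hoff' χ hχ ψ hψ h7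
    refine (sum_le_sum h6).trans ?_
    have h7 : ∑ χ ∈ X, ∑ ψ ∈ X, ‖a χ‖ * ‖a ψ‖ * P = P * (∑ χ ∈ X, ‖a χ‖) ^ 2 := by
      rw [sq, Finset.sum_mul_sum, mul_sum]
      refine sum_congr rfl fun χ _ => ?_
      rw [mul_sum]
      refine sum_congr rfl fun ψ _ => ?_
      ring
    rw [h7]
    have h8 : (∑ χ ∈ X, ‖a χ‖) ^ 2 ≤ X.card * ∑ χ ∈ X, ‖a χ‖ ^ 2 := sq_sum_le_card_mul_sum_sq
    calc P * (∑ χ ∈ X, ‖a χ‖) ^ 2 ≤ P * (X.card * ∑ χ ∈ X, ‖a χ‖ ^ 2) := by gcongr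
      _ = _ := by ring
  rw [← Complex.ofReal_sub, Complex.norm_real, Real.norm_eq_abs] at h4
  have h9 := (abs_le.mp h4).2
  rw [add_mul]
  linarith

theorem C4a : ∃ K : ℕ, 1 ≤ K ∧ ∀ b : ℕ, 1 ≤ b → ∀ (N : ℕ) [NeZero N] (z A B : ℕ), 2 ≤ N → 2 ≤ z → 1 ≤ A →
    A ≤ B → ∀ (X : Finset (DirichletCharacter ℂ N)) (a : DirichletCharacter ℂ N → ℂ),
    ∑ n ∈ RS N z A B, 1 / (n : ℝ) * ‖∑ χ ∈ X, a χ * χ (n : ZMod N)‖ ^ 2 ≤
      (ms (RS N z A B) + K * (1 / 2) ^ b * (V z * (Real.log (B / A) + 1)) +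
        4 * (z : ℝ) ^ (K * b) * (1 + X.card * PB N) / A) * ∑ χ ∈ X, ‖a χ‖ ^ 2 := by
  classical
  obtain ⟨K, hK, hC2⟩ := C2m
  refine ⟨K, hK, fun b hb N _ z A B hN hz hA hAB X a => ?_⟩
  obtain ⟨D, hD1, hD2, hD3⟩ := hC2 b hb z hz
  have h3 := hD3 A B hA hAB
  have hM0 : 0 ≤ PB N := by
    have h1 : 0 ≤ Real.log N := Real.log_natCast_nonneg N
    unfold PB
    positivity
  have hA0 : (0 : ℝ) < A := by exact_mod_cast hA
  have hS : 0 ≤ ∑ χ ∈ X, ‖a χ‖ ^ 2 := sum_nonneg fun _ _ => by positivity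
  set W : ℕ → ℝ := fun n => ∑ d ∈ D with d ∣ n, (ArithmeticFunction.moebius d : ℝ) with hW
  -- the number of the moduli
  have hcard : (D.card : ℝ) ≤ (z : ℝ) ^ (K * b) := by
    have h1 : D ⊆ Finset.Icc 1 (z ^ (K * b)) := by
      intro d hd
      obtain ⟨h4, h5⟩ := hD1 d hd
      rw [mem_Icc]
      exact ⟨h4, by exact_mod_cast h5⟩
    have h4 := card_le_card h1
    rw [Nat.card_Icc, Nat.add_sub_cancel] at h4
    exact_mod_cast h4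
  -- step 1
  have h1 : ∑ n ∈ RS N z A B, 1 / (n : ℝ) * ‖∑ χ ∈ X, a χ * χ (n : ZMod N)‖ ^ 2 ≤
      ∑ n ∈ Finset.Ioc A B, (W n / n) * ‖∑ χ ∈ X, a χ * χ (n : ZMod N)‖ ^ 2 := by
    rw [RS, sum_filter]
    refine sum_le_sum fun n hn => ?_
    have hn1 : 1 ≤ n := by have := (mem_Ioc.mp hn).1; omega
    have h5 : (if Rough z n then (1 : ℝ) else 0) ≤ W n := hD2 n hn1
    split_ifs with h6
    · rw [if_pos h6.1] at h5
      gcongr
    · have h7 : 0 ≤ W n := by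
        refine le_trans ?_ h5
        split_ifs <;> norm_num
      positivity
  -- the off diagonal terms
  have hoff : ∀ χ ∈ X, ∀ ψ ∈ X, χ ≠ ψ →
      ‖∑ n ∈ Finset.Ioc A B, ((W n / n : ℝ) : ℂ) * (χ * ψ⁻¹) (n : ZMod N)‖ ≤
      (z : ℝ) ^ (K * b) * (2 * PB N / A) := by
    intro χ _ ψ _ hne
    have hne' : χ * ψ⁻¹ ≠ 1 := fun h => hne (mul_inv_eq_one.mp h)
    have h4 : ∑ n ∈ Finset.Ioc A B, ((W n / n : ℝ) : ℂ) * (χ * ψ⁻¹) (n : ZMod N) =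
        ∑ d ∈ D, (ArithmeticFunction.moebius d : ℂ) *
          ∑ n ∈ (Finset.Ioc A B).filter (fun n => d ∣ n), (χ * ψ⁻¹) (n : ZMod N) / (n : ℂ) := by
      have h5 : ∀ n ∈ Finset.Ioc A B, ((W n / n : ℝ) : ℂ) * (χ * ψ⁻¹) (n : ZMod N) =
          ∑ d ∈ D, (if d ∣ n then (ArithmeticFunction.moebius d : ℂ) *
            ((χ * ψ⁻¹) (n : ZMod N) / (n : ℂ)) else 0) := by
        intro n _
        rw [← sum_filter, ← sum_mul, hW]
        push_cast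
        ring
      rw [sum_congr rfl h5, sum_comm]
      refine sum_congr rfl fun d _ => ?_
      rw [← sum_filter, mul_sum]
    rw [h4]
    refine (norm_sum_le _ _).trans ?_
    have h6 : ∀ d ∈ D, ‖(ArithmeticFunction.moebius d : ℂ) *
          ∑ n ∈ (Finset.Ioc A B).filter (fun n => d ∣ n), (χ * ψ⁻¹) (n : ZMod N) / (n : ℂ)‖ ≤
        2 * PB N / A := by
      intro d hd
      have h7 := C4p N hN (χ * ψ⁻¹) hne' A B d hA (hD1 d hd).1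
      rw [norm_mul]
      have h8 : ‖(ArithmeticFunction.moebius d : ℂ)‖ ≤ 1 := by
        rw [Complex.norm_intCast]
        exact_mod_cast ArithmeticFunction.abs_moebius_le_one
      calc _ ≤ 1 * (2 * PB N / A) := by gcongr
        _ = _ := one_mul _
    refine (sum_le_sum h6).trans ?_
    rw [sum_const, nsmul_eq_mul]
    gcongr
  have h4 := c4aExp N X a (Finset.Ioc A B) (fun n => W n / n) ((z : ℝ) ^ (K * b) * (2 * PB N / A))
    (by positivity) hoff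
  -- the diagonal
  have h5 : ∑ n ∈ Finset.Ioc A B with Nat.Coprime n N, W n / n ≤
      ms (RS N z A B) + (K * (1 / 2) ^ b * (V z * (Real.log (B / A) + 1)) + (z : ℝ) ^ (K * b) / A) := by
    have h6 : ∑ n ∈ Finset.Ioc A B with Nat.Coprime n N, W n / n ≤
        ms (RS N z A B) + ∑ n ∈ Finset.Ioc A B, (W n - (if Rough z n then (1 : ℝ) else 0)) / n := by
      rw [ms, RS, sum_filter, sum_filter, ← sum_add_distrib]
      refine sum_le_sum fun n hn => ?_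
      have hn1 : 1 ≤ n := by have := (mem_Ioc.mp hn).1; omega
      have h7 : (if Rough z n then (1 : ℝ) else 0) ≤ W n := hD2 n hn1
      by_cases h8 : Rough z n
      · rw [if_pos h8] at h7 ⊢
        by_cases h9 : Nat.Coprime n N
        · rw [if_pos h9, if_pos ⟨h8, h9⟩]
          apply le_of_eq; ring
        · rw [if_neg h9, if_neg (fun h => h9 h.2)]
          have : 0 ≤ W n - 1 := by linarith
          positivity
      · rw [if_neg h8] at h7 ⊢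
        rw [if_neg (fun h : Rough z n ∧ n.Coprime N => h8 h.1)]
        by_cases h9 : Nat.Coprime n N
        · rw [if_pos h9]
          apply le_of_eq; ring
        · rw [if_neg h9]
          have : 0 ≤ W n - 0 := by linarith
          positivity
    exact h6.trans (add_le_add le_rfl h3)
  refine h1.trans (h4.trans (mul_le_mul_of_nonneg_right ?_ hS))
  have h6 : (X.card : ℝ) * ((z : ℝ) ^ (K * b) * (2 * PB N / A)) + (z : ℝ) ^ (K * b) / A ≤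
      4 * (z : ℝ) ^ (K * b) * (1 + X.card * PB N) / A := by
    have h7 : (0 : ℝ) ≤ (z : ℝ) ^ (K * b) / A := by positivity
    have h8 : (0 : ℝ) ≤ X.card * PB N := by positivity
    have h9 : (X.card : ℝ) * ((z : ℝ) ^ (K * b) * (2 * PB N / A)) + (z : ℝ) ^ (K * b) / A =
        ((z : ℝ) ^ (K * b) / A) * (2 * (X.card * PB N) + 1) := by ring
    have h10 : 4 * (z : ℝ) ^ (K * b) * (1 + X.card * PB N) / A =
        ((z : ℝ) ^ (K * b) / A) * (4 * (1 + X.card * PB N)) := by ring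
    rw [h9, h10]
    gcongr
    linarith
  linarith [h5, h6]

end Pool.Agent.Lib.PQ
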