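import Pool.Agent.Lib.MP_7b7e48_nt.PQ.Defs
import Pool.Agent.Lib.SW.SWFinal

/-!
# C9m (35 minutes): the number of primes in `QQ`

PROOF. `B = B1 k N ≥ N^(1+8/k) / 2`. By the prime number theorem `SW.pnt 1`
(`|ψ(x) - x| ≤ C x / log x`) and `θ(x) ≥ ψ(x) - 2 √x log x` (`Chebyshev.abs_psi_sub_theta_le_sqrt_mul_log`)
the number of primes `≤ B` is `≥ θ(B)/log B ≥ (1 - e/2) B/log B` for large `N`. Subtract the primes `≤ N` (at most
`N ≤ 2 N^(-8/k) B`): `≤ (e/2) B / log B`. `C9m_log`: `log B ≤ (1 + 8/k) log N`.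
-/

set_option autoImplicit false

open Finset
open Pool.Agent.Lib.GT (Rough pr V)
open Pool.Agent.Lib.MP_45349e_nt.LS (lam)
open Pool.Agent.Lib.RG (RC LV rr SS PB sig)

namespace Pool.Agent.Lib.PQ

private theorem C9m_exp {k : ℕ} (hk : 160 ≤ k) : (0 : ℝ) < 8 / k ∧ (8 : ℝ) / k ≤ 1 / 20 := by
  have hk' : (160 : ℝ) ≤ k := by exact_mod_cast hk
  refine ⟨by positivity, ?_⟩
  rw [div_le_div_iff₀ (by linarith) (by norm_num)]
  linarith

private theorem C9m_B {k N : ℕ} (hk : 160 ≤ k) (hN : 2 ≤ N) :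
    (B1 k N : ℝ) ≤ (N : ℝ) ^ (1 + (8 : ℝ) / k) ∧ (N : ℝ) ^ (1 + (8 : ℝ) / k) / 2 ≤ (B1 k N : ℝ) ∧
      N ≤ B1 k N ∧ (N : ℝ) ^ (1 + (8 : ℝ) / k) = N * (N : ℝ) ^ ((8 : ℝ) / k) := by
  obtain ⟨h1, h2⟩ := C9m_exp hk
  have hN' : (2 : ℝ) ≤ N := by exact_mod_cast hN
  have h3 : (N : ℝ) ^ (1 + (8 : ℝ) / k) = N * (N : ℝ) ^ ((8 : ℝ) / k) := by
    rw [Real.rpow_add (by linarith), Real.rpow_one]
  have h4 : (1 : ℝ) ≤ (N : ℝ) ^ ((8 : ℝ) / k) := Real.one_le_rpow (by linarith) h1.le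
  have h5 : (N : ℝ) ≤ (N : ℝ) ^ (1 + (8 : ℝ) / k) := by
    rw [h3]
    nlinarith
  have h6 : N ≤ B1 k N := by
    unfold B1 pw
    exact Nat.le_floor h5
  refine ⟨?_, ?_, h6, h3⟩
  · unfold B1 pw
    exact Nat.floor_le (by positivity)
  · have h7 := Nat.lt_floor_add_one ((N : ℝ) ^ (1 + (8 : ℝ) / k))
    have h8 : (⌊(N : ℝ) ^ (1 + (8 : ℝ) / k)⌋₊ : ℝ) = (B1 k N : ℝ) := rfl
    rw [h8] at h7
    have h9 : (2 : ℝ) ≤ B1 k N := by
      have : 2 ≤ B1 k N := le_trans hN h6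
      exact_mod_cast this
    linarith

private theorem C9m_logB {k N : ℕ} (hk : 160 ≤ k) (hN : 2 ≤ N) :
    Real.log (B1 k N) ≤ (1 + (8 : ℝ) / k) * Real.log N := by
  obtain ⟨h1, -, h3, -⟩ := C9m_B hk hN
  have hN' : (0 : ℝ) < N := by
    have : 0 < N := by omega
    exact_mod_cast this
  have h4 : (0 : ℝ) < B1 k N := by
    have : 0 < B1 k N := by omega
    exact_mod_cast this
  rw [← Real.log_rpow hN']
  exact Real.log_le_log h4 h1

private theorem C9m_theta (B N : ℕ) (hB : 1 ≤ B) :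
    ∑ n ∈ (Finset.Icc 1 B).filter (fun n => n.Prime ∧ n ≡ 0 [MOD 1]), Real.log n ≤
      ((N : ℝ) + ((Finset.Ioc N B).filter Nat.Prime).card) * Real.log B := by
  have hB' : (1 : ℝ) ≤ B := by exact_mod_cast hB
  have hlog : 0 ≤ Real.log B := Real.log_nonneg hB'
  have h1 : ∑ n ∈ (Finset.Icc 1 B).filter (fun n => n.Prime ∧ n ≡ 0 [MOD 1]), Real.log n ≤
      ∑ n ∈ (Finset.Icc 1 B).filter (fun n => n.Prime ∧ n ≡ 0 [MOD 1]), Real.log B := by
    refine Finset.sum_le_sum fun n hn => ?_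
    have hn' := (Finset.mem_Icc.1 (Finset.mem_filter.1 hn).1)
    refine Real.log_le_log ?_ ?_
    · have : 0 < n := by omega
      exact_mod_cast this
    · exact_mod_cast hn'.2
  refine le_trans h1 ?_
  rw [Finset.sum_const, nsmul_eq_mul]
  refine mul_le_mul_of_nonneg_right ?_ hlog
  have h2 : (Finset.Icc 1 B).filter (fun n => n.Prime ∧ n ≡ 0 [MOD 1]) ⊆
      Finset.Icc 1 N ∪ (Finset.Ioc N B).filter Nat.Prime := by
    intro n hn
    obtain ⟨h3, h4, -⟩ := Finset.mem_filter.1 hn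
    obtain ⟨h5, h6⟩ := Finset.mem_Icc.1 h3
    rw [Finset.mem_union, Finset.mem_Icc, Finset.mem_filter, Finset.mem_Ioc]
    by_cases h : n ≤ N
    · exact Or.inl ⟨h5, h⟩
    · exact Or.inr ⟨⟨not_le.1 h, h6⟩, h4⟩
  have h3 := (Finset.card_le_card h2).trans (Finset.card_union_le _ _)
  rw [Nat.card_Icc, Nat.add_sub_cancel] at h3
  exact_mod_cast h3

theorem C9m (k : ℕ) (hk : 160 ≤ k) (e : ℝ) (he : 0 < e) : ∃ N0 : ℕ, ∀ N : ℕ, N0 ≤ N →
    (1 - e) * ((B1 k N : ℝ) / Real.log (B1 k N)) ≤ ((QQ k N).card : ℝ) := by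
  obtain ⟨hk1, hk2⟩ := C9m_exp hk
  obtain ⟨C, hC, hth⟩ := Pool.Agent.Lib.SW.theta_ap 1 1 one_pos
  have t1 : Filter.Tendsto (fun N : ℕ => C / Real.log (N : ℝ)) Filter.atTop (nhds 0) :=
    Filter.Tendsto.const_div_atTop (Real.tendsto_log_atTop.comp tendsto_natCast_atTop_atTop) C
  have t2 : Filter.Tendsto (fun N : ℕ => Real.log (N : ℝ) / (N : ℝ) ^ ((8 : ℝ) / k))
      Filter.atTop (nhds 0) :=
    ((isLittleO_log_rpow_atTop hk1).tendsto_div_nhds_zero).comp tendsto_natCast_atTop_atTop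
  have e1 := t1.eventually (gt_mem_nhds (show (0 : ℝ) < e / 2 by linarith))
  have e2 := t2.eventually (gt_mem_nhds (show (0 : ℝ) < e / 8 by linarith))
  obtain ⟨N0, hN0⟩ := Filter.eventually_atTop.1 (e1.and e2)
  refine ⟨max N0 3, ?_⟩
  intro N hN
  have hN3 : 3 ≤ N := le_trans (le_max_right _ _) hN
  have hN2 : 2 ≤ N := by omega
  obtain ⟨h1, h2⟩ := hN0 N (le_trans (le_max_left _ _) hN)
  obtain ⟨b1, b2, b3, b4⟩ := C9m_B hk hN2
  have hNr : (3 : ℝ) ≤ N := by exact_mod_cast hN3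
  have hlN : 0 < Real.log N := Real.log_pos (by linarith)
  have hBN : (N : ℝ) ≤ B1 k N := by exact_mod_cast b3
  have hB2 : (2 : ℝ) ≤ B1 k N := by linarith
  have hBpos : (0 : ℝ) < B1 k N := by linarith
  have hlB : 0 < Real.log (B1 k N) := Real.log_pos (by linarith)
  have hlBN : Real.log N ≤ Real.log (B1 k N) := Real.log_le_log (by linarith) hBN
  have hlB2 : Real.log (B1 k N) ≤ 2 * Real.log N := by
    refine le_trans (C9m_logB hk hN2) ?_
    have : (1 : ℝ) + 8 / k ≤ 2 := by linarith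
    exact mul_le_mul_of_nonneg_right this hlN.le
  have h3 := hth 1 0 le_rfl (by norm_num) (B1 k N : ℝ) hB2
  rw [Nat.floor_natCast, Nat.totient_one, Nat.cast_one, div_one, Real.one_rpow, mul_one,
    pow_one] at h3
  have h4 := (abs_le.1 h3).1
  have h5 := C9m_theta (B1 k N) N (by omega)
  have h6 : ((Finset.Ioc N (B1 k N)).filter Nat.Prime).card = (QQ k N).card := rfl
  rw [h6] at h5
  -- `C B / log B <= (e/2) B`
  have h7 : C * (B1 k N : ℝ) / Real.log (B1 k N) ≤ e / 2 * B1 k N := by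
    have h8 : C / Real.log (B1 k N) ≤ C / Real.log N :=
      div_le_div_of_nonneg_left hC.le hlN hlBN
    have h9 : C / Real.log (B1 k N) ≤ e / 2 := by linarith
    calc C * (B1 k N : ℝ) / Real.log (B1 k N) = C / Real.log (B1 k N) * B1 k N := by ring
      _ ≤ e / 2 * B1 k N := mul_le_mul_of_nonneg_right h9 hBpos.le
  -- `N log B <= (e/2) B`
  have hP : (0 : ℝ) < (N : ℝ) ^ ((8 : ℝ) / k) := by positivity
  have h10 : (N : ℝ) * Real.log (B1 k N) ≤ e / 2 * B1 k N := by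
    have h11 : Real.log N < e / 8 * (N : ℝ) ^ ((8 : ℝ) / k) := by
      rwa [div_lt_iff₀ hP] at h2
    have h12 : (N : ℝ) * Real.log (B1 k N) ≤ N * (2 * Real.log N) :=
      mul_le_mul_of_nonneg_left hlB2 (by linarith)
    have h13 : (N : ℝ) * Real.log N ≤ N * (e / 8 * (N : ℝ) ^ ((8 : ℝ) / k)) :=
      mul_le_mul_of_nonneg_left h11.le (by linarith)
    rw [b4] at b2
    have h14 : e * (N * (N : ℝ) ^ ((8 : ℝ) / k) / 2) ≤ e * B1 k N :=
      mul_le_mul_of_nonneg_left b2 he.le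
    nlinarith
  rw [← mul_div_assoc, div_le_iff₀ hlB]
  nlinarith

theorem C9m_log (k : ℕ) (hk : 160 ≤ k) : ∃ N0 : ℕ, ∀ N : ℕ, N0 ≤ N →
    (B1 k N : ℝ) / (2 * Real.log N) ≤ ((QQ k N).card : ℝ) := by
  obtain ⟨hk1, hk2⟩ := C9m_exp hk
  obtain ⟨N0, hN0⟩ := C9m k hk (1 / 10) (by norm_num)
  refine ⟨max N0 3, ?_⟩
  intro N hN
  have hN3 : 3 ≤ N := le_trans (le_max_right _ _) hN
  have hN2 : 2 ≤ N := by omega
  have h1 := hN0 N (le_trans (le_max_left _ _) hN)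
  obtain ⟨b1, b2, b3, b4⟩ := C9m_B hk hN2
  have hNr : (3 : ℝ) ≤ N := by exact_mod_cast hN3
  have hlN : 0 < Real.log N := Real.log_pos (by linarith)
  have hBN : (N : ℝ) ≤ B1 k N := by exact_mod_cast b3
  have hBpos : (0 : ℝ) < B1 k N := by linarith
  have hlB : 0 < Real.log (B1 k N) := Real.log_pos (by linarith)
  refine le_trans ?_ h1
  have h2 : Real.log (B1 k N) ≤ 21 / 20 * Real.log N := by
    refine le_trans (C9m_logB hk hN2) ?_
    exact mul_le_mul_of_nonneg_right (by linarith) hlN.le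
  rw [← mul_div_assoc, div_le_div_iff₀ (by positivity) hlB]
  have h3 : (B1 k N : ℝ) * Real.log (B1 k N) ≤ B1 k N * (21 / 20 * Real.log N) :=
    mul_le_mul_of_nonneg_left h2 hBpos.le
  have h4 : 0 < (B1 k N : ℝ) * Real.log N := mul_pos hBpos hlN
  nlinarith

end Pool.Agent.Lib.PQ
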