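import Pool.Agent.Lib.MP_7b7e48_nt.PQ.Defs

/-!
# C7m (20 minutes): duality for averages over a set of integers

PROOF. `‖rho Q χ‖ = ‖(∑_q χ q) / #Q‖` (`χ⁻¹ (-q) = χ⁻¹ (-1) * conj (χ q)`, `χ⁻¹ (-1) = ±1`). Put `T χ = ∑_q χ q`, `a χ = conj (T χ)`,
`S = ∑_X ‖T χ‖² = ∑_q ∑_χ a χ * χ q`, so `S² ≤ #Q * ∑_q ‖∑_χ a χ * χ q‖² ≤ #Q * (T₀ * #Q) * S`, hence `S ≤ T₀ * #Q²`.
-/

set_option autoImplicit false

open Finset
open Pool.Agent.Lib.GT (Rough pr V)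
open Pool.Agent.Lib.MP_45349e_nt.LS (lam)
open Pool.Agent.Lib.RG (RC LV rr SS PB sig)

namespace Pool.Agent.Lib.PQ

private theorem c7_norm {N : ℕ} [NeZero N] (Q : Finset ℕ) (χ : DirichletCharacter ℂ N) :
    ‖∑ q ∈ Q, χ⁻¹ (-(q : ZMod N))‖ = ‖∑ q ∈ Q, χ (q : ZMod N)‖ := by
  have h1 : ∑ q ∈ Q, χ⁻¹ (-(q : ZMod N)) = χ⁻¹ (-1) * (starRingEnd ℂ) (∑ q ∈ Q, χ (q : ZMod N)) := by
    rw [map_sum, Finset.mul_sum]
    refine Finset.sum_congr rfl fun q _ => ?_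
    rw [← neg_one_mul, map_mul, ← MulChar.star_apply' χ (q : ZMod N)]
    rfl
  have h2 : ‖χ⁻¹ (-1 : ZMod N)‖ = 1 := by
    have h3 := (χ⁻¹).unit_norm_eq_one (-1 : (ZMod N)ˣ)
    simpa using h3
  rw [h1, norm_mul, h2, one_mul, RCLike.norm_conj]

theorem C7m {N : ℕ} [NeZero N] (Q : Finset ℕ) (h0 : Q.Nonempty) (X : Finset (DirichletCharacter ℂ N)) (T : ℝ)
    (hT : 0 ≤ T)
    (h : ∀ a : DirichletCharacter ℂ N → ℂ, ∑ q ∈ Q, ‖∑ χ ∈ X, a χ * χ (q : ZMod N)‖ ^ 2 ≤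
      T * Q.card * ∑ χ ∈ X, ‖a χ‖ ^ 2) : ∑ χ ∈ X, ‖rho Q χ‖ ^ 2 ≤ T := by
  set U : DirichletCharacter ℂ N → ℂ := fun χ => ∑ q ∈ Q, χ (q : ZMod N) with hU
  set S : ℝ := ∑ χ ∈ X, ‖U χ‖ ^ 2 with hS
  have hQ : (0 : ℝ) < Q.card := by exact_mod_cast h0.card_pos
  have hS0 : 0 ≤ S := Finset.sum_nonneg fun _ _ => by positivity
  have h1 : (S : ℂ) = ∑ q ∈ Q, ∑ χ ∈ X, (starRingEnd ℂ) (U χ) * χ (q : ZMod N) := by
    rw [Finset.sum_comm, hS]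
    push_cast
    refine Finset.sum_congr rfl fun χ _ => ?_
    rw [← Finset.mul_sum, mul_comm, Complex.mul_conj, Complex.normSq_eq_norm_sq]
    push_cast
    rfl
  have h2 : S ≤ ∑ q ∈ Q, ‖∑ χ ∈ X, (starRingEnd ℂ) (U χ) * χ (q : ZMod N)‖ := by
    have h3 : ‖(S : ℂ)‖ = S := by
      rw [Complex.norm_real, Real.norm_of_nonneg hS0]
    rw [← h3, h1]
    exact norm_sum_le _ _
  have h4 := h (fun χ => (starRingEnd ℂ) (U χ))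
  have h5 : ∑ χ ∈ X, ‖(starRingEnd ℂ) (U χ)‖ ^ 2 = S := by
    rw [hS]
    refine Finset.sum_congr rfl fun χ _ => ?_
    rw [RCLike.norm_conj]
  rw [h5] at h4
  have h6 : S ^ 2 ≤ Q.card * ∑ q ∈ Q, ‖∑ χ ∈ X, (starRingEnd ℂ) (U χ) * χ (q : ZMod N)‖ ^ 2 := by
    refine (pow_le_pow_left₀ hS0 h2 2).trans ?_
    have h7 := Finset.sum_mul_sq_le_sq_mul_sq Q (fun _ => (1 : ℝ))
      (fun q => ‖∑ χ ∈ X, (starRingEnd ℂ) (U χ) * χ (q : ZMod N)‖)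
    simpa using h7
  have h8 : S * S ≤ T * (Q.card : ℝ) ^ 2 * S := by
    have h9 := h6.trans (mul_le_mul_of_nonneg_left h4 hQ.le)
    calc S * S = S ^ 2 := by ring
      _ ≤ _ := h9
      _ = _ := by ring
  have h10 : S ≤ T * (Q.card : ℝ) ^ 2 := by
    rcases eq_or_lt_of_le hS0 with h11 | h11
    · rw [← h11]
      positivity
    · exact le_of_mul_le_mul_right h8 h11
  have h12 : ∑ χ ∈ X, ‖rho Q χ‖ ^ 2 = S / (Q.card : ℝ) ^ 2 := by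
    rw [hS, Finset.sum_div]
    refine Finset.sum_congr rfl fun χ _ => ?_
    unfold rho
    rw [norm_div, c7_norm, div_pow, Complex.norm_natCast]
  rw [h12, div_le_iff₀ (by positivity)]
  exact h10

end Pool.Agent.Lib.PQ
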