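import Pool.Agent.Lib.MP_7b7e48_nt.PQ.A2

/-!
# D1m (30 minutes): most `n ∈ R0` have `lam n * c n = b`

PROOF. `c n = Re χ n`, `χ` real (`χ ^ 2 = 1`), so `χ n = c n = ±1` for `n ∈ R0` (coprime to `N`; `RG.BAS.chi_pm` is similar, or
`(RG.RC_char ..).val`). `y = lv R0 w0 χ = ∑ w0 n * lam n * c n` is real, `|y| ≤ 1`, `y² ≥ 1 - 8h²`, so `|y| ≥ 1 - 8h²`. Let `b` be
the sign of `y`. The mass of the `n` with `lam n * c n = -b` is `(1 - |y|)/2 ≤ 4h²` (every `lam n * c n` is `b` or `-b`, total mass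
`1`). Multiply by `ms R0 > 0`: `w0 n = 1/(n ms)` (`Wt` implies `ms ≠ 0`).
-/

set_option autoImplicit false

open Finset
open Pool.Agent.Lib.GT (Rough pr V)
open Pool.Agent.Lib.MP_45349e_nt.LS (lam)
open Pool.Agent.Lib.RG (RC LV rr SS PB sig)

namespace Pool.Agent.Lib.PQ

private lemma D1m_pm (n : ℕ) : lam n = 1 ∨ lam n = -1 := by
  unfold Pool.Agent.Lib.MP_45349e_nt.LS.lam
  exact neg_one_pow_eq_or ℝ _

private lemma D1m_chi {N : ℕ} [NeZero N] (χ : DirichletCharacter ℂ N) (hχ : χ ^ 2 = 1) {n : ℕ}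
    (hn : n.Coprime N) : (χ (n : ZMod N) = 1 ∨ χ (n : ZMod N) = -1) := by
  have hu : IsUnit (n : ZMod N) := (ZMod.isUnit_iff_coprime n N).2 hn
  have h1 : χ (n : ZMod N) ^ 2 = 1 := by
    have h2 : (χ ^ 2) (n : ZMod N) = 1 := by
      rw [hχ]
      exact MulChar.one_apply hu
    rw [MulChar.pow_apply' χ two_ne_zero] at h2
    exact h2
  exact sq_eq_one_iff.1 h1

/-- The value at `n` is real and is `1` or `-1`. -/
private lemma D1m_re {N : ℕ} [NeZero N] (χ : DirichletCharacter ℂ N) (hχ : χ ^ 2 = 1) {n : ℕ}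
    (hn : n.Coprime N) : χ (n : ZMod N) = (((χ (n : ZMod N)).re : ℝ) : ℂ) ∧
      ((χ (n : ZMod N)).re = 1 ∨ (χ (n : ZMod N)).re = -1) := by
  rcases D1m_chi χ hχ hn with h | h
  · rw [h]
    refine ⟨by simp, Or.inl (by simp)⟩
  · rw [h]
    refine ⟨by simp, Or.inr (by simp)⟩

theorem D1m {k N : ℕ} [NeZero N] {c : ℝ} (h2 : 2 ≤ N) (hw : Wt N (R0 k c N) (w0 k c N))
    (χ : DirichletCharacter ℂ N) (h1 : χ ≠ 1) (hχ : χ ^ 2 = 1) (h : ℝ)
    (him : (lv (R0 k c N) (w0 k c N) χ).im = 0) (hl : 1 - 8 * h ^ 2 ≤ ‖lv (R0 k c N) (w0 k c N) χ‖ ^ 2) :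
    ∃ b : ℝ, (b = 1 ∨ b = -1) ∧
      Bd N (pw N c) (fun n => (χ (n : ZMod N)).re) b (A0 k N) (B0 k N) ≤
        4 * h ^ 2 * ms (R0 k c N) := by
  classical
  obtain ⟨R, hR⟩ : ∃ R : Finset ℕ, R = R0 k c N := ⟨_, rfl⟩
  obtain ⟨w, hwe⟩ : ∃ w : ℕ → ℝ, w = w0 k c N := ⟨_, rfl⟩
  have hwn : ∀ n, w n = 1 / (n * ms R) := by
    intro n
    rw [hwe, hR]
    rfl
  rw [← hR, ← hwe] at hw him hl
  rw [← hR]
  obtain ⟨g, hg⟩ : ∃ g : ℕ → ℝ, g = fun n : ℕ => lam n * (χ (n : ZMod N)).re := ⟨_, rfl⟩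
  have hgpm : ∀ n ∈ R, g n = 1 ∨ g n = -1 := by
    intro n hn
    rw [hg]
    rcases D1m_pm n with h3 | h3 <;> rcases (D1m_re χ hχ (hw.cop n hn)).2 with h4 | h4 <;>
      simp [h3, h4]
  obtain ⟨y, hy⟩ : ∃ y : ℝ, y = ∑ n ∈ R, w n * g n := ⟨_, rfl⟩
  have hlv : lv R w χ = ((y : ℝ) : ℂ) := by
    rw [hy, hg]
    unfold lv
    push_cast
    refine Finset.sum_congr rfl fun n hn => ?_
    rw [(D1m_re χ hχ (hw.cop n hn)).1, Complex.ofReal_re]
  have hms : 0 < ms R := by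
    have h3 : 0 ≤ ms R := Finset.sum_nonneg fun n _ => by positivity
    rcases h3.eq_or_lt with h4 | h4
    · exfalso
      have h5 := hw.one
      have h6 : ∑ n ∈ R, w n = 0 := by
        refine Finset.sum_eq_zero fun n _ => ?_
        rw [hwn, ← h4, mul_zero, div_zero]
      rw [h6] at h5
      exact zero_ne_one h5
    · exact h4
  rw [hlv, Complex.norm_real, Real.norm_eq_abs, sq_abs] at hl
  have hy1 : |y| ≤ 1 := by
    rw [hy, ← hw.one]
    refine (Finset.abs_sum_le_sum_abs _ _).trans (Finset.sum_le_sum fun n hn => ?_)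
    rw [abs_mul, abs_of_nonneg (hw.nonneg n hn)]
    rcases hgpm n hn with h3 | h3 <;> rw [h3] <;> simp
  obtain ⟨b, hb, hby⟩ : ∃ b : ℝ, (b = 1 ∨ b = -1) ∧ 1 - 8 * h ^ 2 ≤ b * y := by
    rcases le_total 0 y with h3 | h3
    · refine ⟨1, Or.inl rfl, ?_⟩
      rw [abs_of_nonneg h3] at hy1
      nlinarith
    · refine ⟨-1, Or.inr rfl, ?_⟩
      rw [abs_of_nonpos h3] at hy1
      nlinarith
  refine ⟨b, hb, ?_⟩
  -- twice the weight of the bad numbers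
  have hsum : ∑ n ∈ R, w n * (1 - b * g n) ≤ 8 * h ^ 2 := by
    have h3 : ∑ n ∈ R, w n * (1 - b * g n) = ∑ n ∈ R, w n - b * y := by
      rw [hy, Finset.mul_sum, ← Finset.sum_sub_distrib]
      exact Finset.sum_congr rfl fun n _ => by ring
    rw [h3, hw.one]
    linarith
  have hbd : Bd N (pw N c) (fun n => (χ (n : ZMod N)).re) b (A0 k N) (B0 k N) =
      ∑ n ∈ R.filter (fun n => g n = -b), 1 / (n : ℝ) := by
    rw [hg, hR]
    rfl
  rw [hbd]
  have h5 : ∑ n ∈ R.filter (fun n => g n = -b), w n * 2 ≤ ∑ n ∈ R, w n * (1 - b * g n) := by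
    refine le_trans (le_of_eq ?_) (Finset.sum_le_sum_of_subset_of_nonneg
      (Finset.filter_subset (fun n => g n = -b) R) ?_)
    · refine Finset.sum_congr rfl fun n hn => ?_
      rw [Finset.mem_filter] at hn
      rw [hn.2]
      rcases hb with h6 | h6 <;> rw [h6] <;> ring
    · intro n hn _
      refine mul_nonneg (hw.nonneg n hn) ?_
      rcases hb with h6 | h6 <;> rcases hgpm n hn with h7 | h7 <;> rw [h6, h7] <;> norm_num
  have h6 : ∑ n ∈ R.filter (fun n => g n = -b), 1 / (n : ℝ) =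
      ms R * ∑ n ∈ R.filter (fun n => g n = -b), w n := by
    rw [Finset.mul_sum]
    refine Finset.sum_congr rfl fun n _ => ?_
    rw [hwn]
    rcases Nat.eq_zero_or_pos n with h7 | h7
    · rw [h7]
      simp
    · have h8 : (n : ℝ) ≠ 0 := by exact_mod_cast h7.ne'
      field_simp
  rw [h6]
  rw [← Finset.sum_mul] at h5
  have h7 : ∑ n ∈ R.filter (fun n => g n = -b), w n ≤ 4 * h ^ 2 := by linarith
  calc ms R * ∑ n ∈ R.filter (fun n => g n = -b), w n ≤ ms R * (4 * h ^ 2) :=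
        mul_le_mul_of_nonneg_left h7 hms.le
    _ = 4 * h ^ 2 * ms R := by ring

end Pool.Agent.Lib.PQ
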