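import Pool.Agent.Lib.MP_7b7e48_nt.PQ.Defs

/-!
# B3m (25 minutes): the mean square of the averages over a set of integers in `[1, B]`

PROOF. `∑_χ ‖∑_q χ⁻¹ (-q)‖² = ∑_{q,q'} ∑_χ χ⁻¹ (-q) * χ (-q') = φ(N) * #{(q, q') : q = q' mod N}`
(`DirichletCharacter.sum_char_inv_mul_char_eq`), and for fixed `q` the number of `q' ∈ [1, B]` in its class is
`≤ B / N + 1`.
-/

set_option autoImplicit false

open Finset
open Pool.Agent.Lib.GT (Rough pr V)
open Pool.Agent.Lib.MP_45349e_nt.LS (lam)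
open Pool.Agent.Lib.RG (RC LV rr SS PB sig)

namespace Pool.Agent.Lib.PQ

private theorem b3_inv_unit {N : ℕ} (χ : DirichletCharacter ℂ N) {a : ZMod N} (ha : IsUnit a) : χ⁻¹ a = χ a⁻¹ := by
  rw [MulChar.inv_apply_eq_inv']
  symm
  apply eq_inv_of_mul_eq_one_left
  rw [← map_mul, ZMod.inv_mul_of_unit a ha, map_one]

private theorem b3_unit {N q : ℕ} (h : q.Coprime N) : IsUnit (-(q : ZMod N)) :=
  ((ZMod.isUnit_iff_coprime q N).mpr h).neg

private theorem b3_star {N : ℕ} (χ : DirichletCharacter ℂ N) (a : ZMod N) :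
    (starRingEnd ℂ) (χ⁻¹ a) = χ a := by
  have h := MulChar.star_apply' χ⁻¹ a
  rw [inv_inv] at h
  exact h

private theorem b3_count {N : ℕ} [NeZero N] (Q : Finset ℕ) (B q : ℕ) (hQ : ∀ q ∈ Q, q ≤ B) :
    ((Q.filter (fun q' : ℕ => (-(q : ZMod N)) = -(q' : ZMod N))).card : ℝ) ≤ (B : ℝ) / N + 1 := by
  have hN : 0 < N := Nat.pos_of_ne_zero (NeZero.ne N)
  have h1 : (Q.filter (fun q' : ℕ => (-(q : ZMod N)) = -(q' : ZMod N))).card ≤ (range (B / N + 1)).card := by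
    apply card_le_card_of_injOn (fun q' => q' / N)
    · intro q' hq'
      have hq' := mem_filter.mp (mem_coe.mp hq')
      simp only [coe_range, Set.mem_Iio]
      have := Nat.div_le_div_right (c := N) (hQ q' hq'.1)
      omega
    · intro a ha b hb hab
      have ha := (mem_filter.mp (mem_coe.mp ha)).2
      have hb := (mem_filter.mp (mem_coe.mp hb)).2
      have h2 : (a : ZMod N) = (b : ZMod N) := by
        have := ha.symm.trans hb
        exact neg_injective this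
      rw [ZMod.natCast_eq_natCast_iff'] at h2
      simp only at hab
      rw [← Nat.div_add_mod a N, ← Nat.div_add_mod b N, hab, h2]
  rw [card_range] at h1
  have h2 : ((B / N : ℕ) : ℝ) ≤ (B : ℝ) / N := Nat.cast_div_le
  have h3 : ((Q.filter (fun q' : ℕ => (-(q : ZMod N)) = -(q' : ZMod N))).card : ℝ) ≤ ((B / N + 1 : ℕ) : ℝ) := by
    exact_mod_cast h1
  push_cast at h3
  linarith

theorem B3m (N : ℕ) [NeZero N] (Q : Finset ℕ) (B : ℕ) (hQ : ∀ q ∈ Q, q.Coprime N ∧ 1 ≤ q ∧ q ≤ B)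
    (h0 : Q.Nonempty) :
    ∑ χ : DirichletCharacter ℂ N, ‖rho Q χ‖ ^ 2 ≤ N.totient * ((B : ℝ) / N + 1) / Q.card := by
  classical
  have hc : (0 : ℝ) < Q.card := by exact_mod_cast card_pos.mpr h0
  have e1 : ∑ χ : DirichletCharacter ℂ N, ‖∑ q ∈ Q, χ⁻¹ (-(q : ZMod N))‖ ^ 2 =
      ∑ q ∈ Q, ∑ q' ∈ Q, if (-(q : ZMod N)) = -(q' : ZMod N) then (N.totient : ℝ) else 0 := by
    have e2 : ((∑ χ : DirichletCharacter ℂ N, ‖∑ q ∈ Q, χ⁻¹ (-(q : ZMod N))‖ ^ 2 : ℝ) : ℂ) =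
        ((∑ q ∈ Q, ∑ q' ∈ Q, if (-(q : ZMod N)) = -(q' : ZMod N) then (N.totient : ℝ) else 0 : ℝ) : ℂ) := by
      push_cast
      have e3 : ∀ χ : DirichletCharacter ℂ N, ((‖∑ q ∈ Q, χ⁻¹ (-(q : ZMod N))‖ : ℝ) : ℂ) ^ 2 =
          ∑ q ∈ Q, ∑ q' ∈ Q, χ (-(q : ZMod N))⁻¹ * χ (-(q' : ZMod N)) := by
        intro χ
        rw [← Complex.mul_conj', map_sum, sum_mul_sum]
        refine sum_congr rfl fun q hq => sum_congr rfl fun q' _ => ?_
        rw [b3_inv_unit χ (b3_unit (hQ q hq).1), b3_star]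
      rw [sum_congr rfl fun χ _ => e3 χ, sum_comm]
      refine sum_congr rfl fun q hq => ?_
      rw [sum_comm]
      refine sum_congr rfl fun q' _ => ?_
      rw [DirichletCharacter.sum_char_inv_mul_char_eq ℂ (b3_unit (hQ q hq).1)]
      split_ifs <;> simp
    exact_mod_cast e2
  have e4 : ∀ q ∈ Q, (∑ q' ∈ Q, if (-(q : ZMod N)) = -(q' : ZMod N) then (N.totient : ℝ) else 0) ≤
      N.totient * ((B : ℝ) / N + 1) := by
    intro q _
    rw [← sum_filter, sum_const, nsmul_eq_mul, mul_comm]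
    exact mul_le_mul_of_nonneg_left (b3_count Q B q fun q' hq' => (hQ q' hq').2.2) (Nat.cast_nonneg _)
  have e5 : ∑ χ : DirichletCharacter ℂ N, ‖∑ q ∈ Q, χ⁻¹ (-(q : ZMod N))‖ ^ 2 ≤
      Q.card * (N.totient * ((B : ℝ) / N + 1)) := by
    rw [e1]
    refine (sum_le_sum e4).trans ?_
    rw [sum_const, nsmul_eq_mul]
  have e6 : ∀ χ : DirichletCharacter ℂ N, ‖rho Q χ‖ ^ 2 = ‖∑ q ∈ Q, χ⁻¹ (-(q : ZMod N))‖ ^ 2 / (Q.card : ℝ) ^ 2 := by
    intro χ
    unfold rho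
    rw [norm_div, Complex.norm_natCast, div_pow]
  rw [sum_congr rfl fun χ _ => e6 χ, ← sum_div, div_le_div_iff₀ (by positivity) hc]
  nlinarith [mul_le_mul_of_nonneg_right e5 hc.le]

end Pool.Agent.Lib.PQ
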