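import Pool.Agent.Lib.MP_7b7e48_nt.PQ.Defs

/-!
# T0m: conditions on the data (definition only)
-/

set_option autoImplicit false

open Finset
open Pool.Agent.Lib.GT (Rough pr V)
open Pool.Agent.Lib.MP_45349e_nt.LS (lam)
open Pool.Agent.Lib.RG (RC LV rr SS PB sig)

namespace Pool.Agent.Lib.PQ

/-- the conditions on a set `Q` of primes, multipliers `m j`, `j ∈ J`, and a set `X` of characters -/
structure QJ (k N : ℕ) {ι : Type} (Q : Finset ℕ) (J : Finset ι) (m : ι → ℕ)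
    (X : Finset (DirichletCharacter ℂ N)) : Prop where
  qp : ∀ q ∈ Q, q.Prime ∧ N < q ∧ q ≤ B1 k N
  qc : (B1 k N : ℝ) * (N : ℝ) ^ (-(tau k / 2)) ≤ Q.card
  j0 : J.Nonempty
  jc : ∀ j ∈ J, (m j).Coprime N
  xj : ∀ χ : DirichletCharacter ℂ N, χ ∉ X → ‖av J m χ‖ ≤ 4 * (N : ℝ) ^ (-tau k)

/-- the conditions on the multipliers for the sieve hypothesis -/
structure MJ (k : ℕ) (c : ℝ) (N : ℕ) {ι : Type} (J : Finset ι) (m : ι → ℕ) (s : ℝ) : Prop where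
  pos : ∀ j ∈ J, 1 ≤ m j
  rough : ∀ j ∈ J, Rough (pw N c) (m j)
  lam : ∀ j ∈ J, lam (m j) = s
  size : ∀ j ∈ J, m j * B0 k N ^ 2 ≤ B1 k N

end Pool.Agent.Lib.PQ
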