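import Pool.Agent.Lib.MP_7b7e48_nt.PQ.A1

/-!
# A2 (15 minutes): the averages of the nonprincipal characters

PROOF. `A1` for `X = insert 1 Y`, `f = 1`: the right side is `1 + e` (`hw.one`), the term of the principal
character is `1` (`hw.cop`, `hw.one`), the other terms are `‖sv R w ψ‖²`. `sv_one` is the same computation,
`sv_le`, `lv_le` the trivial bounds (`‖χ n‖ ≤ 1`, `|lam n| = 1`). `lv_inv`: `lam` and `w` are real and
`χ⁻¹ n = conj (χ n)`.
-/

set_option autoImplicit false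

open Finset
open Pool.Agent.Lib.GT (Rough pr V)
open Pool.Agent.Lib.MP_45349e_nt.LS (lam)
open Pool.Agent.Lib.RG (RC LV rr SS PB sig)

namespace Pool.Agent.Lib.PQ

private theorem A2_lam (n : ℕ) : ‖(lam n : ℂ)‖ = 1 := by
  unfold lam
  rw [Complex.ofReal_pow, norm_pow]
  simp

private theorem A2_nw {N : ℕ} {R : Finset ℕ} {w : ℕ → ℝ} (hw : Wt N R w) {n : ℕ} (hn : n ∈ R) :
    ‖(w n : ℂ)‖ = w n := by
  rw [Complex.norm_real, Real.norm_eq_abs, abs_of_nonneg (hw.nonneg n hn)]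

theorem sv_one {N : ℕ} {R : Finset ℕ} {w : ℕ → ℝ} (hw : Wt N R w) :
    sv R w (1 : DirichletCharacter ℂ N) = 1 := by
  unfold sv
  have h1 : ∀ n ∈ R, (w n : ℂ) * (1 : DirichletCharacter ℂ N) (n : ZMod N) = (w n : ℂ) := by
    intro n hn
    have hu : IsUnit (n : ZMod N) := (ZMod.isUnit_iff_coprime n N).2 (hw.cop n hn)
    rw [MulChar.one_apply hu, mul_one]
  rw [sum_congr rfl h1, ← Complex.ofReal_sum, hw.one, Complex.ofReal_one]

theorem sv_le {N : ℕ} [NeZero N] {R : Finset ℕ} {w : ℕ → ℝ} (hw : Wt N R w) (χ : DirichletCharacter ℂ N) :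
    ‖sv R w χ‖ ≤ 1 := by
  unfold sv
  refine (norm_sum_le _ _).trans ?_
  rw [← hw.one]
  refine sum_le_sum fun n hn => ?_
  rw [norm_mul, A2_nw hw hn]
  exact mul_le_of_le_one_right (hw.nonneg n hn) (DirichletCharacter.norm_le_one χ _)

theorem lv_le {N : ℕ} [NeZero N] {R : Finset ℕ} {w : ℕ → ℝ} (hw : Wt N R w) (χ : DirichletCharacter ℂ N) :
    ‖lv R w χ‖ ≤ 1 := by
  unfold lv
  refine (norm_sum_le _ _).trans ?_
  rw [← hw.one]
  refine sum_le_sum fun n hn => ?_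
  rw [norm_mul, A2_nw hw hn, norm_mul, A2_lam, one_mul]
  exact mul_le_of_le_one_right (hw.nonneg n hn) (DirichletCharacter.norm_le_one χ _)

theorem lv_inv {N : ℕ} [NeZero N] (R : Finset ℕ) (w : ℕ → ℝ) (χ : DirichletCharacter ℂ N) :
    lv R w χ⁻¹ = (starRingEnd ℂ) (lv R w χ) := by
  unfold lv
  rw [map_sum]
  refine sum_congr rfl fun n _ => ?_
  rw [map_mul, map_mul, Complex.conj_ofReal, Complex.conj_ofReal, ← MulChar.star_eq_inv,
    MulChar.star_apply]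
  rfl

theorem A2 {N : ℕ} [NeZero N] {R : Finset ℕ} {w : ℕ → ℝ} {e : ℝ} {m : ℕ} (hw : Wt N R w) (he : 0 ≤ e)
    (hB : Bes N R w e m) (Y : Finset (DirichletCharacter ℂ N)) (h1 : (1 : DirichletCharacter ℂ N) ∉ Y)
    (hY : Y.card + 1 ≤ m) : ∑ ψ ∈ Y, ‖sv R w ψ‖ ^ 2 ≤ e := by
  classical
  have h := A1 hw he hB (insert 1 Y) (by rw [card_insert_of_notMem h1]; exact hY) (fun _ => 1)
  have h2 : ∀ χ : DirichletCharacter ℂ N,
      ∑ n ∈ R, (w n : ℂ) * ((fun _ : ℕ => (1 : ℂ)) n * χ (n : ZMod N)) = sv R w χ := by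
    intro χ
    unfold sv
    refine sum_congr rfl fun n _ => ?_
    rw [one_mul]
  simp only [h2] at h
  rw [sum_insert h1, sv_one hw] at h
  have h3 : ∑ n ∈ R, w n * ‖(1 : ℂ)‖ ^ 2 = 1 := by
    rw [← hw.one]
    refine sum_congr rfl fun n _ => ?_
    rw [norm_one, one_pow, mul_one]
  rw [h3, norm_one] at h
  linarith

end Pool.Agent.Lib.PQ
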