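import Pool.Agent.Lib.MP_7b7e48_nt.PQ.Defs
import Pool.Agent.Lib.SW.SWFinal

/-!
# E4p (35 minutes): primes in short dyadic pieces

PROOF. Prime number theorem `SW.pnt 1` (`LG/PC.lean` has `|θ(x) - x| ≤ x/100`, private, copy it): for `x = α 2^i`, `y = β 2^i` with
`(α, β) = (1, 7/5), (3/2, 2)`: `θ(y) - θ(x) ≥ 2^i/4`, so at least `2^i/(4 log (2^(i+1)))` primes; `log 2^(i+1) ≤ log N` because `2^(i+1) ≤ N`. At most `2 log N` of
them divide `N`, and `2 log N ≤ 2^i/(8 log N)` because `2^i ≥ N^c` and `N` is large.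
-/

set_option autoImplicit false

open Finset
open Pool.Agent.Lib.GT (Rough pr V)
open Pool.Agent.Lib.MP_45349e_nt.LS (lam)
open Pool.Agent.Lib.RG (RC LV rr SS PB sig)

namespace Pool.Agent.Lib.PQ

/-- the prime number theorem for `theta` -/
private theorem E4p_theta : ∃ X0 : ℝ, ∀ x : ℝ, X0 ≤ x → |Chebyshev.theta x - x| ≤ x / 100 := by
  obtain ⟨C, hC, h⟩ := SW.pnt 1
  have h1 : ∀ᶠ x : ℝ in Filter.atTop, 200 * C ≤ Real.log x :=
    Real.tendsto_log_atTop.eventually_ge_atTop (200 * C)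
  have h2 := (isLittleO_log_rpow_atTop (show (0 : ℝ) < 1 / 2 by norm_num)).bound
    (show (0 : ℝ) < 1 / 400 by norm_num)
  have h3 := Filter.eventually_ge_atTop (2 : ℝ)
  obtain ⟨X, hX⟩ := Filter.eventually_atTop.mp (h1.and (h2.and h3))
  refine ⟨X, fun x hx => ?_⟩
  obtain ⟨g1, g2, g3⟩ := hX x hx
  have hxpos : 0 < x := by linarith
  have hl : 0 < Real.log x := by nlinarith
  have e1 : |Chebyshev.psi x - x| ≤ C * x / (Real.log x) ^ 1 := by
    have := h x g3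
    have e : Chebyshev.psi x = ∑ n ∈ Finset.Icc 1 ⌊x⌋₊, ArithmeticFunction.vonMangoldt n := by
      unfold Chebyshev.psi
      rfl
    rw [e]
    exact this
  have e2 := Chebyshev.abs_psi_sub_theta_le_sqrt_mul_log (show (1 : ℝ) ≤ x by linarith)
  rw [Real.norm_eq_abs, Real.norm_eq_abs, abs_of_pos hl, abs_of_nonneg (by positivity),
    ← Real.sqrt_eq_rpow] at g2
  have e3 : C * x / (Real.log x) ^ 1 ≤ x / 200 := by
    rw [pow_one, div_le_div_iff₀ hl (by norm_num)]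
    nlinarith
  have e4 : 2 * x.sqrt * x.log ≤ x / 200 := by
    have := Real.mul_self_sqrt hxpos.le
    have hs : 0 < x.sqrt := Real.sqrt_pos.mpr hxpos
    nlinarith
  have e5 : Chebyshev.theta x - x =
      (Chebyshev.psi x - x) - (Chebyshev.psi x - Chebyshev.theta x) := by ring
  rw [e5]
  refine (abs_sub _ _).trans ?_
  linarith

private theorem E4p_diff (x y : ℝ) (hxy : x ≤ y) : Chebyshev.theta y - Chebyshev.theta x =
    ∑ p ∈ (Finset.Ioc ⌊x⌋₊ ⌊y⌋₊).filter Nat.Prime, Real.log p := by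
  unfold Chebyshev.theta
  have hf : ⌊x⌋₊ ≤ ⌊y⌋₊ := Nat.floor_le_floor hxy
  have h : Finset.Ioc 0 ⌊y⌋₊ = Finset.Ioc 0 ⌊x⌋₊ ∪ Finset.Ioc ⌊x⌋₊ ⌊y⌋₊ := by
    rw [Finset.Ioc_union_Ioc_eq_Ioc (by omega) hf]
  rw [h, Finset.filter_union, Finset.sum_union]
  · ring
  · apply Finset.disjoint_filter_filter
    rw [Finset.disjoint_left]
    intro a ha hb
    rw [Finset.mem_Ioc] at ha hb
    omega

private theorem E4p_div (N : ℕ) (hN : 1 ≤ N) : ∑ p ∈ N.primeFactors, Real.log p ≤ Real.log N := by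
  rw [← Real.log_prod (fun p hp => by
    have := (Nat.prime_of_mem_primeFactors hp).pos
    positivity)]
  apply Real.log_le_log
  · apply Finset.prod_pos
    intro p hp
    have := (Nat.prime_of_mem_primeFactors hp).pos
    exact_mod_cast this
  · have h := Nat.le_of_dvd (by omega) (Nat.prod_primeFactors_dvd N)
    have h' : ((∏ p ∈ N.primeFactors, p : ℕ) : ℝ) ≤ N := by exact_mod_cast h
    rw [Nat.cast_prod] at h'
    exact h'

private theorem E4p_key (x y Z : ℝ) (N : ℕ) (T : Finset ℕ) (hx : 0 ≤ x) (hxy : x ≤ y)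
    (hT : ∀ p : ℕ, p.Prime → x < p → (p : ℝ) ≤ y → ¬ p ∣ N → p ∈ T)
    (hTp : ∀ p ∈ T, p.Prime ∧ (p : ℝ) ≤ N)
    (h : Z / 4 ≤ Chebyshev.theta y - Chebyshev.theta x) (hN : 2 ≤ N)
    (hZ : 8 * Real.log N ≤ Z) : Z / (8 * Real.log N) ≤ (T.card : ℝ) := by
  classical
  have hNr : (2 : ℝ) ≤ N := by exact_mod_cast hN
  have hl : 0 < Real.log N := Real.log_pos (by linarith)
  rw [E4p_diff x y hxy] at h
  have h1 : (Finset.Ioc ⌊x⌋₊ ⌊y⌋₊).filter Nat.Prime ⊆ T ∪ N.primeFactors := by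
    intro p hp
    rw [Finset.mem_filter, Finset.mem_Ioc] at hp
    obtain ⟨⟨p1, p2⟩, p3⟩ := hp
    rw [Finset.mem_union]
    by_cases hd : p ∣ N
    · right
      rw [Nat.mem_primeFactors]
      exact ⟨p3, hd, by omega⟩
    · left
      exact hT p p3 ((Nat.floor_lt hx).mp p1)
        ((Nat.le_floor_iff (hx.trans hxy)).mp p2) hd
  have hnn : ∀ p : ℕ, 0 ≤ Real.log (p : ℝ) := fun p => Real.log_natCast_nonneg p
  have h2 : ∑ p ∈ (Finset.Ioc ⌊x⌋₊ ⌊y⌋₊).filter Nat.Prime, Real.log p ≤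
      ∑ p ∈ T, Real.log p + ∑ p ∈ N.primeFactors, Real.log p := by
    refine (Finset.sum_le_sum_of_subset_of_nonneg h1 (fun p _ _ => hnn p)).trans ?_
    have := Finset.sum_union_inter (s₁ := T) (s₂ := N.primeFactors) (f := fun p : ℕ => Real.log (p : ℝ))
    have h3 : 0 ≤ ∑ p ∈ T ∩ N.primeFactors, Real.log (p : ℝ) := Finset.sum_nonneg (fun p _ => hnn p)
    linarith
  have h3 : ∑ p ∈ T, Real.log p ≤ T.card * Real.log N := by
    rw [← nsmul_eq_mul]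
    apply Finset.sum_le_card_nsmul
    intro p hp
    obtain ⟨p1, p2⟩ := hTp p hp
    apply Real.log_le_log _ p2
    exact_mod_cast p1.pos
  have h4 := E4p_div N (by omega)
  rw [div_le_iff₀ (by positivity)]
  nlinarith

theorem E4p (c : ℝ) (hc : 0 < c) : ∃ N0 : ℕ, ∀ N : ℕ, N0 ≤ N → ∀ i : ℕ, pw N c ≤ 2 ^ i → 2 ^ (i + 1) ≤ N →
    (2 : ℝ) ^ i / (8 * Real.log N) ≤
      (((Finset.Ioc (2 ^ i) (2 ^ (i + 1))).filter fun p => p.Prime ∧ ¬ p ∣ N ∧ 5 * p ≤ 7 * 2 ^ i).card : ℝ) ∧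
    (2 : ℝ) ^ i / (8 * Real.log N) ≤
      (((Finset.Ioc (2 ^ i) (2 ^ (i + 1))).filter fun p => p.Prime ∧ ¬ p ∣ N ∧ 3 * 2 ^ i < 2 * p).card : ℝ) := by
  obtain ⟨X0, hX0⟩ := E4p_theta
  have h1 : ∀ᶠ x : ℝ in Filter.atTop, X0 + 1 ≤ x ^ c :=
    (tendsto_rpow_atTop hc).eventually_ge_atTop _
  have h1' : ∀ᶠ x : ℝ in Filter.atTop, 2 ≤ x ^ c :=
    (tendsto_rpow_atTop hc).eventually_ge_atTop _
  have h2 := (isLittleO_log_rpow_atTop hc).bound (show (0 : ℝ) < 1 / 16 by norm_num)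
  have h3 := Filter.eventually_ge_atTop (2 : ℝ)
  obtain ⟨X, hX⟩ := Filter.eventually_atTop.mp (h1.and (h1'.and (h2.and h3)))
  refine ⟨max 2 ⌈X⌉₊, fun N hN i hi1 hi2 => ?_⟩
  have hN2 : 2 ≤ N := (le_max_left _ _).trans hN
  have hNX : X ≤ N := (Nat.le_ceil X).trans (by exact_mod_cast (le_max_right _ _).trans hN)
  obtain ⟨g1, g1', g2, g3⟩ := hX N hNX
  have hl : 0 < Real.log N := Real.log_pos (by linarith)
  rw [Real.norm_eq_abs, Real.norm_eq_abs, abs_of_pos hl, abs_of_nonneg (by positivity)] at g2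
  have hZ1 : (N : ℝ) ^ c - 1 ≤ (2 : ℝ) ^ i := by
    have h5 := Nat.lt_floor_add_one ((N : ℝ) ^ c)
    have h6 : ((pw N c : ℕ) : ℝ) ≤ (2 : ℝ) ^ i := by exact_mod_cast hi1
    unfold pw at h6
    linarith
  have hZpos : (0 : ℝ) < (2 : ℝ) ^ i := by positivity
  have hZX : X0 ≤ (2 : ℝ) ^ i := by linarith
  have hZl : 8 * Real.log N ≤ (2 : ℝ) ^ i := by linarith
  have hi2' : (2 : ℝ) ^ i * 2 ≤ N := by
    have : ((2 ^ (i + 1) : ℕ) : ℝ) ≤ N := by exact_mod_cast hi2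
    push_cast at this
    rw [pow_succ] at this
    exact this
  constructor
  · apply E4p_key ((2 : ℝ) ^ i) (7 / 5 * (2 : ℝ) ^ i) ((2 : ℝ) ^ i) N _ hZpos.le (by linarith) _ _ _ hN2 hZl
    · intro p p1 p2 p3 p4
      rw [Finset.mem_filter, Finset.mem_Ioc]
      have q1 : 2 ^ i < p := by exact_mod_cast p2
      have q2 : 5 * p ≤ 7 * 2 ^ i := by
        have : (5 : ℝ) * p ≤ 7 * (2 : ℝ) ^ i := by linarith
        exact_mod_cast this
      refine ⟨⟨q1, ?_⟩, p1, p4, q2⟩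
      rw [pow_succ]
      omega
    · intro p hp
      rw [Finset.mem_filter, Finset.mem_Ioc] at hp
      exact ⟨hp.2.1, by exact_mod_cast hp.1.2.trans hi2⟩
    · have e1 := hX0 ((2 : ℝ) ^ i) hZX
      have e2 := hX0 (7 / 5 * (2 : ℝ) ^ i) (by linarith)
      rw [abs_le] at e1 e2
      linarith
  · apply E4p_key (3 / 2 * (2 : ℝ) ^ i) (2 * (2 : ℝ) ^ i) ((2 : ℝ) ^ i) N _ (by linarith) (by linarith) _ _ _ hN2 hZl
    · intro p p1 p2 p3 p4
      rw [Finset.mem_filter, Finset.mem_Ioc]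
      have q1 : 3 * 2 ^ i < 2 * p := by
        have : (3 : ℝ) * (2 : ℝ) ^ i < 2 * p := by linarith
        exact_mod_cast this
      have q2 : p ≤ 2 * 2 ^ i := by exact_mod_cast p3
      refine ⟨⟨by omega, ?_⟩, p1, p4, q1⟩
      rw [pow_succ]
      omega
    · intro p hp
      rw [Finset.mem_filter, Finset.mem_Ioc] at hp
      exact ⟨hp.2.1, by exact_mod_cast hp.1.2.trans hi2⟩
    · have e1 := hX0 (3 / 2 * (2 : ℝ) ^ i) (by linarith)
      have e2 := hX0 (2 * (2 : ℝ) ^ i) (by linarith)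
      rw [abs_le] at e1 e2
      linarith

end Pool.Agent.Lib.PQ
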