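import Pool.Agent.Lib.MP_7b7e48_nt.PQ.A2
import Pool.Agent.Lib.MP_45349e_nt.LS.LamB

/-!
# A3a (35 minutes): the L2 argument, first part

PROOF. Put `P n m = ∑_X c χ * χ n * χ m`, `g = √e`. For fixed `n ∈ R`
`∑_m w m * lam m * (lam n * lam m - t) * P n m = lam n * U n - t * D n` (use `lam m ^ 2 = 1`) with
`U n = ∑_X c χ * sv χ * χ n`, `D n = ∑_X c χ * lv χ * χ n`. By Cauchy-Schwarz over `m` (total mass `1`)
`‖lam n * U n - t * D n‖² ≤ ∑_m w m ‖(lam n * lam m - t) P n m‖²`, so by `hyp`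
`∑_n w n ‖lam n * U n - t * D n‖² ≤ e / 4`. Next `U n = 1 + U' n`, `U' n = ∑_{χ ∈ X, χ ≠ 1} c χ * sv χ * χ n`
(`hc1`, `sv_one`, `hw.cop`), and `∑_n w n ‖U' n‖² ≤ (1 + e) ∑_{χ ≠ 1} ‖c χ * sv χ‖² ≤ (1 + e) e` (`hB`, `A2` for
`X.erase 1`). Multiply by `t` (`t² = 1`): `D n - t * lam n = t * lam n * U' n - t * (lam n * U n - t * D n)`, hence by
`‖x + y‖² ≤ (1 + 1/4) ‖x‖² + 5 ‖y‖²` the sum is `≤ 5/4 * (1 + e) e + 5 * e / 4 ≤ 4 e`.
-/

set_option autoImplicit false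

open Finset
open Pool.Agent.Lib.GT (Rough pr V)
open Pool.Agent.Lib.MP_45349e_nt.LS (lam)
open Pool.Agent.Lib.RG (RC LV rr SS PB sig)

namespace Pool.Agent.Lib.PQ

private theorem a3a_wcs {N : ℕ} {R : Finset ℕ} {w : ℕ → ℝ} (hw : Wt N R w) (F : ℕ → ℂ) :
    ‖∑ n ∈ R, (w n : ℂ) * F n‖ ^ 2 ≤ ∑ n ∈ R, w n * ‖F n‖ ^ 2 := by
  have h1 : ‖∑ n ∈ R, (w n : ℂ) * F n‖ ≤ ∑ n ∈ R, w n * ‖F n‖ := by
    refine (norm_sum_le _ _).trans (le_of_eq ?_)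
    refine Finset.sum_congr rfl fun n hn => ?_
    rw [norm_mul, Complex.norm_real, Real.norm_of_nonneg (hw.nonneg n hn)]
  refine (pow_le_pow_left₀ (norm_nonneg _) h1 2).trans ?_
  have h2 := Finset.sum_sq_le_sum_mul_sum_of_sq_le_mul R (r := fun n => w n * ‖F n‖) (f := w)
    (g := fun n => w n * ‖F n‖ ^ 2) hw.nonneg (fun n hn => mul_nonneg (hw.nonneg n hn) (by positivity))
    (fun n hn => le_of_eq (by ring))
  rwa [hw.one, one_mul] at h2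

theorem A3a {N : ℕ} [NeZero N] {R : Finset ℕ} {w : ℕ → ℝ} {e : ℝ} {m : ℕ} (hw : Wt N R w) (he : 0 < e)
    (he1 : e ≤ 1 / 100) (hB : Bes N R w e m) (X : Finset (DirichletCharacter ℂ N))
    (h1 : (1 : DirichletCharacter ℂ N) ∈ X) (hX : X.card + 1 ≤ m) (c : DirichletCharacter ℂ N → ℂ)
    (hc1 : c 1 = 1) (hc : ∀ χ, ‖c χ‖ ≤ 1) (t : ℝ) (ht : t = 1 ∨ t = -1)
    (hyp : ∑ n ∈ R, ∑ n' ∈ R, w n * (w n' * ‖((lam n * lam n' - t : ℝ) : ℂ) *
      ∑ χ ∈ X, c χ * (χ (n : ZMod N) * χ (n' : ZMod N))‖ ^ 2) ≤ e / 4) :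
    ∑ n ∈ R, w n * ‖∑ χ ∈ X, c χ * lv R w χ * χ (n : ZMod N) - ((t * lam n : ℝ) : ℂ)‖ ^ 2 ≤ 4 * e := by
  classical
  set D : ℕ → ℂ := fun n => ∑ χ ∈ X, c χ * lv R w χ * χ (n : ZMod N) with hD
  set U : ℕ → ℂ := fun n => ∑ χ ∈ X, c χ * sv R w χ * χ (n : ZMod N) with hU
  set V : ℕ → ℂ := fun n => ∑ χ ∈ X.erase 1, c χ * sv R w χ * χ (n : ZMod N) with hV
  have hlam2 : ∀ n : ℕ, (lam n : ℂ) * (lam n : ℂ) = 1 := by
    intro n
    have h2 : lam n * lam n = 1 := by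
      have h3 := Pool.Agent.Lib.MP_45349e_nt.LS.abs_lam n
      have h4 : |lam n| * |lam n| = 1 := by rw [h3]; norm_num
      rwa [abs_mul_abs_self] at h4
    exact_mod_cast h2
  have ht2 : (t : ℂ) * (t : ℂ) = 1 := by
    rcases ht with h | h <;> rw [h] <;> norm_num
  have hnt : ‖(t : ℂ)‖ = 1 := by
    rcases ht with h | h <;> rw [h] <;> norm_num
  have hnl : ∀ n : ℕ, ‖(lam n : ℂ)‖ = 1 := by
    intro n
    rw [Complex.norm_real, Real.norm_eq_abs, Pool.Agent.Lib.MP_45349e_nt.LS.abs_lam n]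
  -- the first part
  have k1 : ∀ n : ℕ, ∑ n' ∈ R, (w n' : ℂ) * ((lam n' : ℂ) * (((lam n * lam n' - t : ℝ) : ℂ) *
      ∑ χ ∈ X, c χ * (χ (n : ZMod N) * χ (n' : ZMod N)))) = (lam n : ℂ) * U n - (t : ℂ) * D n := by
    intro n
    have e1 : (lam n : ℂ) * U n = ∑ n' ∈ R, ∑ χ ∈ X, (w n' : ℂ) * ((lam n : ℂ) * (c χ * (χ (n : ZMod N) * χ (n' : ZMod N)))) := by
      rw [Finset.sum_comm, hU, Finset.mul_sum]
      refine Finset.sum_congr rfl fun χ _ => ?_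
      unfold sv
      rw [Finset.mul_sum, Finset.sum_mul, Finset.mul_sum]
      refine Finset.sum_congr rfl fun n' _ => ?_
      ring
    have e2 : (t : ℂ) * D n = ∑ n' ∈ R, ∑ χ ∈ X, (w n' : ℂ) * ((t : ℂ) * ((lam n' : ℂ) * (c χ * (χ (n : ZMod N) * χ (n' : ZMod N))))) := by
      rw [Finset.sum_comm, hD, Finset.mul_sum]
      refine Finset.sum_congr rfl fun χ _ => ?_
      unfold lv
      rw [Finset.mul_sum, Finset.sum_mul, Finset.mul_sum]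
      refine Finset.sum_congr rfl fun n' _ => ?_
      ring
    rw [e1, e2, ← Finset.sum_sub_distrib]
    refine Finset.sum_congr rfl fun n' _ => ?_
    rw [← Finset.sum_sub_distrib, Finset.mul_sum, Finset.mul_sum, Finset.mul_sum]
    refine Finset.sum_congr rfl fun χ _ => ?_
    have h3 := hlam2 n'
    push_cast
    linear_combination ((w n' : ℂ) * (lam n : ℂ) * (c χ * (χ (n : ZMod N) * χ (n' : ZMod N)))) * h3
  have k2 : ∑ n ∈ R, w n * ‖(lam n : ℂ) * U n - (t : ℂ) * D n‖ ^ 2 ≤ e / 4 := by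
    refine le_trans ?_ hyp
    refine Finset.sum_le_sum fun n hn => ?_
    rw [← Finset.mul_sum]
    refine mul_le_mul_of_nonneg_left ?_ (hw.nonneg n hn)
    rw [← k1 n]
    refine (a3a_wcs hw _).trans (le_of_eq ?_)
    refine Finset.sum_congr rfl fun n' _ => ?_
    rw [norm_mul (lam n' : ℂ), hnl n', one_mul]
  -- the second part
  have k3 : ∀ n ∈ R, U n = 1 + V n := by
    intro n hn
    rw [hU, hV]
    simp only
    rw [← Finset.add_sum_erase X _ h1, hc1, sv_one hw]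
    have h2 : (1 : DirichletCharacter ℂ N) (n : ZMod N) = 1 :=
      MulChar.one_apply ((ZMod.isUnit_iff_coprime n N).2 (hw.cop n hn))
    rw [h2]
    ring
  have k4 : ∑ n ∈ R, w n * ‖V n‖ ^ 2 ≤ (1 + e) * e := by
    have hce : (X.erase 1).card + 1 = X.card := Finset.card_erase_add_one h1
    refine (hB (X.erase 1) (by omega) (fun χ => c χ * sv R w χ)).trans ?_
    refine mul_le_mul_of_nonneg_left ?_ (by linarith)
    refine le_trans ?_ (A2 hw he.le hB (X.erase 1) (Finset.notMem_erase _ _) (by omega))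
    refine Finset.sum_le_sum fun χ _ => ?_
    refine pow_le_pow_left₀ (norm_nonneg _) ?_ 2
    rw [norm_mul]
    exact mul_le_of_le_one_left (norm_nonneg _) (hc χ)
  have k5 : ∀ n ∈ R, ‖D n - ((t * lam n : ℝ) : ℂ)‖ ^ 2 ≤ 5 / 4 * ‖V n‖ ^ 2 + 5 * ‖(lam n : ℂ) * U n - (t : ℂ) * D n‖ ^ 2 := by
    intro n hn
    have h2 : D n - ((t * lam n : ℝ) : ℂ) = (t : ℂ) * ((lam n : ℂ) * V n) + (-(t : ℂ)) * ((lam n : ℂ) * U n - (t : ℂ) * D n) := by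
      rw [k3 n hn]
      push_cast
      linear_combination (-(D n)) * ht2
    have h3 : ‖D n - ((t * lam n : ℝ) : ℂ)‖ ≤ ‖V n‖ + ‖(lam n : ℂ) * U n - (t : ℂ) * D n‖ := by
      rw [h2]
      refine (norm_add_le _ _).trans (le_of_eq ?_)
      rw [norm_mul, norm_mul, norm_mul, norm_neg, hnt, hnl n, one_mul, one_mul, one_mul]
    have h4 := pow_le_pow_left₀ (norm_nonneg _) h3 2
    nlinarith [sq_nonneg (‖V n‖ / 2 - 2 * ‖(lam n : ℂ) * U n - (t : ℂ) * D n‖)]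
  calc ∑ n ∈ R, w n * ‖D n - ((t * lam n : ℝ) : ℂ)‖ ^ 2
      ≤ ∑ n ∈ R, w n * (5 / 4 * ‖V n‖ ^ 2 + 5 * ‖(lam n : ℂ) * U n - (t : ℂ) * D n‖ ^ 2) :=
        Finset.sum_le_sum fun n hn => mul_le_mul_of_nonneg_left (k5 n hn) (hw.nonneg n hn)
    _ = 5 / 4 * ∑ n ∈ R, w n * ‖V n‖ ^ 2 + 5 * ∑ n ∈ R, w n * ‖(lam n : ℂ) * U n - (t : ℂ) * D n‖ ^ 2 := by
        rw [Finset.mul_sum, Finset.mul_sum, ← Finset.sum_add_distrib]
        refine Finset.sum_congr rfl fun n _ => ?_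
        ring
    _ ≤ 5 / 4 * ((1 + e) * e) + 5 * (e / 4) := by linarith
    _ ≤ 4 * e := by nlinarith

end Pool.Agent.Lib.PQ
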