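import Pool.Agent.Lib.MP_7b7e48_nt.PQ.A2
import Pool.Agent.Lib.MP_45349e_nt.LS.LamB

/-!
# A3b (40 minutes): the L2 argument, second part

PROOF. Put `g = √e ≤ 1/10`, `D n = ∑_X c χ * lv χ * χ n`. `∑_X ‖c χ * lv χ‖² ≤ ∑_X ‖lv χ‖² ≤ 1 + e` (`A1` with
`f = lam`).
(2) By Minkowski (or: `1 = ‖t lam n‖² ≤ (1 + s) ‖D n‖² + (1 + 1/s) ‖D n - t lam n‖²`, `s > 0` optimal)
`∑ w n ‖D n‖² ≥ (1 - 2g)²`, and `∑ w n ‖D n‖² ≤ (1 + e) ∑_X ‖c χ * lv χ‖²` (`hB`); finally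
`(1 - 2g)² ≥ (1 + g²) (1 - 4g)` for `0 ≤ g ≤ 1/10`.
(1) Fix `χ ∈ X`. `∑_n w n * (D n - t lam n) * conj (χ n)` has norm `≤ 2g` (Cauchy-Schwarz, `‖χ n‖ = 1`). It is
`c χ * lv χ + ∑_{ψ ∈ X, ψ ≠ χ} c ψ * lv ψ * sv (ψ * χ⁻¹) - t * conj (lv χ)`. By Cauchy-Schwarz the middle sum has norm
`≤ √(1 + e) * √(∑_{ψ ≠ χ} ‖sv (ψ * χ⁻¹)‖²) ≤ √(1 + e) * g`: `A2` for `Y` = image of `X.erase χ` under
`ψ ↦ ψ * χ⁻¹` (injective; `1 ∉ Y`). Total `≤ 2g + 1.01 g ≤ 4g`.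
-/

set_option autoImplicit false

open Finset
open Pool.Agent.Lib.GT (Rough pr V)
open Pool.Agent.Lib.MP_45349e_nt.LS (lam)
open Pool.Agent.Lib.RG (RC LV rr SS PB sig)

namespace Pool.Agent.Lib.PQ

private theorem a3b_wcs {N : ℕ} {R : Finset ℕ} {w : ℕ → ℝ} (hw : Wt N R w) (F : ℕ → ℂ) :
    ‖∑ n ∈ R, (w n : ℂ) * F n‖ ^ 2 ≤ ∑ n ∈ R, w n * ‖F n‖ ^ 2 := by
  have h1 : ‖∑ n ∈ R, (w n : ℂ) * F n‖ ≤ ∑ n ∈ R, w n * ‖F n‖ := by
    refine (norm_sum_le _ _).trans (le_of_eq ?_)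
    refine Finset.sum_congr rfl fun n hn => ?_
    rw [norm_mul, Complex.norm_real, Real.norm_of_nonneg (hw.nonneg n hn)]
  refine (pow_le_pow_left₀ (norm_nonneg _) h1 2).trans ?_
  have h2 := Finset.sum_sq_le_sum_mul_sum_of_sq_le_mul R (r := fun n => w n * ‖F n‖) (f := w)
    (g := fun n => w n * ‖F n‖ ^ 2) hw.nonneg (fun n hn => mul_nonneg (hw.nonneg n hn) (by positivity))
    (fun n hn => le_of_eq (by ring))
  rwa [hw.one, one_mul] at h2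

theorem A3b {N : ℕ} [NeZero N] {R : Finset ℕ} {w : ℕ → ℝ} {e : ℝ} {m : ℕ} (hw : Wt N R w) (he : 0 < e)
    (he1 : e ≤ 1 / 100) (hB : Bes N R w e m) (X : Finset (DirichletCharacter ℂ N))
    (hX : X.card + 1 ≤ m) (c : DirichletCharacter ℂ N → ℂ)
    (hc : ∀ χ, ‖c χ‖ ≤ 1) (t : ℝ) (ht : t = 1 ∨ t = -1)
    (hyp : ∑ n ∈ R, w n * ‖∑ χ ∈ X, c χ * lv R w χ * χ (n : ZMod N) - ((t * lam n : ℝ) : ℂ)‖ ^ 2 ≤
      4 * e) :
    (∀ χ ∈ X, ‖c χ * lv R w χ - t * (starRingEnd ℂ) (lv R w χ)‖ ≤ 4 * Real.sqrt e) ∧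
      1 - 4 * Real.sqrt e ≤ ∑ χ ∈ X, ‖c χ * lv R w χ‖ ^ 2 := by
  classical
  set D : ℕ → ℂ := fun n => ∑ χ ∈ X, c χ * lv R w χ * χ (n : ZMod N) with hD
  set g : ℝ := Real.sqrt e with hg
  have hg0 : 0 < g := Real.sqrt_pos.2 he
  have hg2 : g ^ 2 = e := Real.sq_sqrt he.le
  have hg1 : g ≤ 1 / 10 := by
    rw [hg, Real.sqrt_le_left (by norm_num)]
    linarith
  have hnt : ‖(t : ℂ)‖ = 1 := by
    rcases ht with h | h <;> rw [h] <;> norm_num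
  have hnl : ∀ n : ℕ, ‖(lam n : ℂ)‖ = 1 := by
    intro n
    rw [Complex.norm_real, Real.norm_eq_abs, Pool.Agent.Lib.MP_45349e_nt.LS.abs_lam n]
  have hlv : ∑ χ ∈ X, ‖c χ * lv R w χ‖ ^ 2 ≤ 1 + e := by
    have h1 := A1 hw he.le hB X (by omega) (fun n => (lam n : ℂ))
    have h2 : ∑ n ∈ R, w n * ‖(lam n : ℂ)‖ ^ 2 = 1 := by
      rw [← hw.one]
      refine Finset.sum_congr rfl fun n _ => ?_
      rw [hnl n]
      ring
    rw [h2, mul_one] at h1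
    refine le_trans ?_ h1
    refine Finset.sum_le_sum fun χ _ => ?_
    refine pow_le_pow_left₀ (norm_nonneg _) ?_ 2
    rw [norm_mul]
    exact mul_le_of_le_one_left (norm_nonneg _) (hc χ)
  refine ⟨?_, ?_⟩
  · intro χ hχ
    have e1 : ∑ n ∈ R, (w n : ℂ) * ((D n - ((t * lam n : ℝ) : ℂ)) * χ⁻¹ (n : ZMod N)) =
        (c χ * lv R w χ + ∑ ψ ∈ X.erase χ, c ψ * lv R w ψ * sv R w (ψ * χ⁻¹)) - t * (starRingEnd ℂ) (lv R w χ) := by
      have e2 : c χ * lv R w χ + ∑ ψ ∈ X.erase χ, c ψ * lv R w ψ * sv R w (ψ * χ⁻¹) =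
          ∑ ψ ∈ X, c ψ * lv R w ψ * sv R w (ψ * χ⁻¹) := by
        rw [← Finset.add_sum_erase X _ hχ, mul_inv_cancel, sv_one hw, mul_one]
      have e3 : ∑ ψ ∈ X, c ψ * lv R w ψ * sv R w (ψ * χ⁻¹) = ∑ n ∈ R, (w n : ℂ) * (D n * χ⁻¹ (n : ZMod N)) := by
        have e4 : ∀ n ∈ R, (w n : ℂ) * (D n * χ⁻¹ (n : ZMod N)) =
            ∑ ψ ∈ X, c ψ * lv R w ψ * ((w n : ℂ) * (ψ * χ⁻¹) (n : ZMod N)) := by
          intro n _
          rw [hD]
          simp only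
          rw [Finset.sum_mul, Finset.mul_sum]
          refine Finset.sum_congr rfl fun ψ _ => ?_
          rw [MulChar.mul_apply]
          ring
        rw [Finset.sum_congr rfl e4, Finset.sum_comm]
        refine Finset.sum_congr rfl fun ψ _ => ?_
        unfold sv
        rw [Finset.mul_sum]
      rw [e2, e3, ← lv_inv]
      unfold lv
      rw [Finset.mul_sum, ← Finset.sum_sub_distrib]
      refine Finset.sum_congr rfl fun n _ => ?_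
      push_cast
      ring
    have e5 : ‖∑ n ∈ R, (w n : ℂ) * ((D n - ((t * lam n : ℝ) : ℂ)) * χ⁻¹ (n : ZMod N))‖ ≤ 2 * g := by
      have e6 : ‖∑ n ∈ R, (w n : ℂ) * ((D n - ((t * lam n : ℝ) : ℂ)) * χ⁻¹ (n : ZMod N))‖ ^ 2 ≤ (2 * g) ^ 2 := by
        refine (a3b_wcs hw _).trans ?_
        have e7 : (2 * g) ^ 2 = 4 * e := by rw [mul_pow, hg2]; norm_num
        rw [e7]
        refine le_trans ?_ hyp
        refine Finset.sum_le_sum fun n hn => mul_le_mul_of_nonneg_left ?_ (hw.nonneg n hn)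
        refine pow_le_pow_left₀ (norm_nonneg _) ?_ 2
        rw [norm_mul]
        exact mul_le_of_le_one_right (norm_nonneg _) (χ⁻¹.norm_le_one _)
      exact le_of_sq_le_sq e6 (by positivity)
    have e8 : ‖∑ ψ ∈ X.erase χ, c ψ * lv R w ψ * sv R w (ψ * χ⁻¹)‖ ≤ 2 * g := by
      have f1 : ‖∑ ψ ∈ X.erase χ, c ψ * lv R w ψ * sv R w (ψ * χ⁻¹)‖ ≤
          ∑ ψ ∈ X.erase χ, ‖c ψ * lv R w ψ‖ * ‖sv R w (ψ * χ⁻¹)‖ := by
        refine (norm_sum_le _ _).trans (le_of_eq ?_)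
        refine Finset.sum_congr rfl fun ψ _ => ?_
        rw [norm_mul]
      have f2 := Finset.sum_mul_sq_le_sq_mul_sq (X.erase χ) (fun ψ => ‖c ψ * lv R w ψ‖) (fun ψ => ‖sv R w (ψ * χ⁻¹)‖)
      have f3 : ∑ ψ ∈ X.erase χ, ‖c ψ * lv R w ψ‖ ^ 2 ≤ 1 + e := by
        refine le_trans ?_ hlv
        exact Finset.sum_le_sum_of_subset_of_nonneg (Finset.erase_subset _ _) (fun _ _ _ => by positivity)
      have f4 : ∑ ψ ∈ X.erase χ, ‖sv R w (ψ * χ⁻¹)‖ ^ 2 ≤ e := by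
        have g1 : ∑ ψ ∈ X.erase χ, ‖sv R w (ψ * χ⁻¹)‖ ^ 2 =
            ∑ φ ∈ (X.erase χ).image (fun ψ => ψ * χ⁻¹), ‖sv R w φ‖ ^ 2 := by
          rw [Finset.sum_image]
          intro a _ b _ hab
          exact mul_right_cancel hab
        rw [g1]
        have g2 : (X.erase χ).card + 1 = X.card := Finset.card_erase_add_one hχ
        have g3 : ((X.erase χ).image (fun ψ => ψ * χ⁻¹)).card ≤ (X.erase χ).card := Finset.card_image_le
        refine A2 hw he.le hB _ ?_ (by omega)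
        intro h2
        obtain ⟨ψ, h3, h4⟩ := Finset.mem_image.1 h2
        exact (Finset.mem_erase.1 h3).1 (mul_inv_eq_one.1 h4)
      have f5 : (∑ ψ ∈ X.erase χ, ‖c ψ * lv R w ψ‖ * ‖sv R w (ψ * χ⁻¹)‖) ^ 2 ≤ (2 * g) ^ 2 := by
        refine f2.trans ?_
        refine (mul_le_mul f3 f4 (Finset.sum_nonneg fun _ _ => by positivity) (by linarith)).trans ?_
        rw [mul_pow, hg2]
        nlinarith
      exact f1.trans (le_of_sq_le_sq f5 (by positivity))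
    have e9 : c χ * lv R w χ - t * (starRingEnd ℂ) (lv R w χ) =
        ∑ n ∈ R, (w n : ℂ) * ((D n - ((t * lam n : ℝ) : ℂ)) * χ⁻¹ (n : ZMod N)) -
        ∑ ψ ∈ X.erase χ, c ψ * lv R w ψ * sv R w (ψ * χ⁻¹) := by
      rw [e1]
      ring
    rw [e9]
    refine (norm_sub_le _ _).trans ?_
    linarith
  · have h1 := hB X (by omega) (fun χ => c χ * lv R w χ)
    set Q : ℝ := ∑ n ∈ R, w n * ‖D n‖ ^ 2 with hQ
    set S : ℝ := ∑ χ ∈ X, ‖c χ * lv R w χ‖ ^ 2 with hS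
    have h2 : Q ≤ (1 + e) * S := h1
    set p : ℝ := 2 * g with hp
    have hp0 : 0 < p := by positivity
    have hp1 : p < 1 := by linarith
    have h3 : ∀ n ∈ R, p * (1 - p) ≤ p * ‖D n‖ ^ 2 + (1 - p) * ‖D n - ((t * lam n : ℝ) : ℂ)‖ ^ 2 := by
      intro n _
      set a := ‖D n‖
      set b := ‖D n - ((t * lam n : ℝ) : ℂ)‖
      have h4 : 1 ≤ a + b := by
        have h5 : ‖((t * lam n : ℝ) : ℂ)‖ = 1 := by
          push_cast
          rw [norm_mul, hnt, hnl n, one_mul]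
        have h6 : ‖((t * lam n : ℝ) : ℂ)‖ ≤ a + b := by
          have h7 := norm_sub_le (D n) (D n - ((t * lam n : ℝ) : ℂ))
          rwa [sub_sub_cancel] at h7
        linarith
      have h8 : 1 ≤ (a + b) ^ 2 := by nlinarith
      have h9 : 0 < p * (1 - p) := mul_pos hp0 (by linarith)
      nlinarith [sq_nonneg (p * a - (1 - p) * b), mul_le_mul_of_nonneg_left h8 h9.le]
    have h4 : p * (1 - p) ≤ p * Q + (1 - p) * (4 * e) := by
      have h5 : ∑ n ∈ R, w n * (p * (1 - p)) ≤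
          ∑ n ∈ R, w n * (p * ‖D n‖ ^ 2 + (1 - p) * ‖D n - ((t * lam n : ℝ) : ℂ)‖ ^ 2) :=
        Finset.sum_le_sum fun n hn => mul_le_mul_of_nonneg_left (h3 n hn) (hw.nonneg n hn)
      have h6 : ∑ n ∈ R, w n * (p * ‖D n‖ ^ 2 + (1 - p) * ‖D n - ((t * lam n : ℝ) : ℂ)‖ ^ 2) =
          p * Q + (1 - p) * ∑ n ∈ R, w n * ‖D n - ((t * lam n : ℝ) : ℂ)‖ ^ 2 := by
        rw [hQ, Finset.mul_sum, Finset.mul_sum, ← Finset.sum_add_distrib]
        refine Finset.sum_congr rfl fun n _ => ?_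
        ring
      rw [← Finset.sum_mul, hw.one, one_mul, h6] at h5
      have h7 := mul_le_mul_of_nonneg_left hyp (by linarith : (0 : ℝ) ≤ 1 - p)
      linarith
    have h5 : (1 - p) ^ 2 ≤ Q := by
      have h6 : 4 * e = p ^ 2 := by rw [hp, mul_pow, hg2]; norm_num
      rw [h6] at h4
      have h7 : p * (1 - p) ≤ p * (Q + (1 - p) * p) := by linarith
      have h8 := le_of_mul_le_mul_left h7 hp0
      nlinarith
    have h6 : (1 - p) ^ 2 ≤ (1 + e) * S := h5.trans h2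
    have h7 : (1 + g ^ 2) * (1 - 4 * g) ≤ (1 + g ^ 2) * S := by
      rw [hg2]
      refine le_trans ?_ h6
      rw [← hg2, hp]
      nlinarith [pow_pos hg0 3, pow_pos hg0 2]
    exact le_of_mul_le_mul_left h7 (by positivity)

end Pool.Agent.Lib.PQ
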