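import Pool.Agent.Lib.MP_7b7e48_nt.PQ.Defs

/-!
# A4 (60 minutes): exactly one character (finite lemma)

PROOF. `30 h² < d ≤ 1/20`, so `h < 1/24`. 
1. `χ = o`: `i1`, `i2` with `A o = r o = 1`, `conj (l o) = l o` give `‖l o‖ ≤ 2 h³ < h`.
2. Put `X⁺ = {χ ∈ X : h ≤ ‖l χ‖}`, so `o ∉ X⁺`. For `χ ∈ X⁺`: `i1` gives `‖r A‖ ‖l‖ ≥ ‖l‖ - 4h³`, so
`‖r A‖ ≥ 1 - 4h²` and `‖r‖² ≥ ‖r A‖² ≥ 1 - 8h²`. `i1 + i2`: `‖r A (1 + A) l‖ ≤ 8h³`, so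
`‖1 + A‖ ≤ 8h² / (1 - 4h²) ≤ 8.1 h²`, in particular `Re A ≤ -1 + 8.1 h²` and
`‖r A‖² Re A ≤ -(1 - 8h²)(1 - 8.1h²) ≤ -1 + 16.1 h²`.
3. `#X⁺ ≤ 2`: otherwise three elements of `X⁺` and `o` give in `i5`: `1 + 3 (1 - 8h²) ≤ 4 - 2d`, false.
4. `#X⁺ ≠ 2`: in `i4` the term of `o` is `1`, the two terms of `X⁺` are together `≤ -2 + 32.2 h²`, so the remaining terms
have sum `≥ -h³ - 1 + 2 - 32.2h² ≥ 1 - 33h²`; each of them is `≤ ‖r χ‖²` (`‖A‖ ≤ 1`). So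
`∑_X ‖r‖² ≥ 1 + 2 (1 - 8h²) + 1 - 33h² = 4 - 49h² > 4 - 2d`, against `i5`.
5. `X⁺ ≠ ∅`: in `i3` the terms outside `X⁺` have sum `≤ h² ∑ ‖r‖² ≤ 4h²`. So `X⁺ = {χ}` and
`‖l χ‖² ≥ ‖r A l‖² ≥ 1 - 4h³ - 4h² ≥ 1 - 8h²`.
6. `iv χ ∈ X⁺` (`‖conj (l χ)‖ = ‖l χ‖`), so `iv χ = χ` and `l χ` is real. `i1` then gives `‖r A + t‖ ≤ 4h³ / ‖l‖ ≤ h²/4`, and
`r - t = r (1 + A) - (r A + t)`.
-/

set_option autoImplicit false

open Finset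
open Pool.Agent.Lib.GT (Rough pr V)
open Pool.Agent.Lib.MP_45349e_nt.LS (lam)
open Pool.Agent.Lib.RG (RC LV rr SS PB sig)

namespace Pool.Agent.Lib.PQ

theorem A4 {ι : Type} [DecidableEq ι] (X : Finset ι) (o : ι) (ho : o ∈ X) (A r l : ι → ℂ) (iv : ι → ι)
    (hiv : ∀ χ ∈ X, iv χ ∈ X ∧ l (iv χ) = (starRingEnd ℂ) (l χ)) (hA : ∀ χ, ‖A χ‖ ≤ 1)
    (hr : ∀ χ, ‖r χ‖ ≤ 1) (hl : ∀ χ, ‖l χ‖ ≤ 1) (hAo : A o = 1) (hro : r o = 1)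
    (hlo : (starRingEnd ℂ) (l o) = l o) (t : ℝ) (ht : t = 1 ∨ t = -1) (h d : ℝ) (h0 : 0 < h)
    (hd1 : d ≤ 1 / 20) (hd : 30 * h ^ 2 < d)
    (i1 : ∀ χ ∈ X, ‖r χ * A χ * l χ + t * (starRingEnd ℂ) (l χ)‖ ≤ 4 * h ^ 3)
    (i2 : ∀ χ ∈ X, ‖r χ * A χ ^ 2 * l χ - t * (starRingEnd ℂ) (l χ)‖ ≤ 4 * h ^ 3)
    (i3 : 1 - 4 * h ^ 3 ≤ ∑ χ ∈ X, ‖r χ * A χ * l χ‖ ^ 2)
    (i4 : |∑ χ ∈ X, ‖r χ * A χ‖ ^ 2 * (A χ).re| ≤ h ^ 3)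
    (i5 : ∑ χ ∈ X, ‖r χ‖ ^ 2 ≤ 4 - 2 * d) :
    ∃ χ ∈ X, χ ≠ o ∧ iv χ = χ ∧ (l χ).im = 0 ∧ 1 - 8 * h ^ 2 ≤ ‖l χ‖ ^ 2 ∧ ‖1 + A χ‖ ≤ 10 * h ^ 2 ∧
      ‖r χ - t‖ ≤ 20 * h ^ 2 := by
  classical
  -- sizes of the numbers
  have hh2 : h ^ 2 < 1 / 600 := by linarith
  have hh : h < 1 / 24 := by
    by_contra hc
    have h1 : (1 / 24 : ℝ) ≤ h := not_lt.1 hc
    have h2 : (1 / 24 : ℝ) ^ 2 ≤ h ^ 2 := pow_le_pow_left₀ (by norm_num) h1 2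
    norm_num at h2
    linarith
  have hsq : 0 < h ^ 2 := by positivity
  have hh3 : h ^ 3 ≤ h ^ 2 / 24 := by
    have h1 : h ^ 3 = h ^ 2 * h := by ring
    rw [h1]
    nlinarith
  have hh3' : 0 < h ^ 3 := by positivity
  have htn : ‖(t : ℂ)‖ = 1 := by
    rcases ht with rfl | rfl <;> simp
  -- the principal element
  have hol : ‖l o‖ < h := by
    have e1 := i1 o ho
    have e2 := i2 o ho
    rw [hro, hAo, hlo, one_mul, one_mul] at e1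
    rw [hro, hAo, hlo, one_pow, one_mul, one_mul] at e2
    have e3 : (2 : ℂ) * l o = (l o + t * l o) + (l o - t * l o) := by ring
    have e4 : ‖(2 : ℂ) * l o‖ ≤ 8 * h ^ 3 := by
      rw [e3]
      exact (norm_add_le _ _).trans (by linarith)
    rw [norm_mul, Complex.norm_ofNat] at e4
    nlinarith
  -- the large values
  have key : ∀ χ ∈ X, h ≤ ‖l χ‖ → 1 - 4 * h ^ 2 ≤ ‖r χ * A χ‖ ∧ ‖1 + A χ‖ ≤ 81 / 10 * h ^ 2 := by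
    intro χ hχ hlχ
    have hl0 : 0 < ‖l χ‖ := h0.trans_le hlχ
    have hl3 : h ^ 3 ≤ h ^ 2 * ‖l χ‖ := by
      have h1 : h ^ 3 = h ^ 2 * h := by ring
      rw [h1]
      exact mul_le_mul_of_nonneg_left hlχ hsq.le
    have e1 := i1 χ hχ
    have e2 := i2 χ hχ
    have e3 : ‖l χ‖ ≤ ‖r χ * A χ‖ * ‖l χ‖ + 4 * h ^ 3 := by
      have h1 : (t : ℂ) * (starRingEnd ℂ) (l χ) =
          (r χ * A χ * l χ + t * (starRingEnd ℂ) (l χ)) - r χ * A χ * l χ := by ring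
      have h2 : ‖(t : ℂ) * (starRingEnd ℂ) (l χ)‖ = ‖l χ‖ := by
        rw [norm_mul, htn, one_mul, RCLike.norm_conj]
      rw [← h2, h1]
      refine (norm_sub_le _ _).trans ?_
      rw [norm_mul (r χ * A χ) (l χ)] 
      have h3 : ‖l χ‖ = ‖l χ‖ := rfl
      have h4 : ‖r χ * A χ * l χ + ↑t * (starRingEnd ℂ) (l χ) - r χ * A χ * l χ‖ = ‖l χ‖ := by
        rw [← h1, h2]
      rw [h4]
      linarith
    have e4 : 1 - 4 * h ^ 2 ≤ ‖r χ * A χ‖ := by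
      have h1 : (1 - 4 * h ^ 2) * ‖l χ‖ ≤ ‖r χ * A χ‖ * ‖l χ‖ := by nlinarith
      exact le_of_mul_le_mul_right h1 hl0
    refine ⟨e4, ?_⟩
    have e5 : ‖r χ * A χ‖ * ‖1 + A χ‖ * ‖l χ‖ ≤ 8 * h ^ 3 := by
      rw [← norm_mul, ← norm_mul]
      have h1 : r χ * A χ * (1 + A χ) * l χ = (r χ * A χ * l χ + t * (starRingEnd ℂ) (l χ)) +
          (r χ * A χ ^ 2 * l χ - t * (starRingEnd ℂ) (l χ)) := by ring
      rw [h1]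
      exact (norm_add_le _ _).trans (by linarith)
    have e6 : ‖r χ * A χ‖ * ‖1 + A χ‖ ≤ 8 * h ^ 2 := by
      have h1 : ‖r χ * A χ‖ * ‖1 + A χ‖ * ‖l χ‖ ≤ 8 * h ^ 2 * ‖l χ‖ := by nlinarith
      exact le_of_mul_le_mul_right h1 hl0
    have e7 : (1 - 4 * h ^ 2) * ‖1 + A χ‖ ≤ 8 * h ^ 2 :=
      (mul_le_mul_of_nonneg_right e4 (norm_nonneg _)).trans e6
    have hn := norm_nonneg (1 + A χ)
    by_contra hc
    have hc' : 81 / 10 * h ^ 2 < ‖1 + A χ‖ := not_le.1 hc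
    have h9 : (1 - 4 * h ^ 2) * (81 / 10 * h ^ 2) ≤ (1 - 4 * h ^ 2) * ‖1 + A χ‖ :=
      mul_le_mul_of_nonneg_left hc'.le (by linarith)
    nlinarith
  have keyr : ∀ χ ∈ X, h ≤ ‖l χ‖ → 1 - 8 * h ^ 2 ≤ ‖r χ‖ ^ 2 := by
    intro χ hχ hlχ
    have e1 := (key χ hχ hlχ).1
    have e2 : ‖r χ * A χ‖ ≤ ‖r χ‖ := by
      rw [norm_mul]
      exact mul_le_of_le_one_right (norm_nonneg _) (hA χ)
    nlinarith [norm_nonneg (r χ)]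
  have keyA : ∀ χ ∈ X, h ≤ ‖l χ‖ → ‖r χ * A χ‖ ^ 2 * (A χ).re ≤ -1 + 161 / 10 * h ^ 2 := by
    intro χ hχ hlχ
    obtain ⟨e1, e2⟩ := key χ hχ hlχ
    have e3 : 1 + (A χ).re ≤ ‖1 + A χ‖ := by
      have h1 := Complex.re_le_norm (1 + A χ)
      rwa [Complex.add_re, Complex.one_re] at h1
    have e4 : (A χ).re ≤ -1 + 81 / 10 * h ^ 2 := by linarith
    have e5 : 1 - 8 * h ^ 2 ≤ ‖r χ * A χ‖ ^ 2 := by nlinarith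
    nlinarith
  have keyR : ∀ χ, ‖r χ * A χ‖ ^ 2 * (A χ).re ≤ ‖r χ‖ ^ 2 := by
    intro χ
    have e1 : (A χ).re ≤ 1 := (Complex.re_le_norm _).trans (hA χ)
    have e2 : ‖r χ * A χ‖ ≤ ‖r χ‖ := by
      rw [norm_mul]
      exact mul_le_of_le_one_right (norm_nonneg _) (hA χ)
    have e3 : ‖r χ * A χ‖ ^ 2 ≤ ‖r χ‖ ^ 2 := pow_le_pow_left₀ (norm_nonneg _) e2 2
    have e4 : 0 ≤ ‖r χ * A χ‖ ^ 2 := by positivity
    calc ‖r χ * A χ‖ ^ 2 * (A χ).re ≤ ‖r χ * A χ‖ ^ 2 * 1 := mul_le_mul_of_nonneg_left e1 e4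
      _ ≤ ‖r χ‖ ^ 2 := by rw [mul_one]; exact e3
  -- the decomposition of the sums
  set S : Finset ι := X.filter (fun χ => h ≤ ‖l χ‖) with hS
  have hoS : o ∉ S := by
    intro hc
    have := (mem_filter.1 hc).2
    linarith
  have hSX : ∀ χ ∈ S, χ ∈ X ∧ h ≤ ‖l χ‖ := fun χ hχ => mem_filter.1 hχ
  have hsub : insert o S ⊆ X := by
    intro χ hχ
    rcases mem_insert.1 hχ with rfl | hχ
    · exact ho
    · exact (hSX χ hχ).1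
  set R : Finset ι := X \ insert o S with hR
  have dec : ∀ g : ι → ℝ, ∑ χ ∈ X, g χ = g o + ∑ χ ∈ S, g χ + ∑ χ ∈ R, g χ := by
    intro g
    rw [← sum_sdiff hsub, sum_insert hoS]
    ring
  have s1 : (S.card : ℝ) * (1 - 8 * h ^ 2) ≤ ∑ χ ∈ S, ‖r χ‖ ^ 2 := by
    have h1 := card_nsmul_le_sum S (fun χ => ‖r χ‖ ^ 2) (1 - 8 * h ^ 2)
      (fun χ hχ => keyr χ (hSX χ hχ).1 (hSX χ hχ).2)
    rwa [nsmul_eq_mul] at h1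
  have s2 : ∑ χ ∈ S, ‖r χ * A χ‖ ^ 2 * (A χ).re ≤ (S.card : ℝ) * (-1 + 161 / 10 * h ^ 2) := by
    have h1 := sum_le_card_nsmul S (fun χ => ‖r χ * A χ‖ ^ 2 * (A χ).re) (-1 + 161 / 10 * h ^ 2)
      (fun χ hχ => keyA χ (hSX χ hχ).1 (hSX χ hχ).2)
    rwa [nsmul_eq_mul] at h1
  have s3 : ∑ χ ∈ R, ‖r χ * A χ‖ ^ 2 * (A χ).re ≤ ∑ χ ∈ R, ‖r χ‖ ^ 2 :=
    sum_le_sum fun χ _ => keyR χ
  have s4 : 0 ≤ ∑ χ ∈ R, ‖r χ‖ ^ 2 := sum_nonneg fun χ _ => by positivity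
  have d4 := dec (fun χ => ‖r χ * A χ‖ ^ 2 * (A χ).re)
  have d5 := dec (fun χ => ‖r χ‖ ^ 2)
  simp only [hro, hAo, mul_one, norm_one, one_pow, Complex.one_re] at d4
  simp only [hro, norm_one, one_pow] at d5
  have i4' := (abs_le.1 i4).1
  rw [d4] at i4'
  rw [d5] at i5
  -- at most one
  have hc1 : S.card ≤ 1 := by
    by_contra hc
    rcases Nat.lt_or_ge S.card 3 with h3 | h3
    · have h2 : S.card = 2 := by omega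
      rw [h2] at s1 s2
      push_cast at s1 s2
      nlinarith
    · have h3' : (3 : ℝ) ≤ S.card := by exact_mod_cast h3
      nlinarith
  -- the small values
  have small : ∀ χ ∈ X, χ ∉ S → ‖r χ * A χ * l χ‖ ^ 2 ≤ h ^ 2 * ‖r χ‖ ^ 2 := by
    intro χ hχ hχS
    have e1 : ‖l χ‖ < h := by
      by_contra hc
      exact hχS (mem_filter.2 ⟨hχ, not_lt.1 hc⟩)
    have e2 : ‖r χ * A χ * l χ‖ ≤ ‖r χ‖ * h := by
      rw [norm_mul, norm_mul]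
      calc ‖r χ‖ * ‖A χ‖ * ‖l χ‖ ≤ ‖r χ‖ * 1 * h := by
            gcongr
            exact hA χ
        _ = ‖r χ‖ * h := by ring
    calc ‖r χ * A χ * l χ‖ ^ 2 ≤ (‖r χ‖ * h) ^ 2 := pow_le_pow_left₀ (norm_nonneg _) e2 2
      _ = h ^ 2 * ‖r χ‖ ^ 2 := by ring
  have hRX : ∀ χ ∈ R, χ ∈ X ∧ χ ∉ S := by
    intro χ hχ
    have h1 := mem_sdiff.1 hχ
    exact ⟨h1.1, fun h2 => h1.2 (mem_insert_of_mem h2)⟩
  have d3 := dec (fun χ => ‖r χ * A χ * l χ‖ ^ 2)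
  rw [d3] at i3
  have s5 : ∑ χ ∈ R, ‖r χ * A χ * l χ‖ ^ 2 ≤ h ^ 2 * ∑ χ ∈ R, ‖r χ‖ ^ 2 := by
    rw [mul_sum]
    exact sum_le_sum fun χ hχ => small χ (hRX χ hχ).1 (hRX χ hχ).2
  have s6 := small o ho hoS
  rw [hro, norm_one, one_pow, mul_one, ← hro] at s6
  have s7 : 0 ≤ ∑ χ ∈ S, ‖r χ‖ ^ 2 := sum_nonneg fun χ _ => by positivity
  have s8 : ∑ χ ∈ R, ‖r χ‖ ^ 2 ≤ 3 := by linarith
  have s9 : h ^ 2 * ∑ χ ∈ R, ‖r χ‖ ^ 2 ≤ h ^ 2 * 3 := mul_le_mul_of_nonneg_left s8 hsq.le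
  have s10 : 1 - 4 * h ^ 3 - 4 * h ^ 2 ≤ ∑ χ ∈ S, ‖r χ * A χ * l χ‖ ^ 2 := by linarith
  have hc2 : S.card = 1 := by
    rcases Nat.eq_zero_or_pos S.card with h1 | h1
    · rw [card_eq_zero] at h1
      rw [h1, sum_empty] at s10
      linarith
    · omega
  obtain ⟨χ, hχ⟩ := card_eq_one.1 hc2
  have hχS : χ ∈ S := by rw [hχ]; exact mem_singleton_self χ
  obtain ⟨hχX, hχh⟩ := hSX χ hχS
  rw [hχ, sum_singleton] at s10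
  have hlχ : 1 - 8 * h ^ 2 ≤ ‖l χ‖ ^ 2 := by
    have e1 : ‖r χ * A χ * l χ‖ ≤ ‖l χ‖ := by
      rw [norm_mul, norm_mul]
      calc ‖r χ‖ * ‖A χ‖ * ‖l χ‖ ≤ 1 * 1 * ‖l χ‖ := by
            gcongr
            · exact hr χ
            · exact hA χ
        _ = ‖l χ‖ := by ring
    have e2 : ‖r χ * A χ * l χ‖ ^ 2 ≤ ‖l χ‖ ^ 2 := pow_le_pow_left₀ (norm_nonneg _) e1 2
    linarith
  have hlh : 1 / 2 ≤ ‖l χ‖ := by nlinarith [norm_nonneg (l χ)]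
  obtain ⟨hv1, hv2⟩ := hiv χ hχX
  have hivS : iv χ ∈ S := by
    refine mem_filter.2 ⟨hv1, ?_⟩
    rw [hv2, RCLike.norm_conj]
    exact hχh
  have hiv' : iv χ = χ := by
    rw [hχ] at hivS
    exact mem_singleton.1 hivS
  rw [hiv'] at hv2
  have him : (l χ).im = 0 := by
    have h1 := congrArg Complex.im hv2
    rw [Complex.conj_im] at h1
    linarith
  obtain ⟨k1, k2⟩ := key χ hχX hχh
  refine ⟨χ, hχX, ?_, hiv', him, hlχ, by linarith, ?_⟩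
  · rintro rfl
    exact hoS hχS
  · have e1 := i1 χ hχX
    rw [← hv2] at e1
    have e2 : r χ * A χ * l χ + t * l χ = (r χ * A χ + t) * l χ := by ring
    rw [e2, norm_mul] at e1
    have e3 : ‖r χ * A χ + t‖ ≤ 8 * h ^ 3 := by
      nlinarith [norm_nonneg (r χ * A χ + t)]
    have e4 : r χ - t = r χ * (1 + A χ) - (r χ * A χ + t) := by ring
    rw [e4]
    refine (norm_sub_le _ _).trans ?_
    have e5 : ‖r χ * (1 + A χ)‖ ≤ 81 / 10 * h ^ 2 := by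
      rw [norm_mul]
      calc ‖r χ‖ * ‖1 + A χ‖ ≤ 1 * ‖1 + A χ‖ :=
            mul_le_mul_of_nonneg_right (hr χ) (norm_nonneg _)
        _ ≤ _ := by rw [one_mul]; exact k2
    linarith

end Pool.Agent.Lib.PQ
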