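import Pool.Agent.Lib.MP_7b7e48_nt.PQ.Defs
import Pool.Agent.Lib.MP_7b7e48_nt.RG.A3
import Pool.Agent.Lib.MP_7b7e48_nt.RG.PV

/-!
# S2m (35 minutes): the summatory function of `1 * c`, exponent `1/4 + e`

PROOF. This is `RG.SS_asymp` (exponent `13/50`) with an arbitrary exponent: copy the proof of `RG/A3.lean` and use `RG.PB_le` with
the exponent `2e` (hyperbola method: `SS y = ∑_{a ≤ A} c a ⌊y/a⌋ + ∑_{b ≤ y/A} ∑_{A < a ≤ y/b} c a`, `A² ≈ y PB N` resp. trivial if
`y` is small, error `C √(y PB N)`). The bound for `L`: `LV` with `y = ⌈PB N⌉`: `L ≤ 1 + log y + 2 + ... ≤ C N^e`.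
-/

set_option autoImplicit false

open Finset
open Pool.Agent.Lib.GT (Rough pr V)
open Pool.Agent.Lib.MP_45349e_nt.LS (lam)
open Pool.Agent.Lib.RG (RC LV rr SS PB sig)

namespace Pool.Agent.Lib.PQ

private theorem s2_one {N : ℕ} {c : ℕ → ℝ} (hc : RC N c) : c 1 = 1 := by
  have h1 := hc.mul 1 1
  rw [mul_one] at h1
  rcases hc.val 1 (Nat.coprime_one_left N) with h | h
  · exact h
  · rw [h] at h1
    norm_num at h1

private theorem s2_abs {N : ℕ} {c : ℕ → ℝ} (hc : RC N c) (n : ℕ) : |c n| ≤ 1 := by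
  by_cases h : n.Coprime N
  · rcases hc.val n h with h1 | h1
    · rw [h1, abs_one]
    · rw [h1, abs_neg, abs_one]
  · rw [hc.zero n h, abs_zero]
    exact zero_le_one

private theorem s2_harm (n : ℕ) : ∑ a ∈ Finset.Icc 1 n, (1 : ℝ) / a ≤ 1 + Real.log n := by
  have h := harmonic_le_one_add_log n
  rw [harmonic_eq_sum_Icc] at h
  push_cast at h
  refine le_trans (le_of_eq ?_) h
  exact Finset.sum_congr rfl fun a _ => one_div _

/-- Exchange of the two summations. -/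
private theorem s2_swap (c : ℕ → ℝ) (y : ℕ) :
    ∑ m ∈ Finset.Icc 1 y, rr c m = ∑ a ∈ Finset.Icc 1 y, c a * ((y / a : ℕ) : ℝ) := by
  classical
  have h1 : ∀ m ∈ Finset.Icc 1 y, rr c m =
      ∑ a ∈ Finset.Icc 1 y, if a ∣ m then c a else 0 := by
    intro m hm
    rw [Finset.mem_Icc] at hm
    unfold rr
    rw [← Finset.sum_filter]
    refine Finset.sum_congr ?_ fun _ _ => rfl
    ext a
    rw [Nat.mem_divisors, Finset.mem_filter, Finset.mem_Icc]
    constructor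
    · rintro ⟨h, _⟩
      have h2 := Nat.le_of_dvd (by omega) h
      have h4 : 0 < a := Nat.pos_of_dvd_of_pos h (by omega)
      exact ⟨⟨h4, by omega⟩, h⟩
    · rintro ⟨_, h⟩
      exact ⟨h, by omega⟩
  rw [Finset.sum_congr rfl h1, Finset.sum_comm]
  refine Finset.sum_congr rfl fun a _ => ?_
  rw [← Finset.sum_filter, Finset.sum_const, nsmul_eq_mul, mul_comm]
  congr 2
  have h2 := Nat.Ioc_filter_dvd_card_eq_div y a
  exact h2

private theorem s2_count (a y : ℕ) (ha : 0 < a) :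
    ((y / a : ℕ) : ℝ) = ∑ b ∈ Finset.Icc 1 y, if a * b ≤ y then (1 : ℝ) else 0 := by
  rw [← Finset.sum_filter, Finset.sum_const, nsmul_eq_mul, mul_one]
  have h1 : (Finset.Icc 1 y).filter (fun b => a * b ≤ y) = Finset.Icc 1 (y / a) := by
    ext b
    rw [Finset.mem_filter, Finset.mem_Icc, Finset.mem_Icc, Nat.le_div_iff_mul_le ha, mul_comm b a]
    constructor
    · rintro ⟨⟨h1, _⟩, h2⟩
      exact ⟨h1, h2⟩
    · rintro ⟨h1, h2⟩
      refine ⟨⟨h1, ?_⟩, h2⟩
      exact (Nat.le_mul_of_pos_left b ha).trans h2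
  rw [h1, Nat.card_Icc, Nat.add_sub_cancel]

/-- The hyperbola method. -/
private theorem s2_hyp {N : ℕ} {c : ℕ → ℝ} {L : ℝ} (hc : RC N c) (hL : LV N c L)
    {y A : ℕ} (hA : 1 ≤ A) (hAy : A ≤ y) :
    |∑ m ∈ Finset.Icc 1 y, rr c m - y * L| ≤
      4 * ((y : ℝ) / A) * PB N + A := by
  classical
  have hA0 : (0 : ℝ) < A := by exact_mod_cast hA
  have hy0 : (0 : ℝ) ≤ y := Nat.cast_nonneg y
  have hW0 : 0 ≤ PB N := (abs_nonneg _).trans (hc.pv 0)
  have hsplit : Finset.Icc 1 y = Finset.Icc 1 A ∪ Finset.Ioc A y := by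
    ext a
    rw [Finset.mem_union, Finset.mem_Icc, Finset.mem_Icc, Finset.mem_Ioc]
    omega
  have hdis : Disjoint (Finset.Icc 1 A) (Finset.Ioc A y) := by
    rw [Finset.disjoint_left]
    intro a h1 h2
    rw [Finset.mem_Icc] at h1
    rw [Finset.mem_Ioc] at h2
    omega
  have e1 : ∑ m ∈ Finset.Icc 1 y, rr c m =
      ∑ a ∈ Finset.Icc 1 A, c a * ((y / a : ℕ) : ℝ) +
      ∑ a ∈ Finset.Ioc A y, c a * ((y / a : ℕ) : ℝ) := by
    rw [s2_swap]
    nth_rewrite 1 [hsplit]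
    rw [Finset.sum_union hdis]
  -- the first part
  have h1 : |∑ a ∈ Finset.Icc 1 A, c a * ((y / a : ℕ) : ℝ) -
      ∑ a ∈ Finset.Icc 1 A, c a * ((y : ℝ) / a)| ≤ A := by
    rw [← Finset.sum_sub_distrib]
    refine (Finset.abs_sum_le_sum_abs _ _).trans ?_
    have h2 : ∀ a ∈ Finset.Icc 1 A, |c a * ((y / a : ℕ) : ℝ) - c a * ((y : ℝ) / a)| ≤ 1 := by
      intro a ha
      rw [Finset.mem_Icc] at ha
      have ha0 : (0 : ℝ) < a := by
        have : 0 < a := by omega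
        exact_mod_cast this
      rw [← mul_sub, abs_mul]
      have h4 : |((y / a : ℕ) : ℝ) - (y : ℝ) / a| ≤ 1 := by
        have h5 : ((y / a : ℕ) : ℝ) ≤ (y : ℝ) / a := Nat.cast_div_le
        have h6 : (y : ℝ) / a < ((y / a : ℕ) : ℝ) + 1 := by
          rw [div_lt_iff₀ ha0]
          have h7 : y < (y / a + 1) * a := by
            have := Nat.lt_div_mul_add (a := y) (b := a) (by omega)
            calc y < y / a * a + a := this
              _ = (y / a + 1) * a := by ring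
          exact_mod_cast h7
        rw [abs_le]
        constructor <;> linarith
      calc |c a| * |((y / a : ℕ) : ℝ) - (y : ℝ) / a| ≤ 1 * 1 :=
            mul_le_mul (s2_abs hc a) h4 (abs_nonneg _) zero_le_one
        _ = 1 := one_mul 1
    calc ∑ a ∈ Finset.Icc 1 A, |c a * ((y / a : ℕ) : ℝ) - c a * ((y : ℝ) / a)| ≤
        ∑ _a ∈ Finset.Icc 1 A, (1 : ℝ) := Finset.sum_le_sum h2
      _ = A := by
          rw [Finset.sum_const, Nat.card_Icc, nsmul_eq_mul, mul_one]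
          simp
  have h2 : |∑ a ∈ Finset.Icc 1 A, c a * ((y : ℝ) / a) - y * L| ≤ 2 * ((y : ℝ) / A) * PB N := by
    have e2 : ∑ a ∈ Finset.Icc 1 A, c a * ((y : ℝ) / a) =
        y * ∑ a ∈ Finset.Icc 1 A, c a / a := by
      rw [Finset.mul_sum]
      exact Finset.sum_congr rfl fun a _ => by ring
    rw [e2, ← mul_sub, abs_mul, abs_of_nonneg hy0]
    calc (y : ℝ) * |∑ a ∈ Finset.Icc 1 A, c a / a - L| ≤
        y * (2 * PB N / A) := mul_le_mul_of_nonneg_left (hL.2 A hA) hy0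
      _ = 2 * ((y : ℝ) / A) * PB N := by ring
  -- the second part
  have h4 : |∑ a ∈ Finset.Ioc A y, c a * ((y / a : ℕ) : ℝ)| ≤ 2 * ((y : ℝ) / A) * PB N := by
    have e3 : ∑ a ∈ Finset.Ioc A y, c a * ((y / a : ℕ) : ℝ) =
        ∑ b ∈ Finset.Icc 1 y, ∑ a ∈ Finset.Ioc A y, if a * b ≤ y then c a else 0 := by
      rw [Finset.sum_comm]
      refine Finset.sum_congr rfl fun a ha => ?_
      rw [Finset.mem_Ioc] at ha
      rw [s2_count a y (by omega), Finset.mul_sum]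
      exact Finset.sum_congr rfl fun b _ => by rw [mul_ite, mul_one, mul_zero]
    have h5 : ∀ b ∈ Finset.Icc 1 y, |∑ a ∈ Finset.Ioc A y, if a * b ≤ y then c a else 0| ≤
        if A * b ≤ y then 2 * PB N else 0 := by
      intro b hb
      rw [Finset.mem_Icc] at hb
      have e4 : (∑ a ∈ Finset.Ioc A y, if a * b ≤ y then c a else 0) =
          ∑ a ∈ Finset.Ioc A (y / b), c a := by
        rw [← Finset.sum_filter]
        refine Finset.sum_congr ?_ fun _ _ => rfl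
        ext a
        rw [Finset.mem_filter, Finset.mem_Ioc, Finset.mem_Ioc, Nat.le_div_iff_mul_le (by omega)]
        constructor
        · rintro ⟨⟨h1, _⟩, h2⟩
          exact ⟨h1, h2⟩
        · rintro ⟨h1, h2⟩
          exact ⟨⟨h1, (Nat.le_mul_of_pos_right a (by omega)).trans h2⟩, h2⟩
      rw [e4]
      split_ifs with h6
      · have hAb : A ≤ y / b := by
          rw [Nat.le_div_iff_mul_le (by omega)]
          exact h6
        have e5 : ∑ a ∈ Finset.Icc 1 (y / b), c a =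
            ∑ a ∈ Finset.Icc 1 A, c a + ∑ a ∈ Finset.Ioc A (y / b), c a := by
          rw [← Finset.sum_union]
          · refine Finset.sum_congr ?_ fun _ _ => rfl
            ext a
            rw [Finset.mem_union, Finset.mem_Icc, Finset.mem_Icc, Finset.mem_Ioc]
            omega
          · rw [Finset.disjoint_left]
            intro a h1 h2
            rw [Finset.mem_Icc] at h1
            rw [Finset.mem_Ioc] at h2
            omega
        have h7 := abs_le.1 (hc.pv (y / b))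
        have h8 := abs_le.1 (hc.pv A)
        rw [abs_le]
        constructor <;> linarith [h7.1, h7.2, h8.1, h8.2]
      · have h7 : Finset.Ioc A (y / b) = ∅ := by
          rw [Finset.Ioc_eq_empty_iff]
          intro h8
          apply h6
          have h9 : A ≤ y / b := h8.le
          rwa [Nat.le_div_iff_mul_le (by omega)] at h9
        rw [h7, Finset.sum_empty, abs_zero]
    rw [e3]
    refine (Finset.abs_sum_le_sum_abs _ _).trans ((Finset.sum_le_sum h5).trans ?_)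
    rw [← Finset.sum_filter, Finset.sum_const, nsmul_eq_mul]
    have h6 : (((Finset.Icc 1 y).filter (fun b => A * b ≤ y)).card : ℝ) ≤ (y : ℝ) / A := by
      have h7 := s2_count A y (by omega)
      rw [← Finset.sum_filter, Finset.sum_const, nsmul_eq_mul, mul_one] at h7
      rw [← h7]
      exact Nat.cast_div_le
    calc (((Finset.Icc 1 y).filter (fun b => A * b ≤ y)).card : ℝ) * (2 * PB N) ≤
        (y : ℝ) / A * (2 * PB N) := mul_le_mul_of_nonneg_right h6 (by linarith)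
      _ = 2 * ((y : ℝ) / A) * PB N := by ring
  rw [e1]
  have e7 : ∑ a ∈ Finset.Icc 1 A, c a * ((y / a : ℕ) : ℝ) +
      ∑ a ∈ Finset.Ioc A y, c a * ((y / a : ℕ) : ℝ) - y * L =
      (∑ a ∈ Finset.Icc 1 A, c a * ((y / a : ℕ) : ℝ) -
      ∑ a ∈ Finset.Icc 1 A, c a * ((y : ℝ) / a)) +
      (∑ a ∈ Finset.Icc 1 A, c a * ((y : ℝ) / a) - y * L) +
      ∑ a ∈ Finset.Ioc A y, c a * ((y / a : ℕ) : ℝ) := by ring
  rw [e7]
  calc _ ≤ _ := (abs_add_le _ _).trans (add_le_add (abs_add_le _ _) le_rfl)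
    _ ≤ A + 2 * ((y : ℝ) / A) * PB N + 2 * ((y : ℝ) / A) * PB N :=
        add_le_add (add_le_add h1 h2) h4
    _ = 4 * ((y : ℝ) / A) * PB N + A := by ring

private theorem s2_L_le {N : ℕ} (h2 : 2 ≤ N) {c : ℕ → ℝ} {L : ℝ} (hc : RC N c) (hL : LV N c L) :
    L ≤ 1 + Real.log N + 2 * PB N / N := by
  have h1 := hL.2 N (by omega)
  have h3 : ∑ a ∈ Finset.Icc 1 N, c a / a ≤ 1 + Real.log N := by
    refine le_trans (Finset.sum_le_sum fun a ha => ?_) (s2_harm N)
    rw [Finset.mem_Icc] at ha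
    have ha0 : (0 : ℝ) < a := by
      have : 0 < a := by omega
      exact_mod_cast this
    exact div_le_div_of_nonneg_right ((le_abs_self _).trans (s2_abs hc a)) ha0.le
  have h5 := (abs_le.1 h1).1
  linarith

private theorem s2_small {N : ℕ} (h2 : 2 ≤ N) {c : ℕ → ℝ} {L : ℝ} (hc : RC N c) (hL : LV N c L)
    {y : ℕ} (hy1 : 1 ≤ y) :
    |∑ m ∈ Finset.Icc 1 y, rr c m - y * L| ≤
      y * (2 + Real.log y + Real.log N + 2 * PB N / N) := by
  have hy0 : (0 : ℝ) < y := by exact_mod_cast hy1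
  have h1 : |∑ m ∈ Finset.Icc 1 y, rr c m| ≤ y * (1 + Real.log y) := by
    rw [s2_swap]
    refine (Finset.abs_sum_le_sum_abs _ _).trans ?_
    have h2 : ∀ a ∈ Finset.Icc 1 y, |c a * ((y / a : ℕ) : ℝ)| ≤ y * (1 / (a : ℝ)) := by
      intro a ha
      rw [abs_mul, abs_of_nonneg (Nat.cast_nonneg _ : (0 : ℝ) ≤ ((y / a : ℕ) : ℝ))]
      have h4 : ((y / a : ℕ) : ℝ) ≤ (y : ℝ) / a := Nat.cast_div_le
      calc |c a| * ((y / a : ℕ) : ℝ) ≤ 1 * ((y : ℝ) / a) :=
            mul_le_mul (s2_abs hc a) h4 (Nat.cast_nonneg _) zero_le_one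
        _ = y * (1 / (a : ℝ)) := by ring
    refine (Finset.sum_le_sum h2).trans ?_
    rw [← Finset.mul_sum]
    exact mul_le_mul_of_nonneg_left (s2_harm y) hy0.le
  have h4 : |(y : ℝ) * L| ≤ y * (1 + Real.log N + 2 * PB N / N) := by
    rw [abs_mul, abs_of_pos hy0, abs_of_nonneg hL.1]
    exact mul_le_mul_of_nonneg_left (s2_L_le h2 hc hL) hy0.le
  have h5 : |∑ m ∈ Finset.Icc 1 y, rr c m - y * L| ≤
      |∑ m ∈ Finset.Icc 1 y, rr c m| + |(y : ℝ) * L| := abs_sub _ _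
  calc |∑ m ∈ Finset.Icc 1 y, rr c m - y * L| ≤ y * (1 + Real.log y) +
        y * (1 + Real.log N + 2 * PB N / N) := by linarith
    _ = y * (2 + Real.log y + Real.log N + 2 * PB N / N) := by ring

private theorem s2_main (d : ℝ) (hd : 0 < d) (hd2 : d ≤ 1 / 2) : ∃ C : ℝ, 0 < C ∧ ∀ (N : ℕ), 2 ≤ N →
    ∀ (c : ℕ → ℝ) (L : ℝ), RC N c → LV N c L → L ≤ C * (N : ℝ) ^ d ∧
      ∀ y : ℕ, |SS c y - y * L| ≤ C * Real.sqrt y * (N : ℝ) ^ (1 / 4 + d) := by
  obtain ⟨C0', hC0', hP'⟩ := Pool.Agent.Lib.RG.PB_le d hd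
  obtain ⟨C0, hC01, hCC⟩ : ∃ C0 : ℝ, 1 ≤ C0 ∧ C0' ≤ C0 := ⟨max 1 C0', le_max_left _ _, le_max_right _ _⟩
  have hC0 : 0 < C0 := by linarith
  have hl0 : 0 ≤ Real.log C0 := Real.log_nonneg hC01
  have hd1 : 0 < 2 / d := by positivity
  refine ⟨(6 + (2 + Real.log C0 + 2 * (2 / d) + 2 * C0)) * Real.sqrt C0, by positivity, ?_⟩
  intro N h2 c L hc hL
  have hN1 : (1 : ℝ) ≤ N := by
    have : 1 ≤ N := by omega
    exact_mod_cast this
  have hN0 : (0 : ℝ) < N := by linarith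
  have hP0 : 0 ≤ PB N := (abs_nonneg _).trans (hc.pv 0)
  have hP : PB N ≤ C0 * (N : ℝ) ^ ((1 : ℝ) / 2 + d) := by
    have h3 := (hP' N h2).1
    exact h3.trans (mul_le_mul_of_nonneg_right hCC (Real.rpow_nonneg hN0.le _))
  have hPN : PB N ≤ C0 * N := by
    refine hP.trans (mul_le_mul_of_nonneg_left ?_ hC0.le)
    calc (N : ℝ) ^ ((1 : ℝ) / 2 + d) ≤ (N : ℝ) ^ (1 : ℝ) :=
          Real.rpow_le_rpow_of_exponent_le hN1 (by linarith)
      _ = N := Real.rpow_one _
  have hsq : Real.sqrt (PB N) ≤ Real.sqrt C0 * (N : ℝ) ^ ((1 : ℝ) / 4 + d / 2) := by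
    refine (Real.sqrt_le_sqrt hP).trans (le_of_eq ?_)
    rw [Real.sqrt_mul hC0.le]
    congr 1
    rw [Real.sqrt_eq_rpow, ← Real.rpow_mul hN0.le]
    congr 1
    ring
  set q : ℝ := (N : ℝ) ^ ((1 : ℝ) / 4 + d / 2) with hq
  have hq1 : 1 ≤ q := Real.one_le_rpow hN1 (by positivity)
  set t : ℝ := (N : ℝ) ^ (d / 2) with ht
  have ht1 : 1 ≤ t := Real.one_le_rpow hN1 (by positivity)
  have hqt : (N : ℝ) ^ ((1 : ℝ) / 4 + d) = q * t := by
    rw [hq, ht, ← Real.rpow_add hN0]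
    congr 1
    ring
  have htd : t ≤ (N : ℝ) ^ d := Real.rpow_le_rpow_of_exponent_le hN1 (by linarith)
  have hlogN : Real.log N ≤ 2 / d * t := by
    have h3 := Real.log_le_rpow_div hN0.le (show (0 : ℝ) < d / 2 by positivity)
    refine h3.trans (le_of_eq ?_)
    rw [ht]
    field_simp
  have hlN0 : 0 ≤ Real.log N := Real.log_nonneg hN1
  have hsC0 : 0 ≤ Real.sqrt C0 := Real.sqrt_nonneg _
  have hsC1 : 1 ≤ Real.sqrt C0 := Real.one_le_sqrt.2 hC01
  set K : ℝ := 2 + Real.log C0 + 2 * (2 / d) + 2 * C0 with hK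
  have hK0 : 0 ≤ K := by positivity
  have hPd : 2 * PB N / N ≤ 2 * C0 := by
    rw [div_le_iff₀ hN0]
    linarith
  refine ⟨?_, fun y => ?_⟩
  · have h4 := s2_L_le h2 hc hL
    have h6 : (2 + Real.log C0 + 2 * C0) * 1 ≤ (2 + Real.log C0 + 2 * C0) * t :=
      mul_le_mul_of_nonneg_left ht1 (by positivity)
    have h7 : L ≤ K * t := by
      rw [hK]
      nlinarith
    calc L ≤ K * t := h7
      _ ≤ (6 + K) * Real.sqrt C0 * (N : ℝ) ^ d := by
          refine mul_le_mul ?_ htd (by linarith) (by positivity)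
          calc K ≤ (6 + K) * 1 := by linarith
            _ ≤ (6 + K) * Real.sqrt C0 := mul_le_mul_of_nonneg_left hsC1 (by linarith)
  have hss0 : 0 ≤ Real.sqrt y := Real.sqrt_nonneg _
  rw [hqt]
  have hunit : 0 ≤ Real.sqrt y * (Real.sqrt C0 * q) := by positivity
  unfold SS
  rcases Nat.eq_zero_or_pos y with h0 | hy1
  · subst h0
    rw [Finset.Icc_eq_empty (by norm_num), Finset.sum_empty]
    simp
  have hy0 : (0 : ℝ) < y := by exact_mod_cast hy1
  have hy1' : (1 : ℝ) ≤ y := by exact_mod_cast hy1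
  have hss : Real.sqrt y * Real.sqrt y = y := Real.mul_self_sqrt hy0.le
  have hs1 : 1 ≤ Real.sqrt y := Real.one_le_sqrt.2 hy1'
  rcases le_or_gt (PB N) y with h | h
  · -- `y` large
    have hP1 : 1 ≤ PB N := by
      have h3 := hc.pv 1
      rw [Finset.Icc_self, Finset.sum_singleton, s2_one hc, abs_one] at h3
      exact h3
    have hr1 : 1 ≤ Real.sqrt (PB N) := Real.one_le_sqrt.2 hP1
    have hrr : Real.sqrt (PB N) * Real.sqrt (PB N) = PB N := Real.mul_self_sqrt hP0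
    set A : ℕ := ⌈Real.sqrt y * Real.sqrt (PB N)⌉₊ with hA
    have hX0 : 0 < Real.sqrt y * Real.sqrt (PB N) := by positivity
    have hX1 : 1 ≤ Real.sqrt y * Real.sqrt (PB N) := by
      calc (1 : ℝ) = 1 * 1 := (one_mul 1).symm
        _ ≤ Real.sqrt y * Real.sqrt (PB N) := mul_le_mul hs1 hr1 zero_le_one hss0
    have hA1 : 1 ≤ A := Nat.one_le_iff_ne_zero.2 (Nat.ceil_pos.2 hX0).ne'
    have hAy : A ≤ y := by
      rw [hA, Nat.ceil_le]
      calc Real.sqrt y * Real.sqrt (PB N) ≤ Real.sqrt y * Real.sqrt y :=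
            mul_le_mul_of_nonneg_left (Real.sqrt_le_sqrt h) hss0
        _ = y := hss
    have hAl : Real.sqrt y * Real.sqrt (PB N) ≤ A := Nat.le_ceil _
    have hAu : (A : ℝ) ≤ 2 * (Real.sqrt y * Real.sqrt (PB N)) := by
      have h1 : (A : ℝ) < Real.sqrt y * Real.sqrt (PB N) + 1 := Nat.ceil_lt_add_one hX0.le
      linarith
    refine (s2_hyp hc hL hA1 hAy).trans ?_
    have h1 : (y : ℝ) / A * PB N ≤ Real.sqrt y * Real.sqrt (PB N) := by
      have hA0 : (0 : ℝ) < A := lt_of_lt_of_le hX0 hAl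
      rw [div_mul_eq_mul_div, div_le_iff₀ hA0]
      calc (y : ℝ) * PB N = (Real.sqrt y * Real.sqrt y) * (Real.sqrt (PB N) * Real.sqrt (PB N)) := by
            rw [hss, hrr]
        _ = Real.sqrt y * Real.sqrt (PB N) * (Real.sqrt y * Real.sqrt (PB N)) := by ring
        _ ≤ Real.sqrt y * Real.sqrt (PB N) * A := mul_le_mul_of_nonneg_left hAl hX0.le
    have h3 : Real.sqrt y * Real.sqrt (PB N) ≤ Real.sqrt y * (Real.sqrt C0 * q) :=
      mul_le_mul_of_nonneg_left hsq hss0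
    calc 4 * ((y : ℝ) / A) * PB N + A = 4 * ((y : ℝ) / A * PB N) + A := by ring
      _ ≤ 6 * (Real.sqrt y * (Real.sqrt C0 * q)) := by linarith
      _ ≤ (6 + K) * (Real.sqrt y * (Real.sqrt C0 * q)) := by
          refine mul_le_mul_of_nonneg_right ?_ hunit
          linarith
      _ = (6 + K) * (Real.sqrt y * (Real.sqrt C0 * q)) * 1 := (mul_one _).symm
      _ ≤ (6 + K) * (Real.sqrt y * (Real.sqrt C0 * q)) * t :=
          mul_le_mul_of_nonneg_left ht1 (mul_nonneg (by linarith) hunit)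
      _ = (6 + K) * Real.sqrt C0 * Real.sqrt y * (q * t) := by ring
  · -- `y` small
    refine (s2_small h2 hc hL hy1).trans ?_
    have hly : Real.log y ≤ Real.log C0 + Real.log N := by
      rw [← Real.log_mul hC0.ne' hN0.ne']
      exact Real.log_le_log hy0 (h.le.trans hPN)
    have h3 : 2 + Real.log y + Real.log N + 2 * PB N / N ≤ K * t := by
      have h4 : (2 + Real.log C0 + 2 * C0) * 1 ≤ (2 + Real.log C0 + 2 * C0) * t :=
        mul_le_mul_of_nonneg_left ht1 (by positivity)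
      rw [hK]
      nlinarith
    have h5 : (y : ℝ) ≤ Real.sqrt y * (Real.sqrt C0 * q) := by
      calc (y : ℝ) = Real.sqrt y * Real.sqrt y := hss.symm
        _ ≤ Real.sqrt y * Real.sqrt (PB N) := mul_le_mul_of_nonneg_left (Real.sqrt_le_sqrt h.le) hss0
        _ ≤ Real.sqrt y * (Real.sqrt C0 * q) := mul_le_mul_of_nonneg_left hsq hss0
    calc (y : ℝ) * (2 + Real.log y + Real.log N + 2 * PB N / N) ≤ y * (K * t) :=
          mul_le_mul_of_nonneg_left h3 hy0.le
      _ ≤ Real.sqrt y * (Real.sqrt C0 * q) * (K * t) :=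
          mul_le_mul_of_nonneg_right h5 (mul_nonneg hK0 (by linarith))
      _ = K * (Real.sqrt y * (Real.sqrt C0 * q) * t) := by ring
      _ ≤ (6 + K) * (Real.sqrt y * (Real.sqrt C0 * q) * t) := by
          refine mul_le_mul_of_nonneg_right (by linarith) (mul_nonneg hunit (by linarith))
      _ = (6 + K) * Real.sqrt C0 * Real.sqrt y * (q * t) := by ring

theorem S2m (e : ℝ) (he : 0 < e) : ∃ C : ℝ, 0 < C ∧ ∀ (N : ℕ), 2 ≤ N → ∀ (c : ℕ → ℝ) (L : ℝ), RC N c →
    LV N c L → L ≤ C * (N : ℝ) ^ e ∧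
      ∀ y : ℕ, |SS c y - L * y| ≤ C * Real.sqrt y * (N : ℝ) ^ (1 / 4 + e) := by
  obtain ⟨C, hC, h⟩ := s2_main (min e (1 / 2)) (lt_min he (by norm_num)) (min_le_right _ _)
  refine ⟨C, hC, ?_⟩
  intro N h2 c L hc hL
  have hN1 : (1 : ℝ) ≤ N := by
    have : 1 ≤ N := by omega
    exact_mod_cast this
  obtain ⟨h3, h4⟩ := h N h2 c L hc hL
  refine ⟨h3.trans ?_, fun y => ?_⟩
  · exact mul_le_mul_of_nonneg_left (Real.rpow_le_rpow_of_exponent_le hN1 (min_le_left _ _)) hC.le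
  · rw [mul_comm L]
    refine (h4 y).trans ?_
    refine mul_le_mul_of_nonneg_left (Real.rpow_le_rpow_of_exponent_le hN1 ?_) (by positivity)
    linarith [min_le_left e (1 / 2 : ℝ)]

end Pool.Agent.Lib.PQ
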