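import Pool.Agent.Lib.MP_7b7e48_nt.PQ.S2m
import Pool.Agent.Lib.MP_7b7e48_nt.RG.A4a
import Pool.Agent.Lib.Sieve.Mertens

/-!
# S9m (60 minutes): the Chebyshev inequality

PROOF. Adapt `RG/A4b.lean` (`sig_lower`, same idea). Let `z = pw N c`, `LN = log N`; `RG.cheb_upper`. With `S2m` (`e = 1/(100k)`),
`y ≥ N^(1/2 + 3/(4k))/2`, `L ≥ N^(-eps k)`: `√y N^(1/4 + e) ≤ N^(-1/(10k)) L y` (`1/4 + e + eps k + 1/(10 k) ≤ 1/4 + 3/(8k)` minus a bit). So every
error term below is negligible: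
LEFT: `∑_{n ≤ y} rr n log n ≥ log (y/100) (SS y - SS (y/100)) ≥ 0.97 L y (log y - 5)`.
RIGHT: (a) `2 ∑_{p ≤ z} log p SS(y/p) ≤ 2 L y (log z + log 4) + 2 C √y N^(1/4+e) ∑_{p ≤ z} log p/√p`, `∑_{p ≤ z} log p / √p ≤ z log z`, `z ≤ N^(1/(100k))`;
(b) `p ∣ N, p > z`: at most `2/c` primes, each `≤ LN (L y/z + C √y N^(1/4+e))`; (c) `∑_p ∑_{j ≥ 2} j (j+1) log p * SS(y/p^j) ≤
C' L y + C √y N^(1/4+e) ∑_{p^j ≤ y, j ≥ 2} j (j+1) log p/p^(j/2) ≤ C' L y + C'' √y N^(1/4+e) LN²` (only `p^j ≤ y` contribute: `SS 0 = 0`);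
(d) `2 *` the sum we want. So the sum is `≥ (1/2) [0.97 (log y - 5) - 2 log z - C'''] L y ≥ (1/5) LN L y`: `log y ≥ LN/2`,
`log z ≤ LN/16000`.
-/

set_option autoImplicit false

open Finset
open Pool.Agent.Lib.GT (Rough pr V)
open Pool.Agent.Lib.MP_45349e_nt.LS (lam)
open Pool.Agent.Lib.RG (RC LV rr SS PB sig)

namespace Pool.Agent.Lib.PQ

private theorem s9_filter (z : ℕ) :
    (Finset.range (z + 1)).filter Nat.Prime = (Finset.Icc 1 z).filter Nat.Prime := by
  ext p
  simp only [Finset.mem_filter, Finset.mem_range, Finset.mem_Icc]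
  constructor
  · rintro ⟨h1, h2⟩; exact ⟨⟨h2.one_lt.le, by omega⟩, h2⟩
  · rintro ⟨⟨_, h1⟩, h2⟩; exact ⟨by omega, h2⟩

private theorem s9_mert (z : ℕ) (hz : 1 ≤ z) :
    ∑ p ∈ (Finset.range (z + 1)).filter Nat.Prime, Real.log p / p ≤ Real.log z + Real.log 4 := by
  rw [s9_filter]
  exact Pool.Agent.Lib.Sieve.sum_log_div_le z hz

private theorem s9_log_le_sqrt (x : ℝ) (hx : 0 ≤ x) : Real.log x ≤ 2 * Real.sqrt x := by
  have h := Real.log_le_rpow_div hx (show (0 : ℝ) < 1 / 2 by norm_num)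
  rw [← Real.sqrt_eq_rpow] at h
  linarith

private theorem s9_sqrt_sum (z : ℕ) :
    ∑ p ∈ (Finset.range (z + 1)).filter Nat.Prime, Real.log p / Real.sqrt p ≤ 2 * z := by
  rw [s9_filter]
  have h1 : ∑ p ∈ (Finset.Icc 1 z).filter Nat.Prime, Real.log p / Real.sqrt p ≤
      ∑ p ∈ (Finset.Icc 1 z).filter Nat.Prime, (2 : ℝ) := by
    refine Finset.sum_le_sum fun p hp => ?_
    have hp0 : (0 : ℝ) < p := by exact_mod_cast (Finset.mem_filter.mp hp).2.pos
    rw [div_le_iff₀ (Real.sqrt_pos.mpr hp0)]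
    exact s9_log_le_sqrt p hp0.le
  refine h1.trans ?_
  rw [Finset.sum_const, nsmul_eq_mul]
  have h2 : ((Finset.Icc 1 z).filter Nat.Prime).card ≤ z := by
    refine (Finset.card_filter_le _ _).trans ?_
    simp
  have h3 : (((Finset.Icc 1 z).filter Nat.Prime).card : ℝ) ≤ z := by exact_mod_cast h2
  linarith

private theorem s9_logN (N : ℕ) (hN : 1 ≤ N) :
    ∑ p ∈ N.primeFactors, Real.log p ≤ Real.log N := by
  have h1 : ∑ p ∈ N.primeFactors, Real.log p = Real.log (∏ p ∈ N.primeFactors, (p : ℝ)) := by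
    rw [Real.log_prod]
    intro p hp
    have := (Nat.prime_of_mem_primeFactors hp).pos
    positivity
  rw [h1]
  have h2 : ∏ p ∈ N.primeFactors, p ≤ N := Nat.le_of_dvd (by omega) (Nat.prod_primeFactors_dvd N)
  have h3 : (∏ p ∈ N.primeFactors, (p : ℝ)) ≤ N := by
    have h4 : ((∏ p ∈ N.primeFactors, p : ℕ) : ℝ) ≤ (N : ℝ) := Nat.cast_le.mpr h2
    rwa [Nat.cast_prod] at h4
  refine Real.log_le_log ?_ h3
  exact Finset.prod_pos fun p hp => by
    have := (Nat.prime_of_mem_primeFactors hp).pos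
    positivity

/-- the geometric sums -/
private theorem s9_geo : ∃ C : ℝ, 0 < C ∧ ∀ (y : ℕ) (x : ℝ), 0 ≤ x → x ^ 2 ≤ 1 / 2 →
    ∑ k ∈ Finset.Icc 2 y, (k : ℝ) * (k + 1) * x ^ k ≤ C * x ^ 2 := by
  set r : ℝ := Real.sqrt (1 / 2) with hr
  have hr0 : 0 < r := Real.sqrt_pos.mpr (by norm_num)
  have hr2 : r ^ 2 = 1 / 2 := Real.sq_sqrt (by norm_num)
  have hr1 : ‖r‖ < 1 := by
    rw [Real.norm_of_nonneg hr0.le]
    nlinarith
  have hs2 : Summable fun n : ℕ => (n : ℝ) ^ 2 * r ^ n := summable_pow_mul_geometric_of_norm_lt_one 2 hr1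
  have hs1 : Summable fun n : ℕ => (n : ℝ) ^ 1 * r ^ n := summable_pow_mul_geometric_of_norm_lt_one 1 hr1
  have hs : Summable fun n : ℕ => (n : ℝ) * (n + 1) * r ^ n := by
    refine (hs2.add hs1).congr fun n => ?_
    ring
  have hnn : ∀ n : ℕ, 0 ≤ (n : ℝ) * (n + 1) * r ^ n := fun n => by positivity
  refine ⟨2 * (∑' n : ℕ, (n : ℝ) * (n + 1) * r ^ n) + 1, ?_, ?_⟩
  · have : 0 ≤ ∑' n : ℕ, (n : ℝ) * (n + 1) * r ^ n := tsum_nonneg hnn
    linarith
  · intro y x hx hx2
    have hxr : x ≤ r := by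
      rw [hr]
      exact Real.le_sqrt_of_sq_le hx2
    have h1 : ∑ k ∈ Finset.Icc 2 y, (k : ℝ) * (k + 1) * x ^ k ≤
        ∑ k ∈ Finset.Icc 2 y, (2 * x ^ 2) * ((k : ℝ) * (k + 1) * r ^ k) := by
      refine Finset.sum_le_sum fun k hk => ?_
      obtain ⟨j, rfl⟩ := Nat.exists_eq_add_of_le (Finset.mem_Icc.mp hk).1
      have h2 : x ^ j ≤ r ^ j := pow_le_pow_left₀ hx hxr j
      have h3 : x ^ (2 + j) = x ^ 2 * x ^ j := by ring
      have h4 : r ^ (2 + j) = 1 / 2 * r ^ j := by rw [pow_add, hr2]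
      rw [h3, h4]
      have h5 : (2 * x ^ 2) * (((2 + j : ℕ) : ℝ) * (((2 + j : ℕ) : ℝ) + 1) * (1 / 2 * r ^ j)) =
          ((2 + j : ℕ) : ℝ) * (((2 + j : ℕ) : ℝ) + 1) * (x ^ 2 * r ^ j) := by ring
      rw [h5]
      gcongr
    refine h1.trans ?_
    rw [← Finset.mul_sum]
    have h6 : ∑ k ∈ Finset.Icc 2 y, (k : ℝ) * (k + 1) * r ^ k ≤ ∑' n : ℕ, (n : ℝ) * (n + 1) * r ^ n :=
      hs.sum_le_tsum _ fun n _ => hnn n
    have hx2' : 0 ≤ x ^ 2 := by positivity
    nlinarith [mul_le_mul_of_nonneg_left h6 hx2']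

/-- `∑ log p / p ^ 2` is bounded -/
private theorem s9_sq : ∃ C : ℝ, 0 < C ∧ ∀ y : ℕ,
    ∑ p ∈ (Finset.range (y + 1)).filter Nat.Prime, Real.log p / (p : ℝ) ^ 2 ≤ C := by
  have hs : Summable fun n : ℕ => 1 / (n : ℝ) ^ ((3 : ℝ) / 2) :=
    Real.summable_one_div_nat_rpow.mpr (by norm_num)
  have hnn : ∀ n : ℕ, 0 ≤ 1 / (n : ℝ) ^ ((3 : ℝ) / 2) := fun n => by positivity
  refine ⟨2 * (∑' n : ℕ, 1 / (n : ℝ) ^ ((3 : ℝ) / 2)) + 1, ?_, ?_⟩
  · have : 0 ≤ ∑' n : ℕ, 1 / (n : ℝ) ^ ((3 : ℝ) / 2) := tsum_nonneg hnn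
    linarith
  · intro y
    have h1 : ∑ p ∈ (Finset.range (y + 1)).filter Nat.Prime, Real.log p / (p : ℝ) ^ 2 ≤
        ∑ p ∈ (Finset.range (y + 1)).filter Nat.Prime, 2 * (1 / (p : ℝ) ^ ((3 : ℝ) / 2)) := by
      refine Finset.sum_le_sum fun p hp => ?_
      have hp0 : (0 : ℝ) < p := by exact_mod_cast (Finset.mem_filter.mp hp).2.pos
      have h2 := s9_log_le_sqrt p hp0.le
      have h3 : (p : ℝ) ^ 2 = (p : ℝ) ^ ((3 : ℝ) / 2) * Real.sqrt p := by
        rw [Real.sqrt_eq_rpow, ← Real.rpow_add hp0, ← Real.rpow_natCast]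
        norm_num
      have h4 : 0 < (p : ℝ) ^ ((3 : ℝ) / 2) := by positivity
      have h5 : 0 < Real.sqrt p := Real.sqrt_pos.mpr hp0
      rw [h3, div_le_iff₀ (by positivity)]
      have h6 : 2 * (1 / (p : ℝ) ^ ((3 : ℝ) / 2)) * ((p : ℝ) ^ ((3 : ℝ) / 2) * Real.sqrt p) =
          2 * Real.sqrt p := by field_simp
      rw [h6]
      exact h2
    refine h1.trans ?_
    rw [← Finset.mul_sum]
    have h6 : ∑ k ∈ (Finset.range (y + 1)).filter Nat.Prime, 1 / (k : ℝ) ^ ((3 : ℝ) / 2) ≤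
        ∑' n : ℕ, 1 / (n : ℝ) ^ ((3 : ℝ) / 2) :=
      hs.sum_le_tsum _ fun n _ => hnn n
    linarith

/-- the upper bound for `T` in terms of `L` -/
private theorem s9_upper : ∃ C3 C5 : ℝ, 0 < C3 ∧ 0 < C5 ∧ ∀ (N : ℕ), 1 ≤ N → ∀ (c : ℕ → ℝ) (L C E : ℝ),
    RC N c → 0 ≤ L → 0 ≤ C → 0 ≤ E → (∀ w : ℕ, SS c w ≤ w * L + C * Real.sqrt w * E) →
    ∀ z y : ℕ, 1 ≤ z → 1 ≤ y → Real.log N ≤ z →
    ∑ n ∈ Finset.Icc 1 y, rr c n * Real.log n ≤
      L * y * (2 * (Real.log z + Real.log 4) + 1 + C3 * C5) +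
      C * E * Real.sqrt y * (4 * z + Real.log N + C3 * (Real.log y + Real.log 4)) +
      2 * ∑ p ∈ (Finset.range (y + 1)).filter (fun p => p.Prime ∧ z < p ∧ c p = 1),
        Real.log p * SS c (y / p) := by
  obtain ⟨C3, hC3, hgeo⟩ := s9_geo
  obtain ⟨C5, hC5, hsq⟩ := s9_sq
  refine ⟨C3, C5, hC3, hC5, ?_⟩
  intro N hN c L C E hc hL hC hE hSS z y hz hy hNz
  refine (Pool.Agent.Lib.RG.cheb_upper N c hc z y).trans ?_
  have hy0 : (0 : ℝ) ≤ y := Nat.cast_nonneg y
  have hz0 : (0 : ℝ) < z := by exact_mod_cast hz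
  -- the general bound
  have hgen : ∀ m : ℕ, 1 ≤ m → SS c (y / m) ≤ L * y * (1 / m) + C * E * Real.sqrt y * (1 / Real.sqrt m) := by
    intro m hm
    have hm0 : (0 : ℝ) < m := by exact_mod_cast hm
    have h1 : ((y / m : ℕ) : ℝ) ≤ y / m := Nat.cast_div_le
    have h2 : Real.sqrt ((y / m : ℕ) : ℝ) ≤ Real.sqrt y / Real.sqrt m := by
      rw [← Real.sqrt_div hy0]
      exact Real.sqrt_le_sqrt h1
    calc SS c (y / m) ≤ ((y / m : ℕ) : ℝ) * L + C * Real.sqrt ((y / m : ℕ) : ℝ) * E := hSS _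
      _ ≤ (y / m) * L + C * (Real.sqrt y / Real.sqrt m) * E := by gcongr
      _ = _ := by ring
  -- first sum
  have hS1 : ∑ p ∈ (Finset.range (z + 1)).filter Nat.Prime, Real.log p * SS c (y / p) ≤
      L * y * (Real.log z + Real.log 4) + C * E * Real.sqrt y * (2 * z) := by
    calc ∑ p ∈ (Finset.range (z + 1)).filter Nat.Prime, Real.log p * SS c (y / p)
        ≤ ∑ p ∈ (Finset.range (z + 1)).filter Nat.Prime,
          (L * y * (Real.log p / p) + C * E * Real.sqrt y * (Real.log p / Real.sqrt p)) := by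
          refine Finset.sum_le_sum fun p hp => ?_
          have hp1 := (Finset.mem_filter.mp hp).2.one_lt
          have hp0 : (1 : ℝ) ≤ p := by exact_mod_cast hp1.le
          have h := mul_le_mul_of_nonneg_left (hgen p hp1.le) (Real.log_nonneg hp0)
          refine h.trans (le_of_eq ?_)
          ring
      _ = L * y * (∑ p ∈ (Finset.range (z + 1)).filter Nat.Prime, Real.log p / p) +
          C * E * Real.sqrt y * ∑ p ∈ (Finset.range (z + 1)).filter Nat.Prime, Real.log p / Real.sqrt p := by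
          rw [Finset.sum_add_distrib, Finset.mul_sum, Finset.mul_sum]
      _ ≤ _ := by
          have h1 := s9_mert z hz
          have h2 := s9_sqrt_sum z
          gcongr
  -- second sum
  have hS2 : ∑ p ∈ N.primeFactors.filter (fun p => z < p), Real.log p * SS c (y / p) ≤
      L * y * 1 + C * E * Real.sqrt y * Real.log N := by
    have hlogs : ∑ p ∈ N.primeFactors.filter (fun p => z < p), Real.log p ≤ Real.log N := by
      refine le_trans ?_ (s9_logN N hN)
      refine Finset.sum_le_sum_of_subset_of_nonneg (Finset.filter_subset _ _) fun p hp _ => ?_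
      have := (Nat.prime_of_mem_primeFactors hp).one_lt
      exact Real.log_nonneg (by exact_mod_cast this.le)
    calc ∑ p ∈ N.primeFactors.filter (fun p => z < p), Real.log p * SS c (y / p)
        ≤ ∑ p ∈ N.primeFactors.filter (fun p => z < p),
          (L * y * (1 / z) + C * E * Real.sqrt y) * Real.log p := by
          refine Finset.sum_le_sum fun p hp => ?_
          obtain ⟨hp', hzp⟩ := Finset.mem_filter.mp hp
          have hp1 := (Nat.prime_of_mem_primeFactors hp').one_lt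
          have hp0 : (1 : ℝ) ≤ p := by exact_mod_cast hp1.le
          have hlog := Real.log_nonneg hp0
          have h := mul_le_mul_of_nonneg_left (hgen p hp1.le) hlog
          refine h.trans ?_
          rw [mul_comm (Real.log p)]
          have h1 : (1 : ℝ) / p ≤ 1 / z := by
            have : (z : ℝ) ≤ p := by exact_mod_cast hzp.le
            exact one_div_le_one_div_of_le hz0 this
          have h2 : 1 / Real.sqrt p ≤ 1 := by
            rw [div_le_one (Real.sqrt_pos.mpr (by linarith))]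
            exact Real.one_le_sqrt.mpr hp0
          have h3 : C * E * Real.sqrt y * (1 / Real.sqrt p) ≤ C * E * Real.sqrt y := by
            have : 0 ≤ C * E * Real.sqrt y := by positivity
            nlinarith
          gcongr
      _ = (L * y * (1 / z) + C * E * Real.sqrt y) *
          ∑ p ∈ N.primeFactors.filter (fun p => z < p), Real.log p := by
          rw [Finset.mul_sum]
      _ ≤ (L * y * (1 / z) + C * E * Real.sqrt y) * Real.log N := by gcongr
      _ = L * y * (Real.log N / z) + C * E * Real.sqrt y * Real.log N := by ring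
      _ ≤ L * y * 1 + C * E * Real.sqrt y * Real.log N := by
          have h1 : Real.log N / z ≤ 1 := by
            rw [div_le_one hz0]; exact hNz
          gcongr
  -- third sum
  have hS3 : ∑ p ∈ (Finset.range (y + 1)).filter Nat.Prime, ∑ k ∈ Finset.Icc 2 y,
        (k : ℝ) * (k + 1) * Real.log p * SS c (y / p ^ k) ≤
      L * y * (C3 * C5) + C * E * Real.sqrt y * (C3 * (Real.log y + Real.log 4)) := by
    calc ∑ p ∈ (Finset.range (y + 1)).filter Nat.Prime, ∑ k ∈ Finset.Icc 2 y,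
        (k : ℝ) * (k + 1) * Real.log p * SS c (y / p ^ k)
        ≤ ∑ p ∈ (Finset.range (y + 1)).filter Nat.Prime,
          (L * y * C3 * (Real.log p / (p : ℝ) ^ 2) + C * E * Real.sqrt y * C3 * (Real.log p / p)) := by
          refine Finset.sum_le_sum fun p hp => ?_
          have hp1 := (Finset.mem_filter.mp hp).2.two_le
          have hp2 : (2 : ℝ) ≤ p := by exact_mod_cast hp1
          have hp0 : (0 : ℝ) < p := by linarith
          have hlog := Real.log_nonneg (by linarith : (1 : ℝ) ≤ p)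
          have hsp : Real.sqrt p ^ 2 = p := Real.sq_sqrt hp0.le
          have hsp0 : 0 < Real.sqrt p := Real.sqrt_pos.mpr hp0
          have g1 := hgeo y (1 / (p : ℝ)) (by positivity) (by
            rw [div_pow, one_pow, div_le_div_iff₀ (by positivity) (by norm_num)]
            nlinarith)
          have g2 := hgeo y (1 / Real.sqrt p) (by positivity) (by
            rw [div_pow, one_pow, hsp, div_le_div_iff₀ (by positivity) (by norm_num)]
            linarith)
          rw [div_pow, one_pow, hsp] at g2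
          rw [div_pow, one_pow] at g1
          calc ∑ k ∈ Finset.Icc 2 y, (k : ℝ) * (k + 1) * Real.log p * SS c (y / p ^ k)
              ≤ ∑ k ∈ Finset.Icc 2 y, (L * y * Real.log p * ((k : ℝ) * (k + 1) * (1 / (p : ℝ)) ^ k) +
                C * E * Real.sqrt y * Real.log p * ((k : ℝ) * (k + 1) * (1 / Real.sqrt p) ^ k)) := by
                refine Finset.sum_le_sum fun k _ => ?_
                have hpk : 1 ≤ p ^ k := Nat.one_le_pow _ _ (by omega)
                have h0 : 0 ≤ (k : ℝ) * (k + 1) * Real.log p := by positivity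
                have h := mul_le_mul_of_nonneg_left (hgen (p ^ k) hpk) h0
                refine h.trans (le_of_eq ?_)
                have h1 : Real.sqrt (((p ^ k : ℕ) : ℝ)) = Real.sqrt p ^ k := by
                  push_cast
                  rw [Real.sqrt_eq_iff_mul_self_eq (by positivity) (by positivity), ← mul_pow,
                    Real.mul_self_sqrt hp0.le]
                rw [h1]
                push_cast
                rw [one_div_pow, one_div_pow]
                ring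
            _ = L * y * Real.log p * (∑ k ∈ Finset.Icc 2 y, (k : ℝ) * (k + 1) * (1 / (p : ℝ)) ^ k) +
                C * E * Real.sqrt y * Real.log p *
                  ∑ k ∈ Finset.Icc 2 y, (k : ℝ) * (k + 1) * (1 / Real.sqrt p) ^ k := by
                rw [Finset.sum_add_distrib, Finset.mul_sum, Finset.mul_sum]
            _ ≤ L * y * Real.log p * (C3 * (1 / (p : ℝ) ^ 2)) +
                C * E * Real.sqrt y * Real.log p * (C3 * (1 / p)) := by gcongr
            _ = _ := by ring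
      _ = L * y * C3 * (∑ p ∈ (Finset.range (y + 1)).filter Nat.Prime, Real.log p / (p : ℝ) ^ 2) +
          C * E * Real.sqrt y * C3 *
            ∑ p ∈ (Finset.range (y + 1)).filter Nat.Prime, Real.log p / p := by
          rw [Finset.sum_add_distrib, Finset.mul_sum, Finset.mul_sum]
      _ ≤ L * y * C3 * C5 + C * E * Real.sqrt y * C3 * (Real.log y + Real.log 4) := by
          have h1 := hsq y
          have h2 := s9_mert y hy
          gcongr
      _ = _ := by ring
  linarith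

/-- the lower bound -/
private theorem s9_lower (N : ℕ) (c : ℕ → ℝ) (L C E : ℝ) (hc : RC N c) (hL : 0 ≤ L) (hC : 0 ≤ C)
    (hE : 0 ≤ E) (hSS : ∀ w : ℕ, |SS c w - w * L| ≤ C * Real.sqrt w * E) (y : ℕ) (hy : 100 ≤ y) :
    (Real.log y - Real.log 100) * (99 / 100 * (y * L) - 2 * (C * Real.sqrt y * E)) ≤
      ∑ n ∈ Finset.Icc 1 y, rr c n * Real.log n := by
  have hy1 : (100 : ℝ) ≤ y := by exact_mod_cast hy
  have hlog : 0 ≤ Real.log y - Real.log 100 := by
    have := Real.log_le_log (by norm_num : (0 : ℝ) < 100) hy1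
    linarith
  set s : ℕ := y / 100 with hs
  have hsy : s ≤ y := Nat.div_le_self y 100
  have hsr : (s : ℝ) ≤ y / 100 := by
    have := @Nat.cast_div_le ℝ _ _ _ y 100
    exact_mod_cast this
  have hsplit : SS c y - SS c s = ∑ n ∈ Finset.Ioc s y, rr c n := by
    unfold SS
    have h : Finset.Icc 1 y = Finset.Icc 1 s ∪ Finset.Ioc s y := by
      ext n
      simp only [Finset.mem_union, Finset.mem_Icc, Finset.mem_Ioc]
      omega
    rw [h, Finset.sum_union]
    · ring
    · rw [Finset.disjoint_left]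
      intro n h1 h2
      rw [Finset.mem_Icc] at h1
      rw [Finset.mem_Ioc] at h2
      omega
  have h1 : (Real.log y - Real.log 100) * (SS c y - SS c s) ≤ ∑ n ∈ Finset.Icc 1 y, rr c n * Real.log n := by
    rw [hsplit, Finset.mul_sum]
    calc ∑ n ∈ Finset.Ioc s y, (Real.log y - Real.log 100) * rr c n
        ≤ ∑ n ∈ Finset.Ioc s y, rr c n * Real.log n := by
          refine Finset.sum_le_sum fun n hn => ?_
          have hn1 := (Finset.mem_Ioc.mp hn).1
          have hr := Pool.Agent.Lib.RG.rr_nonneg N c hc n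
          have hn2 : y ≤ n * 100 := by omega
          have hn3 : Real.log y ≤ Real.log n + Real.log 100 := by
            have hn0 : (0 : ℝ) < n := by
              have : 0 < n := by omega
              exact_mod_cast this
            rw [← Real.log_mul hn0.ne' (by norm_num)]
            exact Real.log_le_log (by linarith) (by exact_mod_cast hn2)
          rw [mul_comm]
          exact mul_le_mul_of_nonneg_left (by linarith) hr
      _ ≤ ∑ n ∈ Finset.Icc 1 y, rr c n * Real.log n := by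
          refine Finset.sum_le_sum_of_subset_of_nonneg ?_ fun n hn _ => ?_
          · intro n hn
            rw [Finset.mem_Ioc] at hn
            rw [Finset.mem_Icc]
            omega
          · have := (Finset.mem_Icc.mp hn).1
            exact mul_nonneg (Pool.Agent.Lib.RG.rr_nonneg N c hc n) (Real.log_nonneg (by exact_mod_cast this))
  refine le_trans ?_ h1
  have h2 := (abs_le.mp (hSS y)).1
  have h3 := (abs_le.mp (hSS s)).2
  have h4 : Real.sqrt s ≤ Real.sqrt y := Real.sqrt_le_sqrt (by exact_mod_cast hsy)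
  have h5 : C * Real.sqrt s * E ≤ C * Real.sqrt y * E := by gcongr
  have h6 : (s : ℝ) * L ≤ y / 100 * L := by gcongr
  refine mul_le_mul_of_nonneg_left ?_ hlog
  linarith

theorem S9m (k : ℕ) (hk : 160 ≤ k) (c : ℝ) (hc : 0 < c) (hc1 : c ≤ 1 / (100 * k)) : ∃ N0 : ℕ, ∀ N : ℕ,
    N0 ≤ N → ∀ (c₀ : ℕ → ℝ) (L : ℝ), Sit k N c₀ L → ∀ y : ℕ, pw N (1 / 2 + 3 / (4 * k)) ≤ y → y ≤ B1 k N →
    1 / 5 * (Real.log N * (L * y)) ≤
      ∑ q ∈ (Finset.range (y + 1)).filter (fun q => q.Prime ∧ pw N c < q ∧ c₀ q = 1),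
        Real.log q * SS c₀ (y / q) := by
  classical
  have hk0 : (0 : ℝ) < k := by
    have : 0 < k := by omega
    exact_mod_cast this
  have hk1 : (160 : ℝ) ≤ k := by exact_mod_cast hk
  obtain ⟨C, hC, hS2⟩ := S2m (1 / (100 * k)) (by positivity)
  obtain ⟨C3, C5, hC3, hC5, hup⟩ := s9_upper
  set C6 : ℝ := 4 + 100 * k + C3 * (2 * (100 * k) + Real.log 4) with hC6
  have hlog4 : 0 < Real.log 4 := Real.log_pos (by norm_num)
  have hlog2 : 0 < Real.log 2 := Real.log_pos (by norm_num)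
  have hlog100 : 0 < Real.log 100 := Real.log_pos (by norm_num)
  have hC60 : 0 < C6 := by positivity
  have hprod : 0 < C3 * C5 := by positivity
  -- asymptotic conditions
  have hcast : Filter.Tendsto (fun N : ℕ => (N : ℝ)) Filter.atTop Filter.atTop := tendsto_natCast_atTop_atTop
  have e1 : ∀ᶠ N : ℕ in Filter.atTop, (200 : ℝ) ≤ (N : ℝ) ^ ((1 : ℝ) / 2) :=
    ((tendsto_rpow_atTop (by norm_num)).comp hcast).eventually_ge_atTop 200
  have e2 : ∀ᶠ N : ℕ in Filter.atTop, (2 * C) * 200 ≤ (N : ℝ) ^ (1 / (4 * k) : ℝ) :=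
    ((tendsto_rpow_atTop (by positivity)).comp hcast).eventually_ge_atTop _
  have e3 : ∀ᶠ N : ℕ in Filter.atTop, 2 * C * C6 ≤ (N : ℝ) ^ (1 / (5 * k) : ℝ) :=
    ((tendsto_rpow_atTop (by positivity)).comp hcast).eventually_ge_atTop _
  have e4 : ∀ᶠ N : ℕ in Filter.atTop,
      100 * (2 * Real.log 4 + 1 + C3 * C5 + 1 + Real.log 2 + Real.log 100) ≤ Real.log N :=
    (Real.tendsto_log_atTop.comp hcast).eventually_ge_atTop _
  have e5 : ∀ᶠ N : ℕ in Filter.atTop, 2 ≤ N := Filter.eventually_ge_atTop 2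
  have e6 : ∀ᶠ N : ℕ in Filter.atTop, Real.log N + 1 ≤ (N : ℝ) ^ c := by
    have h1 : ∀ᶠ x : ℝ in Filter.atTop, Real.log x + 1 ≤ x ^ c := by
      have h2 := (isLittleO_log_rpow_atTop hc).bound (show (0 : ℝ) < 1 / 2 by norm_num)
      filter_upwards [h2, Filter.eventually_ge_atTop (1 : ℝ),
        (tendsto_rpow_atTop hc).eventually_ge_atTop 2] with x hx hx1 hx2
      rw [Real.norm_of_nonneg (Real.log_nonneg hx1), Real.norm_of_nonneg (by positivity)] at hx
      linarith
    exact hcast.eventually h1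
  obtain ⟨N0, hN0⟩ := Filter.eventually_atTop.mp (e1.and (e2.and (e3.and (e4.and (e5.and e6)))))
  refine ⟨N0, ?_⟩
  intro N hN c₀ L hsit y hylow hyup
  obtain ⟨f1, f2, f3, f4, f5, f6⟩ := hN0 N hN
  have hN1 : (1 : ℝ) ≤ N := by exact_mod_cast (by omega : 1 ≤ N)
  have hNpos : (0 : ℝ) < N := by linarith
  have hRC := hsit.rc
  have hLc := hsit.lv
  have hLκ := hsit.sieg
  have hL0 : 0 < L := lt_of_lt_of_le (by positivity) hLκ
  set E : ℝ := (N : ℝ) ^ (1 / 4 + 1 / (100 * k) : ℝ) with hE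
  have hE0 : 0 < E := by positivity
  have hS : ∀ w : ℕ, |SS c₀ w - w * L| ≤ C * Real.sqrt w * E := by
    intro w
    have h := (hS2 N f5 c₀ L hRC hLc).2 w
    rwa [mul_comm L] at h
  -- y
  set Y : ℝ := (N : ℝ) ^ (1 / 2 + 3 / (4 * k) : ℝ) with hY
  have hY0 : 0 < Y := by positivity
  have hYbig : (200 : ℝ) ≤ Y := by
    refine f1.trans ?_
    rw [hY]
    refine Real.rpow_le_rpow_of_exponent_le hN1 ?_
    have : (0 : ℝ) < 3 / (4 * k) := by positivity
    linarith
  have hYy : Y / 2 ≤ y := by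
    have h1 : Y < ((⌊Y⌋₊ : ℕ) : ℝ) + 1 := Nat.lt_floor_add_one Y
    have h2 : ((⌊Y⌋₊ : ℕ) : ℝ) ≤ y := by
      have : ⌊Y⌋₊ ≤ y := hylow
      exact_mod_cast this
    linarith
  have hy100 : (100 : ℝ) ≤ y := by linarith
  have hy100' : 100 ≤ y := by exact_mod_cast hy100
  have hyN : (y : ℝ) ≤ (N : ℝ) ^ (1 + 8 / k : ℝ) := by
    have h1 : (y : ℝ) ≤ ((⌊(N : ℝ) ^ (1 + 8 / k : ℝ)⌋₊ : ℕ) : ℝ) := by exact_mod_cast hyup
    exact h1.trans (Nat.floor_le (by positivity))
  -- logs
  have hlogN : 100 ≤ Real.log N := by linarith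
  set z : ℕ := pw N c with hz
  have hzlow : Real.log N ≤ z := by
    have h1 : (N : ℝ) ^ c < ((⌊(N : ℝ) ^ c⌋₊ : ℕ) : ℝ) + 1 := Nat.lt_floor_add_one _
    have h2 : ((⌊(N : ℝ) ^ c⌋₊ : ℕ) : ℝ) = z := rfl
    rw [h2] at h1
    linarith
  have hzup : (z : ℝ) ≤ (N : ℝ) ^ c := Nat.floor_le (by positivity)
  have hzup2 : (z : ℝ) ≤ (N : ℝ) ^ (1 / (100 * k) : ℝ) :=
    hzup.trans (Real.rpow_le_rpow_of_exponent_le hN1 hc1)
  have hz0 : (1 : ℝ) ≤ z := by linarith
  have hzz : 1 ≤ z := by exact_mod_cast hz0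
  have hk100 : 1 / (100 * (k : ℝ)) ≤ 1 / 16000 := by
    refine one_div_le_one_div_of_le (by norm_num) ?_
    linarith
  have hlogz : Real.log z ≤ 1 / 16000 * Real.log N := by
    have h := Real.log_le_log (by linarith) hzup2
    rw [Real.log_rpow hNpos] at h
    refine h.trans ?_
    exact mul_le_mul_of_nonneg_right hk100 (by linarith)
  have hlogy1 : Real.log y ≤ 2 * Real.log N := by
    have h := Real.log_le_log (by linarith) hyN
    rw [Real.log_rpow hNpos] at h
    refine h.trans ?_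
    refine mul_le_mul_of_nonneg_right ?_ (by linarith)
    have h2 : 8 / (k : ℝ) ≤ 1 := by
      rw [div_le_one hk0]
      linarith
    linarith
  have hlogy2 : 1 / 2 * Real.log N - Real.log 2 ≤ Real.log y := by
    have h := Real.log_le_log (by positivity : (0 : ℝ) < Y / 2) hYy
    rw [Real.log_div hY0.ne' (by norm_num), hY, Real.log_rpow hNpos] at h
    have h2 : 1 / 2 * Real.log N ≤ (1 / 2 + 3 / (4 * k) : ℝ) * Real.log N := by
      refine mul_le_mul_of_nonneg_right ?_ (by linarith)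
      have : (0 : ℝ) < 3 / (4 * k) := by positivity
      linarith
    linarith
  have hU := hup N (by omega) c₀ L C E hRC hL0.le hC.le hE0.le
    (fun w => by linarith [(abs_le.mp (hS w)).2]) z y hzz (by omega) hzlow
  have hD := s9_lower N c₀ L C E hRC hL0.le hC.le hE0.le hS y hy100'
  have hmain := hD.trans hU
  set T : ℝ := ∑ q ∈ (Finset.range (y + 1)).filter (fun q => q.Prime ∧ z < q ∧ c₀ q = 1),
      Real.log q * SS c₀ (y / q) with hT
  -- s = √y
  set s : ℝ := Real.sqrt y with hs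
  have hs2 : s ^ 2 = y := Real.sq_sqrt (by linarith)
  have hs0 : 0 < s := Real.sqrt_pos.mpr (by linarith)
  have hsN : (N : ℝ) ^ (1 / 4 + 3 / (8 * k) : ℝ) / 2 ≤ s := by
    refine Real.le_sqrt_of_sq_le ?_
    have h1 : ((N : ℝ) ^ (1 / 4 + 3 / (8 * k) : ℝ) / 2) ^ 2 = Y / 4 := by
      rw [div_pow, ← Real.rpow_natCast, ← Real.rpow_mul hNpos.le, hY]
      congr 1
      · congr 1
        push_cast
        field_simp
        ring
      · norm_num
    rw [h1]
    linarith
  -- the exponent of `L * s`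
  have hepsk : eps k ≤ 1 / (100 * k) := by
    unfold eps tau
    rw [div_div]
    refine one_div_le_one_div_of_le (by positivity) ?_
    nlinarith
  have hLs : 1 / 2 * (E * (N : ℝ) ^ (1 / (4 * k) : ℝ)) ≤ L * s := by
    have h1 : E * (N : ℝ) ^ (1 / (4 * k) : ℝ) ≤
        (N : ℝ) ^ (-eps k) * (N : ℝ) ^ (1 / 4 + 3 / (8 * k) : ℝ) := by
      rw [hE, ← Real.rpow_add hNpos, ← Real.rpow_add hNpos]
      refine Real.rpow_le_rpow_of_exponent_le hN1 ?_
      have h2 : 1 / (4 * (k : ℝ)) = 25 * (1 / (100 * k)) := by field_simp; norm_num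
      have h3 : 3 / (8 * (k : ℝ)) = 75 / 2 * (1 / (100 * k)) := by field_simp; norm_num
      have h4 : 0 < 1 / (100 * (k : ℝ)) := by positivity
      rw [h2, h3]
      linarith
    calc 1 / 2 * (E * (N : ℝ) ^ (1 / (4 * k) : ℝ))
        ≤ 1 / 2 * ((N : ℝ) ^ (-eps k) * (N : ℝ) ^ (1 / 4 + 3 / (8 * k) : ℝ)) := by gcongr
      _ = ((N : ℝ) ^ (-eps k)) * ((N : ℝ) ^ (1 / 4 + 3 / (8 * k) : ℝ) / 2) := by ring
      _ ≤ L * s := by gcongr
  have hη : C * E * 200 ≤ L * s := by
    calc C * E * 200 = 1 / 2 * (E * (2 * C * 200)) := by ring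
      _ ≤ 1 / 2 * (E * (N : ℝ) ^ (1 / (4 * k) : ℝ)) := by gcongr
      _ ≤ L * s := hLs
  have hB : 4 * (z : ℝ) + Real.log N + C3 * (Real.log y + Real.log 4) ≤
      C6 * (N : ℝ) ^ (1 / (100 * k) : ℝ) := by
    have h1 : Real.log N ≤ 100 * k * (N : ℝ) ^ (1 / (100 * k) : ℝ) := by
      have h := Real.log_le_rpow_div hNpos.le (show (0 : ℝ) < 1 / (100 * k) by positivity)
      refine h.trans (le_of_eq ?_)
      field_simp
    have h2 : (1 : ℝ) ≤ (N : ℝ) ^ (1 / (100 * k) : ℝ) := Real.one_le_rpow hN1 (by positivity)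
    have h3 : Real.log y + Real.log 4 ≤ (2 * (100 * k) + Real.log 4) * (N : ℝ) ^ (1 / (100 * k) : ℝ) := by
      have h5 := mul_le_mul_of_nonneg_left h2 hlog4.le
      linarith
    have h4 := mul_le_mul_of_nonneg_left h3 hC3.le
    rw [hC6]
    linarith
  have hCB : C * E * (4 * (z : ℝ) + Real.log N + C3 * (Real.log y + Real.log 4)) ≤ L * s := by
    have h1 : (N : ℝ) ^ (1 / (100 * k) : ℝ) * (N : ℝ) ^ (1 / (5 * k) : ℝ) ≤ (N : ℝ) ^ (1 / (4 * k) : ℝ) := by
      rw [← Real.rpow_add hNpos]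
      refine Real.rpow_le_rpow_of_exponent_le hN1 ?_
      have h2 : 1 / (4 * (k : ℝ)) = 25 * (1 / (100 * k)) := by field_simp; norm_num
      have h3 : 1 / (5 * (k : ℝ)) = 20 * (1 / (100 * k)) := by field_simp; norm_num
      have h4 : 0 < 1 / (100 * (k : ℝ)) := by positivity
      rw [h2, h3]
      linarith
    calc C * E * (4 * (z : ℝ) + Real.log N + C3 * (Real.log y + Real.log 4))
        ≤ C * E * (C6 * (N : ℝ) ^ (1 / (100 * k) : ℝ)) := by gcongr
      _ = 1 / 2 * (E * ((N : ℝ) ^ (1 / (100 * k) : ℝ) * (2 * C * C6))) := by ring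
      _ ≤ 1 / 2 * (E * ((N : ℝ) ^ (1 / (100 * k) : ℝ) * (N : ℝ) ^ (1 / (5 * k) : ℝ))) := by gcongr
      _ ≤ 1 / 2 * (E * (N : ℝ) ^ (1 / (4 * k) : ℝ)) := by gcongr
      _ ≤ L * s := hLs
  have hlogy0 : 0 ≤ Real.log y - Real.log 100 := by
    have := Real.log_le_log (by norm_num : (0 : ℝ) < 100) hy100
    linarith
  have hlow : (Real.log y - Real.log 100) * (98 / 100 * (L * y)) ≤
      (Real.log y - Real.log 100) * (99 / 100 * (y * L) - 2 * (C * s * E)) := by
    refine mul_le_mul_of_nonneg_left ?_ hlogy0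
    rw [← hs2]
    have h1 : 200 * (C * s * E) ≤ L * s ^ 2 := by
      calc 200 * (C * s * E) = C * E * 200 * s := by ring
        _ ≤ L * s * s := mul_le_mul_of_nonneg_right hη hs0.le
        _ = L * s ^ 2 := by ring
    linarith
  have hupp : L * y * (2 * (Real.log z + Real.log 4) + 1 + C3 * C5) +
      C * E * s * (4 * z + Real.log N + C3 * (Real.log y + Real.log 4)) ≤
      (L * y) * (2 / 16000 * Real.log N + 2 * Real.log 4 + 1 + C3 * C5 + 1) := by
    have h1 : C * E * s * (4 * z + Real.log N + C3 * (Real.log y + Real.log 4)) ≤ L * y := by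
      calc C * E * s * (4 * z + Real.log N + C3 * (Real.log y + Real.log 4))
          = C * E * (4 * (z : ℝ) + Real.log N + C3 * (Real.log y + Real.log 4)) * s := by ring
        _ ≤ L * s * s := mul_le_mul_of_nonneg_right hCB hs0.le
        _ = L * y := by rw [← hs2]; ring
    have h2 : L * y * (2 * (Real.log z + Real.log 4) + 1 + C3 * C5) ≤
        L * y * (2 / 16000 * Real.log N + 2 * Real.log 4 + 1 + C3 * C5) := by
      refine mul_le_mul_of_nonneg_left ?_ (by positivity)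
      linarith
    refine (add_le_add h2 h1).trans (le_of_eq ?_)
    ring
  have hLy : 0 < L * y := by
    have : (0 : ℝ) < y := by linarith
    positivity
  have h1 : (Real.log y - Real.log 100) * (98 / 100 * (L * y)) ≤
      (L * y) * (2 / 16000 * Real.log N + 2 * Real.log 4 + 1 + C3 * C5 + 1) + 2 * T := by
    refine hlow.trans (hmain.trans ?_)
    linarith
  have h2 : 1 / 5 * Real.log N * 2 ≤ (Real.log y - Real.log 100) * (98 / 100) -
      (2 / 16000 * Real.log N + 2 * Real.log 4 + 1 + C3 * C5 + 1) := by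
    linarith
  have h3 := mul_le_mul_of_nonneg_right h2 hLy.le
  have h4 : 2 * (1 / 5 * (Real.log N * (L * y))) ≤ 2 * T := by
    calc 2 * (1 / 5 * (Real.log N * (L * y))) = 1 / 5 * Real.log N * 2 * (L * y) := by ring
      _ ≤ _ := h3
      _ = (Real.log y - Real.log 100) * (98 / 100 * (L * y)) -
        (L * y) * (2 / 16000 * Real.log N + 2 * Real.log 4 + 1 + C3 * C5 + 1) := by ring
      _ ≤ 2 * T := by linarith
  linarith

end Pool.Agent.Lib.PQ
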