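import Pool.Agent.Lib.MP_7b7e48_nt.PQ.Defs

/-!
# A1 (20 minutes): the dual Bessel inequality

PROOF. Put `T χ = ∑_{n ∈ R} w n * f n * χ n`, `S = ∑_X ‖T χ‖²`, `a χ = conj (T χ)`. Then
`S = ∑_n w n * f n * (∑_χ a χ * χ n)`, so by Cauchy-Schwarz with the weights `w n ≥ 0`
`S² ≤ (∑ w n ‖f n‖²) * (∑ w n ‖∑_χ a χ * χ n‖²) ≤ (∑ w n ‖f n‖²) * (1 + e) * S` (`hB`). If `S > 0` divide
by `S`. `A1_inv`: `χ⁻¹ n = conj (χ n)` (`MulChar.star_apply`, `MulChar.star_eq_inv` or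
`MulChar.inv_apply_eq_inv'`), so the norm is that for `conj (f n)` and `χ`.
-/

set_option autoImplicit false

open Finset
open Pool.Agent.Lib.GT (Rough pr V)
open Pool.Agent.Lib.MP_45349e_nt.LS (lam)
open Pool.Agent.Lib.RG (RC LV rr SS PB sig)

namespace Pool.Agent.Lib.PQ

theorem A1 {N : ℕ} [NeZero N] {R : Finset ℕ} {w : ℕ → ℝ} {e : ℝ} {m : ℕ} (hw : Wt N R w) (he : 0 ≤ e)
    (hB : Bes N R w e m) (X : Finset (DirichletCharacter ℂ N)) (hX : X.card ≤ m) (f : ℕ → ℂ) :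
    ∑ χ ∈ X, ‖∑ n ∈ R, (w n : ℂ) * (f n * χ (n : ZMod N))‖ ^ 2 ≤
      (1 + e) * ∑ n ∈ R, w n * ‖f n‖ ^ 2 := by
  obtain ⟨T, hT⟩ : ∃ T : DirichletCharacter ℂ N → ℂ,
      T = fun χ => ∑ n ∈ R, (w n : ℂ) * (f n * χ (n : ZMod N)) := ⟨_, rfl⟩
  have hTχ : ∀ χ : DirichletCharacter ℂ N,
      ∑ n ∈ R, (w n : ℂ) * (f n * χ (n : ZMod N)) = T χ := fun χ => by rw [hT]
  simp only [hTχ]
  obtain ⟨S, hS⟩ : ∃ S : ℝ, S = ∑ χ ∈ X, ‖T χ‖ ^ 2 := ⟨_, rfl⟩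
  obtain ⟨F, hF⟩ : ∃ F : ℝ, F = ∑ n ∈ R, w n * ‖f n‖ ^ 2 := ⟨_, rfl⟩
  rw [← hS, ← hF]
  have hF0 : 0 ≤ F := by
    rw [hF]
    exact Finset.sum_nonneg fun n hn => mul_nonneg (hw.nonneg n hn) (by positivity)
  have hS0 : 0 ≤ S := by
    rw [hS]
    exact Finset.sum_nonneg fun χ _ => by positivity
  -- the sum over the characters
  obtain ⟨G, hG⟩ : ∃ G : ℕ → ℂ,
      G = fun n : ℕ => ∑ χ ∈ X, (starRingEnd ℂ) (T χ) * χ (n : ZMod N) := ⟨_, rfl⟩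
  have hSG : ((S : ℝ) : ℂ) = ∑ n ∈ R, (w n : ℂ) * f n * G n := by
    rw [hS, hG]
    push_cast
    simp only [Finset.mul_sum]
    rw [Finset.sum_comm]
    refine Finset.sum_congr rfl fun χ _ => ?_
    have h1 : ((‖T χ‖ : ℝ) : ℂ) ^ 2 = (starRingEnd ℂ) (T χ) * T χ := by
      rw [← Complex.conj_mul']
    rw [h1]
    conv_lhs => rw [hT]
    simp only
    rw [Finset.mul_sum]
    refine Finset.sum_congr rfl fun n _ => ?_
    rw [hT]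
    ring
  have hle : S ≤ ∑ n ∈ R, w n * (‖f n‖ * ‖G n‖) := by
    have h1 : S = ‖∑ n ∈ R, (w n : ℂ) * f n * G n‖ := by
      rw [← hSG, Complex.norm_real, Real.norm_of_nonneg hS0]
    rw [h1]
    refine (norm_sum_le _ _).trans (le_of_eq ?_)
    refine Finset.sum_congr rfl fun n hn => ?_
    rw [norm_mul, norm_mul, Complex.norm_real, Real.norm_of_nonneg (hw.nonneg n hn), mul_assoc]
  have hCS : (∑ n ∈ R, w n * (‖f n‖ * ‖G n‖)) ^ 2 ≤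
      (∑ n ∈ R, w n * ‖f n‖ ^ 2) * ∑ n ∈ R, w n * ‖G n‖ ^ 2 := by
    refine Finset.sum_sq_le_sum_mul_sum_of_sq_le_mul R ?_ ?_ ?_
    · exact fun n hn => mul_nonneg (hw.nonneg n hn) (by positivity)
    · exact fun n hn => mul_nonneg (hw.nonneg n hn) (by positivity)
    · intro n _
      exact le_of_eq (by ring)
  have hBG : ∑ n ∈ R, w n * ‖G n‖ ^ 2 ≤ (1 + e) * S := by
    have h1 := hB X hX (fun χ => (starRingEnd ℂ) (T χ))
    rw [hG, hS]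
    simp only [RCLike.norm_conj] at h1
    exact h1
  have h2 : S ^ 2 ≤ F * ((1 + e) * S) := by
    calc S ^ 2 ≤ (∑ n ∈ R, w n * (‖f n‖ * ‖G n‖)) ^ 2 := pow_le_pow_left₀ hS0 hle 2
      _ ≤ F * ∑ n ∈ R, w n * ‖G n‖ ^ 2 := by
          rw [hF]
          exact hCS
      _ ≤ F * ((1 + e) * S) := mul_le_mul_of_nonneg_left hBG hF0
  rcases hS0.eq_or_lt with h0 | hpos
  · rw [← h0]
    exact mul_nonneg (by linarith) hF0
  · have h3 : S * S ≤ ((1 + e) * F) * S := by nlinarith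
    exact le_of_mul_le_mul_right h3 hpos

theorem A1_inv {N : ℕ} [NeZero N] {R : Finset ℕ} {w : ℕ → ℝ} {e : ℝ} {m : ℕ} (hw : Wt N R w) (he : 0 ≤ e)
    (hB : Bes N R w e m) (X : Finset (DirichletCharacter ℂ N)) (hX : X.card ≤ m) (f : ℕ → ℂ) :
    ∑ χ ∈ X, ‖∑ n ∈ R, (w n : ℂ) * (f n * χ⁻¹ (n : ZMod N))‖ ^ 2 ≤
      (1 + e) * ∑ n ∈ R, w n * ‖f n‖ ^ 2 := by
  have h1 := A1 hw he hB X hX (fun n => (starRingEnd ℂ) (f n))
  simp only [RCLike.norm_conj] at h1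
  refine le_trans (le_of_eq ?_) h1
  refine Finset.sum_congr rfl fun χ _ => ?_
  congr 1
  rw [← RCLike.norm_conj]
  congr 1
  rw [map_sum]
  refine Finset.sum_congr rfl fun n _ => ?_
  rw [map_mul, map_mul, Complex.conj_ofReal, ← MulChar.star_apply', RCLike.star_def,
    Complex.conj_conj]

end Pool.Agent.Lib.PQ
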