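import Pool.Agent.Lib.MP_7b7e48_nt.PQ.Defs
import Pool.Agent.Lib.MP_7b7e48_nt.LG.PC

/-!
# B6m (40 minutes): the number of primes in `PP`

PROOF. Put `M = pw N (1/(u+1))`, `u = uu k = 400 k`, so `log M ≤ log N / (u+1)`, `M → ∞`. By the prime number theorem
(`SW.pnt 1`; `LG/PC.lean` has the version `|θ(x) - x| ≤ x/100`, private, copy it) `θ(M) - θ(M/2) ≥ M/3`, so there are at
least `M / (3 log M) ≥ M (u+1) / (3 log N) ≥ 2 M / log N` primes in `(M/2, M]`. At most `2 (u+2)` of them divide `N` (their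
product is `≤ N` and each is `≥ N ^ (1/(2(u+1)))`), and `2 (u+2) ≤ M / log N` for large `N`.
-/

set_option autoImplicit false

open Finset
open Pool.Agent.Lib.GT (Rough pr V)
open Pool.Agent.Lib.MP_45349e_nt.LS (lam)
open Pool.Agent.Lib.RG (RC LV rr SS PB sig)

namespace Pool.Agent.Lib.PQ

private theorem B6m_pf (d : ℕ) (hd : d ≠ 0) : (d.primeFactors.card : ℝ) * Real.log 2 ≤
    Real.log d := by
  have h1 : 2 ^ d.primeFactors.card ≤ ∏ p ∈ d.primeFactors, p := by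
    rw [← Finset.prod_const]
    exact Finset.prod_le_prod' fun p hp => (Nat.prime_of_mem_primeFactors hp).two_le
  have h2 : 2 ^ d.primeFactors.card ≤ d :=
    h1.trans (Nat.le_of_dvd (Nat.pos_of_ne_zero hd) (Nat.prod_primeFactors_dvd d))
  have h3 : (2 : ℝ) ^ d.primeFactors.card ≤ d := by exact_mod_cast h2
  have h4 := Real.log_le_log (by positivity) h3
  rwa [Real.log_pow] at h4

private theorem B6m_asym (a : ℝ) (ha : 0 < a) (K : ℝ) : ∃ N0 : ℕ, ∀ N : ℕ, N0 ≤ N →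
    K ≤ (N : ℝ) ^ a ∧ 8 * Real.log N ^ 2 ≤ (N : ℝ) ^ a ∧ 1 ≤ Real.log N := by
  have h1 : ∀ᶠ x : ℝ in Filter.atTop, K ≤ x ^ a :=
    (tendsto_rpow_atTop ha).eventually_ge_atTop K
  have h2 := (isLittleO_log_rpow_rpow_atTop (2 : ℝ) ha).bound
    (show (0 : ℝ) < 1 / 8 by norm_num)
  have h3 : ∀ᶠ x : ℝ in Filter.atTop, 1 ≤ Real.log x :=
    Real.tendsto_log_atTop.eventually_ge_atTop 1
  obtain ⟨X, hX⟩ := Filter.eventually_atTop.mp (h1.and (h2.and (h3.and
    (Filter.eventually_ge_atTop (0 : ℝ)))))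
  refine ⟨⌈X⌉₊, fun N hN => ?_⟩
  obtain ⟨g1, g2, g3, g4⟩ := hX N ((Nat.le_ceil X).trans (by exact_mod_cast hN))
  refine ⟨g1, ?_, g3⟩
  rw [Real.rpow_two, Real.norm_eq_abs, Real.norm_eq_abs, abs_of_nonneg (sq_nonneg _),
    abs_of_nonneg (by positivity)] at g2
  linarith

theorem B6m (k : ℕ) (hk : 160 ≤ k) : ∃ N0 : ℕ, ∀ N : ℕ, N0 ≤ N →
    (pw N (1 / (uu k + 1)) : ℝ) / Real.log N ≤ ((PP k N).card : ℝ) := by
  classical
  obtain ⟨L0, hL0⟩ := MP_7b7e48_nt.LG.PCa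
  have hu : (64000 : ℝ) ≤ (uu k : ℝ) := by
    have : 64000 ≤ uu k := by
      unfold uu
      omega
    exact_mod_cast this
  have hu1 : (0 : ℝ) < (uu k : ℝ) + 1 := by linarith
  obtain ⟨N0, hN0⟩ := B6m_asym (1 / ((uu k : ℝ) + 1)) (by positivity) (2 * L0 + 10)
  refine ⟨max N0 1, fun N hN => ?_⟩
  obtain ⟨g1, g2, g3⟩ := hN0 N ((le_max_left _ _).trans hN)
  have hN1 : 1 ≤ N := (le_max_right _ _).trans hN
  have hNr : (1 : ℝ) ≤ N := by exact_mod_cast hN1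
  set x : ℝ := (N : ℝ) ^ (1 / ((uu k : ℝ) + 1)) with hx
  have hM : pw N (1 / (uu k + 1)) = ⌊x⌋₊ := rfl
  set M : ℕ := ⌊x⌋₊ with hMdef
  have hL0' : (0 : ℝ) ≤ L0 := Nat.cast_nonneg _
  have hx0 : (0 : ℝ) ≤ x := by linarith
  have hMx : (M : ℝ) ≤ x := Nat.floor_le hx0
  have hMx' : x < M + 1 := Nat.lt_floor_add_one x
  have hM9 : 2 * L0 + 9 ≤ M := by
    have : ((2 * L0 + 9 : ℕ) : ℝ) ≤ x := by
      push_cast
      linarith
    exact Nat.le_floor this
  have hL : L0 ≤ M / 2 := by omega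
  have hL2 : 4 ≤ M / 2 := by omega
  have h1 := (hL0 (M / 2) hL).1
  have hsub : MP_7b7e48_nt.LG.Bl (M / 2) ⊆ PP k N ∪ N.primeFactors := by
    intro p hp
    unfold MP_7b7e48_nt.LG.Bl at hp
    rw [Finset.mem_filter, Finset.mem_Ioc] at hp
    rw [Finset.mem_union]
    by_cases hd : p ∣ N
    · exact Or.inr (Nat.mem_primeFactors.2 ⟨hp.2, hd, by omega⟩)
    · left
      unfold PP
      rw [Finset.mem_filter, Finset.mem_Ioc, hM]
      exact ⟨⟨hp.1.1, by omega⟩, hp.2, hd⟩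
  have h2 : ((MP_7b7e48_nt.LG.Bl (M / 2)).card : ℝ) ≤ (PP k N).card + N.primeFactors.card := by
    exact_mod_cast (Finset.card_le_card hsub).trans (Finset.card_union_le _ _)
  have h3 := B6m_pf N (by omega)
  have hl2 : (1 / 2 : ℝ) ≤ Real.log 2 := by
    have := Real.log_two_gt_d9
    norm_num at this ⊢
    linarith
  have hpf : (N.primeFactors.card : ℝ) ≤ 2 * Real.log N := by
    have h4 : (N.primeFactors.card : ℝ) * (1 / 2) ≤ N.primeFactors.card * Real.log 2 :=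
      mul_le_mul_of_nonneg_left hl2 (Nat.cast_nonneg _)
    linarith
  -- the logarithm of `M / 2`
  have hLr : (4 : ℝ) ≤ ((M / 2 : ℕ) : ℝ) := by exact_mod_cast hL2
  have hlL0 : 0 < Real.log ((M / 2 : ℕ) : ℝ) := Real.log_pos (by linarith)
  have hML : ((M / 2 : ℕ) : ℝ) ≤ M := by exact_mod_cast Nat.div_le_self _ _
  have hML2 : (M : ℝ) / 4 ≤ ((M / 2 : ℕ) : ℝ) := by
    have : M ≤ 4 * (M / 2) := by omega
    have h4 : (M : ℝ) ≤ 4 * ((M / 2 : ℕ) : ℝ) := by exact_mod_cast this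
    linarith
  have hlL : ((uu k : ℝ) + 1) * Real.log ((M / 2 : ℕ) : ℝ) ≤ Real.log N := by
    have h4 : Real.log ((M / 2 : ℕ) : ℝ) ≤ Real.log x :=
      Real.log_le_log (by linarith) (hML.trans hMx)
    have h5 : Real.log x = 1 / ((uu k : ℝ) + 1) * Real.log N := Real.log_rpow (by linarith) _
    have h6 : ((uu k : ℝ) + 1) * Real.log x = Real.log N := by
      rw [h5]
      field_simp
    rw [← h6]
    exact mul_le_mul_of_nonneg_left h4 hu1.le
  have hlN : 0 < Real.log N := by linarith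
  have h7 : 2 * (M : ℝ) / Real.log N ≤ ((MP_7b7e48_nt.LG.Bl (M / 2)).card : ℝ) := by
    refine le_trans ?_ h1
    rw [div_le_div_iff₀ hlN (by positivity)]
    have hM0 : (0 : ℝ) ≤ M := Nat.cast_nonneg M
    have h8 : 64001 * Real.log ((M / 2 : ℕ) : ℝ) ≤ Real.log N := by
      refine le_trans ?_ hlL
      exact mul_le_mul_of_nonneg_right (by linarith) hlL0.le
    have h9 : 16 * Real.log ((M / 2 : ℕ) : ℝ) ≤ Real.log N := by linarith
    calc 2 * (M : ℝ) * (2 * Real.log ((M / 2 : ℕ) : ℝ)) =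
        (M : ℝ) / 4 * (16 * Real.log ((M / 2 : ℕ) : ℝ)) := by ring
      _ ≤ ((M / 2 : ℕ) : ℝ) * Real.log N :=
        mul_le_mul hML2 h9 (by positivity) (by linarith)
  have h10 : 2 * Real.log N ≤ (M : ℝ) / Real.log N := by
    rw [le_div_iff₀ hlN]
    have h11 : 8 * Real.log N ^ 2 ≤ M + 1 := by linarith
    have h12 : (9 : ℝ) ≤ M := by
      have : 9 ≤ M := by omega
      exact_mod_cast this
    nlinarith
  rw [hM]
  have h13 : 2 * (M : ℝ) / Real.log N = M / Real.log N + M / Real.log N := by ring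
  rw [h13] at h7
  linarith

end Pool.Agent.Lib.PQ
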