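import Pool.Agent.Lib.MP_7b7e48_nt.PQ.B4m
import Pool.Agent.Lib.MP_7b7e48_nt.PQ.B6m

/-!
# B7m (40 minutes): few characters have a large average over `PP`

PROOF. `B4m` with `Q = PP k N`, `M = pw N (1/(u+1))` (`M ^ u ≤ N ^ (u/(u+1)) < N`), `u = uu k = 400 k`:
`#XX * N ^ (-2 u τ) ≤ φ(N) u! / #PP ^ u ≤ N * u! * (log N / M) ^ u` (`B6m`), and `M ≥ N ^ (1/(u+1)) / 2`, so the right side is
`≤ N ^ (1/(u+1)) * u! * (2 log N) ^ u`. Here `2 u τ = 800 k / (16000 k²) = 1/(20 k)` and `1/(u+1) < 1/(400 k)`, so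
`#XX ≤ N ^ (21/(400 k)) * (log factors) ≤ N ^ (1/(10k)) / 100` for large `N`. The principal character is in `XX`:
its average is `1` and `N ^ (-τ) ≤ 1` (all `l ∈ PP` are primes not dividing `N`); `XX` is closed under inversion
(`‖conj x‖ = ‖x‖`).
-/

set_option autoImplicit false

open Finset
open Pool.Agent.Lib.GT (Rough pr V)
open Pool.Agent.Lib.MP_45349e_nt.LS (lam)
open Pool.Agent.Lib.RG (RC LV rr SS PB sig)

namespace Pool.Agent.Lib.PQ

private theorem b7m_ev (u : ℕ) (k : ℕ) (hk : 160 ≤ k) : ∃ N0 : ℕ, ∀ N : ℕ, N0 ≤ N →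
    2 * ((u.factorial : ℝ) * (2 * Real.log N) ^ u) ≤ (N : ℝ) ^ ((1 : ℝ) / (400 * k)) ∧
      2 ≤ (N : ℝ) ^ ((1 : ℝ) / (400 * k)) := by
  have hk0 : (0 : ℝ) < k := by exact_mod_cast (by omega : 0 < k)
  have hδ : (0 : ℝ) < (1 : ℝ) / (400 * k) := by positivity
  have h1 := isLittleO_log_rpow_rpow_atTop (u : ℝ) hδ
  have hC : (0 : ℝ) < 1 / (2 * ((u.factorial : ℝ) * 2 ^ u)) := by positivity
  have h2 := h1.bound hC
  have h3 : ∀ᶠ x : ℝ in Filter.atTop, (2 : ℝ) ≤ x ^ ((1 : ℝ) / (400 * k)) :=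
    (tendsto_rpow_atTop hδ).eventually_ge_atTop _
  obtain ⟨x0, hx0⟩ := Filter.eventually_atTop.1 (h2.and (h3.and (Filter.eventually_ge_atTop (1 : ℝ))))
  refine ⟨⌈x0⌉₊, fun N hN => ?_⟩
  have hNx : x0 ≤ (N : ℝ) := (Nat.le_ceil x0).trans (by exact_mod_cast hN)
  obtain ⟨h4, h5, h6⟩ := hx0 N hNx
  refine ⟨?_, h5⟩
  have hlog : 0 ≤ Real.log (N : ℝ) := Real.log_nonneg h6
  rw [Real.rpow_natCast, Real.norm_of_nonneg (pow_nonneg hlog u), Real.norm_of_nonneg (by positivity)] at h4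
  have hA : (0 : ℝ) < 2 * ((u.factorial : ℝ) * 2 ^ u) := by positivity
  have h7 := mul_le_mul_of_nonneg_left h4 hA.le
  have e1 : 2 * ((u.factorial : ℝ) * 2 ^ u) * (1 / (2 * ((u.factorial : ℝ) * 2 ^ u)) * (N : ℝ) ^ ((1 : ℝ) / (400 * k))) =
      (N : ℝ) ^ ((1 : ℝ) / (400 * k)) := by
    field_simp
  rw [e1] at h7
  refine le_trans (le_of_eq ?_) h7
  rw [mul_pow]
  ring

theorem B7m (k : ℕ) (hk : 160 ≤ k) : ∃ N0 : ℕ, ∀ (N : ℕ) [NeZero N], N0 ≤ N →
    (PP k N).Nonempty ∧ 2 * (XX k N).card + 2 ≤ pw N (1 / (10 * k)) ∧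
      (1 : DirichletCharacter ℂ N) ∈ XX k N ∧ ∀ χ ∈ XX k N, χ⁻¹ ∈ XX k N := by
  obtain ⟨N1, h1⟩ := b7m_ev (uu k) k hk
  obtain ⟨N2, h2⟩ := B6m k hk
  refine ⟨max 3 (max N1 N2), ?_⟩
  intro N _ hN
  have hN3 : 3 ≤ N := (le_max_left _ _).trans hN
  have hN1 : N1 ≤ N := (le_max_left _ _).trans ((le_max_right _ _).trans hN)
  have hN2 : N2 ≤ N := (le_max_right _ _).trans ((le_max_right _ _).trans hN)
  obtain ⟨hA, hB⟩ := h1 N hN1
  have hP := h2 N hN2
  have hNr : (3 : ℝ) ≤ N := by exact_mod_cast hN3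
  have hN0 : (0 : ℝ) < N := by linarith
  have hNone : (1 : ℝ) ≤ N := by linarith
  have hk0 : (0 : ℝ) < k := by exact_mod_cast (by omega : 0 < k)
  set u : ℕ := uu k with hu
  have hur : (u : ℝ) = 400 * k := by
    rw [hu]
    unfold uu
    push_cast
    ring
  set M : ℕ := pw N (1 / (u + 1)) with hM
  have hu0 : (0 : ℝ) < (u : ℝ) + 1 := by positivity
  set y : ℝ := (N : ℝ) ^ ((1 : ℝ) / (u + 1)) with hy
  have hy1 : 1 ≤ y := Real.one_le_rpow hNone (by positivity)
  have hMy : (M : ℝ) ≤ y := by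
    rw [hM, hy]
    unfold pw
    exact Nat.floor_le (Real.rpow_nonneg hN0.le _)
  have hMy2 : y / 2 ≤ (M : ℝ) := by
    have h3 : y < (M : ℝ) + 1 := by
      rw [hM, hy]
      unfold pw
      exact Nat.lt_floor_add_one _
    have h4 : (1 : ℝ) ≤ M := by
      have h5 : 1 ≤ M := by
        rw [hM]
        unfold pw
        rw [Nat.one_le_floor_iff]
        exact hy1
      exact_mod_cast h5
    linarith
  have hM0 : (0 : ℝ) < M := by linarith
  have hyu : y ^ (u + 1) = N := by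
    rw [hy, ← Real.rpow_natCast, ← Real.rpow_mul hN0.le]
    have e : (1 : ℝ) / (u + 1) * ((u + 1 : ℕ) : ℝ) = 1 := by
      push_cast
      field_simp
    rw [e, Real.rpow_one]
  have hK : 0 < Real.log N := Real.log_pos (by linarith)
  -- nonempty
  have hcard : (0 : ℝ) < (PP k N).card := lt_of_lt_of_le (div_pos hM0 hK) hP
  have hne : (PP k N).Nonempty := by
    rw [← Finset.card_pos]
    exact_mod_cast hcard
  have hmem : ∀ l ∈ PP k N, l.Prime ∧ l ≤ M ∧ ¬ l ∣ N := by
    intro l hl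
    unfold PP at hl
    rw [mem_filter, mem_Ioc] at hl
    exact ⟨hl.2.1, hl.1.2, hl.2.2⟩
  have hMu : M ^ u < N := by
    have h3 : (M : ℝ) ^ u < N := by
      have hy1' : 1 < y := by
        rw [hy]
        exact Real.one_lt_rpow (by linarith) (by positivity)
      calc (M : ℝ) ^ u ≤ y ^ u := pow_le_pow_left₀ hM0.le hMy u
        _ < y ^ (u + 1) := pow_lt_pow_right₀ hy1' (Nat.lt_succ_self u)
        _ = N := hyu
    exact_mod_cast h3
  have hmom := B4m N (PP k N) M u hmem hne hMu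
  -- the number of characters
  have hcount : ((XX k N).card : ℝ) * (N : ℝ) ^ (-(2 * u * tau k)) ≤
      N.totient * (u.factorial : ℝ) / ((PP k N).card : ℝ) ^ u := by
    refine le_trans ?_ hmom
    calc ((XX k N).card : ℝ) * (N : ℝ) ^ (-(2 * u * tau k))
        = ∑ χ ∈ XX k N, (N : ℝ) ^ (-(2 * u * tau k)) := by rw [sum_const, nsmul_eq_mul]
      _ ≤ ∑ χ ∈ XX k N, ‖av (PP k N) (fun l => l) χ‖ ^ (2 * u) := by
          refine sum_le_sum fun χ hχ => ?_
          unfold XX at hχ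
          rw [mem_filter] at hχ
          have h3 : (N : ℝ) ^ (-(2 * u * tau k)) = ((N : ℝ) ^ (-tau k)) ^ (2 * u) := by
            rw [← Real.rpow_natCast, ← Real.rpow_mul hN0.le]
            congr 1
            push_cast
            ring
          rw [h3]
          exact pow_le_pow_left₀ (Real.rpow_nonneg hN0.le _) hχ.2 _
      _ ≤ ∑ χ : DirichletCharacter ℂ N, ‖av (PP k N) (fun l => l) χ‖ ^ (2 * u) :=
          sum_le_sum_of_subset_of_nonneg (subset_univ _) fun χ _ _ => by positivity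
  -- the right side
  have hright : N.totient * (u.factorial : ℝ) / ((PP k N).card : ℝ) ^ u ≤
      y * ((u.factorial : ℝ) * (2 * Real.log N) ^ u) := by
    have h3 : y / (2 * Real.log N) ≤ ((PP k N).card : ℝ) := by
      refine le_trans ?_ hP
      rw [div_le_div_iff₀ (by positivity) hK]
      nlinarith
    have h4 : (y / (2 * Real.log N)) ^ u ≤ ((PP k N).card : ℝ) ^ u :=
      pow_le_pow_left₀ (by positivity) h3 u
    have h5 : (0 : ℝ) < (y / (2 * Real.log N)) ^ u := by positivity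
    have h6 : (N.totient : ℝ) ≤ N := by exact_mod_cast Nat.totient_le N
    calc N.totient * (u.factorial : ℝ) / ((PP k N).card : ℝ) ^ u
        ≤ N * (u.factorial : ℝ) / (y / (2 * Real.log N)) ^ u := by gcongr
      _ = y * ((u.factorial : ℝ) * (2 * Real.log N) ^ u) := by
          rw [← hyu, div_pow]
          field_simp
          ring
  have hfin : 2 * ((XX k N).card : ℝ) + 2 ≤ (N : ℝ) ^ ((1 : ℝ) / (10 * k)) := by
    set x : ℝ := (N : ℝ) ^ ((1 : ℝ) / (400 * k)) with hx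
    have hx0 : 0 < x := Real.rpow_pos_of_pos hN0 _
    have hxp : ∀ m : ℕ, x ^ m = (N : ℝ) ^ ((m : ℝ) / (400 * k)) := by
      intro m
      rw [hx, ← Real.rpow_natCast, ← Real.rpow_mul hN0.le]
      congr 1
      ring
    have e1 : (N : ℝ) ^ (-(2 * u * tau k)) * x ^ 20 = 1 := by
      rw [hxp, ← Real.rpow_add hN0]
      have e2 : -(2 * (u : ℝ) * tau k) + ((20 : ℕ) : ℝ) / (400 * k) = 0 := by
        rw [hur]
        unfold tau
        push_cast
        field_simp
        ring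
      rw [e2, Real.rpow_zero]
    have hyx : y ≤ x := by
      rw [hy, hx]
      apply Real.rpow_le_rpow_of_exponent_le hNone
      rw [hur]
      apply one_div_le_one_div_of_le (by positivity)
      linarith
    have h3 : ((XX k N).card : ℝ) ≤ x ^ 20 * (y * ((u.factorial : ℝ) * (2 * Real.log N) ^ u)) := by
      have h4 := mul_le_mul_of_nonneg_left (hcount.trans hright) (pow_nonneg hx0.le 20)
      have h5 : x ^ 20 * (((XX k N).card : ℝ) * (N : ℝ) ^ (-(2 * u * tau k))) = ((XX k N).card : ℝ) := by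
        calc x ^ 20 * (((XX k N).card : ℝ) * (N : ℝ) ^ (-(2 * u * tau k)))
            = ((XX k N).card : ℝ) * ((N : ℝ) ^ (-(2 * u * tau k)) * x ^ 20) := by ring
          _ = ((XX k N).card : ℝ) := by rw [e1, mul_one]
      rw [h5] at h4
      exact h4
    have h4 : 2 * ((XX k N).card : ℝ) ≤ x ^ 22 := by
      calc 2 * ((XX k N).card : ℝ) ≤ 2 * (x ^ 20 * (y * ((u.factorial : ℝ) * (2 * Real.log N) ^ u))) := by linarith
        _ = x ^ 20 * y * (2 * ((u.factorial : ℝ) * (2 * Real.log N) ^ u)) := by ring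
        _ ≤ x ^ 20 * x * x := by gcongr
        _ = x ^ 22 := by ring
    have hx2 : 2 ≤ x := hB
    have hx1 : 1 ≤ x := by linarith
    have h5 : (2 : ℝ) ≤ x ^ 22 := by
      calc (2 : ℝ) ≤ x := hx2
        _ = x ^ 1 := (pow_one x).symm
        _ ≤ x ^ 22 := pow_le_pow_right₀ hx1 (by norm_num)
    calc 2 * ((XX k N).card : ℝ) + 2 ≤ x ^ 22 + x ^ 22 := by linarith
      _ = 2 * x ^ 22 := by ring
      _ ≤ x * x ^ 22 := by gcongr
      _ = x ^ 23 := by ring
      _ ≤ x ^ 40 := pow_le_pow_right₀ hx1 (by norm_num)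
      _ = (N : ℝ) ^ ((1 : ℝ) / (10 * k)) := by
          rw [hxp]
          congr 1
          push_cast
          field_simp
          norm_num
  refine ⟨hne, ?_, ?_, ?_⟩
  · unfold pw
    apply Nat.le_floor
    push_cast
    exact hfin
  · unfold XX
    rw [mem_filter]
    refine ⟨mem_univ _, ?_⟩
    have h3 : av (PP k N) (fun l => l) (1 : DirichletCharacter ℂ N) = 1 := by
      unfold av
      have h4 : ∑ j ∈ PP k N, (1 : DirichletCharacter ℂ N) (j : ZMod N) = ((PP k N).card : ℂ) := by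
        have h5 : ∀ j ∈ PP k N, (1 : DirichletCharacter ℂ N) (j : ZMod N) = 1 := by
          intro j hj
          obtain ⟨hp, -, hd⟩ := hmem j hj
          apply MulChar.one_apply
          rw [ZMod.isUnit_iff_coprime]
          exact (Nat.Prime.coprime_iff_not_dvd hp).2 hd
        rw [sum_congr rfl h5, sum_const, nsmul_eq_mul, mul_one]
      rw [h4]
      apply div_self
      exact_mod_cast hcard.ne'
    rw [h3, norm_one]
    apply Real.rpow_le_one_of_one_le_of_nonpos hNone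
    unfold tau
    have : (0 : ℝ) ≤ 1 / (16000 * (k : ℝ) ^ 2) := by positivity
    linarith
  · intro χ hχ
    unfold XX at hχ ⊢
    rw [mem_filter] at hχ ⊢
    refine ⟨mem_univ _, ?_⟩
    have h3 : av (PP k N) (fun l => l) χ⁻¹ = star (av (PP k N) (fun l => l) χ) := by
      unfold av
      rw [star_div₀, star_sum]
      congr 1
      · exact sum_congr rfl fun j _ => (MulChar.star_apply' χ _).symm
      · simp
    rw [h3, norm_star]
    exact hχ.2

end Pool.Agent.Lib.PQ
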