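import Pool.Agent.Lib.MP_7b7e48_nt.PQ.C3m
import Pool.Agent.Lib.MP_7b7e48_nt.PQ.C2m
import Pool.Agent.Lib.MP_7b7e48_nt.GT.Corr

/-!
# C3w (40 minutes): the sieve weights for the variable `m`

PROOF. `D` from `C2m` (constant `K₂`) with `z = pw N c`: `z ^ (K₂ b) ≤ N ^ (1/(20k))` because `c * K₂ * b ≤ 1/(20k)`. The excess mass: the terms
`(WD D m - 1_rough(m))/m` are `≥ 0`, so the sum over `MM` (coprime to `N`) is at most the sum over all `m ∈ (A0, B0]`,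
`≤ K₂ (1/2)^b V z (log (B0/A0) + 1) + z^(K₂ b)/A0`; `log (B0/A0) ≤ log N/(2k) + 1`. `C3m`: `V z log N/(2k) ≤ (4/3) ms R0`; the rest is
`≤ (1/2)^b ms R0` for large `N` (`ms R0 ≥ (3/4) V z log N/(2k) ≥ c''/k`). So `K = 3 K₂ + 3 + K₃`. Finally `MM \ R0`-terms: for `m ∈ MM`, `m` is rough iff `m ∈ R0`;
so `ZW = ms R0 + excess`.
-/

set_option autoImplicit false

open Finset
open Pool.Agent.Lib.GT (Rough pr V)
open Pool.Agent.Lib.MP_45349e_nt.LS (lam)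
open Pool.Agent.Lib.RG (RC LV rr SS PB sig)

namespace Pool.Agent.Lib.PQ

private theorem C3w_floor {x : ℝ} (hx : 1 ≤ x) : x ≤ 2 * (⌊x⌋₊ : ℝ) := by
  have h1 := Nat.lt_floor_add_one x
  have h2 : (1 : ℝ) ≤ (⌊x⌋₊ : ℝ) := by
    have : 1 ≤ ⌊x⌋₊ := Nat.le_floor (by simpa using hx)
    exact_mod_cast this
  linarith

theorem C3w : ∃ K : ℕ, 1 ≤ K ∧ ∀ k b : ℕ, 160 ≤ k → 1 ≤ b → ∀ c : ℝ, 0 < c → c * (20 * k * K * b) ≤ 1 →
    (K : ℝ) * (1 / 2) ^ b ≤ 1 / 4 → ∃ N0 : ℕ, ∀ N : ℕ, N0 ≤ N → ∃ D : Finset ℕ, DD k c N D ∧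
    ∑ m ∈ MM k N, (WD D m - (if Rough (pw N c) m then (1 : ℝ) else 0)) / m ≤
      K * (1 / 2) ^ b * ms (R0 k c N) := by
  obtain ⟨K₂, hK₂, h2⟩ := C2m
  obtain ⟨K₃, hK₃, h3⟩ := C3m
  refine ⟨3 * K₂ + 3 + K₃, by omega, fun k b hk hb c hc hck hKb => ?_⟩
  have hkR : (160 : ℝ) ≤ k := by exact_mod_cast hk
  have hbR : (1 : ℝ) ≤ b := by exact_mod_cast hb
  have hK₂R : (1 : ℝ) ≤ K₂ := by exact_mod_cast hK₂
  have hK₃R : (1 : ℝ) ≤ K₃ := by exact_mod_cast hK₃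
  have hpb : (0 : ℝ) < (1 / 2) ^ b := by positivity
  push_cast at hck hKb
  have hmono : ∀ K' : ℝ, K' ≤ 3 * (K₂ : ℝ) + 3 + K₃ → c * (20 * k * K' * b) ≤ 1 := by
    intro K' hK'
    refine le_trans ?_ hck
    have h1 : 20 * (k : ℝ) * K' * b ≤ 20 * k * (3 * (K₂ : ℝ) + 3 + K₃) * b := by gcongr
    exact mul_le_mul_of_nonneg_left h1 hc.le
  have hc3 : c * (20 * k * K₃ * b) ≤ 1 := hmono K₃ (by linarith)
  have hc2 : c * (20 * k * K₂ * b) ≤ 1 := hmono K₂ (by linarith)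
  have hKb3 : (K₃ : ℝ) * (1 / 2) ^ b ≤ 1 / 4 :=
    (mul_le_mul_of_nonneg_right (by linarith) hpb.le).trans hKb
  obtain ⟨N3, hN3⟩ := h3 k b hk hb c hc hc3 hKb3
  have hcast : Filter.Tendsto (fun N : ℕ => (N : ℝ)) Filter.atTop Filter.atTop :=
    tendsto_natCast_atTop_atTop
  have ev1 : ∀ᶠ N : ℕ in Filter.atTop, (2 : ℝ) ≤ (N : ℝ) ^ c :=
    ((tendsto_rpow_atTop hc).comp hcast).eventually_ge_atTop 2
  have ev2 : ∀ᶠ N : ℕ in Filter.atTop, 8 * (2 * (k : ℝ)) ≤ Real.log N :=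
    (Real.tendsto_log_atTop.comp hcast).eventually_ge_atTop _
  have ev3 : ∀ᶠ N : ℕ in Filter.atTop, (2 : ℝ) ^ b ≤ (N : ℝ) ^ (1 / 4 : ℝ) :=
    ((tendsto_rpow_atTop (by norm_num : (0 : ℝ) < 1 / 4)).comp hcast).eventually_ge_atTop _
  obtain ⟨N0, hN0⟩ := Filter.eventually_atTop.1
    (ev1.and (ev2.and (ev3.and (Filter.eventually_ge_atTop (max N3 2)))))
  refine ⟨N0, fun N hN => ?_⟩
  obtain ⟨e1, e2, e3, e4⟩ := hN0 N hN
  have hms := hN3 N ((le_max_left _ _).trans e4)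
  have hN2 : 2 ≤ N := (le_max_right _ _).trans e4
  have hNR : (1 : ℝ) ≤ N := by
    have : 1 ≤ N := by omega
    exact_mod_cast this
  have hN0' : (0 : ℝ) < N := by linarith
  -- the sieving level
  obtain ⟨z, hzd⟩ : ∃ z, z = pw N c := ⟨_, rfl⟩
  have hz2 : 2 ≤ z := by
    rw [hzd]
    exact Nat.le_floor (by simpa using e1)
  have hzle : (z : ℝ) ≤ (N : ℝ) ^ c := by
    rw [hzd]
    exact Nat.floor_le (by positivity)
  have hzR : (2 : ℝ) ≤ z := by exact_mod_cast hz2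
  rw [← hzd] at hms ⊢
  obtain ⟨D, d1, d2, d3⟩ := h2 b hb z hz2
  have hk0 : (0 : ℝ) < k := by linarith
  have hexp : c * ((K₂ * b : ℕ) : ℝ) ≤ 1 / (20 * k) := by
    rw [le_div_iff₀ (by positivity)]
    push_cast
    calc c * ((K₂ : ℝ) * b) * (20 * k) = c * (20 * k * K₂ * b) := by ring
      _ ≤ 1 := hc2
  have hzpow : (z : ℝ) ^ (K₂ * b) ≤ (N : ℝ) ^ ((1 : ℝ) / (20 * k)) := by
    calc (z : ℝ) ^ (K₂ * b) ≤ ((N : ℝ) ^ c) ^ (K₂ * b) :=
          pow_le_pow_left₀ (by positivity) hzle _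
      _ = (N : ℝ) ^ (c * ((K₂ * b : ℕ) : ℝ)) := by
          rw [← Real.rpow_natCast, ← Real.rpow_mul hN0'.le]
      _ ≤ _ := Real.rpow_le_rpow_of_exponent_le hNR hexp
  refine ⟨D, ⟨fun d hd => ⟨(d1 d hd).1, (d1 d hd).2.trans hzpow⟩, fun m hm => ?_⟩, ?_⟩
  · rw [← hzd]
    exact d2 m hm
  -- the range
  obtain ⟨x, hx⟩ : ∃ x : ℝ, x = (N : ℝ) ^ (1 / 2 + 1 / (2 * (k : ℝ))) := ⟨_, rfl⟩
  obtain ⟨y, hy⟩ : ∃ y : ℝ, y = (N : ℝ) ^ (1 / 2 + 1 / (k : ℝ)) := ⟨_, rfl⟩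
  have hx1 : 1 ≤ x := by
    rw [hx]
    exact Real.one_le_rpow hNR (by positivity)
  have hxy : x ≤ y := by
    rw [hx, hy]
    refine Real.rpow_le_rpow_of_exponent_le hNR ?_
    have : 1 / (2 * (k : ℝ)) ≤ 1 / k := one_div_le_one_div_of_le hk0 (by linarith)
    linarith
  have hA0 : A0 k N = ⌊x⌋₊ := by
    rw [hx]
    rfl
  have hB0 : B0 k N = ⌊y⌋₊ := by
    rw [hy]
    rfl
  have hA1 : 1 ≤ A0 k N := by
    rw [hA0]
    exact Nat.le_floor (by simpa using hx1)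
  have hAB : A0 k N ≤ B0 k N := by
    rw [hA0, hB0]
    exact Nat.floor_le_floor hxy
  have hAR : x / 2 ≤ A0 k N := by
    rw [hA0]
    have := C3w_floor hx1
    linarith
  have hBR : (B0 k N : ℝ) ≤ y := by
    rw [hB0]
    exact Nat.floor_le (by linarith)
  have hA1R : (1 : ℝ) ≤ A0 k N := by exact_mod_cast hA1
  have hB1R : (1 : ℝ) ≤ B0 k N := by exact_mod_cast hA1.trans hAB
  obtain ⟨Lg, hLg⟩ : ∃ Lg : ℝ, Lg = Real.log N / (2 * k) := ⟨_, rfl⟩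
  have hLg8 : 8 ≤ Lg := by
    rw [hLg, le_div_iff₀ (by positivity)]
    exact e2
  have hlog : Real.log ((B0 k N : ℝ) / A0 k N) ≤ Lg + 1 := by
    have h4 : (B0 k N : ℝ) / A0 k N ≤ 2 * (y / x) := by
      rw [div_le_iff₀ (by linarith)]
      have hx0 : 0 < x := by linarith
      calc (B0 k N : ℝ) ≤ y := hBR
        _ = 2 * (y / x) * (x / 2) := by field_simp
        _ ≤ 2 * (y / x) * A0 k N := by
            have : 0 ≤ y / x := div_nonneg (by linarith) hx0.le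
            gcongr
    have h5 : y / x = (N : ℝ) ^ (1 / (2 * (k : ℝ))) := by
      rw [hx, hy, ← Real.rpow_sub hN0']
      congr 1
      field_simp
      ring
    refine (Real.log_le_log (by positivity) h4).trans ?_
    rw [h5, Real.log_mul (by norm_num) (by positivity), Real.log_rpow hN0', hLg]
    have h6 := Real.log_two_lt_d9
    have h7 : 1 / (2 * (k : ℝ)) * Real.log N = Real.log N / (2 * k) := by ring
    rw [h7]
    linarith
  have hV := Pool.Agent.Lib.GT.V_pos z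
  have hVz : 1 / (z : ℝ) ≤ V z := Pool.Agent.Lib.GT.Corr.V_ge (by omega)
  rw [← hLg] at hms
  -- the first error term
  have t1 : V z * (Real.log ((B0 k N : ℝ) / A0 k N) + 1) ≤ 5 / 3 * ms (R0 k c N) := by
    calc V z * (Real.log ((B0 k N : ℝ) / A0 k N) + 1) ≤ V z * (5 / 4 * Lg) :=
          mul_le_mul_of_nonneg_left (by linarith) hV.le
      _ = 5 / 3 * (3 / 4 * (V z * Lg)) := by ring
      _ ≤ _ := mul_le_mul_of_nonneg_left hms (by norm_num)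
  -- the second error term
  have hc14 : c ≤ 1 / 4 := by
    have h8 : (1 : ℝ) * 1 * 1 ≤ k * K₂ * b := by gcongr; linarith
    have h9 : c * 20 ≤ 1 := by
      refine le_trans ?_ hc2
      calc c * 20 = c * (20 * (1 * 1 * 1)) := by ring
        _ ≤ c * (20 * (k * K₂ * b)) := by gcongr
        _ = c * (20 * k * K₂ * b) := by ring
    linarith
  have t2 : (z : ℝ) ^ (K₂ * b) / A0 k N ≤ (1 / 2) ^ b * ms (R0 k c N) := by
    have h10 : (z : ℝ) ^ (K₂ * b) / A0 k N ≤ 2 * (N : ℝ) ^ (-(1 / 2) : ℝ) := by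
      rw [div_le_iff₀ (by linarith)]
      refine hzpow.trans ?_
      calc (N : ℝ) ^ ((1 : ℝ) / (20 * k)) ≤ (N : ℝ) ^ (1 / (2 * (k : ℝ))) := by
            refine Real.rpow_le_rpow_of_exponent_le hNR ?_
            exact one_div_le_one_div_of_le (by positivity) (by linarith)
        _ = 2 * (N : ℝ) ^ (-(1 / 2) : ℝ) * (x / 2) := by
            rw [hx]
            have h11 : 2 * (N : ℝ) ^ (-(1 / 2) : ℝ) * ((N : ℝ) ^ (1 / 2 + 1 / (2 * (k : ℝ))) / 2) =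
                (N : ℝ) ^ (-(1 / 2) : ℝ) * (N : ℝ) ^ (1 / 2 + 1 / (2 * (k : ℝ))) := by ring
            rw [h11, ← Real.rpow_add hN0']
            congr 1
            ring
        _ ≤ _ := by gcongr
    have h12 : 6 * (N : ℝ) ^ (-(1 / 4) : ℝ) ≤ ms (R0 k c N) := by
      have h13 : (N : ℝ) ^ (-(1 / 4) : ℝ) ≤ 1 / z := by
        rw [le_div_iff₀ (by linarith)]
        calc (N : ℝ) ^ (-(1 / 4) : ℝ) * z ≤ (N : ℝ) ^ (-(1 / 4) : ℝ) * (N : ℝ) ^ (1 / 4 : ℝ) := by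
              have : (N : ℝ) ^ c ≤ (N : ℝ) ^ (1 / 4 : ℝ) :=
                Real.rpow_le_rpow_of_exponent_le hNR hc14
              have h14 := hzle.trans this
              gcongr
          _ = 1 := by
              rw [← Real.rpow_add hN0']
              norm_num
      refine le_trans ?_ hms
      have h15 : (N : ℝ) ^ (-(1 / 4) : ℝ) ≤ V z := h13.trans hVz
      have h16 : 0 ≤ (N : ℝ) ^ (-(1 / 4) : ℝ) := by positivity
      nlinarith
    have h17 : (N : ℝ) ^ (-(1 / 2) : ℝ) ≤ (1 / 2) ^ b * (N : ℝ) ^ (-(1 / 4) : ℝ) := by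
      have h18 : (N : ℝ) ^ (-(1 / 2) : ℝ) = (N : ℝ) ^ (-(1 / 4) : ℝ) * (N : ℝ) ^ (-(1 / 4) : ℝ) := by
        rw [← Real.rpow_add hN0']
        norm_num
      rw [h18]
      refine mul_le_mul_of_nonneg_right ?_ (by positivity)
      have h20 : (1 / 2 : ℝ) ^ b = ((2 : ℝ) ^ b)⁻¹ := by rw [one_div, inv_pow]
      rw [Real.rpow_neg hN0'.le, h20]
      exact inv_anti₀ (by positivity) e3
    have h19 : 0 ≤ (1 / 2 : ℝ) ^ b * (N : ℝ) ^ (-(1 / 4) : ℝ) := by positivity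
    calc (z : ℝ) ^ (K₂ * b) / A0 k N ≤ 2 * (N : ℝ) ^ (-(1 / 2) : ℝ) := h10
      _ ≤ 2 * ((1 / 2) ^ b * (N : ℝ) ^ (-(1 / 4) : ℝ)) := by gcongr
      _ ≤ (1 / 2) ^ b * (6 * (N : ℝ) ^ (-(1 / 4) : ℝ)) := by linarith
      _ ≤ _ := by gcongr
  have t3 : ∑ m ∈ MM k N, (WD D m - (if Rough z m then (1 : ℝ) else 0)) / m ≤
      ∑ m ∈ Finset.Ioc (A0 k N) (B0 k N), (WD D m - (if Rough z m then (1 : ℝ) else 0)) / m := by
    unfold MM
    refine Finset.sum_le_sum_of_subset_of_nonneg (Finset.filter_subset _ _) fun m hm _ => ?_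
    have hm1 : 1 ≤ m := by
      have := (Finset.mem_Ioc.1 hm).1
      omega
    exact div_nonneg (sub_nonneg.2 (d2 m hm1)) (Nat.cast_nonneg _)
  have t4 := d3 (A0 k N) (B0 k N) hA1 hAB
  have hms0 : 0 ≤ ms (R0 k c N) := by
    refine le_trans ?_ hms
    positivity
  push_cast
  calc ∑ m ∈ MM k N, (WD D m - (if Rough z m then (1 : ℝ) else 0)) / m
      ≤ K₂ * (1 / 2) ^ b * (V z * (Real.log ((B0 k N : ℝ) / A0 k N) + 1)) +
        (z : ℝ) ^ (K₂ * b) / A0 k N := t3.trans t4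
    _ ≤ K₂ * (1 / 2) ^ b * (5 / 3 * ms (R0 k c N)) + (1 / 2) ^ b * ms (R0 k c N) := by
        refine add_le_add (mul_le_mul_of_nonneg_left t1 (by positivity)) t2
    _ = (5 / 3 * K₂ + 1) * ((1 / 2) ^ b * ms (R0 k c N)) := by ring
    _ ≤ (3 * K₂ + 3 + K₃) * ((1 / 2) ^ b * ms (R0 k c N)) := by
        refine mul_le_mul_of_nonneg_right (by linarith) (by positivity)
    _ = _ := by ring

end Pool.Agent.Lib.PQ
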