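import Pool.Agent.Lib.MP_7b7e48_nt.PQ.C3m
import Pool.Agent.Lib.MP_7b7e48_nt.PQ.C4a

/-!
# C4b (45 minutes): Bessel's inequality for `R0`

PROOF. `K₃` from `C3m`, `K₄` from `C4a`; `K = K₃ + 4 K₄ + 4`. Put `v = V z * log N / (2k)`. `C3m`: `ms ≥ (3/4) v > 0`. By `C4a` the constant
is `1 +` (error)/`ms` with error `≤ K₄ (1/2)^b (v + 3 V z) + 4 z^(K₄ b) (1 + #X * PB N) / A`; here `log (B/A) ≤ log N/(2k) + 1`,
`3 V z ≤ v` for large `N`, and the last term is `≤ N ^ (1/(20k) + 1/(5k) + 1/2 + 1/(20k) - 1/2 - 1/(2k) + o(1))`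
(`RG.PB_le` with `e = 1/(20k)`), which is `≤ (1/2)^b v / 4` for large `N` (`V z ≥ c'/log N`, `RG.prod_lower`). So the constant is
`≤ 1 + (4/3)(2 K₄ + 1/4) (1/2)^b ≤ 1 + K (1/2)^b`. `Wt`: `∑ 1/(n ms) = 1`.
-/

set_option autoImplicit false

open Finset
open Pool.Agent.Lib.GT (Rough pr V)
open Pool.Agent.Lib.MP_45349e_nt.LS (lam)
open Pool.Agent.Lib.RG (RC LV rr SS PB sig)

namespace Pool.Agent.Lib.PQ

private theorem C4b_ev (s C δ : ℝ) (hs : 0 < s) (hδ : 0 < δ) : ∃ N0 : ℕ, ∀ N : ℕ, N0 ≤ N → C * (N : ℝ) ^ (-s) ≤ δ := by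
  have h1 : Filter.Tendsto (fun N : ℕ => C * (N : ℝ) ^ (-s)) Filter.atTop (nhds (C * 0)) :=
    ((tendsto_rpow_neg_atTop hs).comp tendsto_natCast_atTop_atTop).const_mul C
  rw [mul_zero] at h1
  obtain ⟨N0, h2⟩ := Filter.eventually_atTop.mp (h1.eventually (gt_mem_nhds hδ))
  exact ⟨N0, fun N hN => (h2 N hN).le⟩

private theorem C4b_log (T : ℝ) : ∃ N0 : ℕ, ∀ N : ℕ, N0 ≤ N → T ≤ Real.log N := by
  have h1 : Filter.Tendsto (fun N : ℕ => Real.log (N : ℝ)) Filter.atTop Filter.atTop :=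
    Real.tendsto_log_atTop.comp tendsto_natCast_atTop_atTop
  obtain ⟨N0, h2⟩ := Filter.eventually_atTop.mp (h1.eventually (Filter.eventually_ge_atTop T))
  exact ⟨N0, fun N hN => h2 N hN⟩

private theorem C4b_wt {N : ℕ} {k : ℕ} {c : ℝ} (h : 0 < ms (R0 k c N)) : Wt N (R0 k c N) (w0 k c N) := by
  refine ⟨?_, ?_, ?_⟩
  · intro n _
    unfold w0 wt
    positivity
  · unfold w0 wt
    have h1 : ∀ n ∈ R0 k c N, 1 / ((n : ℝ) * ms (R0 k c N)) = (1 / (n : ℝ)) * (ms (R0 k c N))⁻¹ := by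
      intro n _
      rw [one_div, mul_inv, one_div]
    rw [Finset.sum_congr rfl h1, ← Finset.sum_mul]
    exact mul_inv_cancel₀ h.ne'
  · intro n hn
    unfold R0 RS at hn
    rw [Finset.mem_filter] at hn
    exact hn.2.2

theorem C4b : ∃ K : ℕ, 1 ≤ K ∧ ∀ k b : ℕ, 160 ≤ k → 1 ≤ b → ∀ c : ℝ, 0 < c → c * (20 * k * K * b) ≤ 1 →
    (K : ℝ) * (1 / 2) ^ b ≤ 1 / 4 → ∃ N0 : ℕ, ∀ (N : ℕ) [NeZero N], N0 ≤ N →
    Wt N (R0 k c N) (w0 k c N) ∧
      Bes N (R0 k c N) (w0 k c N) (K * (1 / 2) ^ b) (pw N (1 / (5 * k))) := by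
  obtain ⟨K3, hK3, h3⟩ := C3m
  obtain ⟨K4, hK4, h4⟩ := C4a
  obtain ⟨c', hc', hV⟩ := Pool.Agent.Lib.RG.prod_lower
  refine ⟨K3 + 4 * K4 + 4, by omega, ?_⟩
  intro k b hk hb c hc hck hKb
  have hk0 : (0 : ℝ) < k := by exact_mod_cast (by omega : 0 < k)
  have hk160 : (160 : ℝ) ≤ k := by exact_mod_cast hk
  have hb1 : (1 : ℝ) ≤ b := by exact_mod_cast hb
  have hK3' : (1 : ℝ) ≤ K3 := by exact_mod_cast hK3
  have hK4' : (1 : ℝ) ≤ K4 := by exact_mod_cast hK4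
  have hb2 : (0 : ℝ) < (1 / 2) ^ b := by positivity
  have hKcast : (((K3 + 4 * K4 + 4 : ℕ)) : ℝ) = K3 + 4 * K4 + 4 := by push_cast; ring
  rw [hKcast] at hck hKb
  have hck3 : c * (20 * k * K3 * b) ≤ 1 := by
    refine le_trans ?_ hck
    refine mul_le_mul_of_nonneg_left ?_ hc.le
    have h5 : (0 : ℝ) ≤ 20 * k * b := by positivity
    nlinarith
  have hKb3 : (K3 : ℝ) * (1 / 2) ^ b ≤ 1 / 4 := by
    refine le_trans ?_ hKb
    refine mul_le_mul_of_nonneg_right ?_ hb2.le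
    linarith
  obtain ⟨n0, g0⟩ := h3 k b hk hb c hc hck3 hKb3
  -- the exponents
  have hexp : c * (K4 * b) ≤ 1 / (20 * k) := by
    rw [le_div_iff₀ (by positivity)]
    refine le_trans ?_ hck
    have h5 : c * (20 * k * (K3 + 4 * K4 + 4) * b) = c * (K4 * b) * (20 * k) + c * (20 * k * b) * (K3 + 3 * K4 + 4) := by ring
    rw [h5]
    have h6 : 0 ≤ c * (20 * k * b) * (K3 + 3 * K4 + 4) := by positivity
    linarith
  have hc1 : c ≤ 1 := by
    have h2 : c * 1 ≤ c * (K4 * b) := mul_le_mul_of_nonneg_left (by nlinarith) hc.le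
    have h5 : (1 : ℝ) / (20 * k) ≤ 1 := by
      rw [div_le_one (by positivity)]
      linarith
    linarith
  have he0 : (0 : ℝ) < 1 / (20 * k) := by positivity
  obtain ⟨Cp, hCp, hPB⟩ := Pool.Agent.Lib.RG.PB_le (1 / (20 * k)) he0
  set δ : ℝ := (1 / 2) ^ b * (c' / (8 * k)) with hδ
  have hδ0 : 0 < δ := by rw [hδ]; positivity
  obtain ⟨n1, g1⟩ := C4b_ev (1 / (5 * k)) (8 * (1 + Cp)) δ (by positivity) hδ0
  obtain ⟨n3, g3⟩ := C4b_log (4 * k)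
  obtain ⟨n4, g4⟩ := C4b_ev (c / 2) 4 1 (by positivity) one_pos
  refine ⟨max (max n0 n1) (max (max n3 n4) 16), ?_⟩
  intro N hNe hN
  have hNn0 : n0 ≤ N := le_trans (by simp) hN
  have hNn1 : n1 ≤ N := le_trans (by simp) hN
  have hNn3 : n3 ≤ N := le_trans (by simp) hN
  have hNn4 : n4 ≤ N := le_trans (by simp) hN
  have hN16 : 16 ≤ N := le_trans (by simp) hN
  have e0 := g0 N hNn0
  have e1 := g1 N hNn1
  have e3 := g3 N hNn3
  have e4 := g4 N hNn4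
  have hNr : (16 : ℝ) ≤ N := by exact_mod_cast hN16
  have hN0 : (0 : ℝ) < N := by linarith
  have hN1 : (1 : ℝ) ≤ N := by linarith
  have hlog0 : 0 < Real.log N := Real.log_pos (by linarith)
  -- powers
  have hNc : 4 ≤ (N : ℝ) ^ c := by
    have h2 : (N : ℝ) ^ (-(c / 2)) * (N : ℝ) ^ (c / 2) = 1 := by
      rw [← Real.rpow_add hN0]
      simp
    have h3 : 0 < (N : ℝ) ^ (c / 2) := by positivity
    have h4 : 4 ≤ (N : ℝ) ^ (c / 2) := by
      have : 4 * ((N : ℝ) ^ (-(c / 2)) * (N : ℝ) ^ (c / 2)) ≤ 1 * (N : ℝ) ^ (c / 2) := by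
        rw [← mul_assoc]
        exact mul_le_mul_of_nonneg_right e4 h3.le
      rw [h2] at this
      linarith
    refine h4.trans (Real.rpow_le_rpow_of_exponent_le hN1 (by linarith))
  set z : ℕ := pw N c with hz
  have hz_le : (z : ℝ) ≤ (N : ℝ) ^ c := Nat.floor_le (by positivity)
  have hz_lt : (N : ℝ) ^ c < (z : ℝ) + 1 := Nat.lt_floor_add_one _
  have hz2 : 2 ≤ z := by
    have : (3 : ℝ) < (z : ℝ) + 1 := by linarith
    have h2 : (2 : ℝ) < z := by linarith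
    exact_mod_cast h2.le
  have hz0 : (0 : ℝ) < z := by exact_mod_cast (by omega : 0 < z)
  have hzN : (z : ℝ) ≤ N := by
    refine hz_le.trans ?_
    calc (N : ℝ) ^ c ≤ (N : ℝ) ^ (1 : ℝ) := Real.rpow_le_rpow_of_exponent_le hN1 hc1
      _ = N := Real.rpow_one _
  set A : ℕ := A0 k N with hA
  set B : ℕ := B0 k N with hB
  have hA_le : (A : ℝ) ≤ (N : ℝ) ^ ((1 : ℝ) / 2 + 1 / (2 * k)) := Nat.floor_le (by positivity)
  have hA_lt : (N : ℝ) ^ ((1 : ℝ) / 2 + 1 / (2 * k)) < (A : ℝ) + 1 := Nat.lt_floor_add_one _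
  have hB_le : (B : ℝ) ≤ (N : ℝ) ^ ((1 : ℝ) / 2 + 1 / k) := Nat.floor_le (by positivity)
  have h1k : (0 : ℝ) < 1 / (2 * k) := by positivity
  have h2k : (1 : ℝ) / k = 1 / (2 * k) + 1 / (2 * k) := by
    rw [mul_comm (2 : ℝ), ← div_div]
    ring
  have hhalf : (4 : ℝ) ≤ (N : ℝ) ^ ((1 : ℝ) / 2) := by
    rw [← Real.sqrt_eq_rpow]
    refine Real.le_sqrt_of_sq_le ?_
    linarith
  have hA_half : (N : ℝ) ^ ((1 : ℝ) / 2 + 1 / (2 * k)) / 2 ≤ A := by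
    have h2 : (N : ℝ) ^ ((1 : ℝ) / 2) ≤ (N : ℝ) ^ ((1 : ℝ) / 2 + 1 / (2 * k)) :=
      Real.rpow_le_rpow_of_exponent_le hN1 (by linarith)
    linarith
  have hA0 : (0 : ℝ) < A := by
    have h2 : (0 : ℝ) < (N : ℝ) ^ ((1 : ℝ) / 2 + 1 / (2 * k)) := by positivity
    linarith
  have hA1 : 1 ≤ A := by
    have h2 : 0 < A := by exact_mod_cast hA0
    omega
  have hAB : A ≤ B := by
    refine Nat.floor_le_floor ?_
    exact Real.rpow_le_rpow_of_exponent_le hN1 (by rw [h2k]; linarith)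
  have hB0 : (0 : ℝ) < B := lt_of_lt_of_le hA0 (by exact_mod_cast hAB)
  -- the logarithm of `B / A`
  have hL : Real.log (B / A) + 1 ≤ 2 * (Real.log N / (2 * k)) := by
    have h2 : Real.log ((N : ℝ) ^ ((1 : ℝ) / 2 + 1 / (2 * k)) / 2) ≤ Real.log A := Real.log_le_log (by positivity) hA_half
    have h3 : Real.log B ≤ Real.log ((N : ℝ) ^ ((1 : ℝ) / 2 + 1 / k)) := Real.log_le_log hB0 hB_le
    rw [Real.log_div (by positivity) (by norm_num), Real.log_rpow hN0] at h2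
    rw [Real.log_rpow hN0] at h3
    rw [Real.log_div hB0.ne' hA0.ne']
    have h4 : Real.log 2 ≤ 1 := by
      have := Real.log_two_lt_d9
      linarith
    have h5 : ((1 : ℝ) / 2 + 1 / k) * Real.log N - ((1 : ℝ) / 2 + 1 / (2 * k)) * Real.log N = Real.log N / (2 * k) := by
      rw [h2k]
      ring
    have h6 : 2 ≤ Real.log N / (2 * k) := by
      rw [le_div_iff₀ (by positivity)]
      linarith
    linarith
  have hlg0 : 0 ≤ Real.log N / (2 * k) := by positivity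
  -- lower bound for `V`
  have hVl : c' / Real.log N ≤ V z := by
    have h2 := hV z hz2 (pr z) (fun r hr => by
      unfold Pool.Agent.Lib.GT.pr at hr
      rw [Finset.mem_filter, Finset.mem_range] at hr
      exact ⟨hr.2, by omega⟩)
    have h3 : Real.log z ≤ Real.log N := Real.log_le_log hz0 hzN
    have h4 : 0 < Real.log z := Real.log_pos (by exact_mod_cast hz2)
    have h5 : c' / Real.log N ≤ c' / Real.log z := div_le_div_of_nonneg_left hc'.le h4 h3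
    exact h5.trans h2
  have hVpos := Pool.Agent.Lib.GT.V_pos z
  set v : ℝ := V z * (Real.log N / (2 * k)) with hv
  have hv1 : c' / (2 * k) ≤ v := by
    have h2 : c' / Real.log N * (Real.log N / (2 * k)) ≤ V z * (Real.log N / (2 * k)) :=
      mul_le_mul_of_nonneg_right hVl hlg0
    have h3 : c' / Real.log N * (Real.log N / (2 * k)) = c' / (2 * k) := by
      field_simp
    rw [h3] at h2
    exact h2
  have hv0 : 0 < v := lt_of_lt_of_le (by positivity) hv1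
  have hms : 3 / 4 * v ≤ ms (R0 k c N) := e0
  have hms0 : 0 < ms (R0 k c N) := by linarith
  refine ⟨C4b_wt hms0, ?_⟩
  intro X hX a
  have hmain := h4 b hb N z A B (by omega) hz2 hA1 hAB X a
  have hRS : RS N z A B = R0 k c N := rfl
  rw [hRS] at hmain
  have hS0 : 0 ≤ ∑ χ ∈ X, ‖a χ‖ ^ 2 := Finset.sum_nonneg fun _ _ => by positivity
  -- the error terms
  have hE1 : K4 * (1 / 2) ^ b * (V z * (Real.log (B / A) + 1)) ≤ 2 * K4 * (1 / 2) ^ b * v := by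
    have h2 : V z * (Real.log (B / A) + 1) ≤ 2 * v := by
      rw [hv]
      calc V z * (Real.log (B / A) + 1) ≤ V z * (2 * (Real.log N / (2 * k))) := mul_le_mul_of_nonneg_left hL hVpos.le
        _ = 2 * (V z * (Real.log N / (2 * k))) := by ring
    calc K4 * (1 / 2) ^ b * (V z * (Real.log (B / A) + 1)) ≤ K4 * (1 / 2) ^ b * (2 * v) :=
          mul_le_mul_of_nonneg_left h2 (by positivity)
      _ = 2 * K4 * (1 / 2) ^ b * v := by ring
  have hE2 : 4 * (z : ℝ) ^ (K4 * b) * (1 + X.card * PB N) / A ≤ 1 / 4 * (1 / 2) ^ b * v := by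
    have h2 : (z : ℝ) ^ (K4 * b) ≤ (N : ℝ) ^ (1 / (20 * (k : ℝ))) := by
      calc (z : ℝ) ^ (K4 * b) ≤ ((N : ℝ) ^ c) ^ (K4 * b) := pow_le_pow_left₀ hz0.le hz_le _
        _ = (N : ℝ) ^ (c * (K4 * b)) := by
            rw [← Real.rpow_natCast, ← Real.rpow_mul hN0.le]
            push_cast
            rfl
        _ ≤ (N : ℝ) ^ (1 / (20 * (k : ℝ))) := Real.rpow_le_rpow_of_exponent_le hN1 hexp
    have h3 : (X.card : ℝ) ≤ (N : ℝ) ^ (1 / (5 * (k : ℝ))) := by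
      calc (X.card : ℝ) ≤ (pw N (1 / (5 * k)) : ℝ) := by exact_mod_cast hX
        _ ≤ (N : ℝ) ^ (1 / (5 * (k : ℝ))) := Nat.floor_le (by positivity)
    have h5 := (hPB N (by omega)).1
    have h6 : (X.card : ℝ) * PB N ≤ Cp * (N : ℝ) ^ (1 / (5 * (k : ℝ)) + (1 / 2 + 1 / (20 * (k : ℝ)))) := by
      by_cases hPB0 : 0 ≤ PB N
      · calc (X.card : ℝ) * PB N ≤ (N : ℝ) ^ (1 / (5 * (k : ℝ))) * (Cp * (N : ℝ) ^ (1 / 2 + 1 / (20 * (k : ℝ)))) :=
              mul_le_mul h3 h5 hPB0 (by positivity)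
          _ = Cp * (N : ℝ) ^ (1 / (5 * (k : ℝ)) + (1 / 2 + 1 / (20 * (k : ℝ)))) := by
              rw [Real.rpow_add hN0 (1 / (5 * (k : ℝ))) (1 / 2 + 1 / (20 * (k : ℝ)))]
              ring
      · have h7 : (X.card : ℝ) * PB N ≤ 0 := mul_nonpos_of_nonneg_of_nonpos (by positivity) (by linarith)
        have h8 : 0 ≤ Cp * (N : ℝ) ^ (1 / (5 * (k : ℝ)) + (1 / 2 + 1 / (20 * (k : ℝ)))) := by positivity
        linarith
    have h7 : (1 : ℝ) ≤ (N : ℝ) ^ (1 / (5 * (k : ℝ)) + (1 / 2 + 1 / (20 * (k : ℝ)))) :=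
      Real.one_le_rpow hN1 (by positivity)
    have h8 : 1 + (X.card : ℝ) * PB N ≤ (1 + Cp) * (N : ℝ) ^ (1 / (5 * (k : ℝ)) + (1 / 2 + 1 / (20 * (k : ℝ)))) := by
      linarith
    have h9 : 4 * (z : ℝ) ^ (K4 * b) * (1 + X.card * PB N) ≤ 4 * (N : ℝ) ^ (1 / (20 * (k : ℝ))) *
        ((1 + Cp) * (N : ℝ) ^ (1 / (5 * (k : ℝ)) + (1 / 2 + 1 / (20 * (k : ℝ))))) := by
      by_cases hs : 0 ≤ 1 + (X.card : ℝ) * PB N
      · exact mul_le_mul (by linarith) h8 hs (by positivity)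
      · have h10 : 4 * (z : ℝ) ^ (K4 * b) * (1 + X.card * PB N) ≤ 0 :=
          mul_nonpos_of_nonneg_of_nonpos (by positivity) (by linarith)
        refine h10.trans (by positivity)
    have h10 : 4 * (z : ℝ) ^ (K4 * b) * (1 + X.card * PB N) / A ≤ 4 * (N : ℝ) ^ (1 / (20 * (k : ℝ))) *
        ((1 + Cp) * (N : ℝ) ^ (1 / (5 * (k : ℝ)) + (1 / 2 + 1 / (20 * (k : ℝ))))) /
        ((N : ℝ) ^ ((1 : ℝ) / 2 + 1 / (2 * k)) / 2) :=
      div_le_div₀ (by positivity) h9 (by positivity) hA_half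
    have h11 : 4 * (N : ℝ) ^ (1 / (20 * (k : ℝ))) *
        ((1 + Cp) * (N : ℝ) ^ (1 / (5 * (k : ℝ)) + (1 / 2 + 1 / (20 * (k : ℝ))))) /
        ((N : ℝ) ^ ((1 : ℝ) / 2 + 1 / (2 * k)) / 2) = 8 * (1 + Cp) * (N : ℝ) ^ (-(1 / (5 * (k : ℝ)))) := by
      have h12 : (N : ℝ) ^ (-(1 / (5 * (k : ℝ)))) = (N : ℝ) ^ (1 / (20 * (k : ℝ))) *
          (N : ℝ) ^ (1 / (5 * (k : ℝ)) + (1 / 2 + 1 / (20 * (k : ℝ)))) / (N : ℝ) ^ ((1 : ℝ) / 2 + 1 / (2 * k)) := by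
        rw [← Real.rpow_add hN0, ← Real.rpow_sub hN0]
        have hk' : (k : ℝ) ≠ 0 := by positivity
        have e20 : (1 : ℝ) / (20 * (k : ℝ)) = 1 / 20 * (1 / (k : ℝ)) := by field_simp
        have e5 : (1 : ℝ) / (5 * (k : ℝ)) = 1 / 5 * (1 / (k : ℝ)) := by field_simp
        have e2 : (1 : ℝ) / (2 * (k : ℝ)) = 1 / 2 * (1 / (k : ℝ)) := by field_simp
        rw [e20, e5, e2]
        congr 1
        ring
      rw [h12]
      have h13 : (0 : ℝ) < (N : ℝ) ^ ((1 : ℝ) / 2 + 1 / (2 * k)) := by positivity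
      field_simp
      ring
    rw [h11] at h10
    refine h10.trans (e1.trans ?_)
    rw [hδ]
    have h14 : (1 / 2 : ℝ) ^ b * (c' / (8 * k)) = 1 / 4 * (1 / 2) ^ b * (c' / (2 * k)) := by
      field_simp
      norm_num
    rw [h14]
    exact mul_le_mul_of_nonneg_left hv1 (by positivity)
  -- conclusion
  have hw : ∀ n ∈ R0 k c N, w0 k c N n * ‖∑ χ ∈ X, a χ * χ (n : ZMod N)‖ ^ 2 =
      (1 / (n : ℝ) * ‖∑ χ ∈ X, a χ * χ (n : ZMod N)‖ ^ 2) * (ms (R0 k c N))⁻¹ := by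
    intro n _
    unfold w0 wt
    rw [one_div, mul_inv, one_div]
    ring
  rw [Finset.sum_congr rfl hw, ← Finset.sum_mul, ← div_eq_mul_inv, div_le_iff₀ hms0, hKcast]
  refine hmain.trans ?_
  have hcoef : ms (R0 k c N) + K4 * (1 / 2) ^ b * (V z * (Real.log (B / A) + 1)) +
        4 * (z : ℝ) ^ (K4 * b) * (1 + X.card * PB N) / A ≤
      (1 + (K3 + 4 * K4 + 4) * (1 / 2) ^ b) * ms (R0 k c N) := by
    have h5 : (K3 + 4 * K4 + 4) * (1 / 2) ^ b * (3 / 4 * v) ≤ (K3 + 4 * K4 + 4) * (1 / 2) ^ b * ms (R0 k c N) :=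
      mul_le_mul_of_nonneg_left hms (by positivity)
    have h6 : 2 * K4 * (1 / 2) ^ b * v + 1 / 4 * (1 / 2) ^ b * v ≤ (K3 + 4 * K4 + 4) * (1 / 2) ^ b * (3 / 4 * v) := by
      have h7 : (K3 + 4 * K4 + 4) * (1 / 2) ^ b * (3 / 4 * v) - (2 * K4 * (1 / 2) ^ b * v + 1 / 4 * (1 / 2) ^ b * v) =
          ((1 / 2) ^ b * v) * (3 / 4 * K3 + K4 + 11 / 4) := by ring
      have h8 : 0 ≤ ((1 / 2 : ℝ) ^ b * v) * (3 / 4 * K3 + K4 + 11 / 4) := by positivity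
      linarith
    linarith
  calc _ ≤ ((1 + (K3 + 4 * K4 + 4) * (1 / 2) ^ b) * ms (R0 k c N)) * ∑ χ ∈ X, ‖a χ‖ ^ 2 :=
        mul_le_mul_of_nonneg_right hcoef hS0
    _ = _ := by ring

end Pool.Agent.Lib.PQ
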