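import Pool.Agent.Lib.MP_7b7e48_nt.GT.FundLemma
import Pool.Agent.Lib.MP_7b7e48_nt.GT.DensityTools
import Pool.Agent.Lib.MP_7b7e48_nt.PQ.Defs
import Pool.Agent.Lib.MP_7b7e48_nt.RG.A7
import Pool.Agent.Lib.Sieve.Mertens

/-!
# C5m (60 minutes): rough numbers in unit classes

PROOF. `GT.fund_lemma` with constant `K₁`. `C5m`: fix `b` with `K₁ (1/2)^b ≤ 1/2` and put `K = K₁ b`. Let `x₀ = x.val`,
`r_j = x₀ + N j`, `1 ≤ j < L = pw N (1/k)` (so `N < r_j`, as `x₀ ≥ 1` for a unit `x` and `N ≥ 2`, and `r_j ≤ N L ≤ N^(1+1/k)`, hence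
`≤ pw N (1+1/k)`), `z = pw N c`, `P` = primes `≤ z` not dividing `N`, `Ω p` = the class of the `j` with `p ∣ r_j`. The number of `j` with
`r_j` free of the primes of `P` is `≥ (1/2) (L - 1) ∏_P (1 - 1/p) - z^(K₁ b)`; `∏_P (1 - 1/p) ≥ c'/log z` (`RG.prod_lower`),
`z^(K₁ b) ≤ N^(1/(20k))`: positive for large `N`. The primes dividing `N` do not divide `r_j` (unit class).
`E1x`: the same sieve, upper bound, `0 ≤ j ≤ B1/N`: `≤ 2 (B1/N + 1) ∏_P (1 - 1/p) + z^K`, and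
`∏_P (1 - 1/p) = V z / ∏_{p ∣ N, p ≤ z} (1 - 1/p) ≤ V z * N/φ(N)`, `V z ≤ C/log z ≤ 2C/(c log N)` (`Sieve.mertens_product_upper` or
`Mertens3`).
-/

set_option autoImplicit false

open Finset
open Pool.Agent.Lib.GT (Rough pr V)
open Pool.Agent.Lib.MP_45349e_nt.LS (lam)
open Pool.Agent.Lib.RG (RC LV rr SS PB sig)

namespace Pool.Agent.Lib.PQ

/-- the primes up to `z` which do not divide `N` -/
private def c5P (z N : ℕ) : Finset ℕ := (pr z).filter fun p => ¬ p ∣ N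

/-- the sieve in an arithmetic progression -/
private theorem c5_sieve : ∃ K : ℕ, 1 ≤ K ∧ ∀ z N x A L : ℕ, 2 ≤ z →
    |(((Finset.range L).filter (fun j => ∀ p ∈ c5P z N, ¬ p ∣ x + N * (A + j))).card : ℝ) -
      L * GT.RE.Wq z N| ≤ 1 / 2 * (L * GT.RE.Wq z N) + (z : ℝ) ^ K := by
  classical
  obtain ⟨K₁, hK₁, hfl⟩ := GT.fund_lemma
  have hb : (K₁ : ℝ) * (1 / 2) ^ (K₁ + 1) ≤ 1 / 2 := by
    have h1 : (K₁ : ℝ) ≤ 2 ^ K₁ := by exact_mod_cast (Nat.lt_two_pow_self).le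
    have h2 : (0 : ℝ) < 2 ^ K₁ := by positivity
    rw [one_div_pow, pow_succ, mul_one_div, div_le_iff₀ (by positivity)]
    linarith
  refine ⟨K₁ * (K₁ + 1), Nat.mul_pos hK₁ (by omega), ?_⟩
  intro z N x A L hz
  have hP : ∀ r ∈ c5P z N, r.Prime ∧ r ≤ z ∧ ¬ r ∣ N := by
    intro r hr
    have h1 := Finset.mem_filter.1 hr
    have h2 := Finset.mem_filter.1 h1.1
    have h3 := Finset.mem_range.1 h2.1
    exact ⟨h2.2, by omega, h1.2⟩
  set Ω : ℕ → Finset ℕ := fun p => (Finset.range p).filter (fun j => p ∣ x + N * j) with hΩ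
  have hone : ∀ r ∈ c5P z N, (Ω r).card = 1 := by
    intro r hr
    obtain ⟨h1, -, h2⟩ := hP r hr
    haveI : Fact r.Prime := ⟨h1⟩
    have hN : (N : ZMod r) ≠ 0 := by
      rwa [ne_eq, ZMod.natCast_eq_zero_iff]
    rw [Finset.card_eq_one]
    refine ⟨(-(x : ZMod r) * (N : ZMod r)⁻¹).val, ?_⟩
    ext j
    rw [hΩ, Finset.mem_filter, Finset.mem_range, Finset.mem_singleton,
      ← ZMod.natCast_eq_zero_iff]
    push_cast
    constructor
    · rintro ⟨h3, h4⟩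
      have h5 : (j : ZMod r) = -(x : ZMod r) * (N : ZMod r)⁻¹ := by
        have h6 : (N : ZMod r) * j = -(x : ZMod r) := by
          linear_combination h4
        rw [← h6, mul_comm (N : ZMod r), mul_assoc, mul_inv_cancel₀ hN, mul_one]
      rw [← h5, ZMod.val_cast_of_lt h3]
    · intro h3
      have h4 : (j : ZMod r) = -(x : ZMod r) * (N : ZMod r)⁻¹ := by
        rw [h3, ZMod.natCast_zmod_val]
      refine ⟨?_, ?_⟩
      · rw [h3]
        exact ZMod.val_lt _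
      · rw [h4, mul_comm (N : ZMod r), mul_assoc, inv_mul_cancel₀ hN]
        ring
  have h := hfl (K₁ + 1) (by omega) z hz (c5P z N) (fun r hr => ⟨(hP r hr).1, (hP r hr).2.1⟩) Ω
    (fun r hr => by
      refine ⟨by rw [hone r hr]; norm_num, by rw [hone r hr]; exact (hP r hr).1.one_lt, ?_⟩
      intro y hy
      exact Finset.mem_range.1 (Finset.mem_filter.1 hy).1) A L
  have hprod : ∏ r ∈ c5P z N, (1 - ((Ω r).card : ℝ) / r) = GT.RE.Wq z N := by
    unfold GT.RE.Wq c5P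
    refine Finset.prod_congr rfl fun r hr => ?_
    rw [hone r hr, Nat.cast_one]
  have hset : (Finset.range L).filter (fun k => ∀ r ∈ c5P z N, (A + k) % r ∉ Ω r) =
      (Finset.range L).filter (fun j => ∀ p ∈ c5P z N, ¬ p ∣ x + N * (A + j)) := by
    refine Finset.filter_congr fun k _ => forall₂_congr fun r hr => not_congr ?_
    rw [hΩ, Finset.mem_filter, Finset.mem_range]
    have hr0 : 0 < r := (hP r hr).1.pos
    have h1 : x + N * ((A + k) % r) ≡ x + N * (A + k) [MOD r] :=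
      Nat.ModEq.add_left x (Nat.ModEq.mul_left N (Nat.mod_modEq _ _))
    constructor
    · rintro ⟨-, h2⟩
      exact (h1.dvd_iff dvd_rfl).1 h2
    · intro h2
      exact ⟨Nat.mod_lt _ hr0, (h1.dvd_iff dvd_rfl).2 h2⟩
  rw [hprod, hset] at h
  refine h.trans ?_
  have hW : 0 ≤ (L : ℝ) * GT.RE.Wq z N := mul_nonneg (Nat.cast_nonneg L) (GT.RE.Wq_pos z N).le
  have h2 := mul_le_mul_of_nonneg_right hb hW
  linarith

/-- an eventual inequality for powers of natural numbers -/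
private theorem c5_ev_pow {a : ℝ} (ha : 0 < a) (C : ℝ) :
    ∀ᶠ N : ℕ in Filter.atTop, C ≤ (N : ℝ) ^ a :=
  ((tendsto_rpow_atTop ha).comp tendsto_natCast_atTop_atTop).eventually_ge_atTop C

private theorem c5_ev_log {a δ : ℝ} (ha : 0 < a) (hδ : 0 < δ) :
    ∀ᶠ N : ℕ in Filter.atTop, Real.log N ≤ δ * (N : ℝ) ^ a := by
  have h1 := (isLittleO_log_rpow_atTop ha).bound hδ
  have h2 := tendsto_natCast_atTop_atTop.eventually h1
  filter_upwards [h2] with N hN
  have h3 : 0 ≤ (N : ℝ) ^ a := Real.rpow_nonneg (Nat.cast_nonneg N) a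
  rw [Real.norm_eq_abs, Real.norm_eq_abs, abs_of_nonneg h3] at hN
  exact (le_abs_self _).trans hN

private theorem c5_pw_pow {N K k : ℕ} {c : ℝ} (hN : 1 ≤ N) (hk : 0 < k) (hc : 0 < c)
    (h : c * (20 * k * K) ≤ 1) : (pw N c : ℝ) ^ K ≤ (N : ℝ) ^ (1 / (20 * (k : ℝ))) := by
  have hN0 : (0 : ℝ) ≤ N := Nat.cast_nonneg N
  have hN1 : (1 : ℝ) ≤ N := by exact_mod_cast hN
  have hk0 : (0 : ℝ) < k := by exact_mod_cast hk
  have h1 : (pw N c : ℝ) ≤ (N : ℝ) ^ c := Nat.floor_le (Real.rpow_nonneg hN0 c)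
  calc (pw N c : ℝ) ^ K ≤ ((N : ℝ) ^ c) ^ K := pow_le_pow_left₀ (Nat.cast_nonneg _) h1 K
    _ = (N : ℝ) ^ (c * K) := by rw [Real.rpow_mul hN0, Real.rpow_natCast]
    _ ≤ (N : ℝ) ^ (1 / (20 * (k : ℝ))) := by
        refine Real.rpow_le_rpow_of_exponent_le hN1 ?_
        rw [le_div_iff₀ (by positivity)]
        linarith

theorem C5m : ∃ K : ℕ, 1 ≤ K ∧ ∀ k : ℕ, 160 ≤ k → ∀ c : ℝ, 0 < c → c * (20 * k * K) ≤ 1 →
    ∃ N0 : ℕ, ∀ (N : ℕ) [NeZero N], N0 ≤ N → ∀ x : ZMod N, IsUnit x →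
    ∃ r : ℕ, N < r ∧ r ≤ pw N (1 + 1 / k) ∧ (r : ZMod N) = x ∧ Rough (pw N c) r := by
  classical
  obtain ⟨K, hK, hsieve⟩ := c5_sieve
  obtain ⟨c', hc', hlow⟩ := Pool.Agent.Lib.RG.prod_lower
  refine ⟨K, hK, ?_⟩
  intro k hk c hc hck
  have hk0 : (0 : ℝ) < k := by
    have : 0 < k := by omega
    exact_mod_cast this
  have hk160 : (160 : ℝ) ≤ k := by exact_mod_cast hk
  have hK1 : (1 : ℝ) ≤ K := by exact_mod_cast hK
  have hc1 : c ≤ 1 := by
    by_contra hcon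
    have h1 : 1 < c := not_le.1 hcon
    nlinarith [mul_le_mul hk160 hK1 zero_le_one hk0.le]
  have ev : ∀ᶠ N : ℕ in Filter.atTop, 2 ≤ N ∧ 2 ≤ (N : ℝ) ^ c ∧ 4 ≤ (N : ℝ) ^ (1 / (k : ℝ)) ∧
      Real.log N ≤ c' / 8 * (N : ℝ) ^ (19 / (20 * (k : ℝ))) := by
    filter_upwards [Filter.eventually_ge_atTop 2, c5_ev_pow hc 2,
      c5_ev_pow (a := 1 / (k : ℝ)) (by positivity) 4,
      c5_ev_log (a := 19 / (20 * (k : ℝ))) (δ := c' / 8) (by positivity) (by positivity)]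
      with N h1 h2 h3 h4
    exact ⟨h1, h2, h3, h4⟩
  obtain ⟨N0, hN0⟩ := Filter.eventually_atTop.1 ev
  refine ⟨N0, ?_⟩
  intro N _ hN x hx
  obtain ⟨hN2, hNc, hNk, hNl⟩ := hN0 N hN
  have hNr : (2 : ℝ) ≤ N := by exact_mod_cast hN2
  have hNr0 : (0 : ℝ) < N := by linarith
  have hlogN : 0 < Real.log N := Real.log_pos (by linarith)
  set z := pw N c with hz
  have hz2 : 2 ≤ z := Nat.le_floor (by exact_mod_cast hNc)
  have hzr : (2 : ℝ) ≤ z := by exact_mod_cast hz2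
  have hzN : (z : ℝ) ≤ N := by
    refine (Nat.floor_le (Real.rpow_nonneg hNr0.le c)).trans ?_
    calc (N : ℝ) ^ c ≤ (N : ℝ) ^ (1 : ℝ) := Real.rpow_le_rpow_of_exponent_le (by linarith) hc1
      _ = N := Real.rpow_one _
  have hlogz : 0 < Real.log z := Real.log_pos (by linarith)
  have hlogzN : Real.log z ≤ Real.log N := Real.log_le_log (by linarith) hzN
  set L0 := pw N (1 / k) with hL0
  have hL0a : (N : ℝ) ^ (1 / (k : ℝ)) - 1 ≤ L0 := by
    have := Nat.lt_floor_add_one ((N : ℝ) ^ (1 / (k : ℝ)))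
    have h1 : ((⌊(N : ℝ) ^ (1 / (k : ℝ))⌋₊ : ℕ) : ℝ) = L0 := by rw [hL0, pw]
    linarith
  have hL0b : (L0 : ℝ) ≤ (N : ℝ) ^ (1 / (k : ℝ)) :=
    Nat.floor_le (Real.rpow_nonneg hNr0.le _)
  have hL01 : 1 ≤ L0 := by
    have h1 : (1 : ℝ) ≤ L0 := by linarith
    exact_mod_cast h1
  set L := L0 - 1 with hL
  have hLr : (L : ℝ) = L0 - 1 := by
    rw [hL, Nat.cast_sub hL01, Nat.cast_one]
  have hLa : (N : ℝ) ^ (1 / (k : ℝ)) / 2 ≤ L := by
    rw [hLr]
    linarith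
  have hW : c' / Real.log N ≤ GT.RE.Wq z N := by
    have h1 := hlow z hz2 (c5P z N) (fun r hr => by
      have h1 := Finset.mem_filter.1 hr
      have h2 := Finset.mem_filter.1 h1.1
      have h3 := Finset.mem_range.1 h2.1
      exact ⟨h2.2, by omega⟩)
    refine le_trans ?_ h1
    exact div_le_div_of_nonneg_left hc'.le hlogz hlogzN
  have hcop : Nat.Coprime x.val N := (ZMod.isUnit_iff_coprime x.val N).1 (by
    rwa [ZMod.natCast_zmod_val])
  have hmain := hsieve z N x.val 1 L hz2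
  have hzK := c5_pw_pow (K := K) (by omega : 1 ≤ N) (by omega : 0 < k) hc hck
  have hpos : (z : ℝ) ^ K < 1 / 2 * (L * GT.RE.Wq z N) := by
    refine lt_of_le_of_lt hzK ?_
    have hN19 : (N : ℝ) ^ (1 / (k : ℝ)) =
        (N : ℝ) ^ (1 / (20 * (k : ℝ))) * (N : ℝ) ^ (19 / (20 * (k : ℝ))) := by
      rw [← Real.rpow_add hNr0]
      congr 1
      field_simp
      norm_num
    have hp1 : 0 < (N : ℝ) ^ (1 / (20 * (k : ℝ))) := Real.rpow_pos_of_pos hNr0 _
    have hp2 : 0 < (N : ℝ) ^ (19 / (20 * (k : ℝ))) := Real.rpow_pos_of_pos hNr0 _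
    have h1 : (N : ℝ) ^ (1 / (k : ℝ)) / 2 * (c' / Real.log N) ≤ L * GT.RE.Wq z N :=
      mul_le_mul hLa hW (by positivity) (Nat.cast_nonneg _)
    have h2 : (N : ℝ) ^ (1 / (20 * (k : ℝ))) * 8 / 2 ≤
        (N : ℝ) ^ (1 / (k : ℝ)) / 2 * (c' / Real.log N) := by
      rw [hN19]
      have h3 : 8 ≤ (N : ℝ) ^ (19 / (20 * (k : ℝ))) * (c' / Real.log N) := by
        rw [mul_div_assoc', le_div_iff₀ hlogN]
        linarith
      calc (N : ℝ) ^ (1 / (20 * (k : ℝ))) * 8 / 2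
          ≤ (N : ℝ) ^ (1 / (20 * (k : ℝ))) *
            ((N : ℝ) ^ (19 / (20 * (k : ℝ))) * (c' / Real.log N)) / 2 := by gcongr
        _ = _ := by ring
    linarith
  have hcard : (0 : ℝ) < (((Finset.range L).filter
      (fun j => ∀ p ∈ c5P z N, ¬ p ∣ x.val + N * (1 + j))).card : ℝ) := by
    have h1 := (abs_le.1 hmain).1
    linarith
  have hcard' : 0 < ((Finset.range L).filter
      (fun j => ∀ p ∈ c5P z N, ¬ p ∣ x.val + N * (1 + j))).card := by exact_mod_cast hcard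
  obtain ⟨j, hj⟩ := Finset.card_pos.1 hcard'
  obtain ⟨hjL, hjP⟩ := Finset.mem_filter.1 hj
  rw [Finset.mem_range] at hjL
  have hx1 : 1 ≤ x.val := by
    rcases Nat.eq_zero_or_pos x.val with h0 | h0
    · rw [h0, Nat.coprime_zero_left] at hcop
      omega
    · exact h0
  have hxN : x.val < N := ZMod.val_lt x
  refine ⟨x.val + N * (1 + j), ?_, ?_, ?_, ?_⟩
  · nlinarith
  · refine Nat.le_floor ?_
    have h1 : x.val + N * (1 + j) ≤ N * L0 := by
      have h2 : 1 + j + 1 ≤ L0 := by omega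
      calc x.val + N * (1 + j) ≤ N + N * (1 + j) := by omega
        _ = N * (1 + j + 1) := by ring
        _ ≤ N * L0 := Nat.mul_le_mul_left N h2
    calc ((x.val + N * (1 + j) : ℕ) : ℝ) ≤ ((N * L0 : ℕ) : ℝ) := by exact_mod_cast h1
      _ = (N : ℝ) * L0 := by push_cast; ring
      _ ≤ (N : ℝ) * (N : ℝ) ^ (1 / (k : ℝ)) := mul_le_mul_of_nonneg_left hL0b hNr0.le
      _ = (N : ℝ) ^ (1 + 1 / (k : ℝ)) := by rw [Real.rpow_add hNr0, Real.rpow_one]
  · push_cast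
    rw [ZMod.natCast_zmod_val, ZMod.natCast_self, zero_mul, add_zero]
  · intro p hp hpd
    by_contra hcon
    have hpz : p ≤ z := not_lt.1 hcon
    have hpN : ¬ p ∣ N := by
      intro hpN
      have h1 : p ∣ x.val := by
        have h2 := (Nat.dvd_add_left (hpN.mul_right (1 + j))).1 hpd
        exact h2
      exact Nat.not_coprime_of_dvd_of_dvd hp.one_lt h1 hpN hcop
    exact hjP p (Finset.mem_filter.2 ⟨Finset.mem_filter.2
      ⟨Finset.mem_range.2 (by omega), hp⟩, hpN⟩) hpd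

open Classical in
theorem E1x : ∃ K : ℕ, 1 ≤ K ∧ ∃ C : ℝ, 0 < C ∧ ∀ k : ℕ, 160 ≤ k → ∀ c : ℝ, 0 < c → c * (20 * k * K) ≤ 1 →
    ∃ N0 : ℕ, ∀ (N : ℕ) [NeZero N], N0 ≤ N → ∀ x : ZMod N, IsUnit x →
    (((Finset.Icc 1 (B1 k N)).filter (fun n : ℕ => (n : ZMod N) = x ∧ Rough (pw N c) n)).card : ℝ) ≤
      C / c * (B1 k N / (N.totient * Real.log N)) := by
  obtain ⟨K, hK, hsieve⟩ := c5_sieve
  refine ⟨K, hK, 7, by norm_num, ?_⟩
  intro k hk c hc hck
  have hk0 : (0 : ℝ) < k := by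
    have : 0 < k := by omega
    exact_mod_cast this
  have hk160 : (160 : ℝ) ≤ k := by exact_mod_cast hk
  have hK1 : (1 : ℝ) ≤ K := by exact_mod_cast hK
  have hc1 : c ≤ 1 := by
    by_contra hcon
    have h1 : 1 < c := not_le.1 hcon
    nlinarith [mul_le_mul hk160 hK1 zero_le_one hk0.le]
  have ev : ∀ᶠ N : ℕ in Filter.atTop, 2 ≤ N ∧ 2 ≤ (N : ℝ) ^ (c / 2) ∧
      2 ≤ (N : ℝ) ^ (1 + 8 / (k : ℝ)) ∧
      Real.log N ≤ 1 / 2 * (N : ℝ) ^ (159 / (20 * (k : ℝ))) := by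
    filter_upwards [Filter.eventually_ge_atTop 2, c5_ev_pow (half_pos hc) 2,
      c5_ev_pow (a := 1 + 8 / (k : ℝ)) (by positivity) 2,
      c5_ev_log (a := 159 / (20 * (k : ℝ))) (δ := 1 / 2) (by positivity) (by norm_num)]
      with N h1 h2 h3 h4
    exact ⟨h1, h2, h3, h4⟩
  obtain ⟨N0, hN0⟩ := Filter.eventually_atTop.1 ev
  refine ⟨N0, ?_⟩
  intro N _ hN x hx
  obtain ⟨hN2, hNc, hNk, hNl⟩ := hN0 N hN
  have hNr : (2 : ℝ) ≤ N := by exact_mod_cast hN2
  have hNr0 : (0 : ℝ) < N := by linarith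
  have hNpos : 0 < N := by omega
  have hlogN : 0 < Real.log N := Real.log_pos (by linarith)
  have hsq : (N : ℝ) ^ c = (N : ℝ) ^ (c / 2) * (N : ℝ) ^ (c / 2) := by
    rw [← Real.rpow_add hNr0]
    congr 1
    ring
  set z := pw N c with hz
  have hz2' : (N : ℝ) ^ (c / 2) ≤ z := by
    have h1 := Nat.lt_floor_add_one ((N : ℝ) ^ c)
    have h2 : ((⌊(N : ℝ) ^ c⌋₊ : ℕ) : ℝ) = z := by rw [hz, pw]
    nlinarith
  have hzr : (2 : ℝ) ≤ z := hNc.trans hz2'
  have hz2 : 2 ≤ z := by exact_mod_cast hzr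
  have hlogz : c / 2 * Real.log N ≤ Real.log z := by
    rw [← Real.log_rpow hNr0]
    exact Real.log_le_log (by positivity) hz2'
  set B := B1 k N with hB
  have hBa : (N : ℝ) ^ (1 + 8 / (k : ℝ)) / 2 ≤ B := by
    have h1 := Nat.lt_floor_add_one ((N : ℝ) ^ (1 + 8 / (k : ℝ)))
    have h2 : ((⌊(N : ℝ) ^ (1 + 8 / (k : ℝ))⌋₊ : ℕ) : ℝ) = B := by rw [hB, B1, pw]
    linarith
  have hNB : N ≤ B := by
    refine Nat.le_floor ?_
    calc ((N : ℕ) : ℝ) = (N : ℝ) ^ (1 : ℝ) := (Real.rpow_one _).symm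
      _ ≤ (N : ℝ) ^ (1 + 8 / (k : ℝ)) :=
        Real.rpow_le_rpow_of_exponent_le (by linarith) (by linarith [div_pos (by norm_num : (0:ℝ) < 8) hk0])
  have hphi : 0 < N.totient := Nat.totient_pos.2 hNpos
  have hphir : (0 : ℝ) < N.totient := by exact_mod_cast hphi
  have hphiN : (N.totient : ℝ) ≤ N := by exact_mod_cast Nat.totient_le N
  -- the injection
  set L := B / N + 1 with hL
  have hcard : (((Finset.Icc 1 B).filter
      (fun n : ℕ => (n : ZMod N) = x ∧ Rough z n)).card : ℝ) ≤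
      (((Finset.range L).filter (fun j => ∀ p ∈ c5P z N, ¬ p ∣ x.val + N * (0 + j))).card : ℝ) := by
    have hval : ∀ n : ℕ, (n : ZMod N) = x → x.val + N * (n / N) = n := by
      intro n hn
      rw [← hn, ZMod.val_natCast]
      exact Nat.mod_add_div n N
    have h1 : ((Finset.Icc 1 B).filter (fun n : ℕ => (n : ZMod N) = x ∧ Rough z n)).card ≤
        ((Finset.range L).filter (fun j => ∀ p ∈ c5P z N, ¬ p ∣ x.val + N * (0 + j))).card := by
      refine Finset.card_le_card_of_injOn (fun n => n / N) ?_ ?_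
      · intro n hn
        obtain ⟨h2, h3, h4⟩ := Finset.mem_filter.1 (Finset.mem_coe.1 hn)
        rw [Finset.mem_Icc] at h2
        refine Finset.mem_coe.2 (Finset.mem_filter.2 ⟨Finset.mem_range.2 ?_, ?_⟩)
        · rw [hL]
          exact Nat.lt_succ_of_le (Nat.div_le_div_right h2.2)
        · intro p hp hpd
          rw [zero_add, hval n h3] at hpd
          have h5 := Finset.mem_filter.1 hp
          have h6 := Finset.mem_filter.1 h5.1
          have h7 := Finset.mem_range.1 h6.1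
          have h8 := h4 p h6.2 hpd
          omega
      · intro n hn m hm hnm
        have h3 := (Finset.mem_filter.1 (Finset.mem_coe.1 hn)).2.1
        have h4 := (Finset.mem_filter.1 (Finset.mem_coe.1 hm)).2.1
        have h5 : n / N = m / N := hnm
        rw [← hval n h3, ← hval m h4, h5]
    exact_mod_cast h1
  have hmain := (abs_le.1 (hsieve z N x.val 0 L hz2)).2
  have hzK := c5_pw_pow (K := K) (by omega : 1 ≤ N) (by omega : 0 < k) hc hck
  -- the density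
  have hW : GT.RE.Wq z N ≤ 2 * N / (c * (N.totient * Real.log N)) := by
    have h1 := GT.RE.Wq_mul_totient_le z N hNpos
    have h2 := GT.RE.V_le_inv_log z hz2
    have hlz : 0 < Real.log z := Real.log_pos (by linarith)
    have h3 : V z ≤ 2 / (c * Real.log N) := by
      refine h2.trans ?_
      rw [div_le_div_iff₀ hlz (by positivity)]
      linarith
    have h4 : GT.RE.Wq z N * N.totient ≤ N * (2 / (c * Real.log N)) :=
      h1.trans (mul_le_mul_of_nonneg_left h3 hNr0.le)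
    rw [le_div_iff₀ (by positivity)]
    have h5 : GT.RE.Wq z N * (c * (N.totient * Real.log N)) =
        GT.RE.Wq z N * N.totient * (c * Real.log N) := by ring
    have h6 : (N : ℝ) * (2 / (c * Real.log N)) * (c * Real.log N) = 2 * N := by
      field_simp
    rw [h5, ← h6]
    exact mul_le_mul_of_nonneg_right h4 (by positivity)
  have hLr : (L : ℝ) ≤ 2 * B / N := by
    have h1 : ((B / N : ℕ) : ℝ) ≤ (B : ℝ) / N := Nat.cast_div_le
    have h2 : (1 : ℝ) ≤ (B : ℝ) / N := by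
      rw [le_div_iff₀ hNr0, one_mul]
      exact_mod_cast hNB
    have h3 : (L : ℝ) = ((B / N : ℕ) : ℝ) + 1 := by rw [hL]; push_cast; ring
    have h4 : 2 * (B : ℝ) / N = (B : ℝ) / N + (B : ℝ) / N := by ring
    rw [h3, h4]
    linarith
  have hLW : (L : ℝ) * GT.RE.Wq z N ≤ 4 * (1 / c * (B / (N.totient * Real.log N))) := by
    calc (L : ℝ) * GT.RE.Wq z N ≤ (2 * B / N) * (2 * N / (c * (N.totient * Real.log N))) :=
          mul_le_mul hLr hW (GT.RE.Wq_pos z N).le (by positivity)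
      _ = 4 * (1 / c * (B / (N.totient * Real.log N))) := by
          field_simp
          ring
  have hsmall : (N : ℝ) ^ (1 / (20 * (k : ℝ))) ≤ 1 / c * (B / (N.totient * Real.log N)) := by
    have hp1 : 0 < (N : ℝ) ^ (1 / (20 * (k : ℝ))) := Real.rpow_pos_of_pos hNr0 _
    have h1 : (N : ℝ) ^ (1 + 8 / (k : ℝ)) =
        N * ((N : ℝ) ^ (1 / (20 * (k : ℝ))) * (N : ℝ) ^ (159 / (20 * (k : ℝ)))) := by
      rw [← Real.rpow_add hNr0]
      have h0 : 1 + 8 / (k : ℝ) = 1 + (1 / (20 * (k : ℝ)) + 159 / (20 * (k : ℝ))) := by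
        rw [← add_div, add_right_inj, div_eq_div_iff hk0.ne' (by positivity)]
        ring
      rw [h0, Real.rpow_add hNr0, Real.rpow_one]
    have h2 : (N : ℝ) ^ (1 / (20 * (k : ℝ))) * (N.totient * Real.log N) ≤ B := by
      calc (N : ℝ) ^ (1 / (20 * (k : ℝ))) * (N.totient * Real.log N)
          ≤ (N : ℝ) ^ (1 / (20 * (k : ℝ))) *
            (N * (1 / 2 * (N : ℝ) ^ (159 / (20 * (k : ℝ))))) := by gcongr
        _ = (N : ℝ) ^ (1 + 8 / (k : ℝ)) / 2 := by rw [h1]; ring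
        _ ≤ B := hBa
    have h3 : (N : ℝ) ^ (1 / (20 * (k : ℝ))) ≤ B / (N.totient * Real.log N) := by
      rw [le_div_iff₀ (by positivity)]
      exact h2
    have h4 : (1 : ℝ) ≤ 1 / c := by
      rw [le_div_iff₀ hc, one_mul]
      exact hc1
    have h5 : 0 ≤ (B : ℝ) / (N.totient * Real.log N) := by positivity
    calc (N : ℝ) ^ (1 / (20 * (k : ℝ))) ≤ 1 * (B / (N.totient * Real.log N)) := by
          rw [one_mul]
          exact h3
      _ ≤ _ := mul_le_mul_of_nonneg_right h4 h5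
  calc (((Finset.Icc 1 B).filter (fun n : ℕ => (n : ZMod N) = x ∧ Rough z n)).card : ℝ)
      ≤ L * GT.RE.Wq z N + (1 / 2 * (L * GT.RE.Wq z N) + (z : ℝ) ^ K) := by linarith
    _ ≤ 7 * (1 / c * (B / (N.totient * Real.log N))) := by linarith
    _ = 7 / c * (B / (N.totient * Real.log N)) := by ring

end Pool.Agent.Lib.PQ
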