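import Pool.Agent.Lib.MP_7b7e48_nt.PQ.P0s
import Pool.Agent.Lib.MP_7b7e48_nt.PQ.C6m
import Pool.Agent.Lib.MP_7b7e48_nt.PQ.C7m
import Pool.Agent.Lib.MP_7b7e48_nt.PQ.C9m

/-!
# C8s: the constant is below 4, also for the large sets of primes (strong form of C8m)

PROOF. `C7m` with `Q = QQ k N`, a subset of the primes in `(Z, B]`, `Z = pw N (1/4 + 7/(2k)) ≤ N`, `B = B1 k N`, and `C6m`:
`T = (B / log Z + Z² (1 + #X PB N)) / #QQ`. With `δ = 8/k ≤ 1/20`: `log Z ≥ (1 - e) (1/4 + 7/(2k)) log N`,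
`#QQ ≥ (1 - e) B / log B ≥ (1 - e) B / ((1 + 8/k) log N)` (`C9m`), `Z² (1 + #X PB N) ≤ N^(1/2 + 7/k + 1/(10k) + 1/2 + 1/(10k))
≤ e * B / (log N)²` (`RG.PB_le`), so `T ≤ (1 + 5e) (1 + 8/k) / (1/4 + 7/(2k)) = (1 + 5e) * 4 (1 + 8/k) / (1 + 14/k)`. Since
`(4 - 16/k)(1 + 14/k) - 4 (1 + 8/k) = (8/k)(1 - 28/k) > 0` for `k ≥ 160`, `e = 1/(100 k)` is small enough.
-/

set_option autoImplicit false

open Finset
open Pool.Agent.Lib.GT (Rough pr V)
open Pool.Agent.Lib.MP_45349e_nt.LS (lam)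
open Pool.Agent.Lib.RG (RC LV rr SS PB sig)

namespace Pool.Agent.Lib.PQ

private theorem C8s_floor (y : ℝ) (hy : 1 ≤ y) : y / 2 ≤ (⌊y⌋₊ : ℝ) := by
  have h1 : (1 : ℝ) ≤ (⌊y⌋₊ : ℝ) := by
    have : 1 ≤ ⌊y⌋₊ := by
      rw [Nat.one_le_floor_iff]
      exact hy
    exact_mod_cast this
  have h2 := Nat.lt_floor_add_one y
  linarith

/-- the numerical inequality -/
private theorem C8s_num (x : ℝ) (h0 : 0 < x) (h1 : x ≤ 1 / 160) :
    4 / ((1 - x / 100) * (1 + 14 * x)) + x / 100 ≤ (4 - 16 * x) * ((1 - x / 100) / (1 + 8 * x)) := by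
  have d1 : 0 < (1 - x / 100) * (1 + 14 * x) := by
    apply mul_pos <;> linarith
  have d2 : 0 < 1 + 8 * x := by linarith
  have e1 : 4 / ((1 - x / 100) * (1 + 14 * x)) + x / 100 =
      (4 + x / 100 * ((1 - x / 100) * (1 + 14 * x))) / ((1 - x / 100) * (1 + 14 * x)) := by
    rw [eq_div_iff d1.ne', add_mul, div_mul_cancel₀ _ d1.ne']
  rw [e1, mul_div_assoc', div_le_div_iff₀ d1 d2]
  have h2 : 0 ≤ 1 / 160 - x := by linarith
  have h3 : 0 ≤ x * (1 / 160 - x) := mul_nonneg h0.le h2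
  have h4 : 0 ≤ x ^ 2 * (1 / 160 - x) := mul_nonneg (by positivity) h2
  have h5 : 0 ≤ x ^ 3 * (1 / 160 - x) := mul_nonneg (by positivity) h2
  have h6 : 0 ≤ x ^ 4 := by positivity
  nlinarith

private theorem C8s_large (a K : ℝ) (ha : 0 < a) (hK : 0 < K) : ∃ N0 : ℕ, ∀ N : ℕ, N0 ≤ N →
    K * Real.log N ≤ (N : ℝ) ^ a := by
  have h1 := (isLittleO_log_rpow_atTop ha).def (c := 1 / K) (by positivity)
  have h3 := (tendsto_natCast_atTop_atTop (R := ℝ)).eventually h1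
  obtain ⟨N0, h4⟩ := Filter.eventually_atTop.mp h3
  refine ⟨N0, fun N hN => ?_⟩
  have h5 := h4 N hN
  rw [Real.norm_of_nonneg (Real.log_natCast_nonneg N), Real.norm_of_nonneg (by positivity)] at h5
  rw [one_div, inv_mul_eq_div, le_div_iff₀ hK] at h5
  linarith

theorem C8s (k : ℕ) (hk : 160 ≤ k) : ∃ N0 : ℕ, ∀ (N : ℕ) [NeZero N], N0 ≤ N →
    ∀ P : Finset ℕ, PS k N P → ∀ X : Finset (DirichletCharacter ℂ N), X.card ≤ pw N (1 / (10 * k)) →
    ∑ χ ∈ X, ‖rho P χ‖ ^ 2 ≤ 4 - 8 / k := by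
  have hkr : (160 : ℝ) ≤ k := by exact_mod_cast hk
  have hk0 : (0 : ℝ) < k := by linarith
  set x : ℝ := 1 / k with hx
  have hx0 : 0 < x := by positivity
  have hx1 : x ≤ 1 / 160 := by rw [hx]; exact one_div_le_one_div_of_le (by norm_num) hkr
  set e : ℝ := x / 100 with he
  have he0 : 0 < e := by positivity
  have he1 : e < 1 := by rw [he]; linarith
  set α : ℝ := 1 / 4 + 7 / (2 * k) with hα
  have hαx : α = (1 + 14 * x) / 4 := by rw [hα, hx]; field_simp; ring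
  have hα0 : 0 < α := by rw [hαx]; positivity
  have hα1 : α ≤ 1 := by rw [hαx]; linarith
  obtain ⟨N1, hN1⟩ := C9m k hk e he0
  obtain ⟨C, hC0, hC⟩ := Pool.Agent.Lib.RG.PB_le (x / 10) (by positivity)
  obtain ⟨N2, hN2⟩ := C8s_large (8 / 10 * x) (2 * (C + 1) / e) (by positivity) (by positivity)
  obtain ⟨N3, hN3⟩ : ∃ N3 : ℕ, Real.exp (Real.log 2 / (e * α)) ≤ N3 := exists_nat_ge _
  refine ⟨max (max N1 N2) (max N3 3), fun N hNZ hN P hPS X hX => ?_⟩
  have hNN1 : N1 ≤ N := le_trans (le_trans (le_max_left _ _) (le_max_left _ _)) hN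
  have hNN2 : N2 ≤ N := le_trans (le_trans (le_max_right _ _) (le_max_left _ _)) hN
  have hNN3 : N3 ≤ N := le_trans (le_trans (le_max_left _ _) (le_max_right _ _)) hN
  have h3 : 3 ≤ N := le_trans (le_trans (le_max_right _ _) (le_max_right _ _)) hN
  have hNr : (3 : ℝ) ≤ N := by exact_mod_cast h3
  have hN0 : (0 : ℝ) < N := by linarith
  have hL0 : 0 < Real.log N := Real.log_pos (by linarith)
  have hL2 : Real.log 2 ≤ e * α * Real.log N := by
    have h4 : Real.log 2 / (e * α) ≤ Real.log N := by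
      rw [Real.le_log_iff_exp_le hN0]
      exact le_trans hN3 (by exact_mod_cast hNN3)
    rwa [div_le_iff₀ (by positivity), mul_comm] at h4
  -- the number Z
  set Z : ℕ := pw N α with hZ
  have hZup : (Z : ℝ) ≤ (N : ℝ) ^ α := Nat.floor_le (Real.rpow_nonneg hN0.le _)
  have hZlow : (N : ℝ) ^ α / 2 ≤ Z := C8s_floor _ (Real.one_le_rpow (by linarith) hα0.le)
  have hlogZ : (1 - e) * α * Real.log N ≤ Real.log Z := by
    have h4 : Real.log ((N : ℝ) ^ α / 2) ≤ Real.log Z :=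
      Real.log_le_log (div_pos (Real.rpow_pos_of_pos hN0 _) (by norm_num)) hZlow
    rw [Real.log_div (Real.rpow_pos_of_pos hN0 _).ne' (by norm_num), Real.log_rpow hN0] at h4
    nlinarith
  have hlogZ0 : 0 < Real.log Z := lt_of_lt_of_le (by
    apply mul_pos (mul_pos _ hα0) hL0
    linarith) hlogZ
  have hZ2 : 2 ≤ Z := by
    by_contra hcon
    have : (Z : ℝ) ≤ 1 := by exact_mod_cast (by omega : Z ≤ 1)
    have h5 := Real.log_nonpos (Nat.cast_nonneg Z) this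
    linarith
  have hZN : Z ≤ N := by
    have h5 : (N : ℝ) ^ α ≤ N := by
      calc (N : ℝ) ^ α ≤ (N : ℝ) ^ (1 : ℝ) := Real.rpow_le_rpow_of_exponent_le (by linarith) hα1
        _ = N := Real.rpow_one _
    exact_mod_cast le_trans hZup h5
  -- the number B
  set B : ℕ := B1 k N with hB
  have hBup : (B : ℝ) ≤ (N : ℝ) ^ (1 + 8 / k : ℝ) := Nat.floor_le (Real.rpow_nonneg hN0.le _)
  have hBlow : (N : ℝ) ^ (1 + 8 / k : ℝ) / 2 ≤ B := C8s_floor _ (Real.one_le_rpow (by linarith) (by positivity))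
  have hB3 : (3 : ℝ) / 2 ≤ B := by
    refine le_trans ?_ hBlow
    have : (N : ℝ) ^ (1 : ℝ) ≤ (N : ℝ) ^ (1 + 8 / k : ℝ) :=
      Real.rpow_le_rpow_of_exponent_le (by linarith) (by
        have : (0 : ℝ) ≤ 8 / k := by positivity
        linarith)
    rw [Real.rpow_one] at this
    linarith
  have hB0 : (0 : ℝ) < B := by linarith
  have hlogB : Real.log B ≤ (1 + 8 * x) * Real.log N := by
    have h4 := Real.log_le_log hB0 hBup
    rw [Real.log_rpow hN0] at h4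
    have : (1 + 8 / k : ℝ) = 1 + 8 * x := by rw [hx]; ring
    rwa [this] at h4
  have hlogB0 : 0 < Real.log B := Real.log_pos (by linarith)
  -- the number of primes
  have hQ := hN1 N hNN1
  have hQ2 : (1 - e) * ((B : ℝ) / ((1 + 8 * x) * Real.log N)) ≤ ((QQ k N).card : ℝ) := by
    refine le_trans (mul_le_mul_of_nonneg_left ?_ (by linarith)) hQ
    exact div_le_div_of_nonneg_left hB0.le hlogB0 hlogB
  have hQpos : (0 : ℝ) < ((QQ k N).card : ℝ) := lt_of_lt_of_le (by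
    apply mul_pos (by linarith)
    positivity) hQ2
  have hQne : (QQ k N).Nonempty := by
    rw [← Finset.card_pos]
    exact_mod_cast hQpos
  -- the error term
  have hPB := (hC N (by omega)).1
  have hXc : (X.card : ℝ) ≤ (N : ℝ) ^ (x / 10) := by
    have h4 : (X.card : ℝ) ≤ (pw N (1 / (10 * k)) : ℝ) := by exact_mod_cast hX
    refine le_trans h4 (le_trans (Nat.floor_le (Real.rpow_nonneg hN0.le _)) ?_)
    rw [show (1 / (10 * k) : ℝ) = x / 10 by rw [hx]; field_simp]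
  have hPB0 : 0 ≤ PB N := by unfold PB; positivity
  have herr : (Z : ℝ) ^ 2 * (1 + X.card * PB N) ≤ e * (B / Real.log N) := by
    have h4 : (Z : ℝ) ^ 2 ≤ (N : ℝ) ^ (1 / 2 + 7 * x) := by
      calc (Z : ℝ) ^ 2 ≤ ((N : ℝ) ^ α) ^ 2 := pow_le_pow_left₀ (Nat.cast_nonneg _) hZup 2
        _ = (N : ℝ) ^ (1 / 2 + 7 * x) := by
            rw [← Real.rpow_natCast, ← Real.rpow_mul hN0.le]
            congr 1
            rw [hαx]
            push_cast
            ring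
    have h5 : 1 + X.card * PB N ≤ (C + 1) * (N : ℝ) ^ (1 / 2 + 2 / 10 * x) := by
      have h6 : X.card * PB N ≤ (N : ℝ) ^ (x / 10) * (C * (N : ℝ) ^ (1 / 2 + x / 10)) :=
        mul_le_mul hXc hPB hPB0 (Real.rpow_nonneg hN0.le _)
      have h7 : (N : ℝ) ^ (x / 10) * (C * (N : ℝ) ^ (1 / 2 + x / 10)) = C * (N : ℝ) ^ (1 / 2 + 2 / 10 * x) := by
        rw [mul_left_comm, ← Real.rpow_add hN0]
        congr 2
        ring
      have h8 : (1 : ℝ) ≤ (N : ℝ) ^ (1 / 2 + 2 / 10 * x) := Real.one_le_rpow (by linarith) (by positivity)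
      rw [h7] at h6
      linarith
    have h9 : (Z : ℝ) ^ 2 * (1 + X.card * PB N) ≤ (C + 1) * (N : ℝ) ^ (1 + 72 / 10 * x) := by
      calc (Z : ℝ) ^ 2 * (1 + X.card * PB N) ≤
          (N : ℝ) ^ (1 / 2 + 7 * x) * ((C + 1) * (N : ℝ) ^ (1 / 2 + 2 / 10 * x)) :=
            mul_le_mul h4 h5 (by positivity) (Real.rpow_nonneg hN0.le _)
        _ = (C + 1) * (N : ℝ) ^ (1 + 72 / 10 * x) := by
            rw [mul_left_comm, ← Real.rpow_add hN0]
            congr 2
            ring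
    refine le_trans h9 ?_
    have h10 := hN2 N hNN2
    have h11 : (N : ℝ) ^ (1 + 8 / k : ℝ) = (N : ℝ) ^ (1 + 72 / 10 * x) * (N : ℝ) ^ (8 / 10 * x) := by
      rw [← Real.rpow_add hN0]
      congr 1
      rw [hx]
      ring
    have h12 : 0 ≤ (N : ℝ) ^ (1 + 72 / 10 * x) := Real.rpow_nonneg hN0.le _
    rw [← mul_div_assoc e (B : ℝ) (Real.log N), le_div_iff₀ hL0]
    calc (C + 1) * (N : ℝ) ^ (1 + 72 / 10 * x) * Real.log N =
        (N : ℝ) ^ (1 + 72 / 10 * x) * (e / 2 * (2 * (C + 1) / e * Real.log N)) := by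
          field_simp
      _ ≤ (N : ℝ) ^ (1 + 72 / 10 * x) * (e / 2 * (N : ℝ) ^ (8 / 10 * x)) := by
          apply mul_le_mul_of_nonneg_left _ h12
          exact mul_le_mul_of_nonneg_left h10 (by positivity)
      _ = e * ((N : ℝ) ^ (1 + 8 / k : ℝ) / 2) := by rw [h11]; ring
      _ ≤ e * B := mul_le_mul_of_nonneg_left hBlow he0.le
  -- the sum
  have hmain : (B : ℝ) / Real.log Z + (Z : ℝ) ^ 2 * (1 + X.card * PB N) ≤ (4 - 16 / k) * ((QQ k N).card : ℝ) := by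
    have hT : (0 : ℝ) ≤ 4 - 16 / k := by
      have : (16 : ℝ) / k = 16 * x := by rw [hx]; ring
      rw [this]; linarith
    have h4 : (B : ℝ) / Real.log Z ≤ B / ((1 - e) * α * Real.log N) := by
      refine div_le_div_of_nonneg_left hB0.le ?_ hlogZ
      apply mul_pos (mul_pos _ hα0) hL0
      linarith
    have h5 : (4 - 16 / k) * ((1 - e) * ((B : ℝ) / ((1 + 8 * x) * Real.log N))) ≤ (4 - 16 / k) * ((QQ k N).card : ℝ) :=
      mul_le_mul_of_nonneg_left hQ2 hT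
    refine le_trans ?_ h5
    have h6 := C8s_num x hx0 hx1
    have h7 : 0 ≤ (B : ℝ) / Real.log N := by positivity
    have h8 := mul_le_mul_of_nonneg_right h6 h7
    have hd1 : (1 - e) ≠ 0 := by
      intro h; linarith
    have hd2 : (1 + 14 * x) ≠ 0 := by positivity
    have hd3 : (1 + 8 * x) ≠ 0 := by positivity
    have e1 : (B : ℝ) / ((1 - e) * α * Real.log N) + e * (B / Real.log N) =
        (4 / ((1 - x / 100) * (1 + 14 * x)) + x / 100) * (B / Real.log N) := by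
      rw [hαx, ← he]
      field_simp
    have e2 : (4 - 16 / k) * ((1 - e) * ((B : ℝ) / ((1 + 8 * x) * Real.log N))) =
        (4 - 16 * x) * ((1 - x / 100) / (1 + 8 * x)) * (B / Real.log N) := by
      have : (16 : ℝ) / k = 16 * x := by rw [hx]; ring
      rw [this, ← he]
      field_simp
    calc (B : ℝ) / Real.log Z + (Z : ℝ) ^ 2 * (1 + X.card * PB N) ≤
        B / ((1 - e) * α * Real.log N) + e * (B / Real.log N) := add_le_add h4 herr
      _ = _ := e1
      _ ≤ _ := h8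
      _ = _ := e2.symm
  -- the set `P`
  have hPc : ((QQ k N).card : ℝ) * (1 - x) ≤ (P.card : ℝ) := by
    have := hPS.big
    rw [← hx] at this
    linarith
  have hPne : P.Nonempty := by
    rw [← Finset.card_pos]
    have h4 : (0 : ℝ) < ((QQ k N).card : ℝ) * (1 - x) := mul_pos hQpos (by linarith)
    exact_mod_cast lt_of_lt_of_le h4 hPc
  have hmainP : (B : ℝ) / Real.log Z + (Z : ℝ) ^ 2 * (1 + X.card * PB N) ≤ (4 - 8 / k) * (P.card : ℝ) := by
    refine hmain.trans ?_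
    have h16 : (16 : ℝ) / k = 16 * x := by rw [hx]; ring
    have h8 : (8 : ℝ) / k = 8 * x := by rw [hx]; ring
    rw [h16, h8]
    have h4 : (0 : ℝ) ≤ 4 - 8 * x := by linarith
    refine le_trans ?_ (mul_le_mul_of_nonneg_left hPc h4)
    have h5 : (4 - 16 * x) ≤ (4 - 8 * x) * (1 - x) := by nlinarith
    calc (4 - 16 * x) * ((QQ k N).card : ℝ) ≤ (4 - 8 * x) * (1 - x) * ((QQ k N).card : ℝ) :=
          mul_le_mul_of_nonneg_right h5 hQpos.le
      _ = (4 - 8 * x) * (((QQ k N).card : ℝ) * (1 - x)) := by ring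
  refine C7m P hPne X (4 - 8 / k) ?_ ?_
  · have : (8 : ℝ) / k = 8 * x := by rw [hx]; ring
    rw [this]; linarith
  · intro a
    have hsub : P ⊆ (Finset.Ioc Z B).filter Nat.Prime := by
      intro q hq
      have hq := hPS.sub hq
      unfold QQ at hq
      rw [Finset.mem_filter, Finset.mem_Ioc] at hq ⊢
      exact ⟨⟨by omega, hq.1.2⟩, hq.2⟩
    calc ∑ q ∈ P, ‖∑ χ ∈ X, a χ * χ (q : ZMod N)‖ ^ 2 ≤
        ∑ q ∈ (Finset.Ioc Z B).filter Nat.Prime, ‖∑ χ ∈ X, a χ * χ (q : ZMod N)‖ ^ 2 :=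
          Finset.sum_le_sum_of_subset_of_nonneg hsub fun _ _ _ => by positivity
      _ ≤ _ := C6m N (by omega) Z B hZ2 X a
      _ ≤ _ := mul_le_mul_of_nonneg_right hmainP (Finset.sum_nonneg fun _ _ => by positivity)

end Pool.Agent.Lib.PQ
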