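import Pool.Agent.Lib.MP_7b7e48_nt.PQ.Defs
import Pool.Agent.Lib.MP_7b7e48_nt.LG.PC

/-!
# D6m (40 minutes): primes give a lower bound for the mass of `R0`, independent of the sieve

PROOF. The primes `p ∈ (A0, B0]` are rough (`pw N c < p` because `c ≤ 1/2`), and coprime to `N` unless `p ∣ N`, so `ms R0 ≥ ∑ 1/p` over these `p`.
From `Sieve.Mertens3.mertens_three` (`log z ∏_{p ≤ z} (1 - 1/p) → e^(-γ)`): `∏_{A < p ≤ B} (1 - 1/p)⁻¹ → lim log B/log A =
(1/2 + 1/k)/(1/2 + 1/(2k))`, and `∑_{A<p≤B} 1/p ≥ ∑ -log (1 - 1/p) - ∑ 2/p²` (or use partial summation from `SW.pnt`);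
`log ((1/2 + 1/k)/(1/2 + 1/(2k))) ≥ 1/(2k)` for `k ≥ 160`: indeed it is `log (1 + 1/(k+1)) ≥ 1/(k+2)`. The primes dividing `N` contribute at most
`(number of prime factors of N) / A ≤ 2 log N / A`, which tends to `0`.
-/

set_option autoImplicit false

open Finset
open Pool.Agent.Lib.GT (Rough pr V)
open Pool.Agent.Lib.MP_45349e_nt.LS (lam)
open Pool.Agent.Lib.RG (RC LV rr SS PB sig)

namespace Pool.Agent.Lib.PQ

private theorem D6m_pf (d : ℕ) (hd : d ≠ 0) : (d.primeFactors.card : ℝ) * Real.log 2 ≤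
    Real.log d := by
  have h1 : 2 ^ d.primeFactors.card ≤ ∏ p ∈ d.primeFactors, p := by
    rw [← Finset.prod_const]
    exact Finset.prod_le_prod' fun p hp => (Nat.prime_of_mem_primeFactors hp).two_le
  have h2 : 2 ^ d.primeFactors.card ≤ d :=
    h1.trans (Nat.le_of_dvd (Nat.pos_of_ne_zero hd) (Nat.prod_primeFactors_dvd d))
  have h3 : (2 : ℝ) ^ d.primeFactors.card ≤ d := by exact_mod_cast h2
  have h4 := Real.log_le_log (by positivity) h3
  rwa [Real.log_pow] at h4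

private theorem D6m_asym (a : ℝ) (ha : 0 < a) (K K' : ℝ) (hK' : 0 < K') :
    ∃ N0 : ℕ, ∀ N : ℕ, N0 ≤ N →
    K ≤ (N : ℝ) ^ a ∧ K' * Real.log N ≤ (N : ℝ) ^ a ∧ K' ≤ Real.log N := by
  have h1 : ∀ᶠ x : ℝ in Filter.atTop, K ≤ x ^ a :=
    (tendsto_rpow_atTop ha).eventually_ge_atTop K
  have h2 := (isLittleO_log_rpow_atTop ha).bound
    (show (0 : ℝ) < 1 / K' by positivity)
  have h3 : ∀ᶠ x : ℝ in Filter.atTop, K' ≤ Real.log x :=
    Real.tendsto_log_atTop.eventually_ge_atTop K'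
  obtain ⟨X, hX⟩ := Filter.eventually_atTop.mp (h1.and (h2.and (h3.and
    (Filter.eventually_ge_atTop (0 : ℝ)))))
  refine ⟨⌈X⌉₊, fun N hN => ?_⟩
  obtain ⟨g1, g2, g3, g4⟩ := hX N ((Nat.le_ceil X).trans (by exact_mod_cast hN))
  refine ⟨g1, ?_, g3⟩
  rw [Real.norm_eq_abs, Real.norm_eq_abs, abs_of_nonneg (by linarith),
    abs_of_nonneg (by positivity)] at g2
  calc K' * Real.log N ≤ K' * (1 / K' * (N : ℝ) ^ a) := mul_le_mul_of_nonneg_left g2 hK'.le
    _ = (N : ℝ) ^ a := by field_simp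

/-- dyadic blocks of primes -/
private theorem D6m_blocks {L0 : ℕ} (hL0 : ∀ L : ℕ, L0 ≤ L →
    (L : ℝ) / (2 * Real.log L) ≤ ((MP_7b7e48_nt.LG.Bl L).card : ℝ)) (A B : ℕ) (hA : L0 ≤ A)
    (hA2 : 2 ≤ A) : ∀ m : ℕ, 2 ^ m * A ≤ B →
    (m : ℝ) / (4 * Real.log B) ≤ ∑ p ∈ (Finset.Ioc A (2 ^ m * A)).filter Nat.Prime, 1 / (p : ℝ) := by
  intro m
  induction m with
  | zero => intro _; simp
  | succ m ih =>
    intro h
    have hpow : 2 ^ (m + 1) * A = 2 * (2 ^ m * A) := by ring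
    rw [hpow] at h ⊢
    have h1 := ih (by omega)
    set L := 2 ^ m * A with hL
    have hAL : A ≤ L := Nat.le_mul_of_pos_left A (by positivity)
    have h2 : (Finset.Ioc A (2 * L)).filter Nat.Prime =
        (Finset.Ioc A L).filter Nat.Prime ∪ MP_7b7e48_nt.LG.Bl L := by
      unfold MP_7b7e48_nt.LG.Bl
      rw [← Finset.filter_union, Finset.Ioc_union_Ioc_eq_Ioc hAL (by omega)]
    have h3 : Disjoint ((Finset.Ioc A L).filter Nat.Prime) (MP_7b7e48_nt.LG.Bl L) := by
      unfold MP_7b7e48_nt.LG.Bl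
      apply Finset.disjoint_filter_filter
      rw [Finset.disjoint_left]
      intro a ha hb
      rw [Finset.mem_Ioc] at ha hb
      omega
    rw [h2, Finset.sum_union h3]
    have h4 := hL0 L (hA.trans hAL)
    have hLr : (2 : ℝ) ≤ L := by exact_mod_cast hA2.trans hAL
    have hLB : (L : ℝ) ≤ B := by
      have : L ≤ B := by omega
      exact_mod_cast this
    have hlL : 0 < Real.log L := Real.log_pos (by linarith)
    have hlB : Real.log L ≤ Real.log B := Real.log_le_log (by linarith) hLB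
    have h5 : ((MP_7b7e48_nt.LG.Bl L).card : ℝ) * (1 / (2 * L)) ≤
        ∑ p ∈ MP_7b7e48_nt.LG.Bl L, 1 / (p : ℝ) := by
      rw [← nsmul_eq_mul]
      apply Finset.card_nsmul_le_sum
      intro p hp
      unfold MP_7b7e48_nt.LG.Bl at hp
      rw [Finset.mem_filter, Finset.mem_Ioc] at hp
      apply one_div_le_one_div_of_le
      · exact_mod_cast hp.2.pos
      · exact_mod_cast hp.1.2
    have h6 : 1 / (4 * Real.log B) ≤ ((MP_7b7e48_nt.LG.Bl L).card : ℝ) * (1 / (2 * L)) := by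
      calc 1 / (4 * Real.log B) ≤ 1 / (4 * Real.log L) :=
            one_div_le_one_div_of_le (by positivity) (by linarith)
        _ = (L : ℝ) / (2 * Real.log L) * (1 / (2 * L)) := by
            field_simp
            norm_num
        _ ≤ _ := mul_le_mul_of_nonneg_right h4 (by positivity)
    have h7 : (((m + 1 : ℕ) : ℝ)) / (4 * Real.log B) = m / (4 * Real.log B) +
        1 / (4 * Real.log B) := by
      push_cast
      ring
    rw [h7]
    linarith

theorem D6m (k : ℕ) (hk : 160 ≤ k) (c : ℝ) (hc : 0 < c) (hc1 : c ≤ 1 / 2) : ∃ N0 : ℕ, ∀ N : ℕ, N0 ≤ N →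
    1 / (4 * (k : ℝ)) ≤ ms (R0 k c N) := by
  classical
  obtain ⟨L0, hL0⟩ := MP_7b7e48_nt.LG.PCa
  have hkr : (160 : ℝ) ≤ k := by exact_mod_cast hk
  have hk0 : (0 : ℝ) < k := by linarith
  obtain ⟨N0, hN0⟩ := D6m_asym (1 / 2) (by norm_num) (L0 + 10) (80 * k) (by linarith)
  refine ⟨max N0 1, fun N hN => ?_⟩
  obtain ⟨g1, g2, g3⟩ := hN0 N ((le_max_left _ _).trans hN)
  have hN1 : 1 ≤ N := (le_max_right _ _).trans hN
  have hNr : (1 : ℝ) ≤ N := by exact_mod_cast hN1
  have hL0' : (0 : ℝ) ≤ L0 := Nat.cast_nonneg _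
  set ℓ := Real.log N with hℓ
  have hℓ0 : 0 < ℓ := by linarith
  set x : ℝ := (N : ℝ) ^ ((1 : ℝ) / 2 + 1 / (2 * k)) with hx
  set y : ℝ := (N : ℝ) ^ ((1 : ℝ) / 2 + 1 / k) with hy
  have hxl : (N : ℝ) ^ ((1 : ℝ) / 2) ≤ x :=
    Real.rpow_le_rpow_of_exponent_le hNr (by
      have : (0 : ℝ) < 1 / (2 * k) := by positivity
      linarith)
  have hyl : (N : ℝ) ^ ((1 : ℝ) / 2) ≤ y :=
    Real.rpow_le_rpow_of_exponent_le hNr (by
      have : (0 : ℝ) < 1 / (k : ℝ) := by positivity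
      linarith)
  have hA : A0 k N = ⌊x⌋₊ := rfl
  have hB : B0 k N = ⌊y⌋₊ := rfl
  set A : ℕ := ⌊x⌋₊ with hAdef
  set B : ℕ := ⌊y⌋₊ with hBdef
  have hx10 : (10 : ℝ) ≤ x := by linarith
  have hy10 : (10 : ℝ) ≤ y := by linarith
  have hAx : (A : ℝ) ≤ x := Nat.floor_le (by linarith)
  have hAx' : x < A + 1 := Nat.lt_floor_add_one x
  have hBy : (B : ℝ) ≤ y := Nat.floor_le (by linarith)
  have hBy' : y < B + 1 := Nat.lt_floor_add_one y
  have hA0 : L0 ≤ A := Nat.le_floor (by linarith)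
  have hA9 : (9 : ℝ) ≤ A := by linarith
  have hB9 : (9 : ℝ) ≤ B := by linarith
  have hA2 : 2 ≤ A := by
    have : (2 : ℝ) ≤ A := by linarith
    exact_mod_cast this
  -- the blocks
  have hlx : Real.log x = ((1 : ℝ) / 2 + 1 / (2 * k)) * ℓ := Real.log_rpow (by linarith) _
  have hly : Real.log y = ((1 : ℝ) / 2 + 1 / k) * ℓ := Real.log_rpow (by linarith) _
  have hlA : Real.log A ≤ ((1 : ℝ) / 2 + 1 / (2 * k)) * ℓ := by
    rw [← hlx]
    exact Real.log_le_log (by linarith) hAx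
  have hlB : Real.log B ≤ ((1 : ℝ) / 2 + 1 / k) * ℓ := by
    rw [← hly]
    exact Real.log_le_log (by linarith) hBy
  have hlB' : ((1 : ℝ) / 2 + 1 / k) * ℓ ≤ Real.log B + Real.log 2 := by
    rw [← hly, ← Real.log_mul (by linarith) (by norm_num)]
    exact Real.log_le_log (by linarith) (by linarith)
  have hlBpos : 0 < Real.log B := Real.log_pos (by linarith)
  have hl2 := Real.log_two_lt_d9
  have hl2' := Real.log_two_gt_d9
  norm_num at hl2 hl2'
  obtain ⟨m, hm1, hm2⟩ : ∃ m : ℕ, 2 ^ m * A ≤ B ∧ B < 2 ^ (m + 1) * A := by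
    have hAB : A ≤ B := by
      have : (A : ℝ) ≤ y := hAx.trans (Real.rpow_le_rpow_of_exponent_le hNr (by
        have : (1 : ℝ) / (2 * k) ≤ 1 / k := one_div_le_one_div_of_le hk0 (by linarith)
        linarith))
      exact Nat.le_floor this
    have hBA : B / A ≠ 0 := by
      have := Nat.div_pos hAB (by omega)
      omega
    refine ⟨Nat.log 2 (B / A), ?_, ?_⟩
    · exact (Nat.mul_le_mul_right A (Nat.pow_log_le_self 2 hBA)).trans (Nat.div_mul_le_self B A)
    · have h1 := Nat.lt_pow_succ_log_self (b := 2) (by norm_num) (B / A)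
      have h2 : B < (B / A + 1) * A := by
        have h3 := Nat.div_add_mod B A
        have h4 := Nat.mod_lt B (show A > 0 by omega)
        nlinarith
      exact h2.trans_le (Nat.mul_le_mul_right A h1)
  have hm3 : ℓ / (2 * k) ≤ (m + 2) * Real.log 2 := by
    have h1 : (B : ℝ) ≤ 2 ^ (m + 1) * A := by exact_mod_cast hm2.le
    have h2 := Real.log_le_log (by linarith) h1
    rw [Real.log_mul (by positivity) (by linarith), Real.log_pow] at h2
    push_cast at h2
    have h3 : ((1 : ℝ) / 2 + 1 / k) * ℓ - ((1 : ℝ) / 2 + 1 / (2 * k)) * ℓ = ℓ / (2 * k) := by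
      field_simp
      ring
    linarith
  have hblocks := D6m_blocks (fun L hL => (hL0 L hL).1) A B hA0 hA2 m hm1
  -- the primes which divide `N`
  have hpf : (N.primeFactors.card : ℝ) ≤ 2 * ℓ := by
    have h3 := D6m_pf N (by omega)
    have h4 : (N.primeFactors.card : ℝ) * (1 / 2) ≤ N.primeFactors.card * Real.log 2 :=
      mul_le_mul_of_nonneg_left (by linarith) (Nat.cast_nonneg _)
    linarith
  have hzA : pw N c ≤ A := by
    unfold pw
    apply Nat.floor_le_floor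
    exact Real.rpow_le_rpow_of_exponent_le hNr (by
      have : (0 : ℝ) < 1 / (2 * k) := by positivity
      linarith)
  have hsplit : ∑ p ∈ (Finset.Ioc A (2 ^ m * A)).filter Nat.Prime, 1 / (p : ℝ) ≤
      ms (R0 k c N) + ∑ p ∈ N.primeFactors with A < p, 1 / (p : ℝ) := by
    unfold ms
    have h1 : (Finset.Ioc A (2 ^ m * A)).filter Nat.Prime ⊆
        R0 k c N ∪ N.primeFactors.filter (fun p => A < p) := by
      intro p hp
      rw [Finset.mem_filter, Finset.mem_Ioc] at hp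
      rw [Finset.mem_union]
      by_cases hd : p ∣ N
      · right
        rw [Finset.mem_filter]
        exact ⟨Nat.mem_primeFactors.2 ⟨hp.2, hd, by omega⟩, hp.1.1⟩
      · left
        unfold R0 RS
        rw [Finset.mem_filter, Finset.mem_Ioc, hA, hB]
        refine ⟨⟨hp.1.1, hp.1.2.trans hm1⟩, ?_, (Nat.Prime.coprime_iff_not_dvd hp.2).2 hd⟩
        intro q hq hqp
        have : q = p := (Nat.prime_dvd_prime_iff_eq hq hp.2).1 hqp
        rw [this]
        omega
    refine (Finset.sum_le_sum_of_subset_of_nonneg h1 (fun p _ _ => by positivity)).trans ?_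
    have h2 := Finset.sum_union_inter (s₁ := R0 k c N)
      (s₂ := N.primeFactors.filter (fun p => A < p)) (f := fun p : ℕ => 1 / (p : ℝ))
    have h3 : 0 ≤ ∑ p ∈ R0 k c N ∩ N.primeFactors.filter (fun p => A < p), 1 / (p : ℝ) :=
      Finset.sum_nonneg fun p _ => by positivity
    linarith
  have hdiv : ∑ p ∈ N.primeFactors with A < p, 1 / (p : ℝ) ≤ 2 * ℓ / A := by
    have h1 : ∑ p ∈ N.primeFactors with A < p, 1 / (p : ℝ) ≤
        ((N.primeFactors.filter (fun p => A < p)).card : ℝ) * (1 / A) := by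
      rw [← nsmul_eq_mul]
      apply Finset.sum_le_card_nsmul
      intro p hp
      rw [Finset.mem_filter] at hp
      apply one_div_le_one_div_of_le (by linarith)
      exact_mod_cast hp.2.le
    have h2 : ((N.primeFactors.filter (fun p => A < p)).card : ℝ) ≤ 2 * ℓ :=
      le_trans (by exact_mod_cast Finset.card_filter_le _ _) hpf
    calc ∑ p ∈ N.primeFactors with A < p, 1 / (p : ℝ) ≤
        ((N.primeFactors.filter (fun p => A < p)).card : ℝ) * (1 / A) := h1
      _ ≤ 2 * ℓ * (1 / A) := mul_le_mul_of_nonneg_right h2 (by positivity)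
      _ = 2 * ℓ / A := by ring
  have hdiv2 : 2 * ℓ / A ≤ 1 / (20 * k) := by
    rw [div_le_div_iff₀ (by linarith) (by positivity)]
    have h1 : 80 * k * ℓ ≤ A + 1 := by linarith
    have h2 : (1 : ℝ) ≤ ℓ := by linarith
    nlinarith
  -- numerics
  have hβ : ((1 : ℝ) / 2 + 1 / k) ≤ 81 / 160 := by
    have : (1 : ℝ) / k ≤ 1 / 160 := one_div_le_one_div_of_le (by norm_num) hkr
    linarith
  have hlB2 : Real.log B ≤ 81 / 160 * ℓ :=
    hlB.trans (mul_le_mul_of_nonneg_right hβ hℓ0.le)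
  have hfin : 3 / (10 * (k : ℝ)) ≤ m / (4 * Real.log B) := by
    rw [div_le_div_iff₀ (by positivity) (by positivity)]
    have h1 : ℓ ≤ 2 * k * ((m + 2) * Real.log 2) := by
      have := mul_le_mul_of_nonneg_left hm3 (show (0 : ℝ) ≤ 2 * k by linarith)
      have h2 : 2 * (k : ℝ) * (ℓ / (2 * k)) = ℓ := by field_simp
      linarith
    have hm0 : (0 : ℝ) ≤ m := Nat.cast_nonneg m
    have h3 : ((m : ℝ) + 2) * Real.log 2 ≤ (m + 2) * (69315 / 100000) :=
      mul_le_mul_of_nonneg_left (by linarith) (by linarith)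
    have h4 : ℓ ≤ 2 * k * ((m + 2) * (69315 / 100000)) :=
      h1.trans (mul_le_mul_of_nonneg_left h3 (by linarith))
    have h5 : 3 * (4 * Real.log B) ≤ 3 * (4 * (81 / 160 * ℓ)) := by linarith
    -- `6.075 ℓ ≤ 10 k m`
    nlinarith
  have hfin2 : 1 / (4 * (k : ℝ)) = 3 / (10 * k) - 1 / (20 * k) := by
    field_simp
    norm_num
  rw [hfin2]
  linarith

end Pool.Agent.Lib.PQ
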