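import Pool.Agent.Lib.MP_7b7e48_nt.PQ.Defs

/-!
# E2a (35 minutes): character expansion of the weighted count

PROOF. `∑_χ χ⁻¹ (-q) * χ u * χ l * χ m = ∑_χ χ⁻¹ (-q) * χ (u l m) = φ(N)` if `-q = u l m` modulo `N`, else `0`
(`DirichletCharacter.sum_char_inv_mul_char_eq`, `χ⁻¹ a = χ a⁻¹` for the unit `a = -q`; compare `B1m`), and `N ∣ q + u l m` iff
`(q : ZMod N) + u * l * m = 0`. Exchange the sums.
-/

set_option autoImplicit false

open Finset
open Pool.Agent.Lib.GT (Rough pr V)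
open Pool.Agent.Lib.MP_45349e_nt.LS (lam)
open Pool.Agent.Lib.RG (RC LV rr SS PB sig)

namespace Pool.Agent.Lib.PQ

private lemma E2a_prod (Q U P M : Finset ℕ) (A B C D : ℕ → ℂ) :
    (∑ q ∈ Q, A q) * (∑ u ∈ U, B u) * (∑ l ∈ P, C l) * (∑ m ∈ M, D m) =
      ∑ q ∈ Q, ∑ u ∈ U, ∑ l ∈ P, ∑ m ∈ M, A q * B u * C l * D m := by
  rw [Finset.sum_mul_sum, Finset.sum_mul, Finset.sum_mul]
  refine Finset.sum_congr rfl fun q _ => ?_
  rw [Finset.sum_mul, Finset.sum_mul]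
  refine Finset.sum_congr rfl fun u _ => ?_
  rw [Finset.mul_sum P C (A q * B u), Finset.sum_mul]
  refine Finset.sum_congr rfl fun l _ => ?_
  rw [Finset.mul_sum]

private lemma E2a_inv {N : ℕ} [NeZero N] (χ : DirichletCharacter ℂ N) {a : ZMod N}
    (ha : IsUnit a) : χ⁻¹ a = χ a⁻¹ := by
  rw [MulChar.inv_apply_eq_inv']
  have h1 : χ a * χ a⁻¹ = 1 := by
    rw [← map_mul, ZMod.mul_inv_of_unit a ha, map_one]
  exact (eq_inv_of_mul_eq_one_right h1).symm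

theorem E2a (k N : ℕ) [NeZero N] (D Q U : Finset ℕ) (a : ℕ → ℝ) (hQ : ∀ q ∈ Q, q.Coprime N) :
    ((SC k N D Q U a : ℝ) : ℂ) = (∑ χ : DirichletCharacter ℂ N, (∑ q ∈ Q, χ⁻¹ (-(q : ZMod N))) *
      (∑ u ∈ U, (a u : ℂ) * χ (u : ZMod N)) * (∑ l ∈ PP k N, χ (l : ZMod N)) *
      ∑ m ∈ MM k N, ((WD D m / m : ℝ) : ℂ) * χ (m : ZMod N)) / N.totient := by
  have hφ : (N.totient : ℂ) ≠ 0 := by
    exact_mod_cast (Nat.totient_pos.2 (Nat.pos_of_ne_zero (NeZero.ne N))).ne'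
  rw [eq_div_iff hφ]
  simp only [E2a_prod]
  conv_rhs => rw [Finset.sum_comm]
  unfold SC
  push_cast
  rw [Finset.sum_mul]
  refine Finset.sum_congr rfl fun q hq => ?_
  conv_rhs => rw [Finset.sum_comm]
  rw [Finset.sum_mul]
  refine Finset.sum_congr rfl fun u _ => ?_
  conv_rhs => rw [Finset.sum_comm]
  rw [Finset.sum_mul]
  refine Finset.sum_congr rfl fun l _ => ?_
  conv_rhs => rw [Finset.sum_comm]
  rw [Finset.sum_mul]
  refine Finset.sum_congr rfl fun m _ => ?_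
  have hq' : IsUnit (-(q : ZMod N)) := ((ZMod.isUnit_iff_coprime q N).2 (hQ q hq)).neg
  have h1 : ∀ χ : DirichletCharacter ℂ N,
      χ⁻¹ (-(q : ZMod N)) * ((a u : ℂ) * χ (u : ZMod N)) * χ (l : ZMod N) *
        (((WD D m : ℝ) : ℂ) / (m : ℂ) * χ (m : ZMod N)) =
      (a u : ℂ) * (((WD D m : ℝ) : ℂ) / (m : ℂ)) *
        (χ (-(q : ZMod N))⁻¹ * χ ((u : ZMod N) * l * m)) := by
    intro χ
    rw [E2a_inv χ hq', map_mul χ ((u : ZMod N) * l), map_mul χ (u : ZMod N)]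
    ring
  simp only [h1]
  rw [← Finset.mul_sum, DirichletCharacter.sum_char_inv_mul_char_eq ℂ hq']
  have h2 : (N ∣ q + u * l * m) ↔ (-(q : ZMod N)) = (u : ZMod N) * l * m := by
    rw [← ZMod.natCast_eq_zero_iff]
    push_cast
    rw [neg_eq_iff_add_eq_zero]
  by_cases h3 : N ∣ q + u * l * m
  · rw [if_pos h3, if_pos (h2.1 h3)]
    push_cast
    ring
  · rw [if_neg h3, if_neg (fun h => h3 (h2.2 h))]
    push_cast
    ring

end Pool.Agent.Lib.PQ
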