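import Pool.Agent.Lib.MP_7b7e48_nt.PQ.C4p

/-!
# E2b (20 minutes): the sum over `m` for a nonprincipal character

PROOF. The `m ∈ (A0, B0]` not coprime to `N` contribute `0`, so the sum is over all `m ∈ (A0, B0]`; expand `WD D m`, exchange:
`∑_{d ∈ D} μ(d) ∑_{d ∣ m} χ m/m`, and `C4p`, `|μ(d)| ≤ 1`.
-/

set_option autoImplicit false

open Finset
open Pool.Agent.Lib.GT (Rough pr V)
open Pool.Agent.Lib.MP_45349e_nt.LS (lam)
open Pool.Agent.Lib.RG (RC LV rr SS PB sig)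

namespace Pool.Agent.Lib.PQ

theorem E2b (k N : ℕ) [NeZero N] (hN : 2 ≤ N) (hA : 1 ≤ A0 k N) (D : Finset ℕ) (hD : ∀ d ∈ D, 1 ≤ d)
    (χ : DirichletCharacter ℂ N) (hχ : χ ≠ 1) :
    ‖∑ m ∈ MM k N, ((WD D m / m : ℝ) : ℂ) * χ (m : ZMod N)‖ ≤ D.card * (2 * PB N / A0 k N) := by
  have h1 : ∑ m ∈ MM k N, ((WD D m / m : ℝ) : ℂ) * χ (m : ZMod N) =
      ∑ m ∈ Finset.Ioc (A0 k N) (B0 k N), ((WD D m / m : ℝ) : ℂ) * χ (m : ZMod N) := by
    unfold MM
    rw [Finset.sum_filter]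
    refine Finset.sum_congr rfl fun m _ => ?_
    split_ifs with h
    · rfl
    · have hu : ¬ IsUnit (m : ZMod N) := fun hu => h ((ZMod.isUnit_iff_coprime m N).1 hu)
      rw [χ.map_nonunit hu, mul_zero]
  have h2 : ∑ m ∈ Finset.Ioc (A0 k N) (B0 k N), ((WD D m / m : ℝ) : ℂ) * χ (m : ZMod N) =
      ∑ d ∈ D, (ArithmeticFunction.moebius d : ℂ) *
        ∑ m ∈ (Finset.Ioc (A0 k N) (B0 k N)).filter (fun m => d ∣ m), χ (m : ZMod N) / (m : ℂ) := by
    have h3 : ∀ m : ℕ, ((WD D m / m : ℝ) : ℂ) * χ (m : ZMod N) =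
        ∑ d ∈ D, (if d ∣ m then (ArithmeticFunction.moebius d : ℂ) * (χ (m : ZMod N) / (m : ℂ)) else 0) := by
      intro m
      unfold WD
      rw [Finset.sum_filter]
      push_cast
      rw [Finset.sum_div, Finset.sum_mul]
      refine Finset.sum_congr rfl fun d _ => ?_
      split_ifs
      · push_cast
        ring
      · push_cast
        ring
    rw [Finset.sum_congr rfl fun m _ => h3 m, Finset.sum_comm]
    refine Finset.sum_congr rfl fun d _ => ?_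
    rw [Finset.mul_sum, Finset.sum_filter]
  rw [h1, h2]
  refine (norm_sum_le _ _).trans ?_
  have h4 : ∀ d ∈ D, ‖(ArithmeticFunction.moebius d : ℂ) *
      ∑ m ∈ (Finset.Ioc (A0 k N) (B0 k N)).filter (fun m => d ∣ m), χ (m : ZMod N) / (m : ℂ)‖ ≤
        2 * PB N / A0 k N := by
    intro d hd
    rw [norm_mul]
    have h5 : ‖(ArithmeticFunction.moebius d : ℂ)‖ ≤ 1 := by
      rw [Complex.norm_intCast]
      exact_mod_cast ArithmeticFunction.abs_moebius_le_one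
    exact (mul_le_of_le_one_left (norm_nonneg _) h5).trans (C4p N hN χ hχ _ _ d hA (hD d hd))
  refine (Finset.sum_le_sum h4).trans ?_
  rw [Finset.sum_const, nsmul_eq_mul]

end Pool.Agent.Lib.PQ
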