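import Pool.Agent.Lib.MP_7b7e48_nt.PQ.B2m
import Pool.Agent.Lib.MP_7b7e48_nt.RG.PV
import Pool.Agent.Lib.MP_7b7e48_nt.RG.CHA

/-!
# E2c (60 minutes): mean square of the product of the sums over `u` and `m`

PROOF. `(∑_u a u χ u)(∑_m WD m/m χ m) = ∑_{x unit} G x * χ x`, `G x = ∑_{u m = x} a u * WD m/m`, so the left side is `φ(N) ∑_x |G x|²` (orthogonality;
dual form of `B2m`, expand directly: `∑_χ χ x * conj (χ y) = φ(N)` if `x = y`). `|WD D m| ≤` number of divisors of `m`. For fixed `x` put `n = u m`,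
`N ≤ U0 A0 < n ≤ 4 U0 B0 ≤ B1 ≤ N²`: `1/m = u/n ≤ 4 U0/n`, the number of `(u, m)` with `u m = n` is at most the number of divisors of `n`, and
`∑_{n = x mod N, N < n ≤ N²} 1/n ≤ (1/N)(1 + 2 log N)` (as in `B5m`). With the divisor bound `C n^(e')`, `e' = eps k/20` (`RG.divisor_bound`), `n ≤ N²`:
`|G x| ≤ ∑_{u m = x} a u |WD m|/m ≤ N^(2 eps k) * 4 U0 * 3 log N / N`. And `∑_x ∑_{u m = x} a u |WD m|/m ≤ (∑ a u) * N^(eps k) * 2 log N`. So the left side is
`≤ φ(N) * N^(4 eps k) * U0 * (∑ a u)/N ≤ N^(4 eps k + τ/4) (∑ a u)²` (`US.big`: `U0 ≤ N^(τ/4) ∑ a u`), `4 eps k + τ/4 ≤ τ/3`.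
-/

set_option autoImplicit false

open Finset
open Pool.Agent.Lib.GT (Rough pr V)
open Pool.Agent.Lib.MP_45349e_nt.LS (lam)
open Pool.Agent.Lib.RG (RC LV rr SS PB sig)

namespace Pool.Agent.Lib.PQ

private theorem e2c_WD (D : Finset ℕ) (m : ℕ) (hm : 1 ≤ m) : |WD D m| ≤ (m.divisors.card : ℝ) := by
  unfold WD
  refine (abs_sum_le_sum_abs _ _).trans ?_
  have h1 : ∑ d ∈ D.filter (fun d => d ∣ m), |(ArithmeticFunction.moebius d : ℝ)| ≤
      ∑ d ∈ D.filter (fun d => d ∣ m), (1 : ℝ) := by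
    refine sum_le_sum fun d _ => ?_
    have h2 : |ArithmeticFunction.moebius d| ≤ 1 := ArithmeticFunction.abs_moebius_le_one
    exact_mod_cast h2
  refine h1.trans ?_
  rw [sum_const, nsmul_eq_mul, mul_one]
  have h3 : (D.filter (fun d => d ∣ m)).card ≤ m.divisors.card := by
    refine card_le_card fun d hd => ?_
    rw [mem_filter] at hd
    exact Nat.mem_divisors.mpr ⟨hd.2, by omega⟩
  exact_mod_cast h3

private theorem e2c_harm (n : ℕ) : ∑ j ∈ Icc 1 n, (1 : ℝ) / j ≤ 1 + Real.log n := by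
  have h := harmonic_le_one_add_log n
  rw [harmonic_eq_sum_Icc] at h
  push_cast at h
  simpa using h

/-- Parseval for a real function on the units -/
private theorem e2c_pars (N : ℕ) [NeZero N] (G : ZMod N → ℝ) (h0 : ∀ x, ¬ IsUnit x → G x = 0) :
    ∑ χ : DirichletCharacter ℂ N, ‖∑ x : ZMod N, (G x : ℂ) * χ x‖ ^ 2 =
      (N.totient : ℝ) * ∑ x : ZMod N, (G x) ^ 2 := by
  have h1 := Pool.Agent.Lib.RG.chParsF (N := N) (fun x => (G x : ℂ)) (fun x hx => by rw [h0 x hx]; simp)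
  have hphi : (0 : ℝ) < (N.totient : ℝ) := Pool.Agent.Lib.RG.phi_pos (N := N)
  have h2 : ∀ χ : DirichletCharacter ℂ N, ‖∑ x : ZMod N, (G x : ℂ) * χ x‖ ^ 2 =
      (N.totient : ℝ) ^ 2 * ‖Pool.Agent.Lib.RG.bch (fun x => (G x : ℂ)) χ‖ ^ 2 := by
    intro χ
    unfold Pool.Agent.Lib.RG.bch
    rw [norm_mul, norm_inv, Complex.norm_natCast]
    have h3 : ‖∑ y : ZMod N, (G y : ℂ) * (starRingEnd ℂ) (χ y)‖ = ‖∑ x : ZMod N, (G x : ℂ) * χ x‖ := by
      rw [← Complex.norm_conj (∑ x : ZMod N, (G x : ℂ) * χ x)]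
      congr 1
      rw [map_sum]
      refine sum_congr rfl fun y _ => ?_
      rw [map_mul, Complex.conj_ofReal]
    rw [h3, mul_pow, inv_pow]
    field_simp
  simp_rw [h2]
  rw [← mul_sum]
  have h4 : ∑ x : ZMod N, ‖((G x : ℝ) : ℂ)‖ ^ 2 = ∑ x : ZMod N, (G x) ^ 2 := by
    refine sum_congr rfl fun x _ => ?_
    rw [Complex.norm_real, Real.norm_eq_abs, sq_abs]
  rw [h4] at h1
  rw [h1]
  ring

/-- the reciprocals of the integers in a residue class -/
private theorem e2c_class (N : ℕ) [NeZero N] (B : ℕ) (x : ZMod N) :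
    ∑ n ∈ (Finset.Ioc N B).filter (fun n : ℕ => (n : ZMod N) = x), (1 : ℝ) / n ≤ (1 + Real.log B) / N := by
  have hN : 0 < N := Nat.pos_of_ne_zero (NeZero.ne N)
  have hN0 : (0 : ℝ) < N := by exact_mod_cast hN
  set T := (Finset.Ioc N B).filter (fun n : ℕ => (n : ZMod N) = x) with hT
  have hinj : Set.InjOn (fun n : ℕ => n / N) (T : Set ℕ) := by
    intro a ha b hb hab
    rw [hT, mem_coe, mem_filter] at ha hb
    have h1 : (a : ZMod N) = (b : ZMod N) := ha.2.trans hb.2.symm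
    rw [ZMod.natCast_eq_natCast_iff'] at h1
    simp only at hab
    rw [← Nat.div_add_mod a N, ← Nat.div_add_mod b N, hab, h1]
  have h1 : ∀ n ∈ T, (1 : ℝ) / n ≤ (1 / N) * (1 / ((n / N : ℕ) : ℝ)) := by
    intro n hn
    rw [hT, mem_filter, mem_Ioc] at hn
    have h2 : 1 ≤ n / N := (Nat.one_le_div_iff hN).mpr hn.1.1.le
    have h2' : (1 : ℝ) ≤ ((n / N : ℕ) : ℝ) := by exact_mod_cast h2
    have h3 : N * (n / N) ≤ n := Nat.mul_div_le n N
    have h4 : (N : ℝ) * ((n / N : ℕ) : ℝ) ≤ n := by exact_mod_cast h3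
    rw [one_div_mul_one_div]
    exact one_div_le_one_div_of_le (by positivity) h4
  refine (sum_le_sum h1).trans ?_
  rw [← mul_sum]
  have h5 : ∑ n ∈ T, (1 : ℝ) / ((n / N : ℕ) : ℝ) = ∑ j ∈ T.image (fun n : ℕ => n / N), (1 : ℝ) / j := by
    rw [sum_image hinj]
  have h6 : ∑ j ∈ T.image (fun n : ℕ => n / N), (1 : ℝ) / j ≤ ∑ j ∈ Icc 1 B, (1 : ℝ) / j := by
    refine sum_le_sum_of_subset_of_nonneg ?_ fun j _ _ => by positivity
    intro j hj
    rw [mem_image] at hj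
    obtain ⟨n, hn, rfl⟩ := hj
    rw [hT, mem_filter, mem_Ioc] at hn
    rw [mem_Icc]
    exact ⟨(Nat.one_le_div_iff hN).mpr hn.1.1.le, (Nat.div_le_self n N).trans hn.1.2⟩
  rw [h5]
  have h7 := h6.trans (e2c_harm B)
  calc 1 / (N : ℝ) * ∑ j ∈ T.image (fun n : ℕ => n / N), (1 : ℝ) / j ≤ 1 / (N : ℝ) * (1 + Real.log B) := by
        gcongr
    _ = (1 + Real.log B) / N := by ring

/-- the pairs with a given product -/
private theorem e2c_pairs (U M : Finset ℕ) (hU : ∀ u ∈ U, 1 ≤ u) (hM : ∀ m ∈ M, 1 ≤ m) (S : Finset ℕ)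
    (P : ℕ → Prop) [DecidablePred P] (hS : ∀ u ∈ U, ∀ m ∈ M, P (u * m) → u * m ∈ S) (f : ℕ → ℝ)
    (hf : ∀ n, 0 ≤ f n) :
    ∑ u ∈ U, ∑ m ∈ M, (if P (u * m) then f (u * m) else 0) ≤ ∑ n ∈ S, (n.divisors.card : ℝ) * f n := by
  classical
  rw [← sum_product', ← sum_filter]
  have h1 : ∑ y ∈ (U ×ˢ M).filter (fun y => P (y.1 * y.2)), f (y.1 * y.2) =
      ∑ n ∈ S, ∑ y ∈ ((U ×ˢ M).filter (fun y => P (y.1 * y.2))).filter (fun y => y.1 * y.2 = n),
        f (y.1 * y.2) := by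
    rw [sum_fiberwise_of_maps_to]
    intro y hy
    rw [mem_filter, mem_product] at hy
    exact hS y.1 hy.1.1 y.2 hy.1.2 hy.2
  rw [h1]
  refine sum_le_sum fun n _ => ?_
  have h2 : ∑ y ∈ ((U ×ˢ M).filter (fun y => P (y.1 * y.2))).filter (fun y => y.1 * y.2 = n),
      f (y.1 * y.2) = ∑ y ∈ ((U ×ˢ M).filter (fun y => P (y.1 * y.2))).filter (fun y => y.1 * y.2 = n), f n := by
    refine sum_congr rfl fun y hy => ?_
    rw [(mem_filter.mp hy).2]
  rw [h2, sum_const, nsmul_eq_mul]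
  refine mul_le_mul_of_nonneg_right ?_ (hf n)
  have h3 : (((U ×ˢ M).filter (fun y => P (y.1 * y.2))).filter (fun y => y.1 * y.2 = n)).card ≤
      n.divisors.card := by
    refine card_le_card_of_injOn (fun y => y.1) ?_ ?_
    · intro y hy
      rw [mem_coe, mem_filter, mem_filter, mem_product] at hy
      obtain ⟨⟨⟨hy1, hy2⟩, _⟩, hy3⟩ := hy
      have h4 := hU _ hy1
      have h5 := hM _ hy2
      have h6 : 0 < y.1 * y.2 := Nat.mul_pos (by omega) (by omega)
      rw [mem_coe]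
      exact Nat.mem_divisors.mpr ⟨⟨y.2, hy3.symm⟩, by omega⟩
    · intro y hy y' hy' hyy
      rw [mem_coe, mem_filter, mem_filter, mem_product] at hy hy'
      simp only at hyy
      have h4 := hU _ hy.1.1.1
      have h7 : y.1 * y.2 = y.1 * y'.2 := by
        rw [hy.2, hyy]
        exact hy'.2.symm
      have h8 : y.2 = y'.2 := Nat.eq_of_mul_eq_mul_left (by omega) h7
      exact Prod.ext hyy h8
  exact_mod_cast h3

/-- the mean square, abstract -/
private theorem e2c_core (N : ℕ) [NeZero N] (U M : Finset ℕ) (a w : ℕ → ℝ) (T S1 S2 : ℝ)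
    (hU : ∀ u ∈ U, u.Coprime N ∧ 0 ≤ a u) (hM : ∀ m ∈ M, m.Coprime N) (hT : ∀ x : ZMod N,
      ∑ u ∈ U, ∑ m ∈ M, (if (u : ZMod N) * (m : ZMod N) = x then a u * |w m| else 0) ≤ T)
    (hS1 : ∑ u ∈ U, a u = S1) (hS2 : ∑ m ∈ M, |w m| ≤ S2) :
    ∑ χ : DirichletCharacter ℂ N, ‖(∑ u ∈ U, (a u : ℂ) * χ (u : ZMod N)) *
      ∑ m ∈ M, (w m : ℂ) * χ (m : ZMod N)‖ ^ 2 ≤ (N.totient : ℝ) * (T * (S1 * S2)) := by
  classical
  set G : ZMod N → ℝ := fun x => ∑ u ∈ U, ∑ m ∈ M, (if (u : ZMod N) * (m : ZMod N) = x then a u * w m else 0)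
    with hG
  set H : ZMod N → ℝ := fun x => ∑ u ∈ U, ∑ m ∈ M, (if (u : ZMod N) * (m : ZMod N) = x then a u * |w m| else 0)
    with hH
  have hGH : ∀ x, |G x| ≤ H x := by
    intro x
    rw [hG, hH]
    refine (abs_sum_le_sum_abs _ _).trans (sum_le_sum fun u hu => ?_)
    refine (abs_sum_le_sum_abs _ _).trans (sum_le_sum fun m _ => ?_)
    split_ifs
    · rw [abs_mul, abs_of_nonneg (hU u hu).2]
    · simp
  have h0 : ∀ x, ¬ IsUnit x → G x = 0 := by
    intro x hx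
    rw [hG]
    refine sum_eq_zero fun u hu => sum_eq_zero fun m hm => ?_
    rw [if_neg]
    intro h
    apply hx
    rw [← h]
    exact ((ZMod.isUnit_iff_coprime u N).mpr (hU u hu).1).mul ((ZMod.isUnit_iff_coprime m N).mpr (hM m hm))
  have h1 : ∀ χ : DirichletCharacter ℂ N, (∑ u ∈ U, (a u : ℂ) * χ (u : ZMod N)) *
      ∑ m ∈ M, (w m : ℂ) * χ (m : ZMod N) = ∑ x : ZMod N, (G x : ℂ) * χ x := by
    intro χ
    rw [Finset.sum_mul_sum]
    have h2 : ∀ x : ZMod N, ((G x : ℝ) : ℂ) * χ x = ∑ u ∈ U, ∑ m ∈ M,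
        (if (u : ZMod N) * (m : ZMod N) = x then (a u : ℂ) * (w m : ℂ) * χ x else 0) := by
      intro x
      rw [hG]
      push_cast
      rw [sum_mul]
      refine sum_congr rfl fun u _ => ?_
      rw [sum_mul]
      refine sum_congr rfl fun m _ => ?_
      split_ifs
      · push_cast
        ring
      · simp
    simp_rw [h2]
    symm
    rw [sum_comm]
    refine sum_congr rfl fun u _ => ?_
    rw [sum_comm]
    refine sum_congr rfl fun m _ => ?_
    rw [sum_ite_eq]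
    simp only [mem_univ, if_true]
    rw [map_mul]
    ring
  simp_rw [h1]
  rw [e2c_pars N G h0]
  refine mul_le_mul_of_nonneg_left ?_ (Nat.cast_nonneg _)
  have hH0 : ∀ x, 0 ≤ H x := fun x => (abs_nonneg _).trans (hGH x)
  have hTn : 0 ≤ T := (hH0 0).trans (hT 0)
  have h3 : ∑ x : ZMod N, G x ^ 2 ≤ T * ∑ x : ZMod N, H x := by
    rw [mul_sum]
    refine sum_le_sum fun x _ => ?_
    rw [← sq_abs, sq]
    exact mul_le_mul ((hGH x).trans (hT x)) (hGH x) (abs_nonneg _) hTn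
  have h4 : ∑ x : ZMod N, H x = (∑ u ∈ U, a u) * ∑ m ∈ M, |w m| := by
    rw [hH, sum_comm, sum_mul_sum]
    refine sum_congr rfl fun u _ => ?_
    rw [sum_comm]
    refine sum_congr rfl fun m _ => ?_
    rw [sum_ite_eq]
    simp
  refine h3.trans ?_
  rw [h4, hS1]
  refine mul_le_mul_of_nonneg_left ?_ hTn
  refine mul_le_mul_of_nonneg_left hS2 ?_
  rw [← hS1]
  exact sum_nonneg fun u hu => (hU u hu).2

/-- powers beat logarithms -/
private theorem e2c_large (e C : ℝ) (he : 0 < e) : ∃ N0 : ℕ, ∀ N : ℕ, N0 ≤ N →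
    C * (1 + 2 * Real.log N) ^ 2 ≤ (N : ℝ) ^ e := by
  have h1 : (fun x : ℝ => 1 + 2 * Real.log x) =o[Filter.atTop] fun x : ℝ => x ^ (e / 4) := by
    refine Asymptotics.IsLittleO.add ?_ ?_
    · refine Asymptotics.isLittleO_const_left.mpr (Or.inr ?_)
      refine Filter.tendsto_atTop_mono (fun x => le_abs_self _) ?_
      exact tendsto_rpow_atTop (by positivity)
    · exact (isLittleO_log_rpow_atTop (by positivity)).const_mul_left 2
  have h2 := h1.pow (n := 2) (by norm_num)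
  have h3 : Filter.Tendsto (fun x : ℝ => x ^ (e / 2)) Filter.atTop Filter.atTop :=
    tendsto_rpow_atTop (by positivity)
  have h4 := (h2.bound (show (0 : ℝ) < 1 by norm_num)).and ((h3.eventually_ge_atTop |C|).and
    (Filter.eventually_ge_atTop (1 : ℝ)))
  obtain ⟨x0, hx0⟩ := Filter.eventually_atTop.mp h4
  refine ⟨⌈x0⌉₊, fun N hN => ?_⟩
  obtain ⟨h5, h6, h7⟩ := hx0 N ((Nat.le_ceil x0).trans (by exact_mod_cast hN))
  have hN0 : (0 : ℝ) < N := by linarith
  rw [one_mul, Real.norm_eq_abs, Real.norm_eq_abs, abs_of_nonneg (sq_nonneg _),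
    abs_of_nonneg (by positivity)] at h5
  have h8 : ((N : ℝ) ^ (e / 4)) ^ 2 = (N : ℝ) ^ (e / 2) := by
    rw [← Real.rpow_natCast, ← Real.rpow_mul hN0.le]
    congr 1
    push_cast
    ring
  rw [h8] at h5
  calc C * (1 + 2 * Real.log N) ^ 2 ≤ |C| * (1 + 2 * Real.log N) ^ 2 := by
        gcongr
        exact le_abs_self C
    _ ≤ (N : ℝ) ^ (e / 2) * (N : ℝ) ^ (e / 2) := by
        refine mul_le_mul h6 h5 (sq_nonneg _) (by positivity)
    _ = (N : ℝ) ^ e := by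
        rw [← Real.rpow_add hN0]
        congr 1
        ring

/-- sizes of the parameters -/
private theorem e2c_range (k N : ℕ) (hk : 160 ≤ k) (hN : 2 ≤ N) :
    1 ≤ A0 k N ∧ 1 ≤ B0 k N ∧ B1 k N ≤ N ^ 2 ∧ B0 k N ≤ N := by
  have hk0 : (160 : ℝ) ≤ k := by exact_mod_cast hk
  have hNr : (1 : ℝ) ≤ N := by exact_mod_cast (by omega : 1 ≤ N)
  have hk8 : (8 : ℝ) / k ≤ 1 := by
    rw [div_le_one (by linarith)]
    linarith
  have hk1 : (1 : ℝ) / k ≤ 1 / 2 := by
    rw [div_le_div_iff₀ (by linarith) (by norm_num)]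
    linarith
  refine ⟨?_, ?_, ?_, ?_⟩
  · unfold A0 pw
    rw [Nat.one_le_floor_iff]
    exact Real.one_le_rpow hNr (by positivity)
  · unfold B0 pw
    rw [Nat.one_le_floor_iff]
    exact Real.one_le_rpow hNr (by positivity)
  · unfold B1 pw
    refine Nat.floor_le_of_le ?_
    push_cast
    rw [← Real.rpow_two]
    exact Real.rpow_le_rpow_of_exponent_le hNr (by linarith)
  · unfold B0 pw
    refine Nat.floor_le_of_le ?_
    conv_rhs => rw [← Real.rpow_one (N : ℝ)]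
    exact Real.rpow_le_rpow_of_exponent_le hNr (by linarith)

theorem E2c (k : ℕ) (hk : 160 ≤ k) : ∃ N0 : ℕ, ∀ (N : ℕ) [NeZero N], N0 ≤ N → ∀ (D U : Finset ℕ) (a : ℕ → ℝ)
    (U0 : ℕ), US k N U a U0 →
    ∑ χ : DirichletCharacter ℂ N, ‖(∑ u ∈ U, (a u : ℂ) * χ (u : ZMod N)) *
      ∑ m ∈ MM k N, ((WD D m / m : ℝ) : ℂ) * χ (m : ZMod N)‖ ^ 2 ≤
      (∑ u ∈ U, a u) ^ 2 * (N : ℝ) ^ (tau k / 3) := by
  classical
  have hk0 : (160 : ℝ) ≤ k := by exact_mod_cast hk
  have ht : 0 < tau k := by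
    unfold tau
    positivity
  set t : ℝ := tau k with htdef
  obtain ⟨C, hC1, hC⟩ := Pool.Agent.Lib.RG.divisor_bound (t / 1000) (by positivity)
  obtain ⟨N1, hN1⟩ := e2c_large (t / 20) (4 * C ^ 3) (by positivity)
  refine ⟨max N1 2, ?_⟩
  intro N _ hN D U a U0 hUS
  have hN2 : 2 ≤ N := le_trans (le_max_right _ _) hN
  have hNr : (1 : ℝ) ≤ N := by exact_mod_cast (by omega : 1 ≤ N)
  have hNpos : (0 : ℝ) < N := by linarith
  have hL0 : 0 ≤ Real.log N := Real.log_nonneg hNr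
  have hlarge := hN1 N (le_trans (le_max_left _ _) hN)
  obtain ⟨hA0, hB0, hB1, hB0N⟩ := e2c_range k N hk hN2
  have hUmem : ∀ u ∈ U, 1 ≤ u := fun u hu => by
    have := (hUS.mem u hu).1
    omega
  have hMM : ∀ m ∈ MM k N, A0 k N < m ∧ m ≤ B0 k N ∧ m.Coprime N := by
    intro m hm
    unfold MM at hm
    rw [mem_filter, mem_Ioc] at hm
    exact ⟨hm.1.1, hm.1.2, hm.2⟩
  have hU00 : (0 : ℝ) ≤ U0 := Nat.cast_nonneg _
  -- divisor bounds
  have hdB : ∀ n : ℕ, 1 ≤ n → n ≤ N ^ 2 → (n.divisors.card : ℝ) ≤ C * (N : ℝ) ^ (t / 500) := by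
    intro n hn1 hn2
    refine (hC n hn1).trans ?_
    refine mul_le_mul_of_nonneg_left ?_ (by linarith)
    have h1 : (n : ℝ) ≤ (N : ℝ) ^ (2 : ℝ) := by
      rw [Real.rpow_two]
      exact_mod_cast hn2
    calc (n : ℝ) ^ (t / 1000) ≤ ((N : ℝ) ^ (2 : ℝ)) ^ (t / 1000) :=
          Real.rpow_le_rpow (Nat.cast_nonneg _) h1 (by positivity)
      _ = (N : ℝ) ^ (t / 500) := by
          rw [← Real.rpow_mul hNpos.le]
          congr 1
          ring
  have hNN : N ≤ N ^ 2 := by nlinarith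
  set d : ℝ := C * (N : ℝ) ^ (t / 500) with hddef
  have hd0 : 0 ≤ d := by
    rw [hddef]
    positivity
  have hWm : ∀ m ∈ MM k N, |WD D m / m| ≤ d / m := by
    intro m hm
    obtain ⟨h1, h2, h3⟩ := hMM m hm
    have hm1 : 1 ≤ m := by omega
    have hm0 : (0 : ℝ) < m := by exact_mod_cast hm1
    rw [abs_div, abs_of_pos hm0]
    refine div_le_div_of_nonneg_right ?_ hm0.le
    exact (e2c_WD D m hm1).trans (hdB m hm1 (by omega))
  -- the total mass of the sieve weights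
  have hS2 : ∑ m ∈ MM k N, |WD D m / m| ≤ d * (1 + 2 * Real.log N) := by
    refine (sum_le_sum hWm).trans ?_
    have h1 : ∑ m ∈ MM k N, d / (m : ℝ) = d * ∑ m ∈ MM k N, (1 : ℝ) / m := by
      rw [mul_sum]
      refine sum_congr rfl fun m _ => ?_
      ring
    rw [h1]
    refine mul_le_mul_of_nonneg_left ?_ hd0
    have h2 : ∑ m ∈ MM k N, (1 : ℝ) / m ≤ ∑ m ∈ Icc 1 N, (1 : ℝ) / m := by
      refine sum_le_sum_of_subset_of_nonneg ?_ fun m _ _ => by positivity
      intro m hm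
      obtain ⟨h1, h2, h3⟩ := hMM m hm
      rw [mem_Icc]
      omega
    have h3 := e2c_harm N
    linarith
  -- the sums over one class
  have hT : ∀ x : ZMod N, ∑ u ∈ U, ∑ m ∈ MM k N, (if (u : ZMod N) * (m : ZMod N) = x then a u *
      |WD D m / m| else 0) ≤ (N : ℝ) ^ (t / 100) * d * (4 * U0) * (d * ((1 + 2 * Real.log N) / N)) := by
    intro x
    set S := (Finset.Ioc N (4 * U0 * B0 k N)).filter (fun n : ℕ => (n : ZMod N) = x) with hS
    have h1 : ∀ u ∈ U, ∀ m ∈ MM k N, (if (u : ZMod N) * (m : ZMod N) = x then a u *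
        |WD D m / m| else 0) ≤ (N : ℝ) ^ (t / 100) * d * (4 * U0) *
        (if (((u * m : ℕ) : ZMod N) = x) then 1 / ((u * m : ℕ) : ℝ) else 0) := by
      intro u hu m hm
      have hxe : (((u * m : ℕ) : ZMod N) = x) ↔ (u : ZMod N) * (m : ZMod N) = x := by
        push_cast
        rfl
      by_cases hx : (u : ZMod N) * (m : ZMod N) = x
      · rw [if_pos hx, if_pos (hxe.mpr hx)]
        obtain ⟨h2, h3, h4⟩ := hMM m hm
        obtain ⟨h5, h6, h7⟩ := hUS.mem u hu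
        have hm0 : (0 : ℝ) < m := by exact_mod_cast (by omega : 0 < m)
        have hu0 : (0 : ℝ) < u := by exact_mod_cast (by omega : 0 < u)
        have h8 : (u : ℝ) ≤ 4 * U0 := by exact_mod_cast h6
        have h9 : a u ≤ (N : ℝ) ^ (t / 100) := (hUS.bnd u hu).2
        have h10 : d / m ≤ d * (4 * U0) * (1 / ((u * m : ℕ) : ℝ)) := by
          push_cast
          rw [mul_one_div, div_le_div_iff₀ hm0 (by positivity)]
          have h11 : d * (u * m) ≤ d * ((4 * U0) * m) := by gcongr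
          linarith
        calc a u * |WD D m / m| ≤ (N : ℝ) ^ (t / 100) * (d / m) :=
              mul_le_mul h9 (hWm m hm) (abs_nonneg _) (by positivity)
          _ ≤ (N : ℝ) ^ (t / 100) * (d * (4 * U0) * (1 / ((u * m : ℕ) : ℝ))) := by gcongr
          _ = _ := by ring
      · rw [if_neg hx, if_neg (fun h => hx (hxe.mp h)), mul_zero]
    have h12 : ∑ u ∈ U, ∑ m ∈ MM k N, (if (u : ZMod N) * (m : ZMod N) = x then a u *
        |WD D m / m| else 0) ≤ (N : ℝ) ^ (t / 100) * d * (4 * U0) * ∑ u ∈ U, ∑ m ∈ MM k N,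
        (if (((u * m : ℕ) : ZMod N) = x) then 1 / ((u * m : ℕ) : ℝ) else 0) := by
      rw [mul_sum]
      refine sum_le_sum fun u hu => ?_
      rw [mul_sum]
      exact sum_le_sum fun m hm => h1 u hu m hm
    refine h12.trans ?_
    refine mul_le_mul_of_nonneg_left ?_ (by positivity)
    have h13 := e2c_pairs U (MM k N) hUmem (fun m hm => by
      have := (hMM m hm).1
      omega) S (fun n : ℕ => (n : ZMod N) = x) (fun u hu m hm hP => by
        obtain ⟨h2, h3, h4⟩ := hMM m hm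
        obtain ⟨h5, h6, h7⟩ := hUS.mem u hu
        rw [hS, mem_filter, mem_Ioc]
        refine ⟨⟨?_, ?_⟩, hP⟩
        · calc N ≤ U0 * A0 k N := hUS.low
            _ < u * m := Nat.mul_lt_mul'' h5 h2
        · exact Nat.mul_le_mul h6 h3) (fun n : ℕ => 1 / (n : ℝ)) (fun n => by positivity)
    refine h13.trans ?_
    have h14 : 4 * U0 * B0 k N ≤ N ^ 2 := by
      have h15 := hUS.upp
      have h16 : 1 ≤ pw N (1 / (uu k + 1)) := by
        unfold pw
        rw [Nat.one_le_floor_iff]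
        exact Real.one_le_rpow hNr (by positivity)
      have h17 : 4 * U0 * B0 k N ≤ 4 * U0 * B0 k N * pw N (1 / (uu k + 1)) := Nat.le_mul_of_pos_right _ h16
      omega
    calc ∑ n ∈ S, (n.divisors.card : ℝ) * (1 / (n : ℝ)) ≤ ∑ n ∈ S, d * (1 / (n : ℝ)) := by
          refine sum_le_sum fun n hn => ?_
          rw [hS, mem_filter, mem_Ioc] at hn
          refine mul_le_mul_of_nonneg_right ?_ (by positivity)
          exact hdB n (by omega) (by omega)
      _ = d * ∑ n ∈ S, (1 : ℝ) / n := by rw [mul_sum]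
      _ ≤ d * ((1 + Real.log (4 * U0 * B0 k N : ℕ)) / N) := by
          refine mul_le_mul_of_nonneg_left ?_ hd0
          exact e2c_class N _ x
      _ ≤ d * ((1 + 2 * Real.log N) / N) := by
          refine mul_le_mul_of_nonneg_left ?_ hd0
          refine div_le_div_of_nonneg_right ?_ hNpos.le
          have h18 : Real.log (4 * U0 * B0 k N : ℕ) ≤ 2 * Real.log N := by
            rcases Nat.eq_zero_or_pos (4 * U0 * B0 k N) with h | h
            · rw [h]
              simp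
              positivity
            · have h19 : ((4 * U0 * B0 k N : ℕ) : ℝ) ≤ (N : ℝ) ^ 2 := by exact_mod_cast h14
              have h20 := Real.log_le_log (by exact_mod_cast h) h19
              rw [Real.log_pow] at h20
              exact_mod_cast h20
          linarith
  have hmain := e2c_core N U (MM k N) a (fun m => WD D m / m) _ (∑ u ∈ U, a u) _
    (fun u hu => ⟨(hUS.mem u hu).2.2, (hUS.bnd u hu).1⟩) (fun m hm => (hMM m hm).2.2) hT rfl hS2
  refine hmain.trans ?_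
  set S1 : ℝ := ∑ u ∈ U, a u with hS1
  have hS10 : 0 ≤ S1 := sum_nonneg fun u hu => (hUS.bnd u hu).1
  have hphi : (N.totient : ℝ) ≤ N := by exact_mod_cast Nat.totient_le N
  have hU0S : (U0 : ℝ) ≤ S1 * (N : ℝ) ^ (t / 4) := by
    have h1 := hUS.big
    rw [← hS1] at h1
    have h2 : (N : ℝ) ^ (-(t / 4)) * (N : ℝ) ^ (t / 4) = 1 := by
      rw [← Real.rpow_add hNpos]
      simp
    calc (U0 : ℝ) = U0 * (N : ℝ) ^ (-(t / 4)) * (N : ℝ) ^ (t / 4) := by rw [mul_assoc, h2, mul_one]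
      _ ≤ S1 * (N : ℝ) ^ (t / 4) := by
          refine mul_le_mul_of_nonneg_right h1 (by positivity)
  have hfac : (0 : ℝ) ≤ 1 + 2 * Real.log N := by linarith
  calc (N.totient : ℝ) * ((N : ℝ) ^ (t / 100) * d * (4 * U0) * (d * ((1 + 2 * Real.log N) / N)) *
        (S1 * (d * (1 + 2 * Real.log N)))) ≤
        (N : ℝ) * ((N : ℝ) ^ (t / 100) * d * (4 * (S1 * (N : ℝ) ^ (t / 4))) *
          (d * ((1 + 2 * Real.log N) / N)) * (S1 * (d * (1 + 2 * Real.log N)))) := by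
        gcongr
    _ = S1 ^ 2 * ((4 * C ^ 3 * (1 + 2 * Real.log N) ^ 2) * ((N : ℝ) ^ (t / 100) * (N : ℝ) ^ (t / 4) *
          ((N : ℝ) ^ (t / 500)) ^ 3)) := by
        rw [hddef]
        field_simp
    _ ≤ S1 ^ 2 * ((N : ℝ) ^ (t / 20) * ((N : ℝ) ^ (t / 100) * (N : ℝ) ^ (t / 4) *
          ((N : ℝ) ^ (t / 500)) ^ 3)) := by
        gcongr
    _ = S1 ^ 2 * (N : ℝ) ^ (t / 20 + (t / 100 + t / 4 + t / 500 * 3)) := by
        rw [Real.rpow_add hNpos (t / 20), Real.rpow_add hNpos (t / 100 + t / 4), Real.rpow_add hNpos (t / 100),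
          Real.rpow_mul hNpos.le]
        norm_num
    _ ≤ S1 ^ 2 * (N : ℝ) ^ (t / 3) := by
        refine mul_le_mul_of_nonneg_left ?_ (sq_nonneg _)
        exact Real.rpow_le_rpow_of_exponent_le hNr (by linarith)

end Pool.Agent.Lib.PQ
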