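import Pool.Agent.Lib.MP_7b7e48_nt.PQ.E2a
import Pool.Agent.Lib.MP_7b7e48_nt.PQ.E2b
import Pool.Agent.Lib.MP_7b7e48_nt.PQ.E2c
import Pool.Agent.Lib.MP_7b7e48_nt.PQ.B3m
import Pool.Agent.Lib.MP_7b7e48_nt.PQ.B7m
import Pool.Agent.Lib.MP_7b7e48_nt.PQ.C9m
import Pool.Agent.Lib.MP_7b7e48_nt.PQ.D6m

/-!
# E2m (60 minutes): the count lemma

PROOF. `E2a`. `ZW_low`: `ZW ≥ ms R0 ≥ 1/(4k)` (`DD.upper`: `WD m ≥ 1` for rough `m`, `WD m ≥ 0` for all `m`; `D6m`). Write `A = ∑ a u > 0`.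
`χ = 1`: exactly `#Q * EX`. `χ ∈ XX`, `χ ≠ 1`: by `E2b` together `≤ (1/φ) #Q A #PP * #D * (2 PB N/A0) * #XX`; relative to `#QQ * EX` this is
`≤ #D #XX 2 PB N/(A0 ZW) ≤ N^(1/(20k) + 1/(10k) + 1/2 + 1/(20k) - 1/2 - 1/(2k)) * 16 k ≤ N^(-τ/2)/2` (`RG.PB_le`; `#D ≤ N^(1/(20k))`).
`χ ∉ XX`: `‖∑_l χ l‖ ≤ N^(-τ) #PP` (definition of `XX`), Cauchy-Schwarz: `(1/φ) N^(-τ) #PP (∑_χ ‖∑_q χ⁻¹ (-q)‖²)^(1/2) (∑_χ ‖..‖²)^(1/2)`, first factor
`≤ (#Q φ (B1/N + 1))^(1/2)` (`B3m`, `‖∑_q‖ = #Q ‖rho‖`), second `≤ A N^(τ/6)` (`E2c`). Relative to `#QQ * EX = #QQ A #PP ZW/φ`: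
`N^(-5τ/6) (2 B1 φ/(N #QQ))^(1/2)/ZW ≤ N^(-5τ/6) (4 log N)^(1/2) 4k ≤ N^(-τ/2)/2` (`C9m_log`, `φ ≤ N`).
-/

set_option autoImplicit false

open Finset
open Pool.Agent.Lib.GT (Rough pr V)
open Pool.Agent.Lib.MP_45349e_nt.LS (lam)
open Pool.Agent.Lib.RG (RC LV rr SS PB sig)

namespace Pool.Agent.Lib.PQ

theorem ZW_low (k : ℕ) (hk : 160 ≤ k) (c : ℝ) (hc : 0 < c) (hc1 : c ≤ 1 / 2) : ∃ N0 : ℕ, ∀ N : ℕ, N0 ≤ N →
    ∀ D : Finset ℕ, DD k c N D → 1 / (4 * (k : ℝ)) ≤ ZW k N D ∧ ms (R0 k c N) ≤ ZW k N D := by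
  classical
  obtain ⟨N0, hN0⟩ := D6m k hk c hc hc1
  refine ⟨N0, fun N hN D hD => ?_⟩
  have h1 : ms (R0 k c N) ≤ ZW k N D := by
    unfold ms ZW
    have hsub : R0 k c N ⊆ MM k N := by
      intro m hm
      unfold R0 RS at hm
      unfold MM
      rw [mem_filter] at hm ⊢
      exact ⟨hm.1, hm.2.2⟩
    have hpos : ∀ m ∈ MM k N, (0 : ℝ) ≤ WD D m / m := by
      intro m hm
      unfold MM at hm
      rw [mem_filter, mem_Ioc] at hm
      have h2 := hD.upper m (by omega)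
      have h3 : (0 : ℝ) ≤ if Rough (pw N c) m then (1 : ℝ) else 0 := by split_ifs <;> norm_num
      exact div_nonneg (h3.trans h2) (Nat.cast_nonneg _)
    calc ∑ m ∈ R0 k c N, 1 / (m : ℝ) ≤ ∑ m ∈ R0 k c N, WD D m / m := by
          refine sum_le_sum fun m hm => ?_
          have hm' := hm
          unfold R0 RS at hm'
          rw [mem_filter, mem_Ioc] at hm'
          have h2 := hD.upper m (by omega)
          rw [if_pos hm'.2.1] at h2
          exact div_le_div_of_nonneg_right h2 (Nat.cast_nonneg _)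
      _ ≤ ∑ m ∈ MM k N, WD D m / m := sum_le_sum_of_subset_of_nonneg hsub fun m hm _ => hpos m hm
  exact ⟨(hN0 N hN).trans h1, h1⟩

/-- powers beat logarithms -/
private theorem e2m_large (e C : ℝ) (he : 0 < e) (hC : 0 ≤ C) : ∃ N0 : ℕ, ∀ N : ℕ, N0 ≤ N →
    C ≤ (N : ℝ) ^ e ∧ C * (1 + Real.log N) ≤ (N : ℝ) ^ e := by
  have h1 : (fun x : ℝ => C * (1 + Real.log x)) =o[Filter.atTop] fun x : ℝ => x ^ e := by
    refine Asymptotics.IsLittleO.const_mul_left (Asymptotics.IsLittleO.add ?_ ?_) C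
    · refine Asymptotics.isLittleO_const_left.mpr (Or.inr ?_)
      refine Filter.tendsto_atTop_mono (fun x => le_abs_self _) ?_
      exact tendsto_rpow_atTop he
    · exact isLittleO_log_rpow_atTop he
  have h4 := (h1.bound (show (0 : ℝ) < 1 by norm_num)).and (Filter.eventually_ge_atTop (1 : ℝ))
  obtain ⟨x0, hx0⟩ := Filter.eventually_atTop.mp h4
  refine ⟨⌈x0⌉₊, fun N hN => ?_⟩
  obtain ⟨h5, h7⟩ := hx0 N ((Nat.le_ceil x0).trans (by exact_mod_cast hN))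
  have hN0 : (0 : ℝ) < N := by linarith
  have hlog : 0 ≤ Real.log N := Real.log_nonneg h7
  rw [one_mul, Real.norm_eq_abs, Real.norm_eq_abs, abs_of_nonneg (by positivity),
    abs_of_nonneg (by positivity)] at h5
  refine ⟨?_, h5⟩
  have h6 : C * 1 ≤ C * (1 + Real.log N) := mul_le_mul_of_nonneg_left (by linarith) hC
  linarith

/-- the factors of the expansion -/
private noncomputable def e2m_q {N : ℕ} (Q : Finset ℕ) (χ : DirichletCharacter ℂ N) : ℂ :=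
  ∑ q ∈ Q, χ⁻¹ (-(q : ZMod N))

private noncomputable def e2m_u {N : ℕ} (U : Finset ℕ) (a : ℕ → ℝ) (χ : DirichletCharacter ℂ N) : ℂ :=
  ∑ u ∈ U, (a u : ℂ) * χ (u : ZMod N)

private noncomputable def e2m_l (k : ℕ) {N : ℕ} (χ : DirichletCharacter ℂ N) : ℂ :=
  ∑ l ∈ PP k N, χ (l : ZMod N)

private noncomputable def e2m_m (k : ℕ) {N : ℕ} (D : Finset ℕ) (χ : DirichletCharacter ℂ N) : ℂ :=
  ∑ m ∈ MM k N, ((WD D m / m : ℝ) : ℂ) * χ (m : ZMod N)

private theorem e2m_PPcop {k N l : ℕ} (hl : l ∈ PP k N) : l.Coprime N := by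
  unfold PP at hl
  rw [mem_filter] at hl
  exact (Nat.Prime.coprime_iff_not_dvd hl.2.1).mpr hl.2.2

private theorem e2m_sum_one {N : ℕ} (S : Finset ℕ) (f : ℕ → ℂ) (hS : ∀ s ∈ S, s.Coprime N) :
    ∑ s ∈ S, f s * (1 : DirichletCharacter ℂ N) (s : ZMod N) = ∑ s ∈ S, f s := by
  refine sum_congr rfl fun s hs => ?_
  rw [MulChar.one_apply ((ZMod.isUnit_iff_coprime s N).mpr (hS s hs)), mul_one]

/-- the principal character and the triangle inequality -/
private theorem e2m_split (k N : ℕ) [NeZero N] (D Q U : Finset ℕ) (a : ℕ → ℝ)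
    (hQ : ∀ q ∈ Q, q.Coprime N) (hU : ∀ u ∈ U, u.Coprime N) (h1 : (1 : DirichletCharacter ℂ N) ∈ XX k N)
    (E1 E2 : ℝ)
    (hE1 : ∑ χ ∈ (XX k N).erase 1, ‖e2m_q Q χ * e2m_u U a χ * e2m_l k χ * e2m_m k D χ‖ ≤ E1)
    (hE2 : ∑ χ ∈ Finset.univ \ XX k N, ‖e2m_q Q χ * e2m_u U a χ * e2m_l k χ * e2m_m k D χ‖ ≤ E2) :
    |SC k N D Q U a - Q.card * EX k N D U a| ≤ (E1 + E2) / N.totient := by
  classical
  have hphi : (0 : ℝ) < (N.totient : ℝ) := by
    exact_mod_cast Nat.totient_pos.mpr (Nat.pos_of_ne_zero (NeZero.ne N))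
  set F : DirichletCharacter ℂ N → ℂ := fun χ => e2m_q Q χ * e2m_u U a χ * e2m_l k χ * e2m_m k D χ with hF
  have hexp : ((SC k N D Q U a : ℝ) : ℂ) = (∑ χ : DirichletCharacter ℂ N, F χ) / N.totient :=
    E2a k N D Q U a hQ
  have hq1 : e2m_q Q (1 : DirichletCharacter ℂ N) = (Q.card : ℂ) := by
    unfold e2m_q
    rw [inv_one, card_eq_sum_ones]
    push_cast
    refine sum_congr rfl fun q hq => ?_
    rw [MulChar.one_apply]
    exact ((ZMod.isUnit_iff_coprime q N).mpr (hQ q hq)).neg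
  have hu1 : e2m_u U a (1 : DirichletCharacter ℂ N) = ((∑ u ∈ U, a u : ℝ) : ℂ) := by
    unfold e2m_u
    rw [e2m_sum_one U (fun u => (a u : ℂ)) hU]
    push_cast
    rfl
  have hl1 : e2m_l k (1 : DirichletCharacter ℂ N) = ((PP k N).card : ℂ) := by
    unfold e2m_l
    rw [card_eq_sum_ones]
    push_cast
    refine sum_congr rfl fun l hl => ?_
    rw [MulChar.one_apply]
    exact (ZMod.isUnit_iff_coprime l N).mpr (e2m_PPcop hl)
  have hm1 : e2m_m k D (1 : DirichletCharacter ℂ N) = ((ZW k N D : ℝ) : ℂ) := by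
    unfold e2m_m ZW
    rw [e2m_sum_one (MM k N) (fun m => ((WD D m / m : ℝ) : ℂ)) (fun m hm => by
      unfold MM at hm
      exact (mem_filter.mp hm).2)]
    push_cast
    rfl
  have hF1 : F 1 = ((Q.card * ((∑ u ∈ U, a u) * (PP k N).card * ZW k N D) : ℝ) : ℂ) := by
    rw [hF]
    simp only
    rw [hq1, hu1, hl1, hm1]
    push_cast
    ring
  have hdiff : ((SC k N D Q U a - Q.card * EX k N D U a : ℝ) : ℂ) =
      (∑ χ ∈ Finset.univ.erase (1 : DirichletCharacter ℂ N), F χ) / N.totient := by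
    have h2 : ∑ χ : DirichletCharacter ℂ N, F χ =
        F 1 + ∑ χ ∈ Finset.univ.erase (1 : DirichletCharacter ℂ N), F χ :=
      (add_sum_erase _ _ (mem_univ _)).symm
    rw [Complex.ofReal_sub, hexp, h2, hF1]
    unfold EX
    push_cast
    have hphic : ((N.totient : ℕ) : ℂ) ≠ 0 := by exact_mod_cast hphi.ne'
    field_simp
    ring
  rw [← Real.norm_eq_abs, ← Complex.norm_real, hdiff, norm_div, Complex.norm_natCast]
  refine div_le_div_of_nonneg_right ?_ hphi.le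
  refine (norm_sum_le _ _).trans ?_
  have hun : Finset.univ.erase (1 : DirichletCharacter ℂ N) = (XX k N).erase 1 ∪ (Finset.univ \ XX k N) := by
    ext χ
    simp only [mem_erase, mem_univ, and_true, mem_union, mem_sdiff, true_and]
    constructor
    · intro h
      by_cases h3 : χ ∈ XX k N
      · exact Or.inl ⟨h, h3⟩
      · exact Or.inr h3
    · rintro (h | h)
      · exact h.1
      · rintro rfl
        exact h h1
  have hdis : Disjoint ((XX k N).erase 1) (Finset.univ \ XX k N) := by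
    rw [disjoint_left]
    intro χ h3 h4
    rw [mem_erase] at h3
    rw [mem_sdiff] at h4
    exact h4.2 h3.2
  rw [hun, sum_union hdis]
  exact add_le_add hE1 hE2

/-- trivial bounds of the factors -/
private theorem e2m_triv (k N : ℕ) [NeZero N] (Q U : Finset ℕ) (a : ℕ → ℝ) (ha : ∀ u ∈ U, 0 ≤ a u)
    (χ : DirichletCharacter ℂ N) :
    ‖e2m_q Q χ‖ ≤ Q.card ∧ ‖e2m_u U a χ‖ ≤ ∑ u ∈ U, a u ∧ ‖e2m_l k χ‖ ≤ ((PP k N).card : ℝ) := by
  refine ⟨?_, ?_, ?_⟩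
  · unfold e2m_q
    refine (norm_sum_le _ _).trans ?_
    rw [card_eq_sum_ones]
    push_cast
    exact sum_le_sum fun q _ => DirichletCharacter.norm_le_one _ _
  · unfold e2m_u
    refine (norm_sum_le _ _).trans (sum_le_sum fun u hu => ?_)
    rw [norm_mul, Complex.norm_real, Real.norm_eq_abs, abs_of_nonneg (ha u hu)]
    exact mul_le_of_le_one_right (ha u hu) (DirichletCharacter.norm_le_one _ _)
  · unfold e2m_l
    refine (norm_sum_le _ _).trans ?_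
    rw [card_eq_sum_ones]
    push_cast
    exact sum_le_sum fun q _ => DirichletCharacter.norm_le_one _ _

theorem E2m (k : ℕ) (hk : 160 ≤ k) (c : ℝ) (hc : 0 < c) (hc1 : c ≤ 1 / (1000 * k)) : ∃ N0 : ℕ,
    ∀ (N : ℕ) [NeZero N], N0 ≤ N → ∀ (D Q U : Finset ℕ) (a : ℕ → ℝ) (U0 : ℕ), DD k c N D → Q ⊆ QQ k N →
    US k N U a U0 →
    |SC k N D Q U a - Q.card * EX k N D U a| ≤ (N : ℝ) ^ (-(tau k / 2)) * ((QQ k N).card * EX k N D U a) := by
  classical
  have hk0 : (160 : ℝ) ≤ k := by exact_mod_cast hk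
  have hkpos : (0 : ℝ) < k := by linarith
  have ht : 0 < tau k := by
    unfold tau
    positivity
  have htk : tau k ≤ 1 / (10 * k) := by
    unfold tau
    rw [div_le_div_iff₀ (by positivity) (by positivity)]
    nlinarith
  set t : ℝ := tau k with htdef
  have hc2 : c ≤ 1 / 2 := by
    refine hc1.trans ?_
    rw [div_le_div_iff₀ (by positivity) (by norm_num)]
    linarith
  obtain ⟨N1, hN1⟩ := E2c k hk
  obtain ⟨N2, hN2⟩ := B7m k hk
  obtain ⟨N3, hN3⟩ := C9m_log k hk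
  obtain ⟨N4, hN4⟩ := ZW_low k hk c hc hc2
  obtain ⟨C, hC, hPB⟩ := Pool.Agent.Lib.RG.PB_le (1 / (20 * k)) (by positivity)
  obtain ⟨N5, hN5⟩ := e2m_large (3 / (10 * k) - t / 2) (32 * k * C) (by
    have : 1 / (10 * (k : ℝ)) < 3 / (10 * k) := by
      rw [div_lt_div_iff_of_pos_right (by positivity)]
      norm_num
    linarith) (by positivity)
  obtain ⟨N6, hN6⟩ := e2m_large (t / 3) (16 * k) (by positivity) (by positivity)
  refine ⟨N1 + N2 + N3 + N4 + N5 + N6 + 2, ?_⟩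
  intro N _ hN D Q U a U0 hD hQ hUS
  have hNr : (1 : ℝ) ≤ N := by exact_mod_cast (by omega : 1 ≤ N)
  have hNpos : (0 : ℝ) < N := by linarith
  have hlog : 0 ≤ Real.log N := Real.log_nonneg hNr
  have hphi : (0 : ℝ) < (N.totient : ℝ) := by
    exact_mod_cast Nat.totient_pos.mpr (Nat.pos_of_ne_zero (NeZero.ne N))
  have hphiN : (N.totient : ℝ) ≤ N := by exact_mod_cast Nat.totient_le N
  obtain ⟨hPPne, hXcard, h1X, _⟩ := hN2 N (by omega)
  have hQQ := hN3 N (by omega)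
  obtain ⟨hZW, _⟩ := hN4 N (by omega) D hD
  have hlarge1 := (hN5 N (by omega)).1
  have hlarge2 := (hN6 N (by omega)).2
  have hA1 : 1 ≤ A0 k N := by
    unfold A0 pw
    rw [Nat.one_le_floor_iff]
    exact Real.one_le_rpow hNr (by positivity)
  have hA0r : (0 : ℝ) < A0 k N := by exact_mod_cast hA1
  have hAlow : (N : ℝ) ^ (1 / 2 + 1 / (2 * (k : ℝ))) ≤ 2 * A0 k N := by
    have h2 := Nat.lt_floor_add_one ((N : ℝ) ^ (1 / 2 + 1 / (2 * (k : ℝ))))
    have h3 : (1 : ℝ) ≤ A0 k N := by exact_mod_cast hA1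
    have h4 : ((A0 k N : ℕ) : ℝ) = (⌊(N : ℝ) ^ (1 / 2 + 1 / (2 * (k : ℝ)))⌋₊ : ℝ) := by
      unfold A0 pw
      rfl
    linarith
  set A : ℝ := ∑ u ∈ U, a u with hAdef
  have hA : 0 ≤ A := sum_nonneg fun u hu => (hUS.bnd u hu).1
  set P : ℝ := ((PP k N).card : ℝ) with hPdef
  have hP0 : 0 < P := by
    rw [hPdef]
    exact_mod_cast card_pos.mpr hPPne
  set q : ℝ := ((QQ k N).card : ℝ) with hqdef
  have hq0 : 0 ≤ q := Nat.cast_nonneg _
  have hQq : (Q.card : ℝ) ≤ q := by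
    rw [hqdef]
    exact_mod_cast card_le_card hQ
  have hQc : (0 : ℝ) ≤ Q.card := Nat.cast_nonneg _
  have hQcop : ∀ x ∈ Q, x.Coprime N ∧ 1 ≤ x ∧ x ≤ B1 k N := by
    intro x hx
    have h2 := hQ hx
    unfold QQ at h2
    rw [mem_filter, mem_Ioc] at h2
    refine ⟨?_, by omega, h2.1.2⟩
    rw [Nat.Prime.coprime_iff_not_dvd h2.2]
    intro h3
    exact absurd (Nat.le_of_dvd (by omega) h3) (by omega)
  -- the characters in XX
  have hE1 : ∑ χ ∈ (XX k N).erase 1, ‖e2m_q Q χ * e2m_u U a χ * e2m_l k χ * e2m_m k D χ‖ ≤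
      (N : ℝ) ^ (-(t / 2)) / 2 * (q * (A * P * ZW k N D)) := by
    have h2 : ∀ χ ∈ (XX k N).erase 1, ‖e2m_q Q χ * e2m_u U a χ * e2m_l k χ * e2m_m k D χ‖ ≤
        q * A * P * (D.card * (2 * PB N / A0 k N)) := by
      intro χ hχ
      rw [mem_erase] at hχ
      obtain ⟨h3, h4, h5⟩ := e2m_triv k N Q U a (fun u hu => (hUS.bnd u hu).1) χ
      have h6 : ‖e2m_m k D χ‖ ≤ D.card * (2 * PB N / A0 k N) :=
        E2b k N (by omega) hA1 D (fun d hd => (hD.size d hd).1) χ hχ.1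
      rw [norm_mul, norm_mul, norm_mul]
      have h3' := h3.trans hQq
      exact mul_le_mul (mul_le_mul (mul_le_mul h3' h4 (norm_nonneg _) hq0) h5 (norm_nonneg _)
        (by positivity)) h6 (norm_nonneg _) (by positivity)
    have hPB0 : 0 ≤ PB N := by
      unfold Pool.Agent.Lib.RG.PB
      positivity
    have hDc : (D.card : ℝ) ≤ (N : ℝ) ^ ((1 : ℝ) / (20 * k)) := by
      have h3 : D ⊆ Icc 1 ⌊(N : ℝ) ^ ((1 : ℝ) / (20 * k))⌋₊ := by
        intro d hd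
        rw [mem_Icc]
        exact ⟨(hD.size d hd).1, Nat.le_floor (hD.size d hd).2⟩
      have h4 := card_le_card h3
      rw [Nat.card_Icc] at h4
      have h5 : (D.card : ℝ) ≤ (⌊(N : ℝ) ^ ((1 : ℝ) / (20 * k))⌋₊ : ℝ) := by
        have : D.card ≤ ⌊(N : ℝ) ^ ((1 : ℝ) / (20 * k))⌋₊ := by omega
        exact_mod_cast this
      exact h5.trans (Nat.floor_le (by positivity))
    have hXc : (((XX k N).erase 1).card : ℝ) ≤ (N : ℝ) ^ ((1 : ℝ) / (10 * k)) := by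
      have h3 : ((XX k N).erase 1).card ≤ pw N (1 / (10 * k)) := by
        have := card_erase_le (s := XX k N) (a := 1)
        omega
      have h4 : (((XX k N).erase 1).card : ℝ) ≤ ((pw N (1 / (10 * k)) : ℕ) : ℝ) := by exact_mod_cast h3
      refine h4.trans ?_
      unfold pw
      exact Nat.floor_le (by positivity)
    refine (sum_le_card_nsmul _ _ _ h2).trans ?_
    rw [nsmul_eq_mul]
    have hPBle := (hPB N (by omega)).1
    have hdiv : PB N / A0 k N ≤ C * (N : ℝ) ^ (1 / 2 + 1 / (20 * (k : ℝ))) * 2 /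
        (N : ℝ) ^ (1 / 2 + 1 / (2 * (k : ℝ))) := by
      rw [div_le_div_iff₀ hA0r (by positivity)]
      calc PB N * (N : ℝ) ^ (1 / 2 + 1 / (2 * (k : ℝ))) ≤
            (C * (N : ℝ) ^ (1 / 2 + 1 / (20 * (k : ℝ)))) * (2 * A0 k N) :=
            mul_le_mul hPBle hAlow (by positivity) (by positivity)
        _ = _ := by ring
    have hkey : (N : ℝ) ^ ((1 : ℝ) / (10 * k)) * ((N : ℝ) ^ ((1 : ℝ) / (20 * k)) *
        (2 * (C * (N : ℝ) ^ (1 / 2 + 1 / (20 * (k : ℝ))) * 2 /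
        (N : ℝ) ^ (1 / 2 + 1 / (2 * (k : ℝ)))))) ≤ (N : ℝ) ^ (-(t / 2)) / 2 * (1 / (4 * (k : ℝ))) := by
      have h3 : (N : ℝ) ^ ((1 : ℝ) / (10 * k)) * ((N : ℝ) ^ ((1 : ℝ) / (20 * k)) *
        (2 * (C * (N : ℝ) ^ (1 / 2 + 1 / (20 * (k : ℝ))) * 2 /
        (N : ℝ) ^ (1 / 2 + 1 / (2 * (k : ℝ)))))) = 4 * C * ((N : ℝ) ^ (-(t / 2)) *
        (N : ℝ) ^ (-(3 / (10 * (k : ℝ)) - t / 2))) := by
        have h4 : (N : ℝ) ^ (-(t / 2)) * (N : ℝ) ^ (-(3 / (10 * (k : ℝ)) - t / 2)) =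
            (N : ℝ) ^ ((1 : ℝ) / (10 * k)) * (N : ℝ) ^ ((1 : ℝ) / (20 * k)) *
            (N : ℝ) ^ (1 / 2 + 1 / (20 * (k : ℝ))) * (N : ℝ) ^ (-(1 / 2 + 1 / (2 * (k : ℝ)))) := by
          rw [← Real.rpow_add hNpos, ← Real.rpow_add hNpos, ← Real.rpow_add hNpos, ← Real.rpow_add hNpos]
          congr 1
          field_simp
          ring
        rw [h4, Real.rpow_neg hNpos.le (1 / 2 + 1 / (2 * (k : ℝ)))]
        field_simp
        ring
      rw [h3]
      have h5 : (N : ℝ) ^ (-(3 / (10 * (k : ℝ)) - t / 2)) * (32 * k * C) ≤ 1 := by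
        rw [Real.rpow_neg hNpos.le, inv_mul_le_iff₀ (by positivity), mul_one]
        exact hlarge1
      have h6 : (0 : ℝ) < (N : ℝ) ^ (-(t / 2)) := by positivity
      have h7 : 4 * C * (N : ℝ) ^ (-(3 / (10 * (k : ℝ)) - t / 2)) ≤ 1 / 2 * (1 / (4 * (k : ℝ))) := by
        rw [one_div_mul_one_div, le_div_iff₀ (by positivity)]
        linarith
      calc 4 * C * ((N : ℝ) ^ (-(t / 2)) * (N : ℝ) ^ (-(3 / (10 * (k : ℝ)) - t / 2))) =
            (N : ℝ) ^ (-(t / 2)) * (4 * C * (N : ℝ) ^ (-(3 / (10 * (k : ℝ)) - t / 2))) := by ring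
        _ ≤ (N : ℝ) ^ (-(t / 2)) * (1 / 2 * (1 / (4 * (k : ℝ)))) := by gcongr
        _ = _ := by ring
    calc (((XX k N).erase 1).card : ℝ) * (q * A * P * (D.card * (2 * PB N / A0 k N))) =
          (q * A * P) * ((((XX k N).erase 1).card : ℝ) * (D.card * (2 * (PB N / A0 k N)))) := by ring
      _ ≤ (q * A * P) * ((N : ℝ) ^ ((1 : ℝ) / (10 * k)) * ((N : ℝ) ^ ((1 : ℝ) / (20 * k)) *
          (2 * (C * (N : ℝ) ^ (1 / 2 + 1 / (20 * (k : ℝ))) * 2 /
          (N : ℝ) ^ (1 / 2 + 1 / (2 * (k : ℝ))))))) := by gcongr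
      _ ≤ (q * A * P) * ((N : ℝ) ^ (-(t / 2)) / 2 * (1 / (4 * (k : ℝ)))) := by gcongr
      _ ≤ (q * A * P) * ((N : ℝ) ^ (-(t / 2)) / 2 * ZW k N D) := by gcongr
      _ = _ := by ring
  -- the other characters
  have hE2 : ∑ χ ∈ Finset.univ \ XX k N, ‖e2m_q Q χ * e2m_u U a χ * e2m_l k χ * e2m_m k D χ‖ ≤
      (N : ℝ) ^ (-(t / 2)) / 2 * (q * (A * P * ZW k N D)) := by
    have hZ0 : 0 < ZW k N D := lt_of_lt_of_le (by positivity) hZW
    rcases Q.eq_empty_or_nonempty with hQe | hQne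
    · have h2 : ∑ χ ∈ Finset.univ \ XX k N, ‖e2m_q Q χ * e2m_u U a χ * e2m_l k χ * e2m_m k D χ‖ = 0 := by
        refine sum_eq_zero fun χ _ => ?_
        have : e2m_q Q χ = 0 := by
          unfold e2m_q
          rw [hQe, sum_empty]
        rw [this]
        simp
      rw [h2]
      positivity
    have hQpos : (0 : ℝ) < Q.card := by exact_mod_cast card_pos.mpr hQne
    have hl : ∀ χ ∈ Finset.univ \ XX k N, ‖e2m_l k χ‖ ≤ (N : ℝ) ^ (-t) * P := by
      intro χ hχ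
      rw [mem_sdiff] at hχ
      have h2 : ‖av (PP k N) (fun l => l) χ‖ ≤ (N : ℝ) ^ (-t) := by
        by_contra h3
        push Not at h3
        apply hχ.2
        unfold XX
        rw [mem_filter]
        exact ⟨mem_univ _, h3.le⟩
      unfold av at h2
      rw [norm_div, Complex.norm_natCast, div_le_iff₀ hP0] at h2
      exact h2
    have hstep : ∑ χ ∈ Finset.univ \ XX k N, ‖e2m_q Q χ * e2m_u U a χ * e2m_l k χ * e2m_m k D χ‖ ≤
        (N : ℝ) ^ (-t) * P * ∑ χ : DirichletCharacter ℂ N, ‖e2m_q Q χ‖ * ‖e2m_u U a χ * e2m_m k D χ‖ := by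
      have hpt : ∀ χ ∈ Finset.univ \ XX k N, ‖e2m_q Q χ * e2m_u U a χ * e2m_l k χ * e2m_m k D χ‖ ≤
          (N : ℝ) ^ (-t) * P * (‖e2m_q Q χ‖ * ‖e2m_u U a χ * e2m_m k D χ‖) := by
        intro χ hχ
        have h2 := hl χ hχ
        calc ‖e2m_q Q χ * e2m_u U a χ * e2m_l k χ * e2m_m k D χ‖ =
              ‖e2m_l k χ‖ * (‖e2m_q Q χ‖ * ‖e2m_u U a χ * e2m_m k D χ‖) := by
              rw [norm_mul, norm_mul, norm_mul, norm_mul]
              ring
          _ ≤ (N : ℝ) ^ (-t) * P * (‖e2m_q Q χ‖ * ‖e2m_u U a χ * e2m_m k D χ‖) := by gcongr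
      refine (sum_le_sum hpt).trans ?_
      rw [mul_sum]
      refine sum_le_sum_of_subset_of_nonneg (subset_univ (Finset.univ \ XX k N)) ?_
      intro χ _ _
      positivity
    have hB3 := B3m N Q (B1 k N) hQcop hQne
    have hqn : ∀ χ : DirichletCharacter ℂ N, ‖e2m_q Q χ‖ ^ 2 = (Q.card : ℝ) ^ 2 * ‖rho Q χ‖ ^ 2 := by
      intro χ
      unfold rho e2m_q
      rw [norm_div, Complex.norm_natCast, div_pow]
      field_simp
    have hqs : ∑ χ : DirichletCharacter ℂ N, ‖e2m_q Q χ‖ ^ 2 ≤ (2 * q) ^ 2 * (1 + Real.log N) := by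
      simp_rw [hqn]
      rw [← mul_sum]
      have hB1N : (N : ℝ) ≤ B1 k N := by
        have h3 : N ≤ B1 k N := by
          unfold B1 pw
          refine Nat.le_floor ?_
          conv_lhs => rw [← Real.rpow_one (N : ℝ)]
          exact Real.rpow_le_rpow_of_exponent_le hNr (by
            have : (0 : ℝ) ≤ 8 / k := by positivity
            linarith)
        exact_mod_cast h3
      have h4 : (B1 k N : ℝ) ≤ q * (2 * (1 + Real.log N)) := by
        have h5 : (B1 k N : ℝ) / (2 * (1 + Real.log N)) ≤ q := by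
          refine le_trans ?_ hQQ
          by_cases h6 : Real.log N = 0
          · exfalso
            have h7 : 0 < Real.log N := Real.log_pos (by exact_mod_cast (by omega : 1 < N))
            exact h7.ne' h6
          · have h7 : 0 < Real.log N := lt_of_le_of_ne hlog (Ne.symm h6)
            refine div_le_div_of_nonneg_left (Nat.cast_nonneg _) (by positivity) (by linarith)
        rwa [div_le_iff₀ (by positivity)] at h5
      calc (Q.card : ℝ) ^ 2 * ∑ χ : DirichletCharacter ℂ N, ‖rho Q χ‖ ^ 2 ≤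
            (Q.card : ℝ) ^ 2 * (N.totient * ((B1 k N : ℝ) / N + 1) / Q.card) := by gcongr
        _ = Q.card * (N.totient * ((B1 k N : ℝ) / N + 1)) := by
            field_simp
        _ ≤ q * (N * ((B1 k N : ℝ) / N + 1)) := by gcongr
        _ = q * (B1 k N + N) := by
            field_simp
        _ ≤ q * (2 * (q * (2 * (1 + Real.log N)))) := by
            refine mul_le_mul_of_nonneg_left ?_ hq0
            linarith
        _ = (2 * q) ^ 2 * (1 + Real.log N) := by ring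
    have hums : ∑ χ : DirichletCharacter ℂ N, ‖e2m_u U a χ * e2m_m k D χ‖ ^ 2 ≤
        A ^ 2 * (N : ℝ) ^ (t / 3) := hN1 N (by omega) D U a U0 hUS
    have hCS : ∑ χ : DirichletCharacter ℂ N, ‖e2m_q Q χ‖ * ‖e2m_u U a χ * e2m_m k D χ‖ ≤
        (2 * q) * (1 + Real.log N) * (A * (N : ℝ) ^ (t / 6)) := by
      refine (Real.sum_mul_le_sqrt_mul_sqrt _ _ _).trans ?_
      refine mul_le_mul ?_ ?_ (Real.sqrt_nonneg _) (by positivity)
      · refine Real.sqrt_le_iff.mpr ⟨by positivity, hqs.trans ?_⟩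
        have h9 : 1 + Real.log N ≤ (1 + Real.log N) ^ 2 := by nlinarith
        have h10 := mul_le_mul_of_nonneg_left h9 (sq_nonneg (2 * q))
        rw [← mul_pow] at h10
        exact h10
      · refine Real.sqrt_le_iff.mpr ⟨by positivity, hums.trans ?_⟩
        rw [mul_pow]
        have h9 : (N : ℝ) ^ (t / 3) = ((N : ℝ) ^ (t / 6)) ^ 2 := by
          rw [← Real.rpow_natCast, ← Real.rpow_mul hNpos.le]
          congr 1
          push_cast
          ring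
        rw [h9]
    refine hstep.trans ?_
    have hfin : (N : ℝ) ^ (-t) * (N : ℝ) ^ (t / 6) * (2 * (1 + Real.log N)) ≤
        (N : ℝ) ^ (-(t / 2)) / 2 * (1 / (4 * (k : ℝ))) := by
      have h2 : (N : ℝ) ^ (-t) * (N : ℝ) ^ (t / 6) = (N : ℝ) ^ (-(t / 2)) * (N : ℝ) ^ (-(t / 3)) := by
        rw [← Real.rpow_add hNpos, ← Real.rpow_add hNpos]
        congr 1
        ring
      have h3 : (N : ℝ) ^ (-(t / 3)) * (16 * k * (1 + Real.log N)) ≤ 1 := by
        rw [Real.rpow_neg hNpos.le, inv_mul_le_iff₀ (by positivity), mul_one]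
        exact hlarge2
      have h4 : (N : ℝ) ^ (-(t / 3)) * (2 * (1 + Real.log N)) ≤ 1 / 2 * (1 / (4 * (k : ℝ))) := by
        rw [one_div_mul_one_div, le_div_iff₀ (by positivity)]
        linarith
      calc (N : ℝ) ^ (-t) * (N : ℝ) ^ (t / 6) * (2 * (1 + Real.log N)) =
            (N : ℝ) ^ (-(t / 2)) * ((N : ℝ) ^ (-(t / 3)) * (2 * (1 + Real.log N))) := by
            rw [h2]
            ring
        _ ≤ (N : ℝ) ^ (-(t / 2)) * (1 / 2 * (1 / (4 * (k : ℝ)))) := by gcongr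
        _ = _ := by ring
    calc (N : ℝ) ^ (-t) * P * ∑ χ : DirichletCharacter ℂ N, ‖e2m_q Q χ‖ * ‖e2m_u U a χ * e2m_m k D χ‖ ≤
          (N : ℝ) ^ (-t) * P * ((2 * q) * (1 + Real.log N) * (A * (N : ℝ) ^ (t / 6))) := by gcongr
      _ = (q * A * P) * ((N : ℝ) ^ (-t) * (N : ℝ) ^ (t / 6) * (2 * (1 + Real.log N))) := by ring
      _ ≤ (q * A * P) * ((N : ℝ) ^ (-(t / 2)) / 2 * (1 / (4 * (k : ℝ)))) := by gcongr
      _ ≤ (q * A * P) * ((N : ℝ) ^ (-(t / 2)) / 2 * ZW k N D) := by gcongr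
      _ = _ := by ring
  refine (e2m_split k N D Q U a (fun x hx => (hQcop x hx).1) (fun u hu => (hUS.mem u hu).2.2) h1X _ _
    hE1 hE2).trans (le_of_eq ?_)
  unfold EX
  rw [← hAdef, ← hPdef]
  ring

end Pool.Agent.Lib.PQ
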