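import Pool.Agent.Lib.MP_7b7e48_nt.PQ.T0m
import Pool.Agent.Lib.MP_7b7e48_nt.PQ.B1m
import Pool.Agent.Lib.MP_7b7e48_nt.PQ.B7m
import Pool.Agent.Lib.MP_7b7e48_nt.PQ.C9m
import Pool.Agent.Lib.MP_45349e_nt.LS.LamB

/-!
# P0m (45 minutes): the two concrete families of multipliers satisfy the conditions

`PP k N` with `m l = l` (`s = -1`) and `PP ×ˢ PP` with `m (l, l') = l l'` (`s = 1`), both with `Q = QQ k N`, `X = XX k N`.
PROOF. `qp`: definition of `QQ` (primes in `(N, B1]`). `qc`: `C9m_log` (`#QQ ≥ B1 / (2 log N) ≥ B1 N^(-τ/2)`). `j0`: `B7m`. `jc`: primes not dividing `N`.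
`xj`: definition of `XX`; for the pairs `av_prod` (`‖av‖² ≤ ‖av‖`). Rough: `l > M/2 ≥ N^c ≥ pw N c` because
`c ≤ 1/(1000 k) < 1/(u+1)`, `u = 400 k`, and `N` is large. `lam l = -1`, `lam (l l') = 1`. Size: `l l' ≤ N^(2/(u+1))`,
`B0² ≤ N^(1+2/k)`, and `2/(400k+1) + 1 + 2/k < 1 + 8/k`, so the product is `≤ N^(1+7/k) ≤ B1`. `P0m_size`: the same for
`r ≤ pw N (1 + 1/k)`.
-/

set_option autoImplicit false

open Finset
open Pool.Agent.Lib.GT (Rough pr V)
open Pool.Agent.Lib.MP_45349e_nt.LS (lam)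
open Pool.Agent.Lib.RG (RC LV rr SS PB sig)

namespace Pool.Agent.Lib.PQ

private theorem P0m_asym (a : ℝ) (ha : 0 < a) (b : ℝ) (hb : 0 < b) :
    ∃ N0 : ℕ, ∀ N : ℕ, N0 ≤ N →
    4 ≤ (N : ℝ) ^ a ∧ 2 * Real.log N ≤ (N : ℝ) ^ b ∧ 1 ≤ Real.log N := by
  have h1 : ∀ᶠ x : ℝ in Filter.atTop, 4 ≤ x ^ a :=
    (tendsto_rpow_atTop ha).eventually_ge_atTop 4
  have h2 := (isLittleO_log_rpow_atTop hb).bound
    (show (0 : ℝ) < 1 / 2 by norm_num)
  have h3 : ∀ᶠ x : ℝ in Filter.atTop, 1 ≤ Real.log x :=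
    Real.tendsto_log_atTop.eventually_ge_atTop 1
  obtain ⟨X, hX⟩ := Filter.eventually_atTop.mp (h1.and (h2.and (h3.and
    (Filter.eventually_ge_atTop (0 : ℝ)))))
  refine ⟨⌈X⌉₊, fun N hN => ?_⟩
  obtain ⟨g1, g2, g3, g4⟩ := hX N ((Nat.le_ceil X).trans (by exact_mod_cast hN))
  refine ⟨g1, ?_, g3⟩
  rw [Real.norm_eq_abs, Real.norm_eq_abs, abs_of_nonneg (by linarith),
    abs_of_nonneg (by positivity)] at g2
  linarith

theorem P0m (k : ℕ) (hk : 160 ≤ k) (c : ℝ) (hc : 0 < c) (hc1 : c ≤ 1 / (1000 * k)) :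
    ∃ N0 : ℕ, ∀ (N : ℕ) [NeZero N], N0 ≤ N →
    QJ k N (QQ k N) (PP k N) (fun l => l) (XX k N) ∧ MJ k c N (PP k N) (fun l => l) (-1) ∧
    QJ k N (QQ k N) (PP k N ×ˢ PP k N) (fun y : ℕ × ℕ => y.1 * y.2) (XX k N) ∧
    MJ k c N (PP k N ×ˢ PP k N) (fun y : ℕ × ℕ => y.1 * y.2) 1 ∧
    (∀ r : ℕ, r ≤ pw N (1 + 1 / k) → ∀ l ∈ PP k N, ∀ l' ∈ PP k N, l * r ≤ B1 k N ∧ l * l' * r ≤ B1 k N) := by
  classical
  have hkr : (160 : ℝ) ≤ k := by exact_mod_cast hk
  have hk0 : (0 : ℝ) < k := by linarith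
  have htau : 0 < tau k / 2 := by
    unfold tau
    positivity
  have huu : (uu k : ℝ) = 400 * k := by
    unfold uu
    push_cast
    ring
  obtain ⟨N1, hN1⟩ := P0m_asym (1 / (1000 * k)) (by positivity) (tau k / 2) htau
  obtain ⟨N2, hN2⟩ := B7m k hk
  obtain ⟨N3, hN3⟩ := C9m_log k hk
  refine ⟨max N1 (max N2 N3), fun N _ hN => ?_⟩
  obtain ⟨g1, g2, g3⟩ := hN1 N ((le_max_left _ _).trans hN)
  obtain ⟨b1, _, _, _⟩ := hN2 N ((le_max_left _ _).trans ((le_max_right _ _).trans hN))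
  have c1 := hN3 N ((le_max_right _ _).trans ((le_max_right _ _).trans hN))
  have hNr : (1 : ℝ) ≤ N := by
    have : 0 < N := Nat.pos_of_ne_zero (NeZero.ne N)
    exact_mod_cast this
  have hN0 : (0 : ℝ) < N := by linarith
  set e : ℝ := 1 / ((uu k : ℝ) + 1) with he
  have he1 : e ≤ 1 / (400 * k) := by
    rw [he, huu]
    exact one_div_le_one_div_of_le (by positivity) (by linarith)
  have he2 : e ≤ 1 / k := he1.trans (one_div_le_one_div_of_le hk0 (by linarith))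
  have hkinv : 0 < 1 / (k : ℝ) := by positivity
  have h8k : 8 / (k : ℝ) = 8 * (1 / k) := by ring
  have key : ∀ (a : ℝ) (n : ℕ), (n : ℝ) ≤ (N : ℝ) ^ a → a ≤ 1 + 8 / k → n ≤ B1 k N := by
    intro a n h1 h2
    exact Nat.le_floor (h1.trans (Real.rpow_le_rpow_of_exponent_le hNr h2))
  -- the elements of `PP`
  have hPl : ∀ l ∈ PP k N, (l : ℝ) ≤ (N : ℝ) ^ e := by
    intro l hl
    unfold PP at hl
    rw [Finset.mem_filter, Finset.mem_Ioc] at hl
    have h1 : (l : ℝ) ≤ (pw N e : ℕ) := Nat.cast_le.2 hl.1.2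
    exact h1.trans (Nat.floor_le (by positivity))
  have hPp : ∀ l ∈ PP k N, l.Prime ∧ ¬ l ∣ N := by
    intro l hl
    unfold PP at hl
    rw [Finset.mem_filter] at hl
    exact hl.2
  have hPz : ∀ l ∈ PP k N, pw N c < l := by
    intro l hl
    unfold PP at hl
    rw [Finset.mem_filter, Finset.mem_Ioc] at hl
    refine lt_of_le_of_lt ?_ hl.1.1
    rw [Nat.le_div_iff_mul_le (by norm_num)]
    set y : ℝ := (N : ℝ) ^ (1 / (1000 * (k : ℝ))) with hy
    have h1 : (pw N c : ℝ) ≤ y := (Nat.floor_le (by positivity)).trans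
      (Real.rpow_le_rpow_of_exponent_le hNr hc1)
    have h2 : y ^ 2 ≤ (N : ℝ) ^ e := by
      rw [hy, ← Real.rpow_natCast, ← Real.rpow_mul hN0.le]
      apply Real.rpow_le_rpow_of_exponent_le hNr
      rw [he, huu, one_div_mul_eq_div, div_le_div_iff₀ (by positivity) (by positivity)]
      push_cast
      linarith
    have h3 : ((pw N c * 2 : ℕ) : ℝ) ≤ (N : ℝ) ^ e := by
      push_cast
      nlinarith
    exact Nat.le_floor h3
  have hB0 : (B0 k N : ℝ) ≤ (N : ℝ) ^ ((1 : ℝ) / 2 + 1 / k) := Nat.floor_le (by positivity)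
  have hB02 : (B0 k N : ℝ) ^ 2 ≤ (N : ℝ) ^ (1 + 2 * (1 / (k : ℝ))) := by
    have h1 : (N : ℝ) ^ (1 + 2 * (1 / (k : ℝ))) = ((N : ℝ) ^ ((1 : ℝ) / 2 + 1 / k)) ^ 2 := by
      rw [← Real.rpow_natCast ((N : ℝ) ^ _), ← Real.rpow_mul hN0.le]
      congr 1
      push_cast
      ring
    rw [h1]
    exact pow_le_pow_left₀ (Nat.cast_nonneg _) hB0 2
  have hQ1 : ∀ q ∈ QQ k N, q.Prime ∧ N < q ∧ q ≤ B1 k N := by
    intro q hq
    unfold QQ at hq
    rw [Finset.mem_filter, Finset.mem_Ioc] at hq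
    exact ⟨hq.2, hq.1.1, hq.1.2⟩
  have hQ2 : (B1 k N : ℝ) * (N : ℝ) ^ (-(tau k / 2)) ≤ (QQ k N).card := by
    refine le_trans ?_ c1
    rw [div_eq_mul_inv]
    apply mul_le_mul_of_nonneg_left _ (Nat.cast_nonneg _)
    rw [Real.rpow_neg hN0.le]
    exact inv_anti₀ (by linarith) g2
  have hX : ∀ χ : DirichletCharacter ℂ N, χ ∉ XX k N →
      ‖av (PP k N) (fun l => l) χ‖ ≤ (N : ℝ) ^ (-tau k) := by
    intro χ hχ
    unfold XX at hχ
    rw [Finset.mem_filter, not_and, not_le] at hχ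
    exact (hχ (Finset.mem_univ χ)).le
  have hNt : 0 ≤ (N : ℝ) ^ (-tau k) := by positivity
  have hcop : ∀ l ∈ PP k N, l.Coprime N := fun l hl =>
    (Nat.Prime.coprime_iff_not_dvd (hPp l hl).1).2 (hPp l hl).2
  have hrough : ∀ l ∈ PP k N, Rough (pw N c) l := by
    intro l hl p hp hpl
    rw [(Nat.prime_dvd_prime_iff_eq hp (hPp l hl).1).1 hpl]
    exact hPz l hl
  refine ⟨⟨hQ1, hQ2, b1, hcop, fun χ hχ => by linarith [hX χ hχ]⟩, ⟨?_, hrough, ?_, ?_⟩,
    ⟨hQ1, hQ2, b1.product b1, ?_, ?_⟩, ⟨?_, ?_, ?_, ?_⟩, ?_⟩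
  · exact fun l hl => (hPp l hl).1.one_le
  · exact fun l hl => MP_45349e_nt.LS.lam_prime l (hPp l hl).1
  · intro l hl
    apply key (e + (1 + 2 * (1 / k)))
    · push_cast
      rw [Real.rpow_add hN0]
      exact mul_le_mul (hPl l hl) hB02 (by positivity) (by positivity)
    · linarith
  · intro y hy
    rw [Finset.mem_product] at hy
    exact Nat.Coprime.mul_left (hcop _ hy.1) (hcop _ hy.2)
  · intro χ hχ
    have h0 : av (PP k N ×ˢ PP k N) (fun y : ℕ × ℕ => y.1 * y.2) χ =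
        av (PP k N) (fun l => l) χ ^ 2 := av_prod (PP k N) (fun l => l) χ
    rw [h0, norm_pow, pow_two]
    have h1 := hX χ hχ
    have h2 := av_le (PP k N) (fun l => l) χ
    have h3 := norm_nonneg (av (PP k N) (fun l => l) χ)
    nlinarith
  · intro y hy
    rw [Finset.mem_product] at hy
    exact Nat.mul_pos (hPp _ hy.1).1.pos (hPp _ hy.2).1.pos
  · intro y hy p hp hpl
    rw [Finset.mem_product] at hy
    rcases (Nat.Prime.dvd_mul hp).1 hpl with h | h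
    · exact hrough _ hy.1 p hp h
    · exact hrough _ hy.2 p hp h
  · intro y hy
    rw [Finset.mem_product] at hy
    show lam (y.1 * y.2) = 1
    rw [MP_45349e_nt.LS.lam_mul _ _ (hPp _ hy.1).1.ne_zero (hPp _ hy.2).1.ne_zero,
      MP_45349e_nt.LS.lam_prime _ (hPp _ hy.1).1, MP_45349e_nt.LS.lam_prime _ (hPp _ hy.2).1]
    norm_num
  · intro y hy
    rw [Finset.mem_product] at hy
    apply key (e + e + (1 + 2 * (1 / k)))
    · push_cast
      rw [Real.rpow_add hN0, Real.rpow_add hN0]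
      exact mul_le_mul (mul_le_mul (hPl _ hy.1) (hPl _ hy.2) (by positivity) (by positivity))
        hB02 (by positivity) (by positivity)
    · linarith
  · intro r hr l hl l' hl'
    have hr' : (r : ℝ) ≤ (N : ℝ) ^ (1 + 1 / (k : ℝ)) := by
      have h1 : (r : ℝ) ≤ (pw N (1 + 1 / k) : ℕ) := by exact_mod_cast hr
      exact h1.trans (Nat.floor_le (by positivity))
    constructor
    · apply key (e + (1 + 1 / k))
      · push_cast
        rw [Real.rpow_add hN0]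
        exact mul_le_mul (hPl l hl) hr' (by positivity) (by positivity)
      · linarith
    · apply key (e + e + (1 + 1 / k))
      · push_cast
        rw [Real.rpow_add hN0, Real.rpow_add hN0]
        exact mul_le_mul (mul_le_mul (hPl _ hl) (hPl _ hl') (by positivity) (by positivity))
          hr' (by positivity) (by positivity)
      · linarith

end Pool.Agent.Lib.PQ
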