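import Pool.Agent.Lib.MP_7b7e48_nt.PQ.T0s
import Pool.Agent.Lib.MP_7b7e48_nt.PQ.P0m

/-!
# P0s: the two families of multipliers satisfy the conditions also for the large sets of primes
-/

set_option autoImplicit false

open Finset
open Pool.Agent.Lib.GT (Rough pr V)
open Pool.Agent.Lib.MP_45349e_nt.LS (lam)
open Pool.Agent.Lib.RG (RC LV rr SS PB sig)

namespace Pool.Agent.Lib.PQ

theorem PS.half {k N : ℕ} (hk : 160 ≤ k) {P : Finset ℕ} (h : PS k N P) :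
    ((QQ k N).card : ℝ) / 2 ≤ P.card := by
  have hkr : (160 : ℝ) ≤ k := by exact_mod_cast hk
  have h1 : 1 / (k : ℝ) ≤ 1 / 160 := one_div_le_one_div_of_le (by norm_num) hkr
  have h2 : (0 : ℝ) ≤ (QQ k N).card := Nat.cast_nonneg _
  have h3 := h.big
  nlinarith

theorem PS.qp {k N : ℕ} {P : Finset ℕ} (h : PS k N P) : ∀ q ∈ P, q.Prime ∧ N < q ∧ q ≤ B1 k N := by
  intro q hq
  have h1 := h.sub hq
  unfold QQ at h1
  rw [mem_filter, mem_Ioc] at h1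
  exact ⟨h1.2, h1.1.1, h1.1.2⟩

private theorem p0s_log (k : ℕ) (hk : 160 ≤ k) : ∃ N0 : ℕ, ∀ N : ℕ, N0 ≤ N →
    4 * Real.log N ≤ (N : ℝ) ^ (tau k / 2) ∧ 1 ≤ Real.log N := by
  have hk0 : (0 : ℝ) < k := by exact_mod_cast (by omega : 0 < k)
  have ht : 0 < tau k / 2 := by
    unfold tau
    positivity
  have h2 := (isLittleO_log_rpow_atTop ht).bound (show (0 : ℝ) < 1 / 4 by norm_num)
  have h3 : ∀ᶠ x : ℝ in Filter.atTop, 1 ≤ Real.log x := Real.tendsto_log_atTop.eventually_ge_atTop 1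
  obtain ⟨X, hX⟩ := Filter.eventually_atTop.mp (h2.and (h3.and (Filter.eventually_ge_atTop (0 : ℝ))))
  refine ⟨⌈X⌉₊, fun N hN => ?_⟩
  obtain ⟨g2, g3, g4⟩ := hX N ((Nat.le_ceil X).trans (by exact_mod_cast hN))
  refine ⟨?_, g3⟩
  rw [Real.norm_eq_abs, Real.norm_eq_abs, abs_of_nonneg (by linarith), abs_of_nonneg (by positivity)] at g2
  linarith

theorem P0s (k : ℕ) (hk : 160 ≤ k) (c : ℝ) (hc : 0 < c) (hc1 : c ≤ 1 / (1000 * k)) :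
    ∃ N0 : ℕ, ∀ (N : ℕ) [NeZero N], N0 ≤ N → ∀ P : Finset ℕ, PS k N P →
    QJ k N P (PP k N) (fun l => l) (XX k N) ∧ MJ k c N (PP k N) (fun l => l) (-1) ∧
    QJ k N P (PP k N ×ˢ PP k N) (fun y : ℕ × ℕ => y.1 * y.2) (XX k N) ∧
    MJ k c N (PP k N ×ˢ PP k N) (fun y : ℕ × ℕ => y.1 * y.2) 1 ∧
    (∀ r : ℕ, r ≤ pw N (1 + 1 / k) → ∀ l ∈ PP k N, ∀ l' ∈ PP k N, l * r ≤ B1 k N ∧ l * l' * r ≤ B1 k N) := by
  obtain ⟨n1, h1⟩ := P0m k hk c hc hc1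
  obtain ⟨n2, h2⟩ := C9m_log k hk
  obtain ⟨n3, h3⟩ := p0s_log k hk
  refine ⟨n1 + n2 + n3 + 2, fun N _ hN P hP => ?_⟩
  obtain ⟨q1, m1, q2, m2, hs⟩ := h1 N (by omega)
  have h4 := h2 N (by omega)
  obtain ⟨h5, h6⟩ := h3 N (by omega)
  have hN0 : (0 : ℝ) < N := by exact_mod_cast (by omega : 0 < N)
  have hqc : (B1 k N : ℝ) * (N : ℝ) ^ (-(tau k / 2)) ≤ P.card := by
    refine le_trans ?_ (hP.half hk)
    have h7 : (B1 k N : ℝ) * (N : ℝ) ^ (-(tau k / 2)) ≤ (B1 k N : ℝ) / (4 * Real.log N) := by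
      rw [div_eq_mul_inv]
      refine mul_le_mul_of_nonneg_left ?_ (Nat.cast_nonneg _)
      rw [Real.rpow_neg hN0.le]
      exact inv_anti₀ (by linarith) h5
    refine h7.trans ?_
    have h8 : (B1 k N : ℝ) / (4 * Real.log N) = (B1 k N : ℝ) / (2 * Real.log N) / 2 := by
      rw [div_div]
      congr 1
      ring
    rw [h8]
    linarith
  exact ⟨⟨hP.qp, hqc, q1.j0, q1.jc, q1.xj⟩, m1, ⟨hP.qp, hqc, q2.j0, q2.jc, q2.xj⟩, m2, hs⟩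

end Pool.Agent.Lib.PQ
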