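import Pool.Agent.Lib.MP_7b7e48_nt.PQ.E3a
import Pool.Agent.Lib.MP_7b7e48_nt.PQ.P0s

/-!
# E3s: typical `q` and exactness for the large sets of primes (strong forms of the first and third part of `E3a`)
-/

set_option autoImplicit false

open Finset
open Pool.Agent.Lib.GT (Rough pr V)
open Pool.Agent.Lib.MP_45349e_nt.LS (lam)
open Pool.Agent.Lib.RG (RC LV rr SS PB sig)

namespace Pool.Agent.Lib.PQ

private theorem E3s_lmul (m n : ℕ) (hm : m ≠ 0) (hn : n ≠ 0) : lam (m * n) = lam m * lam n := by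
  unfold lam
  rw [ArithmeticFunction.cardFactors_mul hm hn, pow_add]

private theorem E3s_lprime (p : ℕ) (hp : p.Prime) : lam p = -1 := by
  unfold lam
  rw [ArithmeticFunction.cardFactors_apply_prime hp, pow_one]

private theorem E3s_pm {N : ℕ} (χ₀ : DirichletCharacter ℂ N) (h2 : χ₀ ^ 2 = 1) {x : ZMod N}
    (hx : IsUnit x) : χ₀ x = 1 ∨ χ₀ x = -1 := by
  have h : (χ₀ ^ 2) x = 1 := by rw [h2, MulChar.one_apply hx]
  rw [MulChar.pow_apply' _ (by norm_num)] at h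
  have h3 : (χ₀ x - 1) * (χ₀ x + 1) = 0 := by linear_combination h
  rcases mul_eq_zero.1 h3 with h4 | h4
  · exact Or.inl (by linear_combination h4)
  · exact Or.inr (by linear_combination h4)

open Classical in
private theorem E3s_gen (S : Finset ℕ) (h0 : S.Nonempty) (f : ℕ → ℂ) (hf : ∀ n ∈ S, f n = 1 ∨ f n = -1)
    (t : ℝ) (ht : t = 1 ∨ t = -1) :
    ‖(∑ n ∈ S, f n) / (S.card : ℂ) - t‖ = 2 * ((S.filter (fun n => f n ≠ (t : ℂ))).card : ℝ) / S.card := by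
  have hS : (0 : ℝ) < S.card := by exact_mod_cast card_pos.2 h0
  have hSc : (S.card : ℂ) ≠ 0 := by
    have : S.card ≠ 0 := (card_pos.2 h0).ne'
    exact_mod_cast this
  have h1 : ∀ n ∈ S, f n - t = if f n ≠ (t : ℂ) then -2 * (t : ℂ) else 0 := by
    intro n hn
    split_ifs with h
    · rcases ht with rfl | rfl
      · rcases hf n hn with h3 | h3
        · exact absurd (by rw [h3]; norm_num) h
        · rw [h3]; push_cast; ring
      · rcases hf n hn with h3 | h3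
        · rw [h3]; push_cast; ring
        · exact absurd (by rw [h3]; norm_num) h
    · rw [not_not.1 h, sub_self]
  have h2 : (∑ n ∈ S, f n) / (S.card : ℂ) - t = (∑ n ∈ S, (f n - t)) / (S.card : ℂ) := by
    rw [sum_sub_distrib, sum_const, nsmul_eq_mul, sub_div, mul_div_cancel_left₀ _ hSc]
  rw [h2, sum_congr rfl h1, ← sum_filter, sum_const, nsmul_eq_mul, norm_div, norm_mul, norm_mul,
    Complex.norm_natCast, Complex.norm_natCast, Complex.norm_real]
  have h3 : ‖t‖ = 1 := by rcases ht with rfl | rfl <;> norm_num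
  rw [h3, norm_neg, Complex.norm_ofNat]
  ring

private theorem E3s_qu {k N : ℕ} {P : Finset ℕ} (hPS : PS k N P) {q : ℕ} [NeZero N] (hq : q ∈ P) : q.Coprime N := by
  obtain ⟨hp, h1, -⟩ := hPS.qp q hq
  rw [Nat.Prime.coprime_iff_not_dvd hp]
  intro h
  have := Nat.le_of_dvd (Nat.pos_of_ne_zero (NeZero.ne N)) h
  omega

open Classical in
theorem E3s_q {k N : ℕ} [NeZero N] {P : Finset ℕ} (hPS : PS k N P) (χ₀ : DirichletCharacter ℂ N) (h2 : χ₀ ^ 2 = 1)
    (t h : ℝ) (ht : t = 1 ∨ t = -1) (h0 : P.Nonempty) (hr : ‖rho P χ₀ - t‖ ≤ 20 * h ^ 2) :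
    ((P.filter (fun q : ℕ => χ₀ (-(q : ZMod N)) ≠ (t : ℂ))).card : ℝ) ≤ 10 * h ^ 2 * P.card := by
  have hinv : χ₀⁻¹ = χ₀ := by
    rw [inv_eq_iff_mul_eq_one, ← sq, h2]
  have hS : (0 : ℝ) < P.card := by exact_mod_cast card_pos.2 h0
  have hg := E3s_gen P h0 (fun q => χ₀ (-(q : ZMod N))) (fun q hq => by
    refine E3s_pm χ₀ h2 ?_
    exact ((ZMod.isUnit_iff_coprime q N).2 (E3s_qu hPS hq)).neg) t ht
  unfold rho at hr
  rw [hinv, hg, div_le_iff₀ hS] at hr
  linarith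

theorem E3s_b {k N : ℕ} [NeZero N] {c : ℝ} {t : ℝ} (ht : t = 1 ∨ t = -1) {P : Finset ℕ} (hH : HP N (B1 k N) (pw N c) P t)
    (χ₀ : DirichletCharacter ℂ N) (h2 : χ₀ ^ 2 = 1) {U : Finset ℕ} {a : ℕ → ℝ} {U0 : ℕ}
    (hU : US k N U a U0) (hl : ∀ l ∈ PP k N, Rough (pw N c) l) (q u l m : ℕ) (s b₀ : ℝ)
    (hq : q ∈ P) (hq' : χ₀ (-(q : ZMod N)) = (t : ℂ)) (hu : u ∈ U) (hur : Rough (pw N c) u)
    (hus : lam u * (χ₀ (u : ZMod N)).re = s) (hlP : l ∈ PP k N) (hl' : χ₀ (l : ZMod N) = -1)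
    (hm : m ∈ R0 k c N) (hm' : lam m * (χ₀ (m : ZMod N)).re = b₀) (hb : b₀ = 1 ∨ b₀ = -1)
    (hd : N ∣ q + u * l * m) : s = b₀ := by
  classical
  obtain ⟨u1, u2, u3⟩ := hU.mem u hu
  have hlP' := hlP
  unfold PP at hlP'
  rw [mem_filter, mem_Ioc] at hlP'
  obtain ⟨⟨-, l2⟩, lp, lN⟩ := hlP'
  have hm0 := hm
  unfold R0 RS at hm0
  rw [mem_filter, mem_Ioc] at hm0
  obtain ⟨⟨m1, m2⟩, mr, mc⟩ := hm0
  have hl0 : 0 < l := lp.pos
  have hu0 : 0 < u := by omega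
  have hm00 : 0 < m := by omega
  -- size
  have s1 : N < u * l * m := by
    have h3 : U0 * A0 k N < u * m := Nat.mul_lt_mul'' u1 m1
    have h4 : u * m ≤ u * l * m := Nat.mul_le_mul_right m (Nat.le_mul_of_pos_right u hl0)
    have := hU.low
    omega
  have s2 : u * l * m ≤ B1 k N := by
    refine le_trans ?_ hU.upp
    calc u * l * m = u * m * l := by ring
      _ ≤ 4 * U0 * B0 k N * pw N (1 / (uu k + 1)) := Nat.mul_le_mul (Nat.mul_le_mul u2 m2) l2
  have s3 : Rough (pw N c) (u * l * m) := by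
    intro p hp hpd
    rcases (Nat.Prime.dvd_mul hp).1 hpd with h3 | h3
    · rcases (Nat.Prime.dvd_mul hp).1 h3 with h4 | h4
      · exact hur p hp h4
      · exact hl l hlP p hp h4
    · exact mr p hp h3
  have hlam := hH q hq (u * l * m) s1 s2 s3 hd
  rw [E3s_lmul _ _ (Nat.mul_pos hu0 hl0).ne' hm00.ne', E3s_lmul _ _ hu0.ne' hl0.ne', E3s_lprime l lp] at hlam
  -- characters
  have hz : ((q + u * l * m : ℕ) : ZMod N) = 0 := (ZMod.natCast_eq_zero_iff _ _).2 hd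
  have hz2 : -(q : ZMod N) = (u : ZMod N) * (l : ZMod N) * (m : ZMod N) := by
    push_cast at hz
    linear_combination -hz
  rw [hz2, map_mul, map_mul, hl'] at hq'
  have cu := E3s_pm χ₀ h2 ((ZMod.isUnit_iff_coprime u N).2 u3)
  have cm := E3s_pm χ₀ h2 ((ZMod.isUnit_iff_coprime m N).2 mc)
  have ru : χ₀ (u : ZMod N) = ((χ₀ (u : ZMod N)).re : ℂ) := by
    rcases cu with h | h <;> rw [h] <;> simp
  have rm : χ₀ (m : ZMod N) = ((χ₀ (m : ZMod N)).re : ℂ) := by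
    rcases cm with h | h <;> rw [h] <;> simp
  rw [ru, rm] at hq'
  have hq2 : -((χ₀ (u : ZMod N)).re * (χ₀ (m : ZMod N)).re) = t := by
    have : ((-((χ₀ (u : ZMod N)).re * (χ₀ (m : ZMod N)).re) : ℝ) : ℂ) = (t : ℂ) := by
      rw [← hq']
      push_cast
      ring
    exact_mod_cast this
  have htt : t * t = 1 := by rcases ht with rfl | rfl <;> norm_num
  have hsb : s * b₀ = 1 := by
    rw [← hus, ← hm']
    calc lam u * (χ₀ (u : ZMod N)).re * (lam m * (χ₀ (m : ZMod N)).re)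
        = (lam u * -1 * lam m) * (-((χ₀ (u : ZMod N)).re * (χ₀ (m : ZMod N)).re)) := by ring
      _ = 1 := by rw [hlam, hq2, htt]
  rcases hb with rfl | rfl
  · linarith
  · linarith

end Pool.Agent.Lib.PQ
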