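import Pool.Agent.Lib.MP_7b7e48_nt.PQ.E2m
import Pool.Agent.Lib.MP_7b7e48_nt.PQ.E3a
import Pool.Agent.Lib.MP_7b7e48_nt.PQ.P0m
import Pool.Agent.Lib.MP_7b7e48_nt.PQ.C3w
import Pool.Agent.Lib.MP_7b7e48_nt.PQ.C5m
import Pool.Agent.Lib.MP_7b7e48_nt.PQ.B7m
import Pool.Agent.Lib.MP_7b7e48_nt.PQ.C9m

/-!
# E3x (75 minutes): the sign lemma

PROOF. `K` = sum of those of `C3w`, `E1x` and `50`; `C = 100 C₁`, `C₁` from `E1x`. Let `D` be from `C3w`, `e = K (1/2)^b ≤ h^6 ≤ h²`. Let `(U, a, U0, s)` be as in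
`SH` and suppose `s ≠ b₀`. Let `T` be the set of `q ∈ QQ` with `χ₀(-q) = t`. LOWER: `SC(T) = SC(QQ) - SC(QQ \ T) ≥ #QQ * EX * (1 - 10h² - 2 N^(-τ/2))` (`E2m` twice,
`E3a_q`; `EX > 0`). UPPER: if a term `(q, u, l, m)` of `SC(T)` is nonzero then by `E3b` (`a u > 0`, so `u` is rough with sign `s`): `χ₀ l ≠ -1`, or `m` is not rough, or `m ∈ R0` has sign
`-b₀` (signs are `±1`: `m` is coprime to `N`). For fixed `(u, l, m)` the number of `q ∈ QQ` with `N ∣ q + u l m` is `≤ β = (C₁/c) B1/(φ(N) log N)` (`E1x` for the class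
`-u l m`; a prime `q > N` is rough). So `SC(T) ≤ (∑ a) β [5h² #PP ZW + #PP (∑_m (WD m - 1_rough)/m + Bd)]` (`E3a_l`; `WD m = (WD m - 1_rough) + 1_rough`,
both parts `≥ 0`) `≤ (∑ a) β #PP ZW (5h² + e + 4h²) ≤ EX * #QQ * (2 C₁/c) * 10 h²` (`C9m_log`; `ms R0 ≤ ZW`). So `1 - 10h² - small ≤ 20 C₁ h²/c ≤ 1/5`, false.
-/

set_option autoImplicit false

open Finset
open Pool.Agent.Lib.GT (Rough pr V)
open Pool.Agent.Lib.MP_45349e_nt.LS (lam)
open Pool.Agent.Lib.RG (RC LV rr SS PB sig)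

namespace Pool.Agent.Lib.PQ

private theorem e3x_rough {k N : ℕ} {c : ℝ} (hN : 1 ≤ N) (hc1 : c ≤ 1) {q : ℕ} (hq : q ∈ QQ k N) :
    Rough (pw N c) q := by
  unfold QQ at hq
  rw [mem_filter, mem_Ioc] at hq
  intro p hp hpq
  have h1 : p = q := (Nat.prime_dvd_prime_iff_eq hp hq.2).mp hpq
  rw [h1]
  refine lt_of_le_of_lt ?_ hq.1.1
  unfold pw
  have h2 : (N : ℝ) ^ c ≤ N := by
    calc (N : ℝ) ^ c ≤ (N : ℝ) ^ (1 : ℝ) :=
        Real.rpow_le_rpow_of_exponent_le (by exact_mod_cast hN) hc1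
      _ = N := Real.rpow_one _
  calc ⌊(N : ℝ) ^ c⌋₊ ≤ ⌊(N : ℝ)⌋₊ := Nat.floor_le_floor h2
    _ = N := Nat.floor_natCast N

private theorem e3x_pm {N : ℕ} (χ₀ : DirichletCharacter ℂ N) (h2 : χ₀ ^ 2 = 1) {m : ℕ}
    (hm : m.Coprime N) : (χ₀ (m : ZMod N)).re = 1 ∨ (χ₀ (m : ZMod N)).re = -1 := by
  have h3 : IsUnit (m : ZMod N) := by rwa [ZMod.isUnit_iff_coprime]
  have h4 : χ₀ (m : ZMod N) ^ 2 = 1 := by
    rw [← MulChar.pow_apply' χ₀ two_ne_zero, h2, MulChar.one_apply h3]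
  rcases sq_eq_sq_iff_eq_or_eq_neg.mp (h4.trans (one_pow 2).symm) with h | h
  · left; rw [h]; simp
  · right; rw [h]; simp

private theorem e3x_lam (m : ℕ) : lam m = 1 ∨ lam m = -1 := by
  unfold lam
  exact neg_one_pow_eq_or ℝ _

private theorem e3x_sum {Q U P M : Finset ℕ} (f : ℕ → ℕ → ℕ → ℕ → Prop)
    [∀ q u l m, Decidable (f q u l m)] (F G : ℕ → ℕ → ℕ → ℝ) (β : ℝ)
    (h0 : ∀ u ∈ U, ∀ l ∈ P, ∀ m ∈ M, 0 ≤ G u l m)
    (h1 : ∀ q ∈ Q, ∀ u ∈ U, ∀ l ∈ P, ∀ m ∈ M, f q u l m → F u l m ≤ G u l m)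
    (h2 : ∀ u ∈ U, ∀ l ∈ P, ∀ m ∈ M, ((Q.filter (fun q => f q u l m)).card : ℝ) ≤ β) :
    ∑ q ∈ Q, ∑ u ∈ U, ∑ l ∈ P, ∑ m ∈ M, (if f q u l m then F u l m else 0) ≤
      β * ∑ u ∈ U, ∑ l ∈ P, ∑ m ∈ M, G u l m := by
  calc ∑ q ∈ Q, ∑ u ∈ U, ∑ l ∈ P, ∑ m ∈ M, (if f q u l m then F u l m else 0)
      ≤ ∑ q ∈ Q, ∑ u ∈ U, ∑ l ∈ P, ∑ m ∈ M, (if f q u l m then G u l m else 0) := by
        refine sum_le_sum fun q hq => sum_le_sum fun u hu => sum_le_sum fun l hl =>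
          sum_le_sum fun m hm => ?_
        split_ifs with hf
        · exact h1 q hq u hu l hl m hm hf
        · exact le_rfl
    _ = ∑ u ∈ U, ∑ l ∈ P, ∑ m ∈ M, ∑ q ∈ Q, (if f q u l m then G u l m else 0) := by
        rw [sum_comm]
        refine sum_congr rfl fun u _ => ?_
        rw [sum_comm]
        refine sum_congr rfl fun l _ => ?_
        rw [sum_comm]
    _ ≤ ∑ u ∈ U, ∑ l ∈ P, ∑ m ∈ M, β * G u l m := by
        refine sum_le_sum fun u hu => sum_le_sum fun l hl => sum_le_sum fun m hm => ?_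
        rw [← sum_filter, sum_const, nsmul_eq_mul]
        exact mul_le_mul_of_nonneg_right (h2 u hu l hl m hm) (h0 u hu l hl m hm)
    _ = β * ∑ u ∈ U, ∑ l ∈ P, ∑ m ∈ M, G u l m := by
        simp only [mul_sum]

private theorem e3x_small (k : ℕ) (hk : 160 ≤ k) : ∃ N0 : ℕ, ∀ N : ℕ, N0 ≤ N →
    (N : ℝ) ^ (-(tau k / 2)) ≤ 1 / 100 := by
  have hk0 : (0 : ℝ) < k := by exact_mod_cast (by omega : 0 < k)
  have ht : 0 < tau k / 2 := by
    unfold tau
    positivity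
  have h1 := (tendsto_rpow_neg_atTop ht).eventually_le_const (show (0 : ℝ) < 1 / 100 by norm_num)
  obtain ⟨x0, hx0⟩ := Filter.eventually_atTop.1 h1
  exact ⟨⌈x0⌉₊, fun N hN => hx0 N ((Nat.le_ceil x0).trans (by exact_mod_cast hN))⟩

open Classical in
/-- the upper bound for the count of solutions with typical `q` -/
private theorem e3x_upper {k N : ℕ} [NeZero N] {c : ℝ} {t : ℝ} (ht : t = 1 ∨ t = -1)
    (hH : HH N (B1 k N) (pw N c) t) (χ₀ : DirichletCharacter ℂ N) (h2 : χ₀ ^ 2 = 1) {U : Finset ℕ}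
    {a : ℕ → ℝ} {U0 : ℕ} (hU : US k N U a U0) (hl : ∀ l ∈ PP k N, Rough (pw N c) l)
    (hc1 : c ≤ 1) {D : Finset ℕ} (hD : DD k c N D) {β E h : ℝ} (hβ0 : 0 ≤ β)
    (hβ : ∀ x : ZMod N, IsUnit x →
      (((Finset.Icc 1 (B1 k N)).filter
        (fun n : ℕ => (n : ZMod N) = x ∧ Rough (pw N c) n)).card : ℝ) ≤ β)
    (hE : ∑ m ∈ MM k N, (WD D m - (if Rough (pw N c) m then (1 : ℝ) else 0)) / m ≤ E)
    (hPl : (((PP k N).filter (fun l : ℕ => χ₀ (l : ZMod N) ≠ -1)).card : ℝ) ≤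
      h * (PP k N).card)
    (s b₀ : ℝ) (hb : b₀ = 1 ∨ b₀ = -1) (hsb : s ≠ b₀)
    (hs : ∀ u ∈ U, 0 < a u → Rough (pw N c) u ∧ lam u * (χ₀ (u : ZMod N)).re = s) :
    SC k N D ((QQ k N).filter (fun q : ℕ => χ₀ (-(q : ZMod N)) = (t : ℂ))) U a ≤
      β * ((∑ u ∈ U, a u) * (h * (PP k N).card * ZW k N D + (PP k N).card * (E +
        Bd N (pw N c) (fun n => (χ₀ (n : ZMod N)).re) b₀ (A0 k N) (B0 k N)))) := by
  have hN1 : 1 ≤ N := Nat.one_le_iff_ne_zero.mpr (NeZero.ne N)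
  have hMM : ∀ m ∈ MM k N, 1 ≤ m ∧ m.Coprime N ∧ m ∈ Finset.Ioc (A0 k N) (B0 k N) := by
    intro m hm
    unfold MM at hm
    rw [mem_filter] at hm
    refine ⟨?_, hm.2, hm.1⟩
    rw [mem_Ioc] at hm
    omega
  have hPP : ∀ l ∈ PP k N, l.Coprime N := by
    intro l hl'
    unfold PP at hl'
    rw [mem_filter] at hl'
    exact (Nat.Prime.coprime_iff_not_dvd hl'.2.1).2 hl'.2.2
  have hexc : ∀ m ∈ MM k N, 0 ≤ (WD D m - (if Rough (pw N c) m then (1 : ℝ) else 0)) / m := by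
    intro m hm
    exact div_nonneg (sub_nonneg.mpr (hD.upper m (hMM m hm).1)) (Nat.cast_nonneg _)
  have hWD : ∀ m ∈ MM k N, 0 ≤ WD D m / m := by
    intro m hm
    refine div_nonneg ?_ (Nat.cast_nonneg _)
    refine le_trans ?_ (hD.upper m (hMM m hm).1)
    split_ifs <;> norm_num
  set bdm : ℕ → ℝ := fun m => if Rough (pw N c) m ∧ lam m * (χ₀ (m : ZMod N)).re = -b₀ then
    1 / (m : ℝ) else 0 with hbdm
  have hbdm0 : ∀ m, 0 ≤ bdm m := by
    intro m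
    rw [hbdm]
    positivity
  set g : ℕ → ℕ → ℝ := fun l m => if χ₀ (l : ZMod N) ≠ -1 then WD D m / m else
    (WD D m - (if Rough (pw N c) m then (1 : ℝ) else 0)) / m + bdm m with hg
  have hg0 : ∀ l ∈ PP k N, ∀ m ∈ MM k N, 0 ≤ g l m := by
    intro l _ m hm
    rw [hg]
    dsimp only
    by_cases hχ : χ₀ (l : ZMod N) = -1
    · rw [if_neg (not_not.mpr hχ)]
      exact add_nonneg (hexc m hm) (hbdm0 m)
    · rw [if_pos hχ]
      exact hWD m hm
  have hstep : SC k N D ((QQ k N).filter (fun q : ℕ => χ₀ (-(q : ZMod N)) = (t : ℂ))) U a ≤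
      β * ∑ u ∈ U, ∑ l ∈ PP k N, ∑ m ∈ MM k N, a u * g l m := by
    unfold SC
    refine e3x_sum (fun q u l m => N ∣ q + u * l * m) (fun u _ m => a u * (WD D m / m))
      (fun u l m => a u * g l m) β ?_ ?_ ?_
    · intro u hu l hlP m hm
      exact mul_nonneg (hU.bnd u hu).1 (hg0 l hlP m hm)
    · intro q hq u hu l hlP m hm hd
      rcases eq_or_lt_of_le (hU.bnd u hu).1 with h0 | h0
      · simp only [← h0, zero_mul]
        exact le_rfl
      · refine mul_le_mul_of_nonneg_left ?_ h0.le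
        obtain ⟨hur, hus⟩ := hs u hu h0
        rw [hg]
        dsimp only
        by_cases hχ : χ₀ (l : ZMod N) = -1
        · rw [if_neg (not_not.mpr hχ)]
          by_cases hr : Rough (pw N c) m
          · have hmR : m ∈ R0 k c N := by
              unfold R0 RS
              rw [mem_filter]
              exact ⟨(hMM m hm).2.2, hr, (hMM m hm).2.1⟩
            have hneg : lam m * (χ₀ (m : ZMod N)).re = -b₀ := by
              by_contra hne
              have hpos : lam m * (χ₀ (m : ZMod N)).re = b₀ := by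
                have hX : lam m * (χ₀ (m : ZMod N)).re = 1 ∨ lam m * (χ₀ (m : ZMod N)).re = -1 := by
                  rcases e3x_pm χ₀ h2 (hMM m hm).2.1 with e1 | e1 <;>
                    rcases e3x_lam m with e2 | e2 <;> rw [e1, e2] <;> norm_num
                rcases hX with e1 | e1 <;> rcases hb with e3 | e3
                · rw [e1, e3]
                · exact absurd (by rw [e1, e3]; norm_num) hne
                · exact absurd (by rw [e1, e3]) hne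
                · rw [e1, e3]
              rw [mem_filter] at hq
              exact hsb (E3b ht hH χ₀ h2 hU hl q u l m s b₀ hq.1 hq.2 hu hur hus hlP hχ hmR hpos
                hb hd)
            rw [hbdm]
            dsimp only
            rw [if_pos hr, if_pos ⟨hr, hneg⟩, sub_div]
            linarith
          · rw [if_neg hr, sub_zero]
            linarith [hbdm0 m]
        · rw [if_pos hχ]
    · intro u hu l hlP m hm
      have hx : IsUnit (-((u : ZMod N) * l * m)) := by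
        refine IsUnit.neg ?_
        have e1 : IsUnit (u : ZMod N) := (ZMod.isUnit_iff_coprime u N).mpr (hU.mem u hu).2.2
        have e2 : IsUnit (l : ZMod N) := (ZMod.isUnit_iff_coprime l N).mpr (hPP l hlP)
        have e3 : IsUnit (m : ZMod N) := (ZMod.isUnit_iff_coprime m N).mpr (hMM m hm).2.1
        exact (e1.mul e2).mul e3
      refine le_trans ?_ (hβ _ hx)
      refine Nat.cast_le.mpr (card_le_card fun q hq => ?_)
      rw [mem_filter, mem_filter] at hq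
      rw [mem_filter]
      have hr := e3x_rough hN1 hc1 hq.1.1
      have hq2 := hq.1.1
      unfold QQ at hq2
      rw [mem_filter, mem_Ioc] at hq2
      refine ⟨mem_Icc.mpr ⟨by omega, hq2.1.2⟩, ?_, hr⟩
      have h3 : ((q + u * l * m : ℕ) : ZMod N) = 0 := (ZMod.natCast_eq_zero_iff _ _).mpr hq.2
      push_cast at h3
      exact eq_neg_of_add_eq_zero_left h3
  refine hstep.trans (mul_le_mul_of_nonneg_left ?_ hβ0)
  have h3 : ∑ u ∈ U, ∑ l ∈ PP k N, ∑ m ∈ MM k N, a u * g l m =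
      (∑ u ∈ U, a u) * ∑ l ∈ PP k N, ∑ m ∈ MM k N, g l m := by
    rw [sum_mul]
    refine sum_congr rfl fun u _ => ?_
    rw [mul_sum]
    refine sum_congr rfl fun l _ => ?_
    rw [mul_sum]
  rw [h3]
  refine mul_le_mul_of_nonneg_left ?_ (sum_nonneg fun u hu => (hU.bnd u hu).1)
  have hZ0 : 0 ≤ ZW k N D := sum_nonneg hWD
  have hBd : ∑ m ∈ MM k N, bdm m =
      Bd N (pw N c) (fun n => (χ₀ (n : ZMod N)).re) b₀ (A0 k N) (B0 k N) := by
    unfold Bd
    rw [hbdm, ← sum_filter]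
    refine sum_congr ?_ fun _ _ => rfl
    ext m
    unfold MM RS
    simp only [mem_filter]
    tauto
  have hE0 : 0 ≤ E := le_trans (sum_nonneg hexc) hE
  have hB0 : 0 ≤ Bd N (pw N c) (fun n => (χ₀ (n : ZMod N)).re) b₀ (A0 k N) (B0 k N) := by
    rw [← hBd]
    exact sum_nonneg fun m _ => hbdm0 m
  have h4 : ∀ l ∈ PP k N, ∑ m ∈ MM k N, g l m ≤ (if χ₀ (l : ZMod N) ≠ -1 then ZW k N D else 0) +
      (E + Bd N (pw N c) (fun n => (χ₀ (n : ZMod N)).re) b₀ (A0 k N) (B0 k N)) := by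
    intro l _
    by_cases hχ : χ₀ (l : ZMod N) = -1
    · rw [if_neg (not_not.mpr hχ), zero_add, ← hBd]
      have e1 : ∑ m ∈ MM k N, g l m = ∑ m ∈ MM k N,
          ((WD D m - (if Rough (pw N c) m then (1 : ℝ) else 0)) / m + bdm m) := by
        refine sum_congr rfl fun m _ => ?_
        rw [hg]
        dsimp only
        rw [if_neg (not_not.mpr hχ)]
      rw [e1, sum_add_distrib]
      linarith
    · rw [if_pos hχ]
      have e1 : ∑ m ∈ MM k N, g l m = ZW k N D := by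
        unfold ZW
        refine sum_congr rfl fun m _ => ?_
        rw [hg]
        dsimp only
        rw [if_pos hχ]
      rw [e1]
      linarith
  refine (sum_le_sum h4).trans ?_
  rw [sum_add_distrib, ← sum_filter, sum_const, sum_const, nsmul_eq_mul, nsmul_eq_mul]
  have h5 := mul_le_mul_of_nonneg_right hPl hZ0
  linarith

theorem E3x : ∃ K : ℕ, 1 ≤ K ∧ ∃ C : ℝ, 0 < C ∧ ∀ k b : ℕ, 160 ≤ k → 1 ≤ b → ∀ c h : ℝ, 0 < c →
    c * (20 * k * K * b) ≤ 1 → 0 < h → h ≤ 1 / 100 → (K : ℝ) * (1 / 2) ^ b ≤ h ^ 6 → C * (h ^ 2 / c) ≤ 1 →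
    ∃ N0 : ℕ, ∀ (N : ℕ) [NeZero N], N0 ≤ N → ∀ t : ℝ, (t = 1 ∨ t = -1) → HH N (B1 k N) (pw N c) t →
    ∀ χ₀ : DirichletCharacter ℂ N, χ₀ ≠ 1 → χ₀ ^ 2 = 1 → ‖1 + av (PP k N) (fun l => l) χ₀‖ ≤ 10 * h ^ 2 →
    ‖rho (QQ k N) χ₀ - t‖ ≤ 20 * h ^ 2 → ∀ b₀ : ℝ, (b₀ = 1 ∨ b₀ = -1) →
    Bd N (pw N c) (fun n => (χ₀ (n : ZMod N)).re) b₀ (A0 k N) (B0 k N) ≤ 4 * h ^ 2 * ms (R0 k c N) →
    SH k c N (fun n => (χ₀ (n : ZMod N)).re) b₀ := by
  classical
  obtain ⟨KC, hKC, hC3⟩ := C3w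
  obtain ⟨K₁, hK₁, C₁, hC₁, hE1⟩ := E1x
  refine ⟨KC + K₁ + 50, by omega, 100 * C₁, by positivity, ?_⟩
  intro k b hk hb c h hc hcK h0 h1 hKh hCh
  have hk0 : (0 : ℝ) < k := by exact_mod_cast (by omega : 0 < k)
  have hk1 : (160 : ℝ) ≤ k := by exact_mod_cast hk
  have hb1 : (1 : ℝ) ≤ b := by exact_mod_cast hb
  have hcKC : c * (20 * k * KC * b) ≤ 1 := by
    refine le_trans ?_ hcK
    have e : (KC : ℝ) ≤ ((KC + K₁ + 50 : ℕ) : ℝ) := by exact_mod_cast (by omega)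
    gcongr
  have hcK₁ : c * (20 * k * K₁) ≤ 1 := by
    refine le_trans ?_ hcK
    have e : (K₁ : ℝ) ≤ ((KC + K₁ + 50 : ℕ) : ℝ) := by exact_mod_cast (by omega)
    calc c * (20 * k * K₁) ≤ c * (20 * k * ((KC + K₁ + 50 : ℕ) : ℝ)) := by gcongr
      _ = c * (20 * k * ((KC + K₁ + 50 : ℕ) : ℝ) * 1) := by ring
      _ ≤ c * (20 * k * ((KC + K₁ + 50 : ℕ) : ℝ) * b) := by gcongr
  have hc50 : c * (20 * k * 50) ≤ 1 := by
    refine le_trans ?_ hcK
    have e : (50 : ℝ) ≤ ((KC + K₁ + 50 : ℕ) : ℝ) := by exact_mod_cast (by omega)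
    calc c * (20 * k * 50) ≤ c * (20 * k * ((KC + K₁ + 50 : ℕ) : ℝ)) := by gcongr
      _ = c * (20 * k * ((KC + K₁ + 50 : ℕ) : ℝ) * 1) := by ring
      _ ≤ c * (20 * k * ((KC + K₁ + 50 : ℕ) : ℝ) * b) := by gcongr
  have hc1000 : c ≤ 1 / (1000 * k) := by
    rw [le_div_iff₀ (by positivity)]
    linarith
  have hc1 : c ≤ 1 / 2 := by
    refine hc1000.trans ?_
    apply one_div_le_one_div_of_le (by norm_num)
    linarith
  have hh2 : h ^ 2 ≤ 1 / 10000 := by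
    calc h ^ 2 ≤ (1 / 100) ^ 2 := pow_le_pow_left₀ h0.le h1 2
      _ = 1 / 10000 := by norm_num
  have hh6 : h ^ 6 ≤ h ^ 2 :=
    pow_le_pow_of_le_one h0.le (by linarith) (by norm_num)
  have hKC6 : (KC : ℝ) * (1 / 2) ^ b ≤ h ^ 6 := by
    refine le_trans ?_ hKh
    have e : (KC : ℝ) ≤ ((KC + K₁ + 50 : ℕ) : ℝ) := by exact_mod_cast (by omega)
    gcongr
  obtain ⟨N1, hN1⟩ := hC3 k b hk hb c hc hcKC (by linarith)
  obtain ⟨N2, hN2⟩ := hE1 k hk c hc hcK₁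
  obtain ⟨N3, hN3⟩ := E2m k hk c hc hc1000
  obtain ⟨N4, hN4⟩ := ZW_low k hk c hc hc1
  obtain ⟨N5, hN5⟩ := C9m_log k hk
  obtain ⟨N6, hN6⟩ := P0m k hk c hc hc1000
  obtain ⟨N7, hN7⟩ := e3x_small k hk
  refine ⟨N1 + N2 + N3 + N4 + N5 + N6 + N7 + 3, ?_⟩
  intro N _ hN t ht hH χ₀ hχ1 hχ2 hav hrho b₀ hb₀ hBd U a U0 s hU hs
  by_contra hsb
  obtain ⟨D, hD, hEx⟩ := hN1 N (by omega)
  have hβ := hN2 N (by omega)
  obtain ⟨hZ1, hZ2⟩ := hN4 N (by omega) D hD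
  have hlog9 := hN5 N (by omega)
  obtain ⟨hQJ, hMJ, -⟩ := hN6 N (by omega)
  have hη := hN7 N (by omega)
  have hN0 : 3 ≤ N := by omega
  have hNR : (3 : ℝ) ≤ N := by exact_mod_cast hN0
  have hlogN : 0 < Real.log N := Real.log_pos (by linarith)
  have hφ : (0 : ℝ) < N.totient := by exact_mod_cast Nat.totient_pos.mpr (by omega)
  have hB1 : (0 : ℝ) < B1 k N := by
    have h3 : 1 ≤ B1 k N := by
      unfold B1 pw
      rw [Nat.one_le_floor_iff]
      exact Real.one_le_rpow (by linarith) (by positivity)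
    exact_mod_cast h3
  have hQ0 : (0 : ℝ) < (QQ k N).card := lt_of_lt_of_le (by positivity) hlog9
  have hQne : (QQ k N).Nonempty := by
    rw [← Finset.card_pos]
    exact_mod_cast hQ0
  have hP0 : (0 : ℝ) < (PP k N).card := by exact_mod_cast Finset.card_pos.mpr hQJ.j0
  have hZ0 : 0 < ZW k N D := lt_of_lt_of_le (by positivity) hZ1
  have hA0 : 0 < ∑ u ∈ U, a u := by
    refine lt_of_lt_of_le ?_ hU.big
    have h3 : 0 < U0 := by
      rcases Nat.eq_zero_or_pos U0 with h3 | h3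
      · have h4 := hU.low
        rw [h3, zero_mul] at h4
        omega
      · exact h3
    have h4 : (0 : ℝ) < U0 := by exact_mod_cast h3
    have h5 : (0 : ℝ) < (N : ℝ) ^ (-(tau k / 4)) := Real.rpow_pos_of_pos (by linarith) _
    positivity
  have hEX : 0 < EX k N D U a := by
    unfold EX
    positivity
  -- the lower bound
  have hqT := E3a_q (k := k) χ₀ hχ2 t h ht hQne hrho
  have hlow := hN3 N (by omega) D ((QQ k N).filter (fun q : ℕ => χ₀ (-(q : ZMod N)) = (t : ℂ)))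
    U a U0 hD (filter_subset _ _) hU
  have hcard : (((QQ k N).filter (fun q : ℕ => χ₀ (-(q : ZMod N)) = (t : ℂ))).card : ℝ) +
      (((QQ k N).filter (fun q : ℕ => χ₀ (-(q : ZMod N)) ≠ (t : ℂ))).card : ℝ) =
      (QQ k N).card := by
    exact_mod_cast Finset.card_filter_add_card_filter_not (s := QQ k N)
      (fun q : ℕ => χ₀ (-(q : ZMod N)) = (t : ℂ))
  set T := (QQ k N).filter (fun q : ℕ => χ₀ (-(q : ZMod N)) = (t : ℂ)) with hT
  have hTc : (1 - 10 * h ^ 2) * (QQ k N).card ≤ (T.card : ℝ) := by linarith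
  have hX0 : 0 < (QQ k N).card * EX k N D U a := by positivity
  have hL : (1 - 10 * h ^ 2 - 1 / 100) * ((QQ k N).card * EX k N D U a) ≤ SC k N D T U a := by
    have h3 := (abs_le.mp hlow).1
    have h4 := mul_le_mul_of_nonneg_right hη hX0.le
    have h5 := mul_le_mul_of_nonneg_right hTc hEX.le
    linarith
  -- the upper bound
  have hPl := E3a_l (k := k) χ₀ hχ2 h hQJ.j0 hav
  set β : ℝ := C₁ / c * (B1 k N / (N.totient * Real.log N)) with hβd
  have hβ0 : 0 ≤ β := by positivity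
  have hup := e3x_upper ht hH χ₀ hχ2 hU hMJ.rough (by linarith) hD hβ0 hβ hEx hPl s b₀ hb₀ hsb hs
  have hms : 0 ≤ ms (R0 k c N) := sum_nonneg fun n _ => by positivity
  have h6 : (KC : ℝ) * (1 / 2) ^ b * ms (R0 k c N) +
      Bd N (pw N c) (fun n => (χ₀ (n : ZMod N)).re) b₀ (A0 k N) (B0 k N) ≤
      5 * h ^ 2 * ZW k N D := by
    have h7 := mul_le_mul_of_nonneg_right (hKC6.trans hh6) hms
    have h8 : 5 * h ^ 2 * ms (R0 k c N) ≤ 5 * h ^ 2 * ZW k N D := by gcongr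
    linarith
  have h9 : SC k N D T U a ≤ β * ((∑ u ∈ U, a u) * (10 * h ^ 2 * ((PP k N).card * ZW k N D))) := by
    refine hup.trans (mul_le_mul_of_nonneg_left (mul_le_mul_of_nonneg_left ?_ hA0.le) hβ0)
    have h10 := mul_le_mul_of_nonneg_left h6 hP0.le
    linarith
  have h11 : β * ((∑ u ∈ U, a u) * (10 * h ^ 2 * ((PP k N).card * ZW k N D))) =
      10 * (C₁ * (h ^ 2 / c)) * (B1 k N / Real.log N) * EX k N D U a := by
    rw [hβd]
    unfold EX
    field_simp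
  have h12 : (B1 k N : ℝ) / Real.log N ≤ 2 * (QQ k N).card := by
    have h13 : (B1 k N : ℝ) / (2 * Real.log N) = (B1 k N : ℝ) / Real.log N / 2 := by
      field_simp
    rw [h13] at hlog9
    linarith
  have hCC : 0 ≤ C₁ * (h ^ 2 / c) := by positivity
  have h14 : 10 * (C₁ * (h ^ 2 / c)) * (B1 k N / Real.log N) * EX k N D U a ≤
      1 / 5 * ((QQ k N).card * EX k N D U a) := by
    calc 10 * (C₁ * (h ^ 2 / c)) * (B1 k N / Real.log N) * EX k N D U a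
        ≤ 10 * (C₁ * (h ^ 2 / c)) * (2 * (QQ k N).card) * EX k N D U a := by gcongr
      _ = (100 * C₁ * (h ^ 2 / c)) * (1 / 5 * ((QQ k N).card * EX k N D U a)) := by ring
      _ ≤ 1 * (1 / 5 * ((QQ k N).card * EX k N D U a)) := by gcongr
      _ = 1 / 5 * ((QQ k N).card * EX k N D U a) := one_mul _
  have h15 : (1 - 10 * h ^ 2 - 1 / 100) * ((QQ k N).card * EX k N D U a) ≤
      1 / 5 * ((QQ k N).card * EX k N D U a) := by
    linarith
  have h16 := le_of_mul_le_mul_right h15 hX0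
  linarith

end Pool.Agent.Lib.PQ
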