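import Pool.Agent.Lib.MP_7b7e48_nt.PQ.E4p

/-!
# E4x (60 minutes): in every dyadic block one sign is rare

PROOF. Suppose that for some `j` both `#RJ(j, s) > 2^j N^(-τ/8)`, `s = ±1`. CASE 1: `N^(1/2 - 3/(8k)) ≤ 2^j`. For each `s` apply `SH` with `U = RJ(j, s)`, `a = 1`,
`U0 = 2^j`: `US`: `N ≤ 2^j A0` (`N^(1/2 - 3/(8k)) N^(1/2 + 1/(2k))/2 ≥ N`), `4 * 2^j B0 M ≤ 2 N^(1 + 2/k + 1/(400k)) ≤ B1`, the others are clear. So `s = b₀` for both
`s`. CASE 2: `2^j < N^(1/2 - 3/(8k))`. Choose `i` with `2^i ≤ N^(1/2 - 1/(4k))/2^j < 2^(i+1)`, so `2^i ≥ N^(1/(8k))/2`. By `E4p` there are `≥ 2^i/(8 log N)` primes in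
`(2^i, 2^(i+1)]` not dividing `N`, so for one sign `s'` the set `VV` of those with `lam v * c₀ v = s'` has `≥ 2^i/(16 log N)` elements. For each `s` apply `SH` with `U` = the set of
products `w v` (`w ∈ RJ(j, s)`, `v ∈ VV`), `a u` = number of such pairs (at most the number of primes `v ∣ u`, `≤ 2 log N ≤ N^(eps k)`), `U0 = 2^(i+j)`:
`∑ a u = #RJ * #VV ≥ 2^(i+j) N^(-τ/8)/(16 log N) ≥ U0 N^(-τ/4)`, `N ≤ U0 A0` (`U0 ≥ N^(1/2 - 1/(4k))/2`). The sign of `u` is `s s'` (complete multiplicativity of `lam` and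
`c₀`), so `s s' = b₀` for both `s`: contradiction. (`c ≤ 1/(1000k)`, so `v > pw N c` is rough.)
-/

set_option autoImplicit false

open Finset
open Pool.Agent.Lib.GT (Rough pr V)
open Pool.Agent.Lib.MP_45349e_nt.LS (lam)
open Pool.Agent.Lib.RG (RC LV rr SS PB sig)

namespace Pool.Agent.Lib.PQ

private lemma e4_up (a b : ℝ) (ha : 0 < a) : ∃ N0 : ℕ, ∀ N : ℕ, N0 ≤ N → b ≤ (N : ℝ) ^ a := by
  have h := (tendsto_rpow_atTop ha).comp (tendsto_natCast_atTop_atTop (R := ℝ))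
  obtain ⟨N0, h3⟩ := Filter.eventually_atTop.mp (h.eventually_ge_atTop b)
  exact ⟨N0, fun N hN => h3 N hN⟩

private lemma e4_log {a C : ℝ} (ha : 0 < a) (hC : 0 < C) :
    ∃ N0 : ℕ, ∀ N : ℕ, N0 ≤ N → C * (1 + Real.log N) ≤ (N : ℝ) ^ a := by
  obtain ⟨N0, h0⟩ := e4_up (a / 2) (C * (1 + 2 / a)) (by positivity)
  refine ⟨N0 + 1, fun N hN => ?_⟩
  have hN1 : (1 : ℝ) ≤ N := by
    have : 1 ≤ N := by omega
    exact_mod_cast this
  have hN0 : (0 : ℝ) < N := by linarith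
  have h1 : Real.log N ≤ (N : ℝ) ^ (a / 2) / (a / 2) := Real.log_le_rpow_div hN0.le (by positivity)
  have h2 : (1 : ℝ) ≤ (N : ℝ) ^ (a / 2) := Real.one_le_rpow hN1 (by positivity)
  have h4 : (N : ℝ) ^ (a / 2) / (a / 2) = 2 / a * (N : ℝ) ^ (a / 2) := by
    field_simp
  calc C * (1 + Real.log N) ≤ C * ((N : ℝ) ^ (a / 2) + 2 / a * (N : ℝ) ^ (a / 2)) := by
        refine mul_le_mul_of_nonneg_left ?_ hC.le
        linarith
    _ = C * (1 + 2 / a) * (N : ℝ) ^ (a / 2) := by ring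
    _ ≤ (N : ℝ) ^ (a / 2) * (N : ℝ) ^ (a / 2) :=
        mul_le_mul_of_nonneg_right (h0 N (by omega)) (by linarith)
    _ = (N : ℝ) ^ a := by
        rw [← Real.rpow_add hN0]
        congr 1
        ring

private lemma e4_pw_ge (N : ℕ) (x : ℝ) (h : 1 ≤ (N : ℝ) ^ x) : (N : ℝ) ^ x / 2 ≤ pw N x := by
  unfold pw
  have h1 := Nat.lt_floor_add_one ((N : ℝ) ^ x)
  have h2 : 1 ≤ ⌊(N : ℝ) ^ x⌋₊ := Nat.le_floor (by exact_mod_cast h)
  have h3 : (1 : ℝ) ≤ (⌊(N : ℝ) ^ x⌋₊ : ℝ) := by exact_mod_cast h2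
  linarith

private lemma e4_pw_le (N : ℕ) (x : ℝ) : (pw N x : ℝ) ≤ (N : ℝ) ^ x :=
  Nat.floor_le (Real.rpow_nonneg (Nat.cast_nonneg N) x)

/-- the size conditions -/
private lemma e4_par (k : ℕ) (hk : 160 ≤ k) : ∃ N0 : ℕ, ∀ N : ℕ, N0 ≤ N → ∀ U0 : ℕ,
    (N : ℝ) ^ ((1 : ℝ) / 2 - 3 / (8 * k)) ≤ U0 → 2 * (U0 : ℝ) ≤ (N : ℝ) ^ ((1 : ℝ) / 2 + 1 / k) →
    N ≤ U0 * A0 k N ∧ 4 * U0 * B0 k N * pw N (1 / (uu k + 1)) ≤ B1 k N := by
  have hk0 : (0 : ℝ) < k := by
    have : 0 < k := by omega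
    exact_mod_cast this
  obtain ⟨N1, h1⟩ := e4_up (1 / (8 * k)) 2 (by positivity)
  obtain ⟨N2, h2⟩ := e4_up (1 / k) 4 (by positivity)
  refine ⟨N1 + N2 + 1, fun N hN U0 hlow hupp => ?_⟩
  have hN1 : (1 : ℝ) ≤ N := by
    have : 1 ≤ N := by omega
    exact_mod_cast this
  have hN0 : (0 : ℝ) < N := by linarith
  have e1 := h1 N (by omega)
  have e2 := h2 N (by omega)
  constructor
  · have hA1 : (1 : ℝ) ≤ (N : ℝ) ^ ((1 : ℝ) / 2 + 1 / (2 * k)) :=
      Real.one_le_rpow hN1 (by positivity)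
    have hA := e4_pw_ge N (1 / 2 + 1 / (2 * k)) hA1
    have h3 : (N : ℝ) ≤ U0 * A0 k N := by
      have h4 : (N : ℝ) ^ ((1 : ℝ) / 2 - 3 / (8 * k)) * ((N : ℝ) ^ ((1 : ℝ) / 2 + 1 / (2 * k)) / 2) =
          N * ((N : ℝ) ^ ((1 : ℝ) / (8 * k)) / 2) := by
        rw [← mul_div_assoc, ← Real.rpow_add hN0]
        have : ((1 : ℝ) / 2 - 3 / (8 * k)) + (1 / 2 + 1 / (2 * k)) = 1 + 1 / (8 * k) := by
          field_simp
          ring
        rw [this, Real.rpow_add hN0, Real.rpow_one, mul_div_assoc]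
      calc (N : ℝ) = N * 1 := (mul_one _).symm
        _ ≤ N * ((N : ℝ) ^ ((1 : ℝ) / (8 * k)) / 2) :=
            mul_le_mul_of_nonneg_left (by linarith) hN0.le
        _ = _ := h4.symm
        _ ≤ U0 * A0 k N := mul_le_mul hlow hA (by positivity) (Nat.cast_nonneg _)
    exact_mod_cast h3
  · have hB := e4_pw_le N (1 / 2 + 1 / k)
    have hM := e4_pw_le N (1 / ((uu k : ℝ) + 1))
    have hMk : (N : ℝ) ^ ((1 : ℝ) / ((uu k : ℝ) + 1)) ≤ (N : ℝ) ^ ((1 : ℝ) / k) := by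
      refine Real.rpow_le_rpow_of_exponent_le hN1 (one_div_le_one_div_of_le hk0 ?_)
      unfold uu
      push_cast
      linarith
    have hb1 : (1 : ℝ) ≤ (N : ℝ) ^ ((1 : ℝ) + 8 / k) := Real.one_le_rpow hN1 (by positivity)
    have hB1 := e4_pw_ge N (1 + 8 / k) hb1
    have h3 : 4 * (U0 : ℝ) * B0 k N * pw N (1 / ((uu k : ℝ) + 1)) ≤ B1 k N := by
      calc 4 * (U0 : ℝ) * B0 k N * pw N (1 / ((uu k : ℝ) + 1))
          ≤ 4 * (U0 : ℝ) * (N : ℝ) ^ ((1 : ℝ) / 2 + 1 / k) * (N : ℝ) ^ ((1 : ℝ) / k) := by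
            refine mul_le_mul ?_ (hM.trans hMk) (Nat.cast_nonneg _) (by positivity)
            exact mul_le_mul_of_nonneg_left hB (by positivity)
        _ ≤ 2 * (N : ℝ) ^ ((1 : ℝ) / 2 + 1 / k) * (N : ℝ) ^ ((1 : ℝ) / 2 + 1 / k) *
              (N : ℝ) ^ ((1 : ℝ) / k) := by
            refine mul_le_mul_of_nonneg_right ?_ (by positivity)
            refine mul_le_mul_of_nonneg_right ?_ (by positivity)
            linarith
        _ = 2 * (N : ℝ) ^ ((1 : ℝ) + 3 / k) := by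
            rw [mul_assoc, mul_assoc, ← Real.rpow_add hN0, ← Real.rpow_add hN0]
            congr 2
            ring
        _ ≤ (N : ℝ) ^ ((1 : ℝ) / k) / 2 * (N : ℝ) ^ ((1 : ℝ) + 3 / k) := by
            refine mul_le_mul_of_nonneg_right ?_ (by positivity)
            linarith
        _ = (N : ℝ) ^ ((1 : ℝ) + 4 / k) / 2 := by
            rw [div_mul_eq_mul_div, ← Real.rpow_add hN0]
            congr 2
            ring
        _ ≤ (N : ℝ) ^ ((1 : ℝ) + 8 / k) / 2 := by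
            refine div_le_div_of_nonneg_right ?_ (by norm_num)
            refine Real.rpow_le_rpow_of_exponent_le hN1 ?_
            have : (4 : ℝ) / k ≤ 8 / k := div_le_div_of_nonneg_right (by norm_num) hk0.le
            linarith
        _ ≤ B1 k N := hB1
    exact_mod_cast h3

private lemma e4_lam_mul {a b : ℕ} (ha : a ≠ 0) (hb : b ≠ 0) : lam (a * b) = lam a * lam b := by
  unfold lam
  rw [ArithmeticFunction.cardFactors_mul ha hb, pow_add]

private lemma e4_lam_prime {p : ℕ} (hp : p.Prime) : lam p = -1 := by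
  unfold lam
  rw [ArithmeticFunction.cardFactors_apply_prime hp, pow_one]

/-- the number of the prime factors -/
private lemma e4_pf {u N : ℕ} (hu : u ≠ 0) (huN : u ≤ 4 * N) :
    (u.primeFactors.card : ℝ) ≤ 4 * (1 + Real.log N) := by
  have h1 : 2 ^ u.primeFactors.card ≤ u := by
    calc 2 ^ u.primeFactors.card ≤ ∏ p ∈ u.primeFactors, p :=
          Finset.pow_card_le_prod _ _ _ fun p hp => (Nat.prime_of_mem_primeFactors hp).two_le
      _ ≤ u := Nat.le_of_dvd (Nat.pos_of_ne_zero hu) (Nat.prod_primeFactors_dvd u)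
  have hN : 0 < N := by omega
  have hN0 : (0 : ℝ) < N := by exact_mod_cast hN
  have h2 : (2 : ℝ) ^ u.primeFactors.card ≤ 4 * N := by exact_mod_cast h1.trans huN
  have h3 := Real.log_le_log (by positivity) h2
  rw [Real.log_pow, Real.log_mul (by norm_num) hN0.ne'] at h3
  have h4 : Real.log 4 = 2 * Real.log 2 := by
    have : (4 : ℝ) = 2 ^ 2 := by norm_num
    rw [this, Real.log_pow]
    norm_num
  have h5 := Real.log_two_gt_d9
  have h6 := Real.log_two_lt_d9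
  have hN1 : 0 ≤ Real.log N := Real.log_nonneg (by exact_mod_cast hN)
  have h7 : (0 : ℝ) ≤ u.primeFactors.card := Nat.cast_nonneg _
  rw [h4] at h3
  nlinarith

theorem E4x (k : ℕ) (hk : 160 ≤ k) (c : ℝ) (hc : 0 < c) (hc1 : c ≤ 1 / (1000 * k)) : ∃ N0 : ℕ, ∀ N : ℕ,
    N0 ≤ N → ∀ c₀ : ℕ → ℝ, RC N c₀ → ∀ b₀ : ℝ, SH k c N c₀ b₀ → OneSign k c N c₀ := by
  classical
  have hk0 : (0 : ℝ) < k := by
    have : 0 < k := by omega
    exact_mod_cast this
  have hk160 : (160 : ℝ) ≤ k := by exact_mod_cast hk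
  have hτ : 0 < tau k := by unfold tau; positivity
  have heps : 0 < eps k := by unfold eps; positivity
  obtain ⟨N1, hpar⟩ := e4_par k hk
  obtain ⟨N2, hE⟩ := E4p c hc
  obtain ⟨N3, h3⟩ := e4_log (a := tau k / 8) (C := 16) (by positivity) (by norm_num)
  obtain ⟨N4, h4⟩ := e4_log (a := eps k) (C := 4) heps (by norm_num)
  obtain ⟨N5, h5⟩ := e4_up (1 / (16 * k)) 2 (by positivity)
  obtain ⟨N6, h6⟩ := e4_up (1 / 2) 2 (by norm_num)
  refine ⟨N1 + N2 + N3 + N4 + N5 + N6 + 3, fun N hN c₀ hRC b₀ hSH j hj => ?_⟩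
  have hN1 : (1 : ℝ) ≤ N := by
    have : 1 ≤ N := by omega
    exact_mod_cast this
  have hN0 : (0 : ℝ) < N := by linarith
  have hlogN : 0 ≤ Real.log N := Real.log_nonneg hN1
  have e3 := h3 N (by omega)
  have e4 := h4 N (by omega)
  have e5 := h5 N (by omega)
  have e6 := h6 N (by omega)
  have hpar' := hpar N (by omega)
  by_contra hcon
  push Not at hcon
  have hbig : ∀ s : ℝ, (s = 1 ∨ s = -1) →
      2 ^ j * (N : ℝ) ^ (-(tau k / 8)) < ((RJ N (pw N c) c₀ j s).card : ℝ) := by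
    rintro s (rfl | rfl)
    · have := hcon (-1) (Or.inr rfl)
      rwa [neg_neg] at this
    · exact hcon 1 (Or.inl rfl)
  have hone : (1 : ℝ) ≤ (N : ℝ) ^ eps k := Real.one_le_rpow hN1 heps.le
  rcases le_or_gt ((N : ℝ) ^ ((1 : ℝ) / 2 - 3 / (8 * k))) (2 ^ j) with hcase | hcase
  · -- the block is long
    have hs : ∀ s : ℝ, (s = 1 ∨ s = -1) → s = b₀ := by
      intro s hs
      have hlow : (N : ℝ) ^ ((1 : ℝ) / 2 - 3 / (8 * k)) ≤ ((2 ^ j : ℕ) : ℝ) := by
        push_cast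
        exact hcase
      have hupp : 2 * (((2 ^ j : ℕ)) : ℝ) ≤ (N : ℝ) ^ ((1 : ℝ) / 2 + 1 / k) := by
        push_cast
        rw [pow_succ] at hj
        linarith
      obtain ⟨p1, p2⟩ := hpar' (2 ^ j) hlow hupp
      refine hSH (RJ N (pw N c) c₀ j s) (fun _ => 1) (2 ^ j) s ⟨?_, ?_, ?_, p1, p2⟩ ?_
      · intro u hu
        obtain ⟨h7, -, h8, -⟩ := Finset.mem_filter.mp hu
        obtain ⟨h9, h10⟩ := Finset.mem_Ioc.mp h7
        rw [pow_succ] at h10
        exact ⟨h9, by omega, h8⟩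
      · intro u _
        exact ⟨zero_le_one, hone⟩
      · rw [Finset.sum_const, nsmul_eq_mul, mul_one]
        refine le_trans ?_ (hbig s hs).le
        push_cast
        refine mul_le_mul_of_nonneg_left ?_ (by positivity)
        exact Real.rpow_le_rpow_of_exponent_le hN1 (by linarith)
      · intro u hu _
        obtain ⟨-, h7, -, h8⟩ := Finset.mem_filter.mp hu
        exact ⟨h7, h8⟩
    have h7 := (hs 1 (Or.inl rfl)).trans (hs (-1) (Or.inr rfl)).symm
    norm_num at h7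
  · -- the block is short
    set X : ℝ := (N : ℝ) ^ ((1 : ℝ) / 2 - 1 / (4 * k)) / 2 ^ j with hX
    have h2j : (0 : ℝ) < 2 ^ j := by positivity
    have hXN : (N : ℝ) ^ ((1 : ℝ) / (8 * k)) ≤ X := by
      rw [hX, le_div_iff₀ h2j]
      calc (N : ℝ) ^ ((1 : ℝ) / (8 * k)) * 2 ^ j ≤
            (N : ℝ) ^ ((1 : ℝ) / (8 * k)) * (N : ℝ) ^ ((1 : ℝ) / 2 - 3 / (8 * k)) :=
            mul_le_mul_of_nonneg_left hcase.le (by positivity)
        _ = (N : ℝ) ^ ((1 : ℝ) / 2 - 1 / (4 * k)) := by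
            rw [← Real.rpow_add hN0]
            congr 1
            field_simp
            ring
    have e8 : (N : ℝ) ^ ((1 : ℝ) / (8 * k)) = (N : ℝ) ^ ((1 : ℝ) / (16 * k)) *
        (N : ℝ) ^ ((1 : ℝ) / (16 * k)) := by
      rw [← Real.rpow_add hN0]
      congr 1
      field_simp
      norm_num
    have hX1 : (1 : ℝ) ≤ X := by nlinarith
    obtain ⟨i, hi1, hi2⟩ : ∃ i : ℕ, (2 : ℝ) ^ i ≤ X ∧ X < 2 ^ (i + 1) := by
      obtain ⟨i, h7, h8⟩ := exists_nat_pow_near hX1 (show (1 : ℝ) < 2 by norm_num)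
      exact ⟨i, h7, h8⟩
    -- size of the product
    have hprod : (2 : ℝ) ^ (i + j) ≤ (N : ℝ) ^ ((1 : ℝ) / 2 - 1 / (4 * k)) := by
      rw [pow_add]
      rwa [hX, le_div_iff₀ h2j] at hi1
    have hprod2 : (N : ℝ) ^ ((1 : ℝ) / 2 - 1 / (4 * k)) ≤ 2 * 2 ^ (i + j) := by
      rw [hX, div_lt_iff₀ h2j, pow_succ] at hi2
      rw [pow_add]
      linarith
    have hhalf : (N : ℝ) ^ ((1 : ℝ) / 2 - 1 / (4 * k)) ≤ (N : ℝ) ^ ((1 : ℝ) / 2) := by
      refine Real.rpow_le_rpow_of_exponent_le hN1 ?_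
      have : 0 ≤ 1 / (4 * (k : ℝ)) := by positivity
      linarith
    have hsqrt : (N : ℝ) ^ ((1 : ℝ) / 2) * (N : ℝ) ^ ((1 : ℝ) / 2) = N := by
      rw [← Real.rpow_add hN0]
      norm_num
    have hlow : (N : ℝ) ^ ((1 : ℝ) / 2 - 3 / (8 * k)) ≤ ((2 ^ (i + j) : ℕ) : ℝ) := by
      push_cast
      have h7 : (N : ℝ) ^ ((1 : ℝ) / 2 - 1 / (4 * k)) =
          (N : ℝ) ^ ((1 : ℝ) / (8 * k)) * (N : ℝ) ^ ((1 : ℝ) / 2 - 3 / (8 * k)) := by
        rw [← Real.rpow_add hN0]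
        congr 1
        field_simp
        ring
      have h8 : 2 ≤ (N : ℝ) ^ ((1 : ℝ) / (8 * k)) := by nlinarith
      have h9 : 0 ≤ (N : ℝ) ^ ((1 : ℝ) / 2 - 3 / (8 * k)) := by positivity
      nlinarith
    have hupp : 2 * (((2 ^ (i + j) : ℕ)) : ℝ) ≤ (N : ℝ) ^ ((1 : ℝ) / 2 + 1 / k) := by
      push_cast
      calc 2 * (2 : ℝ) ^ (i + j) ≤ (N : ℝ) ^ ((1 : ℝ) / (16 * k)) * (N : ℝ) ^ ((1 : ℝ) / 2) :=
            mul_le_mul e5 (hprod.trans hhalf) (by positivity) (by positivity)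
        _ ≤ (N : ℝ) ^ ((1 : ℝ) / 2 + 1 / k) := by
            rw [← Real.rpow_add hN0]
            refine Real.rpow_le_rpow_of_exponent_le hN1 ?_
            have : 1 / (16 * (k : ℝ)) ≤ 1 / k := one_div_le_one_div_of_le hk0 (by linarith)
            linarith
    obtain ⟨p1, p2⟩ := hpar' (2 ^ (i + j)) hlow hupp
    -- primes
    have hz2 : pw N c ≤ 2 ^ i := by
      have h7 : (pw N c : ℝ) ≤ 2 ^ i := by
        calc (pw N c : ℝ) ≤ (N : ℝ) ^ c := e4_pw_le N c
          _ ≤ (N : ℝ) ^ ((1 : ℝ) / (16 * k)) := by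
              refine Real.rpow_le_rpow_of_exponent_le hN1 (hc1.trans ?_)
              exact one_div_le_one_div_of_le (by positivity) (by linarith)
          _ ≤ X / 2 := by
              have h9 : 0 ≤ (N : ℝ) ^ ((1 : ℝ) / (16 * k)) := by positivity
              nlinarith
          _ ≤ 2 ^ i := by
              rw [pow_succ] at hi2
              linarith
      exact_mod_cast h7
    have hiN : 2 ^ (i + 1) ≤ N := by
      have h7 : (2 : ℝ) ^ (i + 1) ≤ N := by
        have h8 : (2 : ℝ) ^ i ≤ 2 ^ (i + j) := pow_le_pow_right₀ (by norm_num) (by omega)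
        have h9 : (0 : ℝ) ≤ (N : ℝ) ^ ((1 : ℝ) / 2) := by positivity
        calc (2 : ℝ) ^ (i + 1) = 2 * 2 ^ i := by ring
          _ ≤ (N : ℝ) ^ ((1 : ℝ) / 2) * (N : ℝ) ^ ((1 : ℝ) / 2) :=
              mul_le_mul e6 (h8.trans (hprod.trans hhalf)) (by positivity) h9
          _ = N := hsqrt
      exact_mod_cast h7
    have hVall := (hE N (by omega) i hz2 hiN).1
    set VA := (Finset.Ioc (2 ^ i) (2 ^ (i + 1))).filter (fun p => p.Prime ∧ ¬ p ∣ N ∧
      5 * p ≤ 7 * 2 ^ i) with hVA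
    have hVA' : ∀ v ∈ VA, v.Prime ∧ v.Coprime N ∧ 2 ^ i < v ∧ v ≤ 2 ^ (i + 1) := by
      intro v hv
      obtain ⟨h7, h8, h9, -⟩ := Finset.mem_filter.mp hv
      obtain ⟨h10, h11⟩ := Finset.mem_Ioc.mp h7
      exact ⟨h8, (Nat.Prime.coprime_iff_not_dvd h8).mpr h9, h10, h11⟩
    have hlogpos : 0 < Real.log N := by
      refine Real.log_pos ?_
      have : 1 < N := by omega
      exact_mod_cast this
    obtain ⟨s', hs', hV⟩ : ∃ s' : ℝ, (s' = 1 ∨ s' = -1) ∧ (2 : ℝ) ^ i / (16 * Real.log N) ≤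
        ((VA.filter (fun v => lam v * c₀ v = s')).card : ℝ) := by
      have hcard : VA.card ≤ (VA.filter (fun v => lam v * c₀ v = 1)).card +
          (VA.filter (fun v => lam v * c₀ v = -1)).card := by
        rw [← Finset.card_filter_add_card_filter_not (s := VA) (fun v => lam v * c₀ v = 1)]
        refine Nat.add_le_add_left (Finset.card_le_card ?_) _
        intro v hv
        obtain ⟨h7, h8⟩ := Finset.mem_filter.mp hv
        refine Finset.mem_filter.mpr ⟨h7, ?_⟩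
        obtain ⟨h9, h10, -⟩ := hVA' v h7
        rw [e4_lam_prime h9] at h8 ⊢
        rcases hRC.val v h10 with h11 | h11
        · rw [h11]
          norm_num
        · exfalso
          apply h8
          rw [h11]
          norm_num
      have hcard' : (VA.card : ℝ) ≤ ((VA.filter (fun v => lam v * c₀ v = 1)).card : ℝ) +
          ((VA.filter (fun v => lam v * c₀ v = -1)).card : ℝ) := by exact_mod_cast hcard
      have h7 : (2 : ℝ) ^ i / (8 * Real.log N) = 2 * ((2 : ℝ) ^ i / (16 * Real.log N)) := by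
        field_simp
        norm_num
      by_cases h8 : (2 : ℝ) ^ i / (16 * Real.log N) ≤
          ((VA.filter (fun v => lam v * c₀ v = 1)).card : ℝ)
      · exact ⟨1, Or.inl rfl, h8⟩
      · refine ⟨-1, Or.inr rfl, ?_⟩
        push Not at h8
        linarith
    set VV := VA.filter (fun v => lam v * c₀ v = s') with hVV
    have hVV' : ∀ v ∈ VV, v.Prime ∧ v.Coprime N ∧ 2 ^ i < v ∧ v ≤ 2 ^ (i + 1) ∧
        lam v * c₀ v = s' := by
      intro v hv
      obtain ⟨h7, h8⟩ := Finset.mem_filter.mp hv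
      obtain ⟨h9, h10, h11, h12⟩ := hVA' v h7
      exact ⟨h9, h10, h11, h12, h8⟩
    have hs : ∀ s : ℝ, (s = 1 ∨ s = -1) → s * s' = b₀ := by
      intro s hs
      set W := RJ N (pw N c) c₀ j s with hW
      have hW' : ∀ w ∈ W, 2 ^ j < w ∧ w ≤ 2 ^ (j + 1) ∧ Rough (pw N c) w ∧ w.Coprime N ∧
          lam w * c₀ w = s := by
        intro w hw
        obtain ⟨h7, h8, h9, h10⟩ := Finset.mem_filter.mp hw
        obtain ⟨h11, h12⟩ := Finset.mem_Ioc.mp h7
        exact ⟨h11, h12, h8, h9, h10⟩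
      set U := (W ×ˢ VV).image (fun y : ℕ × ℕ => y.1 * y.2) with hU
      have hUmem : ∀ u ∈ U, ∃ w ∈ W, ∃ v ∈ VV, w * v = u := by
        intro u hu
        obtain ⟨⟨w, v⟩, hy, rfl⟩ := Finset.mem_image.mp hu
        exact ⟨w, (Finset.mem_product.mp hy).1, v, (Finset.mem_product.mp hy).2, rfl⟩
      have hUsz : ∀ u ∈ U, 2 ^ (i + j) < u ∧ u ≤ 4 * 2 ^ (i + j) ∧ u.Coprime N := by
        intro u hu
        obtain ⟨w, hw, v, hv, rfl⟩ := hUmem u hu
        obtain ⟨h7, h8, -, h9, -⟩ := hW' w hw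
        obtain ⟨-, h10, h11, h12, -⟩ := hVV' v hv
        refine ⟨?_, ?_, Nat.Coprime.mul_left h9 h10⟩
        · rw [pow_add, mul_comm]
          exact Nat.mul_lt_mul_of_lt_of_le h7 h11.le (by omega)
        · calc w * v ≤ 2 ^ (j + 1) * 2 ^ (i + 1) := Nat.mul_le_mul h8 h12
            _ = 4 * 2 ^ (i + j) := by ring
      have h2N : 2 ^ (i + j) ≤ N := by
        have h7 : (2 : ℝ) ^ (i + j) ≤ N := by
          refine (hprod.trans hhalf).trans ?_
          calc (N : ℝ) ^ ((1 : ℝ) / 2) ≤ (N : ℝ) ^ (1 : ℝ) :=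
                Real.rpow_le_rpow_of_exponent_le hN1 (by norm_num)
            _ = N := Real.rpow_one _
        exact_mod_cast h7
      refine hSH U (fun u => (((W ×ˢ VV).filter (fun y : ℕ × ℕ => y.1 * y.2 = u)).card : ℝ))
        (2 ^ (i + j)) (s * s') ⟨hUsz, ?_, ?_, p1, p2⟩ ?_
      · intro u hu
        refine ⟨Nat.cast_nonneg _, ?_⟩
        obtain ⟨h7, h8, -⟩ := hUsz u hu
        have hu0 : u ≠ 0 := by omega
        have h9 : ((W ×ˢ VV).filter (fun y : ℕ × ℕ => y.1 * y.2 = u)).card ≤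
            u.primeFactors.card := by
          refine Finset.card_le_card_of_injOn (fun y => y.2) ?_ ?_
          · intro y hy
            obtain ⟨h10, h11⟩ := Finset.mem_filter.mp hy
            obtain ⟨h12, -⟩ := hVV' y.2 (Finset.mem_product.mp h10).2
            exact Nat.mem_primeFactors.mpr ⟨h12, ⟨y.1, by rw [← h11, mul_comm]⟩, hu0⟩
          · intro y hy y' hy' hyy
            obtain ⟨h10, h11⟩ := Finset.mem_filter.mp hy
            obtain ⟨-, h13⟩ := Finset.mem_filter.mp hy'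
            obtain ⟨h12, -⟩ := hVV' y.2 (Finset.mem_product.mp h10).2
            have hyy' : y.2 = y'.2 := hyy
            refine Prod.ext ?_ hyy'
            have h14 : y.1 * y.2 = y'.1 * y.2 := by rw [h11, hyy', h13]
            exact Nat.eq_of_mul_eq_mul_right h12.pos h14
        have h10 := e4_pf (N := N) hu0 (h8.trans (Nat.mul_le_mul_left 4 h2N))
        have h11 : (((W ×ˢ VV).filter (fun y : ℕ × ℕ => y.1 * y.2 = u)).card : ℝ) ≤
            (u.primeFactors.card : ℝ) := by exact_mod_cast h9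
        linarith
      · have h7 : ∑ u ∈ U, (((W ×ˢ VV).filter (fun y : ℕ × ℕ => y.1 * y.2 = u)).card : ℝ) =
            (W.card : ℝ) * VV.card := by
          rw [← Nat.cast_sum, ← Finset.card_eq_sum_card_image, Finset.card_product, Nat.cast_mul]
        rw [h7]
        have h8 := (hbig s hs).le
        have h9 : (2 : ℝ) ^ j * (N : ℝ) ^ (-(tau k / 8)) * ((2 : ℝ) ^ i / (16 * Real.log N)) ≤
            (W.card : ℝ) * VV.card := mul_le_mul h8 hV (by positivity) (Nat.cast_nonneg _)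
        refine le_trans ?_ h9
        push_cast
        have h10 : (N : ℝ) ^ (-(tau k / 4)) = (N : ℝ) ^ (-(tau k / 8)) * (N : ℝ) ^ (-(tau k / 8)) := by
          rw [← Real.rpow_add hN0]
          congr 1
          ring
        have h11 : (N : ℝ) ^ (-(tau k / 8)) ≤ 1 / (16 * Real.log N) := by
          rw [Real.rpow_neg hN0.le, ← one_div]
          refine one_div_le_one_div_of_le (by positivity) ?_
          linarith
        rw [h10, pow_add]
        calc (2 : ℝ) ^ i * 2 ^ j * ((N : ℝ) ^ (-(tau k / 8)) * (N : ℝ) ^ (-(tau k / 8)))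
            ≤ (2 : ℝ) ^ i * 2 ^ j * ((N : ℝ) ^ (-(tau k / 8)) * (1 / (16 * Real.log N))) := by
              refine mul_le_mul_of_nonneg_left ?_ (by positivity)
              exact mul_le_mul_of_nonneg_left h11 (by positivity)
          _ = (2 : ℝ) ^ j * (N : ℝ) ^ (-(tau k / 8)) * ((2 : ℝ) ^ i / (16 * Real.log N)) := by
              ring
      · intro u hu _
        obtain ⟨w, hw, v, hv, rfl⟩ := hUmem u hu
        obtain ⟨h7, h8, h9, h10, h11⟩ := hW' w hw
        obtain ⟨h12, h13, h14, h15, h16⟩ := hVV' v hv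
        refine ⟨?_, ?_⟩
        · intro p hp hpd
          rcases (Nat.Prime.dvd_mul hp).mp hpd with h | h
          · exact h9 p hp h
          · rw [(Nat.prime_dvd_prime_iff_eq hp h12).mp h]
            exact lt_of_le_of_lt hz2 h14
        · rw [e4_lam_mul (by omega) h12.ne_zero, hRC.mul, ← h11, ← h16]
          ring
    have h7 := (hs 1 (Or.inl rfl)).trans (hs (-1) (Or.inr rfl)).symm
    rcases hs' with rfl | rfl
    · norm_num at h7
    · norm_num at h7

end Pool.Agent.Lib.PQ
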