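import Pool.Agent.Lib.MP_7b7e48_nt.PQ.E4p

/-!
# E5a (45 minutes): the signs are multiplicative

PROOF. Choose `s j` from `OneSign` (and `1` outside the range). Let `z = pw N c ≤ 2^i, 2^j` and `2^(i+j+2) ≤ N^(1/2+1/k)` (so `i`, `j`, `i+j`, `i+j+1` are in the range). Let `P_i` be
the set of primes `p ∈ (2^i, 7/5 2^i]`, `p ∤ N`, with `lam p * c₀ p = s i`: the others are in `RJ(i, -s i)` (`p > z` is rough), so
`#P_i ≥ 2^i/(8 log N) - 2^i N^(-τ/8) ≥ 2^i/(16 log N)` (`E4p`), same for `P_j`. The products `p q` lie in `(2^(i+j), 49/25 2^(i+j)]`, are rough, coprime to `N`, of sign `s i * s j`, and there are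
at least `#P_i #P_j/2 ≥ 2^(i+j)/(512 log² N) > 2^(i+j) N^(-τ/8)` of them (each product has at most two representations). So they are not all in
`RJ(i+j, -s(i+j))`, hence `s (i+j) = s i * s j`. With the primes in `(3/2 2^i, 2^(i+1)]` the products are in `(9/4 2^(i+j), 2^(i+j+2)]`: block `i + j + 1`.
-/

set_option autoImplicit false

open Finset
open Pool.Agent.Lib.GT (Rough pr V)
open Pool.Agent.Lib.MP_45349e_nt.LS (lam)
open Pool.Agent.Lib.RG (RC LV rr SS PB sig)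

namespace Pool.Agent.Lib.PQ

private theorem E5a_lam_mul {m n : ℕ} (hm : m ≠ 0) (hn : n ≠ 0) : lam (m * n) = lam m * lam n := by
  unfold lam
  rw [ArithmeticFunction.cardFactors_mul hm hn, pow_add]

private theorem E5a_prod (N z : ℕ) (c₀ : ℕ → ℝ) (hc : RC N c₀) (A B : Finset ℕ) (s t : ℝ) (m : ℕ)
    (hA : ∀ p ∈ A, p.Prime ∧ z < p ∧ ¬ p ∣ N ∧ lam p * c₀ p = s)
    (hB : ∀ p ∈ B, p.Prime ∧ z < p ∧ ¬ p ∣ N ∧ lam p * c₀ p = t)
    (hAB : ∀ p ∈ A, ∀ q ∈ B, 2 ^ m < p * q ∧ p * q ≤ 2 ^ (m + 1)) :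
    A.card * B.card ≤ 2 * (RJ N z c₀ m (s * t)).card := by
  classical
  rw [← Finset.card_product]
  refine le_trans (Finset.card_le_mul_card_image (f := fun y : ℕ × ℕ => y.1 * y.2) (A ×ˢ B) 2 ?_) ?_
  · intro a ha
    obtain ⟨y, hy, rfl⟩ := Finset.mem_image.mp ha
    rw [Finset.mem_product] at hy
    have hsub : ((A ×ˢ B).filter fun x : ℕ × ℕ => x.1 * x.2 = y.1 * y.2) ⊆ {y, (y.2, y.1)} := by
      intro x hx
      rw [Finset.mem_filter, Finset.mem_product] at hx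
      obtain ⟨⟨hx1, hx2⟩, hx3⟩ := hx
      have px1 := (hA _ hx1).1
      have px2 := (hB _ hx2).1
      have py1 := (hA _ hy.1).1
      have py2 := (hB _ hy.2).1
      have hd : x.1 ∣ y.1 * y.2 := ⟨x.2, hx3.symm⟩
      rw [Finset.mem_insert, Finset.mem_singleton]
      rcases (Nat.Prime.dvd_mul px1).mp hd with h | h
      · left
        have h1 : x.1 = y.1 := (Nat.prime_dvd_prime_iff_eq px1 py1).mp h
        have h2 : x.2 = y.2 := by
          rw [h1] at hx3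
          exact Nat.eq_of_mul_eq_mul_left py1.pos hx3
        exact Prod.ext h1 h2
      · right
        have h1 : x.1 = y.2 := (Nat.prime_dvd_prime_iff_eq px1 py2).mp h
        have h2 : x.2 = y.1 := by
          rw [h1, mul_comm y.1 y.2] at hx3
          exact Nat.eq_of_mul_eq_mul_left py2.pos hx3
        exact Prod.ext h1 h2
    exact le_trans (Finset.card_le_card hsub) Finset.card_le_two
  · refine Nat.mul_le_mul_left 2 (Finset.card_le_card ?_)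
    intro w hw
    obtain ⟨y, hy, rfl⟩ := Finset.mem_image.mp hw
    rw [Finset.mem_product] at hy
    obtain ⟨p1, z1, n1, s1⟩ := hA _ hy.1
    obtain ⟨p2, z2, n2, s2⟩ := hB _ hy.2
    obtain ⟨l1, l2⟩ := hAB _ hy.1 _ hy.2
    unfold RJ
    rw [Finset.mem_filter, Finset.mem_Ioc]
    refine ⟨⟨l1, l2⟩, ?_, ?_, ?_⟩
    · intro q hq hd
      rcases (Nat.Prime.dvd_mul hq).mp hd with h | h
      · rwa [(Nat.prime_dvd_prime_iff_eq hq p1).mp h]
      · rwa [(Nat.prime_dvd_prime_iff_eq hq p2).mp h]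
    · exact Nat.Coprime.mul_left ((Nat.Prime.coprime_iff_not_dvd p1).mpr n1) ((Nat.Prime.coprime_iff_not_dvd p2).mpr n2)
    · show lam (y.1 * y.2) * c₀ (y.1 * y.2) = s * t
      rw [E5a_lam_mul p1.pos.ne' p2.pos.ne', hc.mul, ← s1, ← s2]
      ring

/-- most primes of the block have the right sign -/
private theorem E5a_good (N z i : ℕ) (c₀ : ℕ → ℝ) (hc : RC N c₀) (hz : z ≤ 2 ^ i) (P : ℕ → Prop) [DecidablePred P] (s e : ℝ)
    (hs : s = 1 ∨ s = -1) (h1 : (2 : ℝ) ^ i * (2 * e) ≤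
      (((Finset.Ioc (2 ^ i) (2 ^ (i + 1))).filter fun p => p.Prime ∧ ¬ p ∣ N ∧ P p).card : ℝ))
    (h2 : ((RJ N z c₀ i (-s)).card : ℝ) ≤ 2 ^ i * e) :
    ∃ A : Finset ℕ, (∀ p ∈ A, p.Prime ∧ z < p ∧ ¬ p ∣ N ∧ lam p * c₀ p = s) ∧ (∀ p ∈ A, 2 ^ i < p ∧ p ≤ 2 ^ (i + 1) ∧ P p) ∧
      (2 : ℝ) ^ i * e ≤ A.card := by
  classical
  set F := (Finset.Ioc (2 ^ i) (2 ^ (i + 1))).filter fun p => p.Prime ∧ ¬ p ∣ N ∧ P p with hF
  refine ⟨F.filter fun p => lam p * c₀ p = s, ?_, ?_, ?_⟩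
  · intro p hp
    rw [Finset.mem_filter, hF, Finset.mem_filter, Finset.mem_Ioc] at hp
    exact ⟨hp.1.2.1, by omega, hp.1.2.2.1, hp.2⟩
  · intro p hp
    rw [Finset.mem_filter, hF, Finset.mem_filter, Finset.mem_Ioc] at hp
    exact ⟨hp.1.1.1, hp.1.1.2, hp.1.2.2.2⟩
  · have hsplit := Finset.card_filter_add_card_filter_not (s := F) (fun p => lam p * c₀ p = s)
    have hbad : (F.filter fun p => ¬ lam p * c₀ p = s) ⊆ RJ N z c₀ i (-s) := by
      intro p hp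
      rw [Finset.mem_filter, hF, Finset.mem_filter, Finset.mem_Ioc] at hp
      obtain ⟨⟨⟨a1, a2⟩, a3, a4, -⟩, a5⟩ := hp
      have hcop : p.Coprime N := (Nat.Prime.coprime_iff_not_dvd a3).mpr a4
      unfold RJ
      rw [Finset.mem_filter, Finset.mem_Ioc]
      refine ⟨⟨a1, a2⟩, ?_, hcop, ?_⟩
      · intro q hq hd
        rw [(Nat.prime_dvd_prime_iff_eq hq a3).mp hd]
        omega
      · have hl : lam p = -1 := by
          unfold lam
          rw [ArithmeticFunction.cardFactors_apply_prime a3, pow_one]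
        have a6 : lam p * c₀ p = 1 ∨ lam p * c₀ p = -1 := by
          rcases hc.val p hcop with h | h
          · right; rw [hl, h]; norm_num
          · left; rw [hl, h]; norm_num
        rcases a6 with h | h <;> rcases hs with h' | h'
        · exact absurd (h.trans h'.symm) a5
        · show lam p * c₀ p = -s
          rw [h, h']; norm_num
        · show lam p * c₀ p = -s
          rw [h, h']
        · exact absurd (h.trans h'.symm) a5
    have hb : ((F.filter fun p => ¬ lam p * c₀ p = s).card : ℝ) ≤ 2 ^ i * e :=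
      le_trans (by exact_mod_cast Finset.card_le_card hbad) h2
    have hsum : (((F.filter fun p => lam p * c₀ p = s).card : ℕ) : ℝ) + ((F.filter fun p => ¬ lam p * c₀ p = s).card : ℝ) = F.card := by
      exact_mod_cast hsplit
    linarith

private theorem E5a_large (a : ℝ) (ha : 0 < a) : ∃ N0 : ℕ, ∀ N : ℕ, N0 ≤ N → 3 ≤ N ∧
    2048 * Real.log N ^ 2 * (N : ℝ) ^ (-a) ≤ 1 := by
  have h1 : (fun x : ℝ => Real.log x ^ (2 : ℝ)) =o[Filter.atTop] fun x : ℝ => x ^ a :=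
    isLittleO_log_rpow_rpow_atTop 2 ha
  have h2 := h1.def (c := 1 / 2048) (by norm_num)
  have h3 := (tendsto_natCast_atTop_atTop (R := ℝ)).eventually h2
  obtain ⟨N0, h4⟩ := Filter.eventually_atTop.mp h3
  refine ⟨max N0 3, fun N hN => ⟨le_trans (le_max_right _ _) hN, ?_⟩⟩
  have h5 := h4 N (le_trans (le_max_left _ _) hN)
  have hN3 : 3 ≤ N := le_trans (le_max_right _ _) hN
  have hN0 : (0 : ℝ) < N := by
    have : (3 : ℝ) ≤ N := by exact_mod_cast hN3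
    linarith
  have hlog : 0 ≤ Real.log N := Real.log_natCast_nonneg N
  rw [Real.norm_of_nonneg (by positivity), Real.norm_of_nonneg (by positivity)] at h5
  rw [show Real.log (N : ℝ) ^ (2 : ℝ) = Real.log N ^ 2 by norm_cast] at h5
  rw [Real.rpow_neg hN0.le]
  have hpos : (0 : ℝ) < (N : ℝ) ^ a := Real.rpow_pos_of_pos hN0 _
  rw [← div_eq_mul_inv, div_le_one hpos]
  linarith

theorem E5a (k : ℕ) (hk : 160 ≤ k) (c : ℝ) (hc : 0 < c) (hc1 : c ≤ 1 / (1000 * k)) : ∃ N0 : ℕ, ∀ N : ℕ,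
    N0 ≤ N → ∀ c₀ : ℕ → ℝ, RC N c₀ → OneSign k c N c₀ → ∃ s : ℕ → ℝ, SG k c N c₀ s := by
  classical
  have hk0 : (0 : ℝ) < k := by
    have : (160 : ℝ) ≤ k := by exact_mod_cast hk
    linarith
  have htau : 0 < tau k := by unfold tau; positivity
  obtain ⟨N1, hN1⟩ := E4p c hc
  obtain ⟨N2, hN2⟩ := E5a_large (tau k / 8) (by positivity)
  refine ⟨max N1 N2, fun N hN c₀ hrc hone => ?_⟩
  have hE := hN1 N (le_trans (le_max_left _ _) hN)
  obtain ⟨h3, hbig⟩ := hN2 N (le_trans (le_max_right _ _) hN)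
  set ν : ℝ := (N : ℝ) ^ (-(tau k / 8)) with hν
  have hNr : (3 : ℝ) ≤ N := by exact_mod_cast h3
  have hν0 : 0 < ν := Real.rpow_pos_of_pos (by linarith) _
  set L : ℝ := Real.log N with hL
  have hL1 : 1 ≤ L := by
    rw [hL, Real.le_log_iff_exp_le (by linarith)]
    have := Real.exp_one_lt_d9
    linarith
  -- the exponent
  set X : ℝ := (N : ℝ) ^ ((1 : ℝ) / 2 + 1 / k) with hX
  have hXN : X ≤ N := by
    rw [hX]
    calc (N : ℝ) ^ ((1 : ℝ) / 2 + 1 / k) ≤ (N : ℝ) ^ (1 : ℝ) := by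
          refine Real.rpow_le_rpow_of_exponent_le (by linarith) ?_
          have : 1 / (k : ℝ) ≤ 1 / 160 := one_div_le_one_div_of_le (by norm_num) (by exact_mod_cast hk)
          linarith
      _ = N := Real.rpow_one _
  -- the signs
  have hex : ∀ j : ℕ, ∃ s : ℝ, (s = 1 ∨ s = -1) ∧ ((2 : ℝ) ^ (j + 1) ≤ X →
      ((RJ N (pw N c) c₀ j (-s)).card : ℝ) ≤ 2 ^ j * ν) := by
    intro j
    by_cases h : (2 : ℝ) ^ (j + 1) ≤ X
    · obtain ⟨s, h1, h2⟩ := hone j h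
      exact ⟨s, h1, fun _ => h2⟩
    · exact ⟨1, Or.inl rfl, fun h' => absurd h' h⟩
  choose s hs hrare using hex
  set e : ℝ := 1 / (16 * L) with he
  have he0 : 0 < e := by rw [he]; positivity
  have hνe : ν ≤ e := by
    rw [he, le_div_iff₀ (by positivity)]
    have : 16 * L * ν ≤ 2048 * L ^ 2 * ν := by
      apply mul_le_mul_of_nonneg_right _ hν0.le
      nlinarith
    linarith
  have hsq : 8 * ν ≤ e ^ 2 := by
    rw [he, div_pow, one_pow, le_div_iff₀ (by positivity)]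
    nlinarith
  -- a block of size 2^i
  have hblock : ∀ i : ℕ, pw N c ≤ 2 ^ i → (2 : ℝ) ^ (i + 1) ≤ X → 
      (∃ A : Finset ℕ, (∀ p ∈ A, p.Prime ∧ pw N c < p ∧ ¬ p ∣ N ∧ lam p * c₀ p = s i) ∧
        (∀ p ∈ A, 2 ^ i < p ∧ p ≤ 2 ^ (i + 1) ∧ 5 * p ≤ 7 * 2 ^ i) ∧ (2 : ℝ) ^ i * e ≤ A.card) ∧
      (∃ A : Finset ℕ, (∀ p ∈ A, p.Prime ∧ pw N c < p ∧ ¬ p ∣ N ∧ lam p * c₀ p = s i) ∧
        (∀ p ∈ A, 2 ^ i < p ∧ p ≤ 2 ^ (i + 1) ∧ 3 * 2 ^ i < 2 * p) ∧ (2 : ℝ) ^ i * e ≤ A.card) := by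
    intro i hi hi2
    have hiN : 2 ^ (i + 1) ≤ N := by
      have : (2 : ℝ) ^ (i + 1) ≤ N := le_trans hi2 hXN
      exact_mod_cast this
    obtain ⟨g1, g2⟩ := hE i hi hiN
    have h2 : ((RJ N (pw N c) c₀ i (-(s i))).card : ℝ) ≤ 2 ^ i * e :=
      le_trans (hrare i hi2) (mul_le_mul_of_nonneg_left hνe (by positivity))
    have e2 : (2 : ℝ) ^ i * (2 * e) = 2 ^ i / (8 * L) := by
      rw [he]
      field_simp
      norm_num
    exact ⟨E5a_good N (pw N c) i c₀ hrc hi (fun p => 5 * p ≤ 7 * 2 ^ i) (s i) e (hs i) (by rw [e2]; exact g1) h2,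
      E5a_good N (pw N c) i c₀ hrc hi (fun p => 3 * 2 ^ i < 2 * p) (s i) e (hs i) (by rw [e2]; exact g2) h2⟩
  -- the comparison
  have hcmp : ∀ i j m : ℕ, ∀ A B : Finset ℕ, (∀ p ∈ A, p.Prime ∧ pw N c < p ∧ ¬ p ∣ N ∧ lam p * c₀ p = s i) →
      (∀ p ∈ B, p.Prime ∧ pw N c < p ∧ ¬ p ∣ N ∧ lam p * c₀ p = s j) →
      (∀ p ∈ A, ∀ q ∈ B, 2 ^ m < p * q ∧ p * q ≤ 2 ^ (m + 1)) → (2 : ℝ) ^ i * e ≤ A.card → (2 : ℝ) ^ j * e ≤ B.card →
      m ≤ i + j + 1 → (2 : ℝ) ^ (m + 1) ≤ X → s m = s i * s j := by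
    intro i j m A B hA hB hAB cA cB hm hmX
    by_contra hne
    have hneg : -(s m) = s i * s j := by
      rcases hs i with h1 | h1 <;> rcases hs j with h2 | h2 <;> rcases hs m with h4 | h4 <;>
        rw [h1, h2, h4] at hne ⊢ <;> norm_num at hne <;> norm_num
    have hr := hrare m hmX
    rw [hneg] at hr
    have hp := E5a_prod N (pw N c) c₀ hrc A B (s i) (s j) m hA hB hAB
    have hp' : (A.card : ℝ) * B.card ≤ 2 * (RJ N (pw N c) c₀ m (s i * s j)).card := by exact_mod_cast hp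
    have h5 : ((2 : ℝ) ^ i * e) * (2 ^ j * e) ≤ A.card * B.card :=
      mul_le_mul cA cB (by positivity) (by positivity)
    have h6 : (2 : ℝ) ^ m ≤ 2 ^ (i + j) * 2 := by
      rw [← pow_succ]
      exact pow_le_pow_right₀ (by norm_num) hm
    have h7 : (2 : ℝ) ^ m * ν ≤ 2 ^ (i + j) * 2 * ν := mul_le_mul_of_nonneg_right h6 hν0.le
    have h8 : (2 : ℝ) ^ (i + j) * (8 * ν) ≤ 2 ^ (i + j) * e ^ 2 := mul_le_mul_of_nonneg_left hsq (by positivity)
    have h9 : (2 : ℝ) ^ (i + j) * e ^ 2 ≤ 2 ^ (i + j) * (4 * ν) := by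
      calc (2 : ℝ) ^ (i + j) * e ^ 2 = ((2 : ℝ) ^ i * e) * (2 ^ j * e) := by rw [pow_add]; ring
        _ ≤ 2 * (RJ N (pw N c) c₀ m (s i * s j)).card := le_trans h5 hp'
        _ ≤ 2 * (2 ^ m * ν) := by linarith
        _ ≤ 2 ^ (i + j) * (4 * ν) := by linarith
    have h10 : (0 : ℝ) < 2 ^ (i + j) * ν := by positivity
    linarith
  refine ⟨s, hs, fun j hj => hrare j hj, ?_⟩
  intro i j hi hj hij
  have hi2 : (2 : ℝ) ^ (i + 1) ≤ X := le_trans (pow_le_pow_right₀ (by norm_num) (by omega)) hij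
  have hj2 : (2 : ℝ) ^ (j + 1) ≤ X := le_trans (pow_le_pow_right₀ (by norm_num) (by omega)) hij
  obtain ⟨⟨A1, a1, a2, a3⟩, ⟨A2, a4, a5, a6⟩⟩ := hblock i hi hi2
  obtain ⟨⟨B1', b1, b2, b3⟩, ⟨B2, b4, b5, b6⟩⟩ := hblock j hj hj2
  constructor
  · refine hcmp i j (i + j) A1 B1' a1 b1 ?_ a3 b3 (by omega) (le_trans (pow_le_pow_right₀ (by norm_num) (by omega)) hij)
    intro p hp q hq
    obtain ⟨p1, p2, p3⟩ := a2 p hp
    obtain ⟨q1, q2, q3⟩ := b2 q hq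
    constructor
    · rw [pow_add]
      exact Nat.mul_lt_mul'' p1 q1
    · have : (5 * p) * (5 * q) ≤ (7 * 2 ^ i) * (7 * 2 ^ j) := Nat.mul_le_mul p3 q3
      have e1 : 2 ^ (i + j + 1) = 2 * (2 ^ i * 2 ^ j) := by rw [pow_succ, pow_add]; ring
      rw [e1]
      nlinarith
  · refine hcmp i j (i + j + 1) A2 B2 a4 b4 ?_ a6 b6 (by omega) hij
    intro p hp q hq
    obtain ⟨p1, p2, p3⟩ := a5 p hp
    obtain ⟨q1, q2, q3⟩ := b5 q hq
    constructor
    · have : (3 * 2 ^ i) * (3 * 2 ^ j) ≤ (2 * p) * (2 * q) := Nat.mul_le_mul p3.le q3.le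
      have h0 : 0 < 2 ^ i * 2 ^ j := by positivity
      have e1 : 2 ^ (i + j + 1) = 2 * (2 ^ i * 2 ^ j) := by rw [pow_succ, pow_add]; ring
      rw [e1]
      nlinarith
    · have : p * q ≤ 2 ^ (i + 1) * 2 ^ (j + 1) := Nat.mul_le_mul p2 q2
      calc p * q ≤ 2 ^ (i + 1) * 2 ^ (j + 1) := this
        _ = 2 ^ (i + j + 1 + 1) := by rw [← pow_add]; congr 1; omega

end Pool.Agent.Lib.PQ
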