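import Pool.Agent.Lib.MP_7b7e48_nt.PQ.S9m

/-!
# E6x (30 minutes): contradiction with Siegel's theorem

PROOF. `S9m` with `2c` in place of `c`, at `y = pw N (1/2 + 3/(4k))`: `(1/5) LN L y ≤ ∑_q log q SS(y/q)`, and `0 ≤ SS m ≤ ∑_{n ≤ m}` (number of divisors of `n`) `≤ m (1 + log m)`
(`|c₀| ≤ 1`), so the right side is `≤ LN * 2 LN * y * sig ≤ 2 LN² y N^(-τ/9)`. Hence `L ≤ 10 LN N^(-τ/9) < N^(-eps k) ≤ L` for large `N` (`eps k = τ/100`).
-/

set_option autoImplicit false

open Finset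
open Pool.Agent.Lib.GT (Rough pr V)
open Pool.Agent.Lib.MP_45349e_nt.LS (lam)
open Pool.Agent.Lib.RG (RC LV rr SS PB sig)

namespace Pool.Agent.Lib.PQ

private theorem e6_abs {N : ℕ} {c : ℕ → ℝ} (hc : RC N c) (n : ℕ) : |c n| ≤ 1 := by
  by_cases h : n.Coprime N
  · rcases hc.val n h with h1 | h1
    · rw [h1, abs_one]
    · rw [h1, abs_neg, abs_one]
  · rw [hc.zero n h, abs_zero]
    exact zero_le_one

private theorem e6_harm (n : ℕ) : ∑ a ∈ Finset.Icc 1 n, (1 : ℝ) / a ≤ 1 + Real.log n := by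
  have h := harmonic_le_one_add_log n
  rw [harmonic_eq_sum_Icc] at h
  push_cast at h
  refine le_trans (le_of_eq ?_) h
  exact Finset.sum_congr rfl fun a _ => one_div _

private theorem e6_swap (c : ℕ → ℝ) (y : ℕ) :
    ∑ m ∈ Finset.Icc 1 y, rr c m = ∑ a ∈ Finset.Icc 1 y, c a * ((y / a : ℕ) : ℝ) := by
  classical
  have h1 : ∀ m ∈ Finset.Icc 1 y, rr c m =
      ∑ a ∈ Finset.Icc 1 y, if a ∣ m then c a else 0 := by
    intro m hm
    rw [Finset.mem_Icc] at hm
    unfold rr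
    rw [← Finset.sum_filter]
    refine Finset.sum_congr ?_ fun _ _ => rfl
    ext a
    rw [Nat.mem_divisors, Finset.mem_filter, Finset.mem_Icc]
    constructor
    · rintro ⟨h, _⟩
      have h2 := Nat.le_of_dvd (by omega) h
      have h4 : 0 < a := Nat.pos_of_dvd_of_pos h (by omega)
      exact ⟨⟨h4, by omega⟩, h⟩
    · rintro ⟨_, h⟩
      exact ⟨h, by omega⟩
  rw [Finset.sum_congr rfl h1, Finset.sum_comm]
  refine Finset.sum_congr rfl fun a _ => ?_
  rw [← Finset.sum_filter, Finset.sum_const, nsmul_eq_mul, mul_comm]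
  congr 2
  have h2 := Nat.Ioc_filter_dvd_card_eq_div y a
  exact h2

/-- the trivial bound -/
private theorem e6_triv {N : ℕ} {c : ℕ → ℝ} (hc : RC N c) (y : ℕ) (hy1 : 1 ≤ y) :
    SS c y ≤ y * (1 + Real.log y) := by
  have hy0 : (0 : ℝ) < y := by exact_mod_cast hy1
  unfold SS
  rw [e6_swap]
  have h2 : ∀ a ∈ Finset.Icc 1 y, c a * ((y / a : ℕ) : ℝ) ≤ y * (1 / (a : ℝ)) := by
    intro a ha
    have h4 : ((y / a : ℕ) : ℝ) ≤ (y : ℝ) / a := Nat.cast_div_le
    calc c a * ((y / a : ℕ) : ℝ) ≤ 1 * ((y / a : ℕ) : ℝ) :=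
          mul_le_mul_of_nonneg_right ((le_abs_self _).trans (e6_abs hc a)) (Nat.cast_nonneg _)
      _ ≤ y * (1 / (a : ℝ)) := by
          rw [one_mul]
          refine h4.trans (le_of_eq ?_)
          ring
  refine (Finset.sum_le_sum h2).trans ?_
  rw [← Finset.mul_sum]
  exact mul_le_mul_of_nonneg_left (e6_harm y) hy0.le

theorem E6x (k : ℕ) (hk : 160 ≤ k) (c : ℝ) (hc : 0 < c) (hc1 : c ≤ 1 / (1000 * k)) : ∃ N0 : ℕ, ∀ N : ℕ,
    N0 ≤ N → ∀ (c₀ : ℕ → ℝ) (L : ℝ), Sit k N c₀ L →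
    (N : ℝ) ^ (-(tau k / 9)) < sig c₀ (pw N (2 * c)) (pw N (1 / 2 + 3 / (4 * k))) := by
  classical
  have hk0 : (0 : ℝ) < k := by
    have : 0 < k := by omega
    exact_mod_cast this
  have hk1 : (160 : ℝ) ≤ k := by exact_mod_cast hk
  have h2c : 2 * c ≤ 1 / (100 * k) := by
    have h1 : 1 / (1000 * (k : ℝ)) = 1 / 10 * (1 / (100 * k)) := by field_simp; norm_num
    have h2 : 0 < 1 / (100 * (k : ℝ)) := by positivity
    linarith
  obtain ⟨N1, hN1'⟩ := S9m k hk (2 * c) (by linarith) h2c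
  have htau : 0 < tau k := by
    unfold tau
    positivity
  have hcast : Filter.Tendsto (fun N : ℕ => (N : ℝ)) Filter.atTop Filter.atTop := tendsto_natCast_atTop_atTop
  have hx : 0 < tau k / 9 - eps k := by
    unfold eps
    linarith
  have e1 : ∀ᶠ N : ℕ in Filter.atTop, 10 * Real.log N < (N : ℝ) ^ (tau k / 9 - eps k) := by
    have h1 : ∀ᶠ x : ℝ in Filter.atTop, 10 * Real.log x < x ^ (tau k / 9 - eps k) := by
      have h2 := (isLittleO_log_rpow_atTop hx).bound (show (0 : ℝ) < 1 / 20 by norm_num)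
      filter_upwards [h2, Filter.eventually_ge_atTop (1 : ℝ)] with x hx1 hx2
      rw [Real.norm_of_nonneg (Real.log_nonneg hx2), Real.norm_of_nonneg (by positivity)] at hx1
      have : 0 < x ^ (tau k / 9 - eps k) := by positivity
      linarith
    exact hcast.eventually h1
  have e2 : ∀ᶠ N : ℕ in Filter.atTop, (1 : ℝ) ≤ Real.log N :=
    (Real.tendsto_log_atTop.comp hcast).eventually_ge_atTop _
  obtain ⟨N0, hN0⟩ := Filter.eventually_atTop.mp
    (e1.and (e2.and ((Filter.eventually_ge_atTop N1).and (Filter.eventually_ge_atTop 2))))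
  refine ⟨N0, ?_⟩
  intro N hN c₀ L hsit
  obtain ⟨f1, f2, f3, f4⟩ := hN0 N hN
  have hN1 : (1 : ℝ) ≤ N := by exact_mod_cast (by omega : 1 ≤ N)
  have hNpos : (0 : ℝ) < N := by linarith
  have hRC := hsit.rc
  set y : ℕ := pw N (1 / 2 + 3 / (4 * k)) with hy
  have hk8 : 3 / (4 * (k : ℝ)) ≤ 1 / 2 := by
    rw [div_le_div_iff₀ (by positivity) (by norm_num)]
    linarith
  have hyN' : (y : ℝ) ≤ N := by
    have h1 : (y : ℝ) ≤ (N : ℝ) ^ (1 / 2 + 3 / (4 * k) : ℝ) := Nat.floor_le (by positivity)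
    refine h1.trans ?_
    calc (N : ℝ) ^ (1 / 2 + 3 / (4 * k) : ℝ) ≤ (N : ℝ) ^ (1 : ℝ) :=
          Real.rpow_le_rpow_of_exponent_le hN1 (by linarith)
      _ = N := Real.rpow_one _
  have hyB : y ≤ B1 k N := by
    refine Nat.floor_le_floor ?_
    refine Real.rpow_le_rpow_of_exponent_le hN1 ?_
    have : (0 : ℝ) < 8 / k := by positivity
    linarith
  have hy1 : 1 ≤ y := by
    refine Nat.le_floor ?_
    rw [Nat.cast_one]
    exact Real.one_le_rpow hN1 (by positivity)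
  have hy0 : (1 : ℝ) ≤ y := by exact_mod_cast hy1
  have h9 := hN1' N f3 c₀ L hsit y le_rfl hyB
  have hL0 : 0 < L := lt_of_lt_of_le (by positivity) hsit.sieg
  have hlogy : Real.log y ≤ Real.log N := Real.log_le_log (by linarith) hyN'
  -- the upper bound
  have hS4 : ∑ p ∈ (Finset.range (y + 1)).filter (fun p => p.Prime ∧ pw N (2 * c) < p ∧ c₀ p = 1),
      Real.log p * SS c₀ (y / p) ≤ 2 * Real.log N ^ 2 * y * sig c₀ (pw N (2 * c)) y := by
    unfold sig
    rw [Finset.mul_sum]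
    refine Finset.sum_le_sum fun p hp => ?_
    obtain ⟨hpy, hpp, _, _⟩ := Finset.mem_filter.mp hp
    have hpy' : p ≤ y := by
      have := Finset.mem_range.mp hpy
      omega
    have hp1 : 1 ≤ p := hpp.one_lt.le
    have hp0 : (0 : ℝ) < p := by exact_mod_cast hpp.pos
    have hw1 : 1 ≤ y / p := (Nat.one_le_div_iff hpp.pos).mpr hpy'
    have hw0 : (1 : ℝ) ≤ ((y / p : ℕ) : ℝ) := by exact_mod_cast hw1
    have h1 := e6_triv hRC (y / p) hw1
    have h2 : 1 + Real.log ((y / p : ℕ) : ℝ) ≤ 2 * Real.log N := by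
      have h3 : Real.log ((y / p : ℕ) : ℝ) ≤ Real.log N := by
        refine Real.log_le_log (by linarith) ?_
        refine le_trans ?_ hyN'
        exact_mod_cast Nat.div_le_self y p
      linarith
    have h3 : Real.log p ≤ Real.log N := by
      refine Real.log_le_log hp0 ?_
      refine le_trans ?_ hyN'
      exact_mod_cast hpy'
    have h4 : ((y / p : ℕ) : ℝ) ≤ y / p := Nat.cast_div_le
    have hlogp : 0 ≤ Real.log p := Real.log_nonneg (by exact_mod_cast hp1)
    have hw : 0 ≤ 1 + Real.log ((y / p : ℕ) : ℝ) := by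
      have := Real.log_nonneg hw0
      linarith
    calc Real.log p * SS c₀ (y / p)
        ≤ Real.log N * (((y / p : ℕ) : ℝ) * (1 + Real.log ((y / p : ℕ) : ℝ))) := by
          refine (mul_le_mul_of_nonneg_left h1 hlogp).trans ?_
          exact mul_le_mul_of_nonneg_right h3 (mul_nonneg (Nat.cast_nonneg _) hw)
      _ ≤ Real.log N * ((y / p) * (2 * Real.log N)) := by
          refine mul_le_mul_of_nonneg_left ?_ (by linarith)
          exact mul_le_mul h4 h2 hw (by positivity)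
      _ = 2 * Real.log N ^ 2 * y * (1 / p) := by ring
  by_contra hcon
  have hcon' : sig c₀ (pw N (2 * c)) y ≤ (N : ℝ) ^ (-(tau k / 9)) := not_lt.mp hcon
  have hlp : 0 < Real.log N := by linarith
  have hyp : (0 : ℝ) < y := by linarith
  have h10 : 1 / 5 * (Real.log N * (L * y)) ≤ 2 * Real.log N ^ 2 * y * (N : ℝ) ^ (-(tau k / 9)) := by
    refine h9.trans (hS4.trans ?_)
    exact mul_le_mul_of_nonneg_left hcon' (by positivity)
  have h11 : L ≤ 10 * Real.log N * (N : ℝ) ^ (-(tau k / 9)) := by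
    have h12 : (Real.log N * y) * L ≤ (Real.log N * y) * (10 * Real.log N * (N : ℝ) ^ (-(tau k / 9))) := by
      calc (Real.log N * y) * L = 5 * (1 / 5 * (Real.log N * (L * y))) := by ring
        _ ≤ 5 * (2 * Real.log N ^ 2 * y * (N : ℝ) ^ (-(tau k / 9))) :=
            mul_le_mul_of_nonneg_left h10 (by norm_num)
        _ = _ := by ring
    exact le_of_mul_le_mul_left h12 (by positivity)
  have h13 : 10 * Real.log N * (N : ℝ) ^ (-(tau k / 9)) < (N : ℝ) ^ (-eps k) := by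
    have h14 : (N : ℝ) ^ (-eps k) = (N : ℝ) ^ (tau k / 9 - eps k) * (N : ℝ) ^ (-(tau k / 9)) := by
      rw [← Real.rpow_add hNpos]
      congr 1
      ring
    rw [h14]
    exact mul_lt_mul_of_pos_right f1 (by positivity)
  linarith [hsit.sieg]

end Pool.Agent.Lib.PQ
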