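import Pool.Agent.Lib.MP_7b7e48_nt.PQ.G1m
import Pool.Agent.Lib.MP_7b7e48_nt.PQ.D1m
import Pool.Agent.Lib.MP_7b7e48_nt.PQ.E3x
import Pool.Agent.Lib.MP_7b7e48_nt.PQ.E4x
import Pool.Agent.Lib.MP_7b7e48_nt.PQ.E5a
import Pool.Agent.Lib.MP_7b7e48_nt.PQ.E5b
import Pool.Agent.Lib.MP_7b7e48_nt.PQ.E6x
import Pool.Agent.Lib.MP_7b7e48_nt.RG.A2

/-!
# F3m (60 minutes): the core theorem

PROOF. Constants: `K` = sum of those of `G1m`, `C4b`, `E3x` and `50`; `C` from `E3x`. For `m → ∞` put `h = 2^(-m)`, `b = 6m + 5K`, `c = 1/(20 k K b)`: `K (1/2)^b ≤ h^6`, and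
`h²/c = 4^(-m) 20 k K (6m + 5K) → 0`. Choose `m` with `C h²/c ≤ 1`, `30 h² < 8/k`, `h ≤ 1/100`; `c ≤ 1/(1000k)`. Let `N` be large and suppose `HH`. `G1m`: `χ₀`; `D1m` (`Wt` from
`C4b`): `b₀`; `E3x`: `SH`; `E4x`: `OneSign`; `E5a`, `E5b`: `sig ≤ N^(-τ/9)`. `RG.RC_char`, `RG.LV_char` (exponent `eps k/2`): `Sit`. `E6x`: contradiction.
-/

set_option autoImplicit false

open Finset
open Pool.Agent.Lib.GT (Rough pr V)
open Pool.Agent.Lib.MP_45349e_nt.LS (lam)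
open Pool.Agent.Lib.RG (RC LV rr SS PB sig)

namespace Pool.Agent.Lib.PQ

private theorem F3m_choose (k K : ℕ) (hk : 160 ≤ k) (hK : 50 ≤ K) (C : ℝ) (hC : 0 < C) :
    ∃ m : ℕ, C * (((1 / 2 : ℝ) ^ m) ^ 2 * (20 * k * K * ((6 * m + 5 * K : ℕ) : ℝ))) ≤ 1 ∧
      30 * ((1 / 2 : ℝ) ^ m) ^ 2 < 8 / k ∧ (1 / 2 : ℝ) ^ m ≤ 1 / 100 := by
  have hkr : (160 : ℝ) ≤ k := by exact_mod_cast hk
  have T1 : Filter.Tendsto (fun m : ℕ => (m : ℝ) * (1 / 4 : ℝ) ^ m) Filter.atTop (nhds 0) :=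
    tendsto_self_mul_const_pow_of_lt_one (by norm_num) (by norm_num)
  have T2 : Filter.Tendsto (fun m : ℕ => (1 / 4 : ℝ) ^ m) Filter.atTop (nhds 0) :=
    tendsto_pow_atTop_nhds_zero_of_lt_one (by norm_num) (by norm_num)
  have T3 : Filter.Tendsto (fun m : ℕ => (1 / 2 : ℝ) ^ m) Filter.atTop (nhds 0) :=
    tendsto_pow_atTop_nhds_zero_of_lt_one (by norm_num) (by norm_num)
  have T4 : Filter.Tendsto (fun m : ℕ => C * (20 * k * K) * (6 * ((m : ℝ) * (1 / 4 : ℝ) ^ m) +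
      5 * K * (1 / 4 : ℝ) ^ m)) Filter.atTop (nhds (C * (20 * k * K) * (6 * 0 + 5 * K * 0))) :=
    ((T1.const_mul 6).add (T2.const_mul (5 * (K : ℝ)))).const_mul _
  rw [show C * (20 * (k : ℝ) * K) * (6 * 0 + 5 * K * 0) = 0 by ring] at T4
  have T5 : Filter.Tendsto (fun m : ℕ => 30 * (1 / 4 : ℝ) ^ m) Filter.atTop (nhds (30 * 0)) :=
    T2.const_mul 30
  rw [mul_zero] at T5
  have h8 : (0 : ℝ) < 8 / k := by positivity
  obtain ⟨m, g1, g2, g3⟩ := ((T4.eventually_lt_const (show (0 : ℝ) < 1 by norm_num)).and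
    ((T5.eventually_lt_const h8).and (T3.eventually_lt_const (show (0 : ℝ) < 1 / 100 by norm_num)))).exists
  have e : ((1 / 2 : ℝ) ^ m) ^ 2 = (1 / 4 : ℝ) ^ m := by
    rw [← pow_mul, mul_comm, pow_mul]
    norm_num
  refine ⟨m, ?_, ?_, g3.le⟩
  · rw [e]
    push_cast
    refine le_trans (le_of_eq ?_) g1.le
    ring
  · rw [e]
    exact g2

theorem F3m (k : ℕ) (hk : 160 ≤ k) : ∃ c : ℝ, 0 < c ∧ c ≤ 1 ∧ ∃ N0 : ℕ, ∀ N : ℕ, N0 ≤ N → ∀ t : ℝ,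
    (t = 1 ∨ t = -1) → ¬ HH N (B1 k N) (pw N c) t := by
  classical
  obtain ⟨K1, hK1, H1⟩ := G1m
  obtain ⟨K4, hK4, H4⟩ := C4b
  obtain ⟨K3, hK3, C, hC, H3⟩ := E3x
  obtain ⟨K, hKdef⟩ : ∃ K, K = K1 + K4 + K3 + 50 := ⟨_, rfl⟩
  obtain ⟨m, hm1, hm2, hm3⟩ := F3m_choose k K hk (by omega) C hC
  have hkr : (160 : ℝ) ≤ k := by exact_mod_cast hk
  have hKr : (50 : ℝ) ≤ K := by exact_mod_cast (by omega : 50 ≤ K)
  obtain ⟨b, hb⟩ : ∃ b : ℕ, b = 6 * m + 5 * K := ⟨_, rfl⟩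
  have hb1 : 1 ≤ b := by omega
  have hbr : (1 : ℝ) ≤ b := by exact_mod_cast hb1
  obtain ⟨h, hh⟩ : ∃ h : ℝ, h = (1 / 2 : ℝ) ^ m := ⟨_, rfl⟩
  have h0 : 0 < h := by rw [hh]; positivity
  have hpos : (0 : ℝ) < 20 * k * K * b := by positivity
  obtain ⟨c, hcdef⟩ : ∃ c : ℝ, c = 1 / (20 * k * K * b) := ⟨_, rfl⟩
  have hc : 0 < c := by rw [hcdef]; positivity
  have hcK : c * (20 * k * K * b) = 1 := by
    rw [hcdef]
    exact one_div_mul_cancel hpos.ne'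
  have hKb : (K : ℝ) * (1 / 2) ^ b ≤ h ^ 6 := by
    have e1 : ((1 : ℝ) / 2) ^ b = h ^ 6 * (1 / 2) ^ (5 * K) := by
      rw [hb, pow_add, hh, ← pow_mul, mul_comm m 6]
    have e2 : (K : ℝ) * (1 / 2) ^ (5 * K) ≤ 1 := by
      have e3 : (K : ℝ) ≤ 2 ^ (5 * K) := by
        have e4 : K < 2 ^ K := Nat.lt_two_pow_self
        have e5 : 2 ^ K ≤ 2 ^ (5 * K) := Nat.pow_le_pow_right (by norm_num) (by omega)
        exact_mod_cast (e4.le.trans e5)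
      rw [one_div, inv_pow, ← div_eq_mul_inv, div_le_one (by positivity)]
      exact e3
    rw [e1]
    calc (K : ℝ) * (h ^ 6 * (1 / 2) ^ (5 * K)) = h ^ 6 * (K * (1 / 2) ^ (5 * K)) := by ring
      _ ≤ h ^ 6 * 1 := mul_le_mul_of_nonneg_left e2 (by positivity)
      _ = h ^ 6 := mul_one _
  have hmono : ∀ K' : ℕ, K' ≤ K → c * (20 * k * K' * b) ≤ 1 ∧ (K' : ℝ) * (1 / 2) ^ b ≤ h ^ 6 := by
    intro K' hK'
    have hr : (K' : ℝ) ≤ K := by exact_mod_cast hK'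
    constructor
    · rw [← hcK]
      refine mul_le_mul_of_nonneg_left ?_ hc.le
      refine mul_le_mul_of_nonneg_right ?_ (by positivity)
      exact mul_le_mul_of_nonneg_left hr (by positivity)
    · exact (mul_le_mul_of_nonneg_right hr (by positivity)).trans hKb
  have hh100 : h ≤ 1 / 100 := by rw [hh]; exact hm3
  have hh6 : h ^ 6 ≤ 1 / 4 := by
    calc h ^ 6 ≤ (1 / 100) ^ 6 := pow_le_pow_left₀ h0.le hh100 6
      _ ≤ 1 / 4 := by norm_num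
  have hCc : C * (h ^ 2 / c) ≤ 1 := by
    refine le_trans (le_of_eq ?_) hm1
    rw [hcdef, hh, hb]
    rw [div_div_eq_mul_div, div_one]
  have hc1000 : c ≤ 1 / (1000 * k) := by
    rw [le_div_iff₀ (by positivity)]
    rw [← hcK]
    have : (50 : ℝ) ≤ K * b := by nlinarith
    calc c * (1000 * k) = c * (20 * k) * 50 := by ring
      _ ≤ c * (20 * k) * (K * b) := mul_le_mul_of_nonneg_left this (by positivity)
      _ = _ := by ring
  have hc1 : c ≤ 1 := hc1000.trans (by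
    rw [div_le_one (by positivity)]
    nlinarith)
  have hst : 30 * h ^ 2 < 8 / k := by rw [hh]; exact hm2
  obtain ⟨n1, h1⟩ := H1 k b hk hb1 c h hc (hmono K1 (by omega)).1 h0 (hmono K1 (by omega)).2 hst
  obtain ⟨n2, h2⟩ := H4 k b hk hb1 c hc (hmono K4 (by omega)).1 ((hmono K4 (by omega)).2.trans hh6)
  obtain ⟨n3, h3⟩ := H3 k b hk hb1 c h hc (hmono K3 (by omega)).1 h0 hh100 (hmono K3 (by omega)).2 hCc
  obtain ⟨n4, h4⟩ := E4x k hk c hc hc1000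
  obtain ⟨n5, h5⟩ := E5a k hk c hc hc1000
  obtain ⟨n6, h6⟩ := E5b k hk c hc hc1000
  obtain ⟨n7, h7⟩ := E6x k hk c hc hc1000
  have heps : 0 < eps k := by unfold eps tau; positivity
  obtain ⟨κ, hκ, hS⟩ := Pool.Agent.Lib.RG.LV_char (eps k / 2) (by positivity)
  have hev : ∀ᶠ N : ℕ in Filter.atTop, (N : ℝ) ^ (-(eps k / 2)) ≤ κ := by
    have t1 : Filter.Tendsto (fun x : ℝ => x ^ (-(eps k / 2))) Filter.atTop (nhds 0) :=
      tendsto_rpow_neg_atTop (by positivity)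
    exact (t1.comp tendsto_natCast_atTop_atTop).eventually_le_const hκ
  obtain ⟨n8, h8⟩ := Filter.eventually_atTop.mp hev
  refine ⟨c, hc, hc1, n1 + n2 + n3 + n4 + n5 + n6 + n7 + n8 + 2, ?_⟩
  intro N hN t ht hH
  haveI : NeZero N := ⟨by omega⟩
  obtain ⟨χ, hne, hχ2, him, hl, hA, hr⟩ := h1 N (by omega) t ht hH
  obtain ⟨hWt, -⟩ := h2 N (by omega)
  obtain ⟨b₀, hb₀, hBd⟩ := D1m (by omega : 2 ≤ N) hWt χ hne hχ2 h him hl
  have hSH := h3 N (by omega) t ht hH χ hne hχ2 hA hr b₀ hb₀ hBd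
  have hRC := Pool.Agent.Lib.RG.RC_char N (by omega) χ hχ2 hne
  have hOS := h4 N (by omega) _ hRC b₀ hSH
  obtain ⟨s, hs⟩ := h5 N (by omega) _ hRC hOS
  have hsig := h6 N (by omega) _ hRC s hs
  obtain ⟨L, hLV, hL⟩ := hS N (by omega) χ hχ2 hne
  have hSit : Sit k N (fun n => (χ (n : ZMod N)).re) L := by
    refine ⟨hRC, hLV, ?_⟩
    have hNr : (0 : ℝ) < N := by exact_mod_cast (by omega : 0 < N)
    have e1 : (N : ℝ) ^ (-eps k) = (N : ℝ) ^ (-(eps k / 2)) * (N : ℝ) ^ (-(eps k / 2)) := by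
      rw [← Real.rpow_add hNr]
      congr 1
      ring
    rw [e1]
    refine le_trans ?_ hL
    exact mul_le_mul_of_nonneg_right (h8 N (by omega)) (Real.rpow_nonneg hNr.le _)
  exact absurd hsig (not_le.mpr (h7 N (by omega) _ L hSit))

end Pool.Agent.Lib.PQ
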