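import Pool.Agent.Lib.MP_7b7e48_nt.PQ.F3m

/-!
# FIN (60 minutes): the theorem

PROOF. Replace `e` by `min e d`. Choose `k` with `8 (1 + d)/k ≤ e/16`, `c` from `F3m`. For `1 ≤ j ≤ J = ⌊N^(d - e/4)⌋` apply `F3m` to `N' = j N`,
`t = -(-1)^i`: there are a prime `p ∈ (N', B1 k N']` and a rough `b ∈ (N', B1 k N']` with `p + b = k' j N`, `lam b ≠ t`, so `lam b = (-1)^i`;
`k' ≤ 2 N'^(8/k) ≤ N^(e/8)`. The number `k' j ≤ N^d` is counted, and every value `k' j` comes from at most `N^(e/8)` values `j` (`j` is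
determined by `k'`), so there are `≥ J/N^(e/8) ≥ N^(d - e)` of them. Every prime factor `q` of `b` is `> N'^c ≥ N^c`, so `q^C > N` for
`C ≥ 1/c`, and `N^(c Ω(b)) ≤ b ≤ N'^2 ≤ N^(2(1+d))`, so `Ω(b) ≤ 2 (1+d)/c ≤ C`.
-/

set_option autoImplicit false

open Finset
open Pool.Agent.Lib.GT (Rough pr V)
open Pool.Agent.Lib.MP_45349e_nt.LS (lam)
open Pool.Agent.Lib.RG (RC LV rr SS PB sig)

namespace Pool.Agent.Lib.PQ

private theorem FIN_list (y : ℝ) (hy : 0 ≤ y) : ∀ l : List ℕ, (∀ q ∈ l, y ≤ (q : ℝ)) →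
    y ^ l.length ≤ ((l.prod : ℕ) : ℝ) := by
  intro l
  induction l with
  | nil => intro _; simp
  | cons a l ih =>
    intro h
    have h1 := ih fun q hq => h q (List.mem_cons_of_mem _ hq)
    have h2 := h a List.mem_cons_self
    rw [List.length_cons, List.prod_cons, pow_succ, mul_comm, Nat.cast_mul]
    exact mul_le_mul h2 h1 (pow_nonneg hy _) (hy.trans h2)

private theorem FIN_omega {y : ℝ} (hy : 0 ≤ y) {b : ℕ} (hb : b ≠ 0) (h : ∀ q : ℕ, q.Prime → q ∣ b → y ≤ (q : ℝ)) :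
    y ^ ArithmeticFunction.cardFactors b ≤ (b : ℝ) := by
  have h1 := FIN_list y hy b.primeFactorsList fun q hq =>
    h q (Nat.prime_of_mem_primeFactorsList hq) (Nat.dvd_of_mem_primeFactorsList hq)
  rwa [Nat.prod_primeFactorsList hb] at h1

/-- one value of `j` -/
private theorem FIN_one {k : ℕ} (hk : 160 ≤ k) {c : ℝ} (hc : 0 < c) {M C : ℕ} (hM : 2 ≤ M) (hC : 2 / c ≤ C)
    (i : ℕ) (h : ¬ HH M (B1 k M) (pw M c) (-(-1) ^ i)) :
    ∃ p b r : ℕ, p.Prime ∧ M < p ∧ M < b ∧ p + b = r * M ∧ 1 ≤ r ∧ (r : ℝ) ≤ 2 * (M : ℝ) ^ ((8 : ℝ) / k) ∧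
      ArithmeticFunction.cardFactors b ≤ C ∧ ArithmeticFunction.cardFactors b % 2 = i % 2 ∧
      ∀ q : ℕ, q.Prime → q ∣ b → (M : ℝ) ^ c < q := by
  unfold HH at h
  push Not at h
  obtain ⟨p, b, hp, hp1, hp2, hb1, hb2, hr, hd, hl⟩ := h
  have hM0 : (0 : ℝ) < M := by exact_mod_cast (by omega : 0 < M)
  have hM1 : (1 : ℝ) < M := by exact_mod_cast (by omega : 1 < M)
  have hkr : (160 : ℝ) ≤ k := by exact_mod_cast hk
  obtain ⟨r, hr'⟩ := hd
  have hB : ((B1 k M : ℕ) : ℝ) ≤ (M : ℝ) ^ ((1 : ℝ) + 8 / k) := Nat.floor_le (by positivity)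
  have hq : ∀ q : ℕ, q.Prime → q ∣ b → (M : ℝ) ^ c < q := by
    intro q hq1 hq2
    have := hr q hq1 hq2
    exact (Nat.floor_lt (by positivity)).mp this
  have hr1 : 1 ≤ r := by
    rcases Nat.eq_zero_or_pos r with h0 | h0
    · rw [h0, mul_zero] at hr'; omega
    · exact h0
  refine ⟨p, b, r, hp, hp1, hb1, by rw [hr', mul_comm], hr1, ?_, ?_, ?_, hq⟩
  · have e1 : (r : ℝ) * M ≤ 2 * (M : ℝ) ^ ((1 : ℝ) + 8 / k) := by
      have : ((p + b : ℕ) : ℝ) = (M : ℝ) * r := by rw [hr']; push_cast; ring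
      push_cast at this
      have h1 : (p : ℝ) ≤ B1 k M := by exact_mod_cast hp2
      have h2 : (b : ℝ) ≤ B1 k M := by exact_mod_cast hb2
      nlinarith
    rw [Real.rpow_add hM0, Real.rpow_one] at e1
    have e2 : (r : ℝ) * M ≤ (2 * (M : ℝ) ^ ((8 : ℝ) / k)) * M := by
      refine e1.trans (le_of_eq ?_)
      ring
    exact le_of_mul_le_mul_right e2 hM0
  · have e1 := FIN_omega (y := (M : ℝ) ^ c) (by positivity) (by omega : b ≠ 0) fun q h1 h2 => (hq q h1 h2).le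
    have e2 : (b : ℝ) ≤ (M : ℝ) ^ (2 : ℝ) := by
      have h2 : (b : ℝ) ≤ B1 k M := by exact_mod_cast hb2
      refine (h2.trans hB).trans (Real.rpow_le_rpow_of_exponent_le hM1.le ?_)
      have : (8 : ℝ) / k ≤ 1 := by
        rw [div_le_one (by positivity)]; linarith
      linarith
    have e3 : (M : ℝ) ^ (c * (ArithmeticFunction.cardFactors b : ℝ)) ≤ (M : ℝ) ^ (2 : ℝ) := by
      rw [Real.rpow_mul hM0.le, Real.rpow_natCast]
      exact e1.trans e2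
    have e4 := (Real.rpow_le_rpow_left_iff hM1).mp e3
    have e5 : (ArithmeticFunction.cardFactors b : ℝ) ≤ C := by
      refine le_trans ?_ hC
      rw [le_div_iff₀ hc]
      linarith
    exact_mod_cast e5
  · have e1 : lam b = (-1) ^ (ArithmeticFunction.cardFactors b) := rfl
    rw [e1] at hl
    rcases Nat.even_or_odd (ArithmeticFunction.cardFactors b) with h1 | h1 <;>
      rcases Nat.even_or_odd i with h2 | h2
    · rw [Nat.even_iff] at h1 h2; omega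
    · rw [h1.neg_one_pow, h2.neg_one_pow] at hl
      norm_num at hl
    · rw [h1.neg_one_pow, h2.neg_one_pow] at hl
      norm_num at hl
    · rw [Nat.odd_iff] at h1 h2; omega

private theorem FIN_num (x : ℝ) (hx : 0 < x) (T : ℝ) : ∃ n : ℕ, ∀ N : ℕ, n ≤ N → T ≤ (N : ℝ) ^ x :=
  Filter.eventually_atTop.mp
    (((tendsto_rpow_atTop hx).comp tendsto_natCast_atTop_atTop).eventually_ge_atTop T)

open Classical in
theorem FIN (d e : ℝ) (hd : 0 < d) (he : 0 < e) : ∃ C N0 : ℕ, ∀ N : ℕ, N0 ≤ N → ∀ i : ℕ,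
    (N : ℝ) ^ (d - e) ≤ (((Finset.Icc 1 ⌊(N : ℝ) ^ d⌋₊).filter fun k => ∃ p b : ℕ, p.Prime ∧ N < p ∧
      N < b ∧ p + b = k * N ∧ ArithmeticFunction.cardFactors b ≤ C ∧
      ArithmeticFunction.cardFactors b % 2 = i % 2 ∧ ∀ q : ℕ, q.Prime → q ∣ b → N < q ^ C).card : ℝ) := by
  obtain ⟨e1, he1⟩ : ∃ e1 : ℝ, e1 = min e d := ⟨_, rfl⟩
  have he10 : 0 < e1 := by rw [he1]; exact lt_min he hd
  have he1e : e1 ≤ e := by rw [he1]; exact min_le_left _ _
  have he1d : e1 ≤ d := by rw [he1]; exact min_le_right _ _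
  obtain ⟨k0, hk0⟩ := exists_nat_ge (8 * (1 + d) * 16 / e1)
  obtain ⟨k, hkd⟩ : ∃ k : ℕ, k = k0 + 160 := ⟨_, rfl⟩
  have hk : 160 ≤ k := by omega
  have hkr : (160 : ℝ) ≤ k := by exact_mod_cast hk
  have hk1 : (1 + d) * (8 / k) ≤ e1 / 16 := by
    have h1 : 8 * (1 + d) * 16 / e1 ≤ k := by
      refine hk0.trans ?_
      rw [hkd]; push_cast; linarith
    rw [div_le_iff₀ he10] at h1
    rw [mul_div_assoc', div_le_div_iff₀ (by positivity) (by norm_num)]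
    linarith
  obtain ⟨c, hc, hc1, n0, hF⟩ := F3m k hk
  obtain ⟨C, hCd⟩ : ∃ C : ℕ, C = ⌈2 / c⌉₊ := ⟨_, rfl⟩
  have hC : 2 / c ≤ C := by rw [hCd]; exact Nat.le_ceil _
  obtain ⟨n1, h1⟩ := FIN_num (e1 / 16) (by positivity) 2
  obtain ⟨n2, h2⟩ := FIN_num (d - e1 / 4) (by linarith) 1
  refine ⟨C, n0 + n1 + n2 + 2, ?_⟩
  intro N hN i
  have hN0 : (0 : ℝ) < N := by exact_mod_cast (by omega : 0 < N)
  have hN1 : (1 : ℝ) < N := by exact_mod_cast (by omega : 1 < N)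
  have g1 := h1 N (by omega)
  have g2 := h2 N (by omega)
  obtain ⟨J, hJ⟩ : ∃ J : ℕ, J = ⌊(N : ℝ) ^ (d - e1 / 4)⌋₊ := ⟨_, rfl⟩
  have hJle : (J : ℝ) ≤ (N : ℝ) ^ (d - e1 / 4) := by rw [hJ]; exact Nat.floor_le (by positivity)
  have hJge : (N : ℝ) ^ (d - e1 / 4) / 2 ≤ J := by
    have h3 : (N : ℝ) ^ (d - e1 / 4) < J + 1 := by rw [hJ]; exact Nat.lt_floor_add_one _
    have h4 : (1 : ℝ) ≤ J := by
      have : 1 ≤ J := by rw [hJ]; exact Nat.le_floor (by simpa using g2)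
      exact_mod_cast this
    linarith
  have key : ∀ j : ℕ, j ∈ Finset.Icc 1 J → ∃ r : ℕ, 1 ≤ r ∧ (r : ℝ) ≤ (N : ℝ) ^ (e1 / 8) ∧
      ∃ p b : ℕ, p.Prime ∧ N < p ∧ N < b ∧ p + b = r * j * N ∧ ArithmeticFunction.cardFactors b ≤ C ∧
      ArithmeticFunction.cardFactors b % 2 = i % 2 ∧ ∀ q : ℕ, q.Prime → q ∣ b → N < q ^ C := by
    intro j hj
    rw [mem_Icc] at hj
    have hjN : N ≤ j * N := Nat.le_mul_of_pos_left N hj.1
    have hneg : (-(-1 : ℝ) ^ i = 1 ∨ -(-1 : ℝ) ^ i = -1) := by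
      rcases Nat.even_or_odd i with h3 | h3
      · right; rw [h3.neg_one_pow]
      · left; rw [h3.neg_one_pow]; norm_num
    obtain ⟨p, b, r, hp, hp1, hb1, hs, hr1, hr2, hO1, hO2, hq⟩ := FIN_one (M := j * N) (C := C) hk hc (by omega) hC i
      (hF (j * N) (by omega) _ hneg)
    have hMle : ((j * N : ℕ) : ℝ) ≤ (N : ℝ) ^ (1 + d) := by
      push_cast
      have h3 : (j : ℝ) ≤ (N : ℝ) ^ d := by
        have h4 : (j : ℝ) ≤ J := by exact_mod_cast hj.2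
        refine (h4.trans hJle).trans (Real.rpow_le_rpow_of_exponent_le hN1.le (by linarith))
      rw [Real.rpow_add hN0, Real.rpow_one, mul_comm]
      exact mul_le_mul_of_nonneg_left h3 hN0.le
    refine ⟨r, hr1, ?_, p, b, hp, by omega, by omega, by rw [hs, mul_assoc], hO1, hO2, ?_⟩
    · have h3 : ((j * N : ℕ) : ℝ) ^ ((8 : ℝ) / k) ≤ (N : ℝ) ^ (e1 / 16) := by
        calc ((j * N : ℕ) : ℝ) ^ ((8 : ℝ) / k) ≤ ((N : ℝ) ^ (1 + d)) ^ ((8 : ℝ) / k) :=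
              Real.rpow_le_rpow (Nat.cast_nonneg _) hMle (by positivity)
          _ = (N : ℝ) ^ ((1 + d) * (8 / k)) := by rw [← Real.rpow_mul hN0.le]
          _ ≤ _ := Real.rpow_le_rpow_of_exponent_le hN1.le hk1
      calc (r : ℝ) ≤ 2 * ((j * N : ℕ) : ℝ) ^ ((8 : ℝ) / k) := hr2
        _ ≤ (N : ℝ) ^ (e1 / 16) * (N : ℝ) ^ (e1 / 16) := mul_le_mul g1 h3 (by positivity) (by positivity)
        _ = (N : ℝ) ^ (e1 / 8) := by rw [← Real.rpow_add hN0]; congr 1; ring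
    · intro q hq1 hq2
      have h3 := hq q hq1 hq2
      have h4 : (N : ℝ) ^ c < q := by
        refine lt_of_le_of_lt (Real.rpow_le_rpow hN0.le ?_ hc.le) h3
        exact_mod_cast hjN
      have h5 : (N : ℝ) < (q : ℝ) ^ C := by
        have hC0 : C ≠ 0 := by
          rintro h0
          rw [h0, Nat.cast_zero] at hC
          have : (0 : ℝ) < 2 / c := by positivity
          linarith
        calc (N : ℝ) = (N : ℝ) ^ (1 : ℝ) := (Real.rpow_one _).symm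
          _ ≤ (N : ℝ) ^ (c * C) := by
              refine Real.rpow_le_rpow_of_exponent_le hN1.le ?_
              rw [div_le_iff₀ hc] at hC
              linarith
          _ = ((N : ℝ) ^ c) ^ C := by rw [Real.rpow_mul hN0.le, Real.rpow_natCast]
          _ < (q : ℝ) ^ C := pow_lt_pow_left₀ h4 (by positivity) hC0
      exact_mod_cast h5
  choose! r hr1 hr2 hr3 using key
  set S := (Finset.Icc 1 ⌊(N : ℝ) ^ d⌋₊).filter fun k => ∃ p b : ℕ, p.Prime ∧ N < p ∧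
      N < b ∧ p + b = k * N ∧ ArithmeticFunction.cardFactors b ≤ C ∧
      ArithmeticFunction.cardFactors b % 2 = i % 2 ∧ ∀ q : ℕ, q.Prime → q ∣ b → N < q ^ C with hS
  have himg : (Finset.Icc 1 J).image (fun j => r j * j) ⊆ S := by
    intro x hx
    obtain ⟨j, hj, rfl⟩ := mem_image.mp hx
    rw [hS, mem_filter, mem_Icc]
    have hj' := mem_Icc.mp hj
    refine ⟨⟨Nat.mul_pos (hr1 j hj) hj'.1, ?_⟩, hr3 j hj⟩
    refine Nat.le_floor ?_
    push_cast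
    have h4 : (j : ℝ) ≤ (N : ℝ) ^ (d - e1 / 4) := le_trans (by exact_mod_cast hj'.2) hJle
    calc (r j : ℝ) * j ≤ (N : ℝ) ^ (e1 / 8) * (N : ℝ) ^ (d - e1 / 4) :=
          mul_le_mul (hr2 j hj) h4 (Nat.cast_nonneg _) (by positivity)
      _ = (N : ℝ) ^ (e1 / 8 + (d - e1 / 4)) := by rw [← Real.rpow_add hN0]
      _ ≤ (N : ℝ) ^ d := Real.rpow_le_rpow_of_exponent_le hN1.le (by linarith)
  have hfib := Finset.card_le_mul_card_image (f := fun j => r j * j) (Finset.Icc 1 J) ⌊(N : ℝ) ^ (e1 / 8)⌋₊ (by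
    intro a _
    have hinj : Set.InjOn r (((Finset.Icc 1 J).filter fun j => r j * j = a : Finset ℕ) : Set ℕ) := by
      intro x hx y hy hxy
      rw [mem_coe, mem_filter] at hx hy
      have h3 : r x * x = r x * y := by rw [hx.2, hxy, hy.2]
      exact Nat.eq_of_mul_eq_mul_left (hr1 x hx.1) h3
    calc ((Finset.Icc 1 J).filter fun j => r j * j = a).card
        = (((Finset.Icc 1 J).filter fun j => r j * j = a).image r).card := (card_image_of_injOn hinj).symm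
      _ ≤ (Finset.Icc 1 ⌊(N : ℝ) ^ (e1 / 8)⌋₊).card := by
          refine card_le_card ?_
          intro x hx
          obtain ⟨j, hj, rfl⟩ := mem_image.mp hx
          have hj' := (mem_filter.mp hj).1
          rw [mem_Icc]
          exact ⟨hr1 j hj', Nat.le_floor (hr2 j hj')⟩
      _ = _ := by simp)
  have h5 : (J : ℝ) ≤ (N : ℝ) ^ (e1 / 8) * (S.card : ℝ) := by
    have h6 : J ≤ ⌊(N : ℝ) ^ (e1 / 8)⌋₊ * S.card := by
      have h7 := hfib.trans (Nat.mul_le_mul_left _ (card_le_card himg))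
      simpa using h7
    calc (J : ℝ) ≤ ((⌊(N : ℝ) ^ (e1 / 8)⌋₊ * S.card : ℕ) : ℝ) := by exact_mod_cast h6
      _ = (⌊(N : ℝ) ^ (e1 / 8)⌋₊ : ℝ) * (S.card : ℝ) := by push_cast; rfl
      _ ≤ _ := mul_le_mul_of_nonneg_right (Nat.floor_le (by positivity)) (Nat.cast_nonneg _)
  have h6 : (N : ℝ) ^ (e1 / 8) * (N : ℝ) ^ (d - e1) ≤ (N : ℝ) ^ (e1 / 8) * (S.card : ℝ) := by
    refine le_trans ?_ h5
    refine le_trans ?_ hJge
    rw [le_div_iff₀ (by norm_num : (0 : ℝ) < 2), ← Real.rpow_add hN0]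
    calc (N : ℝ) ^ (e1 / 8 + (d - e1)) * 2 ≤ (N : ℝ) ^ (e1 / 8 + (d - e1)) * (N : ℝ) ^ (e1 / 16) :=
          mul_le_mul_of_nonneg_left g1 (by positivity)
      _ = (N : ℝ) ^ (e1 / 8 + (d - e1) + e1 / 16) := by rw [← Real.rpow_add hN0]
      _ ≤ _ := Real.rpow_le_rpow_of_exponent_le hN1.le (by linarith)
  have h7 : (N : ℝ) ^ (d - e1) ≤ (S.card : ℝ) := le_of_mul_le_mul_left h6 (by positivity)
  exact (Real.rpow_le_rpow_of_exponent_le hN1.le (by linarith)).trans h7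

end Pool.Agent.Lib.PQ
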