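import Pool.Agent.Lib.MP_7b7e48_nt.PQ.F3s

/-!
# FINs: the theorem with a positive proportion of the primes

PROOF. By `F3s` (for the complement of the good primes) more than `#QQ / k` of the primes `p ∈ (M, B1 k M]` are GOOD for the modulus `M`:
there is a rough `b ∈ (M, B1 k M]` with `p + b = r M`, `lam b ≠ t`. First part: `M = j N`, `j ≤ N^(d - e/4)`; one value `r ≤ 2 M^(8/k)`
belongs to at least `M / (8 k log M)` good primes, so `K = r j` has that many representations; the values `K` are counted as in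
`FIN`. Second part: `M = j N` with `j = ⌊N^θ / 2⌋`, `1 + θ = (1 + d)/(1 + 8/k)`: all good primes for `M` are `≤ N^(1+d)`, and
`p + b ≤ N^(1+d)`.
-/

set_option autoImplicit false

open Finset
open Pool.Agent.Lib.GT (Rough pr V)
open Pool.Agent.Lib.MP_45349e_nt.LS (lam)
open Pool.Agent.Lib.RG (RC LV rr SS PB sig)

namespace Pool.Agent.Lib.PQ

/-- the primes `p` of the representations `K N = p + b` with the required properties (`b = K N - p`) -/
def Good (C N i K p : ℕ) : Prop := p.Prime ∧ N < p ∧ N < K * N - p ∧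
  ArithmeticFunction.cardFactors (K * N - p) ≤ C ∧
  ArithmeticFunction.cardFactors (K * N - p) % 2 = i % 2 ∧ ∀ q : ℕ, q.Prime → q ∣ K * N - p → N < q ^ C

private theorem FINs_list (y : ℝ) (hy : 0 ≤ y) : ∀ l : List ℕ, (∀ q ∈ l, y ≤ (q : ℝ)) →
    y ^ l.length ≤ ((l.prod : ℕ) : ℝ) := by
  intro l
  induction l with
  | nil => intro _; simp
  | cons a l ih =>
    intro h
    have h1 := ih fun q hq => h q (List.mem_cons_of_mem _ hq)
    have h2 := h a List.mem_cons_self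
    rw [List.length_cons, List.prod_cons, pow_succ, mul_comm, Nat.cast_mul]
    exact mul_le_mul h2 h1 (pow_nonneg hy _) (hy.trans h2)

private theorem FINs_omega {y : ℝ} (hy : 0 ≤ y) {b : ℕ} (hb : b ≠ 0) (h : ∀ q : ℕ, q.Prime → q ∣ b → y ≤ (q : ℝ)) :
    y ^ ArithmeticFunction.cardFactors b ≤ (b : ℝ) := by
  have h1 := FINs_list y hy b.primeFactorsList fun q hq =>
    h q (Nat.prime_of_mem_primeFactorsList hq) (Nat.dvd_of_mem_primeFactorsList hq)
  rwa [Nat.prod_primeFactorsList hb] at h1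

/-- the properties of `b` -/
private theorem FINs_b {k : ℕ} (hk : 160 ≤ k) {c : ℝ} (hc : 0 < c) {M C : ℕ} (hM : 2 ≤ M) (hC : 2 / c ≤ C)
    (i : ℕ) {p b : ℕ} (hp2 : p ≤ B1 k M) (hb1 : M < b) (hb2 : b ≤ B1 k M)
    (hr : Rough (pw M c) b) (hd : M ∣ p + b) (hl : lam b ≠ -(-1) ^ i) :
    ∃ r : ℕ, p + b = r * M ∧ 1 ≤ r ∧ (r : ℝ) ≤ 2 * (M : ℝ) ^ ((8 : ℝ) / k) ∧
      ArithmeticFunction.cardFactors b ≤ C ∧ ArithmeticFunction.cardFactors b % 2 = i % 2 ∧
      ∀ q : ℕ, q.Prime → q ∣ b → (M : ℝ) ^ c < q := by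
  have hM0 : (0 : ℝ) < M := by exact_mod_cast (by omega : 0 < M)
  have hM1 : (1 : ℝ) < M := by exact_mod_cast (by omega : 1 < M)
  have hkr : (160 : ℝ) ≤ k := by exact_mod_cast hk
  obtain ⟨r, hr'⟩ := hd
  have hB : ((B1 k M : ℕ) : ℝ) ≤ (M : ℝ) ^ ((1 : ℝ) + 8 / k) := Nat.floor_le (by positivity)
  have hq : ∀ q : ℕ, q.Prime → q ∣ b → (M : ℝ) ^ c < q := by
    intro q hq1 hq2
    have := hr q hq1 hq2
    exact (Nat.floor_lt (by positivity)).mp this
  have hr1 : 1 ≤ r := by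
    rcases Nat.eq_zero_or_pos r with h0 | h0
    · rw [h0, mul_zero] at hr'; omega
    · exact h0
  refine ⟨r, by rw [hr', mul_comm], hr1, ?_, ?_, ?_, hq⟩
  · have e1 : (r : ℝ) * M ≤ 2 * (M : ℝ) ^ ((1 : ℝ) + 8 / k) := by
      have : ((p + b : ℕ) : ℝ) = (M : ℝ) * r := by rw [hr']; push_cast; ring
      push_cast at this
      have h1 : (p : ℝ) ≤ B1 k M := by exact_mod_cast hp2
      have h2 : (b : ℝ) ≤ B1 k M := by exact_mod_cast hb2
      nlinarith
    rw [Real.rpow_add hM0, Real.rpow_one] at e1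
    have e2 : (r : ℝ) * M ≤ (2 * (M : ℝ) ^ ((8 : ℝ) / k)) * M := by
      refine e1.trans (le_of_eq ?_)
      ring
    exact le_of_mul_le_mul_right e2 hM0
  · have e1 := FINs_omega (y := (M : ℝ) ^ c) (by positivity) (by omega : b ≠ 0) fun q h1 h2 => (hq q h1 h2).le
    have e2 : (b : ℝ) ≤ (M : ℝ) ^ (2 : ℝ) := by
      have h2 : (b : ℝ) ≤ B1 k M := by exact_mod_cast hb2
      refine (h2.trans hB).trans (Real.rpow_le_rpow_of_exponent_le hM1.le ?_)
      have : (8 : ℝ) / k ≤ 1 := by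
        rw [div_le_one (by positivity)]; linarith
      linarith
    have e3 : (M : ℝ) ^ (c * (ArithmeticFunction.cardFactors b : ℝ)) ≤ (M : ℝ) ^ (2 : ℝ) := by
      rw [Real.rpow_mul hM0.le, Real.rpow_natCast]
      exact e1.trans e2
    have e4 := (Real.rpow_le_rpow_left_iff hM1).mp e3
    have e5 : (ArithmeticFunction.cardFactors b : ℝ) ≤ C := by
      refine le_trans ?_ hC
      rw [le_div_iff₀ hc]
      linarith
    exact_mod_cast e5
  · have e1 : lam b = (-1) ^ (ArithmeticFunction.cardFactors b) := rfl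
    rw [e1] at hl
    rcases Nat.even_or_odd (ArithmeticFunction.cardFactors b) with h1 | h1 <;>
      rcases Nat.even_or_odd i with h2 | h2
    · rw [Nat.even_iff] at h1 h2; omega
    · rw [h1.neg_one_pow, h2.neg_one_pow] at hl
      norm_num at hl
    · rw [h1.neg_one_pow, h2.neg_one_pow] at hl
      norm_num at hl
    · rw [Nat.odd_iff] at h1 h2; omega

/-- many good primes for the modulus `M` -/
private theorem FINs_many {k : ℕ} (hk : 160 ≤ k) {c : ℝ} (hc : 0 < c) {M C : ℕ} (hM : 2 ≤ M) (hC : 2 / c ≤ C)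
    (i : ℕ) (hF : ∀ P : Finset ℕ, PS k M P → ¬ HP M (B1 k M) (pw M c) P (-(-1) ^ i))
    (hQ : (B1 k M : ℝ) / (2 * Real.log M) ≤ (QQ k M).card) :
    ∃ G : Finset ℕ, G ⊆ QQ k M ∧ (M : ℝ) ^ ((1 : ℝ) + 8 / k) / (4 * k * Real.log M) ≤ G.card ∧
      ∀ p ∈ G, ∃ b r : ℕ, M < b ∧ b ≤ B1 k M ∧ p + b = r * M ∧ 1 ≤ r ∧ (r : ℝ) ≤ 2 * (M : ℝ) ^ ((8 : ℝ) / k) ∧
        ArithmeticFunction.cardFactors b ≤ C ∧ ArithmeticFunction.cardFactors b % 2 = i % 2 ∧
        ∀ q : ℕ, q.Prime → q ∣ b → (M : ℝ) ^ c < q := by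
  classical
  have hkr : (160 : ℝ) ≤ k := by exact_mod_cast hk
  have hM1 : (1 : ℝ) < M := by exact_mod_cast (by omega : 1 < M)
  have hlog : 0 < Real.log M := Real.log_pos hM1
  set G : Finset ℕ := (QQ k M).filter fun p => ∃ b : ℕ, M < b ∧ b ≤ B1 k M ∧ Rough (pw M c) b ∧ M ∣ p + b ∧
    lam b ≠ -(-1) ^ i with hG
  have hGs : G ⊆ QQ k M := filter_subset _ _
  refine ⟨G, hGs, ?_, ?_⟩
  · have h1 : ((QQ k M).card : ℝ) / k ≤ G.card := by
      by_contra hcon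
      push Not at hcon
      refine hF (QQ k M \ G) ⟨sdiff_subset, ?_⟩ ?_
      · rw [card_sdiff_of_subset hGs, Nat.cast_sub (card_le_card hGs)]
        have : (1 - 1 / (k : ℝ)) * (QQ k M).card = (QQ k M).card - (QQ k M).card / k := by ring
        rw [this]
        linarith
      · intro p hp b hb1 hb2 hr hd
        by_contra hl
        rw [mem_sdiff] at hp
        exact hp.2 (mem_filter.mpr ⟨hp.1, b, hb1, hb2, hr, hd, hl⟩)
    refine le_trans ?_ h1
    have h2 : (M : ℝ) ^ ((1 : ℝ) + 8 / k) / 2 ≤ B1 k M := by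
      have h3 : (1 : ℝ) ≤ (M : ℝ) ^ ((1 : ℝ) + 8 / k) := Real.one_le_rpow hM1.le (by positivity)
      have h4 : (M : ℝ) ^ ((1 : ℝ) + 8 / k) < (B1 k M : ℝ) + 1 := Nat.lt_floor_add_one _
      have h5 : (1 : ℝ) ≤ B1 k M := by
        have : 1 ≤ B1 k M := Nat.le_floor (by simpa using h3)
        exact_mod_cast this
      linarith
    have h6 : (M : ℝ) ^ ((1 : ℝ) + 8 / k) / (4 * k * Real.log M) =
        (M : ℝ) ^ ((1 : ℝ) + 8 / k) / 2 / (2 * Real.log M) / k := by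
      field_simp
      norm_num
    rw [h6]
    refine div_le_div_of_nonneg_right ?_ (by positivity)
    exact (div_le_div_of_nonneg_right h2 (by positivity)).trans hQ
  · intro p hp
    rw [hG, mem_filter] at hp
    obtain ⟨hp1, b, hb1, hb2, hr, hd, hl⟩ := hp
    unfold QQ at hp1
    rw [mem_filter, mem_Ioc] at hp1
    obtain ⟨r, h⟩ := FINs_b hk hc hM hC i hp1.1.2 hb1 hb2 hr hd hl
    exact ⟨b, r, hb1, hb2, h⟩

/-- one value of `r` has many good primes -/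
private theorem FINs_pigeon {G : Finset ℕ} {R : ℕ} (f : ℕ → ℕ) (hf : ∀ p ∈ G, f p ∈ Finset.Icc 1 R) (hG : G.Nonempty) :
    ∃ r ∈ Finset.Icc 1 R, G.card ≤ R * (G.filter fun p => f p = r).card := by
  classical
  by_contra hcon
  push Not at hcon
  have hR : (Finset.Icc 1 R).Nonempty := by
    obtain ⟨p, hp⟩ := hG
    exact ⟨_, hf p hp⟩
  have h1 : G.card = ∑ r ∈ Finset.Icc 1 R, (G.filter fun p => f p = r).card :=
    Finset.card_eq_sum_card_fiberwise hf
  have h2 : R * G.card = ∑ r ∈ Finset.Icc 1 R, R * (G.filter fun p => f p = r).card := by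
    rw [← mul_sum, ← h1]
  have h3 : ∑ r ∈ Finset.Icc 1 R, R * (G.filter fun p => f p = r).card < ∑ _r ∈ Finset.Icc 1 R, G.card :=
    sum_lt_sum_of_nonempty hR fun r hr => hcon r hr
  rw [sum_const, Nat.card_Icc, smul_eq_mul, Nat.add_sub_cancel, ← h2] at h3
  exact lt_irrefl _ h3

private theorem FINs_num (x : ℝ) (hx : 0 < x) (T : ℝ) : ∃ n : ℕ, ∀ N : ℕ, n ≤ N → T ≤ (N : ℝ) ^ x :=
  Filter.eventually_atTop.mp
    (((tendsto_rpow_atTop hx).comp tendsto_natCast_atTop_atTop).eventually_ge_atTop T)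

private theorem FINs_log (a K : ℝ) (ha : 0 < a) (hK : 0 < K) : ∃ N0 : ℕ, ∀ N : ℕ, N0 ≤ N →
    K * Real.log N ≤ (N : ℝ) ^ a := by
  have h1 := (isLittleO_log_rpow_atTop ha).def (c := 1 / K) (by positivity)
  have h3 := (tendsto_natCast_atTop_atTop (R := ℝ)).eventually h1
  obtain ⟨N0, h4⟩ := Filter.eventually_atTop.mp h3
  refine ⟨N0, fun N hN => ?_⟩
  have h5 := h4 N hN
  rw [Real.norm_of_nonneg (Real.log_natCast_nonneg N), Real.norm_of_nonneg (by positivity)] at h5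
  rw [one_div, inv_mul_eq_div, le_div_iff₀ hK] at h5
  linarith

/-- the properties with respect to `N` when `M = j N` -/
private theorem FINs_good {c : ℝ} (hc : 0 < c) {N j C i : ℕ} (hN : 2 ≤ N) (hj : 1 ≤ j) (hC : 2 / c ≤ C) {p b r : ℕ}
    (hp : p.Prime) (hp1 : j * N < p) (hb1 : j * N < b) (hs : p + b = r * (j * N))
    (hO1 : ArithmeticFunction.cardFactors b ≤ C) (hO2 : ArithmeticFunction.cardFactors b % 2 = i % 2)
    (hq : ∀ q : ℕ, q.Prime → q ∣ b → ((j * N : ℕ) : ℝ) ^ c < q) : Good C N i (r * j) p := by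
  have hjN : N ≤ j * N := Nat.le_mul_of_pos_left N hj
  have hN0 : (0 : ℝ) < N := by exact_mod_cast (by omega : 0 < N)
  have hN1 : (1 : ℝ) < N := by exact_mod_cast (by omega : 1 < N)
  have hb : r * j * N - p = b := by
    rw [mul_assoc, ← hs]
    omega
  unfold Good
  rw [hb]
  refine ⟨hp, by omega, by omega, hO1, hO2, ?_⟩
  intro q hq1 hq2
  have h3 := hq q hq1 hq2
  have h4 : (N : ℝ) ^ c < q := by
    refine lt_of_le_of_lt (Real.rpow_le_rpow hN0.le ?_ hc.le) h3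
    exact_mod_cast hjN
  have h5 : (N : ℝ) < (q : ℝ) ^ C := by
    have hC0 : C ≠ 0 := by
      rintro h0
      rw [h0, Nat.cast_zero] at hC
      have : (0 : ℝ) < 2 / c := by positivity
      linarith
    calc (N : ℝ) = (N : ℝ) ^ (1 : ℝ) := (Real.rpow_one _).symm
      _ ≤ (N : ℝ) ^ (c * C) := by
          refine Real.rpow_le_rpow_of_exponent_le hN1.le ?_
          rw [div_le_iff₀ hc] at hC
          linarith
      _ = ((N : ℝ) ^ c) ^ C := by rw [Real.rpow_mul hN0.le, Real.rpow_natCast]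
      _ < (q : ℝ) ^ C := pow_lt_pow_left₀ h4 (by positivity) hC0
  exact_mod_cast h5

open Classical in
/-- one value of `j`: many representations of a multiple of `j N` -/
private theorem FINs_one {k : ℕ} (hk : 160 ≤ k) {c : ℝ} (hc : 0 < c) {e : ℝ} (he1 : e ≤ 1 / 2)
    (hke : (8 : ℝ) / k ≤ e / 32) {N M j C : ℕ} (hN : 2 ≤ N) (hj : 1 ≤ j) (hM : M = j * N) (hC : 2 / c ≤ C)
    (i : ℕ) (hF : ∀ P : Finset ℕ, PS k M P → ¬ HP M (B1 k M) (pw M c) P (-(-1) ^ i))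
    (hQ : (B1 k M : ℝ) / (2 * Real.log M) ≤ (QQ k M).card)
    (hlog : 16 * k * Real.log M ≤ (M : ℝ) ^ (e / 2)) :
    ∃ r : ℕ, 1 ≤ r ∧ (r : ℝ) ≤ 2 * (M : ℝ) ^ ((8 : ℝ) / k) ∧
      ((r * j * N : ℕ) : ℝ) ^ (1 - e) ≤ (((Finset.range (r * j * N)).filter (Good C N i (r * j))).card : ℝ) := by
  have hjN : N ≤ j * N := Nat.le_mul_of_pos_left N hj
  have hM2 : 2 ≤ M := by omega
  have hkr : (160 : ℝ) ≤ k := by exact_mod_cast hk
  have hM0 : (0 : ℝ) < M := by exact_mod_cast (by omega : 0 < M)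
  have hM1 : (1 : ℝ) < M := by exact_mod_cast (by omega : 1 < M)
  have hlogM : 0 < Real.log M := Real.log_pos hM1
  obtain ⟨G, hG1, hG2, hG3⟩ := FINs_many hk hc hM2 hC i hF hQ
  have h8 : (0 : ℝ) < 8 / k := by positivity
  have hMr : 0 < (M : ℝ) ^ ((8 : ℝ) / k) := Real.rpow_pos_of_pos hM0 _
  have hMs : (M : ℝ) ^ ((1 : ℝ) + 8 / k) = M * (M : ℝ) ^ ((8 : ℝ) / k) := by
    rw [Real.rpow_add hM0, Real.rpow_one]
  have hGpos : (0 : ℝ) < G.card := by
    refine lt_of_lt_of_le ?_ hG2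
    rw [hMs]
    positivity
  have hGne : G.Nonempty := by
    rw [← card_pos]
    exact_mod_cast hGpos
  choose! b r hb1 hb2 hs hr1 hr2 hO1 hO2 hq using hG3
  obtain ⟨r0, hr0, hcard⟩ := FINs_pigeon (R := ⌊2 * (M : ℝ) ^ ((8 : ℝ) / k)⌋₊) r
    (fun p hp => mem_Icc.mpr ⟨hr1 p hp, Nat.le_floor (hr2 p hp)⟩) hGne
  rw [mem_Icc] at hr0
  have hr0' : (r0 : ℝ) ≤ 2 * (M : ℝ) ^ ((8 : ℝ) / k) := (Nat.le_floor_iff (by positivity)).mp hr0.2
  refine ⟨r0, hr0.1, hr0', ?_⟩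
  -- the fibre consists of good primes
  have hsub : (G.filter fun p => r p = r0) ⊆ (Finset.range (r0 * j * N)).filter (Good C N i (r0 * j)) := by
    intro p hp
    rw [mem_filter] at hp
    obtain ⟨hp1, hp2⟩ := hp
    have h3 := hG1 hp1
    unfold QQ at h3
    rw [mem_filter, mem_Ioc] at h3
    have h4 := hs p hp1
    have h5 := hb1 p hp1
    rw [hp2] at h4
    have h6 : r0 * M = r0 * j * N := by rw [hM, mul_assoc]
    rw [mem_filter, mem_range]
    refine ⟨by omega, ?_⟩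
    refine FINs_good hc hN hj hC (b := b p) (p := p) h3.2 (by omega) (by omega) (by rw [h4, hM]) (hO1 p hp1)
      (hO2 p hp1) ?_
    intro q hq1 hq2
    rw [← hM]
    exact hq p hp1 q hq1 hq2
  have h3 : ((G.filter fun p => r p = r0).card : ℝ) ≤
      (((Finset.range (r0 * j * N)).filter (Good C N i (r0 * j))).card : ℝ) := by
    exact_mod_cast card_le_card hsub
  refine le_trans ?_ h3
  -- the size of the fibre
  have h4 : (G.card : ℝ) ≤ (2 * (M : ℝ) ^ ((8 : ℝ) / k)) * ((G.filter fun p => r p = r0).card : ℝ) := by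
    calc (G.card : ℝ) ≤ ((⌊2 * (M : ℝ) ^ ((8 : ℝ) / k)⌋₊ * (G.filter fun p => r p = r0).card : ℕ) : ℝ) := by
          exact_mod_cast hcard
      _ = (⌊2 * (M : ℝ) ^ ((8 : ℝ) / k)⌋₊ : ℝ) * ((G.filter fun p => r p = r0).card : ℝ) := by push_cast; rfl
      _ ≤ _ := mul_le_mul_of_nonneg_right (Nat.floor_le (by positivity)) (Nat.cast_nonneg _)
  have h5 : (M : ℝ) / (8 * k * Real.log M) ≤ ((G.filter fun p => r p = r0).card : ℝ) := by
    have h6 : (2 * (M : ℝ) ^ ((8 : ℝ) / k)) * ((M : ℝ) / (8 * k * Real.log M)) ≤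
        (2 * (M : ℝ) ^ ((8 : ℝ) / k)) * ((G.filter fun p => r p = r0).card : ℝ) := by
      refine le_trans (le_of_eq ?_) (hG2.trans h4)
      rw [hMs]
      field_simp
      norm_num
    exact le_of_mul_le_mul_left h6 (by positivity)
  refine le_trans ?_ h5
  -- the power of `K N`
  have h6 : ((r0 * j * N : ℕ) : ℝ) ≤ 2 * (M : ℝ) ^ ((1 : ℝ) + 8 / k) := by
    have h7 : ((r0 * j * N : ℕ) : ℝ) = (r0 : ℝ) * M := by rw [hM]; push_cast; ring
    rw [h7, hMs]
    calc (r0 : ℝ) * M ≤ (2 * (M : ℝ) ^ ((8 : ℝ) / k)) * M := mul_le_mul_of_nonneg_right hr0' hM0.le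
      _ = _ := by ring
  have h7 : ((r0 * j * N : ℕ) : ℝ) ^ (1 - e) ≤ 2 * (M : ℝ) ^ (1 - e / 2) := by
    calc ((r0 * j * N : ℕ) : ℝ) ^ (1 - e) ≤ (2 * (M : ℝ) ^ ((1 : ℝ) + 8 / k)) ^ (1 - e) :=
          Real.rpow_le_rpow (Nat.cast_nonneg _) h6 (by linarith)
      _ = (2 : ℝ) ^ (1 - e) * (M : ℝ) ^ (((1 : ℝ) + 8 / k) * (1 - e)) := by
          rw [Real.mul_rpow (by norm_num) (by positivity), ← Real.rpow_mul hM0.le]
      _ ≤ 2 * (M : ℝ) ^ (1 - e / 2) := by
          refine mul_le_mul ?_ ?_ (by positivity) (by norm_num)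
          · calc (2 : ℝ) ^ (1 - e) ≤ (2 : ℝ) ^ (1 : ℝ) :=
                Real.rpow_le_rpow_of_exponent_le (by norm_num) (by nlinarith)
              _ = 2 := Real.rpow_one 2
          · refine Real.rpow_le_rpow_of_exponent_le hM1.le ?_
            nlinarith
  refine h7.trans ?_
  rw [le_div_iff₀ (by positivity)]
  have h8' : (M : ℝ) ^ (1 - e / 2) * (M : ℝ) ^ (e / 2) = M := by
    rw [← Real.rpow_add hM0, sub_add_cancel, Real.rpow_one]
  have h9 : 0 ≤ (M : ℝ) ^ (1 - e / 2) := by positivity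
  calc 2 * (M : ℝ) ^ (1 - e / 2) * (8 * k * Real.log M) = (M : ℝ) ^ (1 - e / 2) * (16 * k * Real.log M) := by ring
    _ ≤ (M : ℝ) ^ (1 - e / 2) * (M : ℝ) ^ (e / 2) := mul_le_mul_of_nonneg_left hlog h9
    _ = M := h8'

open Classical in
theorem FINs (d e : ℝ) (hd : 0 < d) (he : 0 < e) : ∃ c : ℝ, 0 < c ∧ ∃ C N0 : ℕ, ∀ N : ℕ, N0 ≤ N → ∀ i : ℕ,
    (N : ℝ) ^ (d - e) ≤ (((Finset.Icc 1 ⌊(N : ℝ) ^ d⌋₊).filter fun K =>
      ((K * N : ℕ) : ℝ) ^ (1 - e) ≤ (((Finset.range (K * N)).filter (Good C N i K)).card : ℝ)).card : ℝ) ∧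
    c * ((N : ℝ) ^ (1 + d) / Real.log N) ≤ (((Finset.Icc 1 ⌊(N : ℝ) ^ (1 + d)⌋₊).filter fun p =>
      ∃ K : ℕ, 1 ≤ K ∧ (K : ℝ) ≤ (N : ℝ) ^ d ∧ Good C N i K p).card : ℝ) := by
  obtain ⟨e1, he1⟩ : ∃ e1 : ℝ, e1 = min (min e d) (1 / 2) := ⟨_, rfl⟩
  have he10 : 0 < e1 := by rw [he1]; exact lt_min (lt_min he hd) (by norm_num)
  have he1e : e1 ≤ e := by rw [he1]; exact (min_le_left _ _).trans (min_le_left _ _)
  have he1d : e1 ≤ d := by rw [he1]; exact (min_le_left _ _).trans (min_le_right _ _)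
  have he12 : e1 ≤ 1 / 2 := by rw [he1]; exact min_le_right _ _
  obtain ⟨k0, hk0⟩ := exists_nat_ge (8 * (1 + d) * 32 / e1)
  obtain ⟨k, hkd⟩ : ∃ k : ℕ, k = k0 + 160 := ⟨_, rfl⟩
  have hk : 160 ≤ k := by omega
  have hkr : (160 : ℝ) ≤ k := by exact_mod_cast hk
  have hk1 : (1 + d) * (8 / k) ≤ e1 / 32 := by
    have h1 : 8 * (1 + d) * 32 / e1 ≤ k := by
      refine hk0.trans ?_
      rw [hkd]; push_cast; linarith
    rw [div_le_iff₀ he10] at h1
    rw [mul_div_assoc', div_le_div_iff₀ (by positivity) (by norm_num)]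
    linarith
  have h8k : (0 : ℝ) < 8 / k := by positivity
  have hk2 : (8 : ℝ) / k ≤ e1 / 32 := by nlinarith
  obtain ⟨c, hc, hc1, n0, hF⟩ := F3s k hk
  obtain ⟨C, hCd⟩ : ∃ C : ℕ, C = ⌈2 / c⌉₊ := ⟨_, rfl⟩
  have hC : 2 / c ≤ C := by rw [hCd]; exact Nat.le_ceil _
  obtain ⟨n1, h1⟩ := FINs_num (e1 / 16) (by positivity) 2
  obtain ⟨n2, h2⟩ := FINs_num (d - e1 / 4) (by linarith) 1
  obtain ⟨n3, h3⟩ := C9m_log k hk
  obtain ⟨n4, h4⟩ := FINs_log (e1 / 2) (16 * k) (by positivity) (by positivity)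
  obtain ⟨th, hth⟩ : ∃ th : ℝ, th = (1 + d) / (1 + 8 / k) - 1 := ⟨_, rfl⟩
  have hth1 : (1 + th) * (1 + 8 / k) = 1 + d := by
    rw [hth, add_sub_cancel, div_mul_cancel₀]
    positivity
  have hth0 : 0 < th := by
    rw [hth, sub_pos, one_lt_div (by positivity)]
    linarith
  have hthd : th ≤ d := by nlinarith
  obtain ⟨n5, h5⟩ := FINs_num th hth0 2
  refine ⟨1 / (64 * k * (1 + d)), by positivity, C, n0 + n1 + n2 + n3 + n4 + n5 + 2, ?_⟩
  intro N hN i
  have hN0 : (0 : ℝ) < N := by exact_mod_cast (by omega : 0 < N)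
  have hN1 : (1 : ℝ) < N := by exact_mod_cast (by omega : 1 < N)
  have g1 := h1 N (by omega)
  have g2 := h2 N (by omega)
  have g5 := h5 N (by omega)
  have hneg : (-(-1 : ℝ) ^ i = 1 ∨ -(-1 : ℝ) ^ i = -1) := by
    rcases Nat.even_or_odd i with h3 | h3
    · right; rw [h3.neg_one_pow]
    · left; rw [h3.neg_one_pow]; norm_num
  constructor
  · obtain ⟨J, hJ⟩ : ∃ J : ℕ, J = ⌊(N : ℝ) ^ (d - e1 / 4)⌋₊ := ⟨_, rfl⟩
    have hJle : (J : ℝ) ≤ (N : ℝ) ^ (d - e1 / 4) := by rw [hJ]; exact Nat.floor_le (by positivity)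
    have hJge : (N : ℝ) ^ (d - e1 / 4) / 2 ≤ J := by
      have h3 : (N : ℝ) ^ (d - e1 / 4) < J + 1 := by rw [hJ]; exact Nat.lt_floor_add_one _
      have h4 : (1 : ℝ) ≤ J := by
        have : 1 ≤ J := by rw [hJ]; exact Nat.le_floor (by simpa using g2)
        exact_mod_cast this
      linarith
    have key : ∀ j : ℕ, j ∈ Finset.Icc 1 J → ∃ r : ℕ, 1 ≤ r ∧ (r : ℝ) ≤ (N : ℝ) ^ (e1 / 8) ∧
        ((r * j * N : ℕ) : ℝ) ^ (1 - e) ≤ (((Finset.range (r * j * N)).filter (Good C N i (r * j))).card : ℝ) := by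
      intro j hj
      rw [mem_Icc] at hj
      have hjN : N ≤ j * N := Nat.le_mul_of_pos_left N hj.1
      obtain ⟨r, hr1, hr2, hr3⟩ := FINs_one hk hc he12 hk2 (N := N) (by omega) hj.1 rfl hC i
        (fun P hP => hF (j * N) (by omega) P hP _ hneg) (h3 (j * N) (by omega)) (h4 (j * N) (by omega))
      have hMle : ((j * N : ℕ) : ℝ) ≤ (N : ℝ) ^ (1 + d) := by
        push_cast
        have h3 : (j : ℝ) ≤ (N : ℝ) ^ d := by
          have h4 : (j : ℝ) ≤ J := by exact_mod_cast hj.2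
          refine (h4.trans hJle).trans (Real.rpow_le_rpow_of_exponent_le hN1.le (by linarith))
        rw [Real.rpow_add hN0, Real.rpow_one, mul_comm]
        exact mul_le_mul_of_nonneg_left h3 hN0.le
      refine ⟨r, hr1, ?_, ?_⟩
      · have h3 : ((j * N : ℕ) : ℝ) ^ ((8 : ℝ) / k) ≤ (N : ℝ) ^ (e1 / 16) := by
          calc ((j * N : ℕ) : ℝ) ^ ((8 : ℝ) / k) ≤ ((N : ℝ) ^ (1 + d)) ^ ((8 : ℝ) / k) :=
                Real.rpow_le_rpow (Nat.cast_nonneg _) hMle (by positivity)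
            _ = (N : ℝ) ^ ((1 + d) * (8 / k)) := by rw [← Real.rpow_mul hN0.le]
            _ ≤ _ := Real.rpow_le_rpow_of_exponent_le hN1.le (by linarith)
        calc (r : ℝ) ≤ 2 * ((j * N : ℕ) : ℝ) ^ ((8 : ℝ) / k) := hr2
          _ ≤ (N : ℝ) ^ (e1 / 16) * (N : ℝ) ^ (e1 / 16) := mul_le_mul g1 h3 (by positivity) (by positivity)
          _ = (N : ℝ) ^ (e1 / 8) := by rw [← Real.rpow_add hN0]; congr 1; ring
      · refine le_trans ?_ hr3
        refine Real.rpow_le_rpow_of_exponent_le ?_ (by linarith)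
        have : 1 ≤ r * j * N := Nat.mul_pos (Nat.mul_pos hr1 hj.1) (by omega)
        exact_mod_cast this
    choose! r hr1 hr2 hr3 using key
    set S := (Finset.Icc 1 ⌊(N : ℝ) ^ d⌋₊).filter fun K =>
      ((K * N : ℕ) : ℝ) ^ (1 - e) ≤ (((Finset.range (K * N)).filter (Good C N i K)).card : ℝ) with hS
    have himg : (Finset.Icc 1 J).image (fun j => r j * j) ⊆ S := by
      intro x hx
      obtain ⟨j, hj, rfl⟩ := mem_image.mp hx
      rw [hS, mem_filter, mem_Icc]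
      have hj' := mem_Icc.mp hj
      refine ⟨⟨Nat.mul_pos (hr1 j hj) hj'.1, ?_⟩, hr3 j hj⟩
      refine Nat.le_floor ?_
      push_cast
      have h4 : (j : ℝ) ≤ (N : ℝ) ^ (d - e1 / 4) := le_trans (by exact_mod_cast hj'.2) hJle
      calc (r j : ℝ) * j ≤ (N : ℝ) ^ (e1 / 8) * (N : ℝ) ^ (d - e1 / 4) :=
            mul_le_mul (hr2 j hj) h4 (Nat.cast_nonneg _) (by positivity)
        _ = (N : ℝ) ^ (e1 / 8 + (d - e1 / 4)) := by rw [← Real.rpow_add hN0]
        _ ≤ (N : ℝ) ^ d := Real.rpow_le_rpow_of_exponent_le hN1.le (by linarith)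
    have hfib := Finset.card_le_mul_card_image (f := fun j => r j * j) (Finset.Icc 1 J) ⌊(N : ℝ) ^ (e1 / 8)⌋₊ (by
      intro a _
      have hinj : Set.InjOn r (((Finset.Icc 1 J).filter fun j => r j * j = a : Finset ℕ) : Set ℕ) := by
        intro x hx y hy hxy
        rw [mem_coe, mem_filter] at hx hy
        have h3 : r x * x = r x * y := by rw [hx.2, hxy, hy.2]
        exact Nat.eq_of_mul_eq_mul_left (hr1 x hx.1) h3
      calc ((Finset.Icc 1 J).filter fun j => r j * j = a).card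
          = (((Finset.Icc 1 J).filter fun j => r j * j = a).image r).card := (card_image_of_injOn hinj).symm
        _ ≤ (Finset.Icc 1 ⌊(N : ℝ) ^ (e1 / 8)⌋₊).card := by
            refine card_le_card ?_
            intro x hx
            obtain ⟨j, hj, rfl⟩ := mem_image.mp hx
            have hj' := (mem_filter.mp hj).1
            rw [mem_Icc]
            exact ⟨hr1 j hj', Nat.le_floor (hr2 j hj')⟩
        _ = _ := by simp)
    have h5 : (J : ℝ) ≤ (N : ℝ) ^ (e1 / 8) * (S.card : ℝ) := by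
      have h6 : J ≤ ⌊(N : ℝ) ^ (e1 / 8)⌋₊ * S.card := by
        have h7 := hfib.trans (Nat.mul_le_mul_left _ (card_le_card himg))
        simpa using h7
      calc (J : ℝ) ≤ ((⌊(N : ℝ) ^ (e1 / 8)⌋₊ * S.card : ℕ) : ℝ) := by exact_mod_cast h6
        _ = (⌊(N : ℝ) ^ (e1 / 8)⌋₊ : ℝ) * (S.card : ℝ) := by push_cast; rfl
        _ ≤ _ := mul_le_mul_of_nonneg_right (Nat.floor_le (by positivity)) (Nat.cast_nonneg _)
    have h6 : (N : ℝ) ^ (e1 / 8) * (N : ℝ) ^ (d - e1) ≤ (N : ℝ) ^ (e1 / 8) * (S.card : ℝ) := by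
      refine le_trans ?_ h5
      refine le_trans ?_ hJge
      rw [le_div_iff₀ (by norm_num : (0 : ℝ) < 2), ← Real.rpow_add hN0]
      calc (N : ℝ) ^ (e1 / 8 + (d - e1)) * 2 ≤ (N : ℝ) ^ (e1 / 8 + (d - e1)) * (N : ℝ) ^ (e1 / 16) :=
            mul_le_mul_of_nonneg_left g1 (by positivity)
        _ = (N : ℝ) ^ (e1 / 8 + (d - e1) + e1 / 16) := by rw [← Real.rpow_add hN0]
        _ ≤ _ := Real.rpow_le_rpow_of_exponent_le hN1.le (by linarith)
    have h7 : (N : ℝ) ^ (d - e1) ≤ (S.card : ℝ) := le_of_mul_le_mul_left h6 (by positivity)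
    exact (Real.rpow_le_rpow_of_exponent_le hN1.le (by linarith)).trans h7
  · -- the second part
    obtain ⟨j, hjd⟩ : ∃ j : ℕ, j = ⌊(N : ℝ) ^ th / 2⌋₊ := ⟨_, rfl⟩
    have hjle : (j : ℝ) ≤ (N : ℝ) ^ th / 2 := by rw [hjd]; exact Nat.floor_le (by positivity)
    have hj1 : 1 ≤ j := by
      rw [hjd]
      refine Nat.le_floor ?_
      push_cast
      linarith
    have hjge : (N : ℝ) ^ th / 4 ≤ j := by
      have h6 : (N : ℝ) ^ th / 2 < j + 1 := by rw [hjd]; exact Nat.lt_floor_add_one _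
      have h7 : (1 : ℝ) ≤ j := by exact_mod_cast hj1
      linarith
    obtain ⟨M, hM⟩ : ∃ M : ℕ, M = j * N := ⟨_, rfl⟩
    have hjN : N ≤ j * N := Nat.le_mul_of_pos_left N hj1
    have hM2 : 2 ≤ M := by omega
    have hM0 : (0 : ℝ) < M := by exact_mod_cast (by omega : 0 < M)
    have hM1 : (1 : ℝ) < M := by exact_mod_cast (by omega : 1 < M)
    have hlogM : 0 < Real.log M := Real.log_pos hM1
    have hlogN : 0 < Real.log N := Real.log_pos hN1
    have hMle : (M : ℝ) ≤ (N : ℝ) ^ (1 + th) / 2 := by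
      rw [hM, Real.rpow_add hN0, Real.rpow_one]
      push_cast
      nlinarith
    have hMge : (N : ℝ) ^ (1 + th) / 4 ≤ M := by
      rw [hM, Real.rpow_add hN0, Real.rpow_one]
      push_cast
      nlinarith
    have hX : ((N : ℝ) ^ (1 + th)) ^ ((1 : ℝ) + 8 / k) = (N : ℝ) ^ (1 + d) := by
      rw [← Real.rpow_mul hN0.le, hth1]
    have h8k1 : (8 : ℝ) / k ≤ 1 := by
      rw [div_le_one (by positivity)]; linarith
    have hMp : (M : ℝ) ^ ((1 : ℝ) + 8 / k) ≤ (N : ℝ) ^ (1 + d) / 2 := by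
      calc (M : ℝ) ^ ((1 : ℝ) + 8 / k) ≤ ((N : ℝ) ^ (1 + th) / 2) ^ ((1 : ℝ) + 8 / k) :=
            Real.rpow_le_rpow hM0.le hMle (by positivity)
        _ = (N : ℝ) ^ (1 + d) / 2 ^ ((1 : ℝ) + 8 / k) := by
            rw [Real.div_rpow (by positivity) (by norm_num), hX]
        _ ≤ (N : ℝ) ^ (1 + d) / 2 := by
            refine div_le_div_of_nonneg_left (by positivity) (by norm_num) ?_
            calc (2 : ℝ) = 2 ^ (1 : ℝ) := (Real.rpow_one 2).symm
              _ ≤ _ := Real.rpow_le_rpow_of_exponent_le (by norm_num) (by linarith)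
    have hMq : (N : ℝ) ^ (1 + d) / 16 ≤ (M : ℝ) ^ ((1 : ℝ) + 8 / k) := by
      calc (N : ℝ) ^ (1 + d) / 16 ≤ (N : ℝ) ^ (1 + d) / 4 ^ ((1 : ℝ) + 8 / k) := by
            refine div_le_div_of_nonneg_left (by positivity) (by positivity) ?_
            calc (4 : ℝ) ^ ((1 : ℝ) + 8 / k) ≤ (4 : ℝ) ^ (2 : ℝ) :=
                  Real.rpow_le_rpow_of_exponent_le (by norm_num) (by linarith)
              _ = 16 := by norm_num
        _ = ((N : ℝ) ^ (1 + th) / 4) ^ ((1 : ℝ) + 8 / k) := by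
            rw [Real.div_rpow (by positivity) (by norm_num), hX]
        _ ≤ _ := Real.rpow_le_rpow (by positivity) hMge (by positivity)
    have hlogMN : Real.log M ≤ (1 + d) * Real.log N := by
      have h6 : (M : ℝ) ≤ (N : ℝ) ^ (1 + d) := by
        have h7 : (N : ℝ) ^ (1 + th) ≤ (N : ℝ) ^ (1 + d) :=
          Real.rpow_le_rpow_of_exponent_le hN1.le (by linarith)
        have h8 : 0 ≤ (N : ℝ) ^ (1 + th) := by positivity
        linarith
      have h7 := Real.log_le_log hM0 h6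
      rwa [Real.log_rpow hN0] at h7
    obtain ⟨G, hG1, hG2, hG3⟩ := FINs_many hk hc hM2 hC i
      (fun P hP => hF M (by omega) P hP _ hneg) (h3 M (by omega))
    have hBle : ((B1 k M : ℕ) : ℝ) ≤ (N : ℝ) ^ (1 + d) / 2 :=
      (Nat.floor_le (by positivity) : ((B1 k M : ℕ) : ℝ) ≤ (M : ℝ) ^ ((1 : ℝ) + 8 / k)).trans hMp
    have hsub : G ⊆ (Finset.Icc 1 ⌊(N : ℝ) ^ (1 + d)⌋₊).filter fun p =>
        ∃ K : ℕ, 1 ≤ K ∧ (K : ℝ) ≤ (N : ℝ) ^ d ∧ Good C N i K p := by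
      intro p hp
      have h6 := hG1 hp
      unfold QQ at h6
      rw [mem_filter, mem_Ioc] at h6
      obtain ⟨b, r, hb1, hb2, hs, hr1, hr2, hO1, hO2, hq⟩ := hG3 p hp
      have hpB : (p : ℝ) ≤ (N : ℝ) ^ (1 + d) / 2 := le_trans (by exact_mod_cast h6.1.2) hBle
      have hbB : (b : ℝ) ≤ (N : ℝ) ^ (1 + d) / 2 := le_trans (by exact_mod_cast hb2) hBle
      rw [mem_filter, mem_Icc]
      refine ⟨⟨by omega, Nat.le_floor ?_⟩, r * j, Nat.mul_pos hr1 hj1, ?_, ?_⟩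
      · have : 0 ≤ (N : ℝ) ^ (1 + d) := by positivity
        linarith
      · have h7 : ((r * j : ℕ) : ℝ) * N ≤ (N : ℝ) ^ d * N := by
          have h8 : ((r * j : ℕ) : ℝ) * N = (p : ℝ) + b := by
            have h9 : ((p + b : ℕ) : ℝ) = ((r * M : ℕ) : ℝ) := by rw [hs]
            rw [hM] at h9
            push_cast at h9 ⊢
            linarith
          have h10 : (N : ℝ) ^ (1 + d) = (N : ℝ) ^ d * N := by
            rw [Real.rpow_add hN0, Real.rpow_one, mul_comm]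
          rw [h8, ← h10]
          linarith
        exact le_of_mul_le_mul_right h7 hN0
      · refine FINs_good hc (by omega) hj1 hC (b := b) (p := p) h6.2 (by omega) (by omega) (by rw [hs, hM]) hO1 hO2 ?_
        intro q hq1 hq2
        rw [← hM]
        exact hq q hq1 hq2
    have h6 : (G.card : ℝ) ≤ (((Finset.Icc 1 ⌊(N : ℝ) ^ (1 + d)⌋₊).filter fun p =>
        ∃ K : ℕ, 1 ≤ K ∧ (K : ℝ) ≤ (N : ℝ) ^ d ∧ Good C N i K p).card : ℝ) := by
      exact_mod_cast card_le_card hsub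
    refine le_trans ?_ (hG2.trans h6)
    calc 1 / (64 * k * (1 + d)) * ((N : ℝ) ^ (1 + d) / Real.log N) =
        (N : ℝ) ^ (1 + d) / 16 / (4 * k * ((1 + d) * Real.log N)) := by
          field_simp
          norm_num
      _ ≤ (M : ℝ) ^ ((1 : ℝ) + 8 / k) / (4 * k * Real.log M) := by
          refine div_le_div₀ (by positivity) hMq (by positivity) ?_
          exact mul_le_mul_of_nonneg_left hlogMN (by positivity)

end Pool.Agent.Lib.PQ
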