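import Pool.Agent.Lib.MP_7b7e48_nt.PQ.T0m
import Pool.Agent.Lib.MP_45349e_nt.LS.LamB

/-!
# T2m (30 minutes): the sieve hypothesis determines the sign

PROOF. If `Pf ≠ 0` there are `q ∈ Q`, `j ∈ J` with `q + m j * n * n' = 0` modulo `N`. Put `b = m j * n * n'`: `N ≤ A0² < b ≤ m j * B0² ≤ B1`
(`hA`), `b` is `z`-rough (product of rough numbers), `N ∣ q + b`, so `lam b = t` by `HH`, and `lam b = s * lam n * lam n'`
(complete multiplicativity, all factors positive). Hence `lam n * lam n' = s * t` (`s² = 1`). `T2m_unit`: the same with a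
rough representative `r > N` of the class `x` (here `m j * r ≤ B1`).
-/

set_option autoImplicit false

open Finset
open Pool.Agent.Lib.GT (Rough pr V)
open Pool.Agent.Lib.MP_45349e_nt.LS (lam)
open Pool.Agent.Lib.RG (RC LV rr SS PB sig)

namespace Pool.Agent.Lib.PQ

private lemma T2m_mul {z a b : ℕ} (ha : Rough z a) (hb : Rough z b) : Rough z (a * b) := by
  intro p hp hd
  rcases hp.dvd_mul.1 hd with h | h
  · exact ha p hp h
  · exact hb p hp h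

private lemma T2m_ex {ι : Type} {N : ℕ} {Q : Finset ℕ} {J : Finset ι} {m : ι → ℕ} {y : ℕ}
    (hP : Pf N Q J m (y : ZMod N) ≠ 0) : ∃ q ∈ Q, ∃ j ∈ J, N ∣ q + m j * y := by
  classical
  by_contra hcon
  push Not at hcon
  apply hP
  unfold Pf
  have h0 : ((Q ×ˢ J).filter fun z => (z.1 : ZMod N) + (m z.2 : ZMod N) * (y : ZMod N) = 0) = ∅ := by
    rw [Finset.filter_eq_empty_iff]
    intro z hz hz0
    rw [Finset.mem_product] at hz
    apply hcon z.1 hz.1 z.2 hz.2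
    rw [← ZMod.natCast_eq_zero_iff]
    push_cast
    exact hz0
  rw [h0]
  simp

theorem T2m {k : ℕ} {c : ℝ} {N : ℕ} [NeZero N] {ι : Type} {Q : Finset ℕ} {J : Finset ι} {m : ι → ℕ} {s t : ℝ}
    (hs : s = 1 ∨ s = -1) (hH : HH N (B1 k N) (pw N c) t) (hA : N ≤ A0 k N ^ 2)
    (hQ : ∀ q ∈ Q, q.Prime ∧ N < q ∧ q ≤ B1 k N) (hM : MJ k c N J m s) (n n' : ℕ) (hn : n ∈ R0 k c N)
    (hn' : n' ∈ R0 k c N) (hP : Pf N Q J m ((n : ZMod N) * (n' : ZMod N)) ≠ 0) : lam n * lam n' = s * t := by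
  rw [← Nat.cast_mul] at hP
  obtain ⟨q, hq, j, hj, hd⟩ := T2m_ex hP
  obtain ⟨h1, h2, h3⟩ := hQ q hq
  unfold R0 RS at hn hn'
  rw [Finset.mem_filter, Finset.mem_Ioc] at hn hn'
  obtain ⟨⟨a1, a2⟩, a3, a4⟩ := hn
  obtain ⟨⟨b1, b2⟩, b3, b4⟩ := hn'
  have hmj := hM.pos j hj
  have hnn : A0 k N ^ 2 < n * n' := by
    rw [pow_two]
    exact Nat.mul_lt_mul'' a1 b1
  have hnn2 : n * n' ≤ B0 k N ^ 2 := by
    rw [pow_two]
    exact Nat.mul_le_mul a2 b2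
  have hlow : N < m j * (n * n') := by
    have : n * n' ≤ m j * (n * n') := Nat.le_mul_of_pos_left _ hmj
    omega
  have hup : m j * (n * n') ≤ B1 k N := (Nat.mul_le_mul_left _ hnn2).trans (hM.size j hj)
  have hr : Rough (pw N c) (m j * (n * n')) := T2m_mul (hM.rough j hj) (T2m_mul a3 b3)
  have hl := hH q (m j * (n * n')) h1 h2 h3 hlow hup hr hd
  have hn0 : n ≠ 0 := by omega
  have hn0' : n' ≠ 0 := by omega
  rw [Pool.Agent.Lib.MP_45349e_nt.LS.lam_mul _ _ (by omega) (mul_ne_zero hn0 hn0'),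
    Pool.Agent.Lib.MP_45349e_nt.LS.lam_mul _ _ hn0 hn0', hM.lam j hj] at hl
  rw [← hl, ← mul_assoc]
  rcases hs with rfl | rfl <;> ring

theorem T2m_unit {k : ℕ} {c : ℝ} {N : ℕ} [NeZero N] {ι : Type} {Q : Finset ℕ} {J : Finset ι} {m : ι → ℕ}
    {s t : ℝ} (hs : s = 1 ∨ s = -1) (hH : HH N (B1 k N) (pw N c) t)
    (hQ : ∀ q ∈ Q, q.Prime ∧ N < q ∧ q ≤ B1 k N) (hM : MJ k c N J m s) (r : ℕ) (hr : N < r)
    (hrr : Rough (pw N c) r) (hsz : ∀ j ∈ J, m j * r ≤ B1 k N)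
    (hP : Pf N Q J m (r : ZMod N) ≠ 0) : lam r = s * t := by
  obtain ⟨q, hq, j, hj, hd⟩ := T2m_ex hP
  obtain ⟨h1, h2, h3⟩ := hQ q hq
  have hmj := hM.pos j hj
  have hlow : N < m j * r := by
    have : r ≤ m j * r := Nat.le_mul_of_pos_left _ hmj
    omega
  have hrg : Rough (pw N c) (m j * r) := T2m_mul (hM.rough j hj) hrr
  have hl := hH q (m j * r) h1 h2 h3 hlow (hsz j hj) hrg hd
  rw [Pool.Agent.Lib.MP_45349e_nt.LS.lam_mul _ _ (by omega) (by omega), hM.lam j hj] at hl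
  rw [← hl, ← mul_assoc]
  rcases hs with rfl | rfl <;> ring

end Pool.Agent.Lib.PQ
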