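import Pool.Agent.Lib.MP_7b7e48_nt.PQ.P0m
import Pool.Agent.Lib.MP_7b7e48_nt.PQ.T2m
import Pool.Agent.Lib.MP_7b7e48_nt.PQ.C5m
import Pool.Agent.Lib.MP_7b7e48_nt.PQ.B2m
import Pool.Agent.Lib.MP_7b7e48_nt.PQ.B3m

/-!
# P1m (50 minutes): the signed sum

PROOF. For every unit `x` take a rough representative `r ≤ pw N (1 + 1/k)` (`C5m`). If both
`Pf N QQ PP id x` and `Pf N QQ (PP × PP) prod x` were nonzero, `T2m_unit` would give `lam r = -t` and `lam r = t`. So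
their product is `0` for every unit `x`. By `B1m` and Parseval (`B2m`, `c χ = rho χ * av χ`, `d χ = rho χ * av χ ^ 2`, `av_prod`)
`∑_χ c χ * conj (d χ) = ∑_χ ‖rho χ * av χ‖² * conj (av χ) = 0`. Take real parts. The `χ ∉ XX` contribute at most
`N^(-3τ) ∑ ‖rho χ‖² ≤ N^(-3τ) * 2 N^(τ/2)` (definition of `XX`, `B3m`, `qc`) `≤ g` for large `N`.
-/

set_option autoImplicit false

open Finset
open Pool.Agent.Lib.GT (Rough pr V)
open Pool.Agent.Lib.MP_45349e_nt.LS (lam)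
open Pool.Agent.Lib.RG (RC LV rr SS PB sig)

namespace Pool.Agent.Lib.PQ

private lemma p1_small {a g : ℝ} (ha : 0 < a) (hg : 0 < g) :
    ∃ N0 : ℕ, ∀ N : ℕ, N0 ≤ N → 2 * (N : ℝ) ^ (-a) ≤ g := by
  have h := (tendsto_rpow_neg_atTop ha).comp (tendsto_natCast_atTop_atTop (R := ℝ))
  have h2 := h.eventually (gt_mem_nhds (show (0 : ℝ) < g / 2 by positivity))
  obtain ⟨N0, h3⟩ := Filter.eventually_atTop.mp h2
  refine ⟨N0, fun N hN => ?_⟩
  have h4 := h3 N hN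
  simp only [Function.comp_apply] at h4
  linarith

private lemma p1_B1 {k N : ℕ} (hk : 160 ≤ k) (hN : 1 ≤ N) : N ≤ B1 k N := by
  unfold B1 pw
  apply Nat.le_floor
  have h1 : (1 : ℝ) ≤ N := by exact_mod_cast hN
  have h2 : (0 : ℝ) ≤ 8 / k := by positivity
  calc (N : ℝ) = (N : ℝ) ^ (1 : ℝ) := (Real.rpow_one _).symm
    _ ≤ (N : ℝ) ^ (1 + 8 / (k : ℝ)) := Real.rpow_le_rpow_of_exponent_le h1 (by linarith)

private lemma p1_tau {k : ℕ} (hk : 160 ≤ k) : 0 < tau k := by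
  unfold tau
  have : (0 : ℝ) < k := by
    have : 0 < k := by omega
    exact_mod_cast this
  positivity

/-- the mean square of `rho` over `QQ` -/
private lemma p1_rho {k N : ℕ} [NeZero N] (hk : 160 ≤ k) (hN : 1 ≤ N) {ι : Type} {J : Finset ι}
    {m : ι → ℕ} {Q : Finset ℕ} {X : Finset (DirichletCharacter ℂ N)} (h : QJ k N Q J m X) :
    ∑ χ : DirichletCharacter ℂ N, ‖rho Q χ‖ ^ 2 ≤ 2 * (N : ℝ) ^ (tau k / 2) := by
  have hN0 : (0 : ℝ) < N := by exact_mod_cast hN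
  have hB := p1_B1 hk hN
  have hB' : (N : ℝ) ≤ B1 k N := by exact_mod_cast hB
  have hB0 : (0 : ℝ) < B1 k N := lt_of_lt_of_le hN0 hB'
  have hcop : ∀ q ∈ Q, q.Coprime N ∧ 1 ≤ q ∧ q ≤ B1 k N := by
    intro q hq
    obtain ⟨h1, h2, h3⟩ := h.qp q hq
    refine ⟨?_, h1.one_le, h3⟩
    rw [Nat.Prime.coprime_iff_not_dvd h1]
    intro hd
    exact absurd (Nat.le_of_dvd hN hd) (by omega)
  have hp : 0 < (N : ℝ) ^ (-(tau k / 2)) := Real.rpow_pos_of_pos hN0 _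
  have hc0 : (0 : ℝ) < Q.card := lt_of_lt_of_le (mul_pos hB0 hp) h.qc
  have hne : Q.Nonempty := Finset.card_pos.mp (by exact_mod_cast hc0)
  refine (B3m N Q (B1 k N) hcop hne).trans ?_
  rw [div_le_iff₀ hc0]
  have h1 : (N.totient : ℝ) * ((B1 k N : ℝ) / N + 1) ≤ 2 * B1 k N := by
    have h2 : (N.totient : ℝ) ≤ N := by exact_mod_cast Nat.totient_le N
    calc (N.totient : ℝ) * ((B1 k N : ℝ) / N + 1) ≤ N * ((B1 k N : ℝ) / N + 1) :=
          mul_le_mul_of_nonneg_right h2 (by positivity)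
      _ = B1 k N + N := by field_simp
      _ ≤ 2 * B1 k N := by linarith
  refine h1.trans ?_
  have h3 : (N : ℝ) ^ (tau k / 2) * (N : ℝ) ^ (-(tau k / 2)) = 1 := by
    rw [← Real.rpow_add hN0, add_neg_cancel, Real.rpow_zero]
  calc 2 * (B1 k N : ℝ) = 2 * (N : ℝ) ^ (tau k / 2) * (B1 k N * (N : ℝ) ^ (-(tau k / 2))) := by
        linear_combination (-2 * (B1 k N : ℝ)) * h3
    _ ≤ 2 * (N : ℝ) ^ (tau k / 2) * Q.card := mul_le_mul_of_nonneg_left h.qc (by positivity)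

private lemma p1_term (r a : ℂ) : (r * a * (starRingEnd ℂ) (r * a ^ 2)).re =
    ‖r * a‖ ^ 2 * a.re := by
  have h1 : r * a * (starRingEnd ℂ) (r * a ^ 2) =
      (r * a * (starRingEnd ℂ) (r * a)) * (starRingEnd ℂ) a := by
    rw [map_mul, map_mul, map_pow]
    ring
  rw [h1, Complex.mul_conj, Complex.re_ofReal_mul, Complex.conj_re, Complex.normSq_eq_norm_sq]

theorem P1m : ∃ K : ℕ, 1 ≤ K ∧ ∀ k : ℕ, 160 ≤ k → ∀ c : ℝ, 0 < c → c ≤ 1 / (1000 * k) →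
    c * (20 * k * K) ≤ 1 → ∀ g : ℝ, 0 < g →
    ∃ N0 : ℕ, ∀ (N : ℕ) [NeZero N], N0 ≤ N → ∀ t : ℝ, (t = 1 ∨ t = -1) → HH N (B1 k N) (pw N c) t →
    |∑ χ ∈ XX k N, ‖rho (QQ k N) χ * av (PP k N) (fun l => l) χ‖ ^ 2 * (av (PP k N) (fun l => l) χ).re| ≤ g := by
  classical
  obtain ⟨K, hK, h5⟩ := C5m
  refine ⟨K, hK, fun k hk c hc hc1 hcK g hg => ?_⟩
  obtain ⟨N1, hP0⟩ := P0m k hk c hc hc1
  obtain ⟨N2, hC5⟩ := h5 k hk c hc hcK
  have hτ := p1_tau hk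
  obtain ⟨N3, hsm⟩ := p1_small (a := 5 / 2 * tau k) (by positivity) hg
  refine ⟨N1 + N2 + N3 + 1, fun N _ hN t ht hH => ?_⟩
  obtain ⟨hQ1, hM1, hQ2, hM2, hsize⟩ := hP0 N (by omega)
  have hN1 : 1 ≤ N := by omega
  have hN0 : (0 : ℝ) < N := by exact_mod_cast hN1
  -- the product of the two counting functions vanishes
  have hzero : ∀ x : (ZMod N)ˣ, Pf N (QQ k N) (PP k N) (fun l => l) (x : ZMod N) *
      Pf N (QQ k N) (PP k N ×ˢ PP k N) (fun y : ℕ × ℕ => y.1 * y.2) (x : ZMod N) = 0 := by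
    intro x
    by_contra hne
    obtain ⟨hne1, hne2⟩ := mul_ne_zero_iff.mp hne
    obtain ⟨r, hr1, hr2, hr3, hr4⟩ := hC5 N (by omega) x x.isUnit
    rw [← hr3] at hne1 hne2
    have e1 := T2m_unit (Or.inr rfl) hH hQ1.qp hM1 r hr1 hr4
      (fun l hl => (hsize r hr2 l hl l hl).1) hne1
    have e2 := T2m_unit (Or.inl rfl) hH hQ2.qp hM2 r hr1 hr4
      (fun y hy => (hsize r hr2 y.1 (Finset.mem_product.mp hy).1 y.2
        (Finset.mem_product.mp hy).2).2) hne2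
    rcases ht with rfl | rfl
    · rw [e1] at e2
      norm_num at e2
    · rw [e1] at e2
      norm_num at e2
  have hcop : ∀ q ∈ QQ k N, q.Coprime N := by
    intro q hq
    obtain ⟨h1, h2, h3⟩ := hQ1.qp q hq
    rw [Nat.Prime.coprime_iff_not_dvd h1]
    intro hd
    exact absurd (Nat.le_of_dvd hN1 hd) (by omega)
  -- Parseval
  have hpars := B2m N (fun χ => rho (QQ k N) χ * av (PP k N) (fun l => l) χ)
    (fun χ => rho (QQ k N) χ * av (PP k N) (fun l => l) χ ^ 2)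
  have hleft : ∑ x : (ZMod N)ˣ, (∑ χ : DirichletCharacter ℂ N,
      rho (QQ k N) χ * av (PP k N) (fun l => l) χ * χ (x : ZMod N)) *
      (starRingEnd ℂ) (∑ χ : DirichletCharacter ℂ N,
        rho (QQ k N) χ * av (PP k N) (fun l => l) χ ^ 2 * χ (x : ZMod N)) = 0 := by
    refine Finset.sum_eq_zero fun x _ => ?_
    have e1 := B1m N (QQ k N) hcop (PP k N) (fun l => l) (x : ZMod N) x.isUnit
    have e2 := B1m N (QQ k N) hcop (PP k N ×ˢ PP k N) (fun y : ℕ × ℕ => y.1 * y.2) (x : ZMod N)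
      x.isUnit
    have e3 : ∑ χ : DirichletCharacter ℂ N,
        rho (QQ k N) χ * av (PP k N) (fun l => l) χ ^ 2 * χ (x : ZMod N) =
        ((Pf N (QQ k N) (PP k N ×ˢ PP k N) (fun y : ℕ × ℕ => y.1 * y.2) (x : ZMod N) : ℝ) : ℂ) := by
      rw [e2]
      refine Finset.sum_congr rfl fun χ _ => ?_
      rw [av_prod (PP k N) (fun l => l) χ]
    rw [e3, ← e1, Complex.conj_ofReal, ← Complex.ofReal_mul, hzero x, Complex.ofReal_zero]
  rw [hleft] at hpars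
  have hφ : (N.totient : ℂ) ≠ 0 := by
    have := Nat.totient_pos.mpr hN1
    exact_mod_cast this.ne'
  have hsum : ∑ χ : DirichletCharacter ℂ N, rho (QQ k N) χ * av (PP k N) (fun l => l) χ *
      (starRingEnd ℂ) (rho (QQ k N) χ * av (PP k N) (fun l => l) χ ^ 2) = 0 :=
    (mul_eq_zero.mp hpars.symm).resolve_left hφ
  have hre : ∑ χ : DirichletCharacter ℂ N,
      ‖rho (QQ k N) χ * av (PP k N) (fun l => l) χ‖ ^ 2 * (av (PP k N) (fun l => l) χ).re = 0 := by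
    have h1 := congrArg Complex.re hsum
    rw [Complex.re_sum, Complex.zero_re] at h1
    rw [← h1]
    exact Finset.sum_congr rfl fun χ _ => (p1_term _ _).symm
  have hsplit := Finset.sum_add_sum_compl (XX k N) (fun χ : DirichletCharacter ℂ N =>
    ‖rho (QQ k N) χ * av (PP k N) (fun l => l) χ‖ ^ 2 * (av (PP k N) (fun l => l) χ).re)
  rw [hre] at hsplit
  have hneg := eq_neg_of_add_eq_zero_left hsplit
  rw [hneg, abs_neg]
  refine (Finset.abs_sum_le_sum_abs _ _).trans ?_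
  have hterm : ∀ χ ∈ (XX k N)ᶜ, |‖rho (QQ k N) χ * av (PP k N) (fun l => l) χ‖ ^ 2 *
      (av (PP k N) (fun l => l) χ).re| ≤
      ‖rho (QQ k N) χ‖ ^ 2 * ((N : ℝ) ^ (-tau k)) ^ 3 := by
    intro χ hχ
    have hlt : ‖av (PP k N) (fun l => l) χ‖ ≤ (N : ℝ) ^ (-tau k) := by
      rw [Finset.mem_compl] at hχ
      by_contra hn
      exact hχ (Finset.mem_filter.mpr ⟨Finset.mem_univ _, (not_le.mp hn).le⟩)
    rw [abs_mul, abs_of_nonneg (sq_nonneg _), norm_mul, mul_pow]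
    have h2 : |(av (PP k N) (fun l => l) χ).re| ≤ ‖av (PP k N) (fun l => l) χ‖ :=
      Complex.abs_re_le_norm _
    calc ‖rho (QQ k N) χ‖ ^ 2 * ‖av (PP k N) (fun l => l) χ‖ ^ 2 *
          |(av (PP k N) (fun l => l) χ).re|
        ≤ ‖rho (QQ k N) χ‖ ^ 2 * ‖av (PP k N) (fun l => l) χ‖ ^ 2 *
          ‖av (PP k N) (fun l => l) χ‖ := mul_le_mul_of_nonneg_left h2 (by positivity)
      _ = ‖rho (QQ k N) χ‖ ^ 2 * ‖av (PP k N) (fun l => l) χ‖ ^ 3 := by ring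
      _ ≤ ‖rho (QQ k N) χ‖ ^ 2 * ((N : ℝ) ^ (-tau k)) ^ 3 :=
          mul_le_mul_of_nonneg_left (pow_le_pow_left₀ (norm_nonneg _) hlt 3) (by positivity)
  refine (Finset.sum_le_sum hterm).trans ?_
  rw [← Finset.sum_mul]
  have hsub : ∑ χ ∈ (XX k N)ᶜ, ‖rho (QQ k N) χ‖ ^ 2 ≤
      ∑ χ : DirichletCharacter ℂ N, ‖rho (QQ k N) χ‖ ^ 2 :=
    Finset.sum_le_univ_sum_of_nonneg fun χ => by positivity
  have h6 := p1_rho hk hN1 hQ1
  have h7 : 0 ≤ ((N : ℝ) ^ (-tau k)) ^ 3 := by positivity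
  calc (∑ χ ∈ (XX k N)ᶜ, ‖rho (QQ k N) χ‖ ^ 2) * ((N : ℝ) ^ (-tau k)) ^ 3
      ≤ (2 * (N : ℝ) ^ (tau k / 2)) * ((N : ℝ) ^ (-tau k)) ^ 3 :=
        mul_le_mul_of_nonneg_right (hsub.trans h6) h7
    _ = 2 * (N : ℝ) ^ (-(5 / 2 * tau k)) := by
        rw [← Real.rpow_natCast, ← Real.rpow_mul hN0.le, mul_assoc, ← Real.rpow_add hN0]
        congr 2
        push_cast
        ring
    _ ≤ g := hsm N (by omega)

end Pool.Agent.Lib.PQ
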