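import Pool.Agent.Lib.MP_7b7e48_nt.PQ.T3m
import Pool.Agent.Lib.MP_7b7e48_nt.PQ.P1m
import Pool.Agent.Lib.MP_7b7e48_nt.PQ.A4
import Pool.Agent.Lib.MP_7b7e48_nt.PQ.C4b
import Pool.Agent.Lib.MP_7b7e48_nt.PQ.C8m

/-!
# G1m (50 minutes): the real character

PROOF. `A4` with `X = XX k N`, `o = 1`, `A = av PP`, `r = rho QQ`, `l = lv R0 w0`, `iv χ = χ⁻¹` (`B7m`, `lv_inv`), `d = 8/k ≤ 1/20`.
`i1`, `i3`: `T3m` for `(PP, id)`, `s = -1`, with `e = h^6` (`√e = h³`; `Bes` for `K (1/2)^b ≤ h^6` implies `Bes` for `h^6`; `C4b`;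
`#XX + 1 ≤ pw N (1/(10k)) ≤ pw N (1/(5k))`); `i2`: `T3m` for the pairs, `s = 1`, `av_prod`; `i4`: `P1m` with `g = h³`;
`i5`: `C8m`. `hAo`, `hro`: `av_one`, `rho_one`; `hlo`: `lv_inv` for `χ = 1`. `iv χ = χ` gives `χ ^ 2 = 1`. The constant `K` is the
maximum of those of `C4b`, `P1m`, and `50` (`c ≤ 1/(1000k)`).
-/

set_option autoImplicit false

open Finset
open Pool.Agent.Lib.GT (Rough pr V)
open Pool.Agent.Lib.MP_45349e_nt.LS (lam)
open Pool.Agent.Lib.RG (RC LV rr SS PB sig)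

namespace Pool.Agent.Lib.PQ

private theorem G1m_mono {N : ℕ} {R : Finset ℕ} {w : ℕ → ℝ} {e e' : ℝ} {m m' : ℕ} (h : Bes N R w e m)
    (he : e ≤ e') (hm : m' ≤ m) : Bes N R w e' m' := by
  intro X hX a
  refine (h X (hX.trans hm) a).trans ?_
  exact mul_le_mul_of_nonneg_right (by linarith) (sum_nonneg fun _ _ => by positivity)

theorem G1m : ∃ K : ℕ, 1 ≤ K ∧ ∀ k b : ℕ, 160 ≤ k → 1 ≤ b → ∀ c h : ℝ, 0 < c → c * (20 * k * K * b) ≤ 1 →
    0 < h → (K : ℝ) * (1 / 2) ^ b ≤ h ^ 6 → 30 * h ^ 2 < 8 / k →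
    ∃ N0 : ℕ, ∀ (N : ℕ) [NeZero N], N0 ≤ N → ∀ t : ℝ, (t = 1 ∨ t = -1) → HH N (B1 k N) (pw N c) t →
    ∃ χ : DirichletCharacter ℂ N, χ ≠ 1 ∧ χ ^ 2 = 1 ∧ (lv (R0 k c N) (w0 k c N) χ).im = 0 ∧
      1 - 8 * h ^ 2 ≤ ‖lv (R0 k c N) (w0 k c N) χ‖ ^ 2 ∧
      ‖1 + av (PP k N) (fun l => l) χ‖ ≤ 10 * h ^ 2 ∧ ‖rho (QQ k N) χ - t‖ ≤ 20 * h ^ 2 := by
  classical
  obtain ⟨K4, hK4, H4⟩ := C4b
  obtain ⟨K1, hK1, H1⟩ := P1m
  refine ⟨K4 + K1 + 50, by omega, ?_⟩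
  intro k b hk hb c h hc hcK h0 hKh h30
  have hkr : (160 : ℝ) ≤ k := by exact_mod_cast hk
  have hbr : (1 : ℝ) ≤ b := by exact_mod_cast hb
  have hK4r : (1 : ℝ) ≤ K4 := by exact_mod_cast hK4
  have hK1r : (1 : ℝ) ≤ K1 := by exact_mod_cast hK1
  push_cast at hcK hKh
  have hck : 0 < c * (20 * k) := by positivity
  have e1 : c * (20 * k * K4 * b) ≤ 1 := by
    refine le_trans ?_ hcK
    have : (0 : ℝ) ≤ c * (20 * k) * ((K1 + 50) * b) := by positivity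
    nlinarith
  have e2 : c * (20 * k * K1) ≤ 1 := by
    refine le_trans ?_ hcK
    have h1 : (K1 : ℝ) ≤ (K4 + K1 + 50) * b := by nlinarith
    calc c * (20 * k * K1) = c * (20 * k) * K1 := by ring
      _ ≤ c * (20 * k) * ((K4 + K1 + 50) * b) := mul_le_mul_of_nonneg_left h1 hck.le
      _ = _ := by ring
  have e3 : c ≤ 1 / (1000 * k) := by
    rw [le_div_iff₀ (by positivity)]
    have h1 : (50 : ℝ) ≤ (K4 + K1 + 50) * b := by nlinarith
    calc c * (1000 * k) = c * (20 * k) * 50 := by ring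
      _ ≤ c * (20 * k) * ((K4 + K1 + 50) * b) := mul_le_mul_of_nonneg_left h1 hck.le
      _ = c * (20 * k * (K4 + K1 + 50) * b) := by ring
      _ ≤ 1 := hcK
  have e4 : c ≤ 1 / 2 := e3.trans (by
    rw [div_le_div_iff₀ (by positivity) (by norm_num)]
    nlinarith)
  have hh2 : h ^ 2 < 1 / 600 := by
    have : (8 : ℝ) / k ≤ 8 / 160 := div_le_div_of_nonneg_left (by norm_num) (by norm_num) hkr
    linarith
  have hh6 : h ^ 6 ≤ 1 / 100 := by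
    have h1 : h ^ 6 = (h ^ 2) ^ 3 := by ring
    rw [h1]
    have h2 : (0 : ℝ) ≤ h ^ 2 := by positivity
    calc (h ^ 2) ^ 3 ≤ (1 / 600) ^ 3 := pow_le_pow_left₀ h2 hh2.le 3
      _ ≤ 1 / 100 := by norm_num
  have hp : (0 : ℝ) < (1 / 2) ^ b := by positivity
  have e5 : (K4 : ℝ) * (1 / 2) ^ b ≤ h ^ 6 := by
    refine le_trans ?_ hKh
    exact mul_le_mul_of_nonneg_right (by linarith) hp.le
  obtain ⟨n1, h1⟩ := H4 k b hk hb c hc e1 (e5.trans (hh6.trans (by norm_num)))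
  obtain ⟨n2, h2⟩ := H1 k hk c hc e3 e2 (h ^ 3) (by positivity)
  obtain ⟨n3, h3⟩ := T3m k hk c hc e4 (h ^ 6) (by positivity) hh6
  obtain ⟨n4, h4⟩ := B7m k hk
  obtain ⟨n5, h5⟩ := P0m k hk c hc e3
  obtain ⟨n6, h6⟩ := C8m k hk
  refine ⟨n1 + n2 + n3 + n4 + n5 + n6 + 2, ?_⟩
  intro N _ hN t ht hH
  obtain ⟨hWt, hBes⟩ := h1 N (by omega)
  obtain ⟨hPP, hcard, hone, hinv⟩ := h4 N (by omega)
  obtain ⟨q1, m1, q2, m2, -⟩ := h5 N (by omega)
  have hpw : pw N (1 / (10 * k)) ≤ pw N (1 / (5 * k)) := by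
    unfold pw
    refine Nat.floor_le_floor ?_
    refine Real.rpow_le_rpow_of_exponent_le (by exact_mod_cast (by omega : 1 ≤ N)) ?_
    exact div_le_div_of_nonneg_left (by norm_num) (by positivity) (by nlinarith)
  have hB := G1m_mono hBes e5 (le_refl (pw N (1 / (5 * k))))
  have hsq : Real.sqrt (h ^ 6) = h ^ 3 := by
    rw [show h ^ 6 = (h ^ 3) ^ 2 by ring]
    exact Real.sqrt_sq (by positivity)
  have hc1 : (XX k N).card + 1 ≤ pw N (1 / (5 * k)) := by omega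
  have t1 := h3 N (by omega) (QQ k N) (PP k N) (fun l => l) (XX k N) (-1) t _ q1 m1 (Or.inr rfl) ht hH hone
    hc1 hWt hB
  have t2 := h3 N (by omega) (QQ k N) (PP k N ×ˢ PP k N) (fun y : ℕ × ℕ => y.1 * y.2) (XX k N) 1 t _ q2 m2
    (Or.inl rfl) ht hH hone hc1 hWt hB
  rw [hsq] at t1 t2
  have hQc : ∀ q ∈ QQ k N, q.Coprime N := by
    intro q hq
    obtain ⟨p1, p2, p3⟩ := q1.qp q hq
    refine (Nat.Prime.coprime_iff_not_dvd p1).mpr ?_
    intro hd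
    exact absurd (Nat.le_of_dvd (by omega) hd) (by omega)
  have hQ0 : (QQ k N).Nonempty := by
    rw [← card_pos]
    have hqc := q1.qc
    by_contra hn
    have hz : (QQ k N).card = 0 := by omega
    rw [hz, Nat.cast_zero] at hqc
    have hNr : (0 : ℝ) < N := by exact_mod_cast (by omega : 0 < N)
    have hB1 : 0 < B1 k N := by
      unfold B1 pw
      rw [Nat.floor_pos]
      exact Real.one_le_rpow (by exact_mod_cast (by omega : 1 ≤ N)) (by positivity)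
    have : (0 : ℝ) < (B1 k N : ℝ) * (N : ℝ) ^ (-(tau k / 2)) :=
      mul_pos (by exact_mod_cast hB1) (Real.rpow_pos_of_pos hNr _)
    linarith
  have hd1 : (8 : ℝ) / k ≤ 1 / 20 := by
    rw [div_le_div_iff₀ (by positivity) (by norm_num)]
    linarith
  obtain ⟨χ, -, hne, hiv, him, hl, hA, hr⟩ := A4 (XX k N) 1 hone (fun χ => av (PP k N) (fun l => l) χ)
    (fun χ => rho (QQ k N) χ) (fun χ => lv (R0 k c N) (w0 k c N) χ) (fun χ => χ⁻¹)
    (fun χ hχ => ⟨hinv χ hχ, lv_inv _ _ χ⟩) (fun χ => av_le _ _ χ) (fun χ => rho_le _ χ)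
    (fun χ => lv_le hWt χ) (av_one _ _ q1.jc hPP) (rho_one _ hQc hQ0)
    (by rw [← lv_inv, inv_one]) t ht h (8 / k) h0 hd1 h30
    (fun χ hχ => by
      have := t1.1 χ hχ
      simpa using this)
    (fun χ hχ => by
      have := t2.1 χ hχ
      rw [av_prod (PP k N) (fun l => l) χ] at this
      simpa using this)
    t1.2 (h2 N (by omega) t ht hH) (by
      have := h6 N (by omega) (XX k N) (by omega)
      refine this.trans (le_of_eq ?_)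
      ring)
  refine ⟨χ, hne, ?_, him, hl, hA, hr⟩
  have h7 : χ⁻¹ = χ := hiv
  calc χ ^ 2 = χ * χ := sq χ
    _ = χ * χ⁻¹ := by rw [h7]
    _ = 1 := mul_inv_cancel χ

end Pool.Agent.Lib.PQ
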