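import Pool.Agent.Lib.MP_7b7e48_nt.PQ.T0m

/-!
# T0s: the sieve hypothesis for a set of primes (definitions)

The strong form of the theorem: the hypothesis `HP` concerns only the primes of a set `P` which contains all but the
proportion `1 / k` of the primes in `(N, B1]`.
-/

set_option autoImplicit false

open Finset
open Pool.Agent.Lib.GT (Rough pr V)
open Pool.Agent.Lib.MP_45349e_nt.LS (lam)
open Pool.Agent.Lib.RG (RC LV rr SS PB sig)

namespace Pool.Agent.Lib.PQ

/-- every representation `k N = p + b` with `p ∈ P` and a `z`-rough `b ∈ (N, B]` has `lam b = t` -/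
def HP (N B z : ℕ) (P : Finset ℕ) (t : ℝ) : Prop := ∀ p ∈ P, ∀ b : ℕ, N < b → b ≤ B →
  Rough z b → N ∣ p + b → lam b = t

/-- `P` consists of primes in `(N, B1]` and contains all but the proportion `1 / k` of them -/
structure PS (k N : ℕ) (P : Finset ℕ) : Prop where
  sub : P ⊆ QQ k N
  big : (1 - 1 / (k : ℝ)) * (QQ k N).card ≤ P.card

end Pool.Agent.Lib.PQ
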