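import Pool.Agent.Lib.MP_7b7e48_nt.PQ.T0m
import Pool.Agent.Lib.MP_7b7e48_nt.PQ.B1m
import Pool.Agent.Lib.MP_7b7e48_nt.PQ.B3m
import Pool.Agent.Lib.MP_7b7e48_nt.PQ.B5m
import Pool.Agent.Lib.MP_7b7e48_nt.PQ.D6m

/-!
# T1m (50 minutes): the tail of the Fourier expansion

PROOF. For `n, n' ∈ R0` the product is a unit, so by `B1m` `Pf (n n') - ∑_X = ∑_{χ ∉ X} rho χ * av χ * χ n * χ n'`, and
`B5m` with `Y = univ \ X`, `A = A0 k N` (`A² ≥ N` for large `N`), `B = B0 k N`, `J = ⌈4/c⌉` (`B² ≤ N²`,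
`z^(J+1) ≥ (N^c/2)^(4/c) > N²`) bounds the left side by `ms(R0)⁻² * 2^J (1 + 2 log B) * ∑_{χ ∉ X} ‖rho χ‖² ‖av χ‖²`;
`w0 n = 1/(n ms)`, `ms ≥ 1/(4k)` (`D6m`). `‖av χ‖² ≤ 16 N^(-2τ)` (`xj`), and by `B3m`
`∑ ‖rho χ‖² ≤ φ(N) (B1/N + 1)/#Q ≤ 2 B1 / #Q ≤ 2 N^(τ/2)` (`N ≤ B1`, `qc`). Total `≤ C(k, c) log N * N^(τ/2 - 2τ) ≤ N^(-τ)`
for large `N`.
-/

set_option autoImplicit false

open Finset
open Pool.Agent.Lib.GT (Rough pr V)
open Pool.Agent.Lib.MP_45349e_nt.LS (lam)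
open Pool.Agent.Lib.RG (RC LV rr SS PB sig)

namespace Pool.Agent.Lib.PQ

private lemma t1_ev {a b : ℝ} (ha : 0 < a) (hb : 0 < b) :
    ∃ N0 : ℕ, ∀ N : ℕ, N0 ≤ N → b * (N : ℝ) ^ (-a) ≤ 1 := by
  have h := (tendsto_rpow_neg_atTop ha).comp (tendsto_natCast_atTop_atTop (R := ℝ))
  have h2 := h.eventually (gt_mem_nhds (show (0 : ℝ) < 1 / b by positivity))
  obtain ⟨N0, h3⟩ := Filter.eventually_atTop.mp h2
  refine ⟨N0, fun N hN => ?_⟩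
  have h4 := h3 N hN
  simp only [Function.comp_apply] at h4
  rw [lt_div_iff₀ hb] at h4
  linarith

private lemma t1_up (a b : ℝ) (ha : 0 < a) : ∃ N0 : ℕ, ∀ N : ℕ, N0 ≤ N → b ≤ (N : ℝ) ^ a := by
  have h := (tendsto_rpow_atTop ha).comp (tendsto_natCast_atTop_atTop (R := ℝ))
  obtain ⟨N0, h3⟩ := Filter.eventually_atTop.mp (h.eventually_ge_atTop b)
  exact ⟨N0, fun N hN => h3 N hN⟩

private lemma t1_log {a C : ℝ} (ha : 0 < a) (hC : 0 < C) :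
    ∃ N0 : ℕ, ∀ N : ℕ, N0 ≤ N → C * (1 + 2 * Real.log N) * (N : ℝ) ^ (-a) ≤ 1 := by
  obtain ⟨N0, h0⟩ := t1_ev (a := a / 2) (b := C * (1 + 4 / a)) (by positivity) (by positivity)
  refine ⟨N0 + 1, fun N hN => ?_⟩
  have hN1 : (1 : ℝ) ≤ N := by
    have : 1 ≤ N := by omega
    exact_mod_cast this
  have hN0 : (0 : ℝ) < N := by linarith
  have h1 : Real.log N ≤ (N : ℝ) ^ (a / 2) / (a / 2) := Real.log_le_rpow_div hN0.le (by positivity)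
  have h2 : (1 : ℝ) ≤ (N : ℝ) ^ (a / 2) := Real.one_le_rpow hN1 (by positivity)
  have h3 : C * (1 + 2 * Real.log N) ≤ C * (1 + 4 / a) * (N : ℝ) ^ (a / 2) := by
    have h4 : 2 * ((N : ℝ) ^ (a / 2) / (a / 2)) = 4 / a * (N : ℝ) ^ (a / 2) := by
      field_simp
      ring
    calc C * (1 + 2 * Real.log N) ≤ C * ((N : ℝ) ^ (a / 2) + 4 / a * (N : ℝ) ^ (a / 2)) := by
          refine mul_le_mul_of_nonneg_left ?_ hC.le
          linarith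
      _ = C * (1 + 4 / a) * (N : ℝ) ^ (a / 2) := by ring
  have h5 : 0 ≤ (N : ℝ) ^ (-a) := Real.rpow_nonneg hN0.le _
  calc C * (1 + 2 * Real.log N) * (N : ℝ) ^ (-a) ≤
        C * (1 + 4 / a) * (N : ℝ) ^ (a / 2) * (N : ℝ) ^ (-a) := mul_le_mul_of_nonneg_right h3 h5
    _ = C * (1 + 4 / a) * (N : ℝ) ^ (-(a / 2)) := by
        rw [mul_assoc (C * (1 + 4 / a)), ← Real.rpow_add hN0]
        congr 2
        ring
    _ ≤ 1 := h0 N (by omega)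

private lemma t1_pw_ge (N : ℕ) (x : ℝ) (h : 1 ≤ (N : ℝ) ^ x) : (N : ℝ) ^ x / 2 ≤ pw N x := by
  unfold pw
  have h1 := Nat.lt_floor_add_one ((N : ℝ) ^ x)
  have h2 : 1 ≤ ⌊(N : ℝ) ^ x⌋₊ := Nat.le_floor (by exact_mod_cast h)
  have h3 : (1 : ℝ) ≤ (⌊(N : ℝ) ^ x⌋₊ : ℝ) := by exact_mod_cast h2
  linarith

private lemma t1_pw_le (N : ℕ) (x : ℝ) : (pw N x : ℝ) ≤ (N : ℝ) ^ x :=
  Nat.floor_le (Real.rpow_nonneg (Nat.cast_nonneg N) x)

private lemma t1_B1 {k N : ℕ} (hN : 1 ≤ N) : N ≤ B1 k N := by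
  unfold B1 pw
  apply Nat.le_floor
  have h1 : (1 : ℝ) ≤ N := by exact_mod_cast hN
  have h2 : (0 : ℝ) ≤ 8 / k := by positivity
  calc (N : ℝ) = (N : ℝ) ^ (1 : ℝ) := (Real.rpow_one _).symm
    _ ≤ (N : ℝ) ^ (1 + 8 / (k : ℝ)) := Real.rpow_le_rpow_of_exponent_le h1 (by linarith)

private lemma t1_tau {k : ℕ} (hk : 160 ≤ k) : 0 < tau k := by
  unfold tau
  have : (0 : ℝ) < k := by
    have : 0 < k := by omega
    exact_mod_cast this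
  positivity

/-- the mean square of `rho` -/
private lemma t1_rho {k N : ℕ} [NeZero N] (hN : 1 ≤ N) {ι : Type} {J : Finset ι}
    {m : ι → ℕ} {Q : Finset ℕ} {X : Finset (DirichletCharacter ℂ N)} (h : QJ k N Q J m X) :
    ∑ χ : DirichletCharacter ℂ N, ‖rho Q χ‖ ^ 2 ≤ 2 * (N : ℝ) ^ (tau k / 2) := by
  have hN0 : (0 : ℝ) < N := by exact_mod_cast hN
  have hB := t1_B1 (k := k) hN
  have hB' : (N : ℝ) ≤ B1 k N := by exact_mod_cast hB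
  have hB0 : (0 : ℝ) < B1 k N := lt_of_lt_of_le hN0 hB'
  have hcop : ∀ q ∈ Q, q.Coprime N ∧ 1 ≤ q ∧ q ≤ B1 k N := by
    intro q hq
    obtain ⟨h1, h2, h3⟩ := h.qp q hq
    refine ⟨?_, h1.one_le, h3⟩
    rw [Nat.Prime.coprime_iff_not_dvd h1]
    intro hd
    exact absurd (Nat.le_of_dvd hN hd) (by omega)
  have hp : 0 < (N : ℝ) ^ (-(tau k / 2)) := Real.rpow_pos_of_pos hN0 _
  have hc0 : (0 : ℝ) < Q.card := lt_of_lt_of_le (mul_pos hB0 hp) h.qc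
  have hne : Q.Nonempty := Finset.card_pos.mp (by exact_mod_cast hc0)
  refine (B3m N Q (B1 k N) hcop hne).trans ?_
  rw [div_le_iff₀ hc0]
  have h1 : (N.totient : ℝ) * ((B1 k N : ℝ) / N + 1) ≤ 2 * B1 k N := by
    have h2 : (N.totient : ℝ) ≤ N := by exact_mod_cast Nat.totient_le N
    calc (N.totient : ℝ) * ((B1 k N : ℝ) / N + 1) ≤ N * ((B1 k N : ℝ) / N + 1) :=
          mul_le_mul_of_nonneg_right h2 (by positivity)
      _ = B1 k N + N := by field_simp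
      _ ≤ 2 * B1 k N := by linarith
  refine h1.trans ?_
  have h3 : (N : ℝ) ^ (tau k / 2) * (N : ℝ) ^ (-(tau k / 2)) = 1 := by
    rw [← Real.rpow_add hN0, add_neg_cancel, Real.rpow_zero]
  calc 2 * (B1 k N : ℝ) = 2 * (N : ℝ) ^ (tau k / 2) * (B1 k N * (N : ℝ) ^ (-(tau k / 2))) := by
        linear_combination (-2 * (B1 k N : ℝ)) * h3
    _ ≤ 2 * (N : ℝ) ^ (tau k / 2) * Q.card := mul_le_mul_of_nonneg_left h.qc (by positivity)

/-- the elementary facts on the parameters -/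
private lemma t1_par (k : ℕ) (hk : 160 ≤ k) (c : ℝ) (hc : 0 < c) : ∃ N0 : ℕ, ∀ N : ℕ, N0 ≤ N →
    2 ≤ pw N c ∧ N ≤ A0 k N ^ 2 ∧ A0 k N ≤ B0 k N ∧ B0 k N ^ 2 < pw N c ^ (⌈4 / c⌉₊ + 1) ∧
      (B0 k N : ℝ) ≤ N ∧ 1 ≤ B0 k N := by
  have hk0 : (0 : ℝ) < k := by
    have : 0 < k := by omega
    exact_mod_cast this
  have hk160 : (160 : ℝ) ≤ k := by exact_mod_cast hk
  obtain ⟨N1, h1⟩ := t1_up c 4 hc
  obtain ⟨N2, h2⟩ := t1_up (1 / k) 4 (by positivity)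
  obtain ⟨N3, h3⟩ := t1_up 2 ((2 : ℝ) ^ (4 / c) + 1) (by norm_num)
  refine ⟨N1 + N2 + N3 + 1, fun N hN => ?_⟩
  have hN1 : (1 : ℝ) ≤ N := by
    have : 1 ≤ N := by omega
    exact_mod_cast this
  have hN0 : (0 : ℝ) < N := by linarith
  have e1 := h1 N (by omega)
  have e2 := h2 N (by omega)
  have e3 := h3 N (by omega)
  have hz := t1_pw_ge N c (by linarith)
  have hA1 : (1 : ℝ) ≤ (N : ℝ) ^ ((1 : ℝ) / 2 + 1 / (2 * k)) :=
    Real.one_le_rpow hN1 (by positivity)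
  have hA := t1_pw_ge N (1 / 2 + 1 / (2 * k)) hA1
  have hB := t1_pw_le N (1 / 2 + 1 / k)
  have hkk : (1 : ℝ) / k ≤ 1 / 160 := one_div_le_one_div_of_le (by norm_num) hk160
  have hBN : (B0 k N : ℝ) ≤ N := by
    calc (B0 k N : ℝ) ≤ (N : ℝ) ^ ((1 : ℝ) / 2 + 1 / k) := hB
      _ ≤ (N : ℝ) ^ (1 : ℝ) := Real.rpow_le_rpow_of_exponent_le hN1 (by linarith)
      _ = N := Real.rpow_one _
  refine ⟨?_, ?_, ?_, ?_, hBN, ?_⟩
  · have : (2 : ℝ) ≤ pw N c := by linarith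
    exact_mod_cast this
  · have h4 : (N : ℝ) ≤ (A0 k N : ℝ) ^ 2 := by
      have h5 : ((N : ℝ) ^ ((1 : ℝ) / 2 + 1 / (2 * k))) ^ 2 = N * (N : ℝ) ^ ((1 : ℝ) / k) := by
        rw [← Real.rpow_natCast, ← Real.rpow_mul hN0.le]
        have : ((1 : ℝ) / 2 + 1 / (2 * k)) * ((2 : ℕ) : ℝ) = 1 + 1 / k := by
          push_cast
          field_simp
        rw [this, Real.rpow_add hN0, Real.rpow_one]
      have h6 : ((N : ℝ) ^ ((1 : ℝ) / 2 + 1 / (2 * k)) / 2) ^ 2 ≤ (A0 k N : ℝ) ^ 2 :=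
        pow_le_pow_left₀ (by positivity) hA 2
      rw [div_pow, h5] at h6
      refine le_trans ?_ h6
      have h7 : (N : ℝ) * 4 ≤ N * (N : ℝ) ^ ((1 : ℝ) / k) := mul_le_mul_of_nonneg_left e2 hN0.le
      linarith
    exact_mod_cast h4
  · unfold A0 B0 pw
    refine Nat.floor_le_floor (Real.rpow_le_rpow_of_exponent_le hN1 ?_)
    have : (1 : ℝ) / (2 * k) ≤ 1 / k := one_div_le_one_div_of_le hk0 (by linarith)
    linarith
  · have h4 : (B0 k N : ℝ) ^ 2 < (pw N c : ℝ) ^ (⌈4 / c⌉₊ + 1) := by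
      have h5 : (B0 k N : ℝ) ^ 2 ≤ (N : ℝ) ^ 2 := pow_le_pow_left₀ (Nat.cast_nonneg _) hBN 2
      have hz1 : (1 : ℝ) ≤ (N : ℝ) ^ c / 2 := by linarith
      have h6 : ((N : ℝ) ^ c / 2) ^ (4 / c) ≤ (pw N c : ℝ) ^ (⌈4 / c⌉₊ + 1) := by
        calc ((N : ℝ) ^ c / 2) ^ (4 / c) ≤ ((N : ℝ) ^ c / 2) ^ (((⌈4 / c⌉₊ + 1 : ℕ)) : ℝ) := by
              refine Real.rpow_le_rpow_of_exponent_le hz1 ?_
              have := Nat.le_ceil (4 / c)
              push_cast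
              linarith
          _ = ((N : ℝ) ^ c / 2) ^ (⌈4 / c⌉₊ + 1) := Real.rpow_natCast _ _
          _ ≤ (pw N c : ℝ) ^ (⌈4 / c⌉₊ + 1) := pow_le_pow_left₀ (by positivity) hz _
      refine lt_of_le_of_lt h5 (lt_of_lt_of_le ?_ h6)
      have h8 : ((N : ℝ) ^ c / 2) ^ (4 / c) = (N : ℝ) ^ 4 / (2 : ℝ) ^ (4 / c) := by
        rw [Real.div_rpow (by positivity) (by norm_num), ← Real.rpow_mul hN0.le,
          mul_div_cancel₀ _ hc.ne', ← Real.rpow_natCast N 4]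
        norm_num
      rw [h8, lt_div_iff₀ (by positivity)]
      have h9 : (2 : ℝ) ^ (4 / c) < (N : ℝ) ^ 2 := by
        have : (N : ℝ) ^ (2 : ℝ) = (N : ℝ) ^ 2 := by
          rw [← Real.rpow_natCast N 2]
          norm_num
        rw [← this]
        linarith
      calc (N : ℝ) ^ 2 * (2 : ℝ) ^ (4 / c) < (N : ℝ) ^ 2 * (N : ℝ) ^ 2 :=
            mul_lt_mul_of_pos_left h9 (by positivity)
        _ = (N : ℝ) ^ 4 := by ring
    exact_mod_cast h4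
  · unfold B0 pw
    refine Nat.le_floor ?_
    rw [Nat.cast_one]
    exact Real.one_le_rpow hN1 (by positivity)

theorem T1m (k : ℕ) (hk : 160 ≤ k) (c : ℝ) (hc : 0 < c) (hc1 : c ≤ 1 / 2) :
    ∃ N0 : ℕ, ∀ (N : ℕ) [NeZero N], N0 ≤ N → ∀ {ι : Type} (Q : Finset ℕ) (J : Finset ι) (m : ι → ℕ)
    (X : Finset (DirichletCharacter ℂ N)), QJ k N Q J m X →
    ∑ n ∈ R0 k c N, ∑ n' ∈ R0 k c N, w0 k c N n * (w0 k c N n' *
      ‖((Pf N Q J m ((n : ZMod N) * (n' : ZMod N)) : ℝ) : ℂ) -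
        ∑ χ ∈ X, rho Q χ * av J m χ * (χ (n : ZMod N) * χ (n' : ZMod N))‖ ^ 2) ≤ (N : ℝ) ^ (-tau k) := by
  classical
  have hτ := t1_tau hk
  have hk0 : (0 : ℝ) < k := by
    have : 0 < k := by omega
    exact_mod_cast this
  obtain ⟨N1, hpar⟩ := t1_par k hk c hc
  obtain ⟨N2, hD⟩ := D6m k hk c hc hc1
  obtain ⟨N3, hlog⟩ := t1_log (a := tau k / 2) (C := 16 * k ^ 2 * (2 : ℝ) ^ ⌈4 / c⌉₊ * 32)
    (by positivity) (by positivity)
  refine ⟨N1 + N2 + N3 + 1, fun N _ hN ι Q J m X hQJ => ?_⟩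
  obtain ⟨hz, hA, hAB, hBz, hBN, hB1⟩ := hpar N (by omega)
  have hms := hD N (by omega)
  have hl := hlog N (by omega)
  have hN1 : 1 ≤ N := by omega
  have hN1' : (1 : ℝ) ≤ N := by exact_mod_cast hN1
  have hN0 : (0 : ℝ) < N := by linarith
  set M := ms (R0 k c N) with hM
  have hM0 : 0 < M := lt_of_lt_of_le (by positivity) hms
  have hcop : ∀ q ∈ Q, q.Coprime N := by
    intro q hq
    obtain ⟨h1, h2, h3⟩ := hQJ.qp q hq
    rw [Nat.Prime.coprime_iff_not_dvd h1]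
    intro hd
    exact absurd (Nat.le_of_dvd hN1 hd) (by omega)
  have hR : ∀ n ∈ R0 k c N, IsUnit (n : ZMod N) := fun n hn =>
    (ZMod.isUnit_iff_coprime n N).mpr (Finset.mem_filter.mp hn).2.2
  have hkey : ∀ n ∈ R0 k c N, ∀ n' ∈ R0 k c N, w0 k c N n * (w0 k c N n' *
      ‖((Pf N Q J m ((n : ZMod N) * (n' : ZMod N)) : ℝ) : ℂ) -
        ∑ χ ∈ X, rho Q χ * av J m χ * (χ (n : ZMod N) * χ (n' : ZMod N))‖ ^ 2) =
      (1 / M ^ 2) * (1 / ((n : ℝ) * n') * ‖∑ χ ∈ Xᶜ, (fun χ : DirichletCharacter ℂ N =>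
        rho Q χ * av J m χ) χ * (χ (n : ZMod N) * χ (n' : ZMod N))‖ ^ 2) := by
    intro n hn n' hn'
    have h1 : ((Pf N Q J m ((n : ZMod N) * (n' : ZMod N)) : ℝ) : ℂ) -
        ∑ χ ∈ X, rho Q χ * av J m χ * (χ (n : ZMod N) * χ (n' : ZMod N)) =
        ∑ χ ∈ Xᶜ, rho Q χ * av J m χ * (χ (n : ZMod N) * χ (n' : ZMod N)) := by
      rw [B1m N Q hcop J m _ ((hR n hn).mul (hR n' hn')), sub_eq_iff_eq_add,
        add_comm, Finset.sum_add_sum_compl]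
      refine Finset.sum_congr rfl fun χ _ => ?_
      rw [map_mul]
    rw [h1]
    change wt (R0 k c N) n * (wt (R0 k c N) n' * _) = _
    unfold wt
    rw [← hM]
    ring
  rw [Finset.sum_congr rfl fun n hn => Finset.sum_congr rfl fun n' hn' => hkey n hn n' hn']
  simp only [← Finset.mul_sum]
  have h5 := B5m N (pw N c) (A0 k N) (B0 k N) ⌈4 / c⌉₊ hz hA hAB hBz Xᶜ
    (fun χ => rho Q χ * av J m χ)
  have hY : ∑ χ ∈ Xᶜ, ‖rho Q χ * av J m χ‖ ^ 2 ≤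
      16 * (N : ℝ) ^ (-(2 * tau k)) * (2 * (N : ℝ) ^ (tau k / 2)) := by
    have h1 : ∀ χ ∈ Xᶜ, ‖rho Q χ * av J m χ‖ ^ 2 ≤
        16 * (N : ℝ) ^ (-(2 * tau k)) * ‖rho Q χ‖ ^ 2 := by
      intro χ hχ
      have h2 := hQJ.xj χ (Finset.mem_compl.mp hχ)
      have h3 : ‖av J m χ‖ ^ 2 ≤ 16 * (N : ℝ) ^ (-(2 * tau k)) := by
        calc ‖av J m χ‖ ^ 2 ≤ (4 * (N : ℝ) ^ (-tau k)) ^ 2 :=
              pow_le_pow_left₀ (norm_nonneg _) h2 2
          _ = 16 * (N : ℝ) ^ (-(2 * tau k)) := by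
              rw [mul_pow, ← Real.rpow_natCast ((N : ℝ) ^ (-tau k)), ← Real.rpow_mul hN0.le]
              congr 1
              · norm_num
              · congr 1
                push_cast
                ring
      rw [norm_mul, mul_pow, mul_comm]
      exact mul_le_mul_of_nonneg_right h3 (by positivity)
    refine (Finset.sum_le_sum h1).trans ?_
    rw [← Finset.mul_sum]
    refine mul_le_mul_of_nonneg_left ?_ (by positivity)
    exact (Finset.sum_le_univ_sum_of_nonneg fun χ => by positivity).trans (t1_rho hN1 hQJ)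
  have hlogB : Real.log (B0 k N) ≤ Real.log N :=
    Real.log_le_log (by exact_mod_cast hB1) hBN
  have hlogN : 0 ≤ Real.log N := Real.log_nonneg hN1'
  have hlogB0 : 0 ≤ Real.log (B0 k N) := Real.log_nonneg (by exact_mod_cast hB1)
  have hMk : 1 / M ^ 2 ≤ 16 * k ^ 2 := by
    rw [div_le_iff₀ (by positivity)]
    have h1 : (1 / (4 * (k : ℝ))) ^ 2 ≤ M ^ 2 := pow_le_pow_left₀ (by positivity) hms 2
    calc (1 : ℝ) = 16 * k ^ 2 * (1 / (4 * (k : ℝ))) ^ 2 := by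
          field_simp
          norm_num
      _ ≤ 16 * k ^ 2 * M ^ 2 := mul_le_mul_of_nonneg_left h1 (by positivity)
  calc 1 / M ^ 2 * ∑ n ∈ R0 k c N, ∑ n' ∈ R0 k c N, 1 / ((n : ℝ) * n') *
        ‖∑ χ ∈ Xᶜ, rho Q χ * av J m χ * (χ (n : ZMod N) * χ (n' : ZMod N))‖ ^ 2
      ≤ (16 * k ^ 2) * (2 ^ ⌈4 / c⌉₊ * (1 + 2 * Real.log (B0 k N)) *
          ∑ χ ∈ Xᶜ, ‖rho Q χ * av J m χ‖ ^ 2) := by
        refine mul_le_mul hMk h5 ?_ (by positivity)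
        exact Finset.sum_nonneg fun n _ => Finset.sum_nonneg fun n' _ => by positivity
    _ ≤ (16 * k ^ 2) * (2 ^ ⌈4 / c⌉₊ * (1 + 2 * Real.log N) *
          (16 * (N : ℝ) ^ (-(2 * tau k)) * (2 * (N : ℝ) ^ (tau k / 2)))) := by
        refine mul_le_mul_of_nonneg_left ?_ (by positivity)
        refine mul_le_mul ?_ hY (Finset.sum_nonneg fun χ _ => by positivity) (by positivity)
        refine mul_le_mul_of_nonneg_left ?_ (by positivity)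
        linarith
    _ = (16 * k ^ 2 * (2 : ℝ) ^ ⌈4 / c⌉₊ * 32 * (1 + 2 * Real.log N) *
          (N : ℝ) ^ (-(tau k / 2))) * (N : ℝ) ^ (-tau k) := by
        have h6 : (N : ℝ) ^ (-(2 * tau k)) * (N : ℝ) ^ (tau k / 2) =
            (N : ℝ) ^ (-(tau k / 2)) * (N : ℝ) ^ (-tau k) := by
          rw [← Real.rpow_add hN0, ← Real.rpow_add hN0]
          congr 1
          ring
        linear_combination (16 * (k : ℝ) ^ 2 * (2 ^ ⌈4 / c⌉₊ * (1 + 2 * Real.log N) * 32)) * h6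
    _ ≤ 1 * (N : ℝ) ^ (-tau k) := mul_le_mul_of_nonneg_right hl (by positivity)
    _ = (N : ℝ) ^ (-tau k) := one_mul _

end Pool.Agent.Lib.PQ
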