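import Pool.Agent.Lib.MP_7b7e48_nt.PQ.T1m
import Pool.Agent.Lib.MP_7b7e48_nt.PQ.T2m
import Pool.Agent.Lib.MP_7b7e48_nt.PQ.A3a
import Pool.Agent.Lib.MP_7b7e48_nt.PQ.A3b

/-!
# T3m (35 minutes): the additive input of the L2 argument

PROOF. By `T2m`, `(lam n * lam n' - s t) * Pf (n n') = 0`, so `(lam n * lam n' - s t) * ∑_X = -(lam n * lam n' - s t) * (Pf - ∑_X)`,
norm `≤ 2 ‖Pf - ∑_X‖`; by `T1m` the double sum is `≤ 4 N^(-τ) ≤ e / 4` for large `N` (`N ≤ A0²` for large `N`). Then `A3a` and `A3b` with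
`c χ = rho Q χ * av J m χ` (`c 1 = 1`: `rho_one`, `av_one`; `‖c χ‖ ≤ 1`: `rho_le`, `av_le`; `Q` is nonempty by `qc`), `t := s t`.
-/

set_option autoImplicit false

open Finset
open Pool.Agent.Lib.GT (Rough pr V)
open Pool.Agent.Lib.MP_45349e_nt.LS (lam)
open Pool.Agent.Lib.RG (RC LV rr SS PB sig)

namespace Pool.Agent.Lib.PQ

private theorem T3m_lam (n : ℕ) : lam n = 1 ∨ lam n = -1 := by
  unfold lam
  exact neg_one_pow_eq_or ℝ _

private theorem T3m_A0 {k N : ℕ} (hN : 1 ≤ N) (h : (4 : ℝ) ≤ (N : ℝ) ^ (1 / (k : ℝ))) :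
    N ≤ A0 k N ^ 2 := by
  have hNR : (1 : ℝ) ≤ N := by exact_mod_cast hN
  have hN0 : (0 : ℝ) < N := by linarith
  obtain ⟨x, hx⟩ : ∃ x : ℝ, x = (N : ℝ) ^ (1 / 2 + 1 / (2 * (k : ℝ))) := ⟨_, rfl⟩
  have hx1 : 1 ≤ x := by
    rw [hx]
    exact Real.one_le_rpow hNR (by positivity)
  have hA0 : A0 k N = ⌊x⌋₊ := by
    rw [hx]
    rfl
  have hAR : x / 2 ≤ A0 k N := by
    rw [hA0]
    have h1 := Nat.lt_floor_add_one x
    have h2 : (1 : ℝ) ≤ (⌊x⌋₊ : ℝ) := by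
      have : 1 ≤ ⌊x⌋₊ := Nat.le_floor (by simpa using hx1)
      exact_mod_cast this
    linarith
  have h2 : (N : ℝ) ≤ (A0 k N : ℝ) ^ 2 := by
    calc (N : ℝ) = N * 4 / 4 := by ring
      _ ≤ N * (N : ℝ) ^ (1 / (k : ℝ)) / 4 := by gcongr
      _ = (x / 2) ^ 2 := by
          rw [hx, div_pow, ← Real.rpow_natCast, ← Real.rpow_mul hN0.le]
          have e1 : (1 / 2 + 1 / (2 * (k : ℝ))) * ((2 : ℕ) : ℝ) = 1 + 1 / k := by
            push_cast
            rcases eq_or_ne (k : ℝ) 0 with h0 | h0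
            · rw [h0]
              norm_num
            · field_simp
          rw [e1, Real.rpow_add hN0, Real.rpow_one]
          norm_num
      _ ≤ _ := by
          have : 0 ≤ x / 2 := by linarith
          gcongr
  exact_mod_cast h2

theorem T3m (k : ℕ) (hk : 160 ≤ k) (c : ℝ) (hc : 0 < c) (hc1 : c ≤ 1 / 2) (e : ℝ) (he : 0 < e)
    (he1 : e ≤ 1 / 100) :
    ∃ N0 : ℕ, ∀ (N : ℕ) [NeZero N], N0 ≤ N → ∀ {ι : Type} (Q : Finset ℕ) (J : Finset ι) (m : ι → ℕ)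
    (X : Finset (DirichletCharacter ℂ N)) (s t : ℝ) (M : ℕ), QJ k N Q J m X → MJ k c N J m s →
    (s = 1 ∨ s = -1) → (t = 1 ∨ t = -1) → HH N (B1 k N) (pw N c) t → (1 : DirichletCharacter ℂ N) ∈ X →
    X.card + 1 ≤ M → Wt N (R0 k c N) (w0 k c N) → Bes N (R0 k c N) (w0 k c N) e M →
    (∀ χ ∈ X, ‖rho Q χ * av J m χ * lv (R0 k c N) (w0 k c N) χ -
      ((s * t : ℝ) : ℂ) * (starRingEnd ℂ) (lv (R0 k c N) (w0 k c N) χ)‖ ≤ 4 * Real.sqrt e) ∧
      1 - 4 * Real.sqrt e ≤ ∑ χ ∈ X, ‖rho Q χ * av J m χ * lv (R0 k c N) (w0 k c N) χ‖ ^ 2 := by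
  obtain ⟨N1, hN1⟩ := T1m k hk c hc hc1
  have hkR : (160 : ℝ) ≤ k := by exact_mod_cast hk
  have hτ : 0 < tau k := by
    unfold tau
    positivity
  have hcast : Filter.Tendsto (fun N : ℕ => (N : ℝ)) Filter.atTop Filter.atTop :=
    tendsto_natCast_atTop_atTop
  have ev1 : ∀ᶠ N : ℕ in Filter.atTop, (N : ℝ) ^ (-tau k) ≤ e / 16 :=
    ((tendsto_rpow_neg_atTop hτ).comp hcast).eventually (ge_mem_nhds (by positivity))
  have ev2 : ∀ᶠ N : ℕ in Filter.atTop, (4 : ℝ) ≤ (N : ℝ) ^ (1 / (k : ℝ)) :=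
    ((tendsto_rpow_atTop (by positivity : (0 : ℝ) < 1 / k)).comp hcast).eventually_ge_atTop _
  obtain ⟨N0, hN0⟩ := Filter.eventually_atTop.1
    (ev1.and (ev2.and (Filter.eventually_ge_atTop (max N1 2))))
  refine ⟨N0, ?_⟩
  intro N _ hN ι Q J m X s t M hQJ hMJ hs ht hH h1X hX hw hB
  obtain ⟨e1, e2, e3⟩ := hN0 N hN
  have hN1' : N1 ≤ N := (le_max_left _ _).trans e3
  have hN2 : 2 ≤ N := (le_max_right _ _).trans e3
  have hA : N ≤ A0 k N ^ 2 := T3m_A0 (by omega) e2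
  have hNR : (1 : ℝ) ≤ N := by
    have : 1 ≤ N := by omega
    exact_mod_cast this
  have hst : s * t = 1 ∨ s * t = -1 := by
    rcases hs with rfl | rfl <;> rcases ht with rfl | rfl <;> norm_num
  have hcop : ∀ q ∈ Q, q.Coprime N := by
    intro q hq
    obtain ⟨q1, q2, _⟩ := hQJ.qp q hq
    rw [Nat.Prime.coprime_iff_not_dvd q1]
    intro hd
    have := Nat.le_of_dvd (by omega) hd
    omega
  have hQne : Q.Nonempty := by
    rw [← Finset.card_pos]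
    have h2 := hQJ.qc
    have hB1 : (1 : ℝ) ≤ B1 k N := by
      have h3 : 1 ≤ B1 k N := by
        unfold B1 pw
        refine Nat.le_floor ?_
        rw [Nat.cast_one]
        exact Real.one_le_rpow hNR (by positivity)
      exact_mod_cast h3
    have h4 : (0 : ℝ) < (N : ℝ) ^ (-(tau k / 2)) := Real.rpow_pos_of_pos (by linarith) _
    have h5 : (0 : ℝ) < (Q.card : ℝ) := by nlinarith
    exact_mod_cast h5
  obtain ⟨C, hC⟩ : ∃ C : DirichletCharacter ℂ N → ℂ, C = fun χ => rho Q χ * av J m χ := ⟨_, rfl⟩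
  have hC1 : C 1 = 1 := by
    rw [hC]
    simp only
    rw [rho_one Q hcop hQne, av_one J m hQJ.jc hQJ.j0, mul_one]
  have hCle : ∀ χ, ‖C χ‖ ≤ 1 := by
    intro χ
    rw [hC]
    simp only
    rw [norm_mul]
    exact mul_le_one₀ (rho_le Q χ) (norm_nonneg _) (av_le J m χ)
  have hyp : ∑ n ∈ R0 k c N, ∑ n' ∈ R0 k c N, w0 k c N n * (w0 k c N n' *
      ‖((lam n * lam n' - s * t : ℝ) : ℂ) *
        ∑ χ ∈ X, C χ * (χ (n : ZMod N) * χ (n' : ZMod N))‖ ^ 2) ≤ e / 4 := by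
    have h2 := hN1 N hN1' Q J m X hQJ
    have h3 : ∑ n ∈ R0 k c N, ∑ n' ∈ R0 k c N, w0 k c N n * (w0 k c N n' *
        ‖((lam n * lam n' - s * t : ℝ) : ℂ) *
          ∑ χ ∈ X, C χ * (χ (n : ZMod N) * χ (n' : ZMod N))‖ ^ 2) ≤
        4 * ∑ n ∈ R0 k c N, ∑ n' ∈ R0 k c N, w0 k c N n * (w0 k c N n' *
      ‖((Pf N Q J m ((n : ZMod N) * (n' : ZMod N)) : ℝ) : ℂ) -
        ∑ χ ∈ X, rho Q χ * av J m χ * (χ (n : ZMod N) * χ (n' : ZMod N))‖ ^ 2) := by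
      rw [Finset.mul_sum]
      refine Finset.sum_le_sum fun n hn => ?_
      rw [Finset.mul_sum]
      refine Finset.sum_le_sum fun n' hn' => ?_
      have w1 := hw.nonneg n hn
      have w2 := hw.nonneg n' hn'
      obtain ⟨P, hP⟩ : ∃ P : ℝ, P = Pf N Q J m ((n : ZMod N) * (n' : ZMod N)) := ⟨_, rfl⟩
      obtain ⟨Z, hZ⟩ : ∃ Z : ℂ, Z = ∑ χ ∈ X, rho Q χ * av J m χ *
          (χ (n : ZMod N) * χ (n' : ZMod N)) := ⟨_, rfl⟩
      have hZ' : ∑ χ ∈ X, C χ * (χ (n : ZMod N) * χ (n' : ZMod N)) = Z := by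
        rw [hZ, hC]
      rw [hZ', ← hZ, ← hP]
      obtain ⟨d, hd⟩ : ∃ d : ℝ, d = lam n * lam n' - s * t := ⟨_, rfl⟩
      rw [← hd]
      have hdP : (d : ℂ) * (P : ℂ) = 0 := by
        by_cases hP0 : P = 0
        · rw [hP0]
          simp
        · have h4 := T2m hs hH hA hQJ.qp hMJ n n' hn hn' (by rw [← hP]; exact hP0)
          rw [hd, h4, sub_self]
          simp
      have hd2 : |d| ≤ 2 := by
        rw [hd]
        rcases T3m_lam n with h5 | h5 <;> rcases T3m_lam n' with h6 | h6 <;>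
          rcases hst with h7 | h7 <;> rw [h5, h6, h7] <;> norm_num
      have h8 : ‖(d : ℂ) * Z‖ ^ 2 ≤ 4 * ‖(P : ℂ) - Z‖ ^ 2 := by
        have h9 : (d : ℂ) * Z = -((d : ℂ) * ((P : ℂ) - Z)) := by
          rw [mul_sub, hdP]
          ring
        rw [h9, norm_neg, norm_mul, mul_pow, Complex.norm_real, Real.norm_eq_abs]
        have h10 : |d| ^ 2 ≤ 4 := by
          have h11 := abs_nonneg d
          nlinarith
        exact mul_le_mul_of_nonneg_right h10 (sq_nonneg _)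
      calc w0 k c N n * (w0 k c N n' * ‖(d : ℂ) * Z‖ ^ 2)
          ≤ w0 k c N n * (w0 k c N n' * (4 * ‖(P : ℂ) - Z‖ ^ 2)) := by gcongr
        _ = 4 * (w0 k c N n * (w0 k c N n' * ‖(P : ℂ) - Z‖ ^ 2)) := by ring
    refine h3.trans ?_
    calc 4 * ∑ n ∈ R0 k c N, ∑ n' ∈ R0 k c N, w0 k c N n * (w0 k c N n' *
      ‖((Pf N Q J m ((n : ZMod N) * (n' : ZMod N)) : ℝ) : ℂ) -
        ∑ χ ∈ X, rho Q χ * av J m χ * (χ (n : ZMod N) * χ (n' : ZMod N))‖ ^ 2)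
        ≤ 4 * (N : ℝ) ^ (-tau k) := by gcongr
      _ ≤ 4 * (e / 16) := by gcongr
      _ = e / 4 := by ring
  have h12 := A3a hw he he1 hB X h1X hX C hC1 hCle (s * t) hst hyp
  have h13 := A3b hw he he1 hB X hX C hCle (s * t) hst h12
  rw [hC] at h13
  exact h13

end Pool.Agent.Lib.PQ
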